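import Pool.Agent.H71.CT.TcBase

/-! Automorphisms of the order of growth of clocks. -/

namespace Pool.Agent.H71.CT

/-- `R e e'`: a correspondence between total programs that is an isomorphism for the order of
growth of the clocks, uniformly computable below every bound. -/
structure IsAuto (R : ℕ → ℕ → Prop) : Prop where
  tot : ∀ e e', R e e' → Tot e ∧ Tot e'
  left : ∀ e, Tot e → ∃ e', R e e'
  right : ∀ e', Tot e' → ∃ e, R e e'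
  iso : ∀ e₁ e₁' e₂ e₂', R e₁ e₁' → R e₂ e₂' → (Ole (ck e₁) (ck e₂) ↔ Ole (ck e₁') (ck e₂'))
  unif : ∀ ι : ℕ → ℕ, Computable ι → (∀ j, Tot (ι j)) → ∀ e₀, Tot e₀ →
    (∀ j, Ole (ck (ι j)) (ck e₀)) → ∃ ι' : ℕ → ℕ, Computable ι' ∧ ∀ j, R (ι j) (ι' j)
  unif' : ∀ ι' : ℕ → ℕ, Computable ι' → (∀ j, Tot (ι' j)) → ∀ e₀, Tot e₀ →
    (∀ j, Ole (ck (ι' j)) (ck e₀)) → ∃ ι : ℕ → ℕ, Computable ι ∧ ∀ j, R (ι j) (ι' j)

end Pool.Agent.H71.CT
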