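import Pool.Agent.H71.CT.Game

/-!
Strategy tables and the controlled processes.

A history is a list of bits, oldest first, in blocks of `K` bits (one block per step); it is coded
by the natural number with a leading `1`.
-/

namespace Pool.Agent.H71.CT

/-- code of a list of bits, oldest first, with a leading one -/
def codeOf (l : List Bool) : ℕ := l.foldl (fun c b => 2 * c + b.toNat) 1

/-- the bits of a code, oldest first, without the leading one -/
def bitsOf (c : ℕ) : List Bool := (Nat.bits c).reverse.tail

/-- the state after the first `i` blocks -/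
def stN (K : ℕ) (l : List Bool) : ℕ → Q
  | 0 => []
  | i + 1 => ext K (stN K l i) ((l.drop (i * K)).take K)

/-- the state after all complete blocks -/
def stOf (K : ℕ) (l : List Bool) : Q := stN K l (l.length / K)

/-- value of the game on histories with `j` bits left -/
def W (own : ℕ → Bool) (K : ℕ) (pay : Q → ℕ) : ℕ → List Bool → ℕ
  | 0, l => pay (stOf K l)
  | j + 1, l =>
      let o :=
        if decide (K ≤ l.length) && l.getD (l.length - K) false then
          W own K pay j (l ++ [true])
        else if own (l.length % K) then
          max (W own K pay j (l ++ [false])) (W own K pay j (l ++ [true]))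
        else min (W own K pay j (l ++ [false])) (W own K pay j (l ++ [true]))
      if l.length % K = 0 then max (pay (stOf K l)) o else o

/-- total number of bits of the longest histories -/
def NB (K : ℕ) : ℕ := 2 * M K * K

/-- is the bit of the function whose turn it is forced? -/
def forced (K : ℕ) (l : List Bool) : Bool :=
  decide (K ≤ l.length) && l.getD (l.length - K) false

/-- the decision of the minimiser -/
def f0 (own : ℕ → Bool) (K : ℕ) (pay : Q → ℕ) (l : List Bool) : ℕ :=
  if forced K l then 1
  else if W own K pay (NB K - l.length - 1) (l ++ [true]) <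
    W own K pay (NB K - l.length - 1) (l ++ [false]) then 1 else 0

/-- the decision of the maximiser -/
def f1 (own : ℕ → Bool) (K : ℕ) (pay : Q → ℕ) (l : List Bool) : ℕ :=
  if forced K l then 1
  else if W own K pay (NB K - l.length - 1) (l ++ [false]) <
    W own K pay (NB K - l.length - 1) (l ++ [true]) then 1 else 0

/-- does the maximiser go on (at the beginning of a step)? -/
def f2 (own : ℕ → Bool) (K : ℕ) (pay : Q → ℕ) (l : List Bool) : ℕ :=
  if pay (stOf K l) < W own K pay (NB K - l.length) l then 1 else 0

/-- is the last block to be dropped (at the beginning of a step)? -/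
def f3 (K : ℕ) (l : List Bool) : ℕ :=
  if 0 < l.length ∧ l.length % K = 0 ∧
    stN K l (l.length / K) = stN K l (l.length / K - 1) then 1 else 0

/-- the strategy table -/
def mkT (own : ℕ → Bool) (K : ℕ) (pay : Q → ℕ) : List ℕ :=
  K :: (List.range (2 ^ (NB K + 1))).flatMap (fun c =>
    [f0 own K pay (bitsOf c), f1 own K pay (bitsOf c), f2 own K pay (bitsOf c), f3 K (bitsOf c)])

/-- level of a table -/
def lev (T : List ℕ) : ℕ := T.getD 0 0

/-- field `j` of the code `c` -/
def fld (T : List ℕ) (c j : ℕ) : ℕ := T.getD (1 + 4 * c + j) 0

/-- the code after `v` bits of a step, the bit of `v` at code `c` being `bit v c` -/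
def cst (bit : ℕ → ℕ → Bool) (c : ℕ) : ℕ → ℕ
  | 0 => c
  | v + 1 => 2 * cst bit c v + (bit v (cst bit c v)).toNat

/-- one step with the rule that drops superfluous blocks -/
def stepS (T : List ℕ) (bit : ℕ → ℕ → Bool) (c : ℕ) : ℕ :=
  if 0 < fld T (cst bit c (lev T)) 3 then c else cst bit c (lev T)

/-- one step without dropping -/
def stepN (T : List ℕ) (bit : ℕ → ℕ → Bool) (c : ℕ) : ℕ := cst bit c (lev T)

/-- the code after `t` steps of the old phase, `a` being the stopping times of the board -/
def oldC (T : List ℕ) (a : ℕ → ℕ) (s0 : ℕ) : ℕ → ℕ
  | 0 => 1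
  | t + 1 => stepS T (fun v _ => decide (a v ≤ s0 + t)) (oldC T a s0 t)

/-- A board: old stopping times, start, old horizon, bits of the adversary, and the functions
that we control. -/
structure Board where
  a : ℕ → ℕ
  s0 : ℕ
  h : ℕ
  adv : ℕ → ℕ → Bool
  me : ℕ → Bool

/-- the bit of `v` at code `c` and time `s` in the new phase, decision field `j` -/
def nbit (T : List ℕ) (b : Board) (j s : ℕ) (v c : ℕ) : Bool :=
  if b.me v then decide (v < lev T) && decide (0 < fld T c j) else b.adv v s

/-- code after `u` steps of the new phase; `P` side: blocks are dropped, decision field 0;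
other side (`sd = false`): no dropping, decision field 1 -/
def newC (T : List ℕ) (b : Board) (sd : Bool) : ℕ → ℕ
  | 0 => oldC T b.a b.s0 (b.h - b.s0)
  | u + 1 =>
      if sd then stepS T (nbit T b 0 (b.h + u)) (newC T b sd u)
      else stepN T (nbit T b 1 (b.h + u)) (newC T b sd u)

/-- the bit of function `v` at step `u` of the new phase -/
def bitAt (T : List ℕ) (b : Board) (sd : Bool) (u v : ℕ) : Bool :=
  nbit T b (if sd then 0 else 1) (b.h + u) v
    (cst (nbit T b (if sd then 0 else 1) (b.h + u)) (newC T b sd u) v)

/-- least `u < w` with `f u`, or `w` -/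
def leastBelow (f : ℕ → Bool) (w : ℕ) : ℕ := ((List.range w).find? f).getD w

/-- the new stopping time of `v` when the new horizon is `h'` -/
def newA (T : List ℕ) (b : Board) (sd : Bool) (h' : ℕ) (v : ℕ) : ℕ :=
  if b.a v < b.h then b.a v
  else b.h + leastBelow (fun u => bitAt T b sd u v) (h' - b.h)

/-- consistency of a board: stopping times before the horizon, the adversary's functions follow
the bits of the adversary, and these are monotone -/
structure Board.Ok (b : Board) : Prop where
  s0h : b.s0 ≤ b.h
  lo : ∀ v, b.s0 ≤ b.a v
  hi : ∀ v, b.a v ≤ b.h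
  mono : ∀ v s, b.adv v s = true → b.adv v (s + 1) = true
  adv : ∀ v, b.me v = false → ∀ s, b.s0 ≤ s → s < b.h → (b.adv v s = true ↔ b.a v ≤ s)

/-- bound for the number of steps of the new phase on the `Q` side -/
def QB (T : List ℕ) : ℕ := 2 * M (lev T)

/-- the new horizon on the `Q` side: the first step at which the table does not say `go on` -/
def newH (T : List ℕ) (b : Board) : ℕ :=
  b.h + leastBelow (fun u => decide (fld T (newC T b false u) 2 = 0)) (QB T)

/-- histories in which the bits of stopped functions are set -/
def LegalHist (K : ℕ) (l : List Bool) : Prop :=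
  ∀ j, K ≤ j → j < l.length → l.getD (j - K) false = true → l.getD j false = true

end Pool.Agent.H71.CT
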