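import Pool.Agent.H71.CT.Env
import Pool.Agent.H71.CT.Table

/-!
The boards of a stage.
-/

namespace Pool.Agent.H71.CT

/-- the functions that we control: even ones if `par = true`, odd ones if `par = false` -/
def meP (par : Bool) (v : ℕ) : Bool := decide (v % 2 = 0) == par

/-- board `n` of a side: stopping times `A v n`, horizon `F n`, the adversary's function `v`
follows program `v / 2` -/
def mkB (A : ℕ → ℕ → ℕ) (F : ℕ → ℕ) (stp : ℕ → ℕ → ℕ → Bool) (par : Bool) (n : ℕ) : Board where
  a := fun v => A v n
  s0 := s0 n
  h := F n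
  adv := fun v s => stp (v / 2) n s
  me := meP par

/-- field `j` of the table stored in array `ta` (length in variable `tl`), code `c` -/
theorem meP_not (par : Bool) (v : ℕ) : meP (!par) v = !meP par v := by
  unfold meP
  cases par <;> cases decide (v % 2 = 0) <;> rfl

/-- first time `s ≥ F n` at which the bit of program `p` is set -/
def FirstFrom (stp : ℕ → ℕ → ℕ → Bool) (p : ℕ) (F F' : ℕ → ℕ) : Prop :=
  ∀ n, F n ≤ F' n ∧ stp p n (F' n) = true ∧ ∀ s, F n ≤ s → s < F' n → stp p n s = false

end Pool.Agent.H71.CT
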