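import Pool.Agent.H71.CT.CalcDef

/-! Pairing in the while language. -/

namespace Pool.Agent.H71.CT

private theorem calcPair_loop (b x : ℕ) (hx : x = b ∨ x = b + 1) :
    ∀ (k : ℕ) (σ : St), σ.v (b + 3) = k → σ.v (b + 5) = 1 →
      ∃ c τ, Big (.whl (b + 3) (.seq (.add (b + 4) (b + 4) x) (.sub (b + 3) (b + 3) (b + 5))))
        σ c τ ∧ τ.v (b + 4) = σ.v (b + 4) + k * σ.v x ∧
        (∀ v < b + 3, τ.v v = σ.v v) ∧ τ.a = σ.a ∧ τ.inp = σ.inp ∧ τ.out = σ.out := by
  have hx3 : x < b + 3 := by omega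
  intro k
  induction k with
  | zero =>
    intro σ h3 h5
    refine ⟨1, σ, Big.while_end (by rw [h3]; simp), by simp, fun _ _ => rfl, rfl, rfl, rfl⟩
  | succ k ih =>
    intro σ h3 h5
    have e1 := Big.add σ (b + 4) (b + 4) x
    have e2 := Big.sub (σ.sv (b + 4) (σ.v (b + 4) + σ.v x)) (b + 3) (b + 3) (b + 5)
    set σ1 := σ.sv (b + 4) (σ.v (b + 4) + σ.v x) with hσ1
    set σ2 := σ1.sv (b + 3) (σ1.v (b + 3) - σ1.v (b + 5)) with hσ2
    have g3 : σ2.v (b + 3) = k := by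
      simp [hσ2, hσ1, St.sv, h3, h5]
    have g5 : σ2.v (b + 5) = 1 := by
      simp [hσ2, hσ1, St.sv, h5]
    have g4 : σ2.v (b + 4) = σ.v (b + 4) + σ.v x := by
      simp [hσ2, hσ1, St.sv]
    have gl : ∀ v < b + 3, σ2.v v = σ.v v := by
      intro v hv
      have h1 : v ≠ b + 3 := by omega
      have h2 : v ≠ b + 4 := by omega
      simp [hσ2, hσ1, St.sv, Function.update_of_ne h1, Function.update_of_ne h2]
    obtain ⟨c, τ, hB, t4, tl, ta, ti, tout⟩ := ih σ2 g3 g5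
    refine ⟨1 + 1 + c + 1, τ, Big.while_step (by rw [h3]; positivity) (Big.seq e1 e2) hB,
      ?_, ?_, ?_, ?_, ?_⟩
    · rw [t4, g4, gl x hx3]
      push_cast
      ring
    · intro v hv
      rw [tl v hv, gl v hv]
    · rw [ta]; rfl
    · rw [ti]; rfl
    · rw [tout]; rfl

theorem calc_pair (b : ℕ) : ∃ s, CalcAt2 b s Nat.pair := by
  refine ⟨.seq (.const (b + 4) 0) (.seq (.const (b + 5) 1) (.seq (.sub (b + 2) (b + 1) b)
    (.ite (b + 2)
      (.seq (.mov (b + 3) (b + 1)) (.seq (.whl (b + 3)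
        (.seq (.add (b + 4) (b + 4) (b + 1)) (.sub (b + 3) (b + 3) (b + 5))))
        (.add b (b + 4) b)))
      (.seq (.mov (b + 3) b) (.seq (.whl (b + 3)
        (.seq (.add (b + 4) (b + 4) b) (.sub (b + 3) (b + 3) (b + 5))))
        (.seq (.add b (b + 4) b) (.add b b (b + 1)))))))), ?_⟩
  intro σ n m hn hm
  have e1 := Big.const σ (b + 4) 0
  set σ1 := σ.sv (b + 4) 0 with hσ1
  have e2 := Big.const σ1 (b + 5) 1
  set σ2 := σ1.sv (b + 5) 1 with hσ2
  have e3 := Big.sub σ2 (b + 2) (b + 1) b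
  set σ3 := σ2.sv (b + 2) (σ2.v (b + 1) - σ2.v b) with hσ3
  have g2 : σ3.v (b + 2) = (m : ℤ) - n := by
    simp [hσ3, hσ2, hσ1, St.sv, hn, hm]
  have g4 : σ3.v (b + 4) = 0 := by
    simp [hσ3, hσ2, hσ1, St.sv]
  have g5 : σ3.v (b + 5) = 1 := by
    simp [hσ3, hσ2, hσ1, St.sv]
  have gl : ∀ v < b + 2, σ3.v v = σ.v v := by
    intro v hv
    have h1 : v ≠ b + 2 := by omega
    have h2 : v ≠ b + 4 := by omega
    have h3 : v ≠ b + 5 := by omega
    simp [hσ3, hσ2, hσ1, St.sv, Function.update_of_ne h1, Function.update_of_ne h2,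
      Function.update_of_ne h3]
  have gb : σ3.v b = n := by rw [gl b (by omega), hn]
  have gb1 : σ3.v (b + 1) = m := by rw [gl (b + 1) (by omega), hm]
  by_cases hlt : n < m
  · have e4 := Big.mov σ3 (b + 3) (b + 1)
    set σ4 := σ3.sv (b + 3) (σ3.v (b + 1)) with hσ4
    have k3 : σ4.v (b + 3) = m := by simp [hσ4, St.sv, gb1]
    have k5 : σ4.v (b + 5) = 1 := by simp [hσ4, St.sv, g5]
    have k4 : σ4.v (b + 4) = 0 := by simp [hσ4, St.sv, g4]
    have kl : ∀ v < b + 3, σ4.v v = σ3.v v := by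
      intro v hv
      have h1 : v ≠ b + 3 := by omega
      simp [hσ4, St.sv, Function.update_of_ne h1]
    obtain ⟨c, τ, hB, t4, tl, ta, ti, tout⟩ := calcPair_loop b (b + 1) (Or.inr rfl) m σ4 k3 k5
    have e5 := Big.add τ b (b + 4) b
    refine ⟨_, _, Big.seq e1 (Big.seq e2 (Big.seq e3 (Big.ite_pos (by rw [g2]; omega)
      (Big.seq e4 (Big.seq hB e5))))), ?_, ?_, ?_, ?_, ?_⟩
    · have : (τ.sv b (τ.v (b + 4) + τ.v b)).v b = τ.v (b + 4) + τ.v b := by simp [St.sv]
      rw [this, t4, k4, tl b (by omega), kl b (by omega), kl (b + 1) (by omega), gb, gb1]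
      simp only [Nat.pair, if_pos hlt]
      push_cast
      ring
    · intro v hv
      have h1 : v ≠ b := by omega
      simp only [St.sv, Function.update_of_ne h1]
      rw [tl v (by omega), kl v (by omega), gl v (by omega)]
    · show τ.a = σ.a
      rw [ta]; rfl
    · show τ.inp = σ.inp
      rw [ti]; rfl
    · show τ.out = σ.out
      rw [tout]; rfl
  · have e4 := Big.mov σ3 (b + 3) b
    set σ4 := σ3.sv (b + 3) (σ3.v b) with hσ4
    have k3 : σ4.v (b + 3) = n := by simp [hσ4, St.sv, gb]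
    have k5 : σ4.v (b + 5) = 1 := by simp [hσ4, St.sv, g5]
    have k4 : σ4.v (b + 4) = 0 := by simp [hσ4, St.sv, g4]
    have kl : ∀ v < b + 3, σ4.v v = σ3.v v := by
      intro v hv
      have h1 : v ≠ b + 3 := by omega
      simp [hσ4, St.sv, Function.update_of_ne h1]
    obtain ⟨c, τ, hB, t4, tl, ta, ti, tout⟩ := calcPair_loop b b (Or.inl rfl) n σ4 k3 k5
    have e5 := Big.add τ b (b + 4) b
    set τ1 := τ.sv b (τ.v (b + 4) + τ.v b) with hτ1
    have e6 := Big.add τ1 b b (b + 1)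
    refine ⟨_, _, Big.seq e1 (Big.seq e2 (Big.seq e3 (Big.ite_neg (by rw [g2]; omega)
      (Big.seq e4 (Big.seq hB (Big.seq e5 e6)))))), ?_, ?_, ?_, ?_, ?_⟩
    · have h1 : (τ1.sv b (τ1.v b + τ1.v (b + 1))).v b = τ1.v b + τ1.v (b + 1) := by
        simp [St.sv]
      have h2 : τ1.v b = τ.v (b + 4) + τ.v b := by simp [hτ1, St.sv]
      have h3 : τ1.v (b + 1) = τ.v (b + 1) := by simp [hτ1, St.sv]
      rw [h1, h2, h3, t4, k4, tl b (by omega), kl b (by omega), tl (b + 1) (by omega),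
        kl (b + 1) (by omega), gb, gb1]
      simp only [Nat.pair, if_neg hlt]
      push_cast
      ring
    · intro v hv
      have h1 : v ≠ b := by omega
      simp only [hτ1, St.sv, Function.update_of_ne h1]
      rw [tl v (by omega), kl v (by omega), gl v (by omega)]
    · show τ.a = σ.a
      rw [ta]; rfl
    · show τ.inp = σ.inp
      rw [ti]; rfl
    · show τ.out = σ.out
      rw [tout]; rfl

end Pool.Agent.H71.CT
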