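import Pool.Agent.H71.CT.CalcUnpair
import Pool.Agent.H71.CT.CalcPair

/-! Every code of Mathlib's partially recursive functions is computed by a statement. -/

namespace Pool.Agent.H71.CT

/-- some terminating run of `s` from `σ` ends in a state with `P` -/
private def CcEx (s : Stmt) (σ : St) (P : St → Prop) : Prop := ∃ c τ, Big s σ c τ ∧ P τ

/-- only variables from `b` on differ -/
private structure CcFr (b : ℕ) (σ τ : St) : Prop where
  v : ∀ v < b, τ.v v = σ.v v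
  a : τ.a = σ.a
  inp : τ.inp = σ.inp
  out : τ.out = σ.out

private theorem CcFr.refl (b : ℕ) (σ : St) : CcFr b σ σ := ⟨fun _ _ => rfl, rfl, rfl, rfl⟩

private theorem CcFr.trans {b : ℕ} {σ τ ρ : St} (h : CcFr b σ τ) (h' : CcFr b τ ρ) :
    CcFr b σ ρ :=
  ⟨fun v hv => (h'.v v hv).trans (h.v v hv), h'.a.trans h.a, h'.inp.trans h.inp,
    h'.out.trans h.out⟩

private theorem CcFr.mono {b b' : ℕ} {σ τ : St} (h : CcFr b' σ τ) (hb : b ≤ b') :
    CcFr b σ τ := ⟨fun v hv => h.v v (lt_of_lt_of_le hv hb), h.a, h.inp, h.out⟩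

private theorem CcFr.sv {b : ℕ} (σ : St) {v : ℕ} (hv : b ≤ v) (z : ℤ) : CcFr b σ (σ.sv v z) := by
  refine ⟨fun w hw => ?_, rfl, rfl, rfl⟩
  have : w ≠ v := by omega
  simp [St.sv, Function.update_of_ne this]

private theorem sv_same (σ : St) (v : ℕ) (z : ℤ) : (σ.sv v z).v v = z := by simp [St.sv]

private theorem sv_ne (σ : St) {v w : ℕ} (h : w ≠ v) (z : ℤ) : (σ.sv v z).v w = σ.v w := by
  simp [St.sv, Function.update_of_ne h]

private theorem CcEx.seq {s t : Stmt} {σ : St} {P : St → Prop}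
    (h : CcEx s σ (fun τ => CcEx t τ P)) : CcEx (.seq s t) σ P := by
  obtain ⟨c, τ, h1, d, ρ, h2, h3⟩ := h
  exact ⟨c + d, ρ, Big.seq h1 h2, h3⟩

private theorem CcEx.imp {s : Stmt} {σ : St} {P Q : St → Prop} (h : CcEx s σ P)
    (hPQ : ∀ τ, P τ → Q τ) : CcEx s σ Q := by
  obtain ⟨c, τ, h1, h2⟩ := h
  exact ⟨c, τ, h1, hPQ τ h2⟩

private theorem CcEx.mov {σ : St} {v a : ℕ} {P : St → Prop} (h : P (σ.sv v (σ.v a))) :
    CcEx (.mov v a) σ P := ⟨1, _, Big.mov σ v a, h⟩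

private theorem CcEx.const {σ : St} {v : ℕ} {c : ℤ} {P : St → Prop} (h : P (σ.sv v c)) :
    CcEx (.const v c) σ P := ⟨1, _, Big.const σ v c, h⟩

private theorem CcEx.add {σ : St} {v a b : ℕ} {P : St → Prop}
    (h : P (σ.sv v (σ.v a + σ.v b))) : CcEx (.add v a b) σ P := ⟨1, _, Big.add σ v a b, h⟩

private theorem CcEx.sub {σ : St} {v a b : ℕ} {P : St → Prop}
    (h : P (σ.sv v (σ.v a - σ.v b))) : CcEx (.sub v a b) σ P := ⟨1, _, Big.sub σ v a b, h⟩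

private theorem calcAt_iff {b : ℕ} {s : Stmt} {f : ℕ →. ℕ} : CalcAt b s f ↔
    ∀ (σ : St) (n m : ℕ), σ.v b = n → m ∈ f n → CcEx s σ (fun τ => τ.v b = m ∧ CcFr b σ τ) := by
  constructor
  · intro h σ n m h1 h2
    obtain ⟨c, τ, h3, h4, h5, h6, h7, h8⟩ := h σ n m h1 h2
    exact ⟨c, τ, h3, h4, h5, h6, h7, h8⟩
  · intro h σ n m h1 h2
    obtain ⟨c, τ, h3, h4, h5⟩ := h σ n m h1 h2
    exact ⟨c, τ, h3, h4, h5.v, h5.a, h5.inp, h5.out⟩

private theorem calcAt2_ex {b : ℕ} {s : Stmt} {f : ℕ → ℕ → ℕ} (h : CalcAt2 b s f)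
    (σ : St) (n m : ℕ) (h1 : σ.v b = n) (h2 : σ.v (b + 1) = m) :
    CcEx s σ (fun τ => τ.v b = f n m ∧ CcFr b σ τ) := by
  obtain ⟨c, τ, h3, h4, h5, h6, h7, h8⟩ := h σ n m h1 h2
  exact ⟨c, τ, h3, h4, h5, h6, h7, h8⟩

private theorem cc_zero (b : ℕ) : CalcAt b (.const b 0) Nat.Partrec.Code.zero.eval := by
  rw [calcAt_iff]
  intro σ n m h1 h2
  have h3 : m = 0 := Part.mem_some_iff.1 h2
  subst h3
  exact CcEx.const ⟨by simp [sv_same], CcFr.sv σ le_rfl _⟩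

private theorem cc_succ (b : ℕ) :
    CalcAt b (.seq (.const (b + 1) 1) (.add b b (b + 1))) Nat.Partrec.Code.succ.eval := by
  rw [calcAt_iff]
  intro σ n m h1 h2
  have h3 : m = n + 1 := by simpa [Nat.Partrec.Code.eval] using h2
  subst h3
  refine CcEx.seq (CcEx.const (CcEx.add ⟨?_, ?_⟩))
  · rw [sv_same, sv_same, sv_ne _ (by omega), h1]
    push_cast
    ring
  · exact (CcFr.sv σ (by omega) _).trans (CcFr.sv _ le_rfl _)

private theorem cc_comp {b : ℕ} {f g : ℕ →. ℕ} {s t : Stmt} (hf : CalcAt b s f)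
    (hg : CalcAt b t g) : CalcAt b (.seq t s) (fun n => g n >>= f) := by
  rw [calcAt_iff] at *
  intro σ n m h1 h2
  obtain ⟨i, hi, hm⟩ : ∃ i, i ∈ g n ∧ m ∈ f i := by simpa using h2
  refine CcEx.seq ((hg σ n i h1 hi).imp fun τ hτ => ?_)
  exact (hf τ i m hτ.1 hm).imp fun ρ hρ => ⟨hρ.1, hτ.2.trans hρ.2⟩

private theorem cc_pair {b : ℕ} {f g : ℕ →. ℕ} {s t p : Stmt} (hf : CalcAt (b + 2) s f)
    (hg : CalcAt (b + 1) t g) (hp : CalcAt2 b p Nat.pair) :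
    CalcAt b (.seq (.mov (b + 1) b) (.seq t (.seq (.mov (b + 2) b) (.seq s
      (.seq (.mov b (b + 2)) p))))) (fun n => Nat.pair <$> f n <*> g n) := by
  rw [calcAt_iff] at *
  intro σ n m h1 h2
  obtain ⟨i, hi, j, hj, hm⟩ : ∃ i, i ∈ f n ∧ ∃ j, j ∈ g n ∧ m = Nat.pair i j := by
    simp only [Seq.seq, Part.map_eq_map, Part.mem_bind_iff, Part.mem_map_iff] at h2
    obtain ⟨a, ⟨i, hi, rfl⟩, j, hj, hm⟩ := h2
    exact ⟨i, hi, j, hj, hm.symm⟩
  subst hm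
  refine CcEx.seq (CcEx.mov (CcEx.seq ?_))
  refine (hg _ n j (by rw [sv_same, h1]) hj).imp fun τ hτ => ?_
  have e1 : τ.v b = n := by rw [hτ.2.v b (by omega), sv_ne _ (by omega), h1]
  have f1 : CcFr b σ τ := (CcFr.sv σ (by omega) _).trans (hτ.2.mono (by omega))
  refine CcEx.seq (CcEx.mov (CcEx.seq ?_))
  refine (hf _ n i (by rw [sv_same, e1]) hi).imp fun ρ hρ => ?_
  have e2 : ρ.v (b + 1) = j := by rw [hρ.2.v (b + 1) (by omega), sv_ne _ (by omega), hτ.1]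
  have f2 : CcFr b σ ρ := (f1.trans (CcFr.sv τ (by omega) _)).trans (hρ.2.mono (by omega))
  refine CcEx.seq (CcEx.mov ?_)
  refine (calcAt2_ex hp _ i j (by rw [sv_same, hρ.1]) (by rw [sv_ne _ (by omega), e2])).imp
    fun ω hω => ⟨hω.1, (f2.trans (CcFr.sv ρ le_rfl _)).trans hω.2⟩

/-- general loop rule -/
private theorem CcEx.loop {v : ℕ} {s : Stmt} (n : ℕ) (I : ℕ → St → Prop)
    (hpos : ∀ j < n, ∀ σ, I j σ → 0 < σ.v v) (hend : ∀ σ, I n σ → ¬ 0 < σ.v v)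
    (hstep : ∀ j < n, ∀ σ, I j σ → CcEx s σ (I (j + 1))) (σ : St) (h : I 0 σ) :
    CcEx (.whl v s) σ (I n) := by
  have key : ∀ d, ∀ j, j + d = n → ∀ σ, I j σ → CcEx (.whl v s) σ (I n) := by
    intro d
    induction d with
    | zero =>
      intro j hj σ hσ
      have hj' : j = n := by omega
      subst hj'
      exact ⟨1, σ, Big.while_end (hend σ hσ), hσ⟩
    | succ d ih =>
      intro j hj σ hσ
      obtain ⟨c, τ, hτ, hI⟩ := hstep j (by omega) σ hσ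
      obtain ⟨e, ρ, hρ, hn⟩ := ih (j + 1) (by omega) τ hI
      exact ⟨_, ρ, Big.while_step (hpos j (by omega) σ hσ) hτ hρ, hn⟩
  exact key n 0 (by omega) σ h

/-- unpair `v_b` into `v_(b+1), v_(b+2)` -/
private theorem cc_unp (b : ℕ) : ∃ s, ∀ (σ : St) (n : ℕ), σ.v b = n →
    CcEx s σ (fun τ => τ.v (b + 1) = n.unpair.1 ∧ τ.v (b + 2) = n.unpair.2 ∧ CcFr b σ τ) := by
  obtain ⟨s, hs⟩ := calc_left (b + 1)
  obtain ⟨t, ht⟩ := calc_right (b + 2)
  rw [calcAt_iff] at hs ht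
  refine ⟨.seq (.mov (b + 1) b) (.seq s (.seq (.mov (b + 2) b) t)), fun σ n h1 => ?_⟩
  refine CcEx.seq (CcEx.mov (CcEx.seq ?_))
  refine (hs _ n n.unpair.1 (by rw [sv_same, h1]) (Part.mem_some _)).imp fun τ hτ => ?_
  have e1 : τ.v b = n := by rw [hτ.2.v b (by omega), sv_ne _ (by omega), h1]
  have f1 : CcFr b σ τ := (CcFr.sv σ (by omega) _).trans (hτ.2.mono (by omega))
  refine CcEx.seq (CcEx.mov ?_)
  refine (ht _ n n.unpair.2 (by rw [sv_same, e1]) (Part.mem_some _)).imp fun ρ hρ => ?_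
  refine ⟨?_, hρ.1, (f1.trans (CcFr.sv τ (by omega) _)).trans (hρ.2.mono (by omega))⟩
  rw [hρ.2.v (b + 1) (by omega), sv_ne _ (by omega), hτ.1]

private theorem cc_prec {f g : ℕ →. ℕ} (b : ℕ) {s t : Stmt} (hf : CalcAt (b + 4) s f)
    (hg : CalcAt (b + 5) t g) : ∃ w, CalcAt b w (Nat.unpaired fun a n =>
      n.rec (f a) fun y IH => do
        let i ← IH
        g (Nat.pair a (Nat.pair y i))) := by
  obtain ⟨u, hu⟩ := cc_unp b
  obtain ⟨p, hp⟩ := calc_pair (b + 6)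
  obtain ⟨q, hq⟩ := calc_pair (b + 5)
  rw [calcAt_iff] at hf hg
  let body : Stmt := .seq (.mov (b + 6) (b + 3)) (.seq (.mov (b + 7) (b + 4)) (.seq p
    (.seq (.mov (b + 5) (b + 1)) (.seq q (.seq t (.seq (.mov (b + 4) (b + 5))
    (.seq (.const (b + 5) 1) (.seq (.add (b + 3) (b + 3) (b + 5))
    (.sub (b + 2) (b + 2) (b + 5))))))))))
  refine ⟨.seq u (.seq (.mov (b + 4) (b + 1)) (.seq s (.seq (.const (b + 3) 0)
    (.seq (.whl (b + 2) body) (.mov b (b + 4)))))), ?_⟩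
  rw [calcAt_iff]
  intro σ n m h1 h2
  simp only [Nat.unpaired] at h2
  set a := n.unpair.1 with ha
  set k := n.unpair.2 with hk
  let R : ℕ → Part ℕ := fun k => Nat.rec (f a) (fun y IH => do
        let i ← IH
        g (Nat.pair a (Nat.pair y i))) k
  have hR : m ∈ R k := h2
  have hS : ∀ y, R (y + 1) = (R y >>= fun i => g (Nat.pair a (Nat.pair y i))) := fun y => rfl
  have hdom : ∀ d, ∀ j, j + d = k → ∃ i, i ∈ R j := by
    intro d
    induction d with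
    | zero => intro j hj; exact ⟨m, by rw [show j = k by omega]; exact hR⟩
    | succ d ih =>
      intro j hj
      obtain ⟨i, hi⟩ := ih (j + 1) (by omega)
      rw [hS] at hi
      obtain ⟨i', hi', -⟩ : ∃ i', i' ∈ R j ∧ i ∈ g (Nat.pair a (Nat.pair j i')) := by
        simpa using hi
      exact ⟨i', hi'⟩
  have hv : ∀ j ≤ k, ∃ i, i ∈ R j := fun j hj => hdom (k - j) j (by omega)
  refine CcEx.seq ((hu σ n h1).imp fun τ hτ => ?_)
  obtain ⟨e1, e2, f1⟩ := hτ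
  obtain ⟨i0, hi0⟩ := hv 0 (Nat.zero_le _)
  refine CcEx.seq (CcEx.mov (CcEx.seq ?_))
  refine (hf _ a i0 (by rw [sv_same, e1]) hi0).imp fun ρ hρ => ?_
  have e3 : ρ.v (b + 1) = a := by rw [hρ.2.v (b + 1) (by omega), sv_ne _ (by omega), e1]
  have e4 : ρ.v (b + 2) = k := by rw [hρ.2.v (b + 2) (by omega), sv_ne _ (by omega), e2]
  have f2 : CcFr b σ ρ := (f1.trans (CcFr.sv τ (by omega) _)).trans (hρ.2.mono (by omega))
  refine CcEx.seq (CcEx.const (CcEx.seq ?_))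
  refine (CcEx.loop k (fun j τ => τ.v (b + 1) = a ∧ τ.v (b + 2) = ((k - j : ℕ) : ℤ) ∧
    τ.v (b + 3) = j ∧ (∃ i, i ∈ R j ∧ τ.v (b + 4) = i) ∧ CcFr b σ τ) ?_ ?_ ?_ _ ?_).imp ?_
  · rintro j hj τ ⟨-, h4, -⟩
    rw [h4]
    exact_mod_cast Nat.sub_pos_of_lt hj
  · rintro τ ⟨-, h4, -⟩
    rw [h4]
    simp
  · rintro j hj τ ⟨g1, g2, g3, ⟨i, hi, g4⟩, g5⟩
    obtain ⟨i', hi'⟩ := hv (j + 1) hj
    have hi2 := hi'
    rw [hS] at hi2
    obtain ⟨i1, hi1, hi3⟩ : ∃ i1, i1 ∈ R j ∧ i' ∈ g (Nat.pair a (Nat.pair j i1)) := by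
      simpa using hi2
    have : i1 = i := Part.mem_unique hi1 hi
    subst this
    refine CcEx.seq (CcEx.mov (CcEx.seq (CcEx.mov (CcEx.seq ?_))))
    refine (calcAt2_ex hp _ j i1 (by rw [sv_ne _ (by omega), sv_same, g3])
      (by rw [sv_same, sv_ne _ (by omega), g4])).imp fun τ1 hτ1 => ?_
    have a1 : τ1.v (b + 1) = a := by
      rw [hτ1.2.v (b + 1) (by omega), sv_ne _ (by omega), sv_ne _ (by omega), g1]
    have a2 : τ1.v (b + 2) = ((k - j : ℕ) : ℤ) := by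
      rw [hτ1.2.v (b + 2) (by omega), sv_ne _ (by omega), sv_ne _ (by omega), g2]
    have a3 : τ1.v (b + 3) = j := by
      rw [hτ1.2.v (b + 3) (by omega), sv_ne _ (by omega), sv_ne _ (by omega), g3]
    have a5 : CcFr b σ τ1 := ((g5.trans (CcFr.sv τ (by omega) _)).trans
      (CcFr.sv _ (by omega) _)).trans (hτ1.2.mono (by omega))
    refine CcEx.seq (CcEx.mov (CcEx.seq ?_))
    refine (calcAt2_ex hq _ a (Nat.pair j i1) (by rw [sv_same, a1])
      (by rw [sv_ne _ (by omega), hτ1.1])).imp fun τ2 hτ2 => ?_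
    have b1 : τ2.v (b + 1) = a := by
      rw [hτ2.2.v (b + 1) (by omega), sv_ne _ (by omega), a1]
    have b2 : τ2.v (b + 2) = ((k - j : ℕ) : ℤ) := by
      rw [hτ2.2.v (b + 2) (by omega), sv_ne _ (by omega), a2]
    have b3 : τ2.v (b + 3) = j := by
      rw [hτ2.2.v (b + 3) (by omega), sv_ne _ (by omega), a3]
    have b5 : CcFr b σ τ2 := (a5.trans (CcFr.sv _ (by omega) _)).trans (hτ2.2.mono (by omega))
    refine CcEx.seq ((hg τ2 _ i' hτ2.1 hi3).imp fun τ3 hτ3 => ?_)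
    have c1 : τ3.v (b + 1) = a := by rw [hτ3.2.v (b + 1) (by omega), b1]
    have c2 : τ3.v (b + 2) = ((k - j : ℕ) : ℤ) := by rw [hτ3.2.v (b + 2) (by omega), b2]
    have c3 : τ3.v (b + 3) = j := by rw [hτ3.2.v (b + 3) (by omega), b3]
    have c5 : CcFr b σ τ3 := b5.trans (hτ3.2.mono (by omega))
    refine CcEx.seq (CcEx.mov (CcEx.seq (CcEx.const (CcEx.seq (CcEx.add (CcEx.sub ?_))))))
    refine ⟨?_, ?_, ?_, ⟨i', hi', ?_⟩, ?_⟩
    · rw [sv_ne _ (by omega), sv_ne _ (by omega), sv_ne _ (by omega), sv_ne _ (by omega), c1]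
    · rw [sv_same, sv_ne _ (by omega), sv_ne _ (by omega), sv_ne _ (by omega), c2,
        sv_ne _ (by omega), sv_same]
      omega
    · rw [sv_ne _ (by omega), sv_same, sv_ne _ (by omega), sv_ne _ (by omega), c3, sv_same]
      push_cast
      ring
    · rw [sv_ne _ (by omega), sv_ne _ (by omega), sv_ne _ (by omega), sv_same, hτ3.1]
    · exact (((c5.trans (CcFr.sv _ (by omega) _)).trans (CcFr.sv _ (by omega) _)).trans
        (CcFr.sv _ (by omega) _)).trans (CcFr.sv _ (by omega) _)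
  · refine ⟨?_, ?_, ?_, ⟨i0, hi0, ?_⟩, ?_⟩
    · rw [sv_ne _ (by omega), e3]
    · rw [sv_ne _ (by omega), e4]; simp
    · rw [sv_same]; simp
    · rw [sv_ne _ (by omega), hρ.1]
    · exact f2.trans (CcFr.sv _ (by omega) _)
  · rintro ω ⟨-, -, -, ⟨i, hi, g4⟩, g5⟩
    have : i = m := Part.mem_unique hi hR
    subst this
    refine CcEx.mov ⟨by rw [sv_same, g4], g5.trans (CcFr.sv _ le_rfl _)⟩

private theorem cc_rfind {f : ℕ →. ℕ} (b : ℕ) {s : Stmt} (hf : CalcAt (b + 3) s f) :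
    ∃ w, CalcAt b w (Nat.unpaired fun a m =>
      (Nat.rfind fun n => (fun m => decide (m = 0)) <$> f (Nat.pair a (n + m))).map (· + m)) := by
  obtain ⟨u, hu⟩ := cc_unp b
  obtain ⟨p, hp⟩ := calc_pair (b + 3)
  rw [calcAt_iff] at hf
  let ev : Stmt := .seq (.mov (b + 3) (b + 1)) (.seq (.mov (b + 4) (b + 2)) (.seq p s))
  let body : Stmt := .seq (.const (b + 3) 1) (.seq (.add (b + 2) (b + 2) (b + 3)) ev)
  refine ⟨.seq u (.seq ev (.seq (.whl (b + 3) body) (.mov b (b + 2)))), ?_⟩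
  rw [calcAt_iff]
  intro σ n m h1 h2
  simp only [Nat.unpaired] at h2
  set a := n.unpair.1 with ha
  set k := n.unpair.2 with hk
  obtain ⟨r, hr, hm⟩ := (Part.mem_map_iff _).1 h2
  subst hm
  rw [Nat.mem_rfind] at hr
  obtain ⟨hr1, hr2⟩ := hr
  have hz : 0 ∈ f (Nat.pair a (r + k)) := by
    obtain ⟨z, hz, hz'⟩ := (Part.mem_map_iff _).1 hr1
    have : z = 0 := by simpa using hz'
    rwa [this] at hz
  have hnz : ∀ j < r, ∃ z, z ∈ f (Nat.pair a (j + k)) ∧ z ≠ 0 := by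
    intro j hj
    obtain ⟨z, hz, hz'⟩ := (Part.mem_map_iff _).1 (hr2 hj)
    exact ⟨z, hz, by simpa using hz'⟩
  have hall : ∀ j ≤ r, ∃ z, z ∈ f (Nat.pair a (j + k)) := by
    intro j hj
    rcases Nat.lt_or_eq_of_le hj with h | h
    · obtain ⟨z, hz, -⟩ := hnz j h
      exact ⟨z, hz⟩
    · exact ⟨0, by rw [h]; exact hz⟩
  have hev : ∀ (τ : St) (j : ℕ), τ.v (b + 1) = a → τ.v (b + 2) = ((j + k : ℕ) : ℤ) → j ≤ r →
      CcEx ev τ (fun ρ => ρ.v (b + 1) = a ∧ ρ.v (b + 2) = ((j + k : ℕ) : ℤ) ∧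
        (∃ z, z ∈ f (Nat.pair a (j + k)) ∧ ρ.v (b + 3) = z) ∧ CcFr b τ ρ) := by
    intro τ j g1 g2 hj
    obtain ⟨z, hz⟩ := hall j hj
    refine CcEx.seq (CcEx.mov (CcEx.seq (CcEx.mov (CcEx.seq ?_))))
    refine (calcAt2_ex hp _ a (j + k) (by rw [sv_ne _ (by omega), sv_same, g1])
      (by rw [sv_same, sv_ne _ (by omega), g2])).imp fun τ1 hτ1 => ?_
    refine (hf τ1 _ z hτ1.1 hz).imp fun τ2 hτ2 => ?_
    refine ⟨?_, ?_, ⟨z, hz, hτ2.1⟩, ?_⟩
    · rw [hτ2.2.v (b + 1) (by omega), hτ1.2.v (b + 1) (by omega), sv_ne _ (by omega),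
        sv_ne _ (by omega), g1]
    · rw [hτ2.2.v (b + 2) (by omega), hτ1.2.v (b + 2) (by omega), sv_ne _ (by omega),
        sv_ne _ (by omega), g2]
    · exact (((CcFr.sv τ (by omega) _).trans (CcFr.sv _ (by omega) _)).trans
        (hτ1.2.mono (by omega))).trans (hτ2.2.mono (by omega))
  refine CcEx.seq ((hu σ n h1).imp fun τ hτ => ?_)
  obtain ⟨e1, e2, f1⟩ := hτ
  refine CcEx.seq ((hev τ 0 e1 (by rw [e2, ← hk, Nat.zero_add]) (Nat.zero_le _)).imp fun ρ hρ => ?_)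
  obtain ⟨e3, e4, e5, f2⟩ := hρ
  refine CcEx.seq ?_
  refine (CcEx.loop r (fun j τ => τ.v (b + 1) = a ∧ τ.v (b + 2) = ((j + k : ℕ) : ℤ) ∧
    (∃ z, z ∈ f (Nat.pair a (j + k)) ∧ τ.v (b + 3) = z) ∧ CcFr b σ τ) ?_ ?_ ?_ _
      ⟨e3, e4, e5, f1.trans f2⟩).imp ?_
  · rintro j hj τ ⟨-, -, ⟨z, hz, h4⟩, -⟩
    obtain ⟨z', hz', hne⟩ := hnz j hj
    have : z' = z := Part.mem_unique hz' hz
    subst this
    rw [h4]
    exact_mod_cast Nat.pos_of_ne_zero hne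
  · rintro τ ⟨-, -, ⟨z, hz', h4⟩, -⟩
    have : z = 0 := Part.mem_unique hz' hz
    subst this
    rw [h4]
    simp
  · rintro j hj τ ⟨g1, g2, -, g5⟩
    refine CcEx.seq (CcEx.const (CcEx.seq (CcEx.add ?_)))
    refine (hev _ (j + 1) ?_ ?_ hj).imp ?_
    · rw [sv_ne _ (by omega), sv_ne _ (by omega), g1]
    · rw [sv_same, sv_ne _ (by omega), sv_same, g2]
      push_cast
      ring
    · rintro ω ⟨w1, w2, w3, w4⟩
      exact ⟨w1, w2, w3, ((g5.trans (CcFr.sv _ (by omega) _)).trans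
        (CcFr.sv _ (by omega) _)).trans w4⟩
  · rintro ω ⟨-, g2, -, g5⟩
    exact CcEx.mov ⟨by rw [sv_same, g2], g5.trans (CcFr.sv _ le_rfl _)⟩

theorem calc_code (c : Nat.Partrec.Code) : ∀ b : ℕ, ∃ s, CalcAt b s c.eval := by
  induction c with
  | zero => exact fun b => ⟨_, cc_zero b⟩
  | succ => exact fun b => ⟨_, cc_succ b⟩
  | left => exact fun b => calc_left b
  | right => exact fun b => calc_right b
  | pair cf cg hf hg =>
    intro b
    obtain ⟨s, hs⟩ := hf (b + 2)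
    obtain ⟨t, ht⟩ := hg (b + 1)
    obtain ⟨p, hp⟩ := calc_pair b
    exact ⟨_, cc_pair hs ht hp⟩
  | comp cf cg hf hg =>
    intro b
    obtain ⟨s, hs⟩ := hf b
    obtain ⟨t, ht⟩ := hg b
    exact ⟨_, cc_comp hs ht⟩
  | prec cf cg hf hg =>
    intro b
    obtain ⟨s, hs⟩ := hf (b + 4)
    obtain ⟨t, ht⟩ := hg (b + 5)
    exact cc_prec b hs ht
  | rfind' cf hf =>
    intro b
    obtain ⟨s, hs⟩ := hf (b + 3)
    exact cc_rfind b hs

end Pool.Agent.H71.CT
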