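import Pool.Agent.H71.CT.Frame

/-!
Computing number functions in the while language.
-/

namespace Pool.Agent.H71.CT

/-- `s` computes the partially defined function `f` in variable `b`, using as scratch only
variables above `b` (and no arrays, no input, no output). -/
def CalcAt (b : ℕ) (s : Stmt) (f : ℕ →. ℕ) : Prop :=
  ∀ (σ : St) (n m : ℕ), σ.v b = n → m ∈ f n →
    ∃ c τ, Big s σ c τ ∧ τ.v b = m ∧ (∀ v < b, τ.v v = σ.v v) ∧ τ.a = σ.a ∧
      τ.inp = σ.inp ∧ τ.out = σ.out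

/-- `s` computes in variable `b` the value `f (v_b) (v_(b+1))`, using as scratch only variables
above `b`. -/
def CalcAt2 (b : ℕ) (s : Stmt) (f : ℕ → ℕ → ℕ) : Prop :=
  ∀ (σ : St) (n m : ℕ), σ.v b = n → σ.v (b + 1) = m →
    ∃ c τ, Big s σ c τ ∧ τ.v b = f n m ∧ (∀ v < b, τ.v v = σ.v v) ∧ τ.a = σ.a ∧
      τ.inp = σ.inp ∧ τ.out = σ.out

end Pool.Agent.H71.CT
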