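import Pool.Agent.H71.CT.CalcDef

/-! Unpairing in the while language. -/

namespace Pool.Agent.H71.CT

/-- one step of the odd number loop -/
private def calcUnpair_body (b : ℕ) : Stmt :=
  .seq (.sub b b (b + 2)) (.seq (.add (b + 1) (b + 1) (b + 3)) (.seq (.add (b + 2) (b + 2) (b + 3))
    (.seq (.add (b + 2) (b + 2) (b + 3)) (.seq (.sub (b + 4) b (b + 2))
      (.add (b + 4) (b + 4) (b + 3))))))

private theorem calcUnpair_step (b : ℕ) (σ : St) (r j : ℤ) (h0 : σ.v b = r)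
    (h1 : σ.v (b + 1) = j) (h2 : σ.v (b + 2) = 2 * j + 1) (h3 : σ.v (b + 3) = 1) :
    ∃ c τ, Big (calcUnpair_body b) σ c τ ∧ τ.v b = r - (2 * j + 1) ∧ τ.v (b + 1) = j + 1 ∧
      τ.v (b + 2) = 2 * (j + 1) + 1 ∧ τ.v (b + 3) = 1 ∧
      τ.v (b + 4) = r - (2 * j + 1) - 2 * (j + 1) ∧
      (∀ v < b, τ.v v = σ.v v) ∧ τ.a = σ.a ∧ τ.inp = σ.inp ∧ τ.out = σ.out := by
  have e1 := Big.sub σ b b (b + 2)
  set σ1 := σ.sv b (σ.v b - σ.v (b + 2)) with hσ1
  have e2 := Big.add σ1 (b + 1) (b + 1) (b + 3)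
  set σ2 := σ1.sv (b + 1) (σ1.v (b + 1) + σ1.v (b + 3)) with hσ2
  have e3 := Big.add σ2 (b + 2) (b + 2) (b + 3)
  set σ3 := σ2.sv (b + 2) (σ2.v (b + 2) + σ2.v (b + 3)) with hσ3
  have e4 := Big.add σ3 (b + 2) (b + 2) (b + 3)
  set σ4 := σ3.sv (b + 2) (σ3.v (b + 2) + σ3.v (b + 3)) with hσ4
  have e5 := Big.sub σ4 (b + 4) b (b + 2)
  set σ5 := σ4.sv (b + 4) (σ4.v b - σ4.v (b + 2)) with hσ5
  have e6 := Big.add σ5 (b + 4) (b + 4) (b + 3)
  refine ⟨_, _, Big.seq e1 (Big.seq e2 (Big.seq e3 (Big.seq e4 (Big.seq e5 e6)))),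
    ?_, ?_, ?_, ?_, ?_, ?_, ?_, ?_, ?_⟩
  · simp [hσ5, hσ4, hσ3, hσ2, hσ1, St.sv, h0, h2]
  · simp [hσ5, hσ4, hσ3, hσ2, hσ1, St.sv, h1, h3]
  · simp [hσ5, hσ4, hσ3, hσ2, hσ1, St.sv, h2, h3]
    ring
  · simp [hσ5, hσ4, hσ3, hσ2, hσ1, St.sv, h3]
  · simp [hσ5, hσ4, hσ3, hσ2, hσ1, St.sv, h0, h2, h3]
    ring
  · intro v hv
    have k0 : v ≠ b := by omega
    have k1 : v ≠ b + 1 := by omega
    have k2 : v ≠ b + 2 := by omega
    have k4 : v ≠ b + 4 := by omega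
    simp [hσ5, hσ4, hσ3, hσ2, hσ1, St.sv, Function.update_of_ne k0, Function.update_of_ne k1,
      Function.update_of_ne k2, Function.update_of_ne k4]
  · rfl
  · rfl
  · rfl

private theorem calcUnpair_loop (b n : ℕ) :
    ∀ (k : ℕ) (σ : St) (j : ℕ), j + k = Nat.sqrt n → σ.v b = (n : ℤ) - j * j →
      σ.v (b + 1) = j → σ.v (b + 2) = 2 * (j : ℤ) + 1 → σ.v (b + 3) = 1 →
      σ.v (b + 4) = (n : ℤ) - j * j - 2 * j →
      ∃ c τ, Big (.whl (b + 4) (calcUnpair_body b)) σ c τ ∧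
        τ.v b = (n : ℤ) - Nat.sqrt n * Nat.sqrt n ∧ τ.v (b + 1) = Nat.sqrt n ∧
        (∀ v < b, τ.v v = σ.v v) ∧ τ.a = σ.a ∧ τ.inp = σ.inp ∧ τ.out = σ.out := by
  intro k
  induction k with
  | zero =>
    intro σ j hj h0 h1 h2 h3 h4
    have hj' : j = Nat.sqrt n := by omega
    have hn : (n : ℤ) < (j + 1) * (j + 1) := by
      have := Nat.lt_succ_sqrt n
      rw [← hj'] at this
      exact_mod_cast this
    refine ⟨1, σ, Big.while_end (by rw [h4]; nlinarith), ?_, ?_, fun _ _ => rfl, rfl, rfl, rfl⟩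
    · rw [h0, hj']
    · rw [h1, hj']
  | succ k ih =>
    intro σ j hj h0 h1 h2 h3 h4
    have hn : ((j : ℤ) + 1) * (j + 1) ≤ n := by
      have h := Nat.sqrt_le n
      have h' : (j + 1) * (j + 1) ≤ Nat.sqrt n * Nat.sqrt n :=
        Nat.mul_le_mul (by omega) (by omega)
      have : (j + 1) * (j + 1) ≤ n := le_trans h' h
      exact_mod_cast this
    obtain ⟨c, σ1, hB, t0, t1, t2, t3, t4, tl, ta, ti, tout⟩ :=
      calcUnpair_step b σ _ _ h0 h1 h2 h3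
    obtain ⟨d, τ, hB', u0, u1, ul, ua, ui, uout⟩ := ih σ1 (j + 1) (by omega)
      (by rw [t0]; push_cast; ring) (by rw [t1]; push_cast; ring) (by rw [t2]; push_cast; ring) t3
      (by rw [t4]; push_cast; ring)
    refine ⟨_, τ, Big.while_step (by rw [h4]; nlinarith) hB hB', u0, u1, ?_, ?_, ?_, ?_⟩
    · intro v hv
      rw [ul v hv, tl v hv]
    · rw [ua, ta]
    · rw [ui, ti]
    · rw [uout, tout]

/-- integer square root and remainder -/
private def calcUnpair_pre (b : ℕ) : Stmt :=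
  .seq (.const (b + 1) 0) (.seq (.const (b + 2) 1) (.seq (.const (b + 3) 1)
    (.seq (.mov (b + 4) b) (.seq (.whl (b + 4) (calcUnpair_body b)) (.sub (b + 4) (b + 1) b)))))

private theorem calcUnpair_main (b : ℕ) (σ : St) (n : ℕ) (hn : σ.v b = n) :
    ∃ c τ, Big (calcUnpair_pre b) σ c τ ∧ τ.v b = (n : ℤ) - Nat.sqrt n * Nat.sqrt n ∧
      τ.v (b + 1) = Nat.sqrt n ∧
      τ.v (b + 4) = Nat.sqrt n - ((n : ℤ) - Nat.sqrt n * Nat.sqrt n) ∧
      (∀ v < b, τ.v v = σ.v v) ∧ τ.a = σ.a ∧ τ.inp = σ.inp ∧ τ.out = σ.out := by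
  have e1 := Big.const σ (b + 1) 0
  set σ1 := σ.sv (b + 1) 0 with hσ1
  have e2 := Big.const σ1 (b + 2) 1
  set σ2 := σ1.sv (b + 2) 1 with hσ2
  have e3 := Big.const σ2 (b + 3) 1
  set σ3 := σ2.sv (b + 3) 1 with hσ3
  have e4 := Big.mov σ3 (b + 4) b
  set σ4 := σ3.sv (b + 4) (σ3.v b) with hσ4
  obtain ⟨c, τ, hB, t0, t1, tl, ta, ti, tout⟩ := calcUnpair_loop b n (Nat.sqrt n) σ4 0 (by omega)
    (by simp [hσ4, hσ3, hσ2, hσ1, St.sv, hn]) (by simp [hσ4, hσ3, hσ2, hσ1, St.sv])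
    (by simp [hσ4, hσ3, hσ2, hσ1, St.sv]) (by simp [hσ4, hσ3, hσ2, hσ1, St.sv])
    (by simp [hσ4, hσ3, hσ2, hσ1, St.sv, hn])
  have e5 := Big.sub τ (b + 4) (b + 1) b
  refine ⟨_, _, Big.seq e1 (Big.seq e2 (Big.seq e3 (Big.seq e4 (Big.seq hB e5)))),
    ?_, ?_, ?_, ?_, ?_, ?_, ?_⟩
  · simp [St.sv, t0]
  · simp [St.sv, t1]
  · simp [St.sv, t0, t1]
  · intro v hv
    have k1 : v ≠ b + 1 := by omega
    have k2 : v ≠ b + 2 := by omega
    have k3 : v ≠ b + 3 := by omega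
    have k4 : v ≠ b + 4 := by omega
    simp only [St.sv, Function.update_of_ne k4]
    rw [tl v hv]
    simp [hσ4, hσ3, hσ2, hσ1, St.sv, Function.update_of_ne k1, Function.update_of_ne k2,
      Function.update_of_ne k3, Function.update_of_ne k4]
  · show τ.a = σ.a
    rw [ta]; rfl
  · show τ.inp = σ.inp
    rw [ti]; rfl
  · show τ.out = σ.out
    rw [tout]; rfl

theorem calc_left (b : ℕ) : ∃ s, CalcAt b s (fun n => Part.some n.unpair.1) := by
  refine ⟨.seq (calcUnpair_pre b) (.ite (b + 4) .skip (.mov b (b + 1))), ?_⟩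
  intro σ n m hn hm
  rw [Part.mem_some_iff] at hm
  obtain ⟨c, τ, hB, t0, t1, t4, tl, ta, ti, tout⟩ := calcUnpair_main b σ n hn
  have hle : Nat.sqrt n * Nat.sqrt n ≤ n := Nat.sqrt_le n
  by_cases hlt : n - Nat.sqrt n * Nat.sqrt n < Nat.sqrt n
  · have hm' : m = n - Nat.sqrt n * Nat.sqrt n := by
      rw [hm]
      simp only [Nat.unpair, if_pos hlt]
    have hpos : 0 < τ.v (b + 4) := by
      rw [t4]
      zify [hle] at hlt
      linarith
    refine ⟨_, _, Big.seq hB (Big.ite_pos hpos (Big.skip τ)), ?_, tl, ta, ti, tout⟩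
    rw [t0, hm']
    push_cast [hle]
    ring
  · have hm' : m = Nat.sqrt n := by
      rw [hm]
      simp only [Nat.unpair, if_neg hlt]
    have hpos : ¬ 0 < τ.v (b + 4) := by
      rw [t4]
      zify [hle] at hlt
      linarith
    refine ⟨_, _, Big.seq hB (Big.ite_neg hpos (Big.mov τ b (b + 1))), ?_, ?_, ta, ti, tout⟩
    · simp [St.sv, t1, hm']
    · intro v hv
      have k0 : v ≠ b := by omega
      simp only [St.sv, Function.update_of_ne k0]
      exact tl v hv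

theorem calc_right (b : ℕ) : ∃ s, CalcAt b s (fun n => Part.some n.unpair.2) := by
  refine ⟨.seq (calcUnpair_pre b) (.ite (b + 4) (.mov b (b + 1)) (.sub b b (b + 1))), ?_⟩
  intro σ n m hn hm
  rw [Part.mem_some_iff] at hm
  obtain ⟨c, τ, hB, t0, t1, t4, tl, ta, ti, tout⟩ := calcUnpair_main b σ n hn
  have hle : Nat.sqrt n * Nat.sqrt n ≤ n := Nat.sqrt_le n
  by_cases hlt : n - Nat.sqrt n * Nat.sqrt n < Nat.sqrt n
  · have hm' : m = Nat.sqrt n := by
      rw [hm]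
      simp only [Nat.unpair, if_pos hlt]
    have hpos : 0 < τ.v (b + 4) := by
      rw [t4]
      zify [hle] at hlt
      linarith
    refine ⟨_, _, Big.seq hB (Big.ite_pos hpos (Big.mov τ b (b + 1))), ?_, ?_, ta, ti, tout⟩
    · simp [St.sv, t1, hm']
    · intro v hv
      have k0 : v ≠ b := by omega
      simp only [St.sv, Function.update_of_ne k0]
      exact tl v hv
  · have hm' : m = n - Nat.sqrt n * Nat.sqrt n - Nat.sqrt n := by
      rw [hm]
      simp only [Nat.unpair, if_neg hlt]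
    have hpos : ¬ 0 < τ.v (b + 4) := by
      rw [t4]
      zify [hle] at hlt
      linarith
    refine ⟨_, _, Big.seq hB (Big.ite_neg hpos (Big.sub τ b b (b + 1))), ?_, ?_, ta, ti, tout⟩
    · have h2 : Nat.sqrt n ≤ n - Nat.sqrt n * Nat.sqrt n := by omega
      simp only [St.sv, Function.update_self, t0, t1, hm']
      zify [hle, h2]
    · intro v hv
      have k0 : v ≠ b := by omega
      simp only [St.sv, Function.update_of_ne k0]
      exact tl v hv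

end Pool.Agent.H71.CT
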