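import Pool.Agent.H71.CT.GameA2

/-! Reading off differences of stopping times, up to the cap, from a state. -/

namespace Pool.Agent.H71.CT

private theorem gaps_countP_hist (k : ℕ) (a : ℕ → ℕ) (s0 : ℕ) (p : List Bool → Bool) (f : ℕ → ℕ)
    (h0 : f 0 = 0)
    (hs : ∀ t, f (t + 1) = f t + (if p (vec k a (s0 + t)) = true then 1 else 0)) (t : ℕ) :
    ((hist k a s0 t).countP p = f t ∨ k ≤ (hist k a s0 t).countP p) ∧
      (hist k a s0 t).countP p ≤ f t := by
  induction t with
  | zero => simp [hist, h0]
  | succ t ih =>
    rw [hs t]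
    have he : hist k a s0 (t + 1) = ext k (hist k a s0 t) (vec k a (s0 + t)) := rfl
    rw [he]
    by_cases hq : (hist k a s0 t).take k = List.replicate k (vec k a (s0 + t))
    · have e1 : ext k (hist k a s0 t) (vec k a (s0 + t)) = hist k a s0 t := by
        unfold ext; rw [if_pos hq]
      rw [e1]
      by_cases hp : p (vec k a (s0 + t)) = true
      · rw [if_pos hp]
        have hk : k ≤ (hist k a s0 t).countP p := by
          have h1 : ((hist k a s0 t).take k).countP p = k := by
            rw [hq, List.countP_replicate, if_pos hp]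
          have h2 : ((hist k a s0 t).take k).countP p ≤ (hist k a s0 t).countP p :=
            (List.take_sublist _ _).countP_le
          omega
        exact ⟨Or.inr hk, by omega⟩
      · rw [if_neg hp]
        simpa using ih
    · have e1 : ext k (hist k a s0 t) (vec k a (s0 + t)) =
          vec k a (s0 + t) :: hist k a s0 t := by
        unfold ext; rw [if_neg hq]
      rw [e1, List.countP_cons]
      obtain ⟨h1, h2⟩ := ih
      constructor
      · rcases h1 with h1 | h1
        · left; omega
        · right; omega
      · omega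

private theorem gaps_vec_getD (k : ℕ) (a : ℕ → ℕ) (s i : ℕ) (hi : i < k) :
    (vec k a s).getD i false = decide (a i ≤ s) := by
  unfold vec
  simp [List.getD_eq_getElem?_getD, hi]

/-- `v` stops more than `C` steps after `u` (before the horizon `s0 + t`), `C < k`: visible. -/
theorem lt_cnt_iff {k C : ℕ} (hC : C < k) (a : ℕ → ℕ) (s0 t u v : ℕ) (hu : u < k) (hv : v < k)
    (hau : s0 ≤ a u) (hav : a v ≤ s0 + t) : C < cnt (hist k a s0 t) u v ↔ a u + C < a v := by
  have h := gaps_countP_hist k a s0 (fun m => m.getD u false && !m.getD v false)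
    (fun t => min (s0 + t) (a v) - a u) (by simp; omega) (by
      intro t
      show min (s0 + (t + 1)) (a v) - a u = min (s0 + t) (a v) - a u + _
      rw [gaps_vec_getD k a _ u hu, gaps_vec_getD k a _ v hv]
      by_cases h1 : a u ≤ s0 + t <;> by_cases h2 : a v ≤ s0 + t <;> simp [h1, h2] <;> omega) t
  unfold cnt
  obtain ⟨h1, h2⟩ := h
  have h3 : min (s0 + t) (a v) = a v := by omega
  simp only [h3] at h1 h2
  constructor
  · intro h4; omega
  · intro h4
    rcases h1 with h1 | h1
    · rw [h1]; omega
    · omega

/-- the horizon is more than `C` steps after `u`, `C < k`: visible. -/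
theorem lt_cntH_iff {k C : ℕ} (hC : C < k) (a : ℕ → ℕ) (s0 t u : ℕ) (hu : u < k)
    (hau : s0 ≤ a u) : C < cntH (hist k a s0 t) u ↔ a u + C < s0 + t := by
  have h := gaps_countP_hist k a s0 (fun m => m.getD u false)
    (fun t => (s0 + t) - a u) (by simp; omega) (by
      intro t
      show (s0 + (t + 1)) - a u = (s0 + t) - a u + _
      rw [gaps_vec_getD k a _ u hu]
      by_cases h1 : a u ≤ s0 + t <;> simp [h1] <;> omega) t
  unfold cntH
  obtain ⟨h1, h2⟩ := h
  constructor
  · intro h4; omega
  · intro h4
    rcases h1 with h1 | h1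
    · rw [h1]; omega
    · omega

end Pool.Agent.H71.CT
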