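import Pool.Agent.H71.CT.SideDef
import Pool.Agent.H71.CT.Gaps

/-! Comparisons up to constants are the same on both sides. -/

namespace Pool.Agent.H71.CT

open Filter

theorem Same.symm {A B : ℕ → ℕ → ℕ} {F G : ℕ → ℕ} (h : Same A F B G) : Same B G A F :=
  fun k s => (h k s).symm

/-- a property of states which never holds on the first side holds only finitely often on the
second side -/
private theorem sameAle_ev {A B : ℕ → ℕ → ℕ} {F G : ℕ → ℕ} (h : Same A F B G) (k : ℕ)
    (P : Q → Prop) (hP : ∀ n, ¬ P (fin A F k n)) : ∀ᶠ n in atTop, ¬ P (fin B G k n) := by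
  have h1 : ∀ᶠ n in atTop, ∀ q ∈ {q : Q | Good k q}, fin B G k n = q → ¬ P q := by
    rw [eventually_all_finite (Good.finite k)]
    intro q _
    by_cases hq : P q
    · have h2 : ¬ ∃ᶠ n in atTop, fin B G k n = q := by
        rw [← h k q]
        intro h3
        obtain ⟨n, hn⟩ := h3.exists
        exact hP n (hn ▸ hq)
      rw [not_frequently] at h2
      exact h2.mono fun n hn he => absurd he hn
    · exact Eventually.of_forall fun n _ => hq
  refine h1.mono fun n hn => ?_
  exact hn (fin B G k n) (good_hist _ _ _ _) rfl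

private theorem sameAle_const {a b : ℕ → ℕ} {C : ℕ} (h : ∀ᶠ n in atTop, a n ≤ b n + C) :
    Ale a b := by
  obtain ⟨N, hN⟩ := eventually_atTop.1 h
  refine ⟨C + ∑ n ∈ Finset.range N, a n, fun n => ?_⟩
  rcases Nat.lt_or_ge n N with hn | hn
  · have h1 : a n ≤ ∑ n ∈ Finset.range N, a n :=
      Finset.single_le_sum (f := a) (fun i _ => Nat.zero_le _) (Finset.mem_range.2 hn)
    omega
  · have h1 := hN n hn
    omega

/-- (If `A u ≤ A v + C` always, then for `k > C, u, v` no state `q` with `C < cnt q v u` is ever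
visited on the first side, so on the second side only finitely often, there are finitely many
states of level `k`; increase the constant for the finitely many exceptions.) -/
theorem same_ale {A B : ℕ → ℕ → ℕ} {F G : ℕ → ℕ} (h : Same A F B G)
    (hA : ∀ v n, s0 n ≤ A v n ∧ A v n ≤ F n) (hB : ∀ v n, s0 n ≤ B v n ∧ B v n ≤ G n)
    (u v : ℕ) (huv : Ale (A u) (A v)) : Ale (B u) (B v) := by
  obtain ⟨C, hC⟩ := huv
  obtain ⟨k, hk⟩ : ∃ k, k = C + u + v + 1 := ⟨_, rfl⟩
  have h1 := sameAle_ev h k (fun q => C < cnt q v u) (fun n hn => by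
    have h2 := (lt_cnt_iff (k := k) (C := C) (by omega) (fun v => A v n) (s0 n) (F n - s0 n) v u
      (by omega) (by omega) (hA v n).1 (by
        have h3 := hA u n
        show A u n ≤ _
        omega)).1 hn
    have h4 := hC n
    have h5 : A v n + C < A u n := h2
    omega)
  refine sameAle_const (C := C) (h1.mono fun n hn => ?_)
  by_contra hc
  push Not at hc
  refine hn ((lt_cnt_iff (k := k) (C := C) (by omega) (fun v => B v n) (s0 n) (G n - s0 n) v u
      (by omega) (by omega) (hB v n).1 (by
        have h3 := hB u n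
        show B u n ≤ _
        omega)).2 ?_)
  exact hc

theorem same_ale_hor {A B : ℕ → ℕ → ℕ} {F G : ℕ → ℕ} (h : Same A F B G)
    (hA : ∀ v n, s0 n ≤ A v n ∧ A v n ≤ F n) (hB : ∀ v n, s0 n ≤ B v n ∧ B v n ≤ G n)
    (u : ℕ) (hu : Ale F (A u)) : Ale G (B u) := by
  obtain ⟨C, hC⟩ := hu
  obtain ⟨k, hk⟩ : ∃ k, k = C + u + 1 := ⟨_, rfl⟩
  have h1 := sameAle_ev h k (fun q => C < cntH q u) (fun n hn => by
    have h2 := (lt_cntH_iff (k := k) (C := C) (by omega) (fun v => A v n) (s0 n) (F n - s0 n) u
      (by omega) (hA u n).1).1 hn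
    have h3 := hA u n
    have h4 := hC n
    have h5 : A u n + C < s0 n + (F n - s0 n) := h2
    omega)
  refine sameAle_const (C := C) (h1.mono fun n hn => ?_)
  by_contra hc
  push Not at hc
  refine hn ((lt_cntH_iff (k := k) (C := C) (by omega) (fun v => B v n) (s0 n) (G n - s0 n) u
      (by omega) (hB u n).1).2 ?_)
  have h3 := hB u n
  show B u n + C < _
  omega

end Pool.Agent.H71.CT
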