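import Pool.Agent.H71.CT.JRIndex

/-! A program for the horizon. -/

namespace Pool.Agent.H71.CT

private theorem jf_sv (σ : St) (v w : ℕ) (z : ℤ) : (σ.sv v z).v w = if w = v then z else σ.v w := by
  simp [St.sv, Function.update_apply]

private theorem jf_sva (σ : St) (v : ℕ) (z : ℤ) : (σ.sv v z).a = σ.a := rfl

private theorem jf_svi (σ : St) (v : ℕ) (z : ℤ) : (σ.sv v z).inp = σ.inp := rfl

private theorem jf_svo (σ : St) (v : ℕ) (z : ℤ) : (σ.sv v z).out = σ.out := rfl

private theorem jf_add (σ : St) (v a b : ℕ) : Reach (.add v a b) σ 1 (σ.sv v (σ.v a + σ.v b)) :=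
  ⟨1, le_rfl, Big.add σ v a b⟩

private theorem jf_sub (σ : St) (v a b : ℕ) : Reach (.sub v a b) σ 1 (σ.sv v (σ.v a - σ.v b)) :=
  ⟨1, le_rfl, Big.sub σ v a b⟩

private theorem jf_const (σ : St) (v : ℕ) (c : ℤ) : Reach (.const v c) σ 1 (σ.sv v c) :=
  ⟨1, le_rfl, Big.const σ v c⟩

private theorem jf_mov (σ : St) (v a : ℕ) : Reach (.mov v a) σ 1 (σ.sv v (σ.v a)) :=
  ⟨1, le_rfl, Big.mov σ v a⟩

/-- setting a variable that the environment does not use -/
private theorem jf_env {σ : St} {x : List Bool} (h : Env σ x) (v : ℕ) (hv : v ≠ 40) (hv' : v ≠ 8)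
    (z : ℤ) : Env (σ.sv v z) x := by
  refine ⟨?_, ?_, ?_, ?_⟩
  · rw [jf_sv, if_neg (Ne.symm hv), h.n]
  · intro i hi
    rw [jf_sva, h.inp i hi]
  · rw [jf_sv, if_neg (Ne.symm hv')]
    exact h.stamps.1
  · intro i
    rw [jf_sv, if_neg (Ne.symm hv'), jf_sva]
    exact h.stamps.2 i

/-- the last loop -/
private theorem jf_down : ∀ (m : ℕ) (σ : St), σ.v 42 = m → σ.v 44 = 1 →
    ∃ τ, Big (.whl 42 (.sub 42 42 44)) σ (2 * m + 1) τ ∧ τ.out = σ.out := by
  intro m
  induction m with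
  | zero =>
    intro σ h _
    exact ⟨σ, Big.while_end (by rw [h]; simp), rfl⟩
  | succ m ih =>
    intro σ h h1
    obtain ⟨τ, hb, ho⟩ := ih (σ.sv 42 (σ.v 42 - σ.v 44)) (by
      rw [jf_sv, if_pos rfl, h, h1]; push_cast; ring) (by
      rw [jf_sv, if_neg (by norm_num), h1])
    refine ⟨τ, ?_, ho⟩
    have := Big.while_step (v := 42) (s := .sub 42 42 44) (σ := σ) (by rw [h]; positivity)
      (Big.sub σ 42 42 44) hb
    rw [show 2 * (m + 1) + 1 = 1 + (2 * m + 1) + 1 by ring]
    exact this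

/-- computing the power of two -/
private theorem jf_pow : ∀ (k : ℕ) (σ : St) (x : List Bool) (p : ℤ), Env σ x → σ.v 43 = k →
    σ.v 44 = 1 → σ.v 42 = p → ∃ τ, Reach (.whl 43 (.seq (.add 42 42 42) (.sub 43 43 44))) σ
      (3 * k + 1) τ ∧ Env τ x ∧ τ.v 42 = p * 2 ^ k ∧ τ.v 41 = σ.v 41 ∧ τ.out = σ.out := by
  intro k
  induction k with
  | zero =>
    intro σ x p hE h _ hp
    exact ⟨σ, Reach.while_end (by rw [h]; simp), hE, by rw [hp]; simp, rfl, rfl⟩
  | succ k ih =>
    intro σ x p hE h h1 hp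
    let σ1 := σ.sv 42 (σ.v 42 + σ.v 42)
    let σ2 := σ1.sv 43 (σ1.v 43 - σ1.v 44)
    have e1 : σ2.v 43 = k := by
      simp [σ2, σ1, jf_sv, h, h1]
    have e2 : σ2.v 44 = 1 := by simp [σ2, σ1, jf_sv, h1]
    have e3 : σ2.v 42 = p + p := by simp [σ2, σ1, jf_sv, hp]
    have e4 : σ2.v 41 = σ.v 41 := by simp [σ2, σ1, jf_sv]
    have hE2 : Env σ2 x := jf_env (jf_env hE 42 (by norm_num) (by norm_num) _) 43 (by norm_num)
      (by norm_num) _
    obtain ⟨τ, hr, hE', h42, h41, ho⟩ := ih σ2 x (p + p) hE2 e1 e2 e3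
    refine ⟨τ, ?_, hE', ?_, ?_, ?_⟩
    · refine (Reach.while_step (by rw [h]; positivity)
        ((jf_add σ 42 42 42).seq (jf_sub σ1 43 43 44)) hr).mono (by omega)
    · rw [h42, pow_succ]; ring
    · rw [h41, e4]
    · rw [ho]; rfl

/-- As `jr_index`, but stop as soon as the horizon variable is not negative. -/
theorem jr_index_F (A : ℕ → ℕ → ℕ) (F : ℕ → ℕ) (stp : ℕ → ℕ → ℕ → Bool) (h : JR A F stp)
    (hF : ∀ n, s0 n ≤ F n) : ∃ e, ∃ C, ∀ x : List Bool, ∃ t,
      2 ^ F x.length ≤ t ∧ t ≤ C * 2 ^ F x.length ∧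
      Runs (pr e) x t [((2 ^ F x.length : ℕ) : ℤ)] := by
  obtain ⟨b, ev, ad, fv, init, tick, Inv, κ, hb, -, -, -, -, hfv, hfvb, hinit, htick, hread,
    hpers⟩ := h
  obtain ⟨rd, κr, hrd⟩ := read_input b hb
  obtain ⟨pp, κp, hpp⟩ := prep_spec
  let body : Stmt := .seq tick (.seq (.const 44 1) (.seq (.add 45 fv 44)
    (.ite 45 (.const 46 0) (.seq (.add 41 41 44) (.seq (.add 42 42 42) (.const 46 1))))))
  let p1 : Stmt := .seq rd (.seq pp (.seq (.mov 41 43) (.seq (.const 42 1) (.seq (.const 44 1)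
    (.seq (.whl 43 (.seq (.add 42 42 42) (.sub 43 43 44))) (.seq init (.seq (.const 46 1)
    (.whl 46 body))))))))
  let p2 : Stmt := .seq (.print 42) (.seq (.const 44 1) (.whl 42 (.sub 42 42 44)))
  obtain ⟨r, rest, κ', hcomp⟩ := compile_param (.seq p1 p2) b
  refine ⟨num (Instr.const r ((0 : ℕ) : ℤ) :: rest), κ' * (κr + κp + κ + 2 * κ + 40), ?_⟩
  intro x
  obtain ⟨T, hT⟩ : ∃ T : ℕ, T = 2 ^ F x.length := ⟨_, rfl⟩
  rw [← hT]
  -- first part
  have hp1 : ∃ τ, Reach p1 (St.ini x b ((0 : ℕ) : ℤ)) ((κr + κp + κ + 2 * κ + 30) * T) τ ∧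
      τ.v 42 = (T : ℤ) ∧ τ.out = [] := by
    obtain ⟨τ1, hr1, hE1, ho1, -, -, -, -⟩ := hrd x ((0 : ℕ) : ℤ)
    obtain ⟨τ2, hr2, hE2, h43, -, -, hfr2⟩ := hpp x τ1 hE1
    have ho2 : τ2.out = [] := by rw [hfr2.out, ho1]
    let τ3 := τ2.sv 41 (τ2.v 43)
    let τ4 := τ3.sv 42 1
    let τ5 := τ4.sv 44 1
    have hE5 : Env τ5 x := jf_env (jf_env (jf_env hE2 41 (by norm_num) (by norm_num) _) 42
      (by norm_num) (by norm_num) _) 44 (by norm_num) (by norm_num) _
    obtain ⟨τ6, hr6, hE6, h42, h41, ho6⟩ := jf_pow (s0 x.length) τ5 x 1 hE5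
      (by simp [τ5, τ4, τ3, jf_sv, h43]) (by simp [τ5, jf_sv]) (by simp [τ5, τ4, jf_sv])
    have h41' : τ6.v 41 = s0 x.length := by
      rw [h41]; simp [τ5, τ4, τ3, jf_sv, h43]
    have h42' : τ6.v 42 = 2 ^ s0 x.length := by rw [h42]; ring
    have ho6' : τ6.out = [] := by rw [ho6]; exact ho2
    obtain ⟨τ7, hr7, hE7, hI7, hfr7⟩ := hinit x τ6 hE6
    have hn41 : (41 : ℕ) ∉ LV ∪ Set.Ico 100 b := by
      rintro (h | h)
      · exact h.2.2.1 rfl
      · exact absurd h.1 (by norm_num)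
    have hn42 : (42 : ℕ) ∉ LV ∪ Set.Ico 100 b := by
      rintro (h | h)
      · exact h.2.2.2 rfl
      · exact absurd h.1 (by norm_num)
    let τ8 := τ7.sv 46 1
    have hstepI : ∀ (τ : St) (v : ℕ) (z : ℤ) (s : ℕ), v < 100 → Inv x s τ → Inv x s (τ.sv v z) := by
      intro τ v z s hv hI
      refine hpers x s τ (τ.sv v z) (fun w hw _ => ?_) (fun _ _ _ => rfl) hI
      rw [jf_sv, if_neg (by omega)]
    obtain ⟨N, hNd⟩ : ∃ N, N = F x.length - s0 x.length + 1 := ⟨_, rfl⟩
    have hFn := hF x.length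
    let I : ℕ → St → Prop := fun j σ =>
      (j < N → Env σ x ∧ Inv x (s0 x.length + j) σ ∧ σ.v 41 = ((s0 x.length + j : ℕ) : ℤ) ∧
        σ.v 42 = 2 ^ (s0 x.length + j) ∧ σ.v 46 = 1 ∧ σ.out = []) ∧
      (j = N → σ.v 46 = 0 ∧ σ.v 42 = (T : ℤ) ∧ σ.out = [])
    have hloop := Reach.loop (v := 46) (s := body) N I (fun j => κ * 2 ^ (s0 x.length + j) + 6)
      (fun j hj σ hσ => by rw [(hσ.1 hj).2.2.2.2.1]; norm_num)
      (fun σ hσ => by rw [(hσ.2 rfl).1]; norm_num)
      (by
        intro j hj σ hσ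
        obtain ⟨hE, hI, h41, h42, h46, ho⟩ := hσ.1 hj
        obtain ⟨τ, hr, hE', hI', hfr⟩ := htick x (s0 x.length + j) σ hE (by omega) hI h41 h42
        have hfvv := (hread x (s0 x.length + j) τ (by omega) hI').2.2
        let τa := τ.sv 44 1
        let τb := τa.sv 45 (τa.v fv + τa.v 44)
        have t41 : τ.v 41 = ((s0 x.length + j : ℕ) : ℤ) := by rw [hfr.v 41 hn41, h41]
        have t42 : τ.v 42 = 2 ^ (s0 x.length + j) := by rw [hfr.v 42 hn42, h42]
        have tout : τ.out = [] := by rw [hfr.out, ho]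
        have e45 : τb.v 45 = τ.v fv + 1 := by
          have : fv ≠ 44 := by omega
          simp [τb, τa, jf_sv, this]
        by_cases hle : F x.length ≤ s0 x.length + j
        · -- stop
          have hjN : j + 1 = N := by omega
          rw [if_pos hle] at hfvv
          refine ⟨τb.sv 46 0, ?_, ?_, ?_⟩
          · refine (hr.seq ((jf_const τ 44 1).seq ((jf_add τa 45 fv 44).seq
              (Reach.ite_pos ?_ (jf_const τb 46 0))))).mono (by omega)
            rw [e45, hfvv]; positivity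
          · intro hlt; omega
          · intro _
            refine ⟨by simp [jf_sv], ?_, ?_⟩
            · have hs : s0 x.length + j = F x.length := by omega
              simp only [τb, τa, jf_sv]
              norm_num
              rw [t42, hs, hT]; push_cast; rfl
            · exact tout
        · -- go on
          have hjN : j + 1 < N := by omega
          rw [if_neg hle] at hfvv
          let τc := τb.sv 41 (τb.v 41 + τb.v 44)
          let τd := τc.sv 42 (τc.v 42 + τc.v 42)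
          let τe := τd.sv 46 1
          refine ⟨τe, ?_, ?_, ?_⟩
          · refine (hr.seq ((jf_const τ 44 1).seq ((jf_add τa 45 fv 44).seq
              (Reach.ite_neg ?_ ((jf_add τb 41 41 44).seq ((jf_add τc 42 42 42).seq
                (jf_const τd 46 1))))))).mono (by omega)
            rw [e45, hfvv]; norm_num
          · intro _
            refine ⟨?_, ?_, ?_, ?_, ?_, ?_⟩
            · exact jf_env (jf_env (jf_env (jf_env (jf_env hE' 44 (by norm_num) (by norm_num) _)
                45 (by norm_num) (by norm_num) _) 41 (by norm_num) (by norm_num) _) 42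
                (by norm_num) (by norm_num) _) 46 (by norm_num) (by norm_num) _
            · exact hstepI _ _ _ _ (by norm_num) (hstepI _ _ _ _ (by norm_num)
                (hstepI _ _ _ _ (by norm_num) (hstepI _ _ _ _ (by norm_num)
                (hstepI _ _ _ _ (by norm_num) hI'))))
            · simp [τe, τd, τc, τb, τa, jf_sv, t41]; ring
            · simp [τe, τd, τc, τb, τa, jf_sv, t42]; ring
            · simp [τe, jf_sv]
            · exact tout
          · intro he; omega)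
      τ8 (by
        refine ⟨fun _ => ⟨?_, ?_, ?_, ?_, ?_, ?_⟩, fun he => by omega⟩
        · exact jf_env hE7 46 (by norm_num) (by norm_num) _
        · exact hstepI _ _ _ _ (by norm_num) hI7
        · simp only [τ8, jf_sv]
          norm_num
          rw [hfr7.v 41 hn41, h41']
        · simp only [τ8, jf_sv]
          norm_num
          rw [hfr7.v 42 hn42, h42']
        · simp [τ8, jf_sv]
        · show τ7.out = []
          rw [hfr7.out, ho6'])
    obtain ⟨τ9, hr9, hI9⟩ := hloop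
    refine ⟨τ9, ?_, (hI9.2 rfl).2.1, (hI9.2 rfl).2.2⟩
    refine (hr1.seq (hr2.seq ((jf_mov τ2 41 43).seq ((jf_const τ3 42 1).seq ((jf_const τ4 44 1).seq
      (hr6.seq (hr7.seq ((jf_const τ7 46 1).seq hr9)))))))).mono ?_
    -- cost
    have hn1 : x.length + 1 ≤ T := by
      have h1 := lt_two_pow_s0 x.length
      have h2 : 2 ^ s0 x.length ≤ T := by
        rw [hT]
        exact Nat.pow_le_pow_right (by norm_num) hFn
      omega
    have hFT : F x.length < T := by
      rw [hT]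
      exact Nat.lt_two_pow_self
    have hsum : ∑ j ∈ Finset.range N, (κ * 2 ^ (s0 x.length + j) + 6 + 1) ≤ 2 * κ * T + 7 * N := by
      rw [Finset.sum_add_distrib, Finset.sum_add_distrib, ← Finset.mul_sum]
      have h3 : ∑ j ∈ Finset.range N, 2 ^ (s0 x.length + j) ≤ 2 * T := by
        have h4 : ∀ m, ∑ j ∈ Finset.range m, 2 ^ (s0 x.length + j) + 2 ^ s0 x.length =
            2 ^ (s0 x.length + m) := by
          intro m
          induction m with
          | zero => simp
          | succ m ih =>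
            rw [Finset.sum_range_succ,
              show s0 x.length + (m + 1) = (s0 x.length + m) + 1 by ring, pow_succ]
            omega
        have h5 := h4 N
        have h6 : s0 x.length + N = F x.length + 1 := by omega
        rw [h6, pow_succ, ← hT] at h5
        linarith [Nat.zero_le (2 ^ s0 x.length)]
      have h7 : κ * ∑ j ∈ Finset.range N, 2 ^ (s0 x.length + j) ≤ κ * (2 * T) :=
        Nat.mul_le_mul_left _ h3
      simp only [Finset.sum_const, Finset.card_range, smul_eq_mul]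
      nlinarith
    have hN : N ≤ T := by omega
    have a1 : κr * (x.length + 1) ≤ κr * T := Nat.mul_le_mul_left _ hn1
    have a2 : κp * (x.length + 1) ≤ κp * T := Nat.mul_le_mul_left _ hn1
    have a3 : κ * (x.length + 1) ≤ κ * T := Nat.mul_le_mul_left _ hn1
    have a4 : s0 x.length ≤ T := by omega
    have a5 : 1 ≤ T := by
      rw [hT]
      exact Nat.one_le_two_pow
    have : (κr + κp + κ + 2 * κ + 30) * T = κr * T + κp * T + κ * T + 2 * κ * T + 30 * T := by
      ring
    rw [this]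
    omega
  obtain ⟨τ, ⟨c1, hc1, hb1⟩, h42, ho⟩ := hp1
  -- second part
  let ρ1 : St := { τ with out := τ.out ++ [τ.v 42] }
  let ρ2 := ρ1.sv 44 1
  obtain ⟨ρ, hbρ, hoρ⟩ := jf_down T ρ2 (by
    show (ρ1.sv 44 1).v 42 = T
    rw [jf_sv, if_neg (by norm_num)]; exact h42) (by
    show (ρ1.sv 44 1).v 44 = 1
    rw [jf_sv, if_pos rfl])
  have hb2 : Big p2 τ (1 + (1 + (2 * T + 1))) ρ :=
    Big.seq (Big.print τ 42) (Big.seq (Big.const ρ1 44 1) hbρ)
  obtain ⟨t, ht1, ht2, hruns⟩ := hcomp 0 x _ _ (Big.seq hb1 hb2)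
  refine ⟨t, by omega, ?_, ?_⟩
  · refine ht2.trans ?_
    rw [mul_assoc]
    refine Nat.mul_le_mul_left _ ?_
    have a5 : 1 ≤ T := by
      rw [hT]
      exact Nat.one_le_two_pow
    have : (κr + κp + κ + 2 * κ + 40) * T = (κr + κp + κ + 2 * κ + 30) * T + 10 * T := by ring
    rw [this]
    omega
  · rw [pr_num]
    have : ρ.out = [((T : ℕ) : ℤ)] := by
      rw [hoρ]
      show τ.out ++ [τ.v 42] = _
      rw [ho, h42]; rfl
    rw [← this]
    exact hruns

end Pool.Agent.H71.CT
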