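import Pool.Agent.H71.CT.TT
import Pool.Agent.H71.CT.JRIndexF

/-! A program for the horizon of a side. -/

namespace Pool.Agent.H71.CT

open Filter

private theorem sideHor_le {a b C : ℕ} (h : 2 ^ a ≤ C * 2 ^ b) : a ≤ b + C := by
  have h1 : C ≤ 2 ^ C := Nat.lt_two_pow_self.le
  have h2 : 2 ^ a ≤ 2 ^ (b + C) := by
    calc 2 ^ a ≤ C * 2 ^ b := h
      _ ≤ 2 ^ C * 2 ^ b := Nat.mul_le_mul_right _ h1
      _ = 2 ^ (b + C) := by rw [← pow_add, add_comm]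
  exact (Nat.pow_le_pow_iff_right (by norm_num)).1 h2

theorem side_hor {K0 : ℕ → ℕ} (hK : Tendsto K0 atTop atTop) {par : Bool} {A : ℕ → ℕ → ℕ}
    {F : ℕ → ℕ} (h : Side (stpK K0) par A F) :
    ∃ e, Tot e ∧ Ale (tt K0 e) F ∧ Ale F (tt K0 e) := by
  have hF : ∀ n, s0 n ≤ F n := fun n => (side_bounds h 0 n).1.trans (side_bounds h 0 n).2
  obtain ⟨e, C, he⟩ := jr_index_F A F (stpK K0) h.jr hF
  have hr : ∀ n, ∃ t, 2 ^ F n ≤ t ∧ t ≤ C * 2 ^ F n ∧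
      Runs (pr e) (List.replicate n false) t [((2 ^ F n : ℕ) : ℤ)] := by
    intro n
    have h1 := he (List.replicate n false)
    rwa [List.length_replicate] at h1
  have hT : Tot e := (tot_iff e).2 fun n => by
    obtain ⟨t, _, _, ht⟩ := hr n
    exact ⟨t, _, ht⟩
  obtain ⟨D, hD⟩ := tt_le_ck (K0 := K0) hT
  obtain ⟨D', hD'⟩ := ck_le_tt hK hT
  refine ⟨e, hT, ⟨D * (C + 2), fun n => ?_⟩, ⟨D', fun n => ?_⟩⟩
  · obtain ⟨t, _, h2, h3⟩ := hr n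
    have hn : n < 2 ^ F n := (Nat.lt_size_self n).trans_le
      (Nat.pow_le_pow_right (by norm_num) (hF n))
    have hck : ck e n + 1 ≤ (C + 2) * 2 ^ F n := by
      rw [ck_of_runs h3]
      have h4 : (C + 2) * 2 ^ F n = C * 2 ^ F n + 2 ^ F n + 2 ^ F n := by ring
      rw [h4]
      have h5 : 1 ≤ 2 ^ F n := Nat.one_le_two_pow
      omega
    refine sideHor_le ?_
    calc 2 ^ tt K0 e n ≤ D * (ck e n + 1) := hD n
      _ ≤ D * ((C + 2) * 2 ^ F n) := Nat.mul_le_mul_left _ hck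
      _ = D * (C + 2) * 2 ^ F n := (mul_assoc _ _ _).symm
  · obtain ⟨t, h1, _, h3⟩ := hr n
    refine sideHor_le ?_
    calc 2 ^ F n ≤ t := h1
      _ ≤ ck e n := by rw [ck_of_runs h3]; exact Nat.le_add_left _ _
      _ ≤ D' * 2 ^ tt K0 e n := hD' n

end Pool.Agent.H71.CT
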