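import Pool.Agent.H71.CT.CompSim

/-!
Every statement is realised by a machine.
-/

namespace Pool.Agent.H71.CT

/-- the first instruction establishes the representation of the initial state -/
private theorem comp_rep (V N v : ℕ) (hv : v < V) (i : ℕ) (x : List Bool) :
    Rep V N (St.ini x v i)
      ((Instr.const (3 + v) (i : ℤ)).exec (start x)) := by
  refine ⟨?_, ?_, ?_, rfl, rfl⟩
  · show Function.update (fun _ => (0 : ℤ)) (3 + v) (i : ℤ) 0 = 0
    rw [Function.update_of_ne (by omega)]
  · intro w _
    show Function.update (fun _ => (0 : ℤ)) (3 + v) (i : ℤ) (3 + w) =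
      Function.update (fun _ => (0 : ℤ)) v (i : ℤ) w
    by_cases h : w = v
    · subst h
      rw [Function.update_self, Function.update_self]
    · rw [Function.update_of_ne (by omega), Function.update_of_ne h]
  · intro a _ j
    show Function.update (fun _ => (0 : ℤ)) (3 + v) (i : ℤ) (3 + V + N * j + a) = 0
    rw [Function.update_of_ne (by omega)]

/-- Every statement is realised by a machine whose first instruction loads a parameter into
variable `v`. (The register is `3 + v`, the rest is the compiled statement at address 1; choose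
bounds with `exists_Bdd` and `Bdd.mono` so that `v < V`.) -/
theorem compile_param (s : Stmt) (v : ℕ) : ∃ (r : ℕ) (rest : Prog) (κ : ℕ),
    ∀ (i : ℕ) (x : List Bool) (c : ℕ) (τ : St), Big s (St.ini x v i) c τ →
      ∃ t, c ≤ t ∧ t ≤ κ * (c + 1) ∧ Runs (Instr.const r i :: rest) x t τ.out := by
  obtain ⟨V₀, N, hb₀⟩ := exists_Bdd s
  obtain ⟨V, hV⟩ : ∃ V, V = V₀ + v + 1 := ⟨_, rfl⟩
  have hb : Bdd V N s := hb₀.mono (by omega) le_rfl
  refine ⟨3 + v, cmp V N s 1, N + 4, ?_⟩
  intro i x c τ h
  set p : Prog := Instr.const (3 + v) (i : ℤ) :: cmp V N s 1 with hp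
  have hlen : p.length = 1 + (cmp V N s 1).length := by
    rw [hp, List.length_cons]; omega
  have h1 : step p (start x) = (Instr.const (3 + v) (i : ℤ)).exec (start x) := by
    rw [hp]; rfl
  obtain ⟨t, hct, htc, hlt, hend, hrep⟩ := cmp_sim V N h hb p [Instr.const (3 + v) (i : ℤ)] []
    (by rw [hp]; simp) ((Instr.const (3 + v) (i : ℤ)).exec (start x)) rfl
    (comp_rep V N v (by omega) i x)
  have hconf : ∀ m, conf p x (m + 1) =
      (step p)^[m] ((Instr.const (3 + v) (i : ℤ)).exec (start x)) := by
    intro m
    show (step p)^[m + 1] (start x) = _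
    rw [Function.iterate_succ_apply, h1]
  refine ⟨t + 1, by omega, ?_, ?_, ?_, ?_⟩
  · have : (N + 4) * (c + 1) = (N + 4) * c + (N + 4) := by ring
    omega
  · show p.length ≤ (conf p x (t + 1)).pc
    rw [hconf, hend, hlen]
    simp
  · intro m hm hH
    have hH' : p.length ≤ (conf p x m).pc := hH
    cases m with
    | zero =>
      have h0 : (conf p x 0).pc = 0 := rfl
      rw [h0, hlen] at hH'
      omega
    | succ m =>
      rw [hconf, hlen] at hH'
      have := hlt m (by omega)
      simp only [List.length_singleton] at this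
      omega
  · rw [hconf]
    exact hrep.out

end Pool.Agent.H71.CT
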