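import Pool.Agent.H71.CT.Frame

/-!
The interpreter for RAM programs, written in the while language.

Variables: 1 = code base, 2 = number of instructions, 3 = budget, 4 = zero mode, 5 = input length,
6 = result flag (halted), 7 = number of printed integers, 8 = generation stamp, 9 = program counter,
10 = number of symbols read, 11 ... 39 = scratch.
Arrays: 0 = input, 1 = simulated registers, 2 = stamps, 3 = printed integers.
-/

namespace Pool.Agent.H71.CT

/-- four naturals coding an instruction -/
def ec : Instr → List ℕ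
  | .const i c => if 0 ≤ c then [0, i, c.toNat, 0] else [1, i, (-c).toNat, 0]
  | .add i j k => [2, i, j, k]
  | .sub i j k => [3, i, j, k]
  | .load i j => [4, i, j, 0]
  | .store i j => [5, i, j, 0]
  | .jpos j m => [6, j, m, 0]
  | .read i => [7, i, 0, 0]
  | .print i => [8, i, 0, 0]

/-- the code of a program: four naturals per instruction -/
def ecs (p : Prog) : List ℕ := p.flatMap ec

/-- the list `l` is stored in the array `ca` from position `b` on -/
def StoredAt (σ : St) (ca b : ℕ) (l : List ℕ) : Prop :=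
  ∀ i (h : i < l.length), σ.a ca (b + i) = (l[i] : ℤ)

/-- all stamps are at most the current generation -/
def Stamps (σ : St) : Prop := 0 ≤ σ.v 8 ∧ ∀ i, σ.a 2 i ≤ σ.v 8

/-- the variables 4 and 5 and the array 0 describe the input `y` -/
def InpAt (σ : St) (y : List Bool) : Prop :=
  σ.v 5 = y.length ∧ ((0 < σ.v 4 ∧ y = List.replicate y.length false) ∨
    (¬ 0 < σ.v 4 ∧ ∀ i (h : i < y.length), σ.a 0 i = if y[i] then 1 else 0))

/-- `v := simulated register number (variable i)` -/
def rdreg (v i : ℕ) : Stmt :=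
  blk [.get 38 2 i, .sub 38 38 8, .const 39 1, .add 38 38 39,
    .ite 38 (.get v 1 i) (.const v 0)]

/-- `simulated register number (variable i) := v` -/
def wrreg (i v : ℕ) : Stmt := blk [.put 2 i 8, .put 1 i v]

/-- fetch: 12 = opcode, 13, 14, 15 = operands -/
def fetch (ca : ℕ) : Stmt :=
  blk [.const 39 1, .add 11 9 9, .add 11 11 11, .add 11 11 1, .get 12 ca 11, .add 11 11 39,
    .get 13 ca 11, .add 11 11 39, .get 14 ca 11, .add 11 11 39, .get 15 ca 11]

/-- `pc := pc + 1` -/
def incpc : Stmt := blk [.const 39 1, .add 9 9 39]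

/-- the instruction with opcode `k` -/
def opc : ℕ → Stmt
  | 0 => blk [wrreg 13 14, incpc]
  | 1 => blk [.const 16 0, .sub 16 16 14, wrreg 13 16, incpc]
  | 2 => blk [rdreg 16 14, rdreg 17 15, .add 16 16 17, wrreg 13 16, incpc]
  | 3 => blk [rdreg 16 14, rdreg 17 15, .sub 16 16 17, wrreg 13 16, incpc]
  | 4 => blk [rdreg 16 14, rdreg 17 16, wrreg 13 17, incpc]
  | 5 => blk [rdreg 16 13, rdreg 17 14, wrreg 16 17, incpc]
  | 6 => blk [rdreg 16 13, .ite 16 (.mov 9 14) incpc]
  | 7 => blk [.sub 17 5 10, .ite 17 (blk [.ite 4 (.const 16 0) (.get 16 0 10), .const 39 1,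
      .add 10 10 39]) (.const 16 2), wrreg 13 16, incpc]
  | _ => blk [rdreg 16 13, .put 3 7 16, .const 39 1, .add 7 7 39, incpc]

/-- dispatch on the opcode in variable 12 -/
def dispatch : ℕ → Stmt
  | 0 => opc 0
  | k + 1 => blk [.const 18 k, .sub 18 12 18, .ite 18 (opc (k + 1)) (dispatch k)]

/-- variable 19 := 1 if the simulation goes on, else 0 -/
def setrun : Stmt :=
  blk [.const 19 0, .sub 18 2 9, .ite 18 (.ite 3 (.const 19 1) .skip) .skip]

/-- one simulated step -/
def istep (ca : ℕ) : Stmt :=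
  blk [fetch ca, dispatch 8, .const 39 1, .sub 3 3 39, setrun]

/-- the interpreter for code in the array `ca` -/
def interp (ca : ℕ) : Stmt :=
  blk [.const 39 1, .add 8 8 39, .const 9 0, .const 10 0, .const 7 0, setrun,
    .whl 19 (istep ca), .const 6 1, .sub 18 2 9, .ite 18 (.const 6 0) .skip]

/-- the variables that the interpreter may change -/
def iV : Set ℕ := {v | v < 40 ∧ v ≠ 0 ∧ v ≠ 1 ∧ v ≠ 2 ∧ v ≠ 4 ∧ v ≠ 5}

/-- the arrays that the interpreter may change -/
def iA : Set ℕ := {1, 2, 3}

/-- the configuration `k` of the simulated machine is represented in the state `σ`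
(`y` is its whole input) -/
structure SimR (y : List Bool) (σ : St) (k : Cfg) : Prop where
  pc : σ.v 9 = k.pc
  reg : ∀ i, (if σ.a 2 i = σ.v 8 then σ.a 1 i else 0) = k.reg i
  ipl : ∃ ip : ℕ, σ.v 10 = ip ∧ ip ≤ y.length ∧ k.inp = y.drop ip
  ocl : σ.v 7 = k.out.length
  outp : ∀ i (h : i < k.out.length), σ.a 3 i = k.out[i]

end Pool.Agent.H71.CT
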