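import Pool.Agent.H71.CT.Enum
import Pool.Agent.H71.CT.InterpDef

/-!
Codes of programs are computable.
-/

namespace Pool.Agent.H71.CT

/-- the four naturals of the instruction of a raw instruction -/
private def ecsG (q : ℕ × ℕ × ℕ × ℕ) : List ℕ :=
  if q.1 = 0 then [0, q.2.1, q.2.2.1, 0]
  else if q.1 = 1 then (if q.2.2.1 = 0 then [0, q.2.1, 0, 0] else [1, q.2.1, q.2.2.1, 0])
  else if q.1 = 2 then [2, q.2.1, q.2.2.1, q.2.2.2]
  else if q.1 = 3 then [3, q.2.1, q.2.2.1, q.2.2.2]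
  else if q.1 = 4 then [4, q.2.1, q.2.2.1, 0]
  else if q.1 = 5 then [5, q.2.1, q.2.2.1, 0]
  else if q.1 = 6 then [6, q.2.1, q.2.2.1, 0]
  else if q.1 = 7 then [7, q.2.1, 0, 0]
  else [8, q.2.1, 0, 0]

private theorem ecsG_eq (q : ℕ × ℕ × ℕ × ℕ) : ec (toI q) = ecsG q := by
  obtain ⟨a, b, c, d⟩ := q
  match a with
  | 0 => simp [toI, ec, ecsG]
  | 1 =>
    simp only [toI, ec, ecsG]
    by_cases h : c = 0
    · subst h; simp
    · simp [h]
  | 2 => simp [toI, ec, ecsG]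
  | 3 => simp [toI, ec, ecsG]
  | 4 => simp [toI, ec, ecsG]
  | 5 => simp [toI, ec, ecsG]
  | 6 => simp [toI, ec, ecsG]
  | 7 => simp [toI, ec, ecsG]
  | n + 8 => simp [toI, ec, ecsG]

private theorem ecsG_l4 {f g h k : ℕ × ℕ × ℕ × ℕ → ℕ} (hf : Primrec f) (hg : Primrec g)
    (hh : Primrec h) (hk : Primrec k) :
    Primrec (fun q => [f q, g q, h q, k q]) :=
  Primrec.list_cons.comp hf (Primrec.list_cons.comp hg (Primrec.list_cons.comp hh
    (Primrec.list_cons.comp hk (Primrec.const []))))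

private theorem ecsG_primrec : Primrec ecsG := by
  have p1 : Primrec (fun q : ℕ × ℕ × ℕ × ℕ => q.1) := Primrec.fst
  have p2 : Primrec (fun q : ℕ × ℕ × ℕ × ℕ => q.2.1) := Primrec.fst.comp Primrec.snd
  have p3 : Primrec (fun q : ℕ × ℕ × ℕ × ℕ => q.2.2.1) :=
    Primrec.fst.comp (Primrec.snd.comp Primrec.snd)
  have p4 : Primrec (fun q : ℕ × ℕ × ℕ × ℕ => q.2.2.2) :=
    Primrec.snd.comp (Primrec.snd.comp Primrec.snd)
  have cc : ∀ n : ℕ, Primrec (fun _ : ℕ × ℕ × ℕ × ℕ => n) := fun n => Primrec.const n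
  unfold ecsG
  refine Primrec.ite (Primrec.eq.comp p1 (cc 0)) (ecsG_l4 (cc 0) p2 p3 (cc 0)) ?_
  refine Primrec.ite (Primrec.eq.comp p1 (cc 1))
    (Primrec.ite (Primrec.eq.comp p3 (cc 0)) (ecsG_l4 (cc 0) p2 (cc 0) (cc 0))
      (ecsG_l4 (cc 1) p2 p3 (cc 0))) ?_
  refine Primrec.ite (Primrec.eq.comp p1 (cc 2)) (ecsG_l4 (cc 2) p2 p3 p4) ?_
  refine Primrec.ite (Primrec.eq.comp p1 (cc 3)) (ecsG_l4 (cc 3) p2 p3 p4) ?_
  refine Primrec.ite (Primrec.eq.comp p1 (cc 4)) (ecsG_l4 (cc 4) p2 p3 (cc 0)) ?_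
  refine Primrec.ite (Primrec.eq.comp p1 (cc 5)) (ecsG_l4 (cc 5) p2 p3 (cc 0)) ?_
  refine Primrec.ite (Primrec.eq.comp p1 (cc 6)) (ecsG_l4 (cc 6) p2 p3 (cc 0)) ?_
  refine Primrec.ite (Primrec.eq.comp p1 (cc 7)) (ecsG_l4 (cc 7) p2 (cc 0) (cc 0)) ?_
  exact ecsG_l4 (cc 8) p2 (cc 0) (cc 0)

/-- the flat code of program `e` (four naturals per instruction) is computable -/
theorem computable_ecs : Computable (fun e : ℕ => ecs (pr e)) := by
  have h : (fun e : ℕ => ecs (pr e)) =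
      fun e : ℕ => (Denumerable.ofNat (List (ℕ × ℕ × ℕ × ℕ)) e).flatMap ecsG := by
    funext e
    simp only [ecs, pr, List.flatMap_map]
    congr 1
    funext q
    exact ecsG_eq q
  rw [h]
  exact (Primrec.list_flatMap (Primrec.ofNat _)
    (ecsG_primrec.comp Primrec.snd).to₂).to_comp

/-- the number of the program with a parameter instruction in front is computable -/
theorem computable_param (r : ℕ) (rest : Prog) :
    Computable (fun i : ℕ => num (Instr.const r (i : ℤ) :: rest)) := by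
  have h : (fun i : ℕ => num (Instr.const r (i : ℤ) :: rest)) =
      fun i : ℕ => Encodable.encode ((0, r, i, 0) :: rest.map ofI) := by
    funext i
    simp [num, ofI]
  rw [h]
  refine (Primrec.encode.comp (Primrec.list_cons.comp ?_ (Primrec.const _))).to_comp
  exact Primrec.pair (Primrec.const 0) (Primrec.pair (Primrec.const r)
    (Primrec.pair Primrec.id (Primrec.const 0)))

end Pool.Agent.H71.CT
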