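import Pool.Agent.H71.CT.Env

/-! Reading the input. -/

namespace Pool.Agent.H71.CT

private theorem ri_sv (σ : St) (v w : ℕ) (z : ℤ) : (σ.sv v z).v w = if w = v then z else σ.v w := by
  simp [St.sv, Function.update_apply]

private theorem ri_sym_pos (x : List Bool) (j : ℕ) (hj : j < x.length) :
    sym (x.drop j) = if x[j] then 1 else 0 := by
  rw [List.drop_eq_getElem_cons hj]
  cases h : x[j] <;> simp [sym]

private def riB : Stmt :=
  .seq (.put 0 40 43) (.seq (.add 40 40 44) (.seq (.read 43) (.sub 46 45 43)))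

private def riS : Stmt :=
  .seq (.const 44 1) (.seq (.const 45 2) (.seq (.read 43) (.seq (.sub 46 45 43) (.whl 46 riB))))

private structure RI (x : List Bool) (pv : ℕ) (i : ℤ) (j : ℕ) (σ : St) : Prop where
  v40 : σ.v 40 = j
  ar : ∀ k (h : k < x.length), k < j → σ.a 0 k = if x[k] then 1 else 0
  v44 : σ.v 44 = 1
  v45 : σ.v 45 = 2
  v43 : σ.v 43 = sym (x.drop j)
  v46 : σ.v 46 = 2 - sym (x.drop j)
  inp : σ.inp = (x.drop j).tail
  out : σ.out = []
  v8 : σ.v 8 = 0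
  az : ∀ a, a ≠ 0 → σ.a a = fun _ => 0
  hv : ∀ v, 100 ≤ v → σ.v v = if v = pv then i else 0

/-- Read the input into array 0, its length into variable 40. Everything else persistent is
still zero (except the parameter `i` in variable `pv`). -/
theorem read_input (pv : ℕ) (hpv : 100 ≤ pv) : ∃ (s : Stmt) (κ : ℕ), ∀ (x : List Bool) (i : ℤ),
    ∃ τ, Reach s (St.ini x pv i) (κ * (x.length + 1)) τ ∧ Env τ x ∧ τ.out = [] ∧ τ.inp = [] ∧
      τ.v pv = i ∧ (∀ v, 100 ≤ v → v ≠ pv → τ.v v = 0) ∧ (∀ a, 10 ≤ a → τ.a a = fun _ => 0) := by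
  refine ⟨riS, 10, fun x i => ?_⟩
  let σ0 : St := St.ini x pv i
  let σ1 : St := σ0.sv 44 1
  let σ2 : St := σ1.sv 45 2
  let σ3 : St := { (σ2.sv 43 (sym σ2.inp)) with inp := σ2.inp.tail }
  let σ4 : St := σ3.sv 46 (σ3.v 45 - σ3.v 43)
  have hini : ∀ v, v ≠ pv → σ0.v v = 0 := by
    intro v hv
    show Function.update (fun _ => (0 : ℤ)) pv i v = 0
    rw [Function.update_of_ne hv]
  have hinp : σ2.inp = x := rfl
  have h0 : RI x pv i 0 σ4 := by
    refine ⟨?_, ?_, ?_, ?_, ?_, ?_, ?_, ?_, ?_, ?_, ?_⟩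
    · have : σ4.v 40 = σ0.v 40 := by
        simp [σ4, σ3, σ2, σ1, ri_sv]
      rw [this, hini 40 (by omega)]; rfl
    · intro k _ hk; omega
    · simp [σ4, σ3, σ2, σ1, ri_sv]
    · simp [σ4, σ3, σ2, σ1, ri_sv]
    · simp only [σ4, σ3, ri_sv, hinp, List.drop_zero]
      norm_num
    · simp [σ4, σ3, ri_sv, hinp, σ2]
    · show σ2.inp.tail = _
      rw [hinp]; rfl
    · rfl
    · have : σ4.v 8 = σ0.v 8 := by
        simp [σ4, σ3, σ2, σ1, ri_sv]
      rw [this, hini 8 (by omega)]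
    · intro a _; rfl
    · intro v hv
      have e : σ4.v v = σ0.v v := by
        simp only [σ4, σ3, σ2, σ1, ri_sv]
        rw [if_neg (by omega), if_neg (by omega), if_neg (by omega), if_neg (by omega)]
      rw [e]
      by_cases hvp : v = pv
      · rw [if_pos hvp, hvp]
        show Function.update (fun _ => (0 : ℤ)) pv i pv = i
        rw [Function.update_self]
      · rw [if_neg hvp, hini v hvp]
  obtain ⟨τ, hτ, hI⟩ := Reach.loop (v := 46) (s := riB) x.length (RI x pv i) (fun _ => 4)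
    (by
      intro j hj σ hσ
      rw [hσ.v46, ri_sym_pos x j hj]
      split_ifs <;> norm_num)
    (by
      intro σ hσ
      rw [hσ.v46]
      simp [sym])
    (by
      intro j hj σ hσ
      let ρ1 : St := σ.sa 0 (σ.v 40).toNat (σ.v 43)
      let ρ2 : St := ρ1.sv 40 (ρ1.v 40 + ρ1.v 44)
      let ρ3 : St := { (ρ2.sv 43 (sym ρ2.inp)) with inp := ρ2.inp.tail }
      let ρ4 : St := ρ3.sv 46 (ρ3.v 45 - ρ3.v 43)
      have hin : ρ2.inp = x.drop (j + 1) := by
        show σ.inp = _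
        rw [hσ.inp, List.tail_drop]
      have hρ1v : ∀ v, ρ1.v v = σ.v v := fun v => rfl
      refine ⟨ρ4, ⟨4, le_rfl, Big.seq (Big.put σ 0 40 43) (Big.seq (Big.add ρ1 40 40 44)
        (Big.seq (Big.read ρ2 43) (Big.sub ρ3 46 45 43)))⟩, ?_⟩
      refine ⟨?_, ?_, ?_, ?_, ?_, ?_, ?_, ?_, ?_, ?_, ?_⟩
      · simp [ρ4, ρ3, ρ2, ri_sv, hρ1v, hσ.v40, hσ.v44]
      · intro k hk hkj
        show (Function.update σ.a 0 (Function.update (σ.a 0) (σ.v 40).toNat (σ.v 43))) 0 k = _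
        rw [Function.update_self, hσ.v40]
        by_cases hkj' : k = j
        · subst hkj'
          rw [show ((k : ℤ)).toNat = k by simp, Function.update_self, hσ.v43, ri_sym_pos x k hk]
        · rw [show ((j : ℤ)).toNat = j by simp, Function.update_of_ne hkj',
            hσ.ar k hk (by omega)]
      · simp [ρ4, ρ3, ρ2, ri_sv, hρ1v, hσ.v44]
      · simp [ρ4, ρ3, ρ2, ri_sv, hρ1v, hσ.v45]
      · simp only [ρ4, ρ3, ri_sv, hin]
        norm_num
      · have e1 : ρ4.v 46 = ρ3.v 45 - ρ3.v 43 := by simp [ρ4, ri_sv]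
        have e2 : ρ3.v 45 = 2 := by simp [ρ3, ρ2, ri_sv, hρ1v, hσ.v45]
        have e3 : ρ3.v 43 = sym (x.drop (j + 1)) := by
          rw [← hin]
          simp [ρ3, ri_sv]
        rw [e1, e2, e3]
      · show ρ2.inp.tail = _
        rw [hin]
      · exact hσ.out
      · simp [ρ4, ρ3, ρ2, ri_sv, hρ1v, hσ.v8]
      · intro a ha
        show (Function.update σ.a 0 (Function.update (σ.a 0) (σ.v 40).toNat (σ.v 43))) a = _
        rw [Function.update_of_ne ha, hσ.az a ha]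
      · intro v hv
        rw [← hσ.hv v hv]
        simp only [ρ4, ρ3, ρ2, ri_sv]
        rw [if_neg (by omega), if_neg (by omega), if_neg (by omega), hρ1v])
    σ4 h0
  refine ⟨τ, ?_, ⟨hI.v40, fun k hk => hI.ar k hk hk, ?_⟩, hI.out, ?_, ?_, ?_, ?_⟩
  · refine (Reach.seq ⟨1, le_rfl, Big.const σ0 44 1⟩ (Reach.seq ⟨1, le_rfl, Big.const σ1 45 2⟩
      (Reach.seq ⟨1, le_rfl, Big.read σ2 43⟩ (Reach.seq ⟨1, le_rfl, Big.sub σ3 46 45 43⟩
        hτ)))).mono ?_
    simp only [Finset.sum_const, Finset.card_range, smul_eq_mul]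
    omega
  · refine ⟨by rw [hI.v8], fun k => ?_⟩
    rw [hI.v8, hI.az 2 (by norm_num)]
  · rw [hI.inp]
    simp
  · rw [hI.hv pv hpv, if_pos rfl]
  · intro v hv hne
    rw [hI.hv v hv, if_neg hne]
  · intro a ha
    exact hI.az a (by omega)

end Pool.Agent.H71.CT
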