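import Pool.Agent.H71.CT.Prep
import Pool.Agent.H71.CT.ReadInput
import Pool.Agent.H71.CT.Comp
import Pool.Agent.H71.CT.EcsComp

/-! Programs for jointly realised families. -/

namespace Pool.Agent.H71.CT

/-- stopping time with default value for large indices -/
def At (A : ℕ → ℕ → ℕ) (v n : ℕ) : ℕ := if v < cap n then A v n else s0 n

private theorem ji_sv (σ : St) (v w : ℕ) (z : ℤ) : (σ.sv v z).v w = if w = v then z else σ.v w := by
  simp [St.sv, Function.update_apply]

private theorem ji_sva (σ : St) (v : ℕ) (z : ℤ) : (σ.sv v z).a = σ.a := rfl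

private theorem ji_svi (σ : St) (v : ℕ) (z : ℤ) : (σ.sv v z).inp = σ.inp := rfl

private theorem ji_svo (σ : St) (v : ℕ) (z : ℤ) : (σ.sv v z).out = σ.out := rfl

private theorem ji_add (σ : St) (v a b : ℕ) : Reach (.add v a b) σ 1 (σ.sv v (σ.v a + σ.v b)) :=
  ⟨1, le_rfl, Big.add σ v a b⟩

private theorem ji_sub (σ : St) (v a b : ℕ) : Reach (.sub v a b) σ 1 (σ.sv v (σ.v a - σ.v b)) :=
  ⟨1, le_rfl, Big.sub σ v a b⟩

private theorem ji_const (σ : St) (v : ℕ) (c : ℤ) : Reach (.const v c) σ 1 (σ.sv v c) :=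
  ⟨1, le_rfl, Big.const σ v c⟩

private theorem ji_get (σ : St) (v a i : ℕ) :
    Reach (.get v a i) σ 1 (σ.sv v (σ.a a (σ.v i).toNat)) :=
  ⟨1, le_rfl, Big.get σ v a i⟩

private theorem ji_mov (σ : St) (v a : ℕ) : Reach (.mov v a) σ 1 (σ.sv v (σ.v a)) :=
  ⟨1, le_rfl, Big.mov σ v a⟩

/-- setting a variable that the environment does not use -/
private theorem ji_env {σ : St} {x : List Bool} (h : Env σ x) (v : ℕ) (hv : v ≠ 40) (hv' : v ≠ 8)
    (z : ℤ) : Env (σ.sv v z) x := by
  refine ⟨?_, ?_, ?_, ?_⟩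
  · rw [ji_sv, if_neg (Ne.symm hv), h.n]
  · intro i hi
    rw [ji_sva, h.inp i hi]
  · rw [ji_sv, if_neg (Ne.symm hv')]
    exact h.stamps.1
  · intro i
    rw [ji_sv, if_neg (Ne.symm hv'), ji_sva]
    exact h.stamps.2 i

/-- the last loop -/
private theorem ji_down : ∀ (m : ℕ) (σ : St), σ.v 42 = m → σ.v 44 = 1 →
    ∃ τ, Big (.whl 42 (.sub 42 42 44)) σ (2 * m + 1) τ ∧ τ.out = σ.out := by
  intro m
  induction m with
  | zero =>
    intro σ h _
    exact ⟨σ, Big.while_end (by rw [h]; simp), rfl⟩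
  | succ m ih =>
    intro σ h h1
    obtain ⟨τ, hb, ho⟩ := ih (σ.sv 42 (σ.v 42 - σ.v 44)) (by
      rw [ji_sv, if_pos rfl, h, h1]; push_cast; ring) (by
      rw [ji_sv, if_neg (by norm_num), h1])
    refine ⟨τ, ?_, ho⟩
    have := Big.while_step (v := 42) (s := .sub 42 42 44) (σ := σ) (by rw [h]; positivity)
      (Big.sub σ 42 42 44) hb
    rw [show 2 * (m + 1) + 1 = 1 + (2 * m + 1) + 1 by ring]
    exact this

/-- computing the power of two -/
private theorem ji_pow : ∀ (k : ℕ) (σ : St) (x : List Bool) (p : ℤ), Env σ x → σ.v 43 = k →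
    σ.v 44 = 1 → σ.v 42 = p → ∃ τ, Reach (.whl 43 (.seq (.add 42 42 42) (.sub 43 43 44))) σ
      (3 * k + 1) τ ∧ Env τ x ∧ τ.v 42 = p * 2 ^ k ∧ τ.v 41 = σ.v 41 ∧ τ.out = σ.out ∧
      (∀ w, 100 ≤ w → τ.v w = σ.v w) := by
  intro k
  induction k with
  | zero =>
    intro σ x p hE h _ hp
    exact ⟨σ, Reach.while_end (by rw [h]; simp), hE, by rw [hp]; simp, rfl, rfl, fun _ _ => rfl⟩
  | succ k ih =>
    intro σ x p hE h h1 hp
    let σ1 := σ.sv 42 (σ.v 42 + σ.v 42)
    let σ2 := σ1.sv 43 (σ1.v 43 - σ1.v 44)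
    have e1 : σ2.v 43 = k := by
      simp [σ2, σ1, ji_sv, h, h1]
    have e2 : σ2.v 44 = 1 := by simp [σ2, σ1, ji_sv, h1]
    have e3 : σ2.v 42 = p + p := by simp [σ2, σ1, ji_sv, hp]
    have e4 : σ2.v 41 = σ.v 41 := by simp [σ2, σ1, ji_sv]
    have hE2 : Env σ2 x := ji_env (ji_env hE 42 (by norm_num) (by norm_num) _) 43 (by norm_num)
      (by norm_num) _
    obtain ⟨τ, hr, hE', h42, h41, ho, hpe⟩ := ih σ2 x (p + p) hE2 e1 e2 e3
    refine ⟨τ, ?_, hE', ?_, ?_, ?_, ?_⟩
    · refine (Reach.while_step (by rw [h]; positivity)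
        ((ji_add σ 42 42 42).seq (ji_sub σ1 43 43 44)) hr).mono (by omega)
    · rw [h42, pow_succ]; ring
    · rw [h41, e4]
    · rw [ho]; rfl
    · intro w hw
      rw [hpe w hw]
      simp only [σ2, σ1, ji_sv]
      rw [if_neg (by omega), if_neg (by omega)]

private def jiIx (r v : ℕ) (L : List (ℕ × ℕ × ℕ × ℕ)) : ℕ :=
  Encodable.encode ((0, r, v, 0) :: L)

private theorem ji_comp (r : ℕ) (L : List (ℕ × ℕ × ℕ × ℕ)) : Computable fun v => jiIx r v L := by
  refine Computable.encode.comp (Computable.list_cons.comp ?_ (Computable.const L))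
  exact (Computable.const 0).pair ((Computable.const r).pair
    (Computable.id.pair (Computable.const 0)))

private theorem ji_num (r v : ℕ) (rest : Prog) :
    jiIx r v (rest.map ofI) = num (Instr.const r (v : ℤ) :: rest) := by
  simp [jiIx, num, ofI]

/-- Program (the parameter `v` in a fresh persistent variable): read the input, prepare, `init`,
then for `s = s0 n, s0 n + 1, ...` run `tick` until entry `v` of the array of stopping times is not
negative (or `cap n ≤ v`); print `2 ^ s`, count down from `2 ^ s` to 0, halt. -/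
theorem jr_index (A : ℕ → ℕ → ℕ) (F : ℕ → ℕ) (stp : ℕ → ℕ → ℕ → Bool) (h : JR A F stp)
    (hA : ∀ v n, s0 n ≤ A v n) : ∃ ι : ℕ → ℕ, Computable ι ∧ ∀ v, ∃ C, ∀ x : List Bool, ∃ t,
      2 ^ At A v x.length ≤ t ∧ t ≤ C * 2 ^ At A v x.length ∧
      Runs (pr (ι v)) x t [((2 ^ At A v x.length : ℕ) : ℤ)] := by
  obtain ⟨b, ev, ad, fv, init, tick, Inv, κ, hb, hev, hevb, -, -, hfv, hfvb, hinit, htick, hread,
    hpers⟩ := h
  obtain ⟨rd, κr, hrd⟩ := read_input b hb
  obtain ⟨pp, κp, hpp⟩ := prep_spec
  let body : Stmt := .seq tick (.seq (.const 44 1) (.seq (.sub 45 (b + 1) b) (.ite 45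
    (.seq (.get 45 ev b) (.seq (.add 45 45 44) (.ite 45 (.const 46 0)
      (.seq (.add 41 41 44) (.seq (.add 42 42 42) (.const 46 1))))))
    (.const 46 0))))
  let p1 : Stmt := .seq rd (.seq pp (.seq (.mov 41 43) (.seq (.mov (b + 1) 44) (.seq (.const 42 1)
    (.seq (.const 44 1) (.seq (.whl 43 (.seq (.add 42 42 42) (.sub 43 43 44))) (.seq init
    (.seq (.const 46 1) (.whl 46 body)))))))))
  let p2 : Stmt := .seq (.print 42) (.seq (.const 44 1) (.whl 42 (.sub 42 42 44)))
  obtain ⟨r, rest, κ', hcomp⟩ := compile_param (.seq p1 p2) b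
  refine ⟨fun v => jiIx r v (rest.map ofI), ji_comp r _, fun v => ?_⟩
  refine ⟨κ' * (κr + κp + κ + 2 * κ + 50), ?_⟩
  intro x
  obtain ⟨G, hG⟩ : ∃ G, G = At A v x.length := ⟨_, rfl⟩
  rw [← hG]
  obtain ⟨T, hT⟩ : ∃ T : ℕ, T = 2 ^ G := ⟨_, rfl⟩
  rw [← hT]
  have hFn : s0 x.length ≤ G := by
    rw [hG, At]
    split_ifs
    · exact hA v x.length
    · exact le_rfl
  -- first part
  have hp1 : ∃ τ, Reach p1 (St.ini x b ((v : ℕ) : ℤ)) ((κr + κp + κ + 2 * κ + 40) * T) τ ∧
      τ.v 42 = (T : ℤ) ∧ τ.out = [] := by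
    obtain ⟨τ1, hr1, hE1, ho1, -, hv1, -, -⟩ := hrd x ((v : ℕ) : ℤ)
    obtain ⟨τ2, hr2, hE2, h43, h44, -, hfr2⟩ := hpp x τ1 hE1
    have ho2 : τ2.out = [] := by rw [hfr2.out, ho1]
    have hv2 : τ2.v b = v := by
      rw [hfr2.v b (by simp only [Set.mem_ofPred_eq]; omega), hv1]
    let τ3 := τ2.sv 41 (τ2.v 43)
    let τ3' := τ3.sv (b + 1) (τ3.v 44)
    let τ4 := τ3'.sv 42 1
    let τ5 := τ4.sv 44 1
    have hE5 : Env τ5 x := ji_env (ji_env (ji_env (ji_env hE2 41 (by norm_num) (by norm_num) _)
      (b + 1) (by omega) (by omega) _) 42 (by norm_num) (by norm_num) _) 44 (by norm_num)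
      (by norm_num) _
    have hb1 : (b + 1) ≠ 41 := by omega
    have hb2 : (b + 1) ≠ 42 := by omega
    have hb3 : (b + 1) ≠ 44 := by omega
    have hb4 : b ≠ 41 := by omega
    have hb5 : b ≠ 42 := by omega
    have hb6 : b ≠ 44 := by omega
    have hb7 : 43 ≠ (b + 1) := by omega
    have hb8 : 41 ≠ (b + 1) := by omega
    obtain ⟨τ6, hr6, hE6, h42, h41, ho6, hpe6⟩ := ji_pow (s0 x.length) τ5 x 1 hE5
      (by simp [τ5, τ4, τ3', τ3, ji_sv, h43, hb7]) (by simp [τ5, ji_sv])
      (by simp [τ5, τ4, ji_sv])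
    have h41' : τ6.v 41 = s0 x.length := by
      rw [h41]; simp [τ5, τ4, τ3', τ3, ji_sv, h43, hb8]
    have h42' : τ6.v 42 = 2 ^ s0 x.length := by rw [h42]; ring
    have ho6' : τ6.out = [] := by rw [ho6]; exact ho2
    have hc6 : τ6.v (b + 1) = cap x.length := by
      rw [hpe6 (b + 1) (by omega)]
      simp [τ5, τ4, τ3', τ3, ji_sv, hb3, hb2, h44]
    have hv6 : τ6.v b = v := by
      rw [hpe6 b (by omega)]
      simp only [τ5, τ4, τ3', τ3, ji_sv]
      rw [if_neg hb6, if_neg hb5, if_neg (by omega), if_neg hb4, hv2]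
    obtain ⟨τ7, hr7, hE7, hI7, hfr7⟩ := hinit x τ6 hE6
    have hn41 : (41 : ℕ) ∉ LV ∪ Set.Ico 100 b := by
      rintro (h | h)
      · exact h.2.2.1 rfl
      · exact absurd h.1 (by norm_num)
    have hn42 : (42 : ℕ) ∉ LV ∪ Set.Ico 100 b := by
      rintro (h | h)
      · exact h.2.2.2 rfl
      · exact absurd h.1 (by norm_num)
    have hnb : ∀ w, b ≤ w → w ∉ LV ∪ Set.Ico 100 b := by
      rintro w hw (h | h)
      · exact absurd h.1 (by omega)
      · exact absurd h.2 (by omega)
    let τ8 := τ7.sv 46 1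
    have hstepI : ∀ (τ : St) (v : ℕ) (z : ℤ) (s : ℕ), v < 100 → Inv x s τ → Inv x s (τ.sv v z) := by
      intro τ v z s hv hI
      refine hpers x s τ (τ.sv v z) (fun w hw _ => ?_) (fun _ _ _ => rfl) hI
      rw [ji_sv, if_neg (by omega)]
    obtain ⟨N, hNd⟩ : ∃ N, N = G - s0 x.length + 1 := ⟨_, rfl⟩
    let I : ℕ → St → Prop := fun j σ =>
      (j < N → Env σ x ∧ Inv x (s0 x.length + j) σ ∧ σ.v 41 = ((s0 x.length + j : ℕ) : ℤ) ∧
        σ.v 42 = 2 ^ (s0 x.length + j) ∧ σ.v 46 = 1 ∧ σ.out = [] ∧ σ.v b = v ∧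
        σ.v (b + 1) = cap x.length) ∧
      (j = N → σ.v 46 = 0 ∧ σ.v 42 = (T : ℤ) ∧ σ.out = [])
    have hloop := Reach.loop (v := 46) (s := body) N I (fun j => κ * 2 ^ (s0 x.length + j) + 9)
      (fun j hj σ hσ => by rw [(hσ.1 hj).2.2.2.2.1]; norm_num)
      (fun σ hσ => by rw [(hσ.2 rfl).1]; norm_num)
      (by
        intro j hj σ hσ
        obtain ⟨hE, hI, h41, h42, h46, ho, hvb, hvc⟩ := hσ.1 hj
        obtain ⟨τ, hr, hE', hI', hfr⟩ := htick x (s0 x.length + j) σ hE (by omega) hI h41 h42
        have hevv := (hread x (s0 x.length + j) τ (by omega) hI').1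
        let τa := τ.sv 44 1
        let τb := τa.sv 45 (τa.v (b + 1) - τa.v b)
        have t41 : τ.v 41 = ((s0 x.length + j : ℕ) : ℤ) := by rw [hfr.v 41 hn41, h41]
        have t42 : τ.v 42 = 2 ^ (s0 x.length + j) := by rw [hfr.v 42 hn42, h42]
        have tout : τ.out = [] := by rw [hfr.out, ho]
        have tb : τ.v b = v := by rw [hfr.v b (hnb b le_rfl), hvb]
        have tc : τ.v (b + 1) = cap x.length := by rw [hfr.v (b + 1) (hnb _ (by omega)), hvc]
        have e45 : τb.v 45 = (cap x.length : ℤ) - v := by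
          simp [τb, τa, ji_sv, hb3, hb6, tb, tc]
        by_cases hcap : v < cap x.length
        · have hGA : G = A v x.length := by rw [hG, At, if_pos hcap]
          have hev1 := hevv v hcap
          rw [← hGA] at hev1
          let τc := τb.sv 45 (τb.a ev (τb.v b).toNat)
          let τd := τc.sv 45 (τc.v 45 + τc.v 44)
          have hbb : (τb.v b).toNat = v := by
            simp only [τb, τa, ji_sv]
            rw [if_neg (by omega), if_neg hb6, tb]
            simp
          have hba : τb.a ev v = τ.a ev v := rfl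
          have ed : τd.v 45 = τ.a ev v + 1 := by
            have e1 : τc.v 45 = τ.a ev v := by
              simp only [τc, ji_sv, if_true, hbb, hba]
            have e2 : τc.v 44 = 1 := by simp [τc, τb, τa, ji_sv]
            have e3 : τd.v 45 = τc.v 45 + τc.v 44 := by simp [τd, ji_sv]
            rw [e3, e1, e2]
          by_cases hle : G ≤ s0 x.length + j
          · -- stop
            have hjN : j + 1 = N := by omega
            rw [if_pos hle] at hev1
            refine ⟨τd.sv 46 0, ?_, ?_, ?_⟩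
            · refine (hr.seq ((ji_const τ 44 1).seq ((ji_sub τa 45 (b + 1) b).seq
                (Reach.ite_pos ?_ ((ji_get τb 45 ev b).seq ((ji_add τc 45 45 44).seq
                (Reach.ite_pos ?_ (ji_const τd 46 0)))))))).mono (by omega)
              · rw [e45]; omega
              · rw [ed, hev1]; positivity
            · intro hlt; omega
            · intro _
              refine ⟨by simp [ji_sv], ?_, ?_⟩
              · have hs : s0 x.length + j = G := by omega
                simp only [τd, τc, τb, τa, ji_sv]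
                norm_num
                rw [t42, hs, hT]; push_cast; rfl
              · exact tout
          · -- go on
            have hjN : j + 1 < N := by omega
            rw [if_neg hle] at hev1
            let τe := τd.sv 41 (τd.v 41 + τd.v 44)
            let τf := τe.sv 42 (τe.v 42 + τe.v 42)
            let τg := τf.sv 46 1
            refine ⟨τg, ?_, ?_, ?_⟩
            · refine (hr.seq ((ji_const τ 44 1).seq ((ji_sub τa 45 (b + 1) b).seq
                (Reach.ite_pos ?_ ((ji_get τb 45 ev b).seq ((ji_add τc 45 45 44).seq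
                (Reach.ite_neg ?_ ((ji_add τd 41 41 44).seq ((ji_add τe 42 42 42).seq
                (ji_const τf 46 1)))))))))).mono (by omega)
              · rw [e45]; omega
              · rw [ed, hev1]; norm_num
            · intro _
              refine ⟨?_, ?_, ?_, ?_, ?_, ?_, ?_, ?_⟩
              · exact ji_env (ji_env (ji_env (ji_env (ji_env (ji_env (ji_env hE' 44 (by norm_num)
                  (by norm_num) _) 45 (by norm_num) (by norm_num) _) 45 (by norm_num)
                  (by norm_num) _) 45 (by norm_num) (by norm_num) _) 41 (by norm_num)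
                  (by norm_num) _) 42 (by norm_num) (by norm_num) _) 46 (by norm_num)
                  (by norm_num) _
              · exact hstepI _ _ _ _ (by norm_num) (hstepI _ _ _ _ (by norm_num)
                  (hstepI _ _ _ _ (by norm_num) (hstepI _ _ _ _ (by norm_num)
                  (hstepI _ _ _ _ (by norm_num) (hstepI _ _ _ _ (by norm_num)
                  (hstepI _ _ _ _ (by norm_num) hI'))))))
              · simp [τg, τf, τe, τd, τc, τb, τa, ji_sv, t41]; ring
              · simp [τg, τf, τe, τd, τc, τb, τa, ji_sv, t42]; ring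
              · simp [τg, ji_sv]
              · exact tout
              · simp only [τg, τf, τe, τd, τc, τb, τa, ji_sv]
                rw [if_neg (by omega), if_neg (by omega), if_neg (by omega), if_neg (by omega),
                  if_neg (by omega), if_neg (by omega), if_neg (by omega), tb]
              · simp only [τg, τf, τe, τd, τc, τb, τa, ji_sv]
                rw [if_neg (by omega), if_neg (by omega), if_neg (by omega), if_neg (by omega),
                  if_neg (by omega), if_neg (by omega), if_neg (by omega), tc]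
            · intro he; omega
        · have hGs : G = s0 x.length := by rw [hG, At, if_neg hcap]
          have hjN : j + 1 = N := by omega
          refine ⟨τb.sv 46 0, ?_, ?_, ?_⟩
          · refine (hr.seq ((ji_const τ 44 1).seq ((ji_sub τa 45 (b + 1) b).seq
              (Reach.ite_neg ?_ (ji_const τb 46 0))))).mono (by omega)
            rw [e45]; omega
          · intro hlt; omega
          · intro _
            refine ⟨by simp [ji_sv], ?_, ?_⟩
            · have hs : s0 x.length + j = G := by omega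
              simp only [τb, τa, ji_sv]
              norm_num
              rw [t42, hs, hT]; push_cast; rfl
            · exact tout)
      τ8 (by
        refine ⟨fun _ => ⟨?_, ?_, ?_, ?_, ?_, ?_, ?_, ?_⟩, fun he => by omega⟩
        · exact ji_env hE7 46 (by norm_num) (by norm_num) _
        · exact hstepI _ _ _ _ (by norm_num) hI7
        · simp only [τ8, ji_sv]
          norm_num
          rw [hfr7.v 41 hn41, h41']
        · simp only [τ8, ji_sv]
          norm_num
          rw [hfr7.v 42 hn42, h42']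
        · simp [τ8, ji_sv]
        · show τ7.out = []
          rw [hfr7.out, ho6']
        · simp only [τ8, ji_sv]
          rw [if_neg (by omega), hfr7.v b (hnb b le_rfl), hv6]
        · simp only [τ8, ji_sv]
          rw [if_neg (by omega), hfr7.v (b + 1) (hnb _ (by omega)), hc6])
    obtain ⟨τ9, hr9, hI9⟩ := hloop
    refine ⟨τ9, ?_, (hI9.2 rfl).2.1, (hI9.2 rfl).2.2⟩
    refine (hr1.seq (hr2.seq ((ji_mov τ2 41 43).seq ((ji_mov τ3 (b + 1) 44).seq
      ((ji_const τ3' 42 1).seq ((ji_const τ4 44 1).seq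
      (hr6.seq (hr7.seq ((ji_const τ7 46 1).seq hr9))))))))).mono ?_
    -- cost
    have hn1 : x.length + 1 ≤ T := by
      have h1 := lt_two_pow_s0 x.length
      have h2 : 2 ^ s0 x.length ≤ T := by
        rw [hT]
        exact Nat.pow_le_pow_right (by norm_num) hFn
      omega
    have hFT : G < T := by
      rw [hT]
      exact Nat.lt_two_pow_self
    have hsum : ∑ j ∈ Finset.range N, (κ * 2 ^ (s0 x.length + j) + 9 + 1) ≤
        2 * κ * T + 10 * N := by
      rw [Finset.sum_add_distrib, Finset.sum_add_distrib, ← Finset.mul_sum]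
      have h3 : ∑ j ∈ Finset.range N, 2 ^ (s0 x.length + j) ≤ 2 * T := by
        have h4 : ∀ m, ∑ j ∈ Finset.range m, 2 ^ (s0 x.length + j) + 2 ^ s0 x.length =
            2 ^ (s0 x.length + m) := by
          intro m
          induction m with
          | zero => simp
          | succ m ih =>
            rw [Finset.sum_range_succ,
              show s0 x.length + (m + 1) = (s0 x.length + m) + 1 by ring, pow_succ]
            omega
        have h5 := h4 N
        have h6 : s0 x.length + N = G + 1 := by omega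
        rw [h6, pow_succ, ← hT] at h5
        linarith [Nat.zero_le (2 ^ s0 x.length)]
      have h7 : κ * ∑ j ∈ Finset.range N, 2 ^ (s0 x.length + j) ≤ κ * (2 * T) :=
        Nat.mul_le_mul_left _ h3
      simp only [Finset.sum_const, Finset.card_range, smul_eq_mul]
      nlinarith
    have hN : N ≤ T := by omega
    have a1 : κr * (x.length + 1) ≤ κr * T := Nat.mul_le_mul_left _ hn1
    have a2 : κp * (x.length + 1) ≤ κp * T := Nat.mul_le_mul_left _ hn1
    have a3 : κ * (x.length + 1) ≤ κ * T := Nat.mul_le_mul_left _ hn1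
    have a4 : s0 x.length ≤ T := by omega
    have a5 : 1 ≤ T := by
      rw [hT]
      exact Nat.one_le_two_pow
    have : (κr + κp + κ + 2 * κ + 40) * T = κr * T + κp * T + κ * T + 2 * κ * T + 40 * T := by
      ring
    rw [this]
    omega
  obtain ⟨τ, ⟨c1, hc1, hb1⟩, h42, ho⟩ := hp1
  -- second part
  let ρ1 : St := { τ with out := τ.out ++ [τ.v 42] }
  let ρ2 := ρ1.sv 44 1
  obtain ⟨ρ, hbρ, hoρ⟩ := ji_down T ρ2 (by
    show (ρ1.sv 44 1).v 42 = T
    rw [ji_sv, if_neg (by norm_num)]; exact h42) (by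
    show (ρ1.sv 44 1).v 44 = 1
    rw [ji_sv, if_pos rfl])
  have hb2 : Big p2 τ (1 + (1 + (2 * T + 1))) ρ :=
    Big.seq (Big.print τ 42) (Big.seq (Big.const ρ1 44 1) hbρ)
  obtain ⟨t, ht1, ht2, hruns⟩ := hcomp v x _ _ (Big.seq hb1 hb2)
  refine ⟨t, by omega, ?_, ?_⟩
  · refine ht2.trans ?_
    rw [mul_assoc]
    refine Nat.mul_le_mul_left _ ?_
    have a5 : 1 ≤ T := by
      rw [hT]
      exact Nat.one_le_two_pow
    have : (κr + κp + κ + 2 * κ + 50) * T = (κr + κp + κ + 2 * κ + 40) * T + 10 * T := by ring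
    rw [this]
    omega
  · show Runs (pr (jiIx r v (rest.map ofI))) x t _
    rw [ji_num, pr_num]
    have : ρ.out = [((T : ℕ) : ℤ)] := by
      rw [hoρ]
      show τ.out ++ [τ.v 42] = _
      rw [ho, h42]; rfl
    rw [← this]
    exact hruns

end Pool.Agent.H71.CT
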