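import Pool.Agent.H71.CT.TT
import Pool.Agent.H71.CT.JRIndex

/-! Programs for the functions and the horizon of a side. -/

namespace Pool.Agent.H71.CT

open Filter

private theorem sideIdx_le {K0 : ℕ → ℕ} {e n s : ℕ} (hs : s0 n ≤ s)
    (h : stpK K0 e n s = true) : tt K0 e n ≤ s := by
  classical
  have hex : ∃ s, s0 n ≤ s ∧ stpK K0 e n s = true := ⟨s, hs, h⟩
  unfold tt
  rw [dif_pos hex]
  exact Nat.find_le ⟨hs, h⟩

private theorem sideIdx_spec {K0 : ℕ → ℕ} {e : ℕ} (he : Tot e) (n : ℕ) :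
    stpK K0 e n (tt K0 e n) = true := by
  classical
  have hex : ∃ s, s0 n ≤ s ∧ stpK K0 e n s = true := tt_exists K0 he (s0 n) n
  unfold tt
  rw [dif_pos hex]
  exact (Nat.find_spec hex).2

/-- From `jr_index`: total programs with stopping times `A v` up to constants. -/
theorem side_index {K0 : ℕ → ℕ} (hK : Tendsto K0 atTop atTop) {par : Bool} {A : ℕ → ℕ → ℕ}
    {F : ℕ → ℕ} (h : Side (stpK K0) par A F) : ∃ ι : ℕ → ℕ, Computable ι ∧ ∀ v, Tot (ι v) ∧
      Ale (tt K0 (ι v)) (A v) ∧ Ale (A v) (tt K0 (ι v)) := by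
  have hA : ∀ v n, s0 n ≤ A v n := fun v n => (side_bounds h v n).1
  obtain ⟨ι, hι, hr⟩ := jr_index A F (stpK K0) h.jr hA
  refine ⟨ι, hι, fun v => ?_⟩
  obtain ⟨C, hC⟩ := hr v
  have hTot : Tot (ι v) := by
    rw [tot_iff]
    intro n
    obtain ⟨t, _, _, ht⟩ := hC (List.replicate n false)
    exact ⟨t, _, ht⟩
  have hAt : ∀ n, At A v n ≤ A v n := by
    intro n
    unfold At
    split_ifs with hv
    · exact le_rfl
    · exact hA v n
  refine ⟨hTot, ?_, ?_⟩
  · refine ⟨C + (ι v + 1), fun n => ?_⟩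
    refine sideIdx_le (by have := hA v n; omega) ?_
    obtain ⟨t, _, ht2, ht⟩ := hC (List.replicate n false)
    rw [List.length_replicate] at ht2
    have h1 : t ≤ 2 ^ (A v n + C) := by
      calc t ≤ C * 2 ^ At A v n := ht2
        _ ≤ 2 ^ C * 2 ^ A v n :=
          Nat.mul_le_mul (Nat.lt_two_pow_self).le (Nat.pow_le_pow_right (by norm_num) (hAt n))
        _ = 2 ^ (A v n + C) := by rw [pow_add, mul_comm]
    have h2 : hb (ι v) (List.replicate n false) (2 ^ (A v n + C)) = true :=
      hb_iff.2 ((halted_iff_runs _ _ _).2 ⟨t, h1, _, ht⟩)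
    have h3 : A v n + (C + (ι v + 1)) - (ι v + 1) = A v n + C := by omega
    unfold stpK
    rw [h3, h2]
    have h4 : ι v + 1 ≤ A v n + (C + (ι v + 1)) := by omega
    simp [h4]
  · have hcap : Tendsto cap atTop atTop := by
      have hs : Tendsto Nat.size atTop atTop := by
        refine tendsto_atTop.2 fun b => ?_
        filter_upwards [eventually_ge_atTop (2 ^ b)] with n hn
        exact (Nat.lt_size.2 hn).le
      exact hs.comp hs
    obtain ⟨N, hN⟩ := eventually_atTop.1
      ((hK.eventually_gt_atTop (ι v)).and (hcap.eventually_gt_atTop v))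
    refine ⟨(Finset.range N).sup (A v), fun n => ?_⟩
    rcases lt_or_ge n N with hn | hn
    · have := Finset.le_sup (f := A v) (Finset.mem_range.2 hn)
      omega
    · obtain ⟨hk, hc⟩ := hN n hn
      obtain ⟨t, ht1, _, ht⟩ := hC (List.replicate n false)
      rw [List.length_replicate] at ht1
      have h0 : At A v n = A v n := by
        unfold At
        rw [if_pos hc]
      rw [h0] at ht1
      have hsp := sideIdx_spec (K0 := K0) hTot n
      unfold stpK at hsp
      rw [Bool.or_eq_true, Bool.and_eq_true, decide_eq_true_eq, decide_eq_true_eq] at hsp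
      rcases hsp with h1 | ⟨h1, h2⟩
      · omega
      · obtain ⟨t', ht', o, ho⟩ := (halted_iff_runs _ _ _).1 (hb_iff.1 h2)
        obtain ⟨rfl, _⟩ := Runs.unique ht ho
        have h3 : A v n ≤ tt K0 (ι v) n - (ι v + 1) :=
          (Nat.pow_le_pow_iff_right (by norm_num : 1 < 2)).1 (ht1.trans ht')
        omega

end Pool.Agent.H71.CT
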