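import Pool.Agent.H71.CT.ChainDef
import Pool.Agent.H71.CT.AutoDef
import Pool.Agent.H71.CT.SameAle
import Pool.Agent.H71.CT.SideIdx
import Pool.Agent.H71.CT.SideHor

/-!
The correspondence of a chain.

`Ri_succ`: let `tt e''` be `G i` up to constants (`side_hor`), `v = 2 e'' + 1`. Then
`B (i+1) v = min (tt e'') (G (i+1))` is `G i` up to constants, and `G i ≤ B i v + C`, so
`F i ≤ A i v + C` by `same_ale_hor`, hence `tt e ≤ F i + C ≤ A i v + C ≤ A (i+1) v + C`; so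
`A (i+1) (2e) ≤ A (i+1) v + C`, and by `same_ale` `B (i+1) (2e) ≤ B (i+1) v + C ≤ G i + C`. Together
with `cutB` this gives `B (i+1) (2e) = B i (2e)` up to constants.
-/

namespace Pool.Agent.H71.CT

open Filter

variable {K0 : ℕ → ℕ} {A B : ℕ → ℕ → ℕ → ℕ} {F G : ℕ → ℕ → ℕ}

private theorem cha_trans {a b c : ℕ → ℕ} (h₁ : Ale a b) (h₂ : Ale b c) : Ale a c := by
  obtain ⟨C, hC⟩ := h₁
  obtain ⟨D, hD⟩ := h₂
  exact ⟨D + C, fun n => by have := hC n; have := hD n; omega⟩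

private theorem cha_le {a b : ℕ → ℕ} (h : ∀ n, a n ≤ b n) : Ale a b := ⟨0, fun n => h n⟩

private theorem cha_min {a b c : ℕ → ℕ} (h₁ : Ale a b) (h₂ : Ale a c) :
    Ale a (fun n => min (b n) (c n)) := by
  obtain ⟨C, hC⟩ := h₁
  obtain ⟨D, hD⟩ := h₂
  exact ⟨C + D, fun n => by have := hC n; have := hD n; simp only; omega⟩

private theorem cha_adv_left (h : Chain K0 A B F G) {e : ℕ} (he : Tot e) (i : ℕ) :
    A i (2 * e) = fun n => min (tt K0 e n) (F i n) := by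
  funext n
  have := side_adv (h.left i) he n
  simpa using this

private theorem cha_adv_right (h : Chain K0 A B F G) {e : ℕ} (he : Tot e) (i : ℕ) :
    B i (2 * e + 1) = fun n => min (tt K0 e n) (G i n) := by
  funext n
  have := side_adv (h.right i) he n
  simpa using this

private theorem cha_tA (h : Chain K0 A B F G) {e : ℕ} (he : Tot e) {i : ℕ}
    (h1 : Ale (tt K0 e) (F i)) :
    Ale (A i (2 * e)) (tt K0 e) ∧ Ale (tt K0 e) (A i (2 * e)) := by
  rw [cha_adv_left h he i]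
  exact ⟨cha_le fun n => min_le_left _ _, cha_min ⟨0, fun n => le_rfl⟩ h1⟩

private theorem cha_tB (h : Chain K0 A B F G) {e : ℕ} (he : Tot e) {i : ℕ}
    (h1 : Ale (tt K0 e) (G i)) :
    Ale (B i (2 * e + 1)) (tt K0 e) ∧ Ale (tt K0 e) (B i (2 * e + 1)) := by
  rw [cha_adv_right h he i]
  exact ⟨cha_le fun n => min_le_left _ _, cha_min ⟨0, fun n => le_rfl⟩ h1⟩

private theorem cha_AB (h : Chain K0 A B F G) (i u v : ℕ) :
    Ale (A i u) (A i v) ↔ Ale (B i u) (B i v) :=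
  ⟨same_ale (h.same i) (side_bounds (h.left i)) (side_bounds (h.right i)) u v,
    same_ale (h.same i).symm (side_bounds (h.right i)) (side_bounds (h.left i)) u v⟩

private theorem cha_leG (h : Chain K0 A B F G) (i v : ℕ) : Ale (B i v) (G i) :=
  cha_le fun n => (side_bounds (h.right i) v n).2

private theorem cha_leF (h : Chain K0 A B F G) (i v : ℕ) : Ale (A i v) (F i) :=
  cha_le fun n => (side_bounds (h.left i) v n).2

theorem Ri_succ (hK : Tendsto K0 atTop atTop) (h : Chain K0 A B F G) {i e e' : ℕ}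
    (hR : Ri K0 B F G i e e') : Ri K0 B F G (i + 1) e e' := by
  obtain ⟨he, he', hF, hG, hB, hB'⟩ := hR
  have hF1 : Ale (tt K0 e) (F (i + 1)) := cha_trans hF (cha_le (h.monoF i))
  have hG1 : Ale (tt K0 e') (G (i + 1)) := cha_trans hG (cha_le (h.monoG i))
  refine ⟨he, he', hF1, hG1, ?_, ?_⟩
  · obtain ⟨e'', hT, h1, h2⟩ := side_hor hK (h.right i)
    have hGB : Ale (G i) (B i (2 * e'' + 1)) := cha_trans h2 (cha_tB h hT h1).2
    have hFA : Ale (F i) (A i (2 * e'' + 1)) :=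
      same_ale_hor (h.same i).symm (side_bounds (h.right i)) (side_bounds (h.left i)) _ hGB
    have hAA : Ale (A i (2 * e'' + 1)) (A (i + 1) (2 * e'' + 1)) :=
      cha_le fun n => by rw [← h.cutA i (2 * e'' + 1) n]; exact min_le_left _ _
    have h3 : Ale (A (i + 1) (2 * e)) (A (i + 1) (2 * e'' + 1)) :=
      cha_trans (cha_tA h he hF1).1 (cha_trans hF (cha_trans hFA hAA))
    have h4 : Ale (B (i + 1) (2 * e)) (B (i + 1) (2 * e'' + 1)) := (cha_AB h _ _ _).1 h3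
    have hG2 : Ale (tt K0 e'') (G (i + 1)) := cha_trans h1 (cha_le (h.monoG i))
    have h5 : Ale (B (i + 1) (2 * e)) (G i) :=
      cha_trans h4 (cha_trans (cha_tB h hT hG2).1 h1)
    obtain ⟨C, hC⟩ := h5
    obtain ⟨D, hD⟩ := hB
    refine ⟨C + D, fun n => ?_⟩
    have k1 := hC n
    have k2 := hD n
    have k3 := h.cutB i (2 * e) n
    omega
  · refine cha_trans hB' (cha_le fun n => ?_)
    rw [← h.cutB i (2 * e) n]
    exact min_le_left _ _

/-- the correspondence read on the other side -/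
theorem Ri_iff_left (hK : Tendsto K0 atTop atTop) (h : Chain K0 A B F G) {i e e' : ℕ}
    (he : Tot e) (he' : Tot e') (h1 : Ale (tt K0 e) (F i)) (h2 : Ale (tt K0 e') (G i)) :
    Ri K0 B F G i e e' ↔ (Ale (A i (2 * e' + 1)) (tt K0 e) ∧ Ale (tt K0 e) (A i (2 * e' + 1))) := by
  obtain ⟨a1, a2⟩ := cha_tA h he h1
  obtain ⟨b1, b2⟩ := cha_tB h he' h2
  constructor
  · rintro ⟨-, -, -, -, h3, h4⟩
    exact ⟨cha_trans ((cha_AB h _ _ _).2 (cha_trans b1 h4)) a1,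
      cha_trans a2 ((cha_AB h _ _ _).2 (cha_trans h3 b2))⟩
  · rintro ⟨h3, h4⟩
    exact ⟨he, he', h1, h2, cha_trans ((cha_AB h _ _ _).1 (cha_trans a1 h4)) b1,
      cha_trans b2 ((cha_AB h _ _ _).1 (cha_trans h3 a2))⟩

private theorem cha_mono (hK : Tendsto K0 atTop atTop) (h : Chain K0 A B F G) {i j e e' : ℕ}
    (hij : i ≤ j) (hR : Ri K0 B F G i e e') : Ri K0 B F G j e e' := by
  induction j, hij using Nat.le_induction with
  | base => exact hR
  | succ j _ ih => exact Ri_succ hK h ih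

/-- `R e e' := ∃ i, Ri i e e'` is an automorphism. -/
theorem chain_auto (hK : Tendsto K0 atTop atTop) (h : Chain K0 A B F G) :
    IsAuto (fun e e' => ∃ i, Ri K0 B F G i e e') := by
  have toR : ∀ i, ∃ ι : ℕ → ℕ, Computable ι ∧ ∀ e, Tot e → Ale (tt K0 e) (F i) →
      Ri K0 B F G i e (ι e) := by
    intro i
    obtain ⟨ι, hι, hv⟩ := side_index hK (h.right i)
    have hc : Computable (fun e : ℕ => ι (2 * e)) :=
      hι.comp (Primrec.nat_mul.comp (Primrec.const 2) Primrec.id).to_comp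
    refine ⟨fun e => ι (2 * e), hc, fun e he hF => ?_⟩
    obtain ⟨t1, t2, t3⟩ := hv (2 * e)
    exact ⟨he, t1, hF, cha_trans t2 (cha_leG h i _), t3, t2⟩
  have toL : ∀ i, ∃ ι : ℕ → ℕ, Computable ι ∧ ∀ e', Tot e' → Ale (tt K0 e') (G i) →
      Ri K0 B F G i (ι e') e' := by
    intro i
    obtain ⟨ι, hι, hv⟩ := side_index hK (h.left i)
    have hc : Computable (fun e : ℕ => ι (2 * e + 1)) :=
      hι.comp (Primrec.succ.comp (Primrec.nat_mul.comp (Primrec.const 2) Primrec.id)).to_comp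
    refine ⟨fun e => ι (2 * e + 1), hc, fun e' he' hG => ?_⟩
    obtain ⟨t1, t2, t3⟩ := hv (2 * e' + 1)
    exact (Ri_iff_left hK h t1 he' (cha_trans t2 (cha_leF h i _)) hG).2 ⟨t3, t2⟩
  refine ⟨?_, ?_, ?_, ?_, ?_, ?_⟩
  · rintro e e' ⟨i, hi⟩
    exact ⟨hi.1, hi.2.1⟩
  · intro e he
    obtain ⟨i, hi⟩ := h.cofF e he
    obtain ⟨ι, -, hr⟩ := toR i
    exact ⟨ι e, i, hr e he (cha_le hi)⟩
  · intro e' he'
    obtain ⟨i, hi⟩ := h.cofG e' he'
    obtain ⟨ι, -, hr⟩ := toL i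
    exact ⟨ι e', i, hr e' he' (cha_le hi)⟩
  · rintro e₁ e₁' e₂ e₂' ⟨i₁, h₁⟩ ⟨i₂, h₂⟩
    have k₁ := cha_mono hK h (le_max_left i₁ i₂) h₁
    have k₂ := cha_mono hK h (le_max_right i₁ i₂) h₂
    obtain ⟨t₁, t₁', f₁, g₁, b₁, b₁'⟩ := k₁
    obtain ⟨t₂, t₂', f₂, g₂, b₂, b₂'⟩ := k₂
    obtain ⟨a₁, a₁'⟩ := cha_tA h t₁ f₁
    obtain ⟨a₂, a₂'⟩ := cha_tA h t₂ f₂
    rw [ole_iff_ale hK t₁ t₂, ole_iff_ale hK t₁' t₂']
    constructor
    · intro hh
      exact cha_trans b₁' (cha_trans ((cha_AB h _ _ _).1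
        (cha_trans a₁ (cha_trans hh a₂'))) b₂)
    · intro hh
      exact cha_trans a₁' (cha_trans ((cha_AB h _ _ _).2
        (cha_trans b₁ (cha_trans hh b₂'))) a₂)
  · intro ι hι hT e₀ he₀ hle
    obtain ⟨i, hi⟩ := h.cofF e₀ he₀
    obtain ⟨κ, hκ, hr⟩ := toR i
    refine ⟨fun j => κ (ι j), hκ.comp hι, fun j => ⟨i, hr (ι j) (hT j) ?_⟩⟩
    exact cha_trans ((ole_iff_ale hK (hT j) he₀).1 (hle j)) (cha_le hi)
  · intro ι' hι' hT e₀ he₀ hle
    obtain ⟨i, hi⟩ := h.cofG e₀ he₀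
    obtain ⟨κ, hκ, hr⟩ := toL i
    refine ⟨fun j => κ (ι' j), hκ.comp hι', fun j => ⟨i, hr (ι' j) (hT j) ?_⟩⟩
    exact cha_trans ((ole_iff_ale hK (hT j) he₀).1 (hle j)) (cha_le hi)

end Pool.Agent.H71.CT
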