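import Pool.Agent.H71.CT.TT

/-! Chains of stages. -/

namespace Pool.Agent.H71.CT

open Filter

/-- A chain of stages: left side `A i`, `F i` (we control the odd functions), right side `B i`,
`G i` (we control the even functions). -/
structure Chain (K0 : ℕ → ℕ) (A B : ℕ → ℕ → ℕ → ℕ) (F G : ℕ → ℕ → ℕ) : Prop where
  left : ∀ i, Side (stpK K0) false (A i) (F i)
  right : ∀ i, Side (stpK K0) true (B i) (G i)
  same : ∀ i, Same (A i) (F i) (B i) (G i)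
  monoF : ∀ i n, F i n ≤ F (i + 1) n
  monoG : ∀ i n, G i n ≤ G (i + 1) n
  cutA : ∀ i v n, min (A (i + 1) v n) (F i n) = A i v n
  cutB : ∀ i v n, min (B (i + 1) v n) (G i n) = B i v n
  cofF : ∀ e, Tot e → ∃ i, ∀ n, tt K0 e n ≤ F i n
  cofG : ∀ e, Tot e → ∃ i, ∀ n, tt K0 e n ≤ G i n

/-- correspondence at stage `i` -/
def Ri (K0 : ℕ → ℕ) (B : ℕ → ℕ → ℕ → ℕ) (F G : ℕ → ℕ → ℕ) (i e e' : ℕ) : Prop :=
  Tot e ∧ Tot e' ∧ Ale (tt K0 e) (F i) ∧ Ale (tt K0 e') (G i) ∧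
    Ale (B i (2 * e)) (tt K0 e') ∧ Ale (tt K0 e') (B i (2 * e))

end Pool.Agent.H71.CT
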