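import Pool.Agent.H71.CT.GameB1

/-! Values of the game: change of payoff. -/

namespace Pool.Agent.H71.CT

variable {α : Type*} [LinearOrder α]

private theorem gameB3_mx {β : Type*} [LinearOrder β] (own : ℕ → Bool) (c : List Bool)
    (X : List Bool → α) (f : α → β) (hf : Monotone f) :
    ∀ (j : ℕ) (l : List Bool), mx own c (fun m => f (X m)) j l = f (mx own c X j l) := by
  intro j
  induction j with
  | zero => intro l; rfl
  | succ j ih =>
    intro l
    rw [mx, mx, ih, ih]
    split_ifs
    · rfl
    · exact (hf.map_max).symm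
    · exact (hf.map_min).symm

/-- values and monotone maps -/
theorem V_map {β : Type*} [LinearOrder β] (own : ℕ → Bool) (k : ℕ) (pay : Q → α) (f : α → β)
    (hf : Monotone f) (d : ℕ) (q : Q) :
    V own k (fun q => f (pay q)) d q = f (V own k pay d q) := by
  induction d generalizing q with
  | zero => rfl
  | succ d ih =>
    have h1 : (fun m => V own k (fun q => f (pay q)) d (ext k q m)) =
        fun m => f (V own k pay d (ext k q m)) := funext fun m => ih (ext k q m)
    rw [V, V, h1, gameB3_mx own (cur q) (fun m => V own k pay d (ext k q m)) f hf k [],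
      ← hf.map_max]

private theorem gameB3_cur {k : ℕ} {q : Q} (hq : Good k q) : (cur q).length ≤ k := by
  induction hq with
  | nil => exact Nat.zero_le _
  | @ext q m h hm ih =>
    unfold ext
    split_ifs
    · exact ih
    · exact hm.1.le

private theorem gameB3_mono (own : ℕ → Bool) (k : ℕ) (pay pay' : Q → α)
    (h : ∀ q, Good k q → pay q ≤ pay' q) (d : ℕ) :
    ∀ q : Q, Good k q → V own k pay d q ≤ V own k pay' d q := by
  induction d with
  | zero => exact h
  | succ d ih =>
    intro q hq
    rw [V, V]
    refine max_le_max (h q hq) ?_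
    exact mx_mono own (cur q) _ _ k (gameB3_cur hq) fun m hm => ih _ (Good.ext hq hm)

private theorem gameB3_half (own : ℕ → Bool) (k : ℕ) (pay pay' : Q → ℝ) (ε : ℝ)
    (h : ∀ q, Good k q → pay q ≤ pay' q + ε) (d : ℕ) (q : Q) (hq : Good k q) :
    V own k pay d q ≤ V own k pay' d q + ε := by
  have h1 := gameB3_mono own k pay (fun q => pay' q + ε) h d q hq
  have h2 := V_map own k pay' (fun x => x + ε) (fun a b hab => add_le_add_left hab ε) d q
  rw [h2] at h1
  exact h1

/-- values move by at most `ε` if the payoffs do -/
theorem V_close (own : ℕ → Bool) (k : ℕ) (pay pay' : Q → ℝ) (ε : ℝ)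
    (h : ∀ q, Good k q → |pay q - pay' q| ≤ ε) (d : ℕ) (q : Q) (hq : Good k q) :
    |V own k pay d q - V own k pay' d q| ≤ ε := by
  have h1 := gameB3_half own k pay pay' ε (fun q hq => by
    have := (abs_le.1 (h q hq)).2
    linarith) d q hq
  have h2 := gameB3_half own k pay' pay ε (fun q hq => by
    have := (abs_le.1 (h q hq)).1
    linarith) d q hq
  rw [abs_le]
  constructor
  · linarith
  · linarith

end Pool.Agent.H71.CT
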