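import Pool.Agent.H71.CT.GameB2
import Pool.Agent.H71.CT.GameB3

/-!
The limit argument.

Proof. Write `c_n (k, s) = 2^-r - 2^-l`, where `l` (`r`) is the number of `m < κ n` with
`p k m = s` (`q k m = s`); then `payN / 2^(2 κ n) = sum_(k < κ n) 2^-k (1 + c_n (k, res k s))`.
For each `k` the numbers `c_n (k, s)` converge to `c (k, s) = 2^-r∞ - 2^-l∞` uniformly in `s`
(only finitely many `s` are ever visited, the others have `c_n = 0`). For late `n` the state
`q k n` is visited infinitely often by `q`, so `c (k, q k n) ≤ 0`; likewise `c (k, p k n) ≥ 0`.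
Hence for late `n` the payoff of `q (κ n) n` is `≤ const + ε` and so is the value of `y (κ n) n`;
the value of `x (κ n) n` is `≥ const - ε`. By `V_res` and `V_close` the value at board `n` depends
up to `ε` only on the level `I` restriction of the start state (`I` large, fixed), and by `hxy`
late `x I n` equal some late `y I m` and conversely. So both kinds of values tend to `const`.
If `p k n = s` infinitely often but `q k n = s` only finitely often, then at late such `n` the
payoff of `p (κ n) n` is `≥ const + 2^-k 2^-r∞ - ε`, contradiction to `hP`. The converse is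
symmetric.
-/

namespace Pool.Agent.H71.CT

open Filter

private noncomputable def limit_w (p : ℕ → ℕ → Q) (k : ℕ) (s : Q) (N : ℕ) : ℝ :=
  (1 / 2 : ℝ) ^ ((List.range N).countP (fun m => decide (p k m = s)))

private noncomputable def limit_A (p : ℕ → ℕ → Q) (k : ℕ) (s : Q) : ℝ := ⨅ N, limit_w p k s N

private theorem limit_w_pos (p : ℕ → ℕ → Q) (k : ℕ) (s : Q) (N : ℕ) : 0 < limit_w p k s N := by
  unfold limit_w
  positivity

private theorem limit_w_le (p : ℕ → ℕ → Q) (k : ℕ) (s : Q) (N : ℕ) : limit_w p k s N ≤ 1 := by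
  unfold limit_w
  exact pow_le_one₀ (by norm_num) (by norm_num)

private theorem limit_w_anti (p : ℕ → ℕ → Q) (k : ℕ) (s : Q) : Antitone (limit_w p k s) := by
  refine antitone_nat_of_succ_le fun N => ?_
  unfold limit_w
  refine pow_le_pow_of_le_one (by norm_num) (by norm_num) ?_
  rw [List.range_succ, List.countP_append]
  omega

private theorem limit_tends (p : ℕ → ℕ → Q) (k : ℕ) (s : Q) :
    Tendsto (limit_w p k s) atTop (nhds (limit_A p k s)) := by
  refine tendsto_atTop_ciInf (limit_w_anti p k s) ⟨0, ?_⟩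
  rintro _ ⟨N, rfl⟩
  exact (limit_w_pos p k s N).le

private theorem limit_A_nonneg (p : ℕ → ℕ → Q) (k : ℕ) (s : Q) : 0 ≤ limit_A p k s :=
  le_ciInf fun N => (limit_w_pos p k s N).le

private theorem limit_A_le (p : ℕ → ℕ → Q) (k : ℕ) (s : Q) (N : ℕ) : limit_A p k s ≤ limit_w p k s N := by
  refine ciInf_le ⟨0, ?_⟩ N
  rintro _ ⟨N, rfl⟩
  exact (limit_w_pos p k s N).le

private theorem limit_A_zero {p : ℕ → ℕ → Q} {k : ℕ} {s : Q} (h : ∃ᶠ n in atTop, p k n = s) :
    limit_A p k s = 0 := by
  have h1 : ∀ j : ℕ, ∃ N, j ≤ (List.range N).countP (fun m => decide (p k m = s)) := by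
    intro j
    induction j with
    | zero => exact ⟨0, Nat.zero_le _⟩
    | succ j ih =>
      obtain ⟨N, hN⟩ := ih
      obtain ⟨n, hn, hs⟩ := (frequently_atTop.1 h) N
      refine ⟨n + 1, ?_⟩
      rw [List.range_succ, List.countP_append]
      have h2 : (List.range N).countP (fun m => decide (p k m = s)) ≤
          (List.range n).countP (fun m => decide (p k m = s)) :=
        List.Sublist.countP_le (List.range_sublist.2 hn)
      have h3 : [n].countP (fun m => decide (p k m = s)) = 1 := by simp [hs]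
      omega
  refine le_antisymm ?_ (limit_A_nonneg p k s)
  refine ge_of_tendsto' (tendsto_pow_atTop_nhds_zero_of_lt_one (by norm_num : (0 : ℝ) ≤ 1 / 2) (by norm_num)) fun j => ?_
  obtain ⟨N, hN⟩ := h1 j
  exact (limit_A_le p k s N).trans (pow_le_pow_of_le_one (by norm_num) (by norm_num) hN)

private theorem limit_freq {p : ℕ → ℕ → Q} {k : ℕ} {s : Q} (h : limit_A p k s = 0) :
    ∃ᶠ n in atTop, p k n = s := by
  by_contra hno
  rw [not_frequently] at hno
  obtain ⟨N0, hN0⟩ := eventually_atTop.1 hno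
  have h1 : ∀ d, limit_w p k s (N0 + d) = limit_w p k s N0 := by
    intro d
    induction d with
    | zero => rfl
    | succ d ih =>
      rw [← ih]
      unfold limit_w
      rw [← Nat.add_assoc, List.range_succ, List.countP_append]
      have h3 : [N0 + d].countP (fun m => decide (p k m = s)) = 0 := by
        simp [hN0 (N0 + d) (Nat.le_add_right _ _)]
      rw [h3, Nat.add_zero]
  have h2 : Tendsto (limit_w p k s) atTop (nhds (limit_w p k s N0)) := by
    refine tendsto_const_nhds.congr' ?_
    filter_upwards [eventually_ge_atTop N0] with n hn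
    obtain ⟨d, rfl⟩ := Nat.exists_eq_add_of_le hn
    exact (h1 d).symm
  have h3 := tendsto_nhds_unique h2 (limit_tends p k s)
  have h4 := limit_w_pos p k s N0
  rw [h3, h] at h4
  exact lt_irrefl _ h4

private theorem limit_late {p : ℕ → ℕ → Q} (gp : ∀ k n, Good k (p k n)) (k : ℕ) :
    ∀ᶠ n in atTop, ∃ᶠ m in atTop, p k m = p k n := by
  have h1 : ∀ᶠ n in atTop, ∀ s ∈ {s : Q | Good k s}, p k n = s → ∃ᶠ m in atTop, p k m = s := by
    rw [eventually_all_finite (Good.finite k)]
    intro s _
    by_cases h : ∃ᶠ m in atTop, p k m = s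
    · exact Eventually.of_forall fun _ _ => h
    · rw [not_frequently] at h
      exact h.mono fun n hn hs => absurd hs hn
  exact h1.mono fun n hn => hn _ (gp k n) rfl

private theorem limit_unif (p : ℕ → ℕ → Q) (k : ℕ) {ε : ℝ} (hε : 0 < ε) :
    ∀ᶠ N in atTop, ∀ s, Good k s → |limit_w p k s N - limit_A p k s| ≤ ε := by
  have h1 : ∀ᶠ N in atTop, ∀ s ∈ {s : Q | Good k s}, |limit_w p k s N - limit_A p k s| ≤ ε := by
    rw [eventually_all_finite (Good.finite k)]
    intro s _
    have h2 := (Metric.tendsto_atTop.1 (limit_tends p k s)) ε hε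
    obtain ⟨N, hN⟩ := h2
    filter_upwards [eventually_ge_atTop N] with n hn
    have h3 := hN n hn
    rw [Real.dist_eq] at h3
    exact h3.le
  exact h1

private noncomputable def limit_F (p q : ℕ → ℕ → Q) (K : ℕ) (s : Q) : ℝ :=
  ∑ k ∈ Finset.range K, (1 / 2 : ℝ) ^ k * (1 + (limit_w q k (res k s) K - limit_w p k (res k s) K))

private noncomputable def limit_G (p q : ℕ → ℕ → Q) (I : ℕ) (s : Q) : ℝ :=
  ∑ k ∈ Finset.range I, (1 / 2 : ℝ) ^ k * (limit_A q k (res k s) - limit_A p k (res k s))

private noncomputable def limit_C (K : ℕ) : ℝ := ∑ k ∈ Finset.range K, (1 / 2 : ℝ) ^ k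

private theorem limit_pay {p q : ℕ → ℕ → Q} (cp : ∀ k K n, k ≤ K → res k (p K n) = p k n)
    (cq : ∀ k K n, k ≤ K → res k (q K n) = q k n) (K : ℕ) (s : Q) :
    (payN K (p K) (q K) s : ℝ) / 4 ^ K = limit_F p q K s := by
  unfold payN limit_F
  rw [Nat.cast_sum, Finset.sum_div]
  refine Finset.sum_congr rfl fun k hk => ?_
  have hk' := Finset.mem_range.1 hk
  have e1 : ∀ m, res k (q K m) = q k m := fun m => cq k K m hk'.le
  have e2 : ∀ m, res k (p K m) = p k m := fun m => cp k K m hk'.le
  simp only [e1, e2]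
  unfold limit_w
  set r := (List.range K).countP (fun m => decide (q k m = res k s))
  set l := (List.range K).countP (fun m => decide (p k m = res k s))
  have hr : r ≤ K := (List.countP_le_length).trans (by rw [List.length_range])
  have hl : l ≤ K := (List.countP_le_length).trans (by rw [List.length_range])
  have h2 : ∀ j, j ≤ K → ((2 : ℝ) ^ (K - j)) = 2 ^ K * (1 / 2) ^ j := by
    intro j hj
    obtain ⟨d, rfl⟩ := Nat.exists_eq_add_of_le hj
    rw [Nat.add_sub_cancel_left, pow_add, one_div, inv_pow]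
    field_simp
  have h3 : 2 ^ (K - l) ≤ 2 ^ K + 2 ^ (K - r) :=
    (Nat.pow_le_pow_right (by norm_num) (Nat.sub_le K l)).trans (Nat.le_add_right _ _)
  rw [Nat.cast_mul, Nat.cast_sub h3]
  push_cast
  rw [h2 k hk'.le, h2 r hr, h2 l hl]
  have h4 : (4 : ℝ) ^ K = 2 ^ K * 2 ^ K := by
    rw [← mul_pow]
    norm_num
  rw [h4]
  field_simp
  ring

private theorem limit_close (p q : ℕ → ℕ → Q) (I : ℕ) {δ : ℝ} (hδ : 0 < δ) (hI : 2 * (1 / 2 : ℝ) ^ I ≤ δ / 2) :
    ∀ᶠ K in atTop, ∀ s, Good K s → |limit_F p q K s - (limit_C K + limit_G p q I (res I s))| ≤ δ := by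
  have h1 : ∀ᶠ K in atTop, ∀ k ∈ Finset.range I, ∀ s, Good k s →
      |limit_w q k s K - limit_A q k s| ≤ δ / 8 ∧ |limit_w p k s K - limit_A p k s| ≤ δ / 8 := by
    rw [Filter.eventually_all_finset]
    intro k _
    filter_upwards [limit_unif q k (show 0 < δ / 8 by linarith), limit_unif p k (show 0 < δ / 8 by linarith)]
      with K h2 h3 s hs
    exact ⟨h2 s hs, h3 s hs⟩
  filter_upwards [h1, eventually_ge_atTop I] with K hK hIK s hs
  have e1 : limit_F p q K s - (limit_C K + limit_G p q I (res I s)) =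
      ∑ k ∈ Finset.range I, (1 / 2 : ℝ) ^ k * ((limit_w q k (res k s) K - limit_A q k (res k s)) -
        (limit_w p k (res k s) K - limit_A p k (res k s))) +
      ∑ k ∈ Finset.Ico I K, (1 / 2 : ℝ) ^ k * (limit_w q k (res k s) K - limit_w p k (res k s) K) := by
    have e2 : limit_F p q K s - limit_C K =
        ∑ k ∈ Finset.range K, (1 / 2 : ℝ) ^ k * (limit_w q k (res k s) K - limit_w p k (res k s) K) := by
      unfold limit_F limit_C
      rw [← Finset.sum_sub_distrib]
      refine Finset.sum_congr rfl fun k _ => ?_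
      ring
    have e3 : limit_G p q I (res I s) =
        ∑ k ∈ Finset.range I, (1 / 2 : ℝ) ^ k * (limit_A q k (res k s) - limit_A p k (res k s)) := by
      unfold limit_G
      refine Finset.sum_congr rfl fun k hk => ?_
      rw [res_res (Finset.mem_range.1 hk).le]
    rw [← sub_sub, e2, e3, ← Finset.sum_range_add_sum_Ico _ hIK, add_sub_right_comm, ← Finset.sum_sub_distrib]
    congr 1
    refine Finset.sum_congr rfl fun k _ => ?_
    ring
  rw [e1]
  have b1 : |∑ k ∈ Finset.range I, (1 / 2 : ℝ) ^ k * ((limit_w q k (res k s) K - limit_A q k (res k s)) -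
        (limit_w p k (res k s) K - limit_A p k (res k s)))| ≤ δ / 2 := by
    refine (Finset.abs_sum_le_sum_abs _ _).trans ?_
    have h2 : ∀ k ∈ Finset.range I, |(1 / 2 : ℝ) ^ k * ((limit_w q k (res k s) K - limit_A q k (res k s)) -
        (limit_w p k (res k s) K - limit_A p k (res k s)))| ≤ (1 / 2 : ℝ) ^ k * (δ / 4) := by
      intro k hk
      rw [abs_mul, abs_of_nonneg (by positivity : (0 : ℝ) ≤ (1 / 2) ^ k)]
      refine mul_le_mul_of_nonneg_left ?_ (by positivity)
      obtain ⟨h3, h4⟩ := hK k hk (res k s) (Good.res ((Finset.mem_range.1 hk).le.trans hIK) hs)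
      refine (abs_sub _ _).trans ?_
      linarith
    refine (Finset.sum_le_sum h2).trans ?_
    rw [← Finset.sum_mul]
    have h3 := sum_geometric_two_le I
    nlinarith
  have b2 : |∑ k ∈ Finset.Ico I K, (1 / 2 : ℝ) ^ k * (limit_w q k (res k s) K - limit_w p k (res k s) K)| ≤ δ / 2 := by
    refine (Finset.abs_sum_le_sum_abs _ _).trans ?_
    have h2 : ∀ k ∈ Finset.Ico I K, |(1 / 2 : ℝ) ^ k * (limit_w q k (res k s) K - limit_w p k (res k s) K)| ≤
        (1 / 2 : ℝ) ^ k := by
      intro k _
      rw [abs_mul, abs_of_nonneg (by positivity : (0 : ℝ) ≤ (1 / 2) ^ k)]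
      refine mul_le_of_le_one_right (by positivity) ?_
      rw [abs_le]
      constructor <;> linarith [limit_w_pos q k (res k s) K, limit_w_pos p k (res k s) K,
        limit_w_le q k (res k s) K, limit_w_le p k (res k s) K]
    refine (Finset.sum_le_sum h2).trans ?_
    rw [Finset.sum_Ico_eq_sum_range]
    simp_rw [pow_add]
    rw [← Finset.mul_sum]
    have h3 := sum_geometric_two_le (K - I)
    have h4 : (0 : ℝ) ≤ (1 / 2) ^ I := by positivity
    nlinarith
  refine (abs_add_le _ _).trans ?_
  linarith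

private theorem limit_V (own : ℕ → Bool) (p q : ℕ → ℕ → Q) (I : ℕ) {δ : ℝ} (hδ : 0 < δ)
    (hI : 2 * (1 / 2 : ℝ) ^ I ≤ δ / 2) :
    ∀ᶠ K in atTop, ∀ s, Good K s → |V own K (limit_F p q K) (M K) s -
      (limit_C K + V own I (limit_G p q I) (M I) (res I s))| ≤ δ := by
  filter_upwards [limit_close p q I hδ hI, eventually_ge_atTop I] with K hK hIK s hs
  have h1 := V_close own K (limit_F p q K) (fun s => limit_C K + limit_G p q I (res I s)) δ hK (M K) s hs
  have h2 : V own K (fun s => limit_C K + limit_G p q I (res I s)) (M K) s =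
      V own I (fun t => limit_C K + limit_G p q I t) (M I) (res I s) :=
    V_res own hIK (fun t => limit_C K + limit_G p q I t) hs
  have h3 : V own I (fun t => limit_C K + limit_G p q I t) (M I) (res I s) =
      limit_C K + V own I (limit_G p q I) (M I) (res I s) :=
    V_map own I (limit_G p q I) (fun z => limit_C K + z) (fun a b hab => by simpa using hab) (M I) (res I s)
  rw [h2, h3] at h1
  exact h1

/-- If on every board the payoff of the final state on the `P` side is at most the value of the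
start state, and on the other side at least the value of the start state, then both sides see the
same states infinitely often. -/
theorem limit_same (own : ℕ → Bool) (κ : ℕ → ℕ) (hκ : Tendsto κ atTop atTop)
    (p q x y : ℕ → ℕ → Q)
    (gp : ∀ k n, Good k (p k n)) (gq : ∀ k n, Good k (q k n))
    (gx : ∀ k n, Good k (x k n)) (gy : ∀ k n, Good k (y k n))
    (cp : ∀ k K n, k ≤ K → res k (p K n) = p k n) (cq : ∀ k K n, k ≤ K → res k (q K n) = q k n)
    (cx : ∀ k K n, k ≤ K → res k (x K n) = x k n) (cy : ∀ k K n, k ≤ K → res k (y K n) = y k n)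
    (hP : ∀ n, payN (κ n) (p (κ n)) (q (κ n)) (p (κ n) n) ≤
      V own (κ n) (payN (κ n) (p (κ n)) (q (κ n))) (M (κ n)) (x (κ n) n))
    (hQ : ∀ n, V own (κ n) (payN (κ n) (p (κ n)) (q (κ n))) (M (κ n)) (y (κ n) n) ≤
      payN (κ n) (p (κ n)) (q (κ n)) (q (κ n) n))
    (hxy : ∀ k s, (∃ᶠ n in atTop, x k n = s) ↔ (∃ᶠ n in atTop, y k n = s)) :
    ∀ k s, (∃ᶠ n in atTop, p k n = s) ↔ (∃ᶠ n in atTop, q k n = s) := by
  have hmono : ∀ K : ℕ, Monotone (fun m : ℕ => (m : ℝ) / 4 ^ K) := fun K a b hab => by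
    have : (a : ℝ) ≤ b := by exact_mod_cast hab
    exact div_le_div_of_nonneg_right this (by positivity)
  have hVpay : ∀ K s, ((V own K (payN K (p K) (q K)) (M K) s : ℕ) : ℝ) / 4 ^ K = V own K (limit_F p q K) (M K) s := by
    intro K s
    have h1 := V_map own K (payN K (p K) (q K)) (fun m : ℕ => (m : ℝ) / 4 ^ K) (hmono K) (M K) s
    rw [← h1]
    congr 1
    funext t
    exact limit_pay cp cq K t
  have hP' : ∀ n, limit_F p q (κ n) (p (κ n) n) ≤ V own (κ n) (limit_F p q (κ n)) (M (κ n)) (x (κ n) n) := by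
    intro n
    rw [← hVpay, ← limit_pay cp cq]
    exact hmono (κ n) (hP n)
  have hQ' : ∀ n, V own (κ n) (limit_F p q (κ n)) (M (κ n)) (y (κ n) n) ≤ limit_F p q (κ n) (q (κ n) n) := by
    intro n
    rw [← hVpay, ← limit_pay cp cq]
    exact hmono (κ n) (hQ n)
  -- the main estimate
  have main : ∀ (I : ℕ) (δ : ℝ), 0 < δ → 2 * (1 / 2 : ℝ) ^ I ≤ δ / 2 →
      ∀ᶠ n in atTop, (∀ k ∈ Finset.range I, limit_A p k (p k n) = 0 ∧ limit_A q k (q k n) = 0) ∧
        limit_G p q I (p I n) ≤ 4 * δ ∧ -(4 * δ) ≤ limit_G p q I (q I n) := by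
    intro I δ hδ hI
    have hz : ∀ᶠ n in atTop, ∀ k ∈ Finset.range I, limit_A p k (p k n) = 0 ∧ limit_A q k (q k n) = 0 := by
      rw [Filter.eventually_all_finset]
      intro k _
      filter_upwards [limit_late gp k, limit_late gq k] with n h1 h2
      exact ⟨limit_A_zero h1, limit_A_zero h2⟩
    have hGp : ∀ n, (∀ k ∈ Finset.range I, limit_A p k (p k n) = 0 ∧ limit_A q k (q k n) = 0) →
        0 ≤ limit_G p q I (p I n) := by
      intro n hn
      refine Finset.sum_nonneg fun k hk => ?_
      rw [cp k I n (Finset.mem_range.1 hk).le, (hn k hk).1, sub_zero]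
      exact mul_nonneg (by positivity) (limit_A_nonneg _ _ _)
    have hGq : ∀ n, (∀ k ∈ Finset.range I, limit_A p k (p k n) = 0 ∧ limit_A q k (q k n) = 0) →
        limit_G p q I (q I n) ≤ 0 := by
      intro n hn
      refine Finset.sum_nonpos fun k hk => ?_
      rw [cq k I n (Finset.mem_range.1 hk).le, (hn k hk).2, zero_sub]
      exact mul_nonpos_of_nonneg_of_nonpos (by positivity) (neg_nonpos.2 (limit_A_nonneg _ _ _))
    have hF := hκ.eventually (limit_close p q I hδ hI)
    have hV := hκ.eventually (limit_V own p q I hδ hI)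
    have hKI := hκ.eventually (eventually_ge_atTop I)
    have hstep : ∀ᶠ n in atTop, limit_G p q I (p I n) ≤ V own I (limit_G p q I) (M I) (x I n) + 2 * δ ∧
        V own I (limit_G p q I) (M I) (y I n) ≤ limit_G p q I (q I n) + 2 * δ := by
      filter_upwards [hF, hV, hKI] with n h1 h2 h3
      have a1 := h1 (p (κ n) n) (gp _ _)
      have a2 := h1 (q (κ n) n) (gq _ _)
      have a3 := h2 (x (κ n) n) (gx _ _)
      have a4 := h2 (y (κ n) n) (gy _ _)
      rw [cp I (κ n) n h3, abs_le] at a1
      rw [cq I (κ n) n h3, abs_le] at a2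
      rw [cx I (κ n) n h3, abs_le] at a3
      rw [cy I (κ n) n h3, abs_le] at a4
      have a5 := hP' n
      have a6 := hQ' n
      constructor <;> linarith [a1.1, a1.2, a2.1, a2.2, a3.1, a3.2, a4.1, a4.2]
    have hx1 : ∀ᶠ n in atTop, V own I (limit_G p q I) (M I) (x I n) ≤ 2 * δ := by
      filter_upwards [limit_late gx I] with n hn
      have h1 := (hxy I _).1 hn
      obtain ⟨m, h2, h3, h4⟩ := (h1.and_eventually (hstep.and hz)).exists
      rw [← h2]
      linarith [h3.2, hGq m h4]
    have hy1 : ∀ᶠ n in atTop, -(2 * δ) ≤ V own I (limit_G p q I) (M I) (y I n) := by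
      filter_upwards [limit_late gy I] with n hn
      have h1 := (hxy I _).2 hn
      obtain ⟨m, h2, h3, h4⟩ := (h1.and_eventually (hstep.and hz)).exists
      rw [← h2]
      linarith [h3.1, hGp m h4]
    filter_upwards [hz, hstep, hx1, hy1] with n h1 h2 h3 h4
    exact ⟨h1, by linarith [h2.1], by linarith [h2.2]⟩
  have hchoose : ∀ (k : ℕ) (δ : ℝ), 0 < δ → ∃ I, k < I ∧ 2 * (1 / 2 : ℝ) ^ I ≤ δ / 2 := by
    intro k δ hδ
    have h1 : Tendsto (fun I : ℕ => 2 * (1 / 2 : ℝ) ^ I) atTop (nhds (2 * 0)) :=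
      (tendsto_pow_atTop_nhds_zero_of_lt_one (by norm_num) (by norm_num)).const_mul 2
    rw [mul_zero] at h1
    have h2 := h1.eventually (ge_mem_nhds (show (0 : ℝ) < δ / 2 by linarith))
    obtain ⟨I, h3, h4⟩ := (h2.and (eventually_gt_atTop k)).exists
    exact ⟨I, h4, h3⟩
  intro k s
  constructor
  · intro h
    refine limit_freq (le_antisymm ?_ (limit_A_nonneg _ _ _))
    by_contra hpos
    push Not at hpos
    have hδ : 0 < limit_A q k s * (1 / 2) ^ k / 8 := by positivity
    obtain ⟨I, hkI, hI⟩ := hchoose k _ hδ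
    obtain ⟨n, h1, h2, h3, -⟩ := (h.and_eventually (main I _ hδ hI)).exists
    have h4 : (1 / 2 : ℝ) ^ k * limit_A q k s ≤ limit_G p q I (p I n) := by
      have h5 : ∀ j ∈ Finset.range I, 0 ≤ (1 / 2 : ℝ) ^ j * (limit_A q j (res j (p I n)) - limit_A p j (res j (p I n))) := by
        intro j hj
        rw [cp j I n (Finset.mem_range.1 hj).le, (h2 j hj).1, sub_zero]
        exact mul_nonneg (by positivity) (limit_A_nonneg _ _ _)
      have h6 := Finset.single_le_sum h5 (Finset.mem_range.2 hkI)
      rw [cp k I n hkI.le, (h2 k (Finset.mem_range.2 hkI)).1, sub_zero, h1] at h6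
      exact h6
    have h7 : 0 < (1 / 2 : ℝ) ^ k * limit_A q k s := by positivity
    linarith
  · intro h
    refine limit_freq (le_antisymm ?_ (limit_A_nonneg _ _ _))
    by_contra hpos
    push Not at hpos
    have hδ : 0 < limit_A p k s * (1 / 2) ^ k / 8 := by positivity
    obtain ⟨I, hkI, hI⟩ := hchoose k _ hδ
    obtain ⟨n, h1, h2, -, h3⟩ := (h.and_eventually (main I _ hδ hI)).exists
    have h4 : limit_G p q I (q I n) ≤ -((1 / 2 : ℝ) ^ k * limit_A p k s) := by
      have h5 : ∀ j ∈ Finset.range I, 0 ≤ -((1 / 2 : ℝ) ^ j * (limit_A q j (res j (q I n)) - limit_A p j (res j (q I n)))) := by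
        intro j hj
        rw [cq j I n (Finset.mem_range.1 hj).le, (h2 j hj).2, zero_sub, mul_neg, neg_neg]
        exact mul_nonneg (by positivity) (limit_A_nonneg _ _ _)
      have h6 := Finset.single_le_sum h5 (Finset.mem_range.2 hkI)
      rw [Finset.sum_neg_distrib, cq k I n hkI.le, (h2 k (Finset.mem_range.2 hkI)).2, zero_sub, mul_neg, neg_neg, h1] at h6
      unfold limit_G
      linarith
    have h7 : 0 < (1 / 2 : ℝ) ^ k * limit_A p k s := by positivity
    linarith

end Pool.Agent.H71.CT
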