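import Pool.Agent.H71.CT.GameA2

/-! Values of the game: stability. -/

namespace Pool.Agent.H71.CT

variable {α : Type*} [LinearOrder α]

private theorem gameB1_aux (own : ℕ → Bool) (c : List Bool) (X Y : List Bool → α) (b : α) (k : ℕ)
    (h : ∀ m, Legal k c m → X m ≤ b → Y m ≤ b) (hc : c.length ≤ k) :
    ∀ (j : ℕ) (l : List Bool), l.length + j = k →
      (∀ i, i < l.length → c.getD i false = true → l.getD i false = true) →
      mx own c X j l ≤ b → mx own c Y j l ≤ b := by
  intro j
  induction j with
  | zero =>
    intro l hl hi hX
    refine h l ⟨by omega, ?_⟩ hX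
    intro i hci
    refine hi i ?_ hci
    by_contra hcon
    rw [List.getD_eq_default] at hci
    · exact absurd hci (by simp)
    · omega
  | succ j ih =>
    intro l hl hi hX
    have hlen : ∀ x : Bool, (l ++ [x]).length + j = k := by
      intro x
      rw [List.length_append, List.length_singleton]
      omega
    have hext : ∀ x : Bool, (c.getD l.length false = true → x = true) →
        ∀ i, i < (l ++ [x]).length → c.getD i false = true → (l ++ [x]).getD i false = true := by
      intro x hx i hil hci
      rw [List.length_append, List.length_singleton] at hil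
      by_cases hil2 : i < l.length
      · rw [List.getD_append _ _ _ _ hil2]
        exact hi i hil2 hci
      · have he : i = l.length := by omega
        subst he
        rw [List.getD_append_right _ _ _ _ le_rfl]
        simpa using hx hci
    rw [mx] at hX ⊢
    by_cases h1 : c.getD l.length false = true
    · rw [if_pos h1] at hX ⊢
      exact ih (l ++ [true]) (hlen true) (hext true fun _ => rfl) hX
    · rw [if_neg h1] at hX ⊢
      have hx : ∀ x : Bool, mx own c X j (l ++ [x]) ≤ b → mx own c Y j (l ++ [x]) ≤ b :=
        fun x => ih (l ++ [x]) (hlen x) (hext x fun h2 => absurd h2 h1)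
      by_cases h2 : own l.length = true
      · rw [if_pos h2] at hX ⊢
        exact max_le (hx false ((le_max_left _ _).trans hX)) (hx true ((le_max_right _ _).trans hX))
      · rw [if_neg h2] at hX ⊢
        rcases min_le_iff.1 hX with h3 | h3
        · exact (min_le_left _ _).trans (hx false h3)
        · exact (min_le_right _ _).trans (hx true h3)

/-- If the value of a step is at most `b` for the continuation `X`, and `Y m ≤ b` whenever
`X m ≤ b` (`m` a legal completion), then it is at most `b` for `Y`. -/
theorem mx_le_of (own : ℕ → Bool) (c : List Bool) (X Y : List Bool → α) (b : α) (k : ℕ)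
    (h : ∀ m, Legal k c m → X m ≤ b → Y m ≤ b) (hc : c.length ≤ k)
    (hX : mx own c X k [] ≤ b) : mx own c Y k [] ≤ b := by
  refine gameB1_aux own c X Y b k h hc k [] ?_ ?_ hX
  · rw [List.length_nil, Nat.zero_add]
  · intro i hi
    exact absurd hi (Nat.not_lt_zero i)

theorem mx_mono (own : ℕ → Bool) (c : List Bool) (X Y : List Bool → α) (k : ℕ)
    (hc : c.length ≤ k) (h : ∀ m, Legal k c m → X m ≤ Y m) :
    mx own c X k [] ≤ mx own c Y k [] :=
  mx_le_of own c Y X _ k (fun m hm hY => (h m hm).trans hY) hc le_rfl

private theorem gameB1_cur {k : ℕ} {q : Q} (hq : Good k q) : (cur q).length ≤ k := by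
  induction hq with
  | nil => exact Nat.zero_le _
  | @ext q m h hm ih =>
    unfold ext
    split_ifs
    · exact ih
    · exact hm.1.le

private theorem gameB1_pay (own : ℕ → Bool) (k : ℕ) (pay : Q → α) (d : ℕ) (q : Q) :
    pay q ≤ V own k pay d q := by
  cases d with
  | zero => exact le_rfl
  | succ d => exact le_max_left _ _

private theorem gameB1_const (own : ℕ → Bool) (c : List Bool) (b : α) :
    ∀ (j : ℕ) (l : List Bool), mx own c (fun _ => b) j l = b := by
  intro j
  induction j with
  | zero => intro l; rfl
  | succ j ih =>
    intro l
    rw [mx, ih, ih, max_self, min_self, ite_self, ite_self]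

theorem V_mono_fuel (own : ℕ → Bool) (k : ℕ) (pay : Q → α) (d : ℕ) {q : Q} (hq : Good k q) :
    V own k pay d q ≤ V own k pay (d + 1) q := by
  induction d generalizing q with
  | zero => exact gameB1_pay own k pay 1 q
  | succ d ih =>
    rw [V, V]
    refine max_le_max le_rfl ?_
    exact mx_mono own (cur q) _ _ k (gameB1_cur hq) fun m hm => ih (Good.ext hq hm)

private theorem gameB1_rank (own : ℕ → Bool) (k : ℕ) (pay : Q → α) (r : ℕ) :
    ∀ q : Q, Good k q → M k - q.length ≤ r → ∀ d, V own k pay d q ≤ V own k pay r q := by
  induction r with
  | zero =>
    intro q hq hr d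
    induction d with
    | zero => exact le_rfl
    | succ d ih =>
      rw [V]
      refine max_le (gameB1_pay own k pay 0 q) ?_
      refine mx_le_of own (cur q) (fun _ => V own k pay 0 q) _ _ k ?_ (gameB1_cur hq)
        (gameB1_const own (cur q) _ k []).le
      intro m hm _
      have hg : Good k (ext k q m) := Good.ext hq hm
      by_cases hs : q.take k = List.replicate k m
      · have he : ext k q m = q := if_pos hs
        rw [he]
        exact ih
      · have he : ext k q m = m :: q := if_neg hs
        have hl := hg.length_le
        rw [he, List.length_cons] at hl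
        omega
  | succ r ihr =>
    intro q hq hr d
    induction d with
    | zero => exact gameB1_pay own k pay (r + 1) q
    | succ d ih =>
      have hV : V own k pay (d + 1) q =
        max (pay q) (mx own (cur q) (fun m => V own k pay d (ext k q m)) k []) := rfl
      rw [hV]
      refine max_le (gameB1_pay own k pay (r + 1) q) ?_
      refine mx_le_of own (cur q) (fun m => V own k pay r (ext k q m)) _ _ k ?_ (gameB1_cur hq)
        (le_max_right _ _)
      intro m hm hX
      by_cases hs : q.take k = List.replicate k m
      · have he : ext k q m = q := if_pos hs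
        rw [he]
        exact ih
      · have he : ext k q m = m :: q := if_neg hs
        refine (ihr (ext k q m) (Good.ext hq hm) ?_ d).trans hX
        rw [he, List.length_cons]
        omega

/-- The value does not change any more when more than `M k` steps are allowed. (Show
`V d q ≤ V (rank q) q` by induction on the rank and inner induction on `d`; in the skip case use
`mx_le_of` with `b = V (rank q) q`.) -/
theorem V_stable (own : ℕ → Bool) (k : ℕ) (pay : Q → α) {q : Q} (hq : Good k q) (d : ℕ)
    (hd : M k ≤ d) : V own k pay d q = V own k pay (M k) q := by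
  refine le_antisymm (gameB1_rank own k pay (M k) q hq (Nat.sub_le _ _) d) ?_
  induction d, hd using Nat.le_induction with
  | base => exact le_rfl
  | succ d _ ih => exact ih.trans (V_mono_fuel own k pay d hq)

end Pool.Agent.H71.CT
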