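import Pool.Agent.H71.CT.Table

/-! Elementary facts on the new stopping times. -/

namespace Pool.Agent.H71.CT

theorem leastBelow_le (f : ℕ → Bool) (w : ℕ) : leastBelow f w ≤ w := by
  unfold leastBelow
  cases h : (List.range w).find? f with
  | none => simp
  | some x =>
    have h1 := List.mem_of_find?_eq_some h
    simp only [Option.getD_some]
    exact (List.mem_range.1 h1).le

private theorem tabFacts_some (f : ℕ → Bool) (w x : ℕ) (h : (List.range w).find? f = some x) :
    f x = true ∧ x < w ∧ ∀ u < x, f u = false := by
  refine ⟨List.find?_some h, List.mem_range.1 (List.mem_of_find?_eq_some h), ?_⟩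
  intro u hu
  induction w with
  | zero => simp at h
  | succ w ih =>
    rw [List.range_succ, List.find?_append] at h
    cases h1 : (List.range w).find? f with
    | some y =>
      rw [h1] at h
      simp only [Option.some_or, Option.some.injEq] at h
      subst h
      exact ih h1
    | none =>
      rw [h1] at h
      have h2 := List.mem_of_find?_eq_some (l := [w]) (p := f) (a := x) (by simpa using h)
      have h3 : x = w := by simpa using h2
      subst h3
      have h4 := List.find?_eq_none.1 h1 u (List.mem_range.2 hu)
      simpa using h4

theorem leastBelow_min (f : ℕ → Bool) (w u : ℕ) (h : u < leastBelow f w) : f u = false := by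
  unfold leastBelow at h
  cases h1 : (List.range w).find? f with
  | none =>
    rw [h1] at h
    simp only [Option.getD_none] at h
    have h4 := List.find?_eq_none.1 h1 u (List.mem_range.2 h)
    simpa using h4
  | some x =>
    rw [h1] at h
    simp only [Option.getD_some] at h
    exact (tabFacts_some f w x h1).2.2 u h

theorem leastBelow_spec (f : ℕ → Bool) (w : ℕ) (h : leastBelow f w < w) :
    f (leastBelow f w) = true := by
  unfold leastBelow at h ⊢
  cases h1 : (List.range w).find? f with
  | none =>
    rw [h1] at h
    simp at h
  | some x =>
    simp only [Option.getD_some]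
    exact (tabFacts_some f w x h1).1

theorem leastBelow_le_iff (f : ℕ → Bool) (w u : ℕ) (hu : u < w) :
    leastBelow f w ≤ u ↔ ∃ i ≤ u, f i = true := by
  constructor
  · intro h
    exact ⟨leastBelow f w, h, leastBelow_spec f w (h.trans_lt hu)⟩
  · rintro ⟨i, hi, hf⟩
    by_contra hcon
    push Not at hcon
    have := leastBelow_min f w i (hi.trans_lt hcon)
    rw [hf] at this
    exact Bool.noConfusion this

theorem newH_ge (T : List ℕ) (b : Board) : b.h ≤ newH T b := by
  unfold newH
  exact Nat.le_add_right _ _

theorem newH_le (T : List ℕ) (b : Board) : newH T b ≤ b.h + 2 * M (lev T) := by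
  unfold newH
  have := leastBelow_le (fun u => decide (fld T (newC T b false u) 2 = 0)) (QB T)
  unfold QB at this ⊢
  omega

/-- the old stopping times are the new ones cut off at the old horizon -/
theorem newA_min (T : List ℕ) (b : Board) (hb : b.Ok) (sd : Bool) (h' : ℕ) (v : ℕ)
    (hh : b.h ≤ h') : min (newA T b sd h' v) b.h = b.a v := by
  unfold newA
  split_ifs with h
  · exact min_eq_left h.le
  · have h1 := hb.hi v
    have h2 : b.a v = b.h := le_antisymm h1 (not_lt.1 h)
    rw [h2]
    exact min_eq_right (Nat.le_add_right _ _)

/-- the board with the new stopping times is consistent -/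
theorem newA_ok (T : List ℕ) (b : Board) (hb : b.Ok) (sd : Bool) (h' : ℕ) (hh : b.h ≤ h') :
    Board.Ok { b with a := newA T b sd h', h := h' } := by
  have hmono : ∀ v s t, s ≤ t → b.adv v s = true → b.adv v t = true := by
    intro v s t hst hs
    induction t, hst using Nat.le_induction with
    | base => exact hs
    | succ t _ ih => exact hb.mono v t ih
  refine ⟨hb.s0h.trans hh, ?_, ?_, hb.mono, ?_⟩
  · intro v
    show b.s0 ≤ newA T b sd h' v
    unfold newA
    split_ifs with h
    · exact hb.lo v
    · exact hb.s0h.trans (Nat.le_add_right _ _)
  · intro v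
    show newA T b sd h' v ≤ h'
    unfold newA
    split_ifs with h
    · exact h.le.trans hh
    · have := leastBelow_le (fun u => bitAt T b sd u v) (h' - b.h)
      omega
  · intro v hv s hs0 hsh
    change b.me v = false at hv
    change b.s0 ≤ s at hs0
    change s < h' at hsh
    show b.adv v s = true ↔ newA T b sd h' v ≤ s
    unfold newA
    by_cases h : b.a v < b.h
    · rw [if_pos h]
      by_cases h2 : s < b.h
      · exact hb.adv v hv s hs0 h2
      · have h3 : b.a v ≤ s := h.le.trans (not_lt.1 h2)
        refine ⟨fun _ => h3, fun _ => ?_⟩
        exact hmono v (b.a v) s h3 ((hb.adv v hv (b.a v) (hb.lo v) h).2 le_rfl)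
    · rw [if_neg h]
      by_cases h2 : s < b.h
      · rw [hb.adv v hv s hs0 h2]
        constructor
        · intro h3
          omega
        · intro h3
          omega
      · have h4 : (b.h + leastBelow (fun u => bitAt T b sd u v) (h' - b.h) ≤ s) ↔
            leastBelow (fun u => bitAt T b sd u v) (h' - b.h) ≤ s - b.h := by omega
        rw [h4, leastBelow_le_iff _ _ _ (by omega : s - b.h < h' - b.h)]
        have h5 : ∀ i, bitAt T b sd i v = b.adv v (b.h + i) := by
          intro i
          unfold bitAt nbit
          rw [if_neg (by rw [hv]; exact Bool.false_ne_true)]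
        constructor
        · intro h6
          refine ⟨s - b.h, le_rfl, ?_⟩
          show bitAt T b sd (s - b.h) v = true
          rw [h5, (by omega : b.h + (s - b.h) = s)]
          exact h6
        · rintro ⟨i, hi, h6⟩
          change bitAt T b sd i v = true at h6
          rw [h5] at h6
          exact hmono v _ s (by omega) h6

/-- two boards with the same data up to functions that are not looked at -/
theorem newA_congr (T : List ℕ) (b b' : Board) (sd : Bool) (h' : ℕ)
    (ha : b.a = b'.a) (hs : b.s0 = b'.s0) (hh : b.h = b'.h) (hm : b.me = b'.me)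
    (hadv : ∀ v s, b.me v = false → b.h ≤ s → b.adv v s = b'.adv v s) :
    newA T b sd h' = newA T b' sd h' ∧ newH T b = newH T b' := by
  have hn : ∀ j u, nbit T b j (b.h + u) = nbit T b' j (b'.h + u) := by
    intro j u
    funext v c
    unfold nbit
    rw [← hm, ← hh]
    by_cases hv : b.me v = true
    · rw [if_pos hv, if_pos hv]
    · rw [if_neg hv, if_neg hv]
      exact hadv v _ (by simpa using hv) (Nat.le_add_right _ _)
  have hc : ∀ sd u, newC T b sd u = newC T b' sd u := by
    intro sd u
    induction u with
    | zero =>
      show oldC T b.a b.s0 (b.h - b.s0) = oldC T b'.a b'.s0 (b'.h - b'.s0)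
      rw [ha, hs, hh]
    | succ u ih =>
      show (if sd then stepS T (nbit T b 0 (b.h + u)) (newC T b sd u)
        else stepN T (nbit T b 1 (b.h + u)) (newC T b sd u)) =
        (if sd then stepS T (nbit T b' 0 (b'.h + u)) (newC T b' sd u)
        else stepN T (nbit T b' 1 (b'.h + u)) (newC T b' sd u))
      rw [ih, hn 0 u, hn 1 u]
  constructor
  · funext v
    unfold newA
    have hf : (fun u => bitAt T b sd u v) = (fun u => bitAt T b' sd u v) := by
      funext u
      unfold bitAt
      rw [hn, hc]
    rw [hf, ha, hh]
  · unfold newH
    have hf : (fun u => decide (fld T (newC T b false u) 2 = 0)) =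
        (fun u => decide (fld T (newC T b' false u) 2 = 0)) := by
      funext u
      rw [hc]
    rw [hf, hh]

end Pool.Agent.H71.CT
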