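import Pool.Agent.H71.CT.GameA

/-! Finiteness of the set of states of level `k`; histories. -/

namespace Pool.Agent.H71.CT

private theorem gameA2_cur_ext {k : ℕ} (hk : 0 < k) (q : Q) (m : List Bool) :
    cur (ext k q m) = m := by
  unfold ext
  split_ifs with h
  · obtain ⟨j, rfl⟩ : ∃ j, k = j + 1 := ⟨k - 1, by omega⟩
    cases q with
    | nil => simp [List.replicate_succ] at h
    | cons x xs =>
      simp only [List.take_succ_cons, List.replicate_succ, List.cons.injEq] at h
      simp [cur, h.1]
  · simp [cur]

private theorem gameA2_count_lt {k : ℕ} :
    ∀ {c m : List Bool}, c.length = k → m.length = k →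
      (∀ i, c.getD i false = true → m.getD i false = true) → c ≠ m →
      c.count true + 1 ≤ m.count true := by
  have le : ∀ {c m : List Bool}, c.length = m.length →
      (∀ i, c.getD i false = true → m.getD i false = true) → c.count true ≤ m.count true := by
    intro c
    induction c with
    | nil => intro m _ _; simp
    | cons x xs ih =>
      intro m hl h
      cases m with
      | nil => simp at hl
      | cons y ys =>
        have h1 : xs.count true ≤ ys.count true := by
          apply ih
          · simpa using hl
          · intro i hi
            have := h (i + 1)
            simpa using this (by simpa using hi)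
        have h0 := h 0
        cases x <;> cases y <;> simp at h0 ⊢ <;> omega
  intro c
  induction c generalizing k with
  | nil =>
    intro m h1 h2 _ h4
    exfalso
    apply h4
    have : m.length = 0 := by rw [h2, ← h1]; rfl
    exact (List.length_eq_zero_iff.mp this).symm
  | cons x xs ih =>
    intro m h1 h2 h3 h4
    cases m with
    | nil =>
      exfalso
      rw [← h2] at h1
      simp at h1
    | cons y ys =>
      have hl : xs.length = ys.length := by
        have := h1.trans h2.symm
        simpa using this
      have h3' : ∀ i, xs.getD i false = true → ys.getD i false = true := by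
        intro i hi
        have := h3 (i + 1)
        simpa using this (by simpa using hi)
      have h0 := h3 0
      by_cases hxy : x = y
      · subst hxy
        have hne : xs ≠ ys := fun e => h4 (by rw [e])
        have := ih (k := ys.length) hl rfl h3' hne
        cases x <;> simp <;> omega
      · have h1' := le hl h3'
        cases x <;> cases y <;> simp at h0 hxy ⊢ <;> omega

private theorem gameA2_inv {k : ℕ} {q : Q} (h : Good k q) :
    (∃ r rest, q = List.replicate r (cur q) ++ rest ∧ r ≤ k ∧
      q.length ≤ (cur q).count true * k + r) ∧ (∀ m ∈ q, m.length = k) := by
  induction h with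
  | nil => exact ⟨⟨0, [], by simp [cur]⟩, by simp⟩
  | @ext q m hq hm ih =>
    obtain ⟨⟨r, rest, h1, h2, h3⟩, h4⟩ := ih
    by_cases hs : q.take k = List.replicate k m
    · have : ext k q m = q := by simp [ext, hs]
      rw [this]
      exact ⟨⟨r, rest, h1, h2, h3⟩, h4⟩
    · have he : ext k q m = m :: q := by simp [ext, hs]
      have hk : 0 < k := by
        rcases Nat.eq_zero_or_pos k with h0 | h0
        · subst h0; simp at hs
        · exact h0
      have hc : cur (m :: q) = m := by simp [cur]
      rw [he, hc]
      refine ⟨?_, ?_⟩
      · by_cases hmc : m = cur q
        · refine ⟨r + 1, rest, ?_, ?_, ?_⟩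
          · rw [List.replicate_succ, List.cons_append]
            rw [hmc]
            congr 1
          · by_contra hr
            have hrk : r = k := by omega
            apply hs
            rw [h1, hmc, hrk]
            simp
          · rw [hmc]
            simp only [List.length_cons]
            omega
        · refine ⟨1, q, by simp, hk, ?_⟩
          cases hq' : q with
          | nil => simp
          | cons x xs =>
            have hcx : cur q = x := by rw [hq']; simp [cur]
            have hlt : (cur q).count true + 1 ≤ m.count true := by
              apply gameA2_count_lt (k := k)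
              · rw [hcx]; exact h4 x (by rw [hq']; simp)
              · exact hm.1
              · exact hm.2
              · exact fun e => hmc e.symm
            rw [← hq']
            simp only [List.length_cons]
            have : ((cur q).count true + 1) * k ≤ m.count true * k :=
              Nat.mul_le_mul_right k hlt
            nlinarith
      · intro m' hm'
        rcases List.mem_cons.mp hm' with rfl | h'
        · exact hm.1
        · exact h4 m' h'

/-- (Rank: number of functions that have not stopped, times `k`, plus `k` minus the length of the
top run; every proper extension decreases it.) -/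
theorem Good.length_le {k : ℕ} {q : Q} (h : Good k q) : q.length ≤ M k := by
  obtain ⟨⟨r, rest, h1, h2, h3⟩, h4⟩ := gameA2_inv h
  have h5 : (cur q).count true ≤ k := by
    refine le_trans List.count_le_length ?_
    cases q with
    | nil => simp [cur]
    | cons x xs =>
      have := h4 x (by simp)
      simp [cur, this]
  unfold M
  nlinarith [Nat.mul_le_mul_right k h5]

theorem Good.finite (k : ℕ) : {q : Q | Good k q}.Finite := by
  have hfin : Finite {m : List Bool // m.length = k} :=
    (List.finite_length_eq Bool k).to_subtype
  have h1 : {l : List {m : List Bool // m.length = k} | l.length ≤ M k}.Finite :=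
    List.finite_length_le _ _
  refine (h1.image (fun l => l.map Subtype.val)).subset ?_
  intro q hq
  have h4 := (gameA2_inv hq).2
  refine ⟨q.attach.map (fun x => ⟨x.1, h4 x.1 x.2⟩), ?_, ?_⟩
  · simpa using Good.length_le hq
  · simp [List.map_map, Function.comp_def]

private theorem gameA2_vec_getD (k : ℕ) (a : ℕ → ℕ) (s i : ℕ) :
    (vec k a s).getD i false = true ↔ i < k ∧ a i ≤ s := by
  unfold vec
  by_cases hi : i < k
  · simp [List.getD_eq_getElem?_getD, hi]
  · simp [List.getD_eq_getElem?_getD, hi]

theorem good_hist (k : ℕ) (a : ℕ → ℕ) (s0 t : ℕ) : Good k (hist k a s0 t) := by
  induction t with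
  | zero => exact Good.nil
  | succ t ih =>
    refine Good.ext ih ⟨by simp [vec], ?_⟩
    intro i hi
    rcases Nat.eq_zero_or_pos k with h0 | h0
    · exfalso
      subst h0
      have hnil : ∀ t, hist 0 a s0 t = [] := by
        intro t
        induction t with
        | zero => rfl
        | succ t ih' => simp [hist, ext, ih']
      rw [hnil t] at hi
      simp [cur] at hi
    · cases t with
      | zero => simp [hist, cur] at hi
      | succ t =>
        have hc : cur (hist k a s0 (t + 1)) = vec k a (s0 + t) := by
          show cur (ext k (hist k a s0 t) (vec k a (s0 + t))) = _
          exact gameA2_cur_ext h0 _ _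
        rw [hc, gameA2_vec_getD] at hi
        rw [gameA2_vec_getD]
        exact ⟨hi.1, by omega⟩

theorem res_hist {k K : ℕ} (h : k ≤ K) (a : ℕ → ℕ) (s0 t : ℕ) :
    res k (hist K a s0 t) = hist k a s0 t := by
  induction t with
  | zero => simp [hist, res]
  | succ t ih =>
    have hv : (vec K a (s0 + t)).take k = vec k a (s0 + t) := by
      unfold vec
      rw [← List.map_take, List.take_range, Nat.min_eq_left h]
    show res k (ext K (hist K a s0 t) (vec K a (s0 + t))) = ext k (hist k a s0 t) (vec k a (s0 + t))
    rw [res_ext h, ih, hv]

end Pool.Agent.H71.CT
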