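import Pool.Agent.H71.CT.Table
import Pool.Agent.H71.CT.GameA2

/-! The value function on histories agrees with the value of the game. -/

namespace Pool.Agent.H71.CT

private theorem tabVal_getD_append_left (l m : List Bool) (j : ℕ) (h : j < l.length) :
    (l ++ m).getD j false = l.getD j false := by
  rw [List.getD_eq_getElem?_getD, List.getD_eq_getElem?_getD, List.getElem?_append_left h]

private theorem tabVal_getD_last (l : List Bool) (b : Bool) :
    (l ++ [b]).getD l.length false = b := by
  rw [List.getD_eq_getElem?_getD, List.getElem?_append_right (le_refl _), Nat.sub_self]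
  rfl

private theorem tabVal_getD_block (K : ℕ) (l : List Bool) (i j : ℕ) :
    ((l.drop (i * K)).take K).getD j false = if j < K then l.getD (i * K + j) false else false := by
  rw [List.getD_eq_getElem?_getD, List.getElem?_take, List.getD_eq_getElem?_getD]
  by_cases h : j < K
  · rw [if_pos h, if_pos h, List.getElem?_drop]
  · rw [if_neg h, if_neg h]
    rfl

theorem stN_append (K : ℕ) (l m : List Bool) (i : ℕ) (hi : i * K ≤ l.length) :
    stN K (l ++ m) i = stN K l i := by
  induction i with
  | zero => rfl
  | succ i ih =>
    have h1 : i * K + K ≤ l.length := by rw [Nat.succ_mul] at hi; exact hi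
    have h2 : i * K ≤ l.length := by omega
    have h3 : (l ++ m).drop (i * K) = l.drop (i * K) ++ m := List.drop_append_of_le_length h2
    have h4 : (l.drop (i * K) ++ m).take K = (l.drop (i * K)).take K :=
      List.take_append_of_le_length (by rw [List.length_drop]; omega)
    change ext K (stN K (l ++ m) i) (((l ++ m).drop (i * K)).take K) =
      ext K (stN K l i) ((l.drop (i * K)).take K)
    rw [ih h2, h3, h4]

private theorem tabVal_cur_ext {K : ℕ} (hK : 0 < K) (q : Q) (m : List Bool) :
    cur (ext K q m) = m := by
  unfold ext
  split_ifs with h
  · obtain ⟨K', rfl⟩ : ∃ K', K = K' + 1 := ⟨K - 1, by omega⟩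
    cases q with
    | nil => simp [List.replicate_succ] at h
    | cons a q =>
      rw [List.take_succ_cons, List.replicate_succ] at h
      have h1 := (List.cons.inj h).1
      change a = m
      exact h1
  · rfl

/-- the current vector is the last block -/
theorem cur_stN {K : ℕ} (hK : 0 < K) (l : List Bool) (i : ℕ) (hi : (i + 1) * K ≤ l.length) :
    cur (stN K l (i + 1)) = (l.drop (i * K)).take K :=
  tabVal_cur_ext hK _ _

/-- the current vector at a position of the current step -/
private theorem tabVal_cur_getD {K : ℕ} (hK : 0 < K) (l : List Bool) (i v : ℕ)
    (hi : i * K ≤ l.length) :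
    (cur (stN K l i)).getD v false =
      if 0 < i ∧ v < K then l.getD (i * K + v - K) false else false := by
  cases i with
  | zero =>
    rw [if_neg (by omega)]
    rfl
  | succ i =>
    rw [cur_stN hK l i hi, tabVal_getD_block]
    by_cases h : v < K
    · rw [if_pos h, if_pos ⟨by omega, h⟩]
      congr 1
      rw [Nat.succ_mul]
      omega
    · rw [if_neg h, if_neg (by omega)]

theorem good_stN {K : ℕ} (hK : 0 < K) (l : List Bool) (hl : LegalHist K l) (i : ℕ)
    (hi : i * K ≤ l.length) : Good K (stN K l i) := by
  induction i with
  | zero => exact Good.nil
  | succ i ih =>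
    have h1 : i * K + K ≤ l.length := by rw [Nat.succ_mul] at hi; exact hi
    refine Good.ext (ih (by omega)) ⟨?_, ?_⟩
    · rw [List.length_take, List.length_drop]
      omega
    · intro j hj
      rw [tabVal_cur_getD hK l i j (by omega)] at hj
      rw [tabVal_getD_block]
      split_ifs at hj with h
      rw [if_pos h.2]
      have h2 : K ≤ i * K := Nat.le_mul_of_pos_left K h.1
      exact hl (i * K + j) (by omega) (by omega) hj

private theorem tabVal_legal_append {K : ℕ} (hK : 0 < K) (l : List Bool) (b : Bool)
    (hl : LegalHist K l)
    (hb : K ≤ l.length → l.getD (l.length - K) false = true → b = true) :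
    LegalHist K (l ++ [b]) := by
  intro j h1 h2 h3
  rw [List.length_append, List.length_singleton] at h2
  rcases Nat.lt_or_ge j l.length with h | h
  · rw [tabVal_getD_append_left _ _ _ h]
    rw [tabVal_getD_append_left _ _ _ (by omega)] at h3
    exact hl j h1 h h3
  · have hj : j = l.length := by omega
    subst hj
    rw [tabVal_getD_last]
    rw [tabVal_getD_append_left _ _ _ (by omega)] at h3
    exact hb h1 h3

/-- the common statement -/
private theorem tabVal_main (own : ℕ → Bool) {K : ℕ} (hK : 0 < K) (pay : Q → ℕ) (j : ℕ) :
    ∀ (l : List Bool) (i v : ℕ), l.length = i * K + v → v < K → l.length + j = NB K →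
      LegalHist K l → W own K pay j l =
        if v = 0 then V own K pay (2 * M K - i) (stN K l i)
        else mx own (cur (stN K l i))
          (fun m => V own K pay (2 * M K - i - 1) (ext K (stN K l i) m)) (K - v)
          (l.drop (i * K)) := by
  induction j with
  | zero =>
    intro l i v hl hv hN _
    have h1 : i * K + v = 2 * M K * K := by
      rw [← hl]
      exact hN
    have h2 : (i * K + v) / K = i := by
      rw [Nat.add_comm, Nat.add_mul_div_right _ _ hK, Nat.div_eq_of_lt hv, Nat.zero_add]
    have h3 : i = 2 * M K := by
      rw [h1, Nat.mul_div_cancel _ hK] at h2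
      exact h2.symm
    have h4 : v = 0 := by
      rw [h3] at h1
      omega
    rw [if_pos h4, h3, Nat.sub_self]
    change pay (stOf K l) = pay (stN K l (2 * M K))
    unfold stOf
    rw [hl, Nat.add_comm, Nat.add_mul_div_right _ _ hK, Nat.div_eq_of_lt hv, Nat.zero_add, h3]
  | succ j ih =>
    intro l i v hl hv hN hleg
    have hdiv : l.length / K = i := by
      rw [hl, Nat.add_comm, Nat.add_mul_div_right _ _ hK, Nat.div_eq_of_lt hv, Nat.zero_add]
    have hmod : l.length % K = v := by
      rw [hl, Nat.add_comm, Nat.add_mul_mod_self_right, Nat.mod_eq_of_lt hv]
    have hi : i < 2 * M K := by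
      have h1 : i * K < 2 * M K * K := by
        change l.length + (j + 1) = 2 * M K * K at hN
        omega
      exact Nat.lt_of_mul_lt_mul_right h1
    have hiK : i * K ≤ l.length := by omega
    have hdl : (l.drop (i * K)).length = v := by
      rw [List.length_drop]
      omega
    -- the next histories
    have hnext : ∀ b : Bool, LegalHist K (l ++ [b]) → W own K pay j (l ++ [b]) =
        mx own (cur (stN K l i)) (fun m => V own K pay (2 * M K - i - 1) (ext K (stN K l i) m))
          (K - v - 1) (l.drop (i * K) ++ [b]) := by
      intro b hb
      have h3 : (l ++ [b]).drop (i * K) = l.drop (i * K) ++ [b] :=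
        List.drop_append_of_le_length hiK
      rcases Nat.lt_or_ge (v + 1) K with h | h
      · have h4 := ih (l ++ [b]) i (v + 1)
          (by rw [List.length_append, List.length_singleton]; omega) h
          (by rw [List.length_append, List.length_singleton]; omega) hb
        rw [h4, if_neg (by omega), stN_append K l [b] i hiK, h3]
        rfl
      · have hv1 : v + 1 = K := by omega
        have h4 := ih (l ++ [b]) (i + 1) 0
          (by rw [List.length_append, List.length_singleton, Nat.succ_mul]; omega) hK
          (by rw [List.length_append, List.length_singleton]; omega) hb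
        rw [h4, if_pos rfl]
        have h5 : K - v - 1 = 0 := by omega
        have h6 : 2 * M K - (i + 1) = 2 * M K - i - 1 := by omega
        have h7 : stN K (l ++ [b]) (i + 1) = ext K (stN K l i) (l.drop (i * K) ++ [b]) := by
          change ext K (stN K (l ++ [b]) i) (((l ++ [b]).drop (i * K)).take K) = _
          rw [stN_append K l [b] i hiK, h3, List.take_of_length_le]
          rw [List.length_append, List.length_singleton, hdl]
          omega
        rw [h5, h6, h7]
        rfl
    have hc := tabVal_cur_getD hK l i v hiK
    have hfor : (decide (K ≤ l.length) && l.getD (l.length - K) false) =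
        (cur (stN K l i)).getD v false := by
      rw [hc]
      rcases Nat.eq_zero_or_pos i with h | h
      · rw [if_neg (by omega)]
        have h1 : ¬ K ≤ l.length := by
          rw [hl, h]
          omega
        rw [decide_eq_false h1]
        rfl
      · have h2 : K ≤ i * K := Nat.le_mul_of_pos_left K h
        rw [if_pos ⟨h, hv⟩, decide_eq_true (by omega : K ≤ l.length), Bool.true_and, hl]
    -- the value of the current step
    have hstep : (if (decide (K ≤ l.length) && l.getD (l.length - K) false) = true then
          W own K pay j (l ++ [true])
        else if own (l.length % K) = true then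
          max (W own K pay j (l ++ [false])) (W own K pay j (l ++ [true]))
        else min (W own K pay j (l ++ [false])) (W own K pay j (l ++ [true]))) =
        mx own (cur (stN K l i)) (fun m => V own K pay (2 * M K - i - 1) (ext K (stN K l i) m))
          (K - v) (l.drop (i * K)) := by
      have h5 : K - v = (K - v - 1) + 1 := by omega
      have ht := hnext true (tabVal_legal_append hK l true hleg (fun _ _ => rfl))
      rw [h5]
      change _ = (if (cur (stN K l i)).getD (l.drop (i * K)).length false = true then
          mx own (cur (stN K l i)) (fun m => V own K pay (2 * M K - i - 1) (ext K (stN K l i) m))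
            (K - v - 1) (l.drop (i * K) ++ [true])
        else if own (l.drop (i * K)).length = true then
          max (mx own (cur (stN K l i))
              (fun m => V own K pay (2 * M K - i - 1) (ext K (stN K l i) m))
              (K - v - 1) (l.drop (i * K) ++ [false]))
            (mx own (cur (stN K l i))
              (fun m => V own K pay (2 * M K - i - 1) (ext K (stN K l i) m))
              (K - v - 1) (l.drop (i * K) ++ [true]))
        else min (mx own (cur (stN K l i))
              (fun m => V own K pay (2 * M K - i - 1) (ext K (stN K l i) m))
              (K - v - 1) (l.drop (i * K) ++ [false]))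
            (mx own (cur (stN K l i))
              (fun m => V own K pay (2 * M K - i - 1) (ext K (stN K l i) m))
              (K - v - 1) (l.drop (i * K) ++ [true])))
      rw [hfor, hdl, hmod, ht]
      by_cases hf : (cur (stN K l i)).getD v false = true
      · rw [if_pos hf, if_pos hf]
      · rw [if_neg hf, if_neg hf]
        have hff := hnext false (tabVal_legal_append hK l false hleg (fun h1 h2 => by
          exfalso
          apply hf
          rw [← hfor, h2, decide_eq_true h1]
          rfl))
        rw [hff]
    change (if l.length % K = 0 then max (pay (stOf K l))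
        (if (decide (K ≤ l.length) && l.getD (l.length - K) false) = true then
          W own K pay j (l ++ [true])
        else if own (l.length % K) = true then
          max (W own K pay j (l ++ [false])) (W own K pay j (l ++ [true]))
        else min (W own K pay j (l ++ [false])) (W own K pay j (l ++ [true])))
      else (if (decide (K ≤ l.length) && l.getD (l.length - K) false) = true then
          W own K pay j (l ++ [true])
        else if own (l.length % K) = true then
          max (W own K pay j (l ++ [false])) (W own K pay j (l ++ [true]))
        else min (W own K pay j (l ++ [false])) (W own K pay j (l ++ [true])))) = _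
    rw [hstep, hmod]
    by_cases hv0 : v = 0
    · rw [if_pos hv0, if_pos hv0]
      have h6 : 2 * M K - i = (2 * M K - i - 1) + 1 := by omega
      have h7 : l.drop (i * K) = [] := List.eq_nil_of_length_eq_zero (by rw [hdl, hv0])
      have h8 : stOf K l = stN K l i := by
        unfold stOf
        rw [hdiv]
      rw [h7, h8, hv0, Nat.sub_zero]
      conv_rhs => rw [h6]
      rfl
    · rw [if_neg hv0, if_neg hv0]

theorem W_mid (own : ℕ → Bool) {K : ℕ} (hK : 0 < K) (pay : Q → ℕ) (l : List Bool) (i v : ℕ)
    (hl : l.length = i * K + v) (hv : v < K) (hi : i < 2 * M K) (hleg : LegalHist K l) :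
    W own K pay (NB K - l.length) l =
      if v = 0 then
        max (pay (stN K l i)) (mx own (cur (stN K l i))
          (fun m => V own K pay (2 * M K - i - 1) (ext K (stN K l i) m)) (K - v)
          (l.drop (i * K)))
      else mx own (cur (stN K l i))
        (fun m => V own K pay (2 * M K - i - 1) (ext K (stN K l i) m)) (K - v)
        (l.drop (i * K)) := by
  have h1 : (i + 1) * K ≤ 2 * M K * K := Nat.mul_le_mul_right K hi
  rw [Nat.succ_mul] at h1
  have h2 : l.length ≤ NB K := by
    change l.length ≤ 2 * M K * K
    omega
  rw [tabVal_main own hK pay (NB K - l.length) l i v hl hv (by omega) hleg]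
  by_cases hv0 : v = 0
  · rw [if_pos hv0, if_pos hv0]
    have h6 : 2 * M K - i = (2 * M K - i - 1) + 1 := by omega
    have h7 : l.drop (i * K) = [] :=
      List.eq_nil_of_length_eq_zero (by rw [List.length_drop]; omega)
    rw [h7, hv0, Nat.sub_zero]
    conv_lhs => rw [h6]
    rfl
  · rw [if_neg hv0, if_neg hv0]

theorem W_block (own : ℕ → Bool) {K : ℕ} (hK : 0 < K) (pay : Q → ℕ) (l : List Bool) (i : ℕ)
    (hl : l.length = i * K) (hi : i ≤ 2 * M K) (hleg : LegalHist K l) :
    W own K pay (NB K - l.length) l = V own K pay (2 * M K - i) (stN K l i) := by
  have h1 : i * K ≤ 2 * M K * K := Nat.mul_le_mul_right K hi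
  have h2 : l.length ≤ NB K := by
    change l.length ≤ 2 * M K * K
    omega
  rw [tabVal_main own hK pay (NB K - l.length) l i 0 (by omega) hK (by omega) hleg, if_pos rfl]

end Pool.Agent.H71.CT
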