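import Pool.Agent.H71.CT.TabCode
import Pool.Agent.H71.CT.TabVal
import Pool.Agent.H71.CT.TabFacts
import Pool.Agent.H71.CT.GameB1

/-! The side with given horizon plays the minimiser. -/

namespace Pool.Agent.H71.CT

private def playP_can (q : Q) : List Bool := q.reverse.flatten

private theorem playP_getD_append_left (l m : List Bool) (j : ℕ) (h : j < l.length) :
    (l ++ m).getD j false = l.getD j false := by
  rw [List.getD_eq_getElem?_getD, List.getD_eq_getElem?_getD, List.getElem?_append_left h]

private theorem playP_getD_append_right (l m : List Bool) (j : ℕ) (h : l.length ≤ j) :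
    (l ++ m).getD j false = m.getD (j - l.length) false := by
  rw [List.getD_eq_getElem?_getD, List.getD_eq_getElem?_getD, List.getElem?_append_right h]

private theorem playP_getD_last (l : List Bool) (b : Bool) :
    (l ++ [b]).getD l.length false = b := by
  rw [playP_getD_append_right _ _ _ le_rfl, Nat.sub_self]
  rfl

private theorem playP_cur_ext {K : ℕ} (hK : 0 < K) (q : Q) (m : List Bool) :
    cur (ext K q m) = m := by
  unfold ext
  split_ifs with h
  · obtain ⟨K', rfl⟩ : ∃ K', K = K' + 1 := ⟨K - 1, by omega⟩
    cases q with
    | nil => simp [List.replicate_succ] at h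
    | cons a q =>
      rw [List.take_succ_cons, List.replicate_succ] at h
      have h1 := (List.cons.inj h).1
      change a = m
      exact h1
  · rfl

private theorem playP_legal_append {K : ℕ} (hK : 0 < K) (l : List Bool) (b : Bool)
    (hl : LegalHist K l)
    (hb : K ≤ l.length → l.getD (l.length - K) false = true → b = true) :
    LegalHist K (l ++ [b]) := by
  intro j h1 h2 h3
  rw [List.length_append, List.length_singleton] at h2
  rcases Nat.lt_or_ge j l.length with h | h
  · rw [playP_getD_append_left _ _ _ h]
    rw [playP_getD_append_left _ _ _ (by omega)] at h3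
    exact hl j h1 h h3
  · have hj : j = l.length := by omega
    subst hj
    rw [playP_getD_last]
    rw [playP_getD_append_left _ _ _ (by omega)] at h3
    exact hb h1 h3

/-- tails of states -/
private theorem playP_cons {K : ℕ} {q : Q} (hq : Good K q) :
    ∀ m q', q = m :: q' → Good K q' ∧ Legal K (cur q') m ∧ ext K q' m = m :: q' := by
  induction hq with
  | nil => intro m q' h; cases h
  | @ext q m h hm ih =>
    intro m' q' h'
    by_cases hs : q.take K = List.replicate K m
    · have e : ext K q m = q := by unfold ext; rw [if_pos hs]
      rw [e] at h'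
      exact ih m' q' h'
    · have e : ext K q m = m :: q := by unfold ext; rw [if_neg hs]
      rw [e] at h'
      obtain ⟨rfl, rfl⟩ := List.cons.inj h'
      exact ⟨h, hm, e⟩

private theorem playP_can_cons (m : List Bool) (q : Q) :
    playP_can (m :: q) = playP_can q ++ m := by
  simp [playP_can]

private theorem playP_can_length {K : ℕ} (q : Q) (hq : Good K q) :
    (playP_can q).length = q.length * K := by
  induction q with
  | nil => simp [playP_can]
  | cons m q ih =>
    obtain ⟨h1, h2, _⟩ := playP_cons hq m q rfl
    rw [playP_can_cons, List.length_append, ih h1, h2.1, List.length_cons, Nat.succ_mul]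

private theorem playP_can_stN {K : ℕ} (q : Q) (hq : Good K q) :
    stN K (playP_can q) q.length = q := by
  induction q with
  | nil => rfl
  | cons m q ih =>
    obtain ⟨h1, h2, h3⟩ := playP_cons hq m q rfl
    have hl := playP_can_length q h1
    rw [playP_can_cons]
    change ext K (stN K (playP_can q ++ m) q.length)
      (((playP_can q ++ m).drop (q.length * K)).take K) = m :: q
    rw [stN_append K _ m _ hl.ge, ih h1, ← hl, List.drop_left, List.take_of_length_le h2.1.le, h3]

/-- the last block of the canonical history -/
private theorem playP_can_last {K : ℕ} (q : Q) (hq : Good K q) (hq0 : q ≠ []) (v : ℕ) : (playP_can q).getD ((playP_can q).length + v - K) false =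
      (cur q).getD v false := by
  cases q with
  | nil => exact absurd rfl hq0
  | cons m q =>
    obtain ⟨h1, h2, h3⟩ := playP_cons hq m q rfl
    rw [playP_can_cons, List.length_append, h2.1]
    rw [playP_getD_append_right _ _ _ (by omega)]
    congr 1
    omega

/-- a bit of the previous block -/
private theorem playP_prev {K : ℕ} (q : Q) (hq : Good K q) (m : List Bool) (v : ℕ)
    (hv : v < K) (hm : m.length = v) :
    forced K (playP_can q ++ m) = (cur q).getD v false := by
  unfold forced
  have hl := playP_can_length q hq
  cases hq0 : q with
  | nil =>
    have : ¬ K ≤ (playP_can [] ++ m).length := by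
      simp [playP_can, hm]; omega
    rw [decide_eq_false this]
    rfl
  | cons a r =>
    rw [← hq0]
    have hq1 : q ≠ [] := by rw [hq0]; exact List.cons_ne_nil _ _
    have h1 : K ≤ (playP_can q).length := by
      rw [hl, hq0, List.length_cons, Nat.succ_mul]; omega
    have h2 : K ≤ (playP_can q ++ m).length := by rw [List.length_append]; omega
    rw [decide_eq_true h2, Bool.true_and, playP_getD_append_left, List.length_append, hm]
    · exact playP_can_last q hq hq1 v
    · rw [List.length_append, hm]; omega

private theorem playP_legal_block {K : ℕ} (hK : 0 < K) (q : Q) (hq : Good K q)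
    (hleg : LegalHist K (playP_can q)) (m : List Bool) (hm : Legal K (cur q) m) (v : ℕ) :
    v ≤ K → LegalHist K (playP_can q ++ m.take v) := by
  induction v with
  | zero => intro _; simpa using hleg
  | succ v ih =>
    intro hv
    have h1 := ih (by omega)
    have h2 : v < m.length := by rw [hm.1]; omega
    have h3 : m.take (v + 1) = m.take v ++ [m.getD v false] := by
      rw [List.take_add_one, List.getD_eq_getElem?_getD, List.getElem?_eq_getElem h2]
      rfl
    rw [h3, ← List.append_assoc]
    refine playP_legal_append hK _ _ h1 ?_
    intro h4 h5
    have h6 := playP_prev q hq (m.take v) v (by omega) (by rw [List.length_take]; omega)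
    unfold forced at h6
    rw [decide_eq_true h4, h5] at h6
    exact hm.2 v h6.symm

private theorem playP_can_legal {K : ℕ} (hK : 0 < K) (q : Q) (hq : Good K q) :
    LegalHist K (playP_can q) := by
  induction q with
  | nil => intro j _ h2; simp [playP_can] at h2
  | cons m q ih =>
    obtain ⟨h1, h2, h3⟩ := playP_cons hq m q rfl
    have h4 := playP_legal_block hK q h1 (ih h1) m h2 K le_rfl
    rw [List.take_of_length_le h2.1.le] at h4
    rw [playP_can_cons]
    exact h4

private theorem playP_M_pos {K : ℕ} (hK : 0 < K) : 0 < M K := Nat.mul_pos hK (Nat.succ_pos K)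

/-- one step with dropping: the canonical history is extended to the canonical history -/
private theorem playP_step (own : ℕ → Bool) {K : ℕ} (hK : 0 < K) (pay : Q → ℕ) (q : Q)
    (hq : Good K q) (m : List Bool) (hm : Legal K (cur q) m) (bit : ℕ → ℕ → Bool)
    (hbit : cst bit (codeOf (playP_can q)) K = codeOf (playP_can q ++ m)) :
    stepS (mkT own K pay) bit (codeOf (playP_can q)) = codeOf (playP_can (ext K q m)) := by
  unfold stepS
  rw [lev_mkT, hbit]
  have hl := playP_can_length q hq
  have hlen : (playP_can q ++ m).length = (q.length + 1) * K := by
    rw [List.length_append, hl, hm.1, Nat.succ_mul]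
  have hM := playP_M_pos hK
  have hqM : q.length ≤ M K := hq.length_le
  have hNB : (playP_can q ++ m).length ≤ NB K := by
    rw [hlen]
    unfold NB
    exact Nat.mul_le_mul_right K (by omega)
  rw [(fld_mkT own K pay _ hNB).2.2.2]
  have hdiv : (playP_can q ++ m).length / K = q.length + 1 := by
    rw [hlen, Nat.mul_div_cancel _ hK]
  have hst1 : stN K (playP_can q ++ m) q.length = q := by
    rw [stN_append K _ m _ hl.ge, playP_can_stN q hq]
  have hst2 : stN K (playP_can q ++ m) (q.length + 1) = ext K q m := by
    change ext K (stN K (playP_can q ++ m) q.length)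
      (((playP_can q ++ m).drop (q.length * K)).take K) = ext K q m
    rw [hst1, ← hl, List.drop_left, List.take_of_length_le hm.1.le]
  unfold f3
  rw [hdiv, Nat.add_sub_cancel, hst1, hst2, hlen, Nat.mul_mod_left]
  have hpos : 0 < (q.length + 1) * K := Nat.mul_pos (Nat.succ_pos _) hK
  by_cases hs : ext K q m = q
  · have e1 : (if 0 < (q.length + 1) * K ∧ 0 = 0 ∧ ext K q m = q then 1 else 0) = 1 :=
      if_pos ⟨hpos, rfl, hs⟩
    rw [e1, if_pos Nat.one_pos, hs]
  · have e1 : (if 0 < (q.length + 1) * K ∧ 0 = 0 ∧ ext K q m = q then 1 else 0) = 0 :=
      if_neg (fun h => hs h.2.2)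
    rw [e1, if_neg (lt_irrefl 0)]
    have e : ext K q m = m :: q := by
      unfold ext at hs ⊢
      split_ifs at hs ⊢ with h
      · exact absurd rfl hs
      · rfl
    rw [e, playP_can_cons]

/-- the codes inside a step -/
private theorem playP_cst_take (bit : ℕ → ℕ → Bool) (l : List Bool) (k : ℕ) :
    ∃ m : List Bool, m.length = k ∧ ∀ v ≤ k, cst bit (codeOf l) v = codeOf (l ++ m.take v) ∧
      (v < k → m.getD v false = bit v (codeOf (l ++ m.take v))) := by
  obtain ⟨m, hm, hc, hb⟩ := cst_eq bit l k
  refine ⟨m, hm, fun v hv => ⟨?_, hb v⟩⟩
  induction v with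
  | zero => simp [cst]
  | succ v ih =>
    have h2 : v < m.length := by omega
    have h3 : m.take (v + 1) = m.take v ++ [m.getD v false] := by
      rw [List.take_add_one, List.getD_eq_getElem?_getD, List.getElem?_eq_getElem h2]
      rfl
    rw [h3, ← List.append_assoc, codeOf_append, hb v (by omega), ← ih (by omega)]
    rfl

/-- values with one bit more -/
private theorem playP_W (own : ℕ → Bool) {K : ℕ} (hK : 0 < K) (pay : Q → ℕ) (q : Q)
    (hq : Good K q) (hqM : q.length < M K) (m : List Bool) (v : ℕ) (hv : v < K)
    (hm : m.length = v + 1) (hleg : LegalHist K (playP_can q ++ m)) :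
    W own K pay (NB K - (playP_can q ++ m).length) (playP_can q ++ m) =
      mx own (cur q) (fun m => V own K pay (2 * M K - q.length - 1) (ext K q m)) (K - (v + 1))
        m := by
  have hl := playP_can_length q hq
  have hM := playP_M_pos hK
  have hst1 : stN K (playP_can q ++ m) q.length = q := by
    rw [stN_append K _ m _ hl.ge, playP_can_stN q hq]
  have hdrop : (playP_can q ++ m).drop (q.length * K) = m := by rw [← hl, List.drop_left]
  rcases Nat.lt_or_ge (v + 1) K with h | h
  · have h1 := W_mid own hK pay (playP_can q ++ m) q.length (v + 1)
      (by rw [List.length_append, hl, hm]) h (by omega) hleg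
    rw [h1, if_neg (Nat.succ_ne_zero v), hst1, hdrop]
  · have hvK : v + 1 = K := by omega
    have hlen : (playP_can q ++ m).length = (q.length + 1) * K := by
      rw [List.length_append, hl, hm, Nat.succ_mul, hvK]
    have h1 := W_block own hK pay (playP_can q ++ m) (q.length + 1) hlen (by omega) hleg
    have hst2 : stN K (playP_can q ++ m) (q.length + 1) = ext K q m := by
      change ext K (stN K (playP_can q ++ m) q.length)
        (((playP_can q ++ m).drop (q.length * K)).take K) = ext K q m
      rw [hst1, hdrop, List.take_of_length_le (by omega)]
    rw [h1, hst2, hvK, Nat.sub_self, Nat.sub_sub]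
    rfl

/-- the decision of the minimiser -/
private theorem playP_f0 (own : ℕ → Bool) {K : ℕ} (hK : 0 < K) (pay : Q → ℕ) (q : Q)
    (hq : Good K q) (hqM : q.length < M K) (m : List Bool) (v : ℕ) (hv : v < K)
    (hm : m.length = v) (hleg : LegalHist K (playP_can q ++ m))
    (hf : (cur q).getD v false ≠ true) :
    mx own (cur q) (fun m => V own K pay (2 * M K - q.length - 1) (ext K q m)) (K - (v + 1))
        (m ++ [decide (0 < f0 own K pay (playP_can q ++ m))]) =
      min (mx own (cur q) (fun m => V own K pay (2 * M K - q.length - 1) (ext K q m))
          (K - (v + 1)) (m ++ [false]))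
        (mx own (cur q) (fun m => V own K pay (2 * M K - q.length - 1) (ext K q m))
          (K - (v + 1)) (m ++ [true])) := by
  have hforced : forced K (playP_can q ++ m) = false := by
    rw [playP_prev q hq m v hv hm]
    simpa using hf
  have hlegx : ∀ x : Bool, LegalHist K (playP_can q ++ (m ++ [x])) := by
    intro x
    rw [← List.append_assoc]
    refine playP_legal_append hK _ _ hleg ?_
    intro h4 h5
    exfalso
    unfold forced at hforced
    rw [decide_eq_true h4, h5] at hforced
    exact Bool.noConfusion hforced
  have hW : ∀ x : Bool, W own K pay (NB K - (playP_can q ++ m).length - 1)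
      (playP_can q ++ m ++ [x]) =
      mx own (cur q) (fun m => V own K pay (2 * M K - q.length - 1) (ext K q m)) (K - (v + 1))
        (m ++ [x]) := by
    intro x
    have h1 := playP_W own hK pay q hq hqM (m ++ [x]) v hv
      (by rw [List.length_append, List.length_singleton, hm]) (hlegx x)
    rw [← h1, List.append_assoc]
    congr 1
    simp only [List.length_append, List.length_singleton]
    omega
  unfold f0
  rw [hforced, if_neg Bool.false_ne_true, hW true, hW false]
  split_ifs with h
  · rw [decide_eq_true Nat.one_pos, min_eq_right h.le]
  · rw [decide_eq_false (lt_irrefl 0), min_eq_left (not_lt.1 h)]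

private theorem playP_cur_length {K : ℕ} {q : Q} (hq : Good K q) : (cur q).length ≤ K := by
  induction hq with
  | nil => exact Nat.zero_le _
  | @ext q m h hm ih =>
    unfold ext
    split_ifs
    · exact ih
    · exact hm.1.le

private theorem playP_pay (own : ℕ → Bool) (k : ℕ) (pay : Q → ℕ) (d : ℕ) (q : Q) :
    pay q ≤ V own k pay d q := by
  cases d with
  | zero => exact le_rfl
  | succ d => exact le_max_left _ _

/-- the played bits do not increase the value -/
private theorem playP_value (own : ℕ → Bool) {K : ℕ} (hK : 0 < K) (pay : Q → ℕ) (q : Q)
    (hq : Good K q) (m : List Bool) (hm : Legal K (cur q) m)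
    (hmin : ∀ v < K, own v = false → (cur q).getD v false ≠ true →
      m.getD v false = decide (0 < f0 own K pay (playP_can q ++ m.take v))) :
    V own K pay (M K) (ext K q m) ≤ V own K pay (M K) q := by
  rcases Nat.lt_or_ge q.length (M K) with hqM | hqM
  · have hcl := playP_cur_length hq
    have key : ∀ v ≤ K, mx own (cur q)
        (fun m => V own K pay (2 * M K - q.length - 1) (ext K q m)) (K - v) (m.take v) ≤
        mx own (cur q) (fun m => V own K pay (2 * M K - q.length - 1) (ext K q m)) K [] := by
      intro v
      induction v with
      | zero => intro _; exact le_rfl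
      | succ v ih =>
        intro hv
        refine le_trans ?_ (ih (by omega))
        have h2 : v < m.length := by rw [hm.1]; omega
        have h3 : m.take (v + 1) = m.take v ++ [m.getD v false] := by
          rw [List.take_add_one, List.getD_eq_getElem?_getD, List.getElem?_eq_getElem h2]
          rfl
        have hlv : (m.take v).length = v := by rw [List.length_take]; omega
        have h5 : K - v = (K - (v + 1)) + 1 := by omega
        rw [h5]
        change _ ≤ (if (cur q).getD (m.take v).length false = true then
            mx own (cur q) (fun m => V own K pay (2 * M K - q.length - 1) (ext K q m))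
              (K - (v + 1)) (m.take v ++ [true])
          else if own (m.take v).length = true then
            max (mx own (cur q)
                (fun m => V own K pay (2 * M K - q.length - 1) (ext K q m))
                (K - (v + 1)) (m.take v ++ [false]))
              (mx own (cur q)
                (fun m => V own K pay (2 * M K - q.length - 1) (ext K q m))
                (K - (v + 1)) (m.take v ++ [true]))
          else min (mx own (cur q)
                (fun m => V own K pay (2 * M K - q.length - 1) (ext K q m))
                (K - (v + 1)) (m.take v ++ [false]))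
              (mx own (cur q)
                (fun m => V own K pay (2 * M K - q.length - 1) (ext K q m))
                (K - (v + 1)) (m.take v ++ [true])))
        rw [hlv, h3]
        split_ifs with hf ho
        · rw [hm.2 v hf]
        · cases m.getD v false with
          | false => exact le_max_left _ _
          | true => exact le_max_right _ _
        · have h6 : own v = false := by simpa using ho
          rw [hmin v (by omega) h6 hf]
          exact (playP_f0 own hK pay q hq hqM (m.take v) v (by omega) hlv
            (playP_legal_block hK q hq (playP_can_legal hK q hq) m hm v (by omega)) hf).le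
    have h7 := key K le_rfl
    rw [Nat.sub_self, List.take_of_length_le hm.1.le] at h7
    have h8 : ∀ m, Legal K (cur q) m → V own K pay (2 * M K - q.length - 1) (ext K q m) =
        V own K pay (M K) (ext K q m) := fun m hm =>
      V_stable own K pay (Good.ext hq hm) _ (by omega)
    calc V own K pay (M K) (ext K q m)
        = mx own (cur q) (fun m => V own K pay (2 * M K - q.length - 1) (ext K q m)) 0 m :=
          (h8 m hm).symm
      _ ≤ mx own (cur q) (fun m => V own K pay (2 * M K - q.length - 1) (ext K q m)) K [] := h7
      _ ≤ mx own (cur q) (fun m => V own K pay (M K) (ext K q m)) K [] :=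
          mx_mono own (cur q) _ _ K hcl fun m hm => (h8 m hm).le
      _ ≤ V own K pay (M K + 1) q := le_max_right _ _
      _ = V own K pay (M K) q := V_stable own K pay hq _ (Nat.le_succ _)
  · have h1 : (ext K q m).length ≤ M K := (Good.ext hq hm).length_le
    have h2 : ext K q m = q := by
      unfold ext at h1 ⊢
      split_ifs at h1 ⊢ with h
      · rfl
      · rw [List.length_cons] at h1
        omega
    rw [h2]

private theorem playP_vec_getD (K : ℕ) (a : ℕ → ℕ) (s v : ℕ) (hv : v < K) :
    (vec K a s).getD v false = decide (a v ≤ s) := by
  unfold vec
  rw [List.getD_eq_getElem?_getD, List.getElem?_map, List.getElem?_range hv]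
  rfl

private theorem playP_vec_length (K : ℕ) (a : ℕ → ℕ) (s : ℕ) : (vec K a s).length = K := by
  simp [vec]

private theorem playP_eq_vec {K : ℕ} {a : ℕ → ℕ} {s : ℕ} {m : List Bool} (hm : m.length = K)
    (h : ∀ v < K, m.getD v false = decide (a v ≤ s)) : m = vec K a s := by
  apply List.ext_getElem (by rw [hm, playP_vec_length])
  intro i h1 h2
  have h3 := h i (by omega)
  have h4 := playP_vec_getD K a s i (by omega)
  rw [List.getD_eq_getElem?_getD, List.getElem?_eq_getElem h1] at h3
  rw [List.getD_eq_getElem?_getD, List.getElem?_eq_getElem h2] at h4
  exact h3.trans h4.symm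

private theorem playP_cur_hist {K : ℕ} (hK : 0 < K) (a : ℕ → ℕ) (s0 t : ℕ) :
    cur (hist K a s0 (t + 1)) = vec K a (s0 + t) := playP_cur_ext hK _ _

private theorem playP_legal {K : ℕ} (hK : 0 < K) (a : ℕ → ℕ) (s0 t : ℕ) :
    Legal K (cur (hist K a s0 t)) (vec K a (s0 + t)) := by
  refine ⟨playP_vec_length _ _ _, ?_⟩
  intro v hv
  cases t with
  | zero => exact Bool.noConfusion (show (false : Bool) = true from hv)
  | succ t =>
    rw [playP_cur_hist hK] at hv
    by_cases hvK : v < K
    · rw [playP_vec_getD _ _ _ _ hvK] at hv ⊢
      have := of_decide_eq_true hv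
      exact decide_eq_true (by omega)
    · rw [List.getD_eq_default _ _ (by rw [playP_vec_length]; omega)] at hv
      exact Bool.noConfusion hv

private theorem playP_oldC (own : ℕ → Bool) {K : ℕ} (hK : 0 < K) (pay : Q → ℕ) (a : ℕ → ℕ)
    (s0 t : ℕ) : oldC (mkT own K pay) a s0 t = codeOf (playP_can (hist K a s0 t)) := by
  induction t with
  | zero => rfl
  | succ t ih =>
    change stepS (mkT own K pay) (fun v _ => decide (a v ≤ s0 + t))
      (oldC (mkT own K pay) a s0 t) = _
    rw [ih]
    refine playP_step own hK pay _ (good_hist K a s0 t) _ (playP_legal hK a s0 t) _ ?_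
    obtain ⟨m, hm, hc, hb⟩ := cst_eq (fun v _ => decide (a v ≤ s0 + t))
      (playP_can (hist K a s0 t)) K
    rw [hc, playP_eq_vec hm hb]

/-- Invariant: after `u` steps of the new phase the code is the code of the canonical history
(the blocks are exactly the vectors of the state `hist K a' s0 (h - s0 + u)`, oldest first), and
the value `V (M K)` of this state is at most the value of the start state. The minimiser's bits
never increase `mx`, and the adversary's stopping the game gives `pay ≤ V`. -/
theorem play_P (own : ℕ → Bool) (K : ℕ) (pay : Q → ℕ) (b : Board) (hb : b.Ok)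
    (hme : ∀ v, b.me v = !own v) (h' : ℕ) (hh : b.h ≤ h') :
    pay (hist K (newA (mkT own K pay) b true h') b.s0 (h' - b.s0)) ≤
      V own K pay (M K) (hist K b.a b.s0 (b.h - b.s0)) := by
  rcases Nat.eq_zero_or_pos K with hK0 | hK
  · subst hK0
    have h0 : ∀ (a : ℕ → ℕ) (t : ℕ), hist 0 a b.s0 t = [] := by
      intro a t
      induction t with
      | zero => rfl
      | succ t ih =>
        change ext 0 (hist 0 a b.s0 t) _ = []
        rw [ih]
        rfl
    rw [h0, h0]
    exact le_rfl
  have hok := newA_ok (mkT own K pay) b hb true h' hh
  have hmin := newA_min (mkT own K pay) b hb true h'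
  have hs0 := hb.s0h
  -- the bits of the new phase give upper bounds
  have hup : ∀ u v, b.h + u < h' → bitAt (mkT own K pay) b true u v = true →
      newA (mkT own K pay) b true h' v ≤ b.h + u := by
    intro u v hu hbit
    unfold newA
    split_ifs with h
    · omega
    · have h1 := (leastBelow_le_iff (fun u => bitAt (mkT own K pay) b true u v) (h' - b.h) u
        (by omega)).2 ⟨u, le_rfl, hbit⟩
      omega
  have hdown : ∀ u v, b.h + u < h' → newA (mkT own K pay) b true h' v = b.h + u →
      bitAt (mkT own K pay) b true u v = true := by
    intro u v hu hE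
    unfold newA at hE
    split_ifs at hE with h
    · omega
    · have h1 : leastBelow (fun u => bitAt (mkT own K pay) b true u v) (h' - b.h) = u := by
        omega
      have h2 := leastBelow_spec (fun u => bitAt (mkT own K pay) b true u v) (h' - b.h)
        (by omega)
      rw [h1] at h2
      exact h2
  generalize ha' : newA (mkT own K pay) b true h' = a' at hok hmin hup hdown ⊢
  have hold : ∀ t, b.s0 + t ≤ b.h → hist K a' b.s0 t = hist K b.a b.s0 t := by
    intro t
    induction t with
    | zero => intro _; rfl
    | succ t ih =>
      intro ht
      change ext K (hist K a' b.s0 t) (vec K a' (b.s0 + t)) =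
        ext K (hist K b.a b.s0 t) (vec K b.a (b.s0 + t))
      have h1 : vec K a' (b.s0 + t) = vec K b.a (b.s0 + t) := by
        unfold vec
        apply List.map_congr_left
        intro v _
        apply decide_eq_decide.2
        have := hmin v hh
        omega
      rw [ih (by omega), h1]
  have main : ∀ u, b.h + u ≤ h' →
      newC (mkT own K pay) b true u = codeOf (playP_can (hist K a' b.s0 (b.h - b.s0 + u))) ∧
      V own K pay (M K) (hist K a' b.s0 (b.h - b.s0 + u)) ≤
        V own K pay (M K) (hist K b.a b.s0 (b.h - b.s0)) := by
    intro u
    induction u with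
    | zero =>
      intro _
      rw [Nat.add_zero, hold _ (by omega)]
      exact ⟨playP_oldC own hK pay b.a b.s0 _, le_rfl⟩
    | succ u ih =>
      intro hu
      obtain ⟨ih1, ih2⟩ := ih (by omega)
      have hq := good_hist K a' b.s0 (b.h - b.s0 + u)
      have hleg := playP_legal hK a' b.s0 (b.h - b.s0 + u)
      have es : b.s0 + (b.h - b.s0 + u) = b.h + u := by omega
      have e1 : hist K a' b.s0 (b.h - b.s0 + (u + 1)) =
          ext K (hist K a' b.s0 (b.h - b.s0 + u)) (vec K a' (b.h + u)) := by
        rw [← es]
        rfl
      have hcur : ∀ v < K, a' v < b.h + u →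
          (cur (hist K a' b.s0 (b.h - b.s0 + u))).getD v false = true := by
        intro v hv h1
        have h2 : b.s0 ≤ a' v := hok.lo v
        obtain ⟨t, ht⟩ : ∃ t, b.h - b.s0 + u = t + 1 := ⟨b.h - b.s0 + u - 1, by omega⟩
        rw [ht, playP_cur_hist hK, playP_vec_getD _ _ _ _ hv]
        exact decide_eq_true (by omega)
      generalize hist K a' b.s0 (b.h - b.s0 + u) = q at *
      rw [es] at hleg
      obtain ⟨m, hm, hc⟩ := playP_cst_take (nbit (mkT own K pay) b 0 (b.h + u))
        (playP_can q) K
      have hl := playP_can_length q hq
      have hqM := hq.length_le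
      have hM := playP_M_pos hK
      have hf0 : ∀ v < K, b.me v = true →
          m.getD v false = decide (0 < f0 own K pay (playP_can q ++ m.take v)) := by
        intro v hv hmv
        rw [(hc v hv.le).2 hv]
        unfold nbit
        rw [if_pos hmv, lev_mkT, decide_eq_true hv, Bool.true_and]
        have hNB : (playP_can q ++ m.take v).length ≤ NB K := by
          rw [List.length_append, hl, List.length_take]
          have : (q.length + 1) * K ≤ 2 * M K * K := Nat.mul_le_mul_right K (by omega)
          rw [Nat.succ_mul] at this
          unfold NB
          omega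
        rw [(fld_mkT own K pay _ hNB).1]
      have hbit : ∀ v < K, bitAt (mkT own K pay) b true u v = m.getD v false := by
        intro v hv
        unfold bitAt
        rw [ih1]
        change nbit (mkT own K pay) b 0 (b.h + u) v
          (cst (nbit (mkT own K pay) b 0 (b.h + u)) (codeOf (playP_can q)) v) = _
        rw [(hc v hv.le).1, (hc v hv.le).2 hv]
      have hmv : m = vec K a' (b.h + u) := by
        apply playP_eq_vec hm
        intro v hv
        cases hmev : b.me v with
        | false =>
          rw [(hc v hv.le).2 hv]
          unfold nbit
          rw [if_neg (by rw [hmev]; exact Bool.false_ne_true)]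
          have h1 : b.adv v (b.h + u) = true ↔ a' v ≤ b.h + u :=
            hok.adv v hmev (b.h + u) (show b.s0 ≤ b.h + u by omega) (show b.h + u < h' by omega)
          by_cases h2 : a' v ≤ b.h + u
          · rw [decide_eq_true h2, h1.2 h2]
          · rw [decide_eq_false h2]
            cases h3 : b.adv v (b.h + u) with
            | false => rfl
            | true => exact absurd (h1.1 h3) h2
        | true =>
          by_cases h2 : a' v ≤ b.h + u
          · rw [decide_eq_true h2]
            rcases Nat.lt_or_ge (a' v) (b.h + u) with h3 | h3
            · rw [hf0 v hv hmev]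
              unfold f0
              have h4 := playP_prev q hq (m.take v) v hv (by rw [List.length_take]; omega)
              rw [hcur v hv h3] at h4
              rw [if_pos h4]
              exact decide_eq_true Nat.one_pos
            · rw [← hbit v hv]
              exact hdown u v (by omega) (by omega)
          · rw [decide_eq_false h2]
            cases h3 : m.getD v false with
            | false => rfl
            | true => exact absurd (hup u v (by omega) (by rw [hbit v hv]; exact h3)) h2
      rw [e1]
      refine ⟨?_, le_trans ?_ ih2⟩
      · change stepS (mkT own K pay) (nbit (mkT own K pay) b 0 (b.h + u))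
          (newC (mkT own K pay) b true u) = _
        rw [ih1]
        refine playP_step own hK pay q hq _ hleg _ ?_
        rw [(hc K le_rfl).1, List.take_of_length_le hm.le, hmv]
      · refine playP_value own hK pay q hq _ hleg ?_
        intro v hv ho _
        rw [← hmv]
        exact hf0 v hv (by rw [hme, ho]; rfl)
  have hfin := (main (h' - b.h) (by omega)).2
  have e : b.h - b.s0 + (h' - b.h) = h' - b.s0 := by omega
  rw [e] at hfin
  exact (playP_pay own K pay (M K) _).trans hfin

end Pool.Agent.H71.CT
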