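import Pool.Agent.H71.CT.TabCode
import Pool.Agent.H71.CT.TabVal
import Pool.Agent.H71.CT.TabFacts
import Pool.Agent.H71.CT.GameB1

/-! The other side plays the maximiser. -/

namespace Pool.Agent.H71.CT

private theorem pq_take_succ (m : List Bool) {v : ℕ} (hv : v < m.length) :
    m.take (v + 1) = m.take v ++ [m.getD v false] := by
  rw [List.take_add_one, List.getElem?_eq_getElem hv, List.getD_eq_getElem _ _ hv]
  rfl

private theorem pq_cst (bit : ℕ → ℕ → Bool) (l m : List Bool) (k : ℕ) (hk : k ≤ m.length)
    (h : ∀ i < k, m.getD i false = bit i (codeOf (l ++ m.take i))) (v : ℕ) (hv : v ≤ k) :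
    cst bit (codeOf l) v = codeOf (l ++ m.take v) := by
  induction v with
  | zero => simp [cst]
  | succ v ih =>
    have h1 := ih (by omega)
    rw [cst, h1, pq_take_succ m (by omega), ← List.append_assoc, codeOf_append, ← h v (by omega)]

private theorem pq_getD_append_left (l x : List Bool) (j : ℕ) (hj : j < l.length) :
    (l ++ x).getD j false = l.getD j false := by
  rw [List.getD_append _ _ _ _ hj]

private theorem pq_cur_getD {K : ℕ} (hK : 0 < K) {l : List Bool} {i : ℕ}
    (hl : l.length = (i + 1) * K) {v : ℕ} (hv : v < K) :
    (cur (stN K l (i + 1))).getD v false = l.getD (i * K + v) false := by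
  rw [cur_stN hK l i (le_of_eq hl.symm)]
  rw [List.getD_eq_getElem?_getD, List.getD_eq_getElem?_getD, List.getElem?_take_of_lt hv,
    List.getElem?_drop]

private theorem pq_forced {K : ℕ} (hK : 0 < K) {l x : List Bool} {i : ℕ} (hl : l.length = i * K)
    (hx : x.length < K) : forced K (l ++ x) = (cur (stN K l i)).getD x.length false := by
  cases i with
  | zero =>
    have hl0 : l = [] := by
      rw [Nat.zero_mul] at hl
      exact List.length_eq_zero_iff.1 hl
    subst hl0
    simp only [stN, cur, List.headD_nil, List.getD_nil, forced, List.nil_append]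
    rw [decide_eq_false (by omega)]
    rfl
  | succ i =>
    rw [pq_cur_getD hK hl hx]
    unfold forced
    have h1 : (i + 1) * K = i * K + K := by ring
    have h2 : (l ++ x).length = i * K + K + x.length := by
      rw [List.length_append, hl, h1]
    rw [h2, decide_eq_true (by omega), Bool.true_and]
    have h3 : i * K + K + x.length - K = i * K + x.length := by omega
    rw [h3, pq_getD_append_left _ _ _ (by rw [hl, h1]; omega)]

private theorem pq_legal {K : ℕ} (hK : 0 < K) {l : List Bool} (hl : LegalHist K l) {x : Bool}
    (hx : forced K l = true → x = true) : LegalHist K (l ++ [x]) := by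
  intro j hj hj2 hj3
  rw [List.length_append, List.length_singleton] at hj2
  rcases Nat.lt_or_ge j l.length with h | h
  · rw [pq_getD_append_left _ _ _ (by omega)] at hj3
    rw [pq_getD_append_left _ _ _ h]
    exact hl j hj h hj3
  · have hj4 : j = l.length := by omega
    subst hj4
    rw [pq_getD_append_left _ _ _ (by omega)] at hj3
    have h1 : x = true := by
      apply hx
      unfold forced
      rw [decide_eq_true hj, hj3]
      rfl
    rw [h1, List.getD_append_right _ _ _ _ (le_refl _)]
    simp

private theorem pq_Wval (own : ℕ → Bool) {K : ℕ} (hK : 0 < K) (pay : Q → ℕ) (l x : List Bool)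
    (i v : ℕ) (hl : l.length = i * K) (hi : i < 2 * M K) (hx : x.length = v) (hv0 : 0 < v)
    (hv : v ≤ K) (hleg : LegalHist K (l ++ x)) :
    W own K pay (NB K - (l ++ x).length) (l ++ x) =
      mx own (cur (stN K l i)) (fun m => V own K pay (2 * M K - i - 1) (ext K (stN K l i) m))
        (K - v) x := by
  have hst : stN K (l ++ x) i = stN K l i := stN_append K l x i (le_of_eq hl.symm)
  have hdrop : (l ++ x).drop (i * K) = x := by
    rw [← hl, List.drop_left]
  rcases Nat.lt_or_ge v K with h | h
  · have h1 := W_mid own hK pay (l ++ x) i v (by rw [List.length_append, hl, hx]) h hi hleg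
    rw [if_neg (by omega), hst, hdrop] at h1
    exact h1
  · have hvK : v = K := by omega
    subst hvK
    have h1 := W_block own hK pay (l ++ x) (i + 1)
      (by rw [List.length_append, hl, hx]; ring) (by omega) hleg
    rw [h1, Nat.sub_self, mx]
    have h2 : stN v (l ++ x) (i + 1) = ext v (stN v l i) x := by
      rw [stN, hst, hdrop, List.take_of_length_le (le_of_eq hx)]
    rw [h2, Nat.sub_sub]

private theorem pq_step (own : ℕ → Bool) {K : ℕ} (hK : 0 < K) (pay : Q → ℕ) (l m : List Bool)
    (i : ℕ) (hl : l.length = i * K) (hi : i < 2 * M K) (hleg : LegalHist K l)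
    (hm : m.length = K)
    (hf : ∀ v < K, (cur (stN K l i)).getD v false = true → m.getD v false = true)
    (hb : ∀ v < K, own v = true → m.getD v false = decide (0 < f1 own K pay (l ++ m.take v)))
    (v : ℕ) (hv : v ≤ K) :
    LegalHist K (l ++ m.take v) ∧
    mx own (cur (stN K l i)) (fun m => V own K pay (2 * M K - i - 1) (ext K (stN K l i) m))
        K [] ≤
      mx own (cur (stN K l i)) (fun m => V own K pay (2 * M K - i - 1) (ext K (stN K l i) m))
        (K - v) (m.take v) := by
  induction v with
  | zero =>
    simp only [List.take_zero, List.append_nil, Nat.sub_zero]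
    exact ⟨hleg, le_refl _⟩
  | succ v ih =>
    obtain ⟨ih1, ih2⟩ := ih (by omega)
    have hlen : (m.take v).length = v := by
      rw [List.length_take]
      omega
    have hfor := pq_forced hK hl (x := m.take v) (by omega)
    rw [hlen] at hfor
    have hts : m.take (v + 1) = m.take v ++ [m.getD v false] := pq_take_succ m (by omega)
    have hleg2 : ∀ x : Bool, (forced K (l ++ m.take v) = true → x = true) →
        LegalHist K (l ++ (m.take v ++ [x])) := by
      intro x hx
      rw [← List.append_assoc]
      exact pq_legal hK ih1 hx
    refine ⟨?_, ih2.trans ?_⟩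
    · rw [hts]
      apply hleg2
      intro h
      rw [hfor] at h
      exact hf v (by omega) h
    · have hj : K - v = (K - (v + 1)) + 1 := by omega
      rw [hj, mx, hlen, hts]
      by_cases hc : (cur (stN K l i)).getD v false = true
      · rw [if_pos hc, hf v (by omega) hc]
      · rw [if_neg hc]
        have hnf : forced K (l ++ m.take v) = false := by
          rw [hfor]
          simpa using hc
        have hW : ∀ x : Bool, W own K pay (NB K - (l ++ m.take v).length - 1)
            (l ++ m.take v ++ [x]) = mx own (cur (stN K l i))
              (fun m => V own K pay (2 * M K - i - 1) (ext K (stN K l i) m))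
              (K - (v + 1)) (m.take v ++ [x]) := by
          intro x
          have h1 := pq_Wval own hK pay l (m.take v ++ [x]) i (v + 1) hl hi
            (by rw [List.length_append, hlen, List.length_singleton]) (by omega) hv
            (hleg2 x (by rw [hnf]; intro h; exact absurd h (by decide)))
          rw [← h1, ← List.append_assoc]
          congr 1
          rw [List.length_append (as := l ++ m.take v), List.length_singleton, Nat.sub_sub]
        by_cases ho : own v = true
        · rw [if_pos ho]
          have h1 := hb v (by omega) ho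
          unfold f1 at h1
          rw [hnf] at h1
          simp only [Bool.false_eq_true, if_false] at h1
          rw [hW false, hW true] at h1
          split_ifs at h1 with h2
          · have h3 : m.getD v false = true := by
              rw [h1]
              rfl
            rw [h3]
            exact max_le h2.le (le_refl _)
          · have h3 : m.getD v false = false := by
              rw [h1]
              rfl
            rw [h3]
            exact max_le (le_refl _) (not_lt.1 h2)
        · rw [if_neg ho]
          cases hx : m.getD v false with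
          | false => exact min_le_left _ _
          | true => exact min_le_right _ _

private theorem pq_legal_take {K : ℕ} (hK : 0 < K) {l m : List Bool} {i : ℕ}
    (hl : l.length = i * K) (hleg : LegalHist K l) (hm : m.length = K)
    (hf : ∀ v < K, (cur (stN K l i)).getD v false = true → m.getD v false = true)
    (v : ℕ) (hv : v ≤ K) : LegalHist K (l ++ m.take v) := by
  induction v with
  | zero =>
    simp only [List.take_zero, List.append_nil]
    exact hleg
  | succ v ih =>
    have hlen : (m.take v).length = v := by
      rw [List.length_take]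
      omega
    rw [pq_take_succ m (by omega), ← List.append_assoc]
    apply pq_legal hK (ih (by omega))
    intro h
    rw [pq_forced hK hl (by omega), hlen] at h
    exact hf v (by omega) h

private theorem pq_vec_getD (K : ℕ) (a : ℕ → ℕ) (s v : ℕ) (hv : v < K) :
    (vec K a s).getD v false = decide (a v ≤ s) := by
  unfold vec
  rw [List.getD_eq_getElem?_getD, List.getElem?_map, List.getElem?_range hv]
  rfl

private theorem pq_vec_length (K : ℕ) (a : ℕ → ℕ) (s : ℕ) : (vec K a s).length = K := by
  unfold vec
  rw [List.length_map, List.length_range]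

private theorem pq_cur_ext {K : ℕ} (hK : 0 < K) (q : Q) (m : List Bool) : cur (ext K q m) = m := by
  unfold ext
  split_ifs with h
  · cases q with
    | nil =>
      rw [List.take_nil] at h
      have h2 := congrArg List.length h
      rw [List.length_replicate, List.length_nil] at h2
      omega
    | cons x q =>
      obtain ⟨k, rfl⟩ : ∃ k, K = k + 1 := ⟨K - 1, by omega⟩
      rw [List.take_succ_cons, List.replicate_succ] at h
      exact (List.cons.inj h).1
  · rfl

private theorem pq_M_pos {K : ℕ} (hK : 0 < K) : 0 < M K := Nat.mul_pos hK (by omega)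

private theorem pq_old (own : ℕ → Bool) {K : ℕ} (hK : 0 < K) (pay : Q → ℕ) (a : ℕ → ℕ)
    (s0 : ℕ) (hlo : ∀ v, s0 ≤ a v) (t : ℕ) :
    ∃ l : List Bool, oldC (mkT own K pay) a s0 t = codeOf l ∧
      l.length = (hist K a s0 t).length * K ∧ LegalHist K l ∧
      stN K l (hist K a s0 t).length = hist K a s0 t ∧
      ∀ v < K, (cur (hist K a s0 t)).getD v false = true ↔ a v < s0 + t := by
  induction t with
  | zero =>
    refine ⟨[], rfl, ?_, ?_, rfl, ?_⟩
    · simp [hist]
    · intro j _ hj2
      simp at hj2
    · intro v _
      simp only [hist, cur, List.headD_nil, List.getD_nil, Bool.false_eq_true, false_iff]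
      have := hlo v
      omega
  | succ t ih =>
    obtain ⟨l, h1, h2, h3, h4, h5⟩ := ih
    set q := hist K a s0 t with hq
    set m := vec K a (s0 + t) with hm
    have hq' : hist K a s0 (t + 1) = ext K q m := rfl
    have hml : m.length = K := pq_vec_length _ _ _
    have hle : q.length ≤ M K := (good_hist K a s0 t).length_le
    have hMp := pq_M_pos hK
    have hcur : ∀ v < K, (cur (ext K q m)).getD v false = true ↔ a v < s0 + (t + 1) := by
      intro v hv
      rw [pq_cur_ext hK, hm, pq_vec_getD _ _ _ _ hv, decide_eq_true_iff]
      omega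
    have hf : ∀ v < K, (cur (stN K l q.length)).getD v false = true → m.getD v false = true := by
      intro v hv h
      rw [h4, h5 v hv] at h
      rw [hm, pq_vec_getD _ _ _ _ hv, decide_eq_true_iff]
      omega
    have hleg : LegalHist K (l ++ m) := by
      have := pq_legal_take hK h2 h3 hml hf K (le_refl _)
      rwa [List.take_of_length_le (le_of_eq hml)] at this
    have hlen : (l ++ m).length = (q.length + 1) * K := by
      rw [List.length_append, h2, hml]
      ring
    have hst : stN K (l ++ m) (q.length + 1) = ext K q m := by
      rw [stN, stN_append K l m _ (le_of_eq h2.symm), h4, ← h2, List.drop_left,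
        List.take_of_length_le (le_of_eq hml)]
    have hst2 : stN K (l ++ m) q.length = q := by
      rw [stN_append K l m _ (le_of_eq h2.symm), h4]
    have hcst : cst (fun v _ => decide (a v ≤ s0 + t)) (codeOf l) (lev (mkT own K pay)) =
        codeOf (l ++ m) := by
      rw [lev_mkT]
      have := pq_cst (fun v _ => decide (a v ≤ s0 + t)) l m K (le_of_eq hml.symm)
        (fun i hi => by rw [hm, pq_vec_getD _ _ _ _ hi]) K (le_refl _)
      rwa [List.take_of_length_le (le_of_eq hml)] at this
    have hNB : (l ++ m).length ≤ NB K := by
      rw [hlen]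
      unfold NB
      exact Nat.mul_le_mul_right _ (by omega)
    have hf3 := (fld_mkT own K pay (l ++ m) hNB).2.2.2
    have hdiv : (l ++ m).length / K = q.length + 1 := by
      rw [hlen, Nat.mul_div_cancel _ hK]
    have hf3' : f3 K (l ++ m) = if ext K q m = q then 1 else 0 := by
      unfold f3
      rw [hdiv, Nat.add_sub_cancel, hst, hst2]
      have e1 : 0 < (l ++ m).length := by
        rw [hlen]
        exact Nat.mul_pos (by omega) hK
      have e2 : (l ++ m).length % K = 0 := by rw [hlen, Nat.mul_mod_left]
      by_cases he : ext K q m = q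
      · rw [if_pos ⟨e1, e2, he⟩, if_pos he]
      · rw [if_neg (fun h => he h.2.2), if_neg he]
    rw [hq', oldC, h1]
    unfold stepS
    rw [hcst, hf3, hf3']
    by_cases he : ext K q m = q
    · rw [if_pos he, if_pos one_pos]
      refine ⟨l, rfl, ?_, h3, ?_, hcur⟩
      · rw [he, h2]
      · rw [he, h4]
    · rw [if_neg he, if_neg (lt_irrefl 0)]
      have hlen2 : (ext K q m).length = q.length + 1 := by
        unfold ext at he ⊢
        split_ifs with h
        · exact absurd (if_pos h) he
        · rfl
      refine ⟨l ++ m, rfl, ?_, hleg, ?_, hcur⟩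
      · rw [hlen2, hlen]
      · rw [hlen2, hst]

private theorem pq_adv_mono (b : Board) (hb : b.Ok) (v s n : ℕ) (h : b.adv v s = true) :
    b.adv v (s + n) = true := by
  induction n with
  | zero => exact h
  | succ n ih => exact hb.mono v (s + n) ih

private theorem pq_block (own : ℕ → Bool) {K : ℕ} (hK : 0 < K) (pay : Q → ℕ) (b : Board)
    (hb : b.Ok) (hme : ∀ v, b.me v = own v) (i u : ℕ) (hi : i < 2 * M K) (l : List Bool)
    (h1 : newC (mkT own K pay) b false u = codeOf l) (h2 : l.length = i * K)
    (h4 : ∀ v < K, (cur (stN K l i)).getD v false = true ↔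
      (b.a v < b.h ∨ ∃ j < u, bitAt (mkT own K pay) b false j v = true)) :
    ∃ m : List Bool, m.length = K ∧ newC (mkT own K pay) b false (u + 1) = codeOf (l ++ m) ∧
      (∀ v < K, m.getD v false = bitAt (mkT own K pay) b false u v) ∧
      (∀ v < K, own v = true → m.getD v false = decide (0 < f1 own K pay (l ++ m.take v))) ∧
      (∀ v < K, (cur (stN K l i)).getD v false = true → m.getD v false = true) := by
  set T := mkT own K pay with hT
  obtain ⟨m, hm, hc, hbit⟩ := cst_eq (nbit T b 1 (b.h + u)) l K
  have hcst : ∀ v ≤ K, cst (nbit T b 1 (b.h + u)) (codeOf l) v = codeOf (l ++ m.take v) :=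
    fun v hv => pq_cst _ l m K (le_of_eq hm.symm) hbit v hv
  have hbA : ∀ v < K, m.getD v false = bitAt T b false u v := by
    intro v hv
    rw [hbit v hv]
    unfold bitAt
    simp only [Bool.false_eq_true, if_false]
    rw [h1, hcst v hv.le]
  have hown : ∀ v < K, own v = true →
      m.getD v false = decide (0 < f1 own K pay (l ++ m.take v)) := by
    intro v hv ho
    have hlen : (l ++ m.take v).length ≤ NB K := by
      rw [List.length_append, h2, List.length_take]
      unfold NB
      have h5 : (i + 1) * K ≤ 2 * M K * K := Nat.mul_le_mul_right _ (by omega)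
      have h6 : (i + 1) * K = i * K + K := by ring
      omega
    rw [hbit v hv]
    unfold nbit
    rw [hme v, if_pos ho, lev_mkT, decide_eq_true hv, Bool.true_and,
      (fld_mkT own K pay _ hlen).2.1]
  refine ⟨m, hm, ?_, hbA, hown, ?_⟩
  · rw [newC]
    simp only [Bool.false_eq_true, if_false]
    unfold stepN
    rw [h1, hT, lev_mkT, ← hT, hc]
  · intro v hv hcv
    cases ho : own v with
    | true =>
      rw [hown v hv ho]
      have h5 : forced K (l ++ m.take v) = true := by
        have hlen : (m.take v).length = v := by
          rw [List.length_take]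
          omega
        rw [pq_forced hK h2 (by omega), hlen, hcv]
      unfold f1
      rw [h5]
      rfl
    | false =>
      have h5 : ∀ j, bitAt T b false j v = b.adv v (b.h + j) := by
        intro j
        unfold bitAt nbit
        rw [hme v, ho]
        rfl
      rw [hbA v hv, h5]
      rcases (h4 v hv).1 hcv with h | ⟨j, hj, hjb⟩
      · have h6 : b.adv v (b.h - 1) = true := by
          have h7 := hb.lo v
          rw [hb.adv v (by rw [hme v, ho]) (b.h - 1) (by omega) (by omega)]
          omega
        have h8 := pq_adv_mono b hb v (b.h - 1) (u + 1) h6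
        have h9 : b.h - 1 + (u + 1) = b.h + u := by omega
        rwa [h9] at h8
      · rw [h5] at hjb
        have h8 := pq_adv_mono b hb v (b.h + j) (u - j) hjb
        have h9 : b.h + j + (u - j) = b.h + u := by omega
        rwa [h9] at h8

private theorem pq_new (own : ℕ → Bool) {K : ℕ} (hK : 0 < K) (pay : Q → ℕ) (b : Board)
    (hb : b.Ok) (hme : ∀ v, b.me v = own v) (u : ℕ)
    (hu : (hist K b.a b.s0 (b.h - b.s0)).length + u ≤ 2 * M K) :
    ∃ l : List Bool, newC (mkT own K pay) b false u = codeOf l ∧
      l.length = ((hist K b.a b.s0 (b.h - b.s0)).length + u) * K ∧ LegalHist K l ∧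
      ∀ v < K, (cur (stN K l ((hist K b.a b.s0 (b.h - b.s0)).length + u))).getD v false = true ↔
        (b.a v < b.h ∨ ∃ j < u, bitAt (mkT own K pay) b false j v = true) := by
  induction u with
  | zero =>
    obtain ⟨l, h1, h2, h3, h4, h5⟩ := pq_old own hK pay b.a b.s0 hb.lo (b.h - b.s0)
    refine ⟨l, h1, h2, h3, ?_⟩
    intro v hv
    rw [Nat.add_zero, h4, h5 v hv]
    have := hb.s0h
    constructor
    · intro h
      left
      omega
    · rintro (h | ⟨j, hj, _⟩)
      · omega
      · omega
  | succ u ih =>
    obtain ⟨l, h1, h2, h3, h4⟩ := ih (by omega)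
    set i := (hist K b.a b.s0 (b.h - b.s0)).length + u with hi
    obtain ⟨m, hm, hc, hbA, hown, hf⟩ := pq_block own hK pay b hb hme i u (by omega) l h1 h2 h4
    refine ⟨l ++ m, hc, ?_, ?_, ?_⟩
    · rw [List.length_append, h2, hm]
      ring
    · have := pq_legal_take hK h2 h3 hm hf K (le_refl _)
      rwa [List.take_of_length_le (le_of_eq hm)] at this
    · intro v hv
      have hst : stN K (l ++ m) (i + 1) = ext K (stN K l i) m := by
        rw [stN, stN_append K l m _ (le_of_eq h2.symm), ← h2, List.drop_left,
          List.take_of_length_le (le_of_eq hm)]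
      rw [← Nat.add_assoc, ← hi, hst, pq_cur_ext hK]
      constructor
      · intro h
        right
        exact ⟨u, by omega, by rw [← hbA v hv, h]⟩
      · rintro (h | ⟨j, hj, hjb⟩)
        · exact hf v hv ((h4 v hv).2 (Or.inl h))
        · rcases Nat.lt_or_ge j u with h | h
          · exact hf v hv ((h4 v hv).2 (Or.inr ⟨j, h, hjb⟩))
          · have hj2 : j = u := by omega
            rw [hbA v hv, ← hj2, hjb]

private theorem pq_hist_congr (K : ℕ) (a a' : ℕ → ℕ) (s0 t : ℕ)
    (h : ∀ v s, s < s0 + t → (a v ≤ s ↔ a' v ≤ s)) : hist K a s0 t = hist K a' s0 t := by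
  induction t with
  | zero => rfl
  | succ t ih =>
    rw [hist, hist, ih (fun v s hs => h v s (by omega))]
    congr 1
    unfold vec
    apply List.map_congr_left
    intro v _
    exact decide_eq_decide.2 (h v (s0 + t) (by omega))

private theorem pq_list_ext {m m' : List Bool} {K : ℕ} (h1 : m.length = K) (h2 : m'.length = K)
    (h : ∀ v < K, m.getD v false = m'.getD v false) : m = m' := by
  apply List.ext_getElem (by rw [h1, h2])
  intro v hv hv'
  have h3 := h v (by omega)
  rw [List.getD_eq_getElem _ _ hv, List.getD_eq_getElem _ _ hv'] at h3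
  exact h3

private theorem pq_stop (own : ℕ → Bool) {K : ℕ} (hK : 0 < K) (pay : Q → ℕ) (b : Board)
    (hb : b.Ok) (hme : ∀ v, b.me v = own v) :
    (hist K b.a b.s0 (b.h - b.s0)).length +
      leastBelow (fun u => decide (fld (mkT own K pay) (newC (mkT own K pay) b false u) 2 = 0))
        (2 * M K) ≤ 2 * M K ∧
    fld (mkT own K pay) (newC (mkT own K pay) b false
      (leastBelow (fun u => decide (fld (mkT own K pay) (newC (mkT own K pay) b false u) 2 = 0))
        (2 * M K))) 2 = 0 := by
  set T := mkT own K pay with hT
  set f : ℕ → Bool := fun u => decide (fld T (newC T b false u) 2 = 0) with hf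
  have hle : (hist K b.a b.s0 (b.h - b.s0)).length ≤ M K := (good_hist K _ _ _).length_le
  have hMp := pq_M_pos hK
  set i0 := (hist K b.a b.s0 (b.h - b.s0)).length with hi0
  have key : f (2 * M K - i0) = true := by
    obtain ⟨l, h1, h2, h3, -⟩ := pq_new own hK pay b hb hme (2 * M K - i0) (by omega)
    have hlen : l.length = NB K := by
      rw [h2]
      unfold NB
      congr 1
      omega
    have h5 := (fld_mkT own K pay l (le_of_eq hlen)).2.2.1
    have h6 : f2 own K pay l = 0 := by
      unfold f2
      rw [if_neg]
      rw [hlen, Nat.sub_self, W]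
      exact lt_irrefl _
    rw [hf]
    simp only [decide_eq_true_iff]
    rw [h1, hT, h5, h6]
  have hlb : leastBelow f (2 * M K) ≤ 2 * M K - i0 := by
    rcases Nat.lt_or_ge (2 * M K - i0) (2 * M K) with h | h
    · exact (leastBelow_le_iff f _ _ h).2 ⟨_, le_refl _, key⟩
    · exact (leastBelow_le f _).trans h
  refine ⟨by omega, ?_⟩
  rcases Nat.lt_or_ge (leastBelow f (2 * M K)) (2 * M K) with h | h
  · have := leastBelow_spec f _ h
    rw [hf] at this
    simpa using this
  · have h5 : leastBelow f (2 * M K) = 2 * M K - i0 := by omega
    rw [h5]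
    rw [hf] at key
    simpa using key

private theorem pq_newH (own : ℕ → Bool) (K : ℕ) (pay : Q → ℕ) (b : Board) :
    newH (mkT own K pay) b = b.h + leastBelow
      (fun u => decide (fld (mkT own K pay) (newC (mkT own K pay) b false u) 2 = 0))
        (2 * M K) := by
  unfold newH QB
  rw [lev_mkT]

/-- one step of the new phase -/
private theorem pq_mono (own : ℕ → Bool) {K : ℕ} (hK : 0 < K) (pay : Q → ℕ) (b : Board)
    (hb : b.Ok) (hme : ∀ v, b.me v = own v) (u : ℕ)
    (hu : (hist K b.a b.s0 (b.h - b.s0)).length + u ≤ 2 * M K)
    (hgo : ∀ w < u, fld (mkT own K pay) (newC (mkT own K pay) b false w) 2 ≠ 0) (h' : ℕ)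
    (hh : b.h + u ≤ h') :
    ∃ l : List Bool, newC (mkT own K pay) b false u = codeOf l ∧
      l.length = ((hist K b.a b.s0 (b.h - b.s0)).length + u) * K ∧ LegalHist K l ∧
      stN K l ((hist K b.a b.s0 (b.h - b.s0)).length + u) =
        hist K (newA (mkT own K pay) b false h') b.s0 (b.h - b.s0 + u) ∧
      V own K pay (M K) (hist K b.a b.s0 (b.h - b.s0)) ≤
        V own K pay (2 * M K - ((hist K b.a b.s0 (b.h - b.s0)).length + u))
          (stN K l ((hist K b.a b.s0 (b.h - b.s0)).length + u)) := by
  set T := mkT own K pay with hT
  set i0 := (hist K b.a b.s0 (b.h - b.s0)).length with hi0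
  have hle : i0 ≤ M K := (good_hist K _ _ _).length_le
  have hs0h := hb.s0h
  induction u with
  | zero =>
    obtain ⟨l, h1, h2, h3, h4, h5⟩ := pq_old own hK pay b.a b.s0 hb.lo (b.h - b.s0)
    rw [← hi0] at h2 h4
    refine ⟨l, h1, h2, h3, ?_, ?_⟩
    · rw [Nat.add_zero, Nat.add_zero, h4]
      apply pq_hist_congr
      intro v s hs
      have h6 := newA_min T b hb false h' v (by omega)
      rcases Nat.lt_or_ge (newA T b false h' v) b.h with h | h
      · rw [min_eq_left h.le] at h6
        rw [h6]
      · rw [min_eq_right h] at h6
        omega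
    · rw [Nat.add_zero, h4]
      rw [V_stable own K pay (good_hist K _ _ _) (2 * M K - i0) (by omega)]
  | succ u ih =>
    obtain ⟨l, h1, h2, h3, h4, h5⟩ := ih (by omega) (fun w hw => hgo w (by omega)) (by omega)
    obtain ⟨l', h1', h2', h3', h4'⟩ := pq_new own hK pay b hb hme u (by omega)
    rw [← hi0] at h2' h4'
    have hll : l' = l := by
      rw [← bitsOf_codeOf l', ← bitsOf_codeOf l, ← h1, ← h1']
    subst hll
    set i := i0 + u with hi
    obtain ⟨m, hm, hc, hbA, hown, hf⟩ := pq_block own hK pay b hb hme i u (by omega) l' h1 h2 h4'
    have hst : stN K (l' ++ m) (i + 1) = ext K (stN K l' i) m := by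
      rw [stN, stN_append K l' m _ (le_of_eq h2.symm), ← h2, List.drop_left,
        List.take_of_length_le (le_of_eq hm)]
    have hlen : (l' ++ m).length = (i + 1) * K := by
      rw [List.length_append, h2, hm]
      ring
    refine ⟨l' ++ m, hc, ?_, ?_, ?_, ?_⟩
    · rw [hlen, hi]
      ring
    · have := pq_legal_take hK h2 h3 hm hf K (le_refl _)
      rwa [List.take_of_length_le (le_of_eq hm)] at this
    · rw [← Nat.add_assoc, ← hi, hst, h4, ← Nat.add_assoc (b.h - b.s0) u 1, hist]
      congr 1
      apply pq_list_ext hm (pq_vec_length _ _ _)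
      intro v hv
      rw [pq_vec_getD _ _ _ _ hv]
      have h6 : b.s0 + (b.h - b.s0 + u) = b.h + u := by omega
      rw [h6]
      have h7 : (newA T b false h' v ≤ b.h + u) ↔
          (b.a v < b.h ∨ ∃ j ≤ u, bitAt T b false j v = true) := by
        unfold newA
        split_ifs with h
        · constructor
          · intro _
            exact Or.inl h
          · intro _
            omega
        · have h8 := leastBelow_le_iff (fun u => bitAt T b false u v) (h' - b.h) u (by omega)
          constructor
          · intro h9
            right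
            exact h8.1 (by omega)
          · rintro (h9 | h9)
            · exact absurd h9 h
            · have := h8.2 h9
              omega
      rw [Bool.eq_iff_iff, decide_eq_true_iff, h7]
      constructor
      · intro h
        right
        exact ⟨u, le_refl _, by rw [← hbA v hv, h]⟩
      · rintro (h | ⟨j, hj, hjb⟩)
        · exact hf v hv ((h4' v hv).2 (Or.inl h))
        · rcases Nat.lt_or_ge j u with h | h
          · exact hf v hv ((h4' v hv).2 (Or.inr ⟨j, h, hjb⟩))
          · have hj2 : j = u := by omega
            rw [hbA v hv, ← hj2, hjb]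
    · refine h5.trans ?_
      rw [← Nat.add_assoc, ← hi, hst]
      have hNB : l'.length ≤ NB K := by
        rw [h2]
        unfold NB
        exact Nat.mul_le_mul_right _ (by omega)
      have h6 := hgo u (by omega)
      rw [h1, hT, (fld_mkT own K pay l' hNB).2.2.1] at h6
      unfold f2 at h6
      have h7 : pay (stOf K l') < W own K pay (NB K - l'.length) l' := by
        by_contra hcon
        rw [if_neg hcon] at h6
        exact h6 rfl
      rw [W_block own hK pay l' i h2 (by omega) h3] at h7
      have h8 : stOf K l' = stN K l' i := by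
        unfold stOf
        rw [h2, Nat.mul_div_cancel _ hK]
      rw [h8] at h7
      obtain ⟨d, hd⟩ : ∃ d, 2 * M K - i = d + 1 := ⟨2 * M K - i - 1, by omega⟩
      have hd2 : 2 * M K - (i + 1) = d := by omega
      have hd3 : 2 * M K - i - 1 = d := by omega
      have h9 := (pq_step own hK pay l' m i h2 (by omega) h3 hm hf hown K (le_refl _)).2
      rw [hd3, Nat.sub_self, mx, List.take_of_length_le (le_of_eq hm)] at h9
      rw [hd2]
      rw [hd, V] at h7 ⊢
      rcases lt_max_iff.1 h7 with h10 | h10
      · exact absurd h10 (lt_irrefl _)
      · rw [max_eq_right h10.le]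
        exact h9

/-- In the new phase no block is dropped; with `i` blocks in the history the value
`V (2 * M K - i)` of its state never decreases; at the start it is `V (M K)` by `V_stable`
(the canonical history of the start state has at most `M K` blocks). The process stops at the first
step at which `pay = V`, at the latest when the history has `2 * M K` blocks. -/
theorem play_Q (own : ℕ → Bool) (K : ℕ) (pay : Q → ℕ) (b : Board) (hb : b.Ok)
    (hme : ∀ v, b.me v = own v) :
    V own K pay (M K) (hist K b.a b.s0 (b.h - b.s0)) ≤
      pay (hist K (newA (mkT own K pay) b false (newH (mkT own K pay) b)) b.s0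
        (newH (mkT own K pay) b - b.s0)) := by
  rcases Nat.eq_zero_or_pos K with hK | hK
  · subst hK
    have h0 : ∀ (a : ℕ → ℕ) (s0 t : ℕ), hist 0 a s0 t = [] := by
      intro a s0 t
      induction t with
      | zero => rfl
      | succ t ih =>
        rw [hist, ih]
        unfold ext
        simp
    rw [h0, h0]
    exact le_refl _
  · have hs0h := hb.s0h
    obtain ⟨hs1, hs2⟩ := pq_stop own hK pay b hb hme
    rw [pq_newH]
    set u := leastBelow
      (fun u => decide (fld (mkT own K pay) (newC (mkT own K pay) b false u) 2 = 0))
        (2 * M K) with hu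
    obtain ⟨l, h1, h2, h3, h4, h5⟩ := pq_mono own hK pay b hb hme u hs1
      (fun w hw => by
        have := leastBelow_min _ _ _ hw
        simpa using this) (b.h + u) (le_refl _)
    refine h5.trans ?_
    have h6 : b.h + u - b.s0 = b.h - b.s0 + u := by omega
    rw [h6, ← h4]
    set i := (hist K b.a b.s0 (b.h - b.s0)).length + u with hi
    have hNB : l.length ≤ NB K := by
      rw [h2]
      unfold NB
      exact Nat.mul_le_mul_right _ (by omega)
    rw [h1, (fld_mkT own K pay l hNB).2.2.1] at hs2
    unfold f2 at hs2
    have h7 : ¬ pay (stOf K l) < W own K pay (NB K - l.length) l := by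
      intro hcon
      rw [if_pos hcon] at hs2
      exact one_ne_zero hs2
    rw [W_block own hK pay l i h2 (by omega) h3] at h7
    have h8 : stOf K l = stN K l i := by
      unfold stOf
      rw [h2, Nat.mul_div_cancel _ hK]
    rw [h8] at h7
    exact not_lt.1 h7

/-- the process stops because the table says so -/
theorem newH_stop (own : ℕ → Bool) (K : ℕ) (pay : Q → ℕ) (b : Board) (hb : b.Ok)
    (hme : ∀ v, b.me v = own v) :
    fld (mkT own K pay) (newC (mkT own K pay) b false (newH (mkT own K pay) b - b.h)) 2 = 0 := by
  rcases Nat.eq_zero_or_pos K with hK | hK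
  · subst hK
    have h0 : newH (mkT own 0 pay) b - b.h = 0 := by
      rw [pq_newH]
      unfold M leastBelow
      simp
    have h1 : ∀ t, oldC (mkT own 0 pay) b.a b.s0 t = 1 := by
      intro t
      induction t with
      | zero => rfl
      | succ t ih =>
        rw [oldC, ih]
        unfold stepS
        rw [lev_mkT, cst]
        split_ifs <;> rfl
    rw [h0, newC, h1, ← codeOf_nil, (fld_mkT own 0 pay [] (by simp)).2.2.1]
    unfold f2 NB
    rw [Nat.mul_zero, Nat.zero_sub, W]
    simp
  · rw [pq_newH, Nat.add_sub_cancel_left]
    exact (pq_stop own hK pay b hb hme).2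

end Pool.Agent.H71.CT
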