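import Pool.Agent.H71.CT.SlowTab

/-!
Slow tables that refer to their own past.

Proof of `self_ref`. For a code `c` and `k` let `cons c k` be the greatest `i ≤ k` such that
`evaln k c i'` is defined for all `i' < i`, and `val c k` the list coded by
`evaln k c (cons c k - 1)`, or `Ψ []` if `cons c k = 0`. Apply `slow_tab` to
`u k = encLL [val (ofNat 0) k, ..., val (ofNat k) k]`, get `g`. For a code number `c` let
`D c n = val c (g n)` if `c ≤ g n`, else `Ψ []`; `D` is computable. By the fixed point theorem
(`Nat.Partrec.Code.fixed_point₂`) there is `c` with `eval c j = encode (Ψ [D c 0, ..., D c (j-1)])`.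
Put `d = D c`, `κ n = cons c (g n) - 1` (0 if `g n < c`). Since `eval c` is total, `κ` tends to
infinity. `LinTab d` by `lin_getD`.
-/

namespace Pool.Agent.H71.CT

open Filter
open Nat.Partrec (Code)

private def selfRef_cnt (k : ℕ) (c : Code) (m : ℕ) : ℕ :=
  Nat.rec 0 (fun j r => bif (decide (r = j) && (c.evaln k j).isSome) then j + 1 else r) m

private theorem selfRef_cnt_succ (k : ℕ) (c : Code) (m : ℕ) :
    selfRef_cnt k c (m + 1) =
      bif (decide (selfRef_cnt k c m = m) && (c.evaln k m).isSome) then m + 1
      else selfRef_cnt k c m := rfl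

private theorem selfRef_cnt_le (k : ℕ) (c : Code) (m : ℕ) : selfRef_cnt k c m ≤ m := by
  induction m with
  | zero => exact le_refl 0
  | succ m ih =>
    rw [selfRef_cnt_succ]
    cases (decide (selfRef_cnt k c m = m) && (c.evaln k m).isSome)
    · simp only [cond_false]; omega
    · simp only [cond_true]; omega

private theorem selfRef_cnt_some (k : ℕ) (c : Code) (m : ℕ) :
    ∀ i < selfRef_cnt k c m, (c.evaln k i).isSome = true := by
  induction m with
  | zero => intro i hi; exact absurd hi (Nat.not_lt_zero i)
  | succ m ih =>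
    rw [selfRef_cnt_succ]
    cases hb : (decide (selfRef_cnt k c m = m) && (c.evaln k m).isSome)
    · simp only [cond_false]; exact ih
    · simp only [cond_true]
      rw [Bool.and_eq_true, decide_eq_true_eq] at hb
      intro i hi
      rcases Nat.lt_succ_iff_lt_or_eq.1 hi with h | h
      · exact ih i (by rw [hb.1]; exact h)
      · rw [h]; exact hb.2

private theorem selfRef_cnt_ge (k : ℕ) (c : Code) (N : ℕ)
    (h : ∀ i < N, (c.evaln k i).isSome = true) (m : ℕ) : min m N ≤ selfRef_cnt k c m := by
  induction m with
  | zero => simp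
  | succ m ih =>
    rw [selfRef_cnt_succ]
    cases hb : (decide (selfRef_cnt k c m = m) && (c.evaln k m).isSome)
    · simp only [cond_false]
      rw [Bool.and_eq_false_iff, decide_eq_false_iff_not] at hb
      have hle := selfRef_cnt_le k c m
      by_cases hm : m < N
      · exfalso
        rcases hb with hb | hb
        · apply hb; omega
        · rw [h m hm] at hb; exact absurd hb (by simp)
      · omega
    · simp only [cond_true]; omega

private theorem selfRef_cnt_primrec :
    Primrec (fun p : ℕ × Code => selfRef_cnt p.1 p.2 p.1) := by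
  have h1 : Primrec₂ (fun (a : ℕ × Code) (q : ℕ × ℕ) =>
      bif (decide (q.2 = q.1) && (a.2.evaln a.1 q.1).isSome) then q.1 + 1 else q.2) := by
    have he : Primrec (fun b : (ℕ × Code) × (ℕ × ℕ) => b.1.2.evaln b.1.1 b.2.1) :=
      Code.primrec_evaln.comp (Primrec.pair (Primrec.pair (Primrec.fst.comp Primrec.fst)
        (Primrec.snd.comp Primrec.fst)) (Primrec.fst.comp Primrec.snd))
    have hd : Primrec (fun b : (ℕ × Code) × (ℕ × ℕ) => decide (b.2.2 = b.2.1)) :=
      (Primrec.eq.comp (Primrec.snd.comp Primrec.snd) (Primrec.fst.comp Primrec.snd)).decide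
    exact Primrec.cond (Primrec.and.comp hd (Primrec.option_isSome.comp he))
      (Primrec.succ.comp (Primrec.fst.comp Primrec.snd)) (Primrec.snd.comp Primrec.snd)
  exact Primrec.nat_rec' Primrec.fst (Primrec.const 0) h1

/-- the list read off at level `k` from the code `c` -/
private def selfRef_val (z : List ℕ) (e k : ℕ) : List ℕ :=
  bif decide (selfRef_cnt k (Denumerable.ofNat Code e) k = 0) then z
  else (((Denumerable.ofNat Code e).evaln k
    (selfRef_cnt k (Denumerable.ofNat Code e) k - 1)).bind
      (fun y => (Encodable.decode y : Option (List ℕ)))).getD z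

private theorem selfRef_val_primrec (z : List ℕ) :
    Primrec (fun p : ℕ × ℕ => selfRef_val z p.1 p.2) := by
  have hc : Primrec (fun p : ℕ × ℕ => Denumerable.ofNat Code p.1) :=
    (Primrec.ofNat Code).comp Primrec.fst
  have hn : Primrec (fun p : ℕ × ℕ => selfRef_cnt p.2 (Denumerable.ofNat Code p.1) p.2) :=
    selfRef_cnt_primrec.comp (Primrec.pair Primrec.snd hc)
  have he : Primrec (fun p : ℕ × ℕ => (Denumerable.ofNat Code p.1).evaln p.2
      (selfRef_cnt p.2 (Denumerable.ofNat Code p.1) p.2 - 1)) :=
    Code.primrec_evaln.comp (Primrec.pair (Primrec.pair Primrec.snd hc) (Primrec.pred.comp hn))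
  have hb : Primrec (fun p : ℕ × ℕ => ((Denumerable.ofNat Code p.1).evaln p.2
      (selfRef_cnt p.2 (Denumerable.ofNat Code p.1) p.2 - 1)).bind
        (fun y => (Encodable.decode y : Option (List ℕ)))) :=
    Primrec.option_bind he (Primrec.decode.comp Primrec.snd)
  exact Primrec.cond ((Primrec.eq.comp hn (Primrec.const 0)).decide) (Primrec.const z)
    (Primrec.option_getD.comp hb (Primrec.const z))

private def selfRef_L (z : List ℕ) (k : ℕ) : List (List ℕ) :=
  (List.range (k + 1)).map (fun e => selfRef_val z e k)

private theorem selfRef_L_primrec (z : List ℕ) : Primrec (selfRef_L z) :=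
  Primrec.list_map (Primrec.list_range.comp Primrec.succ)
    ((selfRef_val_primrec z).comp (Primrec.pair Primrec.snd Primrec.fst))

private theorem selfRef_encLL_primrec : Primrec encLL :=
  Primrec.list_flatMap Primrec.id
    (Primrec.list_cons.comp (Primrec.list_length.comp Primrec.snd) Primrec.snd)

private theorem selfRef_L_getD (z : List ℕ) (k e : ℕ) :
    (selfRef_L z k).getD e z = if e ≤ k then selfRef_val z e k else z := by
  unfold selfRef_L
  by_cases h : e ≤ k
  · rw [if_pos h, List.getD_eq_getElem?_getD, List.getElem?_map, List.getElem?_range (by omega)]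
    rfl
  · rw [if_neg h, List.getD_eq_default]
    simp; omega

private theorem selfRef_map_computable {D : ℕ → ℕ → List ℕ} (hD : Computable₂ D) :
    Computable₂ (fun e j => (List.range j).map (D e)) := by
  have h : Computable (fun p : ℕ × ℕ => (Nat.rec [] (fun n IH => IH ++ [D p.1 n]) p.2 :
      List (List ℕ))) := by
    have h1 : Computable (fun q : (ℕ × ℕ) × (ℕ × List (List ℕ)) => D q.1.1 q.2.1) :=
      hD.comp (Computable.fst.comp Computable.fst) (Computable.fst.comp Computable.snd)
    have h2 : Computable₂ (fun (p : ℕ × ℕ) (q : ℕ × List (List ℕ)) => q.2 ++ [D p.1 q.1]) :=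
      Computable.list_concat.comp (Computable.snd.comp Computable.snd) h1
    exact Computable.nat_rec Computable.snd (Computable.const []) h2
  refine h.of_eq ?_
  rintro ⟨e, j⟩
  induction j with
  | zero => rfl
  | succ j ih =>
    show (Nat.rec [] (fun n IH => IH ++ [D e n]) j : List (List ℕ)) ++ [D e j] = _
    rw [show (Nat.rec [] (fun n IH => IH ++ [D e n]) j : List (List ℕ)) =
      (List.range j).map (D e) from ih]
    show _ = (List.range (j + 1)).map (D e)
    rw [List.range_succ, List.map_append]
    rfl

theorem self_ref (Ψ : List (List ℕ) → List ℕ) (hΨ : Computable Ψ) :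
    ∃ (d : ℕ → List ℕ) (κ : ℕ → ℕ), (∀ n, d n = Ψ ((List.range (κ n)).map d)) ∧
      Tendsto κ atTop atTop ∧ (∀ n, κ n ≤ cap n) ∧ Computable d ∧ Computable κ ∧ LinTab d := by
  obtain ⟨g, hg, hgt, hgc, hlin⟩ := slow_tab (fun k => encLL (selfRef_L (Ψ []) k))
    (selfRef_encLL_primrec.comp (selfRef_L_primrec (Ψ []))).to_comp
  have hD : Computable₂ (fun e n => (selfRef_L (Ψ []) (g n)).getD e (Ψ [])) :=
    (Primrec.list_getD (Ψ [])).to_comp.comp
      ((selfRef_L_primrec (Ψ [])).to_comp.comp (hg.comp Computable.snd)) Computable.fst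
  have hF := selfRef_map_computable hD
  have hf : Partrec₂ (fun (c : Code) (j : ℕ) => (Part.some (Encodable.encode (Ψ
      ((List.range j).map (fun n => (selfRef_L (Ψ []) (g n)).getD (Encodable.encode c)
        (Ψ []))))) : Part ℕ)) := by
    have h1 : Computable (fun p : Code × ℕ => Encodable.encode (Ψ
      ((List.range p.2).map (fun n => (selfRef_L (Ψ []) (g n)).getD (Encodable.encode p.1)
        (Ψ []))))) :=
      Computable.encode.comp (hΨ.comp (hF.comp (Computable.encode.comp Computable.fst)
        Computable.snd))
    exact h1.partrec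
  obtain ⟨c, hc⟩ := Code.fixed_point₂ hf
  have hcj : ∀ j, c.eval j = Part.some (Encodable.encode (Ψ
      ((List.range j).map (fun n => (selfRef_L (Ψ []) (g n)).getD (Encodable.encode c)
        (Ψ []))))) := fun j => congrFun hc j
  have hdn : ∀ n, (selfRef_L (Ψ []) (g n)).getD (Encodable.encode c) (Ψ []) =
      if Encodable.encode c ≤ g n then selfRef_val (Ψ []) (Encodable.encode c) (g n)
      else Ψ [] := fun n => selfRef_L_getD _ _ _
  refine ⟨fun n => (selfRef_L (Ψ []) (g n)).getD (Encodable.encode c) (Ψ []),
    fun n => bif decide (Encodable.encode c ≤ g n) then selfRef_cnt (g n) c (g n) - 1 else 0,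
    ?_, ?_, ?_, ?_, ?_, ?_⟩
  · intro n
    show (selfRef_L (Ψ []) (g n)).getD (Encodable.encode c) (Ψ []) = _
    rw [hdn n]
    by_cases h : Encodable.encode c ≤ g n
    · rw [if_pos h]
      simp only [h, decide_true, cond_true]
      unfold selfRef_val
      rw [Denumerable.ofNat_encode]
      by_cases h0 : selfRef_cnt (g n) c (g n) = 0
      · simp [h0]
      · simp only [h0, decide_false, cond_false]
        have h1 := selfRef_cnt_some (g n) c (g n) (selfRef_cnt (g n) c (g n) - 1) (by omega)
        obtain ⟨y, hy⟩ := Option.isSome_iff_exists.1 h1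
        rw [hy]
        have h2 : y ∈ c.eval (selfRef_cnt (g n) c (g n) - 1) := Code.evaln_sound hy
        rw [hcj, Part.mem_some_iff] at h2
        rw [h2]
        simp
    · rw [if_neg h]
      simp [h]
  · rw [tendsto_atTop]
    intro N
    have h1 : ∃ K, ∀ k ≥ K, ∀ i < N + 1, (c.evaln k i).isSome = true := by
      have h2 : ∀ i, ∃ K, ∀ k ≥ K, (c.evaln k i).isSome = true := by
        intro i
        have h3 : (Encodable.encode (Ψ ((List.range i).map (fun n =>
            (selfRef_L (Ψ []) (g n)).getD (Encodable.encode c) (Ψ []))))) ∈ c.eval i := by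
          rw [hcj]; exact Part.mem_some _
        obtain ⟨K, hK⟩ := Code.evaln_complete.1 h3
        refine ⟨K, fun k hk => ?_⟩
        rw [Option.isSome_iff_exists]
        exact ⟨_, Code.evaln_mono hk hK⟩
      choose K hK using h2
      refine ⟨(Finset.range (N + 1)).sup K, fun k hk i hi => hK i k (le_trans ?_ hk)⟩
      exact Finset.le_sup (f := K) (Finset.mem_range.2 hi)
    obtain ⟨K, hK⟩ := h1
    filter_upwards [hgt.eventually_ge_atTop (max K (max (Encodable.encode c) (N + 1)))] with n hn
    have a1 : K ≤ g n := le_trans (le_max_left _ _) hn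
    have a2 : Encodable.encode c ≤ g n :=
      le_trans (le_trans (le_max_left _ _) (le_max_right _ _)) hn
    have a3 : N + 1 ≤ g n := le_trans (le_trans (le_max_right _ _) (le_max_right _ _)) hn
    simp only [a2, decide_true, cond_true]
    have := selfRef_cnt_ge (g n) c (N + 1) (hK (g n) a1) (g n)
    omega
  · intro n
    have h1 := hgc n
    have h2 := selfRef_cnt_le (g n) c (g n)
    show (bif decide (Encodable.encode c ≤ g n) then selfRef_cnt (g n) c (g n) - 1 else 0) ≤ _
    cases decide (Encodable.encode c ≤ g n)
    · simp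
    · simp only [cond_true]; omega
  · exact hD.comp (Computable.const _) Computable.id
  · have h1 : Computable (fun n => selfRef_cnt (g n) c (g n)) :=
      selfRef_cnt_primrec.to_comp.comp (Computable.pair hg (Computable.const c))
    have h2 : Computable (fun n => decide (Encodable.encode c ≤ g n)) :=
      (Primrec.nat_le.comp (Primrec.const (Encodable.encode c)) Primrec.id).decide.to_comp.comp hg
    exact Computable.cond h2 (Computable.pred.comp h1) (Computable.const 0)
  · exact lin_getD (fun n => selfRef_L (Ψ []) (g n)) hlin (Encodable.encode c) (Ψ [])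

end Pool.Agent.H71.CT
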