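import Pool.Agent.H71.CT.Boards

/-! The loop over the functions in one step of the old phase. -/

namespace Pool.Agent.H71.CT

private theorem lo_sv (σ : St) (v w : ℕ) (z : ℤ) : (σ.sv v z).v w = if w = v then z else σ.v w := by
  simp [St.sv, Function.update_apply]

private theorem lo_sva (σ : St) (v : ℕ) (z : ℤ) : (σ.sv v z).a = σ.a := rfl

private theorem lo_svi (σ : St) (v : ℕ) (z : ℤ) : (σ.sv v z).inp = σ.inp := rfl

private theorem lo_svo (σ : St) (v : ℕ) (z : ℤ) : (σ.sv v z).out = σ.out := rfl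

private theorem lo_sav (σ : St) (a i : ℕ) (z : ℤ) : (σ.sa a i z).v = σ.v := rfl

private theorem lo_sai (σ : St) (a i : ℕ) (z : ℤ) : (σ.sa a i z).inp = σ.inp := rfl

private theorem lo_sao (σ : St) (a i : ℕ) (z : ℤ) : (σ.sa a i z).out = σ.out := rfl

private theorem lo_sa (σ : St) (a b i j : ℕ) (z : ℤ) :
    (σ.sa a i z).a b j = if b = a then (if j = i then z else σ.a a j) else σ.a b j := by
  by_cases h : b = a
  · subst h
    simp [St.sa, Function.update_apply]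
  · simp [St.sa, h, Function.update_of_ne h]

private theorem lo_add (σ : St) (v a b : ℕ) : Reach (.add v a b) σ 1 (σ.sv v (σ.v a + σ.v b)) :=
  ⟨1, le_rfl, Big.add σ v a b⟩

private theorem lo_sub (σ : St) (v a b : ℕ) : Reach (.sub v a b) σ 1 (σ.sv v (σ.v a - σ.v b)) :=
  ⟨1, le_rfl, Big.sub σ v a b⟩

private theorem lo_const (σ : St) (v : ℕ) (c : ℤ) : Reach (.const v c) σ 1 (σ.sv v c) :=
  ⟨1, le_rfl, Big.const σ v c⟩

private theorem lo_mov (σ : St) (v a : ℕ) : Reach (.mov v a) σ 1 (σ.sv v (σ.v a)) :=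
  ⟨1, le_rfl, Big.mov σ v a⟩

private theorem lo_get (σ : St) (v a i : ℕ) :
    Reach (.get v a i) σ 1 (σ.sv v (σ.a a (σ.v i).toNat)) := ⟨1, le_rfl, Big.get σ v a i⟩

private theorem lo_put (σ : St) (a i v : ℕ) :
    Reach (.put a i v) σ 1 (σ.sa a (σ.v i).toNat (σ.v v)) := ⟨1, le_rfl, Big.put σ a i v⟩

/-- the part of the loop that updates the code -/
private theorem lo_mid (cv : ℕ) (h7 : 100 ≤ cv) (σ : St) (x : ℤ) (h44 : σ.v 44 = 1)
    (h47 : σ.v 47 = x) (d : ℕ) (hc : σ.v cv = d) :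
    ∃ τ, Reach (.ite 46 (.seq (.add cv cv cv) (.seq (.add 48 47 44)
        (.ite 48 (.add cv cv 44) .skip))) .skip) σ 5 τ ∧
      τ.v cv = (if 0 < σ.v 46 then ((2 * d + (decide (0 ≤ x)).toNat : ℕ) : ℤ) else (d : ℤ)) ∧
      (∀ v, v ≠ cv → v ≠ 48 → τ.v v = σ.v v) ∧ τ.a = σ.a ∧ τ.inp = σ.inp ∧ τ.out = σ.out := by
  have n44 : (44 : ℕ) ≠ cv := by omega
  have n47 : (47 : ℕ) ≠ cv := by omega
  have n48 : cv ≠ 48 := by omega
  by_cases h46 : 0 < σ.v 46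
  · rw [if_pos h46]
    let σ1 := σ.sv cv (σ.v cv + σ.v cv)
    let σ2 := σ1.sv 48 (σ1.v 47 + σ1.v 44)
    have e48 : σ2.v 48 = x + 1 := by
      simp [σ2, σ1, lo_sv, n44, n47, h44, h47]
    have ecv : σ2.v cv = d + d := by
      simp [σ2, σ1, lo_sv, n48, hc]
    have e44 : σ2.v 44 = 1 := by
      simp [σ2, σ1, lo_sv, n44, h44]
    by_cases hx : 0 ≤ x
    · refine ⟨σ2.sv cv (σ2.v cv + σ2.v 44), ?_, ?_, ?_, rfl, rfl, rfl⟩
      · refine (Reach.ite_pos h46 ((lo_add σ cv cv cv).seq ((lo_add σ1 48 47 44).seq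
          (Reach.ite_pos ?_ (lo_add σ2 cv cv 44))))).mono (by norm_num)
        change 0 < σ2.v 48
        rw [e48]
        omega
      · rw [lo_sv, if_pos rfl, ecv, e44]
        simp [hx]
        ring
      · intro v hv hv'
        simp [σ2, σ1, lo_sv, hv, hv']
    · refine ⟨σ2, ?_, ?_, ?_, rfl, rfl, rfl⟩
      · refine (Reach.ite_pos h46 ((lo_add σ cv cv cv).seq ((lo_add σ1 48 47 44).seq
          (Reach.ite_neg ?_ (Reach.skip σ2))))).mono (by norm_num)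
        change ¬ 0 < σ2.v 48
        rw [e48]
        omega
      · rw [ecv]
        simp [hx]
        ring
      · intro v hv hv'
        simp [σ2, σ1, lo_sv, hv, hv']
  · rw [if_neg h46]
    exact ⟨σ, (Reach.ite_neg h46 (Reach.skip σ)).mono (by norm_num), hc, fun _ _ _ => rfl,
      rfl, rfl, rfl⟩

/-- Old phase: the bits are read off from the array `ev` of old stopping times (negative: not yet
stopped); `ev` is copied to `en`. -/
theorem loop_old (ev en cv lv cpv : ℕ) (h1 : 10 ≤ ev) (h2 : 10 ≤ en) (h3 : ev ≠ en)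
    (h7 : 100 ≤ cv) (h8 : 100 ≤ lv) (h9 : 100 ≤ cpv) (h11 : cv ≠ lv) (h12 : cv ≠ cpv) :
    ∃ (p : Stmt) (κ : ℕ), ∀ (σ : St) (K c cp : ℕ) (w : ℕ → ℤ),
      σ.v cv = c → σ.v lv = K → σ.v cpv = cp → K ≤ cp → (∀ v < cp, σ.a ev v = w v) →
      ∃ τ, Reach p σ (κ * (cp + 1)) τ ∧
        τ.v cv = cst (fun v _ => decide (0 ≤ w v)) c K ∧ (∀ v < cp, τ.a en v = w v) ∧
        Fr ({v | 43 ≤ v ∧ v < 100} ∪ {cv}) {en} σ τ := by
  let mid : Stmt := .ite 46 (.seq (.add cv cv cv) (.seq (.add 48 47 44)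
        (.ite 48 (.add cv cv 44) .skip))) .skip
  let body : Stmt := .seq (.get 47 ev 43) (.seq (.put en 43 47) (.seq mid
    (.seq (.add 43 43 44) (.seq (.sub 45 45 44) (.sub 46 46 44)))))
  refine ⟨.seq (.const 43 0) (.seq (.const 44 1) (.seq (.mov 45 cpv) (.seq (.mov 46 lv)
    (.whl 45 body)))), 20, ?_⟩
  intro σ K c cp w hc hK hcp hle hw
  have n43 : (43 : ℕ) ≠ cv := by omega
  have n44 : (44 : ℕ) ≠ cv := by omega
  have n45 : (45 : ℕ) ≠ cv := by omega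
  have n46 : (46 : ℕ) ≠ cv := by omega
  have c43 : cv ≠ 43 := by omega
  have c44 : cv ≠ 44 := by omega
  have c45 : cv ≠ 45 := by omega
  have c46 : cv ≠ 46 := by omega
  have c47 : cv ≠ 47 := by omega
  have p43 : cpv ≠ 43 := by omega
  have p44 : cpv ≠ 44 := by omega
  have l43 : lv ≠ 43 := by omega
  have l44 : lv ≠ 44 := by omega
  have l45 : lv ≠ 45 := by omega
  set bit : ℕ → ℕ → Bool := fun v _ => decide (0 ≤ w v) with hbit
  set VS : Set ℕ := {v | 43 ≤ v ∧ v < 100} ∪ {cv} with hVS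
  have inVS : ∀ v ∉ VS, v ≠ 43 ∧ v ≠ 44 ∧ v ≠ 45 ∧ v ≠ 46 ∧ v ≠ 47 ∧ v ≠ 48 ∧ v ≠ cv := by
    intro v hv
    simp only [hVS, Set.mem_union, Set.mem_setOf_eq, Set.mem_singleton_iff, not_or] at hv
    omega
  let I : ℕ → St → Prop := fun j ρ => ρ.v 43 = j ∧ ρ.v 44 = 1 ∧ ρ.v 45 = (cp : ℤ) - j ∧
    ρ.v 46 = (K : ℤ) - j ∧ ρ.v cv = cst bit c (min j K) ∧ (∀ v < j, ρ.a en v = w v) ∧
    Fr VS {en} σ ρ
  have hstep : ∀ j < cp, ∀ ρ, I j ρ → ∃ τ, Reach body ρ 10 τ ∧ I (j + 1) τ := by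
    rintro j hj ρ ⟨i43, i44, i45, i46, icv, ien, ifr⟩
    have hev : ρ.a ev = σ.a ev := ifr.a ev (by simpa using h3)
    have g1 : ρ.a ev (ρ.v 43).toNat = w j := by
      rw [i43, hev, Int.toNat_natCast, hw j hj]
    set ρ1 := ρ.sv 47 (ρ.a ev (ρ.v 43).toNat) with hρ1
    set ρ2 := ρ1.sa en (ρ1.v 43).toNat (ρ1.v 47) with hρ2
    have e1 : ρ1.v 47 = w j := by rw [hρ1, lo_sv, if_pos rfl, g1]
    have e2 : ρ1.v 43 = j := by rw [hρ1, lo_sv, if_neg (by norm_num), i43]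
    have a44 : ρ2.v 44 = 1 := by rw [hρ2, lo_sav, hρ1, lo_sv, if_neg (by norm_num), i44]
    have a47 : ρ2.v 47 = w j := by rw [hρ2, lo_sav, e1]
    have acv : ρ2.v cv = cst bit c (min j K) := by
      rw [hρ2, lo_sav, hρ1, lo_sv, if_neg c47, icv]
    have a46 : ρ2.v 46 = (K : ℤ) - j := by
      rw [hρ2, lo_sav, hρ1, lo_sv, if_neg (by norm_num), i46]
    have a45 : ρ2.v 45 = (cp : ℤ) - j := by
      rw [hρ2, lo_sav, hρ1, lo_sv, if_neg (by norm_num), i45]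
    have a43 : ρ2.v 43 = j := by rw [hρ2, lo_sav, e2]
    obtain ⟨ρ3, r3, m1, m2, m3, m4, m5⟩ := lo_mid cv h7 ρ2 (w j) a44 a47 _ acv
    have b43 : ρ3.v 43 = j := by rw [m2 43 n43 (by norm_num), a43]
    have b44 : ρ3.v 44 = 1 := by rw [m2 44 n44 (by norm_num), a44]
    have b45 : ρ3.v 45 = (cp : ℤ) - j := by rw [m2 45 n45 (by norm_num), a45]
    have b46 : ρ3.v 46 = (K : ℤ) - j := by rw [m2 46 n46 (by norm_num), a46]
    have bcv : ρ3.v cv = cst bit c (min (j + 1) K) := by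
      rw [m1, a46]
      by_cases hjK : j < K
      · have : (0 : ℤ) < (K : ℤ) - j := by omega
        rw [if_pos this, min_eq_left (by omega : j ≤ K), min_eq_left (by omega : j + 1 ≤ K)]
        rfl
      · have : ¬ (0 : ℤ) < (K : ℤ) - j := by omega
        rw [if_neg this, min_eq_right (by omega : K ≤ j), min_eq_right (by omega : K ≤ j + 1)]
    set ρ4 := ρ3.sv 43 (ρ3.v 43 + ρ3.v 44) with hρ4
    set ρ5 := ρ4.sv 45 (ρ4.v 45 - ρ4.v 44) with hρ5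
    set ρ6 := ρ5.sv 46 (ρ5.v 46 - ρ5.v 44) with hρ6
    refine ⟨ρ6, ?_, ?_, ?_, ?_, ?_, ?_, ?_, ?_⟩
    · exact ((lo_get ρ 47 ev 43).seq ((lo_put ρ1 en 43 47).seq (r3.seq ((lo_add ρ3 43 43 44).seq
        ((lo_sub ρ4 45 45 44).seq (lo_sub ρ5 46 46 44)))))).mono (by norm_num)
    · simp [hρ6, hρ5, hρ4, lo_sv, b43, b44]
    · simp [hρ6, hρ5, hρ4, lo_sv, b44]
    · simp only [hρ6, hρ5, hρ4, lo_sv, b45, b44]
      norm_num
      ring
    · simp only [hρ6, hρ5, hρ4, lo_sv, b46, b44]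
      norm_num
      ring
    · simp [hρ6, hρ5, hρ4, lo_sv, c43, c45, c46, bcv]
    · intro v hv
      have : ρ6.a en v = ρ2.a en v := by
        rw [hρ6, hρ5, hρ4, lo_sva, lo_sva, lo_sva, m3]
      rw [this, hρ2, lo_sa, if_pos rfl, e2, Int.toNat_natCast, e1]
      by_cases hvj : v = j
      · rw [if_pos hvj, hvj]
      · rw [if_neg hvj, hρ1, lo_sva]
        exact ien v (by omega)
    · refine ifr.trans ⟨?_, ?_, ?_, ?_⟩
      · intro v hv
        obtain ⟨q1, q2, q3, q4, q5, q6, q7⟩ := inVS v hv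
        rw [hρ6, hρ5, hρ4, lo_sv, if_neg q4, lo_sv, if_neg q3, lo_sv, if_neg q1, m2 v q7 q6,
          hρ2, lo_sav, hρ1, lo_sv, if_neg q5]
      · intro a ha
        have ha' : a ≠ en := by simpa using ha
        funext i
        rw [hρ6, hρ5, hρ4, lo_sva, lo_sva, lo_sva, m3, hρ2, lo_sa, if_neg ha', hρ1, lo_sva]
      · rw [hρ6, hρ5, hρ4, lo_svi, lo_svi, lo_svi, m4, hρ2, lo_sai, hρ1, lo_svi]
      · rw [hρ6, hρ5, hρ4, lo_svo, lo_svo, lo_svo, m5, hρ2, lo_sao, hρ1, lo_svo]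
  set σ1 := σ.sv 43 0 with hσ1
  set σ2 := σ1.sv 44 1 with hσ2
  set σ3 := σ2.sv 45 (σ2.v cpv) with hσ3
  set σ4 := σ3.sv 46 (σ3.v lv) with hσ4
  have hI0 : I 0 σ4 := by
    refine ⟨?_, ?_, ?_, ?_, ?_, ?_, ?_⟩
    · simp [hσ4, hσ3, hσ2, hσ1, lo_sv]
    · simp [hσ4, hσ3, hσ2, hσ1, lo_sv]
    · simp [hσ4, hσ3, hσ2, hσ1, lo_sv, p43, p44, hcp]
    · simp [hσ4, hσ3, hσ2, hσ1, lo_sv, l43, l44, l45, hK]
    · simp [hσ4, hσ3, hσ2, hσ1, lo_sv, c43, c44, c45, c46, hc, cst]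
    · intro v hv
      omega
    · refine ⟨?_, fun _ _ => rfl, rfl, rfl⟩
      intro v hv
      obtain ⟨q1, q2, q3, q4, q5, q6, q7⟩ := inVS v hv
      simp [hσ4, hσ3, hσ2, hσ1, lo_sv, q1, q2, q3, q4]
  obtain ⟨τ, rτ, t43, t44, t45, t46, tcv, ten, tfr⟩ := Reach.loop (v := 45) (s := body) cp I
    (fun _ => 10)
    (by
      rintro j hj ρ ⟨-, -, i45, -⟩
      rw [i45]
      omega)
    (by
      rintro ρ ⟨-, -, i45, -⟩
      rw [i45]
      omega) hstep σ4 hI0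
  refine ⟨τ, ?_, ?_, ten, tfr⟩
  · refine ((lo_const σ 43 0).seq ((lo_const σ1 44 1).seq ((lo_mov σ2 45 cpv).seq
      ((lo_mov σ3 46 lv).seq rτ)))).mono ?_
    simp only [Finset.sum_const, Finset.card_range, smul_eq_mul]
    omega
  · rw [tcv, min_eq_right hle]

end Pool.Agent.H71.CT
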