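import Pool.Agent.H71.CT.Env

/-! Computing `s0 n`, `cap n`, `bud n` in linear time. -/

namespace Pool.Agent.H71.CT

private theorem prp_fr {VS AS : Set ℕ} {σ τ : St} {v : ℕ} (h : Fr VS AS σ τ) (hv : v ∈ VS) (z : ℤ) :
    Fr VS AS σ (τ.sv v z) := by
  refine ⟨fun w hw => ?_, h.a, h.inp, h.out⟩
  have : w ≠ v := fun e => hw (e ▸ hv)
  rw [← h.v w hw]
  simp [St.sv, Function.update_of_ne this]

private theorem prp_same (σ : St) (v : ℕ) (z : ℤ) : (σ.sv v z).v v = z := by simp [St.sv]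

private theorem prp_v (σ : St) (v w : ℕ) (z : ℤ) :
    (σ.sv v z).v w = if w = v then z else σ.v w := by
  simp [St.sv, Function.update_apply]

private theorem prp_ne (σ : St) {v w : ℕ} (h : w ≠ v) (z : ℤ) : (σ.sv v z).v w = σ.v w := by
  simp [St.sv, Function.update_of_ne h]

/-- `r := size a`; 46 holds one, scratch 47, 48 -/
private def szl (a r : ℕ) : Stmt :=
  blk [.const 47 1, .const r 0, .add 48 a 46, .sub 48 48 47,
    .whl 48 (blk [.add 47 47 47, .add r r 46, .add 48 a 46, .sub 48 48 47])]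

private theorem szl_spec (a r : ℕ) (ha : a ≠ 47 ∧ a ≠ 48 ∧ a ≠ r) (hr : r ≠ 46 ∧ r ≠ 47 ∧ r ≠ 48)
    (σ : St) (m : ℕ) (h1 : σ.v 46 = 1) (hm : σ.v a = m) :
    ∃ τ, Reach (szl a r) σ (5 * Nat.size m + 5) τ ∧ τ.v r = Nat.size m ∧
      Fr {v | v = 47 ∨ v = 48 ∨ v = r} ∅ σ τ := by
  obtain ⟨ha1, ha2, ha3⟩ := ha
  obtain ⟨hr1, hr2, hr3⟩ := hr
  set VS : Set ℕ := {v | v = 47 ∨ v = 48 ∨ v = r} with hVS
  have m47 : (47 : ℕ) ∈ VS := by simp [hVS]
  have m48 : (48 : ℕ) ∈ VS := by simp [hVS]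
  have mr : r ∈ VS := by simp [hVS]
  have n46 : (46 : ℕ) ∉ VS := by
    simp only [hVS, Set.mem_ofPred_eq, not_or]
    exact ⟨by norm_num, by norm_num, fun h => hr1 h.symm⟩
  have na : a ∉ VS := by
    simp only [hVS, Set.mem_ofPred_eq, not_or]
    exact ⟨ha1, ha2, ha3⟩
  let I : ℕ → St → Prop := fun j τ =>
    τ.v 47 = 2 ^ j ∧ τ.v r = j ∧ τ.v 48 = (m : ℤ) + 1 - 2 ^ j ∧ Fr VS ∅ σ τ
  obtain ⟨τ, hτ, hI⟩ := Reach.loop (v := 48)
    (s := blk [.add 47 47 47, .add r r 46, .add 48 a 46, .sub 48 48 47]) (Nat.size m) I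
    (fun _ => 4) (by
      rintro j hj τ ⟨-, -, h, -⟩
      have h2 : 2 ^ j ≤ m := Nat.lt_size.1 hj
      have h3 : (2 : ℤ) ^ j ≤ m := by exact_mod_cast h2
      rw [h]
      omega) (by
      rintro τ ⟨-, -, h, -⟩
      have h2 : m < 2 ^ Nat.size m := Nat.lt_size_self m
      have h3 : (m : ℤ) < 2 ^ Nat.size m := by exact_mod_cast h2
      rw [h]
      omega) (by
      rintro j hj τ ⟨e47, er, e48, hF⟩
      refine ⟨_, ⟨4, le_rfl, Big.seq (Big.add _ _ _ _) (Big.seq (Big.add _ _ _ _)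
        (Big.seq (Big.add _ _ _ _) (Big.seq (Big.sub _ _ _ _) (Big.skip _))))⟩, ?_, ?_, ?_, ?_⟩
      · simp only [prp_v, e47, hr2.symm, if_true, if_false,
          show (47 : ℕ) ≠ 48 by norm_num]
        ring
      · simp only [prp_v, er, hr3, hr2, hr1.symm, if_true, if_false,
          show (46 : ℕ) ≠ 47 by norm_num, hF.v 46 n46, h1]
        push_cast
        ring
      · simp only [prp_v, e47, ha1, ha3, hr1.symm, hr2.symm, if_true, if_false,
          show (46 : ℕ) ≠ 47 by norm_num, show (47 : ℕ) ≠ 48 by norm_num,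
          hF.v 46 n46, h1, hF.v a na, hm]
        ring
      · exact prp_fr (prp_fr (prp_fr (prp_fr hF m47 _) mr _) m48 _) m48 _)
    ((((σ.sv 47 1).sv r 0).sv 48 ((m : ℤ) + 1)).sv 48 ((m : ℤ) + 1 - 1)) (by
      refine ⟨?_, ?_, ?_, ?_⟩
      · rw [prp_ne _ (by norm_num), prp_ne _ (by norm_num), prp_ne _ hr2.symm, prp_same]
        simp
      · rw [prp_ne _ hr3, prp_ne _ hr3, prp_same]
        simp
      · rw [prp_same]
        simp
      · exact prp_fr (prp_fr (prp_fr (prp_fr (Fr.refl _ _ _) m47 _) mr _) m48 _) m48 _)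
  refine ⟨τ, ?_, hI.2.1, hI.2.2.2⟩
  obtain ⟨c, hc, hb⟩ := hτ
  refine ⟨1 + (1 + (1 + (1 + (c + 0)))), ?_, ?_⟩
  · simp only [Finset.sum_const, Finset.card_range, smul_eq_mul] at hc
    omega
  · have b3 : Big (.add 48 a 46) ((σ.sv 47 1).sv r 0) 1
        (((σ.sv 47 1).sv r 0).sv 48 ((m : ℤ) + 1)) := by
      have := Big.add ((σ.sv 47 1).sv r 0) 48 a 46
      rwa [prp_ne _ ha3, prp_ne _ ha1, prp_ne _ hr1.symm, prp_ne _ (by norm_num), h1, hm] at this
    have b4 : Big (.sub 48 48 47) (((σ.sv 47 1).sv r 0).sv 48 ((m : ℤ) + 1)) 1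
        ((((σ.sv 47 1).sv r 0).sv 48 ((m : ℤ) + 1)).sv 48 ((m : ℤ) + 1 - 1)) := by
      have := Big.sub (((σ.sv 47 1).sv r 0).sv 48 ((m : ℤ) + 1)) 48 48 47
      rwa [prp_same, prp_ne _ (by norm_num), prp_ne _ hr2.symm, prp_same] at this
    exact Big.seq (Big.const _ _ _) (Big.seq (Big.const _ _ _) (Big.seq b3 (Big.seq b4
      (Big.seq hb (Big.skip _)))))

/-- `45 := 2 ^ (v_43 / 2)`; 46 holds one, scratch 47, 48, 49 -/
private def bdl : Stmt :=
  blk [.mov 49 43, .const 45 1, .sub 48 49 46,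
    .whl 48 (blk [.add 45 45 45, .sub 49 49 46, .sub 49 49 46, .sub 48 49 46])]

private theorem bdl_spec (σ : St) (m : ℕ) (h1 : σ.v 46 = 1) (hm : σ.v 43 = m) :
    ∃ τ, Reach bdl σ (5 * (m / 2) + 4) τ ∧ τ.v 45 = 2 ^ (m / 2) ∧
      Fr {v | v = 45 ∨ v = 48 ∨ v = 49} ∅ σ τ := by
  set VS : Set ℕ := {v | v = 45 ∨ v = 48 ∨ v = 49} with hVS
  have m45 : (45 : ℕ) ∈ VS := by simp [hVS]
  have m48 : (48 : ℕ) ∈ VS := by simp [hVS]
  have m49 : (49 : ℕ) ∈ VS := by simp [hVS]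
  have n46 : (46 : ℕ) ∉ VS := by simp [hVS]
  let I : ℕ → St → Prop := fun j τ =>
    τ.v 45 = 2 ^ j ∧ τ.v 49 = (m : ℤ) - 2 * j ∧ τ.v 48 = (m : ℤ) - 2 * j - 1 ∧ Fr VS ∅ σ τ
  obtain ⟨τ, hτ, hI⟩ := Reach.loop (v := 48)
    (s := blk [.add 45 45 45, .sub 49 49 46, .sub 49 49 46, .sub 48 49 46]) (m / 2) I
    (fun _ => 4) (by
      rintro j hj τ ⟨-, -, h, -⟩
      rw [h]
      omega) (by
      rintro τ ⟨-, -, h, -⟩
      rw [h]
      omega) (by
      rintro j hj τ ⟨e45, e49, e48, hF⟩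
      refine ⟨_, ⟨4, le_rfl, Big.seq (Big.add _ _ _ _) (Big.seq (Big.sub _ _ _ _)
        (Big.seq (Big.sub _ _ _ _) (Big.seq (Big.sub _ _ _ _) (Big.skip _))))⟩, ?_, ?_, ?_, ?_⟩
      · simp [prp_v, e45]
        ring
      · simp [prp_v, e49, hF.v 46 n46, h1]
        ring
      · simp [prp_v, e49, hF.v 46 n46, h1]
        ring
      · exact prp_fr (prp_fr (prp_fr (prp_fr hF m45 _) m49 _) m49 _) m48 _)
    (((σ.sv 49 (m : ℤ)).sv 45 1).sv 48 ((m : ℤ) - 1)) (by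
      refine ⟨?_, ?_, ?_, ?_⟩
      · rw [prp_ne _ (by norm_num), prp_same]
        simp
      · rw [prp_ne _ (by norm_num), prp_ne _ (by norm_num), prp_same]
        simp
      · rw [prp_same]
        simp
      · exact prp_fr (prp_fr (prp_fr (Fr.refl _ _ _) m49 _) m45 _) m48 _)
  refine ⟨τ, ?_, hI.1, hI.2.2.2⟩
  obtain ⟨c, hc, hb⟩ := hτ
  refine ⟨1 + (1 + (1 + (c + 0))), ?_, ?_⟩
  · simp only [Finset.sum_const, Finset.card_range, smul_eq_mul] at hc
    omega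
  · have b1 : Big (.mov 49 43) σ 1 (σ.sv 49 (m : ℤ)) := by
      have := Big.mov σ 49 43
      rwa [hm] at this
    have b3 : Big (.sub 48 49 46) ((σ.sv 49 (m : ℤ)).sv 45 1) 1
        (((σ.sv 49 (m : ℤ)).sv 45 1).sv 48 ((m : ℤ) - 1)) := by
      have := Big.sub ((σ.sv 49 (m : ℤ)).sv 45 1) 48 49 46
      rwa [prp_ne _ (by norm_num : (49 : ℕ) ≠ 45), prp_same,
        prp_ne _ (by norm_num : (46 : ℕ) ≠ 45), prp_ne _ (by norm_num : (46 : ℕ) ≠ 49),
        h1] at this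
    exact Big.seq b1 (Big.seq (Big.const _ _ _) (Big.seq b3 (Big.seq hb (Big.skip _))))

private theorem size_le_self (m : ℕ) : Nat.size m ≤ m := by
  rw [Nat.size_le]
  exact Nat.lt_two_pow_self

/-- Results in variables 43, 44, 45; scratch variables 46 ... 59. (Doubling loops:
`pw := 1; k := 0; while pw ≤ n do pw := pw + pw; k := k + 1` computes `Nat.size n`.) -/
theorem prep_spec : ∃ (s : Stmt) (κ : ℕ), ∀ (x : List Bool) (σ : St), Env σ x →
    ∃ τ, Reach s σ (κ * (x.length + 1)) τ ∧ Env τ x ∧ τ.v 43 = s0 x.length ∧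
      τ.v 44 = cap x.length ∧ τ.v 45 = bud x.length ∧
      Fr {v | 43 ≤ v ∧ v < 60} ∅ σ τ := by
  refine ⟨.seq (.const 46 1) (.seq (szl 40 43) (.seq (szl 43 44) bdl)), 20, fun x σ hE => ?_⟩
  have h1 : (σ.sv 46 1).v 46 = 1 := prp_same _ _ _
  have h2 : (σ.sv 46 1).v 40 = (x.length : ℤ) := by rw [prp_ne _ (by norm_num), hE.n]
  obtain ⟨τ₁, r₁, v₁, f₁⟩ := szl_spec 40 43 ⟨by norm_num, by norm_num, by norm_num⟩
    ⟨by norm_num, by norm_num, by norm_num⟩ _ _ h1 h2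
  have h3 : τ₁.v 46 = 1 := by rw [f₁.v 46 (by simp), h1]
  obtain ⟨τ₂, r₂, v₂, f₂⟩ := szl_spec 43 44 ⟨by norm_num, by norm_num, by norm_num⟩
    ⟨by norm_num, by norm_num, by norm_num⟩ _ _ h3 v₁
  have h4 : τ₂.v 46 = 1 := by rw [f₂.v 46 (by simp), h3]
  have h5 : τ₂.v 43 = (Nat.size x.length : ℕ) := by rw [f₂.v 43 (by simp), v₁]
  obtain ⟨τ₃, r₃, v₃, f₃⟩ := bdl_spec _ _ h4 h5
  have hF : Fr {v | 43 ≤ v ∧ v < 60} ∅ σ τ₃ := by
    refine (prp_fr (Fr.refl _ _ σ) (by simp) 1).trans ((f₁.mono ?_ le_rfl).trans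
      ((f₂.mono ?_ le_rfl).trans (f₃.mono ?_ le_rfl))) <;>
    · rintro v hv
      simp only [Set.mem_ofPred_eq] at hv ⊢
      omega
  have hN : ∀ v, (v < 43 ∨ 60 ≤ v) → v ∉ {v | 43 ≤ v ∧ v < 60} := by
    intro v hv
    simp only [Set.mem_ofPred_eq]
    omega
  refine ⟨τ₃, ?_, ⟨?_, ?_, ?_⟩, ?_, ?_, ?_, hF⟩
  · have r₀ : Reach (.const 46 1) σ 1 (σ.sv 46 1) := ⟨1, le_rfl, Big.const _ _ _⟩
    refine (r₀.seq (r₁.seq (r₂.seq r₃))).mono ?_
    have e1 := size_le_self x.length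
    have e2 := size_le_self (Nat.size x.length)
    omega
  · rw [hF.v 40 (hN _ (by norm_num)), hE.n]
  · intro i hi
    rw [hF.a 0 (by simp), hE.inp i hi]
  · refine ⟨?_, fun i => ?_⟩
    · rw [hF.v 8 (hN _ (by norm_num))]
      exact hE.stamps.1
    · rw [hF.v 8 (hN _ (by norm_num)), hF.a 2 (by simp)]
      exact hE.stamps.2 i
  · rw [f₃.v 43 (by simp), h5]
    rfl
  · rw [f₃.v 44 (by simp), v₂]
    rfl
  · rw [v₃]
    simp [bud, s0]

theorem cap_le_s0 (n : ℕ) : cap n ≤ s0 n := size_le_self _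

theorem lt_two_pow_s0 (n : ℕ) : n < 2 ^ s0 n := Nat.lt_size_self n

theorem two_pow_s0_le (n : ℕ) : 2 ^ s0 n ≤ 2 * n + 1 := by
  rcases Nat.eq_zero_or_pos n with h | h
  · subst h
    simp [s0]
  · have h1 : 0 < Nat.size n := Nat.size_pos.2 h
    obtain ⟨k, hk⟩ : ∃ k, Nat.size n = k + 1 := ⟨Nat.size n - 1, by omega⟩
    have h2 : 2 ^ k ≤ n := Nat.lt_size.1 (by omega)
    rw [s0, hk, pow_succ]
    omega

theorem cap_bud_le : ∃ C, ∀ n, (cap n + 1) * (bud n + 1) ≤ C * (n + 1) := by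
  refine ⟨8, fun n => ?_⟩
  have h1 := cap_le_s0 n
  have h2 := two_pow_s0_le n
  set s := s0 n with hs
  have h3 : bud n + 1 ≤ 2 * 2 ^ (s / 2) := by
    have : 1 ≤ 2 ^ (s / 2) := Nat.one_le_two_pow
    simp only [bud, ← hs]
    omega
  have h4 : s + 1 ≤ 2 * 2 ^ (s - s / 2) := by
    have h5 : s - s / 2 < 2 ^ (s - s / 2) := Nat.lt_two_pow_self
    omega
  have h6 : 2 ^ (s / 2) * 2 ^ (s - s / 2) = 2 ^ s := by
    rw [← pow_add]
    congr 1
    omega
  calc (cap n + 1) * (bud n + 1) ≤ (s + 1) * (2 * 2 ^ (s / 2)) :=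
        Nat.mul_le_mul (by omega) h3
    _ ≤ (2 * 2 ^ (s - s / 2)) * (2 * 2 ^ (s / 2)) := Nat.mul_le_mul h4 le_rfl
    _ = 4 * (2 ^ (s / 2) * 2 ^ (s - s / 2)) := by ring
    _ = 4 * 2 ^ s := by rw [h6]
    _ ≤ 8 * (n + 1) := by omega

private theorem tendsto_size : Filter.Tendsto Nat.size Filter.atTop Filter.atTop := by
  refine Filter.tendsto_atTop.2 fun b => ?_
  filter_upwards [Filter.eventually_ge_atTop (2 ^ b)] with n hn
  exact (Nat.lt_size.2 hn).le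

theorem tendsto_cap : Filter.Tendsto cap Filter.atTop Filter.atTop :=
  tendsto_size.comp tendsto_size

theorem tendsto_bud : Filter.Tendsto bud Filter.atTop Filter.atTop := by
  refine Filter.tendsto_atTop.2 fun b => ?_
  filter_upwards [(Filter.tendsto_atTop.1 tendsto_size (2 * b))] with n hn
  have h1 : b < 2 ^ b := Nat.lt_two_pow_self
  have h2 : 2 ^ b ≤ 2 ^ (s0 n / 2) := by
    apply Nat.pow_le_pow_right (by norm_num)
    simp only [s0]
    omega
  simp only [bud]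
  omega

private theorem primrec_pow2 : Primrec (fun n : ℕ => 2 ^ n) := by
  have h : Primrec (fun n : ℕ => (Nat.rec 1 (fun _ ih => ih + ih) n : ℕ)) :=
    Primrec.nat_rec₁ 1 ((Primrec.nat_add.comp Primrec.snd Primrec.snd).to₂)
  refine h.of_eq fun n => ?_
  induction n with
  | zero => rfl
  | succ n ih =>
    simp only at ih ⊢
    rw [ih, pow_succ]
    ring

private theorem primrec_size : Primrec Nat.size := by
  have h : Primrec (fun n : ℕ => (Nat.rec 0 (fun k ih => if 2 ^ k ≤ n then ih + 1 else ih) n : ℕ)) := by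
    refine Primrec.nat_rec' (f := fun n : ℕ => n) (g := fun _ : ℕ => 0)
      (h := fun n (q : ℕ × ℕ) => if 2 ^ q.1 ≤ n then q.2 + 1 else q.2) Primrec.id
      (Primrec.const 0) ?_
    refine Primrec.ite ?_ ?_ ?_
    · exact Primrec.nat_le.comp (primrec_pow2.comp (Primrec.fst.comp Primrec.snd)) Primrec.fst
    · exact Primrec.succ.comp (Primrec.snd.comp Primrec.snd)
    · exact Primrec.snd.comp Primrec.snd
  refine h.of_eq fun n => ?_
  have key : ∀ k : ℕ, (Nat.rec 0 (fun k ih => if 2 ^ k ≤ n then ih + 1 else ih) k : ℕ) =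
      min k (Nat.size n) := by
    intro k
    induction k with
    | zero => simp
    | succ k ih =>
      simp only at ih ⊢
      rw [ih]
      by_cases hk : 2 ^ k ≤ n
      · have : k < Nat.size n := Nat.lt_size.2 hk
        rw [if_pos hk]
        omega
      · have : ¬ k < Nat.size n := fun h => hk (Nat.lt_size.1 h)
        rw [if_neg hk]
        omega
  rw [key n]
  exact min_eq_right (size_le_self n)

theorem computable_s0 : Computable s0 := primrec_size.to_comp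

theorem computable_cap : Computable cap := (primrec_size.comp primrec_size).to_comp

theorem computable_bud : Computable bud :=
  (primrec_pow2.comp (Primrec.nat_div.comp primrec_size (Primrec.const 2))).to_comp

private theorem pow_bd (c : ℕ) : 2 * ((c + 1) * (c + 2)) ≤ 2 ^ c + 60 := by
  have h : ∀ d : ℕ, 2 * ((d + 8 + 1) * (d + 8 + 2)) ≤ 2 ^ (d + 8) := by
    intro d
    induction d with
    | zero => norm_num
    | succ d ih =>
      have : 2 ^ (d + 1 + 8) = 2 * 2 ^ (d + 8) := by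
        rw [show d + 1 + 8 = (d + 8) + 1 by ring, pow_succ]
        ring
      rw [this]
      nlinarith
  rcases Nat.lt_or_ge c 8 with hc | hc
  · interval_cases c <;> norm_num
  · obtain ⟨d, rfl⟩ : ∃ d, c = d + 8 := ⟨c - 8, by omega⟩
    exact (h d).trans (by omega)

/-- the bound for the number of steps of a new phase is at most logarithmic -/
theorem M_cap_le : ∃ C, ∀ n, 2 * (cap n * (cap n + 1)) ≤ s0 n + C := by
  refine ⟨60, fun n => ?_⟩
  rcases Nat.eq_zero_or_pos (cap n) with h | h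
  · rw [h]
    omega
  · obtain ⟨c, hc⟩ : ∃ c, cap n = c + 1 := ⟨cap n - 1, by omega⟩
    have h1 : 2 ^ c ≤ s0 n := Nat.lt_size.1 (by
      have : cap n = Nat.size (s0 n) := rfl
      omega)
    rw [hc]
    have := pow_bd c
    calc 2 * ((c + 1) * (c + 1 + 1)) = 2 * ((c + 1) * (c + 2)) := by ring
      _ ≤ 2 ^ c + 60 := this
      _ ≤ s0 n + 60 := by omega

end Pool.Agent.H71.CT
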