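import Pool.Agent.H71.CT.LoopNew
import Pool.Agent.H71.CT.LoopOld
import Pool.Agent.H71.CT.Prep
import Pool.Agent.H71.CT.TabFacts

/-! Real time realisation of a stage, side with given horizon. -/

namespace Pool.Agent.H71.CT

private theorem StageP_const (σ : St) (v : ℕ) (c : ℤ) : Reach (.const v c) σ 1 (σ.sv v c) :=
  ⟨1, le_rfl, Big.const σ v c⟩

private theorem StageP_mov (σ : St) (v a : ℕ) : Reach (.mov v a) σ 1 (σ.sv v (σ.v a)) :=
  ⟨1, le_rfl, Big.mov σ v a⟩

private theorem StageP_add (σ : St) (v a b : ℕ) :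
    Reach (.add v a b) σ 1 (σ.sv v (σ.v a + σ.v b)) := ⟨1, le_rfl, Big.add σ v a b⟩

private theorem StageP_sub (σ : St) (v a b : ℕ) :
    Reach (.sub v a b) σ 1 (σ.sv v (σ.v a - σ.v b)) := ⟨1, le_rfl, Big.sub σ v a b⟩

private theorem StageP_get (σ : St) (v a i : ℕ) :
    Reach (.get v a i) σ 1 (σ.sv v (σ.a a (σ.v i).toNat)) := ⟨1, le_rfl, Big.get σ v a i⟩

private theorem StageP_put (σ : St) (a i v : ℕ) :
    Reach (.put a i v) σ 1 (σ.sa a (σ.v i).toNat (σ.v v)) := ⟨1, le_rfl, Big.put σ a i v⟩

private theorem StageP_sv_v (σ : St) (v : ℕ) (z : ℤ) (w : ℕ) :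
    (σ.sv v z).v w = if w = v then z else σ.v w := by
  simp only [St.sv, Function.update_apply]

private theorem StageP_sv_a (σ : St) (v : ℕ) (z : ℤ) : (σ.sv v z).a = σ.a := rfl

private theorem StageP_sa_v (σ : St) (a i : ℕ) (z : ℤ) : (σ.sa a i z).v = σ.v := rfl

private theorem StageP_sa_a (σ : St) (a i : ℕ) (z : ℤ) (a' : ℕ) :
    (σ.sa a i z).a a' = if a' = a then Function.update (σ.a a) i z else σ.a a' := by
  simp only [St.sa, Function.update_apply]

private theorem StageP_fr_sv (σ : St) (v : ℕ) (z : ℤ) (VS AS : Set ℕ) (h : v ∈ VS) :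
    Fr VS AS σ (σ.sv v z) := by
  refine ⟨fun w hw => ?_, fun _ _ => rfl, rfl, rfl⟩
  rw [StageP_sv_v, if_neg]
  rintro rfl
  exact hw h

private theorem StageP_fr_sa (σ : St) (a i : ℕ) (z : ℤ) (VS AS : Set ℕ) (h : a ∈ AS) :
    Fr VS AS σ (σ.sa a i z) := by
  refine ⟨fun _ _ => rfl, fun w hw => ?_, rfl, rfl⟩
  rw [StageP_sa_a, if_neg]
  rintro rfl
  exact hw h

private theorem StageP_env {σ τ : St} {x : List Bool} {VS AS : Set ℕ} (h : Env σ x)
    (hf : Fr VS AS σ τ) (h40 : 40 ∉ VS) (h8 : 8 ∉ VS) (h0 : 0 ∉ AS) (h2 : 2 ∉ AS) : Env τ x := by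
  refine ⟨?_, ?_, ?_, ?_⟩
  · rw [hf.v 40 h40]; exact h.n
  · intro i hi
    rw [hf.a 0 h0]; exact h.inp i hi
  · rw [hf.v 8 h8]; exact h.stamps.1
  · intro i
    rw [hf.a 2 h2, hf.v 8 h8]; exact h.stamps.2 i

/-- scratch variables used here -/
private def StageP_SV : Set ℕ := {v | 43 ≤ v ∧ v < 100}

/-- loop over the indices below a bound -/
private theorem StageP_loop (en : ℕ) (g : ℤ → ℤ) (B : Stmt) (κ : ℕ) (cp : ℕ) (Q : St → Prop)
    (hB : ∀ (σ : St) (i : ℕ), σ.v 43 = i → σ.v 44 = 1 → Q σ → ∃ τ, Reach B σ κ τ ∧ τ.v 43 = i ∧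
      τ.v 44 = 1 ∧ Q τ ∧ τ.a en i = g (σ.a en i) ∧ (∀ j, j ≠ i → τ.a en j = σ.a en j) ∧
      Fr StageP_SV {en} σ τ)
    (hQ : ∀ (σ : St) z, Q σ → Q (σ.sv 43 z)) (σ : St) (h43 : σ.v 43 = cp) (h44 : σ.v 44 = 1)
    (hσ : Q σ) :
    ∃ τ, Reach (.whl 43 (blk [.sub 43 43 44, B])) σ ((κ + 2) * (cp + 1)) τ ∧
      (∀ v < cp, τ.a en v = g (σ.a en v)) ∧ Fr StageP_SV {en} σ τ := by
  have key := Reach.loop (v := 43) (s := blk [.sub 43 43 44, B]) cp
    (fun j ρ => ρ.v 43 = ((cp - j : ℕ) : ℤ) ∧ ρ.v 44 = 1 ∧ Q ρ ∧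
      (∀ v, cp - j ≤ v → v < cp → ρ.a en v = g (σ.a en v)) ∧
      (∀ v, v < cp - j → ρ.a en v = σ.a en v) ∧ Fr StageP_SV {en} σ ρ)
    (fun _ => κ + 1) (fun j hj ρ hρ => by
      rw [hρ.1]
      have : 0 < cp - j := by omega
      exact_mod_cast this) (fun ρ hρ => by
      rw [hρ.1]
      simp) (fun j hj ρ ⟨h1, h2, h3, h4, h5, h6⟩ => by
      have e1 : ((cp - j : ℕ) : ℤ) - 1 = ((cp - (j + 1) : ℕ) : ℤ) := by
        have : cp - j = (cp - (j + 1)) + 1 := by omega
        rw [this]
        push_cast
        ring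
      set ρ1 := ρ.sv 43 (ρ.v 43 - ρ.v 44) with hρ1
      have h43' : ρ1.v 43 = ((cp - (j + 1) : ℕ) : ℤ) := by
        rw [hρ1, StageP_sv_v, if_pos rfl, h1, h2, e1]
      have h44' : ρ1.v 44 = 1 := by
        rw [hρ1, StageP_sv_v, if_neg (by norm_num), h2]
      obtain ⟨τ, hτ, t1, t2, t3, t4, t5, t6⟩ := hB ρ1 _ h43' h44' (hQ ρ _ h3)
      have ha : ρ1.a = ρ.a := StageP_sv_a _ _ _
      refine ⟨τ, ?_, t1, t2, t3, ?_, ?_, ?_⟩
      · refine ((StageP_sub ρ 43 43 44).seq (hτ.seq (Reach.skip τ))).mono ?_
        omega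
      · intro v hv hv'
        by_cases hvj : v = cp - (j + 1)
        · subst hvj
          rw [t4, ha, h5 _ (by omega)]
        · rw [t5 v hvj, ha]
          exact h4 v (by omega) hv'
      · intro v hv
        rw [t5 v (by omega), ha]
        exact h5 v (by omega)
      · refine (h6.trans (StageP_fr_sv ρ 43 _ StageP_SV {en} ?_)).trans t6
        simp [StageP_SV]) σ
      ⟨by simpa using h43, h44, hσ, fun v hv hv' => by omega, fun v _ => rfl, Fr.refl _ _ _⟩
  obtain ⟨τ, hτ, hI⟩ := key
  refine ⟨τ, hτ.mono ?_, ?_, hI.2.2.2.2.2⟩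
  · simp only [Finset.sum_const, Finset.card_range, smul_eq_mul]
    nlinarith
  · intro v hv
    exact hI.2.2.2.1 v (by omega) hv

/-- fill an array with `-1` below the bound in variable `cpv` -/
private theorem StageP_fill (en cpv : ℕ) :
    ∃ p : Stmt, ∀ (σ : St) (cp : ℕ), σ.v cpv = cp → ∃ τ, Reach p σ (12 * (cp + 1)) τ ∧
      (∀ v < cp, τ.a en v = -1) ∧ Fr StageP_SV {en} σ τ := by
  refine ⟨blk [.mov 43 cpv, .const 44 1, .const 45 (-1),
    .whl 43 (blk [.sub 43 43 44, blk [.put en 43 45]])], ?_⟩
  intro σ cp hcp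
  set σ1 := σ.sv 43 (σ.v cpv) with h1
  set σ2 := σ1.sv 44 1 with h2
  set σ3 := σ2.sv 45 (-1) with h3
  have e43 : σ3.v 43 = cp := by
    rw [h3, StageP_sv_v, if_neg (by norm_num), h2, StageP_sv_v, if_neg (by norm_num), h1,
      StageP_sv_v, if_pos rfl, hcp]
  have e44 : σ3.v 44 = 1 := by
    rw [h3, StageP_sv_v, if_neg (by norm_num), h2, StageP_sv_v, if_pos rfl]
  have e45 : σ3.v 45 = -1 := by
    rw [h3, StageP_sv_v, if_pos rfl]
  refine Exists.elim (StageP_loop en (fun _ => -1) (blk [.put en 43 45]) 1 cp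
    (fun ρ => ρ.v 45 = -1) ?_ ?_ σ3 e43 e44 e45) ?_
  rotate_left 2
  · rintro τ ⟨hτ, ha, hf⟩
    refine ⟨τ, ?_, ha, ?_⟩
    · refine ((StageP_mov σ 43 cpv).seq ((StageP_const σ1 44 1).seq
        ((StageP_const σ2 45 (-1)).seq (hτ.seq (Reach.skip τ))))).mono ?_
      nlinarith
    · have f1 := StageP_fr_sv σ 43 (σ.v cpv) StageP_SV {en} (by simp [StageP_SV])
      have f2 := StageP_fr_sv σ1 44 1 StageP_SV {en} (by simp [StageP_SV])
      have f3 := StageP_fr_sv σ2 45 (-1) StageP_SV {en} (by simp [StageP_SV])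
      exact ((f1.trans f2).trans f3).trans hf
  · intro ρ i hi h44 hq
    refine ⟨ρ.sa en (ρ.v 43).toNat (ρ.v 45), ?_, hi, h44, hq, ?_, ?_, ?_⟩
    · exact ((StageP_put ρ en 43 45).seq (Reach.skip _)).mono (by omega)
    · rw [StageP_sa_a, if_pos rfl, hi, Int.toNat_natCast, Function.update_self, hq]
    · intro j hj
      rw [StageP_sa_a, if_pos rfl, hi, Int.toNat_natCast, Function.update_of_ne hj]
    · exact StageP_fr_sa _ _ _ _ _ _ (by simp)
  · intro ρ z hq
    rw [StageP_sv_v, if_neg (by norm_num)]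
    exact hq

/-- all entries without time below the bound in variable `cpv` get the current time -/
private theorem StageP_fin (en cpv : ℕ) :
    ∃ p : Stmt, ∀ (σ : St) (cp t : ℕ), σ.v cpv = cp → σ.v 41 = t →
      ∃ τ, Reach p σ (12 * (cp + 1)) τ ∧
      (∀ v < cp, τ.a en v = if σ.a en v < 0 then (t : ℤ) else σ.a en v) ∧
      Fr StageP_SV {en} σ τ := by
  refine ⟨blk [.mov 43 cpv, .const 44 1,
    .whl 43 (blk [.sub 43 43 44, blk [.get 45 en 43, .add 45 45 44,
      .ite 45 .skip (.put en 43 41)]])], ?_⟩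
  intro σ cp t hcp ht
  set σ1 := σ.sv 43 (σ.v cpv) with h1
  set σ2 := σ1.sv 44 1 with h2
  have e43 : σ2.v 43 = cp := by
    rw [h2, StageP_sv_v, if_neg (by norm_num), h1, StageP_sv_v, if_pos rfl, hcp]
  have e44 : σ2.v 44 = 1 := by
    rw [h2, StageP_sv_v, if_pos rfl]
  have e41 : σ2.v 41 = t := by
    rw [h2, StageP_sv_v, if_neg (by norm_num), h1, StageP_sv_v, if_neg (by norm_num), ht]
  refine Exists.elim (StageP_loop en (fun z => if z < 0 then (t : ℤ) else z)
    (blk [.get 45 en 43, .add 45 45 44, .ite 45 .skip (.put en 43 41)]) 4 cp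
    (fun ρ => ρ.v 41 = t) ?_ ?_ σ2 e43 e44 e41) ?_
  rotate_left 2
  · rintro τ ⟨hτ, ha, hf⟩
    refine ⟨τ, ?_, ?_, ?_⟩
    · refine ((StageP_mov σ 43 cpv).seq ((StageP_const σ1 44 1).seq
        (hτ.seq (Reach.skip τ)))).mono ?_
      nlinarith
    · intro v hv
      exact ha v hv
    · have f1 := StageP_fr_sv σ 43 (σ.v cpv) StageP_SV {en} (by simp [StageP_SV])
      have f2 := StageP_fr_sv σ1 44 1 StageP_SV {en} (by simp [StageP_SV])
      exact (f1.trans f2).trans hf
  · intro ρ i hi h44 hq
    set ρ1 := ρ.sv 45 (ρ.a en (ρ.v 43).toNat) with r1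
    set ρ2 := ρ1.sv 45 (ρ1.v 45 + ρ1.v 44) with r2
    have hz : ρ.a en (ρ.v 43).toNat = ρ.a en i := by
      rw [hi, Int.toNat_natCast]
    have v45 : ρ2.v 45 = ρ.a en i + 1 := by
      rw [r2, StageP_sv_v, if_pos rfl, r1, StageP_sv_v, if_pos rfl, StageP_sv_v,
        if_neg (by norm_num), h44, hz]
    have v43 : ρ2.v 43 = i := by
      rw [r2, StageP_sv_v, if_neg (by norm_num), r1, StageP_sv_v, if_neg (by norm_num), hi]
    have v44 : ρ2.v 44 = 1 := by
      rw [r2, StageP_sv_v, if_neg (by norm_num), r1, StageP_sv_v, if_neg (by norm_num), h44]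
    have v41 : ρ2.v 41 = t := by
      rw [r2, StageP_sv_v, if_neg (by norm_num), r1, StageP_sv_v, if_neg (by norm_num)]
      exact hq
    have va : ρ2.a = ρ.a := rfl
    have ff : Fr StageP_SV {en} ρ ρ2 :=
      (StageP_fr_sv ρ 45 _ StageP_SV {en} (by simp [StageP_SV])).trans
        (StageP_fr_sv ρ1 45 _ StageP_SV {en} (by simp [StageP_SV]))
    by_cases hneg : ρ.a en i < 0
    · refine ⟨ρ2.sa en (ρ2.v 43).toNat (ρ2.v 41), ?_, v43, v44, v41, ?_, ?_, ?_⟩
      · exact ((StageP_get ρ 45 en 43).seq ((StageP_add ρ1 45 45 44).seq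
          ((Reach.ite_neg (s := .skip) (by rw [v45]; omega) (StageP_put ρ2 en 43 41)).seq
            (Reach.skip _)))).mono (by omega)
      · rw [StageP_sa_a, if_pos rfl, v43, Int.toNat_natCast, Function.update_self, v41]
        simp only [hneg, if_true]
      · intro j hj
        rw [StageP_sa_a, if_pos rfl, v43, Int.toNat_natCast, Function.update_of_ne hj, va]
      · exact ff.trans (StageP_fr_sa _ _ _ _ _ _ (by simp))
    · refine ⟨ρ2, ?_, v43, v44, v41, ?_, ?_, ff⟩
      · exact ((StageP_get ρ 45 en 43).seq ((StageP_add ρ1 45 45 44).seq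
          ((Reach.ite_pos (t := .put en 43 41) (by rw [v45]; omega) (Reach.skip ρ2)).seq
            (Reach.skip _)))).mono (by omega)
      · rw [va]
        simp only [hneg, if_false]
      · intro j _
        rw [va]
  · intro ρ z hq
    rw [StageP_sv_v, if_neg (by norm_num)]
    exact hq

/-- the rule that drops blocks -/
private theorem StageP_drop (ta tl cv cs : ℕ) (hta : 10 ≤ ta) (htl : 100 ≤ tl) (hcv : 100 ≤ cv)
    (hcs : 100 ≤ cs) :
    ∃ (p : Stmt) (κ : ℕ), ∀ (σ : St) (T : List ℕ) (c c' : ℕ), StoredAt σ ta 0 T →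
      σ.v tl = T.length → σ.v cv = c' → σ.v cs = c →
      ∃ τ, Reach p σ κ τ ∧ τ.v cv = ((if 0 < fld T c' 3 then c else c' : ℕ) : ℤ) ∧
        Fr (StageP_SV ∪ {cv}) ∅ σ τ := by
  obtain ⟨g, κ, hg⟩ := get_fld ta tl cv 3 hta htl (by omega) (by omega)
  refine ⟨blk [g, .ite 60 (.mov cv cs) .skip], κ + 2, ?_⟩
  intro σ T c c' hT hl hc' hc
  obtain ⟨τ, hτ, h60, hf⟩ := hg σ T c' hT hl hc'
  have hcv' : τ.v cv = c' := by
    rw [hf.v cv (by simp; omega), hc']
  have hcs' : τ.v cs = c := by
    rw [hf.v cs (by simp; omega), hc]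
  have hf' : Fr (StageP_SV ∪ {cv}) ∅ σ τ := by
    refine hf.mono ?_ (le_refl _)
    intro v hv
    left
    simp only [StageP_SV, Set.mem_ofPred_eq] at hv ⊢
    omega
  by_cases h0 : 0 < fld T c' 3
  · refine ⟨τ.sv cv (τ.v cs), ?_, ?_, ?_⟩
    · exact (hτ.seq ((Reach.ite_pos (t := .skip) (by rw [h60]; exact_mod_cast h0)
        (StageP_mov τ cv cs)).seq (Reach.skip _))).mono (by omega)
    · rw [StageP_sv_v, if_pos rfl, hcs', if_pos h0]
    · exact hf'.trans (StageP_fr_sv _ _ _ _ _ (by simp))
  · refine ⟨τ, ?_, ?_, hf'⟩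
    · exact (hτ.seq ((Reach.ite_neg (s := .mov cv cs) (by rw [h60]; exact_mod_cast h0)
        (Reach.skip τ)).seq (Reach.skip _))).mono (by omega)
    · rw [hcv', if_neg h0]

/-- one step of the old phase -/
private theorem StageP_ph0 (ta tl ev en cv lv cpv cs : ℕ) (hta : 10 ≤ ta) (htl : 100 ≤ tl)
    (hev : 10 ≤ ev) (hen : 10 ≤ en) (hee : ev ≠ en) (hte : ta ≠ en) (hcv : 100 ≤ cv)
    (hlv : 100 ≤ lv) (hcpv : 100 ≤ cpv) (hcs : 100 ≤ cs) (h1 : cv ≠ lv) (h2 : cv ≠ cpv)
    (h3 : cv ≠ tl) (h4 : cs ≠ tl) (h5 : cs ≠ cv) (h6 : cs ≠ lv) (h7 : cs ≠ cpv) :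
    ∃ (p : Stmt) (κ : ℕ), ∀ (σ : St) (T : List ℕ) (c cp : ℕ) (w : ℕ → ℤ), StoredAt σ ta 0 T →
      σ.v tl = T.length → σ.v cv = c → σ.v lv = lev T → σ.v cpv = cp → lev T ≤ cp →
      (∀ v < cp, σ.a ev v = w v) →
      ∃ τ, Reach p σ (κ * (cp + 1)) τ ∧
        τ.v cv = (stepS T (fun v _ => decide (0 ≤ w v)) c : ℕ) ∧
        (∀ v < cp, τ.a en v = w v) ∧ Fr (StageP_SV ∪ {cv, cs}) {en} σ τ := by
  obtain ⟨lo, κo, hlo⟩ := loop_old ev en cv lv cpv hev hen hee hcv hlv hcpv h1 h2
  obtain ⟨dr, κd, hdr⟩ := StageP_drop ta tl cv cs hta htl hcv hcs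
  refine ⟨blk [.mov cs cv, lo, dr], 1 + κo + κd, ?_⟩
  intro σ T c cp w hT hl hc hlev hcp hle hw
  set σ1 := σ.sv cs (σ.v cv) with r1
  have f1 : Fr (StageP_SV ∪ {cv, cs}) {en} σ σ1 := StageP_fr_sv _ _ _ _ _ (by simp)
  obtain ⟨σ2, hσ2, c2, e2, f2⟩ := hlo σ1 (lev T) c cp w
    (by rw [r1, StageP_sv_v, if_neg (Ne.symm h5), hc])
    (by rw [r1, StageP_sv_v, if_neg (Ne.symm h6), hlev])
    (by rw [r1, StageP_sv_v, if_neg (Ne.symm h7), hcp]) hle hw
  have ha1 : σ1.a = σ.a := rfl
  obtain ⟨τ, hτ, c3, f3⟩ := hdr σ2 T c (cst (fun v _ => decide (0 ≤ w v)) c (lev T))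
    (by
      intro i hi
      rw [f2.a ta (by simpa using hte), ha1]
      exact hT i hi)
    (by
      rw [f2.v tl (by simp; omega), r1, StageP_sv_v, if_neg (Ne.symm h4), hl])
    c2
    (by
      rw [f2.v cs (by simp; omega), r1, StageP_sv_v, if_pos rfl, hc])
  refine ⟨τ, ?_, ?_, ?_, ?_⟩
  · refine ((StageP_mov σ cs cv).seq (hσ2.seq (hτ.seq (Reach.skip τ)))).mono ?_
    nlinarith
  · rw [c3]
    rfl
  · intro v hv
    rw [f3.a en (by simp)]
    exact e2 v hv
  · refine (f1.trans (f2.mono ?_ (le_refl _))).trans (f3.mono ?_ (by simp))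
    · intro v hv
      simp only [StageP_SV, Set.mem_union, Set.mem_ofPred_eq, Set.mem_singleton_iff,
        Set.mem_insert_iff] at hv ⊢
      tauto
    · intro v hv
      simp only [StageP_SV, Set.mem_union, Set.mem_ofPred_eq, Set.mem_singleton_iff,
        Set.mem_insert_iff] at hv ⊢
      tauto

/-- one step of the new phase -/
private theorem StageP_new (ta tl en ad cv lv cpv cs : ℕ) (j : ℕ) (par : Bool) (hta : 10 ≤ ta)
    (htl : 100 ≤ tl)
    (hen : 10 ≤ en) (had : 10 ≤ ad) (hee : en ≠ ad) (hte : ta ≠ en) (hcv : 100 ≤ cv)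
    (hlv : 100 ≤ lv) (hcpv : 100 ≤ cpv) (hcs : 100 ≤ cs) (h1 : cv ≠ lv) (h2 : cv ≠ cpv)
    (h3 : cv ≠ tl) (h4 : cs ≠ tl) (h5 : cs ≠ cv) (h6 : cs ≠ lv) (h7 : cs ≠ cpv) :
    ∃ (p : Stmt) (κ : ℕ), ∀ (σ : St) (T : List ℕ) (c t cp : ℕ) (b : ℕ → Bool) (w : ℕ → ℤ),
      StoredAt σ ta 0 T →
      σ.v tl = T.length → σ.v cv = c → σ.v lv = lev T → σ.v cpv = cp → lev T ≤ cp →
      σ.v 41 = t → (∀ e < cp, σ.a ad e = if b e then 1 else 0) →
      (∀ v < cp, σ.a en v = w v) →
      ∃ τ, Reach p σ (κ * (cp + 1)) τ ∧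
        τ.v cv = (stepS T (fun v c => if meP par v then decide (v < lev T) &&
          decide (0 < fld T c j) else b (v / 2)) c : ℕ) ∧
        (∀ v < cp, τ.a en v = if w v < 0 ∧
          (if meP par v then decide (v < lev T) && decide (0 < fld T (cst (fun v c => if meP par v
            then decide (v < lev T) && decide (0 < fld T c j) else b (v / 2)) c v) j)
            else b (v / 2)) = true then (t : ℤ) else w v) ∧
        Fr (StageP_SV ∪ {cv, cs}) {en} σ τ := by
  obtain ⟨lo, κo, hlo⟩ := loop_new ta tl en ad cv lv cpv j par hta hen had hte hee htl hcv hlv hcpv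
    h3 h1 h2
  obtain ⟨dr, κd, hdr⟩ := StageP_drop ta tl cv cs hta htl hcv hcs
  refine ⟨blk [.mov cs cv, lo, dr], 1 + κo + κd, ?_⟩
  intro σ T c t cp b w hT hl hc hlev hcp hle ht hb hw
  set σ1 := σ.sv cs (σ.v cv) with r1
  have f1 : Fr (StageP_SV ∪ {cv, cs}) {en} σ σ1 := StageP_fr_sv _ _ _ _ _ (by simp)
  have ha1 : σ1.a = σ.a := rfl
  obtain ⟨σ2, hσ2, c2, e2, f2⟩ := hlo σ1 T c t cp b w hT
    (by rw [r1, StageP_sv_v, if_neg (Ne.symm h4), hl])
    (by rw [r1, StageP_sv_v, if_neg (Ne.symm h5), hc])
    (by rw [r1, StageP_sv_v, if_neg (Ne.symm h6), hlev])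
    (by rw [r1, StageP_sv_v, if_neg (Ne.symm h7), hcp]) hle
    (by rw [r1, StageP_sv_v, if_neg (by omega), ht]) hb hw
  obtain ⟨τ, hτ, c3, f3⟩ := hdr σ2 T c (cst (fun v c => if meP par v then decide (v < lev T) &&
          decide (0 < fld T c j) else b (v / 2)) c (lev T))
    (by
      intro i hi
      rw [f2.a ta (by simpa using hte), ha1]
      exact hT i hi)
    (by
      rw [f2.v tl (by simp; omega), r1, StageP_sv_v, if_neg (Ne.symm h4), hl])
    c2
    (by
      rw [f2.v cs (by simp; omega), r1, StageP_sv_v, if_pos rfl, hc])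
  refine ⟨τ, ?_, ?_, ?_, ?_⟩
  · refine ((StageP_mov σ cs cv).seq (hσ2.seq (hτ.seq (Reach.skip τ)))).mono ?_
    nlinarith
  · rw [c3]
    rfl
  · intro v hv
    rw [f3.a en (by simp)]
    exact e2 v hv
  · refine (f1.trans (f2.mono ?_ (le_refl _))).trans (f3.mono ?_ (by simp))
    · intro v hv
      simp only [StageP_SV, Set.mem_union, Set.mem_ofPred_eq, Set.mem_singleton_iff,
        Set.mem_insert_iff] at hv ⊢
      tauto
    · intro v hv
      simp only [StageP_SV, Set.mem_union, Set.mem_ofPred_eq, Set.mem_singleton_iff,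
        Set.mem_insert_iff] at hv ⊢
      tauto

/-- the new horizon is reached -/
private theorem StageP_stop (en cpv ph fw : ℕ) (hph : 100 ≤ ph) (hfw : 100 ≤ fw)
    (h1 : cpv ≠ ph) (h2 : cpv ≠ fw) (h3 : ph ≠ fw) :
    ∃ p : Stmt, ∀ (σ : St) (cp t : ℕ), σ.v cpv = cp → σ.v 41 = t →
      ∃ τ, Reach p σ (14 * (cp + 1)) τ ∧ τ.v ph = 2 ∧ τ.v fw = t ∧
      (∀ v < cp, τ.a en v = if σ.a en v < 0 then (t : ℤ) else σ.a en v) ∧
      Fr (StageP_SV ∪ {ph, fw}) {en} σ τ := by
  obtain ⟨q, hq⟩ := StageP_fin en cpv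
  refine ⟨blk [.const ph 2, .mov fw 41, q], ?_⟩
  intro σ cp t hcp ht
  set σ1 := σ.sv ph 2 with r1
  set σ2 := σ1.sv fw (σ1.v 41) with r2
  have t1 : σ1.v 41 = t := by rw [r1, StageP_sv_v, if_neg (by omega), ht]
  obtain ⟨τ, hτ, ha, hf⟩ := hq σ2 cp t
    (by rw [r2, StageP_sv_v, if_neg h2, r1, StageP_sv_v, if_neg h1, hcp])
    (by rw [r2, StageP_sv_v, if_neg (by omega), t1])
  refine ⟨τ, ?_, ?_, ?_, ?_, ?_⟩
  · refine ((StageP_const σ ph 2).seq ((StageP_mov σ1 fw 41).seq
      (hτ.seq (Reach.skip τ)))).mono ?_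
    nlinarith
  · rw [hf.v ph (by simp [StageP_SV]; omega), r2, StageP_sv_v, if_neg h3, r1, StageP_sv_v,
      if_pos rfl]
  · rw [hf.v fw (by simp [StageP_SV]; omega), r2, StageP_sv_v, if_pos rfl, t1]
  · intro v hv
    exact ha v hv
  · refine ((StageP_fr_sv σ ph _ _ _ (by simp)).trans (StageP_fr_sv σ1 fw _ _ _
      (by simp))).trans (hf.mono ?_ (le_refl _))
    exact Set.subset_union_left

/-- the bit of program `p` -/
private theorem StageP_bit (ad cpv p : ℕ) (h9 : 100 ≤ cpv) :
    ∃ q : Stmt, ∀ (σ : St) (cp : ℕ) (bb : ℕ → Bool), σ.v cpv = cp →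
      (∀ e < cp, σ.a ad e = if bb e then 1 else 0) →
      ∃ τ, Reach q σ 6 τ ∧ (0 < τ.v 43 ↔ (cp ≤ p ∨ bb p = true)) ∧ Fr StageP_SV ∅ σ τ := by
  refine ⟨blk [.const 43 p, .sub 43 cpv 43,
    .ite 43 (blk [.const 43 p, .get 43 ad 43]) (.const 43 1)], ?_⟩
  intro σ cp bb hcp hb
  set σ1 := σ.sv 43 (p : ℤ) with r1
  set σ2 := σ1.sv 43 (σ1.v cpv - σ1.v 43) with r2
  have e43 : σ2.v 43 = (cp : ℤ) - p := by
    rw [r2, StageP_sv_v, if_pos rfl, r1, StageP_sv_v, if_neg (by omega), StageP_sv_v, if_pos rfl,
      hcp]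
  have ff : Fr StageP_SV ∅ σ σ2 :=
    (StageP_fr_sv σ 43 _ StageP_SV ∅ (by simp [StageP_SV])).trans
      (StageP_fr_sv σ1 43 _ StageP_SV ∅ (by simp [StageP_SV]))
  by_cases hlt : p < cp
  · set σ3 := σ2.sv 43 (p : ℤ) with r3
    set σ4 := σ3.sv 43 (σ3.a ad (σ3.v 43).toNat) with r4
    refine ⟨σ4, ?_, ?_, ?_⟩
    · exact ((StageP_const σ 43 p).seq ((StageP_sub σ1 43 cpv 43).seq
        ((Reach.ite_pos (t := .const 43 1) (by rw [e43]; omega)
          ((StageP_const σ2 43 p).seq ((StageP_get σ3 43 ad 43).seq (Reach.skip _)))).seq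
            (Reach.skip _)))).mono (by omega)
    · have e1 : σ4.v 43 = σ.a ad p := by
        rw [r4, StageP_sv_v, if_pos rfl, r3, StageP_sv_v, if_pos rfl, Int.toNat_natCast]
        rfl
      rw [e1, hb p hlt]
      cases bb p
      · simp only [Bool.false_eq_true, if_false, lt_irrefl, or_false, false_iff, not_le]
        exact hlt
      · simp
    · exact (ff.trans (StageP_fr_sv σ2 43 _ StageP_SV ∅ (by simp [StageP_SV]))).trans
        (StageP_fr_sv σ3 43 _ StageP_SV ∅ (by simp [StageP_SV]))
  · refine ⟨σ2.sv 43 1, ?_, ?_, ?_⟩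
    · exact ((StageP_const σ 43 p).seq ((StageP_sub σ1 43 cpv 43).seq
        ((Reach.ite_neg (s := blk [.const 43 p, .get 43 ad 43]) (by rw [e43]; omega)
          (StageP_const σ2 43 1)).seq (Reach.skip _)))).mono (by omega)
    · rw [StageP_sv_v, if_pos rfl]
      simp only [zero_lt_one, true_iff]
      exact Or.inl (by omega)
    · exact ff.trans (StageP_fr_sv σ2 43 _ StageP_SV ∅ (by simp [StageP_SV]))

/-- update of the phase: from 0 to 1 if the old horizon is known -/
private theorem StageP_upd (ph fv : ℕ) (hph : 100 ≤ ph) (hfv : 100 ≤ fv) :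
    ∃ q : Stmt, ∀ (σ : St), ∃ τ, Reach q σ 6 τ ∧
      τ.v ph = (if ¬ 0 < σ.v ph ∧ 0 ≤ σ.v fv then 1 else σ.v ph) ∧
      Fr (StageP_SV ∪ {ph}) ∅ σ τ := by
  refine ⟨.ite ph .skip (blk [.const 43 1, .add 43 fv 43, .ite 43 (.const ph 1) .skip]), ?_⟩
  intro σ
  by_cases h0 : 0 < σ.v ph
  · refine ⟨σ, (Reach.ite_pos h0 (Reach.skip σ)).mono (by omega), ?_, Fr.refl _ _ _⟩
    rw [if_neg (by tauto)]
  · set σ1 := σ.sv 43 1 with r1
    set σ2 := σ1.sv 43 (σ1.v fv + σ1.v 43) with r2
    have e43 : σ2.v 43 = σ.v fv + 1 := by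
      rw [r2, StageP_sv_v, if_pos rfl, r1, StageP_sv_v, if_neg (by omega), StageP_sv_v, if_pos rfl]
    have eph : σ2.v ph = σ.v ph := by
      rw [r2, StageP_sv_v, if_neg (by omega), r1, StageP_sv_v, if_neg (by omega)]
    have ff : Fr (StageP_SV ∪ {ph}) ∅ σ σ2 :=
      (StageP_fr_sv σ 43 _ _ ∅ (by simp [StageP_SV])).trans
        (StageP_fr_sv σ1 43 _ _ ∅ (by simp [StageP_SV]))
    by_cases h1 : 0 ≤ σ.v fv
    · refine ⟨σ2.sv ph 1, ?_, ?_, ff.trans (StageP_fr_sv σ2 ph _ _ ∅ (by simp))⟩
      · exact (Reach.ite_neg h0 ((StageP_const σ 43 1).seq ((StageP_add σ1 43 fv 43).seq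
          ((Reach.ite_pos (t := .skip) (by rw [e43]; omega) (StageP_const σ2 ph 1)).seq
            (Reach.skip _))))).mono (by omega)
      · rw [StageP_sv_v, if_pos rfl, if_pos ⟨h0, h1⟩]
    · refine ⟨σ2, ?_, ?_, ff⟩
      · exact (Reach.ite_neg h0 ((StageP_const σ 43 1).seq ((StageP_add σ1 43 fv 43).seq
          ((Reach.ite_neg (s := .const ph 1) (by rw [e43]; omega) (Reach.skip σ2)).seq
            (Reach.skip _))))).mono (by omega)
      · rw [eph, if_neg (by tauto)]

private theorem StageP_old (T : List ℕ) (b : Board) (h' v s : ℕ) (hs : s ≤ b.h) :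
    (if newA T b true h' v < s then (newA T b true h' v : ℤ) else -1) =
      if b.a v < s then (b.a v : ℤ) else -1 := by
  unfold newA
  by_cases h1 : b.a v < b.h
  · simp only [h1, if_true]
  · simp only [h1, if_false]
    rw [if_neg (by omega), if_neg (by omega)]

private theorem StageP_bitstep (T : List ℕ) (b : Board) (h' v s : ℕ) (h1 : b.h ≤ s)
    (h2 : s < h') :
    (if newA T b true h' v < s + 1 then (newA T b true h' v : ℤ) else -1) =
      if (if newA T b true h' v < s then (newA T b true h' v : ℤ) else -1) < 0 ∧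
        bitAt T b true (s - b.h) v = true then (s : ℤ)
      else (if newA T b true h' v < s then (newA T b true h' v : ℤ) else -1) := by
  by_cases h3 : newA T b true h' v < s
  · rw [if_pos h3, if_pos (by omega), if_neg]
    rintro ⟨h4, _⟩
    omega
  · rw [if_neg h3]
    have h4 : newA T b true h' v < s + 1 ↔ bitAt T b true (s - b.h) v = true := by
      unfold newA at h3 ⊢
      by_cases h5 : b.a v < b.h
      · rw [if_pos h5] at h3
        omega
      · rw [if_neg h5] at h3 ⊢
        have h6 := leastBelow_le_iff (fun u => bitAt T b true u v) (h' - b.h) (s - b.h)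
          (by omega)
        constructor
        · intro h7
          have h8 : leastBelow (fun u => bitAt T b true u v) (h' - b.h) = s - b.h := by omega
          have h9 := leastBelow_spec (fun u => bitAt T b true u v) (h' - b.h) (by omega)
          rw [h8] at h9
          exact h9
        · intro h7
          have := h6.2 ⟨s - b.h, le_rfl, h7⟩
          omega
    by_cases h5 : bitAt T b true (s - b.h) v = true
    · have h6 := h4.2 h5
      rw [if_pos h6, if_pos ⟨by norm_num, h5⟩]
      have : newA T b true h' v = s := by omega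
      rw [this]
    · rw [if_neg (by rw [h4]; exact h5), if_neg (by tauto)]

private theorem StageP_nLV {v : ℕ} (h : 100 ≤ v) : v ∉ LV := by
  intro hv
  simp only [LV, Set.mem_ofPred_eq] at hv
  omega

private theorem StageP_nLA {v : ℕ} (h : 10 ≤ v) : v ∉ LA := by
  intro hv
  simp only [LA, Set.mem_ofPred_eq] at hv
  omega

private theorem StageP_SVLV : StageP_SV ⊆ LV := by
  intro v hv
  simp only [StageP_SV, LV, Set.mem_ofPred_eq] at hv ⊢
  omega

private theorem StageP_lev (b : ℕ) (σ : St) (T : List ℕ) (hT : StoredAt σ b 0 T)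
    (hl : σ.v b = T.length) :
    ∃ τ, Reach (.ite b (blk [.const 43 0, .get (b + 1) b 43]) (.const (b + 1) 0)) σ 4 τ ∧
      τ.v (b + 1) = lev T ∧ Fr (StageP_SV ∪ {b + 1}) ∅ σ τ := by
  by_cases h0 : 0 < T.length
  · set σ1 := σ.sv 43 0 with r1
    refine ⟨σ1.sv (b + 1) (σ1.a b (σ1.v 43).toNat), ?_, ?_, ?_⟩
    · exact (Reach.ite_pos (by rw [hl]; exact_mod_cast h0) ((StageP_const σ 43 0).seq
        ((StageP_get σ1 (b + 1) b 43).seq (Reach.skip _)))).mono (by omega)
    · rw [StageP_sv_v, if_pos rfl, r1, StageP_sv_v, if_pos rfl]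
      have h1 := hT 0 h0
      have h2 : lev T = T[0] := by
        unfold lev
        rw [List.getD_eq_getElem T 0 h0]
      rw [h2]
      show σ.a b (Int.toNat 0) = _
      simpa using h1
    · exact (StageP_fr_sv σ 43 _ _ ∅ (by simp [StageP_SV])).trans
        (StageP_fr_sv σ1 _ _ _ ∅ (by simp))
  · refine ⟨σ.sv (b + 1) 0, ?_, ?_, StageP_fr_sv σ _ _ _ ∅ (by simp)⟩
    · exact (Reach.ite_neg (by rw [hl]; exact_mod_cast h0) (StageP_const σ (b + 1) 0)).mono
        (by omega)
    · rw [StageP_sv_v, if_pos rfl]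
      have h1 : T = [] := List.eq_nil_of_length_eq_zero (by omega)
      subst h1
      rfl

/-- the invariant of the new data -/
private structure StageP_I (b cp : ℕ) (T : List ℕ) (s0n Fn Fn' : ℕ) (na oc nc : ℕ → ℕ) (s : ℕ)
    (σ : St) : Prop where
  tab : StoredAt σ b 0 T
  htl : σ.v b = T.length
  hlv : σ.v (b + 1) = lev T
  hcp : σ.v (b + 2) = cp
  hen : ∀ v < cp, σ.a (b + 1) v = if na v < s then (na v : ℤ) else -1
  hfw : σ.v (b + 5) = if Fn' < s then (Fn' : ℤ) else -1
  hph : (s ≤ Fn ∧ σ.v (b + 4) = 0 ∧ σ.v (b + 3) = oc (s - s0n)) ∨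
    (Fn < s ∧ s ≤ Fn' ∧ σ.v (b + 4) = 1 ∧ σ.v (b + 3) = nc (s - Fn)) ∨
    (Fn' < s ∧ σ.v (b + 4) = 2)

private theorem StageP_I_congr {b cp : ℕ} {T : List ℕ} {s0n Fn Fn' : ℕ} {na oc nc : ℕ → ℕ} {s : ℕ}
    {σ τ : St} (hv : ∀ v, b ≤ v → v < b + 7 → τ.v v = σ.v v)
    (ha : ∀ a, b ≤ a → a < b + 7 → τ.a a = σ.a a)
    (h : StageP_I b cp T s0n Fn Fn' na oc nc s σ) : StageP_I b cp T s0n Fn Fn' na oc nc s τ := by
  refine ⟨?_, ?_, ?_, ?_, ?_, ?_, ?_⟩
  · intro i hi
    rw [ha b le_rfl (by omega)]
    exact h.tab i hi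
  · rw [hv b le_rfl (by omega)]; exact h.htl
  · rw [hv (b + 1) (by omega) (by omega)]; exact h.hlv
  · rw [hv (b + 2) (by omega) (by omega)]; exact h.hcp
  · intro v hv'
    rw [ha (b + 1) (by omega) (by omega)]
    exact h.hen v hv'
  · rw [hv (b + 5) (by omega) (by omega)]; exact h.hfw
  · rw [hv (b + 4) (by omega) (by omega), hv (b + 3) (by omega) (by omega)]
    exact h.hph

/-- New persistent data (variables and arrays from `b` on, `b` the bound of the given
realisation): table (by `LinTab`), its length, its level, `cap n`, code, phase (0 = before the old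
horizon, 1 = between the horizons, 2 = after), new array of stopping times, new horizon variable.
`tick`: old `tick`; if phase 0 and the old horizon is now known then phase := 1. In phase 0:
`loop_old` and the rule that drops blocks. In phase 1: if the bit of program `p` is set (or
`cap n ≤ p`) then phase := 2, the new horizon is `s` and all functions without recorded time get
the time `s`; else `loop_new` with field 0 and the rule that drops blocks. -/
theorem stage_P (A : ℕ → ℕ → ℕ) (F F' : ℕ → ℕ) (stp : ℕ → ℕ → ℕ → Bool) (p : ℕ) (par : Bool)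
    (d : ℕ → List ℕ) (h : JR A F stp) (hd : LinTab d) (hlev : ∀ n, lev (d n) ≤ cap n)
    (hstp : ∀ e n s, cap n ≤ e → stp e n s = true) (hb : ∀ n, (mkB A F stp par n).Ok)
    (hF : FirstFrom stp p F F') :
    JR (fun v n => newA (d n) (mkB A F stp par n) true (F' n) v) F' stp := by
  obtain ⟨b, ev, ad, fv, init, tick, Inv, κ, hb100, hev, hevb, had, hadb, hfv, hfvb, hinit, htick,
    hread, hinv⟩ := h
  obtain ⟨κd, hd⟩ := hd
  obtain ⟨st, hst⟩ := hd b b (by omega) (by omega)
  obtain ⟨pp, κp, hpp⟩ := prep_spec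
  obtain ⟨fi, hfi⟩ := StageP_fill (b + 1) (b + 2)
  obtain ⟨p0, κ0, hp0⟩ := StageP_ph0 b b ev (b + 1) (b + 3) (b + 1) (b + 2) (b + 6) (by omega)
    (by omega) hev (by omega) (by omega) (by omega) (by omega) (by omega) (by omega) (by omega)
    (by omega) (by omega) (by omega) (by omega) (by omega) (by omega) (by omega)
  obtain ⟨p1, κ1, hp1⟩ := StageP_new b b (b + 1) ad (b + 3) (b + 1) (b + 2) (b + 6) 0 par
    (by omega) (by omega) (by omega) had (by omega) (by omega) (by omega) (by omega) (by omega)
    (by omega) (by omega) (by omega) (by omega) (by omega) (by omega) (by omega) (by omega)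
  obtain ⟨p2, hp2⟩ := StageP_stop (b + 1) (b + 2) (b + 4) (b + 5) (by omega) (by omega) (by omega)
    (by omega) (by omega)
  obtain ⟨q, hq⟩ := StageP_bit ad (b + 2) p (by omega)
  obtain ⟨u, hu⟩ := StageP_upd (b + 4) fv (by omega) hfv
  have hcap2 : ∀ n s, s0 n ≤ s → cap n + 1 ≤ 2 ^ s := by
    intro n s hs
    have h1 := cap_le_s0 n
    have h2 : s < 2 ^ s := Nat.lt_two_pow_self
    omega
  refine ⟨b + 7, b + 1, ad, b + 5,
    blk [pp, .mov (b + 2) 44, st, .ite b (blk [.const 43 0, .get (b + 1) b 43]) (.const (b + 1) 0),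
      .const (b + 3) 1, .const (b + 4) 0, .const (b + 5) (-1), fi, init],
    blk [tick, u, .ite (b + 4) (blk [.const 43 1, .sub 43 (b + 4) 43,
      .ite 43 .skip (blk [q, .ite 43 p2 p1])]) p0],
    fun x s σ => Inv x s σ ∧ StageP_I b (cap x.length) (d x.length) (s0 x.length) (F x.length)
      (F' x.length) (newA (d x.length) (mkB A F stp par x.length) true (F' x.length))
      (oldC (d x.length) (mkB A F stp par x.length).a (s0 x.length))
      (newC (d x.length) (mkB A F stp par x.length) true) s σ,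
    κp + κd + κ + κ0 + κ1 + 60, by omega, by omega, by omega, had, by omega, by omega, by omega,
    ?_, ?_, ?_, ?_⟩
  · -- init
    intro x σ hσ
    obtain ⟨τ1, w1, env1, -, c1, -, f1⟩ := hpp x σ hσ
    set τ2 := τ1.sv (b + 2) (τ1.v 44) with r2
    have f2 : Fr {b + 2} ∅ τ1 τ2 := StageP_fr_sv _ _ _ _ _ (by simp)
    have env2 : Env τ2 x := StageP_env env1 f2 (by simp; omega) (by simp; omega) (by simp)
      (by simp)
    have c2 : τ2.v (b + 2) = cap x.length := by rw [r2, StageP_sv_v, if_pos rfl, c1]
    obtain ⟨τ3, w3, env3, tab3, tl3, f3⟩ := hst x τ2 env2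
    obtain ⟨τ4, w4, lv4, f4⟩ := StageP_lev b τ3 (d x.length) tab3 tl3
    set τ5 := τ4.sv (b + 3) 1 with r5
    set τ6 := τ5.sv (b + 4) 0 with r6
    set τ7 := τ6.sv (b + 5) (-1) with r7
    have f7 : Fr {b + 3, b + 4, b + 5} ∅ τ4 τ7 :=
      ((StageP_fr_sv τ4 _ _ _ ∅ (by simp)).trans (StageP_fr_sv τ5 _ _ _ ∅ (by simp))).trans
        (StageP_fr_sv τ6 _ _ _ ∅ (by simp))
    have c7 : τ7.v (b + 2) = cap x.length := by
      rw [f7.v _ (by simp), f4.v _ (by simp [StageP_SV]; omega),
        f3.v _ (by simp [StageP_nLV (show 100 ≤ b + 2 by omega)]), c2]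
    obtain ⟨τ8, w8, e8, f8⟩ := hfi τ7 (cap x.length) c7
    have env8 : Env τ8 x := by
      refine StageP_env (StageP_env (StageP_env env3 f4 ?_ ?_ ?_ ?_) f7 ?_ ?_ ?_ ?_) f8 ?_ ?_ ?_ ?_
      all_goals simp [StageP_SV]
      all_goals omega
    obtain ⟨τ, w9, env9, inv9, f9⟩ := hinit x τ8 env8
    have g9v : ∀ v, b ≤ v → τ.v v = τ8.v v := by
      intro v hv
      refine f9.v v ?_
      rintro (h | h)
      · exact StageP_nLV (by omega) h
      · exact absurd h.2 (by omega)
    have g9a : ∀ v, b ≤ v → τ.a v = τ8.a v := by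
      intro v hv
      refine f9.a v ?_
      rintro (h | h)
      · exact StageP_nLA (by omega) h
      · exact absurd h.2 (by omega)
    have g8v : ∀ v, b ≤ v → τ8.v v = τ7.v v := by
      intro v hv
      refine f8.v v ?_
      simp only [StageP_SV, Set.mem_ofPred_eq]
      omega
    have hs0F : s0 x.length ≤ F x.length := (hb x.length).s0h
    have hFF : F x.length ≤ F' x.length := (hF x.length).1
    have hok := newA_ok (d x.length) (mkB A F stp par x.length) (hb x.length) true (F' x.length) hFF
    refine ⟨τ, ?_, env9, ⟨inv9, ?_, ?_, ?_, ?_, ?_, ?_, ?_⟩, ?_⟩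
    · refine (w1.seq ((StageP_mov τ1 (b + 2) 44).seq (w3.seq (w4.seq ((StageP_const τ4 _ _).seq
        ((StageP_const τ5 _ _).seq ((StageP_const τ6 _ _).seq (w8.seq (w9.seq
          (Reach.skip _)))))))))).mono ?_
      have h1 : cap x.length ≤ x.length + 1 := by
        have h2 := cap_le_s0 x.length
        have h3 : s0 x.length ≤ x.length := Nat.size_le.2 Nat.lt_two_pow_self
        omega
      nlinarith
    · intro i hi
      rw [g9a b le_rfl, f8.a b (by simp), f7.a b (by simp), f4.a b (by simp)]
      exact tab3 i hi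
    · rw [g9v b le_rfl, g8v b le_rfl, f7.v b (by simp), f4.v b (by simp [StageP_SV]; omega)]
      exact tl3
    · rw [g9v _ (by omega), g8v _ (by omega), f7.v _ (by simp)]
      exact lv4
    · rw [g9v _ (by omega), g8v _ (by omega)]
      exact c7
    · intro v hv
      rw [g9a _ (by omega), e8 v hv, if_neg]
      have := hok.lo v
      exact not_lt.2 this
    · rw [g9v _ (by omega), g8v _ (by omega), r7, StageP_sv_v, if_pos rfl, if_neg (by omega)]
    · left
      refine ⟨hs0F, ?_, ?_⟩
      · rw [g9v _ (by omega), g8v _ (by omega), r7, StageP_sv_v, if_neg (by omega), r6,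
          StageP_sv_v, if_pos rfl]
      · rw [g9v _ (by omega), g8v _ (by omega), r7, StageP_sv_v, if_neg (by omega), r6,
          StageP_sv_v, if_neg (by omega), r5, StageP_sv_v, if_pos rfl, Nat.sub_self]
        rfl
    · refine ((((((f1.mono ?_ ?_).trans (f2.mono ?_ ?_)).trans (f3.mono ?_ ?_)).trans
        (f4.mono ?_ ?_)).trans (f7.mono ?_ ?_)).trans (f8.mono ?_ ?_)).trans (f9.mono ?_ ?_)
      all_goals
        intro v hv
        simp only [StageP_SV, LV, LA, Set.mem_union, Set.mem_ofPred_eq, Set.mem_singleton_iff,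
          Set.mem_insert_iff, Set.mem_Ico, Set.mem_empty_iff_false] at hv ⊢ <;> omega
  · -- tick
    intro x s σ hσ hs ⟨hI, hJ⟩ h41 h42
    obtain ⟨τ1, w1, env1, inv1, f1⟩ := htick x s σ hσ hs hI h41 h42
    obtain ⟨rev, rad, rfv⟩ := hread x s τ1 hs inv1
    obtain ⟨τ2, w2, ph2, f2⟩ := hu τ1
    have hs0F : s0 x.length ≤ F x.length := (hb x.length).s0h
    have hFF : F x.length ≤ F' x.length := (hF x.length).1
    have hok := newA_ok (d x.length) (mkB A F stp par x.length) (hb x.length) true (F' x.length) hFF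
    have g1v : ∀ v, b ≤ v → τ1.v v = σ.v v := by
      intro v hv
      refine f1.v v ?_
      rintro (h | h)
      · exact StageP_nLV (by omega) h
      · exact absurd h.2 (by omega)
    have g1a : ∀ v, b ≤ v → τ1.a v = σ.a v := by
      intro v hv
      refine f1.a v ?_
      rintro (h | h)
      · exact StageP_nLA (by omega) h
      · exact absurd h.2 (by omega)
    have t41 : τ1.v 41 = s := by
      rw [f1.v 41 (by simp [LV]), h41]
    have J1 := StageP_I_congr (fun v h1 _ => g1v v h1) (fun a h1 _ => g1a a h1) hJ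
    have g2v : ∀ v, 100 ≤ v → v ≠ b + 4 → τ2.v v = τ1.v v := by
      intro v hv hv'
      refine f2.v v ?_
      simp only [StageP_SV, Set.mem_union, Set.mem_ofPred_eq, Set.mem_singleton_iff]
      omega
    have g2a : ∀ v, τ2.a v = τ1.a v := fun v => f2.a v (by simp)
    have t41' : τ2.v 41 = s := by
      rw [f2.v 41 (by simp [StageP_SV]; omega), t41]
    have env2 : Env τ2 x := by
      refine StageP_env env1 f2 ?_ ?_ ?_ ?_
      all_goals simp [StageP_SV]
      all_goals omega
    have tab2 : StoredAt τ2 b 0 (d x.length) := by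
      intro i hi
      rw [g2a]
      exact J1.tab i hi
    have tl2 : τ2.v b = (d x.length).length := by rw [g2v b hb100 (by omega)]; exact J1.htl
    have lv2 : τ2.v (b + 1) = lev (d x.length) := by
      rw [g2v _ (by omega) (by omega)]; exact J1.hlv
    have cp2 : τ2.v (b + 2) = cap x.length := by
      rw [g2v _ (by omega) (by omega)]; exact J1.hcp
    have en2 : ∀ v < cap x.length, τ2.a (b + 1) v =
        if newA (d x.length) (mkB A F stp par x.length) true (F' x.length) v < s then
          (newA (d x.length) (mkB A F stp par x.length) true (F' x.length) v : ℤ) else -1 := by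
      intro v hv
      rw [g2a]
      exact J1.hen v hv
    have fw2 : τ2.v (b + 5) = if F' x.length < s then (F' x.length : ℤ) else -1 := by
      rw [g2v _ (by omega) (by omega)]; exact J1.hfw
    have cv2 : τ2.v (b + 3) = τ1.v (b + 3) := g2v _ (by omega) (by omega)
    -- it is enough to treat the dispatch
    have main : ∃ τ, Reach (.ite (b + 4) (blk [.const 43 1, .sub 43 (b + 4) 43,
        .ite 43 .skip (blk [q, .ite 43 p2 p1])]) p0) τ2 ((κ0 + κ1 + 30) * (cap x.length + 1)) τ ∧
        StageP_I b (cap x.length) (d x.length) (s0 x.length) (F x.length)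
          (F' x.length) (newA (d x.length) (mkB A F stp par x.length) true (F' x.length))
          (oldC (d x.length) (mkB A F stp par x.length).a (s0 x.length))
          (newC (d x.length) (mkB A F stp par x.length) true) (s + 1) τ ∧
        Fr (StageP_SV ∪ {b + 3, b + 4, b + 5, b + 6}) {b + 1} τ2 τ := by
      by_cases hA : s < F x.length
      · -- phase 0
        obtain ⟨hph1, hcode⟩ : τ1.v (b + 4) = 0 ∧ τ1.v (b + 3) =
            oldC (d x.length) (mkB A F stp par x.length).a (s0 x.length) (s - s0 x.length) := by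
          rcases J1.hph with ⟨_, h2, h3⟩ | ⟨h1, _⟩ | ⟨h1, _⟩
          · exact ⟨h2, h3⟩
          · omega
          · omega
        have hfv' : τ1.v fv = -1 := by rw [rfv, if_neg (by omega)]
        have hph2 : τ2.v (b + 4) = 0 := by
          rw [ph2, hph1, hfv', if_neg]
          rintro ⟨_, h2⟩
          omega
        obtain ⟨τ3, w3, c3, e3, f3⟩ := hp0 τ2 (d x.length) _ (cap x.length)
          (fun v => if A v x.length ≤ s then (A v x.length : ℤ) else -1) tab2 tl2
          (cv2.trans hcode) lv2 cp2 (hlev x.length) (by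
            intro v hv
            rw [g2a]
            exact rev v hv)
        refine ⟨τ3, ?_, ⟨?_, ?_, ?_, ?_, ?_, ?_, ?_⟩, ?_⟩
        · refine (Reach.ite_neg (by rw [hph2]; omega) w3).mono ?_
          nlinarith
        · intro i hi
          rw [f3.a b (by simp)]
          exact tab2 i hi
        · rw [f3.v b (by simp [StageP_SV]; omega)]
          exact tl2
        · rw [f3.v _ (by simp [StageP_SV]; omega)]
          exact lv2
        · rw [f3.v _ (by simp [StageP_SV]; omega)]
          exact cp2
        · intro v hv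
          rw [e3 v hv, StageP_old _ _ _ _ _ (show s + 1 ≤ (mkB A F stp par x.length).h from hA)]
          simp only [Nat.lt_succ_iff]
          rfl
        · rw [f3.v _ (by simp [StageP_SV]; omega), fw2, if_neg (by omega), if_neg (by omega)]
        · left
          refine ⟨hA, ?_, ?_⟩
          · rw [f3.v _ (by simp [StageP_SV]; omega)]
            exact hph2
          · rw [c3, show s + 1 - s0 x.length = (s - s0 x.length) + 1 by omega]
            congr 1
            show stepS _ _ _ = stepS _ _ _
            congr 1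
            funext v _
            rw [show s0 x.length + (s - s0 x.length) = s by omega]
            show decide (0 ≤ if A v x.length ≤ s then (A v x.length : ℤ) else -1) =
              decide (A v x.length ≤ s)
            by_cases h1 : A v x.length ≤ s
            · simp [h1]
            · simp [h1]
        · refine f3.mono ?_ (le_refl _)
          intro v hv
          simp only [Set.mem_union, Set.mem_singleton_iff, Set.mem_insert_iff] at hv ⊢
          tauto
      · by_cases hB : s ≤ F' x.length
        · -- phase 1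
          obtain ⟨hph2, hcode⟩ : τ2.v (b + 4) = 1 ∧ τ2.v (b + 3) =
              newC (d x.length) (mkB A F stp par x.length) true (s - F x.length) := by
            rw [cv2]
            rcases J1.hph with ⟨h1, h2, h3⟩ | ⟨h1, h2, h3, h4⟩ | ⟨h1, _⟩
            · have h5 : s = F x.length := by omega
              refine ⟨?_, ?_⟩
              · rw [ph2, h2, rfv, if_pos]
                refine ⟨by omega, ?_⟩
                rw [if_pos (by omega)]
                omega
              · rw [h3, h5, Nat.sub_self]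
                rfl
            · refine ⟨?_, h4⟩
              rw [ph2, h3, if_neg]
              rintro ⟨h5, _⟩
              omega
            · omega
          set τ3 := τ2.sv 43 1 with r3
          set τ4 := τ3.sv 43 (τ3.v (b + 4) - τ3.v 43) with r4
          have e43 : τ4.v 43 = 0 := by
            rw [r4, StageP_sv_v, if_pos rfl, r3, StageP_sv_v, if_neg (by omega), StageP_sv_v,
              if_pos rfl, hph2]
            omega
          have f24 : Fr StageP_SV ∅ τ2 τ4 :=
            (StageP_fr_sv τ2 43 _ _ ∅ (by simp [StageP_SV])).trans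
              (StageP_fr_sv τ3 43 _ _ ∅ (by simp [StageP_SV]))
          obtain ⟨τ5, w5, b5, f5⟩ := hq τ4 (cap x.length) (fun e => stp e x.length s)
            (by rw [f24.v _ (by simp [StageP_SV]; omega), cp2])
            (by
              intro e he
              rw [f24.a _ (by simp), g2a]
              exact rad e he)
          have f25 := f24.trans f5
          have hbit : 0 < τ5.v 43 ↔ stp p x.length s = true := by
            rw [b5]
            constructor
            · rintro (h | h)
              · exact hstp p _ _ h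
              · exact h
            · exact Or.inr
          have cp5 : τ5.v (b + 2) = cap x.length := by
            rw [f25.v _ (by simp [StageP_SV]; omega), cp2]
          have t5 : τ5.v 41 = s := by
            rw [f25.v _ (by simp [StageP_SV]), t41']
          have en5 : ∀ v < cap x.length, τ5.a (b + 1) v =
              if newA (d x.length) (mkB A F stp par x.length) true (F' x.length) v < s then
              (newA (d x.length) (mkB A F stp par x.length) true (F' x.length) v : ℤ) else -1 := by
            intro v hv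
            rw [f25.a _ (by simp)]
            exact en2 v hv
          by_cases hbt : stp p x.length s = true
          · have hsF : s = F' x.length := by
              by_contra hne
              have := (hF x.length).2.2 s (by omega) (by omega)
              rw [hbt] at this
              exact Bool.noConfusion this
            obtain ⟨τ6, w6, ph6, fw6, e6, f6⟩ := hp2 τ5 (cap x.length) s cp5 t5
            have f26 := (f25.mono (VS' := StageP_SV ∪ {b + 4, b + 5}) (AS' := {b + 1})
              Set.subset_union_left (by simp)).trans f6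
            refine ⟨τ6, ?_, ⟨?_, ?_, ?_, ?_, ?_, ?_, ?_⟩, ?_⟩
            · refine (Reach.ite_pos (by rw [hph2]; omega) ((StageP_const τ2 43 1).seq
                ((StageP_sub τ3 43 (b + 4) 43).seq ((Reach.ite_neg (by rw [e43]; omega)
                  (w5.seq ((Reach.ite_pos (hbit.2 hbt) w6).seq (Reach.skip _)))).seq
                    (Reach.skip _))))).mono ?_
              nlinarith
            · intro i hi
              rw [f26.a b (by simp)]
              exact tab2 i hi
            · rw [f26.v b (by simp [StageP_SV]; omega)]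
              exact tl2
            · rw [f26.v _ (by simp [StageP_SV]; omega)]
              exact lv2
            · rw [f26.v _ (by simp [StageP_SV]; omega)]
              exact cp2
            · intro v hv
              have h1 := hok.hi v
              have h2 : newA (d x.length) (mkB A F stp par x.length) true (F' x.length) v ≤ s := by
                rw [hsF]
                exact h1
              rw [e6 v hv, en5 v hv, if_pos (Nat.lt_succ_of_le h2)]
              by_cases h3 : newA (d x.length) (mkB A F stp par x.length) true (F' x.length) v < s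
              · rw [if_pos h3, if_neg (by omega)]
              · rw [if_neg h3, if_pos (by omega)]
                have : newA (d x.length) (mkB A F stp par x.length) true (F' x.length) v = s := by
                  omega
                rw [this]
            · rw [fw6, if_pos (by omega), hsF]
            · right; right
              exact ⟨by omega, ph6⟩
            · refine f26.mono ?_ (le_refl _)
              intro v hv
              simp only [Set.mem_union, Set.mem_singleton_iff, Set.mem_insert_iff] at hv ⊢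
              tauto
          · have hsF : s < F' x.length := by
              refine lt_of_le_of_ne hB ?_
              intro he
              rw [he] at hbt
              exact hbt (hF x.length).2.1
            obtain ⟨τ6, w6, c6, e6, f6⟩ := hp1 τ5 (d x.length) _ s (cap x.length)
              (fun e => stp e x.length s)
              (fun v => if newA (d x.length) (mkB A F stp par x.length) true (F' x.length) v < s
                then (newA (d x.length) (mkB A F stp par x.length) true (F' x.length) v : ℤ)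
                else -1)
              (by
                intro i hi
                rw [f25.a _ (by simp)]
                exact tab2 i hi)
              (by rw [f25.v _ (by simp [StageP_SV]; omega), tl2])
              (by rw [f25.v _ (by simp [StageP_SV]; omega), hcode])
              (by rw [f25.v _ (by simp [StageP_SV]; omega), lv2]) cp5 (hlev x.length) t5
              (by
                intro e he
                rw [f25.a _ (by simp), g2a]
                exact rad e he) en5
            have f26 := (f25.mono (VS' := StageP_SV ∪ {b + 3, b + 6}) (AS' := {b + 1})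
              Set.subset_union_left (by simp)).trans f6
            have hu1 : (mkB A F stp par x.length).h + (s - F x.length) = s := by
              show F x.length + (s - F x.length) = s
              omega
            refine ⟨τ6, ?_, ⟨?_, ?_, ?_, ?_, ?_, ?_, ?_⟩, ?_⟩
            · refine (Reach.ite_pos (by rw [hph2]; omega) ((StageP_const τ2 43 1).seq
                ((StageP_sub τ3 43 (b + 4) 43).seq ((Reach.ite_neg (by rw [e43]; omega)
                  (w5.seq ((Reach.ite_neg (by rw [hbit]; exact hbt) w6).seq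
                    (Reach.skip _)))).seq (Reach.skip _))))).mono ?_
              nlinarith
            · intro i hi
              rw [f26.a b (by simp)]
              exact tab2 i hi
            · rw [f26.v b (by simp [StageP_SV]; omega)]
              exact tl2
            · rw [f26.v _ (by simp [StageP_SV]; omega)]
              exact lv2
            · rw [f26.v _ (by simp [StageP_SV]; omega)]
              exact cp2
            · intro v hv
              rw [e6 v hv, StageP_bitstep _ _ _ _ _
                (show (mkB A F stp par x.length).h ≤ s from not_lt.1 hA) hsF]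
              have h1 : bitAt (d x.length) (mkB A F stp par x.length) true
                  (s - (mkB A F stp par x.length).h) v =
                  nbit (d x.length) (mkB A F stp par x.length) 0 s v
                    (cst (nbit (d x.length) (mkB A F stp par x.length) 0 s)
                      (newC (d x.length) (mkB A F stp par x.length) true (s - F x.length)) v) := by
                show nbit (d x.length) (mkB A F stp par x.length) 0
                  ((mkB A F stp par x.length).h + (s - F x.length)) v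
                    (cst (nbit (d x.length) (mkB A F stp par x.length) 0
                      ((mkB A F stp par x.length).h + (s - F x.length)))
                      (newC (d x.length) (mkB A F stp par x.length) true (s - F x.length)) v) = _
                rw [hu1]
              rw [h1]
              rfl
            · rw [f26.v _ (by simp [StageP_SV]; omega), fw2, if_neg (by omega),
                if_neg (by omega)]
            · right; left
              refine ⟨by omega, hsF, ?_, ?_⟩
              · rw [f26.v _ (by simp [StageP_SV]; omega)]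
                exact hph2
              · rw [c6, show s + 1 - F x.length = (s - F x.length) + 1 by omega]
                congr 1
                show _ = stepS _ (nbit (d x.length) (mkB A F stp par x.length) 0
                  ((mkB A F stp par x.length).h + (s - F x.length))) _
                rw [hu1]
                rfl
            · refine f26.mono ?_ (le_refl _)
              intro v hv
              simp only [Set.mem_union, Set.mem_singleton_iff, Set.mem_insert_iff] at hv ⊢
              tauto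
        · -- phase 2
          have hph1 : τ1.v (b + 4) = 2 := by
            rcases J1.hph with ⟨h1, _⟩ | ⟨_, h1, _⟩ | ⟨_, h1⟩
            · omega
            · omega
            · exact h1
          have hph2 : τ2.v (b + 4) = 2 := by
            rw [ph2, hph1, if_neg]
            rintro ⟨h5, _⟩
            omega
          set τ3 := τ2.sv 43 1 with r3
          set τ4 := τ3.sv 43 (τ3.v (b + 4) - τ3.v 43) with r4
          have e43 : τ4.v 43 = 1 := by
            rw [r4, StageP_sv_v, if_pos rfl, r3, StageP_sv_v, if_neg (by omega), StageP_sv_v,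
              if_pos rfl, hph2]
            omega
          have f24 : Fr StageP_SV ∅ τ2 τ4 :=
            (StageP_fr_sv τ2 43 _ _ ∅ (by simp [StageP_SV])).trans
              (StageP_fr_sv τ3 43 _ _ ∅ (by simp [StageP_SV]))
          refine ⟨τ4, ?_, ⟨?_, ?_, ?_, ?_, ?_, ?_, ?_⟩, ?_⟩
          · refine (Reach.ite_pos (by rw [hph2]; omega) ((StageP_const τ2 43 1).seq
              ((StageP_sub τ3 43 (b + 4) 43).seq ((Reach.ite_pos (by rw [e43]; omega)
                (Reach.skip τ4)).seq (Reach.skip _))))).mono ?_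
            nlinarith
          · intro i hi
            rw [f24.a b (by simp)]
            exact tab2 i hi
          · rw [f24.v b (by simp [StageP_SV]; omega)]
            exact tl2
          · rw [f24.v _ (by simp [StageP_SV]; omega)]
            exact lv2
          · rw [f24.v _ (by simp [StageP_SV]; omega)]
            exact cp2
          · intro v hv
            have h1 := hok.hi v
            have h2 : newA (d x.length) (mkB A F stp par x.length) true (F' x.length) v < s :=
              lt_of_le_of_lt h1 (not_le.1 hB)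
            rw [f24.a _ (by simp), en2 v hv, if_pos h2, if_pos (by omega)]
          · rw [f24.v _ (by simp [StageP_SV]; omega), fw2, if_pos (by omega), if_pos (by omega)]
          · right; right
            refine ⟨by omega, ?_⟩
            rw [f24.v _ (by simp [StageP_SV]; omega)]
            exact hph2
          · exact f24.mono Set.subset_union_left (by simp)
    obtain ⟨τ, w3, J3, f3⟩ := main
    have f23 := (f2.mono (VS' := StageP_SV ∪ {b + 3, b + 4, b + 5, b + 6}) (AS' := {b + 1})
      (by
        intro v hv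
        simp only [Set.mem_union, Set.mem_singleton_iff, Set.mem_insert_iff] at hv ⊢
        tauto) (by simp)).trans f3
    refine ⟨τ, ?_, ?_, ⟨?_, J3⟩, ?_⟩
    · refine (w1.seq (w2.seq (w3.seq (Reach.skip _)))).mono ?_
      have := hcap2 x.length s hs
      nlinarith
    · refine StageP_env env1 f23 ?_ ?_ ?_ ?_
      all_goals simp [StageP_SV]
      all_goals omega
    · refine hinv x (s + 1) τ1 τ ?_ ?_ inv1
      · intro v h1 h2
        refine f23.v v ?_
        simp only [StageP_SV, Set.mem_union, Set.mem_ofPred_eq, Set.mem_singleton_iff,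
          Set.mem_insert_iff]
        omega
      · intro a h1 h2
        refine f23.a a ?_
        simp only [Set.mem_singleton_iff]
        omega
    · refine (f1.mono ?_ ?_).trans (f23.mono ?_ ?_)
      all_goals
        intro v hv
        simp only [StageP_SV, LV, LA, Set.mem_union, Set.mem_ofPred_eq, Set.mem_singleton_iff,
          Set.mem_insert_iff, Set.mem_Ico, Set.mem_empty_iff_false] at hv ⊢ <;> omega
  · -- read
    intro x s σ hs ⟨hI, hJ⟩
    obtain ⟨h1, h2, h3⟩ := hread x s σ hs hI
    refine ⟨?_, h2, ?_⟩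
    · intro v hv
      rw [hJ.hen v hv]
      simp only [Nat.lt_succ_iff]
    · rw [hJ.hfw]
      simp only [Nat.lt_succ_iff]
  · -- congruence
    intro x s σ τ hv ha ⟨hI, hJ⟩
    refine ⟨hinv x s σ τ (fun v h1 h2 => hv v h1 (by omega)) (fun a h1 h2 => ha a h1 (by omega)) hI,
      StageP_I_congr (fun v h1 h2 => hv v (by omega) h2) (fun a h1 h2 => ha a (by omega) h2) hJ⟩

end Pool.Agent.H71.CT
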