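import Pool.Agent.H71.CT.LoopNew
import Pool.Agent.H71.CT.LoopOld
import Pool.Agent.H71.CT.Prep
import Pool.Agent.H71.CT.TabFacts

/-! Real time realisation of a stage, side with constructed horizon. -/

namespace Pool.Agent.H71.CT

private theorem stageQ_sv_v (σ : St) (v w : ℕ) (z : ℤ) :
    (σ.sv v z).v w = if w = v then z else σ.v w := by
  simp [St.sv, Function.update_apply]

private theorem stageQ_sv_a (σ : St) (v : ℕ) (z : ℤ) : (σ.sv v z).a = σ.a := rfl

private theorem stageQ_fr_sv {VS AS : Set ℕ} (σ : St) {v : ℕ} (hv : v ∈ VS) (z : ℤ) :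
    Fr VS AS σ (σ.sv v z) := by
  refine ⟨fun w hw => ?_, fun _ _ => rfl, rfl, rfl⟩
  rw [stageQ_sv_v, if_neg]
  rintro rfl
  exact hw hv

private theorem stageQ_rc (σ : St) (v : ℕ) (c : ℤ) : Reach (.const v c) σ 1 (σ.sv v c) :=
  ⟨1, le_rfl, Big.const σ v c⟩

private theorem stageQ_rm (σ : St) (v a : ℕ) : Reach (.mov v a) σ 1 (σ.sv v (σ.v a)) :=
  ⟨1, le_rfl, Big.mov σ v a⟩

private theorem stageQ_ra (σ : St) (v a b : ℕ) :
    Reach (.add v a b) σ 1 (σ.sv v (σ.v a + σ.v b)) :=
  ⟨1, le_rfl, Big.add σ v a b⟩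

private theorem stageQ_rs (σ : St) (v a b : ℕ) :
    Reach (.sub v a b) σ 1 (σ.sv v (σ.v a - σ.v b)) :=
  ⟨1, le_rfl, Big.sub σ v a b⟩

private theorem stageQ_rg (σ : St) (v a i : ℕ) :
    Reach (.get v a i) σ 1 (σ.sv v (σ.a a (σ.v i).toNat)) :=
  ⟨1, le_rfl, Big.get σ v a i⟩

private theorem stageQ_rp (σ : St) (a i v : ℕ) :
    Reach (.put a i v) σ 1 (σ.sa a (σ.v i).toNat (σ.v v)) :=
  ⟨1, le_rfl, Big.put σ a i v⟩

/-- a loop over the cells `v < cp` of the array `en` -/
private theorem stageQ_fill (en cpv : ℕ) (h100 : 100 ≤ cpv) (B : Stmt) (κ0 : ℕ)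
    (f : ℤ → ℤ → ℤ)
    (HB : ∀ (σ : St) (i : ℕ), σ.v 50 = i → σ.v 52 = 1 → ∃ τ, Reach B σ κ0 τ ∧
      τ.a en = Function.update (σ.a en) i (f (σ.v 41) (σ.a en i)) ∧ Fr {53} {en} σ τ) :
    ∃ (p : Stmt) (κ : ℕ), ∀ (σ : St) (cp : ℕ), σ.v cpv = cp →
      ∃ τ, Reach p σ (κ * (cp + 1)) τ ∧ (∀ v < cp, τ.a en v = f (σ.v 41) (σ.a en v)) ∧
        Fr {v | 50 ≤ v ∧ v < 60} {en} σ τ := by
  refine ⟨.seq (.const 52 1) (.seq (.const 50 0) (.seq (.mov 51 cpv)
    (.whl 51 (.seq B (.seq (.add 50 50 52) (.sub 51 51 52)))))), κ0 + 10, ?_⟩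
  intro σ cp hcp
  have r1 := stageQ_rc σ 52 1
  have r2 := stageQ_rc (σ.sv 52 1) 50 0
  have r3 := stageQ_rm ((σ.sv 52 1).sv 50 0) 51 cpv
  obtain ⟨σ1, hσ1⟩ : ∃ s, s = ((σ.sv 52 1).sv 50 0).sv 51 (((σ.sv 52 1).sv 50 0).v cpv) :=
    ⟨_, rfl⟩
  rw [← hσ1] at r3
  have hfr1 : Fr {v | 50 ≤ v ∧ v < 60} {en} σ σ1 := by
    rw [hσ1]
    exact ((stageQ_fr_sv σ (by simp) _).trans (stageQ_fr_sv _ (by simp) _)).trans
      (stageQ_fr_sv _ (by simp) _)
  have e51 : σ1.v 51 = cp := by
    rw [hσ1, stageQ_sv_v, if_pos rfl, stageQ_sv_v, if_neg (by omega), stageQ_sv_v,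
      if_neg (by omega), hcp]
  have e50 : σ1.v 50 = 0 := by
    rw [hσ1, stageQ_sv_v, if_neg (by omega), stageQ_sv_v, if_pos rfl]
  have e52 : σ1.v 52 = 1 := by
    rw [hσ1, stageQ_sv_v, if_neg (by omega), stageQ_sv_v, if_neg (by omega), stageQ_sv_v,
      if_pos rfl]
  have ea : σ1.a = σ.a := by rw [hσ1]; rfl
  obtain ⟨τ, hτ, hI⟩ := Reach.loop (v := 51) (s := .seq B (.seq (.add 50 50 52) (.sub 51 51 52)))
    cp (fun j τ => Fr {v | 50 ≤ v ∧ v < 60} {en} σ τ ∧ τ.v 50 = j ∧ τ.v 51 = (cp : ℤ) - j ∧
      τ.v 52 = 1 ∧ (∀ v < j, τ.a en v = f (σ.v 41) (σ.a en v)) ∧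
      (∀ v, j ≤ v → τ.a en v = σ.a en v)) (fun _ => κ0 + 2)
    (by
      rintro j hj τ ⟨-, -, h51, -⟩
      rw [h51]
      omega)
    (by
      rintro τ ⟨-, -, h51, -⟩
      rw [h51]
      omega)
    (by
      rintro j hj τ ⟨hfr, h50, h51, h52, hlo, hhi⟩
      obtain ⟨τ1, hr1, ha1, hf1⟩ := HB τ j h50 h52
      have q2 := stageQ_ra τ1 50 50 52
      have q3 := stageQ_rs (τ1.sv 50 (τ1.v 50 + τ1.v 52)) 51 51 52
      have k50 : τ1.v 50 = j := by rw [hf1.v 50 (by simp), h50]
      have k51 : τ1.v 51 = (cp : ℤ) - j := by rw [hf1.v 51 (by simp), h51]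
      have k52 : τ1.v 52 = 1 := by rw [hf1.v 52 (by simp), h52]
      have k41 : τ.v 41 = σ.v 41 := hfr.v 41 (by simp)
      refine ⟨_, (hr1.seq (q2.seq q3)).mono (by omega), ?_, ?_, ?_, ?_, ?_, ?_⟩
      · exact hfr.trans ((hf1.mono (by intro v hv; simp at hv; subst hv; simp) (by rfl)).trans
          ((stageQ_fr_sv τ1 (by simp) _).trans (stageQ_fr_sv _ (by simp) _)))
      · simp [stageQ_sv_v, k50, k52]
      · simp only [stageQ_sv_v, k51, k52]
        norm_num
        ring
      · simp [stageQ_sv_v, k52]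
      · intro v hv
        simp only [stageQ_sv_a, ha1]
        rcases Nat.lt_succ_iff_lt_or_eq.1 hv with h | h
        · rw [Function.update_of_ne (by omega), hlo v h]
        · subst h
          rw [Function.update_self, k41, hhi v le_rfl]
      · intro v hv
        simp only [stageQ_sv_a, ha1]
        rw [Function.update_of_ne (by omega)]
        exact hhi v (by omega))
    σ1 ⟨hfr1, by rw [e50]; simp, by rw [e51]; simp, e52, fun v hv => absurd hv (Nat.not_lt_zero v),
      fun v _ => by rw [ea]⟩
  refine ⟨τ, (r1.seq (r2.seq (r3.seq hτ))).mono ?_, hI.2.2.2.2.1, hI.1⟩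
  rw [Finset.sum_const, Finset.card_range, smul_eq_mul]
  nlinarith

private theorem stageQ_init (en cpv : ℕ) (h100 : 100 ≤ cpv) :
    ∃ (p : Stmt) (κ : ℕ), ∀ (σ : St) (cp : ℕ), σ.v cpv = cp →
      ∃ τ, Reach p σ (κ * (cp + 1)) τ ∧ (∀ v < cp, τ.a en v = -1) ∧
        Fr {v | 50 ≤ v ∧ v < 60} {en} σ τ := by
  refine stageQ_fill en cpv h100 (.seq (.const 53 (-1)) (.put en 50 53)) 2 (fun _ _ => -1) ?_
  intro σ i h50 h52
  have r1 := stageQ_rc σ 53 (-1)
  have r2 := stageQ_rp (σ.sv 53 (-1)) en 50 53
  have e50 : ((σ.sv 53 (-1)).v 50).toNat = i := by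
    rw [stageQ_sv_v, if_neg (by omega), h50]; simp
  have e53 : (σ.sv 53 (-1)).v 53 = -1 := by rw [stageQ_sv_v, if_pos rfl]
  rw [e50, e53] at r2
  refine ⟨_, r1.seq r2, ?_, ?_⟩
  · simp [St.sa, stageQ_sv_a]
  · refine (stageQ_fr_sv σ (by simp) _).trans ⟨fun _ _ => rfl, fun a ha => ?_, rfl, rfl⟩
    simp only [St.sa]
    exact Function.update_of_ne (by simpa using ha) _ _

private theorem stageQ_fin (en cpv : ℕ) (h100 : 100 ≤ cpv) :
    ∃ (p : Stmt) (κ : ℕ), ∀ (σ : St) (cp : ℕ), σ.v cpv = cp →
      ∃ τ, Reach p σ (κ * (cp + 1)) τ ∧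
        (∀ v < cp, τ.a en v = if 0 ≤ σ.a en v then σ.a en v else σ.v 41) ∧
        Fr {v | 50 ≤ v ∧ v < 60} {en} σ τ := by
  refine stageQ_fill en cpv h100 (.seq (.get 53 en 50) (.seq (.add 53 53 52)
    (.ite 53 .skip (.put en 50 41)))) 4 (fun t z => if 0 ≤ z then z else t) ?_
  intro σ i h50 h52
  have r1 := stageQ_rg σ 53 en 50
  have e50 : (σ.v 50).toNat = i := by rw [h50]; simp
  rw [e50] at r1
  have r2 := stageQ_ra (σ.sv 53 (σ.a en i)) 53 53 52
  have e53 : (σ.sv 53 (σ.a en i)).v 53 + (σ.sv 53 (σ.a en i)).v 52 = σ.a en i + 1 := by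
    rw [stageQ_sv_v, if_pos rfl, stageQ_sv_v, if_neg (by omega), h52]
  rw [e53] at r2
  obtain ⟨σ2, hσ2⟩ : ∃ s, s = (σ.sv 53 (σ.a en i)).sv 53 (σ.a en i + 1) := ⟨_, rfl⟩
  rw [← hσ2] at r2
  have k53 : σ2.v 53 = σ.a en i + 1 := by rw [hσ2, stageQ_sv_v, if_pos rfl]
  have ka : σ2.a = σ.a := by rw [hσ2]; rfl
  have hfr2 : Fr {53} {en} σ σ2 := by
    rw [hσ2]
    exact (stageQ_fr_sv σ (by simp) _).trans (stageQ_fr_sv _ (by simp) _)
  by_cases hz : 0 ≤ σ.a en i
  · refine ⟨σ2, (r1.seq (r2.seq (Reach.ite_pos (by rw [k53]; omega) (Reach.skip σ2)))).mono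
      (by omega), ?_, hfr2⟩
    rw [if_pos hz, ka]
    simp
  · have r3 := stageQ_rp σ2 en 50 41
    have e1 : (σ2.v 50).toNat = i := by rw [hfr2.v 50 (by simp), h50]; simp
    have e2 : σ2.v 41 = σ.v 41 := hfr2.v 41 (by simp)
    rw [e1, e2] at r3
    refine ⟨_, (r1.seq (r2.seq (Reach.ite_neg (by rw [k53]; omega) r3))).mono (by omega), ?_, ?_⟩
    · rw [if_neg hz]
      simp [St.sa, ka]
    · refine hfr2.trans ⟨fun _ _ => rfl, fun a ha => ?_, rfl, rfl⟩
      simp only [St.sa]
      exact Function.update_of_ne (by simpa using ha) _ _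

private theorem stageQ_env {VS AS : Set ℕ} {σ τ : St} {x : List Bool} (h : Env σ x)
    (hf : Fr VS AS σ τ) (h40 : 40 ∉ VS) (h8 : 8 ∉ VS) (h0 : 0 ∉ AS) (h2 : 2 ∉ AS) : Env τ x := by
  refine ⟨by rw [hf.v 40 h40]; exact h.n, fun i hi => ?_, ?_, ?_⟩
  · rw [hf.a 0 h0]; exact h.inp i hi
  · rw [hf.v 8 h8]; exact h.stamps.1
  · intro i
    rw [hf.a 2 h2, hf.v 8 h8]; exact h.stamps.2 i

/-- the invariant -/
private structure stageQ_I (b : ℕ) (A : ℕ → ℕ → ℕ) (F : ℕ → ℕ) (stp : ℕ → ℕ → ℕ → Bool)
    (par : Bool) (d : ℕ → List ℕ) (Inv : List Bool → ℕ → St → Prop) (x : List Bool) (s : ℕ)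
    (σ : St) : Prop where
  old : Inv x s σ
  tab : StoredAt σ b 0 (d x.length)
  tl : σ.v b = (d x.length).length
  lv : σ.v (b + 1) = lev (d x.length)
  cp : σ.v (b + 2) = cap x.length
  p0 : s ≤ F x.length → σ.v (b + 4) = 0 ∧
    σ.v (b + 3) = oldC (d x.length) (fun v => A v x.length) (s0 x.length) (s - s0 x.length)
  p1 : F x.length < s → s ≤ newH (d x.length) (mkB A F stp par x.length) → σ.v (b + 4) = 1 ∧
    σ.v (b + 3) = newC (d x.length) (mkB A F stp par x.length) false (s - F x.length)
  p2 : newH (d x.length) (mkB A F stp par x.length) < s → σ.v (b + 4) = 2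
  en : ∀ v < cap x.length, σ.a (b + 1) v =
    if newA (d x.length) (mkB A F stp par x.length) false
      (newH (d x.length) (mkB A F stp par x.length)) v < s then
      (newA (d x.length) (mkB A F stp par x.length) false
        (newH (d x.length) (mkB A F stp par x.length)) v : ℤ) else -1
  fn : σ.v (b + 5) = if newH (d x.length) (mkB A F stp par x.length) < s then
    (newH (d x.length) (mkB A F stp par x.length) : ℤ) else -1

/-- stopping times at the times before the old horizon -/
private theorem stageQ_newA_old (T : List ℕ) (b : Board) (h' s v : ℕ) (hs : s < b.h) :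
    (if newA T b false h' v < s + 1 then (newA T b false h' v : ℤ) else -1) =
      if b.a v ≤ s then (b.a v : ℤ) else -1 := by
  unfold newA
  by_cases h : b.a v < b.h
  · simp only [if_pos h, Nat.lt_succ_iff]
  · simp only [if_neg h]
    rw [if_neg (by omega), if_neg (by omega)]

/-- stopping times between the horizons -/
private theorem stageQ_newA_new (T : List ℕ) (b : Board) (h' s v : ℕ) (hs : b.h ≤ s)
    (hs' : s < h') (w : ℤ) (hw : w = if newA T b false h' v < s then
      (newA T b false h' v : ℤ) else -1) :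
    (if w < 0 ∧ bitAt T b false (s - b.h) v = true then (s : ℤ) else w) =
      if newA T b false h' v < s + 1 then (newA T b false h' v : ℤ) else -1 := by
  by_cases h : b.a v < b.h
  · have e : newA T b false h' v = b.a v := by unfold newA; rw [if_pos h]
    rw [e] at hw ⊢
    rw [if_pos (by omega)] at hw
    rw [if_neg (by omega), if_pos (by omega), hw]
  · have e : newA T b false h' v =
        b.h + leastBelow (fun u => bitAt T b false u v) (h' - b.h) := by
      unfold newA; rw [if_neg h]
    obtain ⟨L, hL⟩ : ∃ L, L = leastBelow (fun u => bitAt T b false u v) (h' - b.h) := ⟨_, rfl⟩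
    have hmin := leastBelow_min (fun u => bitAt T b false u v) (h' - b.h)
    have hspec := leastBelow_spec (fun u => bitAt T b false u v) (h' - b.h)
    have hle := leastBelow_le_iff (fun u => bitAt T b false u v) (h' - b.h) (s - b.h) (by omega)
    rw [← hL] at e hmin hspec hle
    rw [e] at hw ⊢
    by_cases h1 : L < s - b.h
    · rw [if_pos (by omega)] at hw
      rw [if_neg (by omega), if_pos (by omega), hw]
    · rw [if_neg (by omega)] at hw
      by_cases h2 : bitAt T b false (s - b.h) v = true
      · have h3 : L ≤ s - b.h := hle.2 ⟨s - b.h, le_rfl, h2⟩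
        rw [if_pos ⟨by omega, h2⟩, if_pos (by omega)]
        push_cast
        omega
      · rw [if_neg (fun h => h2 h.2), hw]
        have h3 : L ≠ s - b.h := by
          intro h3
          apply h2
          have := hspec (by omega)
          rw [← h3]
          exact this
        rw [if_neg (by omega)]

private theorem stageQ_first (b fv : ℕ) (hb : 100 ≤ b) (hfv : 100 ≤ fv) (σ : St) :
    ∃ τ, Reach (.ite (b + 4) .skip (.seq (.const 50 1) (.seq (.add 51 fv 50)
      (.ite 51 (.const (b + 4) 1) .skip)))) σ 5 τ ∧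
      Fr ({v | 43 ≤ v ∧ v < 100} ∪ Set.Ico (b + 3) (b + 7)) {b + 1} σ τ ∧
      (∀ v, 100 ≤ v → v ≠ b + 4 → τ.v v = σ.v v) ∧ τ.a = σ.a ∧
      τ.v (b + 4) = (if 0 < σ.v (b + 4) then σ.v (b + 4) else if 0 ≤ σ.v fv then 1
        else σ.v (b + 4)) := by
  have m50 : (50 : ℕ) ∈ {v | 43 ≤ v ∧ v < 100} ∪ Set.Ico (b + 3) (b + 7) := Or.inl (by simp)
  have m51 : (51 : ℕ) ∈ {v | 43 ≤ v ∧ v < 100} ∪ Set.Ico (b + 3) (b + 7) := Or.inl (by simp)
  have m4 : (b + 4) ∈ {v | 43 ≤ v ∧ v < 100} ∪ Set.Ico (b + 3) (b + 7) :=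
    Or.inr ⟨by omega, by omega⟩
  by_cases h0 : 0 < σ.v (b + 4)
  · refine ⟨σ, (Reach.ite_pos h0 (Reach.skip σ)).mono (by omega), Fr.refl _ _ _,
      fun _ _ _ => rfl, rfl, ?_⟩
    rw [if_pos h0]
  · have r1 := stageQ_rc σ 50 1
    have r2 := stageQ_ra (σ.sv 50 1) 51 fv 50
    have e : (σ.sv 50 1).v fv + (σ.sv 50 1).v 50 = σ.v fv + 1 := by
      rw [stageQ_sv_v, if_neg (by omega), stageQ_sv_v, if_pos rfl]
    rw [e] at r2
    obtain ⟨σ2, hσ2⟩ : ∃ t, t = (σ.sv 50 1).sv 51 (σ.v fv + 1) := ⟨_, rfl⟩
    rw [← hσ2] at r2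
    have hfr2 : Fr ({v | 43 ≤ v ∧ v < 100} ∪ Set.Ico (b + 3) (b + 7)) {b + 1} σ σ2 := by
      rw [hσ2]
      exact (stageQ_fr_sv σ m50 _).trans (stageQ_fr_sv _ m51 _)
    have k51 : σ2.v 51 = σ.v fv + 1 := by rw [hσ2, stageQ_sv_v, if_pos rfl]
    have kv : ∀ v, 100 ≤ v → σ2.v v = σ.v v := by
      intro v hv
      rw [hσ2, stageQ_sv_v, if_neg (by omega), stageQ_sv_v, if_neg (by omega)]
    have ka : σ2.a = σ.a := by rw [hσ2]; rfl
    rw [if_neg h0]
    by_cases h1 : 0 ≤ σ.v fv
    · refine ⟨σ2.sv (b + 4) 1, (Reach.ite_neg h0 (r1.seq (r2.seq (Reach.ite_pos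
        (by rw [k51]; omega) (stageQ_rc σ2 (b + 4) 1))))).mono (by omega),
        hfr2.trans (stageQ_fr_sv _ m4 _), ?_, by rw [stageQ_sv_a, ka], ?_⟩
      · intro v hv hv4
        rw [stageQ_sv_v, if_neg hv4, kv v hv]
      · rw [stageQ_sv_v, if_pos rfl, if_pos h1]
    · refine ⟨σ2, (Reach.ite_neg h0 (r1.seq (r2.seq (Reach.ite_neg
        (by rw [k51]; omega) (Reach.skip σ2))))).mono (by omega), hfr2,
        fun v hv _ => kv v hv, ka, ?_⟩
      rw [if_neg h1, kv (b + 4) (by omega)]

private theorem stageQ_second (b : ℕ) (hb : 100 ≤ b) (P1 P0 : Stmt) (σ : St)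
    (h : 0 < σ.v (b + 4)) : ∃ σ3, Fr {v | 50 ≤ v ∧ v < 52} ∅ σ σ3 ∧
      (σ.v (b + 4) = 1 → ∀ C τ, Reach P1 σ3 C τ → Reach (.ite (b + 4) (.seq (.const 50 1)
        (.seq (.sub 51 (b + 4) 50) (.ite 51 .skip P1))) P0) σ (C + 4) τ) ∧
      (σ.v (b + 4) = 2 → Reach (.ite (b + 4) (.seq (.const 50 1)
        (.seq (.sub 51 (b + 4) 50) (.ite 51 .skip P1))) P0) σ 4 σ3) := by
  have r1 := stageQ_rc σ 50 1
  have r2 := stageQ_rs (σ.sv 50 1) 51 (b + 4) 50
  have e : (σ.sv 50 1).v (b + 4) - (σ.sv 50 1).v 50 = σ.v (b + 4) - 1 := by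
    rw [stageQ_sv_v, if_neg (by omega), stageQ_sv_v, if_pos rfl]
  rw [e] at r2
  obtain ⟨σ2, hσ2⟩ : ∃ t, t = (σ.sv 50 1).sv 51 (σ.v (b + 4) - 1) := ⟨_, rfl⟩
  rw [← hσ2] at r2
  have hfr2 : Fr {v | 50 ≤ v ∧ v < 52} ∅ σ σ2 := by
    rw [hσ2]
    exact (stageQ_fr_sv σ (by simp) _).trans (stageQ_fr_sv _ (by simp) _)
  have k51 : σ2.v 51 = σ.v (b + 4) - 1 := by rw [hσ2, stageQ_sv_v, if_pos rfl]
  refine ⟨σ2, hfr2, ?_, ?_⟩
  · intro h1 C τ hτ
    refine (Reach.ite_pos h (r1.seq (r2.seq (Reach.ite_neg (by rw [k51, h1]; omega) hτ)))).mono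
      (by omega)
  · intro h1
    exact (Reach.ite_pos h (r1.seq (r2.seq (Reach.ite_pos (by rw [k51, h1]; omega)
      (Reach.skip σ2))))).mono (by omega)

private theorem stageQ_capn (n : ℕ) : cap n ≤ n := by
  refine (cap_le_s0 n).trans ?_
  unfold s0
  exact Nat.size_le.2 Nat.lt_two_pow_self

private theorem stageQ_cap2 (n s : ℕ) (hs : s0 n ≤ s) : cap n + 1 ≤ 2 ^ s := by
  have h1 := cap_le_s0 n
  have h2 : s < 2 ^ s := Nat.lt_two_pow_self
  omega

/-- As `stage_P`, but in phase 1: if field 2 of the code is 0 then phase := 2 etc.; else `loop_new`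
with field 1, no dropping of blocks. -/
theorem stage_Q (A : ℕ → ℕ → ℕ) (F : ℕ → ℕ) (stp : ℕ → ℕ → ℕ → Bool) (par : Bool)
    (d : ℕ → List ℕ) (h : JR A F stp) (hd : LinTab d) (hlev : ∀ n, lev (d n) ≤ cap n)
    (hb : ∀ n, (mkB A F stp par n).Ok)
    (hstop : ∀ n, fld (d n) (newC (d n) (mkB A F stp par n) false
      (newH (d n) (mkB A F stp par n) - F n)) 2 = 0) :
    JR (fun v n => newA (d n) (mkB A F stp par n) false (newH (d n) (mkB A F stp par n)) v)
      (fun n => newH (d n) (mkB A F stp par n)) stp := by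
  obtain ⟨b, ev, ad, fv, init, tick, Inv, κ, hb100, hev, hevb, had, hadb, hfv, hfvb, hinit,
    htick, hread, hcong⟩ := h
  obtain ⟨κt, htab⟩ := hd
  obtain ⟨ptab, hptab⟩ := htab b b (by omega) hb100
  obtain ⟨pprep, κp, hprep⟩ := prep_spec
  obtain ⟨pini, κi, hini⟩ := stageQ_init (b + 1) (b + 2) (by omega)
  obtain ⟨pfin, κf, hfin⟩ := stageQ_fin (b + 1) (b + 2) (by omega)
  obtain ⟨pnew, κn, hnew⟩ := loop_new b b (b + 1) ad (b + 3) (b + 1) (b + 2) 1 par (by omega)
    (by omega) had (by omega) (by omega) hb100 (by omega) (by omega) (by omega) (by omega)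
    (by omega) (by omega)
  obtain ⟨pold, κo, hold⟩ := loop_old ev (b + 1) (b + 3) (b + 1) (b + 2) hev (by omega)
    (by omega) (by omega) (by omega) (by omega) (by omega) (by omega)
  obtain ⟨pg3, κ3, hg3⟩ := get_fld b b (b + 3) 3 (by omega) hb100 (by omega) (by omega)
  obtain ⟨pg2, κ2, hg2⟩ := get_fld b b (b + 3) 2 (by omega) hb100 (by omega) (by omega)
  have hHge : ∀ n, F n ≤ newH (d n) (mkB A F stp par n) := fun n => newH_ge (d n) (mkB A F stp par n)
  refine ⟨b + 7, b + 1, ad, b + 5,
    .seq init (.seq ptab (.seq pprep (.seq (.mov (b + 2) 44) (.seq (.const 50 0)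
      (.seq (.ite b (.get (b + 1) b 50) (.const (b + 1) 0)) (.seq (.const (b + 3) 1)
        (.seq (.const (b + 4) 0) (.seq (.const (b + 5) (-1)) pini)))))))),
    .seq tick (.seq (.ite (b + 4) .skip (.seq (.const 50 1) (.seq (.add 51 fv 50)
      (.ite 51 (.const (b + 4) 1) .skip))))
      (.ite (b + 4) (.seq (.const 50 1) (.seq (.sub 51 (b + 4) 50) (.ite 51 .skip
        (.seq pg2 (.ite 60 pnew (.seq (.const (b + 4) 2) (.seq (.mov (b + 5) 41) pfin)))))))
        (.seq (.mov (b + 6) (b + 3)) (.seq pold (.seq pg3 (.ite 60 (.mov (b + 3) (b + 6))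
          .skip)))))),
    stageQ_I b A F stp par d Inv, κ + κt + κp + κi + κf + κn + κo + κ3 + κ2 + 30,
    by omega, by omega, by omega, had, by omega, by omega, by omega, ?_, ?_, ?_, ?_⟩
  · -- init
    intro x σ hE
    obtain ⟨σ1, r1, E1, I1, f1⟩ := hinit x σ hE
    obtain ⟨σ2, r2, E2, st2, tl2, f2⟩ := hptab x σ1 E1
    obtain ⟨σ3, r3, E3, v43, v44, v45, f3⟩ := hprep x σ2 E2
    have q1 := stageQ_rm σ3 (b + 2) 44
    obtain ⟨σ4, hσ4⟩ : ∃ t, t = σ3.sv (b + 2) (σ3.v 44) := ⟨_, rfl⟩
    rw [← hσ4] at q1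
    have q2 := stageQ_rc σ4 50 0
    obtain ⟨σ5, hσ5⟩ : ∃ t, t = σ4.sv 50 0 := ⟨_, rfl⟩
    rw [← hσ5] at q2
    have a5 : σ5.a b = σ2.a b := by
      rw [hσ5, stageQ_sv_a, hσ4, stageQ_sv_a]
      exact f3.a b (by simp)
    have b5 : σ5.v b = (d x.length).length := by
      rw [hσ5, stageQ_sv_v, if_neg (by omega), hσ4, stageQ_sv_v, if_neg (by omega), f3.v b
        (by simp only [Set.mem_setOf_eq]; omega), tl2]
    have q3 : Reach (.ite b (.get (b + 1) b 50) (.const (b + 1) 0)) σ5 2
        (σ5.sv (b + 1) (lev (d x.length))) := by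
      rcases hT : d x.length with _ | ⟨y, T⟩
      · refine Reach.ite_neg ?_ (stageQ_rc σ5 (b + 1) 0)
        rw [b5, hT]
        simp
      · refine Reach.ite_pos ?_ ?_
        · rw [b5, hT, List.length_cons]
          push_cast
          omega
        · have r := stageQ_rg σ5 (b + 1) b 50
          have e50 : (σ5.v 50).toNat = 0 := by rw [hσ5, stageQ_sv_v, if_pos rfl]; rfl
          have h0 := st2 0 (by rw [hT]; simp)
          simp only [hT, Nat.zero_add, List.getElem_cons_zero] at h0
          rw [e50, a5, h0] at r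
          simpa [lev] using r
    obtain ⟨σ6, hσ6⟩ : ∃ t, t = σ5.sv (b + 1) (lev (d x.length)) := ⟨_, rfl⟩
    rw [← hσ6] at q3
    have q4 := stageQ_rc σ6 (b + 3) 1
    have q5 := stageQ_rc (σ6.sv (b + 3) 1) (b + 4) 0
    have q6 := stageQ_rc ((σ6.sv (b + 3) 1).sv (b + 4) 0) (b + 5) (-1)
    obtain ⟨σ9, hσ9⟩ : ∃ t, t = ((σ6.sv (b + 3) 1).sv (b + 4) 0).sv (b + 5) (-1) := ⟨_, rfl⟩
    rw [← hσ9] at q6
    have w2 : σ9.v (b + 2) = cap x.length := by
      rw [hσ9, stageQ_sv_v, if_neg (by omega), stageQ_sv_v, if_neg (by omega), stageQ_sv_v,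
        if_neg (by omega), hσ6, stageQ_sv_v, if_neg (by omega), hσ5, stageQ_sv_v,
        if_neg (by omega), hσ4, stageQ_sv_v, if_pos rfl, v44]
    have w1 : σ9.v (b + 1) = lev (d x.length) := by
      rw [hσ9, stageQ_sv_v, if_neg (by omega), stageQ_sv_v, if_neg (by omega), stageQ_sv_v,
        if_neg (by omega), hσ6, stageQ_sv_v, if_pos rfl]
    have w0 : σ9.v b = (d x.length).length := by
      rw [hσ9, stageQ_sv_v, if_neg (by omega), stageQ_sv_v, if_neg (by omega), stageQ_sv_v,
        if_neg (by omega), hσ6, stageQ_sv_v, if_neg (by omega), b5]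
    have w3 : σ9.v (b + 3) = 1 := by
      rw [hσ9, stageQ_sv_v, if_neg (by omega), stageQ_sv_v, if_neg (by omega), stageQ_sv_v,
        if_pos rfl]
    have w4 : σ9.v (b + 4) = 0 := by
      rw [hσ9, stageQ_sv_v, if_neg (by omega), stageQ_sv_v, if_pos rfl]
    have w5 : σ9.v (b + 5) = -1 := by
      rw [hσ9, stageQ_sv_v, if_pos rfl]
    obtain ⟨τ, r7, hen, f7⟩ := hini σ9 (cap x.length) w2
    have f39 : Fr ({v | 43 ≤ v ∧ v < 100} ∪ Set.Ico b (b + 7)) (Set.Ico b (b + 7)) σ3 σ9 := by
      rw [hσ9, hσ6, hσ5, hσ4]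
      have m50 : (50 : ℕ) ∈ {v | 43 ≤ v ∧ v < 100} ∪ Set.Ico b (b + 7) := Or.inl (by simp)
      have mm : ∀ i, i < 7 → (b + i) ∈ {v | 43 ≤ v ∧ v < 100} ∪ Set.Ico b (b + 7) :=
        fun i hi => Or.inr ⟨by omega, by omega⟩
      exact (((((stageQ_fr_sv σ3 (mm 2 (by omega)) _).trans (stageQ_fr_sv _ m50 _)).trans
        (stageQ_fr_sv _ (mm 1 (by omega)) _)).trans (stageQ_fr_sv _ (mm 3 (by omega)) _)).trans
        (stageQ_fr_sv _ (mm 4 (by omega)) _)).trans (stageQ_fr_sv _ (mm 5 (by omega)) _)
    have f12 : Fr (LV ∪ Set.Ico b (b + 7)) (LA ∪ Set.Ico b (b + 7)) σ1 σ2 := by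
      refine f2.mono ?_ ?_
      · rintro v (hv | hv)
        · exact Or.inl hv
        · rw [Set.mem_singleton_iff] at hv
          exact Or.inr ⟨by omega, by omega⟩
      · rintro v (hv | hv)
        · exact Or.inl hv
        · rw [Set.mem_singleton_iff] at hv
          exact Or.inr ⟨by omega, by omega⟩
    have f23 : Fr ({v | 43 ≤ v ∧ v < 100} ∪ Set.Ico b (b + 7)) (Set.Ico b (b + 7)) σ2 σ3 := by
      refine f3.mono ?_ (by simp)
      rintro v ⟨hv1, hv2⟩
      exact Or.inl ⟨by omega, by omega⟩
    have f9t : Fr ({v | 43 ≤ v ∧ v < 100} ∪ Set.Ico b (b + 7)) (Set.Ico b (b + 7)) σ9 τ := by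
      refine f7.mono ?_ ?_
      · rintro v ⟨hv1, hv2⟩
        exact Or.inl ⟨by omega, by omega⟩
      · intro v hv
        rw [Set.mem_singleton_iff] at hv
        exact ⟨by omega, by omega⟩
    have f3t := f39.trans f9t
    have hEτ : Env τ x := stageQ_env E3 f3t (by rintro (h | h) <;> simp at h; omega)
      (by rintro (h | h) <;> simp at h; omega) (by simp; omega) (by simp; omega)
    have f1t : Fr (LV ∪ Set.Ico b (b + 7)) (LA ∪ Set.Ico b (b + 7)) σ1 τ := by
      refine f12.trans ((f23.trans f3t).mono ?_ ?_)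
      · rintro v (⟨hv1, hv2⟩ | hv)
        · exact Or.inl ⟨by omega, by omega, by omega, by omega⟩
        · exact Or.inr hv
      · intro v hv
        exact Or.inr hv
    refine ⟨τ, ?_, hEτ, ?_, ?_⟩
    · have hc := stageQ_capn x.length
      refine (r1.seq (r2.seq (r3.seq (q1.seq (q2.seq (q3.seq (q4.seq (q5.seq
        (q6.seq r7))))))))).mono ?_
      have : κi * (cap x.length + 1) ≤ κi * (x.length + 1) :=
        Nat.mul_le_mul_left _ (by omega)
      nlinarith
    · have hv3 : ∀ i, 3 ≤ i → i < 7 → τ.v (b + i) = σ9.v (b + i) := fun i _ _ =>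
        f7.v _ (by simp only [Set.mem_setOf_eq]; omega)
      refine ⟨hcong x _ σ1 τ ?_ ?_ I1, ?_, ?_, ?_, ?_, ?_, ?_, ?_, ?_, ?_⟩
      · intro v h1 h2
        refine f1t.v v ?_
        rintro (h | h)
        · simp [LV] at h; omega
        · simp at h; omega
      · intro v h1 h2
        refine f1t.a v ?_
        rintro (h | h)
        · simp [LA] at h; omega
        · simp at h; omega
      · intro i hi
        rw [f7.a b (by simp), ← st2 i hi, hσ9, stageQ_sv_a, stageQ_sv_a, stageQ_sv_a, hσ6,
          stageQ_sv_a, a5]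
      · rw [f7.v b (by simp only [Set.mem_setOf_eq]; omega), w0]
      · rw [f7.v (b + 1) (by simp only [Set.mem_setOf_eq]; omega), w1]
      · rw [f7.v (b + 2) (by simp only [Set.mem_setOf_eq]; omega), w2]
      · intro _
        rw [hv3 4 (by omega) (by omega), hv3 3 (by omega) (by omega), w4, w3, Nat.sub_self]
        exact ⟨rfl, rfl⟩
      · intro h1 h2
        have := (hb x.length).s0h
        simp only [mkB] at this
        omega
      · intro h2
        have := (hb x.length).s0h
        have h3 := hHge x.length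
        simp only [mkB] at this
        omega
      · intro v hv
        rw [hen v hv, if_neg]
        have := (newA_ok (d x.length) _ (hb x.length) false _ (newH_ge (d x.length) _)).lo v
        simp only [mkB] at this ⊢
        omega
      · rw [hv3 5 (by omega) (by omega), w5, if_neg]
        have := (hb x.length).s0h
        have h3 := hHge x.length
        simp only [mkB] at this h3 ⊢
        omega
    · refine (f1.mono ?_ ?_).trans (f1t.mono ?_ ?_)
      · rintro v (hv | ⟨hv1, hv2⟩)
        · exact Or.inl hv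
        · exact Or.inr ⟨hv1, by omega⟩
      · rintro v (hv | ⟨hv1, hv2⟩)
        · exact Or.inl hv
        · exact Or.inr ⟨hv1, by omega⟩
      · rintro v (hv | ⟨hv1, hv2⟩)
        · exact Or.inl hv
        · exact Or.inr ⟨by omega, by omega⟩
      · rintro v (hv | ⟨hv1, hv2⟩)
        · exact Or.inl hv
        · exact Or.inr ⟨by omega, by omega⟩
  · -- tick
    intro x s σ hE hs hI h41 h42
    obtain ⟨σ1, r1, E1, I1, f1⟩ := htick x s σ hE hs hI.old h41 h42
    obtain ⟨rev, rad, rfv⟩ := hread x s σ1 hs I1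
    have k1 : ∀ i, i < 7 → σ1.v (b + i) = σ.v (b + i) := fun i _ =>
      f1.v _ (by
        rintro (h | h)
        · simp [LV] at h; omega
        · simp at h)
    have ka : ∀ i, σ1.a (b + i) = σ.a (b + i) := fun i =>
      f1.a _ (by
        rintro (h | h)
        · simp [LA] at h; omega
        · simp at h)
    have k41 : σ1.v 41 = s := by
      rw [f1.v 41 (by rintro (h | h) <;> simp [LV] at h), h41]
    suffices hsuf : ∃ τ, Reach (.seq (.ite (b + 4) .skip (.seq (.const 50 1)
        (.seq (.add 51 fv 50) (.ite 51 (.const (b + 4) 1) .skip))))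
        (.ite (b + 4) (.seq (.const 50 1) (.seq (.sub 51 (b + 4) 50) (.ite 51 .skip
        (.seq pg2 (.ite 60 pnew (.seq (.const (b + 4) 2) (.seq (.mov (b + 5) 41) pfin)))))))
        (.seq (.mov (b + 6) (b + 3)) (.seq pold (.seq pg3 (.ite 60 (.mov (b + 3) (b + 6))
          .skip)))))) σ1 ((κf + κn + κo + κ3 + κ2 + 30) * 2 ^ s) τ ∧
        Fr ({v | 43 ≤ v ∧ v < 100} ∪ Set.Ico (b + 3) (b + 7)) {b + 1} σ1 τ ∧
        (s + 1 ≤ F x.length → τ.v (b + 4) = 0 ∧
          τ.v (b + 3) = oldC (d x.length) (fun v => A v x.length) (s0 x.length)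
            (s + 1 - s0 x.length)) ∧
        (F x.length < s + 1 → s + 1 ≤ newH (d x.length) (mkB A F stp par x.length) →
          τ.v (b + 4) = 1 ∧ τ.v (b + 3) = newC (d x.length) (mkB A F stp par x.length) false
            (s + 1 - F x.length)) ∧
        (newH (d x.length) (mkB A F stp par x.length) < s + 1 → τ.v (b + 4) = 2) ∧
        (∀ v < cap x.length, τ.a (b + 1) v =
          if newA (d x.length) (mkB A F stp par x.length) false
            (newH (d x.length) (mkB A F stp par x.length)) v < s + 1 then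
            (newA (d x.length) (mkB A F stp par x.length) false
              (newH (d x.length) (mkB A F stp par x.length)) v : ℤ) else -1) ∧
        τ.v (b + 5) = if newH (d x.length) (mkB A F stp par x.length) < s + 1 then
          (newH (d x.length) (mkB A F stp par x.length) : ℤ) else -1 by
      obtain ⟨τ, rτ, fτ, p0, p1, p2, pen, pfn⟩ := hsuf
      refine ⟨τ, (r1.seq rτ).mono ?_, ?_, ?_, ?_⟩
      · nlinarith [Nat.zero_le (κt * 2 ^ s), Nat.zero_le (κp * 2 ^ s), Nat.zero_le (κi * 2 ^ s)]
      · exact stageQ_env E1 fτ (by rintro (h | h) <;> simp at h; omega)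
          (by rintro (h | h) <;> simp at h; omega) (by simp) (by simp; omega)
      · refine ⟨hcong x _ σ1 τ ?_ ?_ I1, ?_, ?_, ?_, ?_, p0, p1, p2, pen, pfn⟩
        · intro v h1 h2
          refine fτ.v v ?_
          rintro (h | h)
          · simp at h; omega
          · simp at h; omega
        · intro v h1 h2
          refine fτ.a v ?_
          simp
          omega
        · intro i hi
          rw [fτ.a b (by simp), ← hI.tab i hi]
          exact congrFun (ka 0) _
        · rw [fτ.v b (by rintro (h | h) <;> simp at h <;> omega)]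
          rw [← hI.tl]
          exact k1 0 (by omega)
        · rw [fτ.v (b + 1) (by rintro (h | h) <;> simp at h <;> omega), ← hI.lv]
          exact k1 1 (by omega)
        · rw [fτ.v (b + 2) (by rintro (h | h) <;> simp at h <;> omega), ← hI.cp]
          exact k1 2 (by omega)
      · refine (f1.mono ?_ ?_).trans (fτ.mono ?_ ?_)
        · rintro v (hv | ⟨hv1, hv2⟩)
          · exact Or.inl hv
          · exact Or.inr ⟨hv1, by omega⟩
        · rintro v (hv | ⟨hv1, hv2⟩)
          · exact Or.inl hv
          · exact Or.inr ⟨hv1, by omega⟩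
        · rintro v (⟨hv1, hv2⟩ | ⟨hv1, hv2⟩)
          · exact Or.inl ⟨by omega, by omega, by omega, by omega⟩
          · exact Or.inr ⟨by omega, by omega⟩
        · intro v hv
          rw [Set.mem_singleton_iff] at hv
          exact Or.inr ⟨by omega, by omega⟩
    have hcap := stageQ_cap2 x.length s hs
    have h2s : 1 ≤ 2 ^ s := Nat.one_le_two_pow
    obtain ⟨σ2, r2, f2, kv2, ka2, k24⟩ := stageQ_first b fv hb100 hfv σ1
    rw [k1 4 (by omega)] at k24
    have e3 : σ2.v (b + 3) = σ.v (b + 3) := by rw [kv2 _ (by omega) (by omega), k1 3 (by omega)]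
    have e5 : σ2.v (b + 5) = σ.v (b + 5) := by rw [kv2 _ (by omega) (by omega), k1 5 (by omega)]
    have e0 : σ2.v b = (d x.length).length := by
      rw [kv2 _ (by omega) (by omega), ← hI.tl]; exact k1 0 (by omega)
    have e1 : σ2.v (b + 1) = lev (d x.length) := by
      rw [kv2 _ (by omega) (by omega), ← hI.lv]; exact k1 1 (by omega)
    have e2 : σ2.v (b + 2) = cap x.length := by
      rw [kv2 _ (by omega) (by omega), ← hI.cp]; exact k1 2 (by omega)
    have etab : StoredAt σ2 b 0 (d x.length) := by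
      intro i hi
      rw [ka2, ← hI.tab i hi]
      exact congrFun (ka 0) _
    have een : ∀ v < cap x.length, σ2.a (b + 1) v =
        if newA (d x.length) (mkB A F stp par x.length) false
          (newH (d x.length) (mkB A F stp par x.length)) v < s then
          (newA (d x.length) (mkB A F stp par x.length) false
            (newH (d x.length) (mkB A F stp par x.length)) v : ℤ) else -1 := by
      intro v hv
      rw [ka2, ka 1]
      exact hI.en v hv
    have e41 : σ2.v 41 = s := by
      rw [f2.v 41 (by rintro (h | h) <;> simp at h; omega), k41]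
    have ead : ∀ e < cap x.length, σ2.a ad e = if stp e x.length s then 1 else 0 := by
      rw [ka2]; exact rad
    have eev : ∀ v < cap x.length, σ2.a ev v =
        if A v x.length ≤ s then (A v x.length : ℤ) else -1 := by
      rw [ka2]; exact rev
    have hHg := hHge x.length
    by_cases c1 : s < F x.length
    · -- old phase
      obtain ⟨i4, i3⟩ := hI.p0 c1.le
      have ph : σ2.v (b + 4) = 0 := by
        rw [k24, i4, if_neg (lt_irrefl _), rfv, if_neg (by omega : ¬ F x.length ≤ s),
          if_neg (by norm_num)]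
      have q1 := stageQ_rm σ2 (b + 6) (b + 3)
      obtain ⟨σ3, hσ3⟩ : ∃ t, t = σ2.sv (b + 6) (σ2.v (b + 3)) := ⟨_, rfl⟩
      rw [← hσ3] at q1
      have k3 : ∀ v, v ≠ b + 6 → σ3.v v = σ2.v v := by
        intro v hv
        rw [hσ3, stageQ_sv_v, if_neg hv]
      have k36 : σ3.v (b + 6) = σ2.v (b + 3) := by rw [hσ3, stageQ_sv_v, if_pos rfl]
      have ka3 : σ3.a = σ2.a := by rw [hσ3]; rfl
      obtain ⟨σ4, r4, v4, en4, f4⟩ := hold σ3 (lev (d x.length))
        (oldC (d x.length) (fun v => A v x.length) (s0 x.length) (s - s0 x.length))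
        (cap x.length) (fun v => if A v x.length ≤ s then (A v x.length : ℤ) else -1)
        (by rw [k3 _ (by omega), e3, i3]) (by rw [k3 _ (by omega), e1])
        (by rw [k3 _ (by omega), e2]) (hlev _) (by rw [ka3]; exact eev)
      have hdec : (fun (v : ℕ) (_ : ℕ) => decide ((0 : ℤ) ≤
          (fun v => if A v x.length ≤ s then (A v x.length : ℤ) else -1) v)) =
          (fun v _ => decide (A v x.length ≤ s)) := by
        funext v _
        by_cases hh : A v x.length ≤ s
        · simp [hh]
        · simp [hh]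
      rw [hdec] at v4
      have k4 : ∀ v, 100 ≤ v → v ≠ b + 3 → σ4.v v = σ3.v v := by
        intro v hv hv3
        refine f4.v v ?_
        rintro (h | h)
        · simp at h; omega
        · exact hv3 h
      obtain ⟨σ5, r5, v5, f5⟩ := hg3 σ4 (d x.length) _
        (by intro i hi; rw [f4.a b (by simp), ka3]; exact etab i hi)
        (by rw [k4 _ (by omega) (by omega), k3 _ (by omega), e0]) v4
      have k5 : ∀ v, 100 ≤ v → σ5.v v = σ4.v v := by
        intro v hv
        refine f5.v v ?_
        simp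
        omega
      have hlast : ∃ τ, Reach (.ite 60 (.mov (b + 3) (b + 6)) .skip) σ5 2 τ ∧
          τ.v (b + 3) = stepS (d x.length) (fun v _ => decide (A v x.length ≤ s))
            (oldC (d x.length) (fun v => A v x.length) (s0 x.length) (s - s0 x.length)) ∧
          Fr {b + 3} ∅ σ5 τ := by
        by_cases hf : 0 < fld (d x.length) (cst (fun v _ => decide (A v x.length ≤ s))
            (oldC (d x.length) (fun v => A v x.length) (s0 x.length) (s - s0 x.length))
            (lev (d x.length))) 3
        · refine ⟨_, Reach.ite_pos (by rw [v5]; exact_mod_cast hf)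
            (stageQ_rm σ5 (b + 3) (b + 6)), ?_, stageQ_fr_sv _ (by simp) _⟩
          rw [stageQ_sv_v, if_pos rfl, k5 _ (by omega), k4 _ (by omega) (by omega), k36, e3, i3]
          unfold stepS
          rw [if_pos hf]
        · refine ⟨σ5, (Reach.ite_neg (by rw [v5]; exact_mod_cast hf)
            (Reach.skip σ5)).mono (by omega), ?_, Fr.refl _ _ _⟩
          rw [k5 _ (by omega), v4]
          unfold stepS
          rw [if_neg hf]
      obtain ⟨τ, rτ, vτ, fτ⟩ := hlast
      have kτ : ∀ v, 100 ≤ v → v ≠ b + 3 → v ≠ b + 6 → τ.v v = σ2.v v := by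
        intro v h1 h2 h3
        rw [fτ.v v (by simpa using h2), k5 v h1, k4 v h1 h2, k3 v h3]
      refine ⟨τ, ?_, ?_, ?_, ?_, ?_, ?_, ?_⟩
      · refine (r2.seq (Reach.ite_neg (by rw [ph]; exact lt_irrefl _)
          (q1.seq (r4.seq (r5.seq rτ))))).mono ?_
        have h6 : κo * (cap x.length + 1) ≤ κo * 2 ^ s := Nat.mul_le_mul_left _ hcap
        nlinarith [Nat.zero_le (κf * 2 ^ s), Nat.zero_le (κn * 2 ^ s), Nat.zero_le (κ2 * 2 ^ s),
          Nat.mul_le_mul_left κ3 h2s]
      · refine f2.trans (((stageQ_fr_sv σ2 (v := b + 6) (Or.inr ⟨by omega, by omega⟩)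
          (σ2.v (b + 3))).trans ?_))
        rw [← hσ3]
        refine (f4.mono ?_ (by rfl)).trans ((f5.mono ?_ (by simp)).trans
          (fτ.mono ?_ (by simp)))
        · rintro v (hv | hv)
          · exact Or.inl hv
          · rw [Set.mem_singleton_iff] at hv
            exact Or.inr ⟨by omega, by omega⟩
        · rintro v ⟨hv1, hv2⟩
          exact Or.inl ⟨by omega, by omega⟩
        · intro v hv
          rw [Set.mem_singleton_iff] at hv
          exact Or.inr ⟨by omega, by omega⟩
      · intro _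
        refine ⟨by rw [kτ _ (by omega) (by omega) (by omega), ph], ?_⟩
        rw [vτ, (by omega : s + 1 - s0 x.length = (s - s0 x.length) + 1)]
        show _ = ((stepS (d x.length) (fun v _ => decide (A v x.length ≤ s0 x.length +
          (s - s0 x.length))) (oldC (d x.length) (fun v => A v x.length) (s0 x.length)
            (s - s0 x.length)) : ℕ) : ℤ)
        rw [(by omega : s0 x.length + (s - s0 x.length) = s)]
      · intro h1 _
        omega
      · intro h1
        omega
      · intro v hv
        rw [fτ.a (b + 1) (by simp), f5.a (b + 1) (by simp), en4 v hv]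
        exact (stageQ_newA_old (d x.length) (mkB A F stp par x.length) _ s v c1).symm
      · rw [kτ _ (by omega) (by omega) (by omega), e5, hI.fn, if_neg (by omega),
          if_neg (by omega)]
    · rw [not_lt] at c1
      by_cases c2 : s ≤ newH (d x.length) (mkB A F stp par x.length)
      · -- between the horizons
        have hph : σ2.v (b + 4) = 1 ∧ σ2.v (b + 3) =
            newC (d x.length) (mkB A F stp par x.length) false (s - F x.length) := by
          rcases c1.eq_or_lt with h | h
          · obtain ⟨i4, i3⟩ := hI.p0 h.ge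
            refine ⟨?_, ?_⟩
            · rw [k24, i4, if_neg (lt_irrefl _), rfv, if_pos c1, if_pos (Int.natCast_nonneg _)]
            · rw [e3, i3, ← h, Nat.sub_self]
              rfl
          · obtain ⟨i4, i3⟩ := hI.p1 h c2
            refine ⟨?_, ?_⟩
            · rw [k24, i4, if_pos (by norm_num)]
            · rw [e3, i3]
        obtain ⟨ph, code⟩ := hph
        obtain ⟨σ3, f3, hP1, -⟩ := stageQ_second b hb100
          (.seq pg2 (.ite 60 pnew (.seq (.const (b + 4) 2) (.seq (.mov (b + 5) 41) pfin))))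
          (.seq (.mov (b + 6) (b + 3)) (.seq pold (.seq pg3 (.ite 60 (.mov (b + 3) (b + 6))
            .skip)))) σ2 (by rw [ph]; norm_num)
        have hP := hP1 ph
        have k3 : ∀ v, 100 ≤ v → σ3.v v = σ2.v v := by
          intro v hv
          refine f3.v v ?_
          simp
          omega
        have k341 : σ3.v 41 = s := by rw [f3.v 41 (by simp), e41]
        obtain ⟨σ4, r4, v4, f4⟩ := hg2 σ3 (d x.length)
          (newC (d x.length) (mkB A F stp par x.length) false (s - F x.length))
          (by intro i hi; rw [f3.a b (by simp)]; exact etab i hi)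
          (by rw [k3 _ (by omega), e0]) (by rw [k3 _ (by omega), code])
        have k4 : ∀ v, 100 ≤ v → σ4.v v = σ2.v v := by
          intro v hv
          rw [← k3 v hv]
          refine f4.v v ?_
          simp
          omega
        have k441 : σ4.v 41 = s := by rw [f4.v 41 (by simp), k341]
        have ka4 : ∀ a, σ4.a a = σ2.a a := by
          intro a
          rw [f4.a a (by simp), f3.a a (by simp)]
        have f24 : Fr ({v | 43 ≤ v ∧ v < 100} ∪ Set.Ico (b + 3) (b + 7)) {b + 1} σ2 σ4 := by
          refine (f3.mono ?_ (by simp)).trans (f4.mono ?_ (by simp))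
          · rintro v ⟨hv1, hv2⟩
            exact Or.inl ⟨by omega, by omega⟩
          · rintro v ⟨hv1, hv2⟩
            exact Or.inl ⟨by omega, by omega⟩
        by_cases c3 : s < newH (d x.length) (mkB A F stp par x.length)
        · have hf : 0 < fld (d x.length)
              (newC (d x.length) (mkB A F stp par x.length) false (s - F x.length)) 2 := by
            have hmin := leastBelow_min (fun u => decide (fld (d x.length)
              (newC (d x.length) (mkB A F stp par x.length) false u) 2 = 0))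
              (QB (d x.length)) (s - F x.length) (by
                have : newH (d x.length) (mkB A F stp par x.length) = F x.length +
                  leastBelow (fun u => decide (fld (d x.length)
                    (newC (d x.length) (mkB A F stp par x.length) false u) 2 = 0))
                    (QB (d x.length)) := rfl
                omega)
            simp only [decide_eq_false_iff_not] at hmin
            omega
          obtain ⟨σ5, r5, v5, en5, f5⟩ := hnew σ4 (d x.length)
            (newC (d x.length) (mkB A F stp par x.length) false (s - F x.length)) s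
            (cap x.length) (fun e => stp e x.length s)
            (fun v => if newA (d x.length) (mkB A F stp par x.length) false
              (newH (d x.length) (mkB A F stp par x.length)) v < s then
              (newA (d x.length) (mkB A F stp par x.length) false
                (newH (d x.length) (mkB A F stp par x.length)) v : ℤ) else -1)
            (by intro i hi; rw [ka4]; exact etab i hi) (by rw [k4 _ (by omega), e0])
            (by rw [k4 _ (by omega), code]) (by rw [k4 _ (by omega), e1])
            (by rw [k4 _ (by omega), e2]) (hlev _) k441 (by rw [ka4]; exact ead)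
            (by rw [ka4]; exact een)
          have k5 : ∀ v, 100 ≤ v → v ≠ b + 3 → σ5.v v = σ2.v v := by
            intro v hv hv3
            rw [← k4 v hv]
            refine f5.v v ?_
            rintro (h | h)
            · simp at h; omega
            · exact hv3 h
          have hbit : (mkB A F stp par x.length).h + (s - F x.length) = s := by
            simp only [mkB]
            omega
          refine ⟨σ5, ?_, ?_, ?_, ?_, ?_, ?_, ?_⟩
          · refine (r2.seq (hP _ _ (r4.seq (Reach.ite_pos
              (by rw [v4]; exact_mod_cast hf) r5)))).mono ?_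
            have h6 : κn * (cap x.length + 1) ≤ κn * 2 ^ s := Nat.mul_le_mul_left _ hcap
            nlinarith [Nat.zero_le (κf * 2 ^ s), Nat.zero_le (κo * 2 ^ s),
              Nat.zero_le (κ3 * 2 ^ s), Nat.mul_le_mul_left κ2 h2s]
          · refine f2.trans (f24.trans (f5.mono ?_ (by rfl)))
            rintro v (hv | hv)
            · exact Or.inl hv
            · rw [Set.mem_singleton_iff] at hv
              exact Or.inr ⟨by omega, by omega⟩
          · intro h1
            omega
          · intro _ _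
            refine ⟨by rw [k5 _ (by omega) (by omega), ph], ?_⟩
            rw [v5, (by omega : s + 1 - F x.length = (s - F x.length) + 1)]
            show _ = ((stepN (d x.length) (nbit (d x.length) (mkB A F stp par x.length) 1
              ((mkB A F stp par x.length).h + (s - F x.length)))
              (newC (d x.length) (mkB A F stp par x.length) false (s - F x.length)) : ℕ) : ℤ)
            rw [hbit]
            rfl
          · intro h1
            omega
          · intro v hv
            rw [en5 v hv]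
            have hh := stageQ_newA_new (d x.length) (mkB A F stp par x.length) _ s v c1 c3 _ rfl
            rw [← hh]
            have hb2 : bitAt (d x.length) (mkB A F stp par x.length) false
                (s - (mkB A F stp par x.length).h) v = nbit (d x.length)
                (mkB A F stp par x.length) 1 s v (cst (nbit (d x.length)
                (mkB A F stp par x.length) 1 s) (newC (d x.length)
                (mkB A F stp par x.length) false (s - F x.length)) v) := by
              unfold bitAt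
              have : (mkB A F stp par x.length).h + (s - (mkB A F stp par x.length).h) = s := hbit
              rw [this]
              rfl
            rw [hb2]
            rfl
          · rw [k5 _ (by omega) (by omega), e5, hI.fn, if_neg (by omega), if_neg (by omega)]
        · -- the new horizon
          have hsn : newH (d x.length) (mkB A F stp par x.length) = s := by omega
          have hf : fld (d x.length)
              (newC (d x.length) (mkB A F stp par x.length) false (s - F x.length)) 2 = 0 := by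
            have := hstop x.length
            rwa [hsn] at this
          have q5 := stageQ_rc σ4 (b + 4) 2
          have q6 := stageQ_rm (σ4.sv (b + 4) 2) (b + 5) 41
          obtain ⟨σ6, hσ6⟩ : ∃ t, t = (σ4.sv (b + 4) 2).sv (b + 5) ((σ4.sv (b + 4) 2).v 41) :=
            ⟨_, rfl⟩
          rw [← hσ6] at q6
          have w5 : σ6.v (b + 5) = s := by
            rw [hσ6, stageQ_sv_v, if_pos rfl, stageQ_sv_v, if_neg (by omega), k441]
          have w4 : σ6.v (b + 4) = 2 := by
            rw [hσ6, stageQ_sv_v, if_neg (by omega), stageQ_sv_v, if_pos rfl]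
          have w2 : σ6.v (b + 2) = cap x.length := by
            rw [hσ6, stageQ_sv_v, if_neg (by omega), stageQ_sv_v, if_neg (by omega),
              k4 _ (by omega), e2]
          have w41 : σ6.v 41 = s := by
            rw [hσ6, stageQ_sv_v, if_neg (by omega), stageQ_sv_v, if_neg (by omega), k441]
          have wa : σ6.a (b + 1) = σ2.a (b + 1) := by
            rw [hσ6, stageQ_sv_a, stageQ_sv_a, ka4]
          obtain ⟨τ, r7, en7, f7⟩ := hfin σ6 (cap x.length) w2
          have k7 : ∀ v, 100 ≤ v → τ.v v = σ6.v v := by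
            intro v hv
            refine f7.v v ?_
            simp
            omega
          refine ⟨τ, ?_, ?_, ?_, ?_, ?_, ?_, ?_⟩
          · refine (r2.seq (hP _ _ (r4.seq (Reach.ite_neg
              (by rw [v4, hf]; norm_num) (q5.seq (q6.seq r7)))))).mono ?_
            have h6 : κf * (cap x.length + 1) ≤ κf * 2 ^ s := Nat.mul_le_mul_left _ hcap
            nlinarith [Nat.zero_le (κn * 2 ^ s), Nat.zero_le (κo * 2 ^ s),
              Nat.zero_le (κ3 * 2 ^ s), Nat.mul_le_mul_left κ2 h2s]
          · refine f2.trans (f24.trans (((stageQ_fr_sv σ4 (v := b + 4)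
              (Or.inr ⟨by omega, by omega⟩) 2).trans (stageQ_fr_sv (σ4.sv (b + 4) 2)
              (v := b + 5) (Or.inr ⟨by omega, by omega⟩) ((σ4.sv (b + 4) 2).v 41))).trans ?_))
            rw [← hσ6]
            refine f7.mono ?_ (by rfl)
            rintro v ⟨hv1, hv2⟩
            exact Or.inl ⟨by omega, by omega⟩
          · intro h1
            omega
          · intro _ h1
            omega
          · intro _
            rw [k7 _ (by omega), w4]
          · intro v hv
            have hle := (newA_ok (d x.length) _ (hb x.length) false _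
              (newH_ge (d x.length) (mkB A F stp par x.length))).hi v
            change newA (d x.length) (mkB A F stp par x.length) false
              (newH (d x.length) (mkB A F stp par x.length)) v ≤
              newH (d x.length) (mkB A F stp par x.length) at hle
            rw [en7 v hv, wa, een v hv, w41]
            have h9 : newA (d x.length) (mkB A F stp par x.length) false
              (newH (d x.length) (mkB A F stp par x.length)) v < s + 1 := by omega
            rw [if_pos h9]
            by_cases h8 : newA (d x.length) (mkB A F stp par x.length) false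
              (newH (d x.length) (mkB A F stp par x.length)) v < s
            · rw [if_pos h8, if_pos (Int.natCast_nonneg _)]
            · have h10 : newA (d x.length) (mkB A F stp par x.length) false
                (newH (d x.length) (mkB A F stp par x.length)) v = s := by omega
              rw [if_neg h8, if_neg (by norm_num), h10]
          · rw [k7 _ (by omega), w5, if_pos (by omega), hsn]
      · -- after the new horizon
        rw [not_le] at c2
        have i4 := hI.p2 c2
        have ph : σ2.v (b + 4) = 2 := by rw [k24, i4, if_pos (by norm_num)]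
        obtain ⟨σ3, f3, -, hP2⟩ := stageQ_second b hb100
          (.seq pg2 (.ite 60 pnew (.seq (.const (b + 4) 2) (.seq (.mov (b + 5) 41) pfin))))
          (.seq (.mov (b + 6) (b + 3)) (.seq pold (.seq pg3 (.ite 60 (.mov (b + 3) (b + 6))
            .skip)))) σ2 (by rw [ph]; norm_num)
        have k3 : ∀ v, 100 ≤ v → σ3.v v = σ2.v v := by
          intro v hv
          refine f3.v v ?_
          simp
          omega
        refine ⟨σ3, (r2.seq (hP2 ph)).mono ?_, ?_, ?_, ?_, ?_, ?_, ?_⟩
        · have h6 : 5 + 4 ≤ 30 * 2 ^ s := by omega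
          have h7 : 30 * 2 ^ s ≤ (κf + κn + κo + κ3 + κ2 + 30) * 2 ^ s :=
            Nat.mul_le_mul_right _ (by omega)
          omega
        · refine f2.trans (f3.mono ?_ (by simp))
          rintro v ⟨hv1, hv2⟩
          exact Or.inl ⟨by omega, by omega⟩
        · intro h1
          omega
        · intro _ h1
          omega
        · intro _
          rw [k3 _ (by omega), ph]
        · intro v hv
          have hle := (newA_ok (d x.length) _ (hb x.length) false _
            (newH_ge (d x.length) (mkB A F stp par x.length))).hi v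
          change newA (d x.length) (mkB A F stp par x.length) false
            (newH (d x.length) (mkB A F stp par x.length)) v ≤
            newH (d x.length) (mkB A F stp par x.length) at hle
          rw [f3.a (b + 1) (by simp), een v hv, if_pos (by omega), if_pos (by omega)]
        · rw [k3 _ (by omega), e5, hI.fn, if_pos c2, if_pos (by omega)]
  · -- reading
    intro x s σ hs hI
    refine ⟨?_, (hread x s σ hs hI.old).2.1, ?_⟩
    · intro v hv
      rw [hI.en v hv]
      simp only [Nat.lt_succ_iff]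
    · rw [hI.fn]
      simp only [Nat.lt_succ_iff]
  · -- persistence
    intro x s σ τ hv ha hI
    have e : ∀ i, i < 7 → τ.v (b + i) = σ.v (b + i) := fun i hi =>
      hv _ (by omega) (by omega)
    refine ⟨hcong x s σ τ (fun v h1 h2 => hv v h1 (by omega))
      (fun a h1 h2 => ha a h1 (by omega)) hI.old, ?_, ?_, ?_, ?_, ?_, ?_, ?_, ?_, ?_⟩
    · intro i hi
      rw [ha b (by omega) (by omega)]
      exact hI.tab i hi
    · rw [hv b (by omega) (by omega)]; exact hI.tl
    · rw [e 1 (by omega)]; exact hI.lv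
    · rw [e 2 (by omega)]; exact hI.cp
    · rw [e 4 (by omega), e 3 (by omega)]; exact hI.p0
    · rw [e 4 (by omega), e 3 (by omega)]; exact hI.p1
    · rw [e 4 (by omega)]; exact hI.p2
    · intro v hvc
      rw [ha (b + 1) (by omega) (by omega)]
      exact hI.en v hvc
    · rw [e 5 (by omega)]; exact hI.fn

end Pool.Agent.H71.CT
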