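import Pool.Agent.H71.CT.PsiComp
import Pool.Agent.H71.CT.SelfRef
import Pool.Agent.H71.CT.Limit
import Pool.Agent.H71.CT.PlayP
import Pool.Agent.H71.CT.PlayQ
import Pool.Agent.H71.CT.StageP
import Pool.Agent.H71.CT.StageQ

/-! One stage. -/

namespace Pool.Agent.H71.CT

open Filter

private theorem stageStep_payN {K : ℕ} {P P' R R' : ℕ → Q} (hP : ∀ m < K, P m = P' m)
    (hR : ∀ m < K, R m = R' m) : payN K P R = payN K P' R' := by
  funext q
  unfold payN
  refine Finset.sum_congr rfl fun k _ => ?_
  have h1 : (List.range K).countP (fun m => decide (res k (R m) = res k q)) =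
      (List.range K).countP (fun m => decide (res k (R' m) = res k q)) := by
    refine List.countP_congr fun m hm => ?_
    rw [hR m (List.mem_range.1 hm)]
  have h2 : (List.range K).countP (fun m => decide (res k (P m) = res k q)) =
      (List.range K).countP (fun m => decide (res k (P' m) = res k q)) := by
    refine List.countP_congr fun m hm => ?_
    rw [hP m (List.mem_range.1 hm)]
  rw [h1, h2]

private theorem stageStep_M {k K : ℕ} (h : k ≤ K) : M k ≤ M K :=
  Nat.mul_le_mul h (Nat.add_le_add_right h 1)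

/-- Extension step: `(A, F)` is the side whose new horizon is given (the first time at which
program `p` has halted), `(B, G)` the other side. (`self_ref` for `PsiS`, `play_P`, `play_Q`,
`limit_same` with `own = meP par`; `newA_ok`, `newA_min`; `stage_P`, `stage_Q`.) -/
theorem stage_step {stp : ℕ → ℕ → ℕ → Bool}
    (hs : Computable (fun a : ℕ × ℕ × ℕ => stp a.1 a.2.1 a.2.2))
    (hcap : ∀ e n s, cap n ≤ e → stp e n s = true) (par : Bool)
    {A B : ℕ → ℕ → ℕ} {F G : ℕ → ℕ} (hP : Side stp (!par) A F) (hQ : Side stp par B G)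
    (hS : Same A F B G) (p : ℕ) (hp : ∀ n, ∃ s, F n ≤ s ∧ stp p n s = true) :
    ∃ (A' B' : ℕ → ℕ → ℕ) (F' G' : ℕ → ℕ), Side stp (!par) A' F' ∧ Side stp par B' G' ∧
      Same A' F' B' G' ∧ FirstFrom stp p F F' ∧ (∀ n, G n ≤ G' n) ∧
      (∀ n, G' n ≤ G n + 2 * M (cap n)) ∧
      (∀ v n, min (A' v n) (F n) = A v n) ∧ (∀ v n, min (B' v n) (G n) = B v n) := by
  obtain ⟨F', hFF⟩ : ∃ F', FirstFrom stp p F F' :=
    ⟨fun n => Nat.find (hp n), fun n => ⟨(Nat.find_spec (hp n)).1, (Nat.find_spec (hp n)).2,
      fun s h1 h2 => by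
        have h3 := Nat.find_min (hp n) h2
        by_contra h4
        exact h3 ⟨h1, by simpa using h4⟩⟩⟩
  have hF' : Computable F' := computable_first hP.cF hs p hFF
  obtain ⟨d, κ, hd, hκ, hκc, hdc, hκk, hlin⟩ := self_ref (PsiS stp par A F F' B G)
    (computable_PsiS par hP.cA hP.cF hF' hQ.cA hQ.cF hs)
  obtain ⟨bP, hbP⟩ : ∃ bP : ℕ → Board, bP = fun n => mkB A F stp (!par) n := ⟨_, rfl⟩
  obtain ⟨bQ, hbQ⟩ : ∃ bQ : ℕ → Board, bQ = fun n => mkB B G stp par n := ⟨_, rfl⟩
  let A' : ℕ → ℕ → ℕ := fun v n => newA (d n) (mkB A F stp (!par) n) true (F' n) v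
  let G' : ℕ → ℕ := fun n => newH (d n) (mkB B G stp par n)
  let B' : ℕ → ℕ → ℕ := fun v n => newA (d n) (mkB B G stp par n) false (G' n) v
  have hdm : ∀ n, d n = mkT (meP par) (κ n) (payN (κ n) (fin A' F' (κ n)) (fin B' G' (κ n))) := by
    intro n
    have h1 := hd n
    unfold PsiS at h1
    have hlen : ((List.range (κ n)).map d).length = κ n := by simp
    have hget : ∀ m < κ n, ((List.range (κ n)).map d).getD m [] = d m := by
      intro m hm
      rw [List.getD_eq_getElem?_getD, List.getElem?_map, List.getElem?_range hm]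
      rfl
    rw [hlen] at h1
    rw [h1]
    congr 1
    apply stageStep_payN
    · intro m hm
      rw [hget m hm]
      rfl
    · intro m hm
      rw [hget m hm]
      rfl
  have hlev : ∀ n, lev (d n) = κ n := fun n => by rw [hdm n, lev_mkT]
  have hlevc : ∀ n, lev (d n) ≤ cap n := fun n => by rw [hlev n]; exact hκc n
  have hG : ∀ n, G n ≤ G' n := fun n => newH_ge (d n) (mkB B G stp par n)
  have hstop : ∀ n, fld (d n) (newC (d n) (mkB B G stp par n) false
      (newH (d n) (mkB B G stp par n) - G n)) 2 = 0 := by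
    intro n
    rw [hdm n]
    exact newH_stop (meP par) (κ n) _ (mkB B G stp par n) (hQ.ok n) (fun v => rfl)
  refine ⟨A', B', F', G', ⟨?_, ?_, ?_, hF'⟩, ⟨?_, ?_, ?_, ?_⟩, ?_, hFF, hG, ?_, ?_, ?_⟩
  · exact stage_P A F F' stp p (!par) d hP.jr hlin hlevc hcap hP.ok hFF
  · intro n
    exact newA_ok (d n) (mkB A F stp (!par) n) (hP.ok n) true (F' n) (hFF n).1
  · have h1 := computable_newA hP.cA hP.cF hs (!par) true
    exact h1.comp (Computable.pair (hdc.comp Computable.snd)
      (Computable.pair Computable.snd (Computable.pair (hF'.comp Computable.snd) Computable.fst)))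
  · exact stage_Q B G stp par d hQ.jr hlin hlevc hQ.ok hstop
  · intro n
    exact newA_ok (d n) (mkB B G stp par n) (hQ.ok n) false (G' n) (hG n)
  · have h1 := computable_newA hQ.cA hQ.cF hs par false
    have h2 : Computable G' :=
      (computable_newH hQ.cA hQ.cF hs par).comp (Computable.pair hdc Computable.id)
    exact h1.comp (Computable.pair (hdc.comp Computable.snd)
      (Computable.pair Computable.snd (Computable.pair (h2.comp Computable.snd) Computable.fst)))
  · exact (computable_newH hQ.cA hQ.cF hs par).comp (Computable.pair hdc Computable.id)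
  · refine limit_same (meP par) κ hκ (fin A' F') (fin B' G') (fin A F) (fin B G)
      (fun k n => good_hist _ _ _ _) (fun k n => good_hist _ _ _ _)
      (fun k n => good_hist _ _ _ _) (fun k n => good_hist _ _ _ _)
      (fun k K n h => res_hist h _ _ _) (fun k K n h => res_hist h _ _ _)
      (fun k K n h => res_hist h _ _ _) (fun k K n h => res_hist h _ _ _) ?_ ?_ hS
    · intro n
      have h1 := play_P (meP par) (κ n) (payN (κ n) (fin A' F' (κ n)) (fin B' G' (κ n)))
        (mkB A F stp (!par) n) (hP.ok n) (fun v => meP_not par v) (F' n) (hFF n).1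
      rw [← hdm n] at h1
      exact h1
    · intro n
      have h1 := play_Q (meP par) (κ n) (payN (κ n) (fin A' F' (κ n)) (fin B' G' (κ n)))
        (mkB B G stp par n) (hQ.ok n) (fun v => rfl)
      rw [← hdm n] at h1
      exact h1
  · intro n
    have h1 := newH_le (d n) (mkB B G stp par n)
    have h2 := stageStep_M (hlevc n)
    have h3 : (mkB B G stp par n).h = G n := rfl
    rw [h3] at h1
    show newH (d n) (mkB B G stp par n) ≤ _
    omega
  · intro v n
    exact newA_min (d n) (mkB A F stp (!par) n) (hP.ok n) true (F' n) v (hFF n).1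
  · intro v n
    exact newA_min (d n) (mkB B G stp par n) (hQ.ok n) false (G' n) v (hG n)

end Pool.Agent.H71.CT
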