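import Pool.Agent.H71.CT.ChainDef
import Pool.Agent.H71.CT.StageStep

/-! Existence of a cofinal chain. -/

namespace Pool.Agent.H71.CT

open Filter

private theorem chainEx_stp {K0 : ℕ → ℕ} {e n s : ℕ} : stpK K0 e n s = true ↔
    K0 n ≤ e ∨ (e + 1 ≤ s ∧ hb e (List.replicate n false) (2 ^ (s - (e + 1))) = true) := by
  unfold stpK
  rw [Bool.or_eq_true, Bool.and_eq_true, decide_eq_true_iff, decide_eq_true_iff]

private theorem chainEx_mono {K0 : ℕ → ℕ} {e n s : ℕ} (h : stpK K0 e n s = true) :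
    stpK K0 e n (s + 1) = true := by
  rw [chainEx_stp] at h ⊢
  rcases h with h | ⟨h1, h2⟩
  · exact Or.inl h
  · refine Or.inr ⟨by omega, ?_⟩
    rw [hb_iff] at h2 ⊢
    rw [conf_of_halted h2 (Nat.pow_le_pow_right (by norm_num) (by omega))]
    exact h2

private theorem chainEx_tt_le {K0 : ℕ → ℕ} {e n s : ℕ} (h1 : s0 n ≤ s) (h2 : stpK K0 e n s = true) :
    tt K0 e n ≤ s := by
  have h : ∃ s, s0 n ≤ s ∧ stpK K0 e n s = true := ⟨s, h1, h2⟩
  unfold tt
  rw [dif_pos h]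
  exact Nat.find_min' h ⟨h1, h2⟩

/-- states of the construction -/
private def ChainExSt (K0 : ℕ → ℕ) : Type :=
  {s : (ℕ → ℕ → ℕ) × (ℕ → ℕ → ℕ) × (ℕ → ℕ) × (ℕ → ℕ) //
    Side (stpK K0) false s.1 s.2.2.1 ∧ Side (stpK K0) true s.2.1 s.2.2.2 ∧
      Same s.1 s.2.2.1 s.2.1 s.2.2.2}

private theorem chainEx_base {K0 : ℕ → ℕ} (hJ : JR (fun _ n => s0 n) s0 (stpK K0)) (par : Bool) :
    Side (stpK K0) par (fun _ n => s0 n) s0 where
  jr := hJ
  ok := fun n =>
    { s0h := le_refl _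
      lo := fun _ => le_refl _
      hi := fun _ => le_refl _
      mono := fun _ _ h => chainEx_mono h
      adv := fun _ _ s h1 h2 => absurd (lt_of_le_of_lt h1 h2) (lt_irrefl _) }
  cA := computable_s0.comp Computable.snd
  cF := computable_s0

private theorem chainEx_step {K0 : ℕ → ℕ} (hc : Computable K0) (hcap : ∀ n, K0 n ≤ cap n)
    {p : ℕ} (hp : Tot p) (i : ℕ) (s : ChainExSt K0) : ∃ t : ChainExSt K0,
    (∀ n, s.1.2.2.1 n ≤ t.1.2.2.1 n) ∧ (∀ n, s.1.2.2.2 n ≤ t.1.2.2.2 n) ∧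
    (∀ v n, min (t.1.1 v n) (s.1.2.2.1 n) = s.1.1 v n) ∧
    (∀ v n, min (t.1.2.1 v n) (s.1.2.2.2 n) = s.1.2.1 v n) ∧
    (i % 2 = 0 → (∀ n, tt K0 p n ≤ t.1.2.2.1 n) ∧
      (∀ n, t.1.2.2.2 n ≤ s.1.2.2.2 n + 2 * M (cap n))) ∧
    (i % 2 = 1 → ∀ n, tt K0 p n ≤ t.1.2.2.2 n) := by
  obtain ⟨⟨A, B, F, G⟩, hA, hB, hS⟩ := s
  have hA' : Side (stpK K0) false A F := hA
  have hB' : Side (stpK K0) true B G := hB
  have hS' : Same A F B G := hS
  have hs := computable_stpK K0 hc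
  have hcp : ∀ e n s, cap n ≤ e → stpK K0 e n s = true := by
    intro e n s h
    rw [chainEx_stp]
    exact Or.inl ((hcap n).trans h)
  have hF0 : ∀ n, s0 n ≤ F n := fun n =>
    (side_bounds hA' 0 n).1.trans (side_bounds hA' 0 n).2
  have hG0 : ∀ n, s0 n ≤ G n := fun n =>
    (side_bounds hB' 0 n).1.trans (side_bounds hB' 0 n).2
  rcases Nat.mod_two_eq_zero_or_one i with hi | hi
  · obtain ⟨A', B', F', G', h1, h2, h3, h4, h5, h6, h7, h8⟩ :=
      stage_step hs hcp true hA' hB' hS' p (fun n => tt_exists K0 hp (F n) n)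
    refine ⟨⟨(A', B', F', G'), h1, h2, h3⟩, fun n => (h4 n).1, h5, h7, h8, fun _ => ⟨fun n => ?_, h6⟩,
      fun h => ?_⟩
    · exact chainEx_tt_le ((hF0 n).trans (h4 n).1) (h4 n).2.1
    · omega
  · obtain ⟨A', B', F', G', h1, h2, h3, h4, h5, h6, h7, h8⟩ :=
      stage_step hs hcp false hB' hA' (fun k s => (hS' k s).symm) p
        (fun n => tt_exists K0 hp (G n) n)
    refine ⟨⟨(B', A', G', F'), h2, h1, fun k s => (h3 k s).symm⟩, h5, fun n => (h4 n).1, h8, h7,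
      fun h => ?_, fun _ n => ?_⟩
    · omega
    · exact chainEx_tt_le ((hG0 n).trans (h4 n).1) (h4 n).2.1

/-- Start: all stopping times and both horizons are `s0` (`jr_base`). Let `q j` enumerate the total
programs, `q 0 = e0`. Stage `2 j → 2 j + 1`: `stage_step` with `par = true`, `(A, F)` the given side
and `p = q j`; stage `2 j + 1 → 2 j + 2`: `par = false`, `(B, G)` the given side and `p = q j`. -/
theorem chain_exists {K0 : ℕ → ℕ} (hc : Computable K0) (hK : Tendsto K0 atTop atTop)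
    (hcap : ∀ n, K0 n ≤ cap n) (hJ : JR (fun _ n => s0 n) s0 (stpK K0)) {e0 : ℕ} (he : Tot e0) :
    ∃ A B F G, Chain K0 A B F G ∧ (∀ n, tt K0 e0 n ≤ F 1 n) ∧
      (∀ n, G 1 n ≤ s0 n + 2 * M (cap n)) := by
  classical
  let q : ℕ → ℕ := fun j => if Tot (j - 1) ∧ 0 < j then j - 1 else e0
  have hq : ∀ j, Tot (q j) := by
    intro j
    simp only [q]
    split_ifs with h
    · exact h.1
    · exact he
  have hq0 : q 0 = e0 := by simp [q]
  have hqe : ∀ e, Tot e → q (e + 1) = e := by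
    intro e h
    simp [q, h]
  choose f hf using fun (i : ℕ) (s : ChainExSt K0) =>
    chainEx_step hc hcap (hq (i / 2)) i s
  let S0 : ChainExSt K0 := ⟨(fun _ n => s0 n, fun _ n => s0 n, s0, s0),
    chainEx_base hJ false, chainEx_base hJ true, fun _ _ => Iff.rfl⟩
  let S : ℕ → ChainExSt K0 := fun i => Nat.rec S0 (fun i s => f i s) i
  have hS : ∀ i, S (i + 1) = f i (S i) := fun i => rfl
  have hH : ∀ i, _ := fun i => hf i (S i)
  refine ⟨fun i => (S i).1.1, fun i => (S i).1.2.1, fun i => (S i).1.2.2.1,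
    fun i => (S i).1.2.2.2, ?_, ?_, ?_⟩
  · refine ⟨fun i => (S i).2.1, fun i => (S i).2.2.1, fun i => (S i).2.2.2, fun i => (hH i).1,
      fun i => (hH i).2.1, fun i => (hH i).2.2.1, fun i => (hH i).2.2.2.1, ?_, ?_⟩
    · intro e h
      refine ⟨2 * (e + 1) + 1, fun n => ?_⟩
      have h1 := ((hH (2 * (e + 1))).2.2.2.2.1 (by omega)).1 n
      have h2 : q (2 * (e + 1) / 2) = e := by
        rw [Nat.mul_div_cancel_left _ (by norm_num)]
        exact hqe e h
      rw [h2] at h1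
      exact h1
    · intro e h
      refine ⟨2 * (e + 1) + 1 + 1, fun n => ?_⟩
      have h1 := (hH (2 * (e + 1) + 1)).2.2.2.2.2 (by omega) n
      have h2 : q ((2 * (e + 1) + 1) / 2) = e := by
        rw [show (2 * (e + 1) + 1) / 2 = e + 1 by omega]
        exact hqe e h
      rw [h2] at h1
      exact h1
  · intro n
    have h1 := ((hH 0).2.2.2.2.1 (by norm_num)).1 n
    rw [Nat.zero_div, hq0] at h1
    exact h1
  · intro n
    exact ((hH 0).2.2.2.2.1 (by norm_num)).2 n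

end Pool.Agent.H71.CT
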