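import Pool.Agent.H71.CT.CalcCode
import Pool.Agent.H71.CT.Comp

/-! Computable list valued functions are printed by a machine. -/

namespace Pool.Agent.H71.CT

private theorem codeL_init (x : List Bool) : ∃ c σ,
    Big (.seq (.const 2 2) (.seq (.const 4 1) (.seq (.read 1) (.sub 3 2 1)))) (St.ini x 0 0) c σ ∧
      σ.v 0 = 0 ∧ σ.v 2 = 2 ∧ σ.v 4 = 1 ∧ σ.v 3 = 2 - sym x ∧ σ.inp = x.tail ∧ σ.out = [] := by
  refine ⟨_, _, Big.seq (Big.const _ _ _) (Big.seq (Big.const _ _ _) (Big.seq (Big.read _ _) (Big.sub _ _ _ _))),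
    ?_, ?_, ?_, ?_, rfl, rfl⟩
  · simp [St.sv, St.ini, Function.update]
  · simp [St.sv, St.ini, Function.update]
  · simp [St.sv, St.ini, Function.update]
  · simp [St.sv, St.ini, Function.update]

private theorem codeL_body (σ : St) (h2 : σ.v 2 = 2) (h4 : σ.v 4 = 1) : ∃ c τ,
    Big (.seq (.add 0 0 4) (.seq (.read 1) (.sub 3 2 1))) σ c τ ∧
      τ.v 0 = σ.v 0 + 1 ∧ τ.v 2 = 2 ∧ τ.v 4 = 1 ∧ τ.v 3 = 2 - sym σ.inp ∧ τ.inp = σ.inp.tail ∧
      τ.out = σ.out := by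
  refine ⟨_, _, Big.seq (Big.add _ _ _ _) (Big.seq (Big.read _ _) (Big.sub _ _ _ _)), ?_, ?_, ?_, ?_, rfl, rfl⟩
  · simp [St.sv, Function.update, h4]
  · simp [St.sv, Function.update, h2]
  · simp [St.sv, Function.update, h4]
  · simp [St.sv, Function.update, h2]

private theorem codeL_read : ∀ (y : List Bool) (σ : St) (k : ℕ), σ.v 0 = k → σ.v 2 = 2 → σ.v 4 = 1 →
    σ.v 3 = 2 - sym y → σ.inp = y.tail →
    ∃ c τ, Big (.whl 3 (.seq (.add 0 0 4) (.seq (.read 1) (.sub 3 2 1)))) σ c τ ∧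
      τ.v 0 = ((k + y.length : ℕ) : ℤ) ∧ τ.out = σ.out := by
  intro y
  induction y with
  | nil =>
    intro σ k h0 h2 h4 h3 hi
    refine ⟨1, σ, Big.while_end (by rw [h3]; simp [sym]), by rw [h0]; simp, rfl⟩
  | cons b y ih =>
    intro σ k h0 h2 h4 h3 hi
    have hpos : 0 < σ.v 3 := by
      rw [h3]
      cases b <;> simp [sym]
    have hi' : σ.inp = y := by rw [hi]; rfl
    obtain ⟨c, τ, hb, t0, t2, t4, t3, ti, tO⟩ := codeL_body σ h2 h4
    rw [hi'] at t3 ti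
    obtain ⟨c', τ', hB, hv, ho⟩ := ih τ (k + 1) (by rw [t0, h0]; push_cast; rfl) t2 t4 t3 ti
    refine ⟨_, τ', Big.while_step hpos hb hB, ?_, ?_⟩
    · rw [hv, List.length_cons]
      congr 1
      omega
    · rw [ho, tO]

private theorem codeL_calc {f : ℕ → ℕ} (hf : Computable f) (b : ℕ) : ∃ s, CalcAt b s (fun n => Part.some (f n)) := by
  have h1 : Nat.Partrec (fun n => Part.some (f n)) := Partrec.nat_iff.1 hf
  obtain ⟨c, hc⟩ := Nat.Partrec.Code.exists_code.1 h1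
  obtain ⟨s, hs⟩ := calc_code c b
  rw [hc] at hs
  exact ⟨s, hs⟩

private theorem codeL_print {sh st : Stmt} (hh : CalcAt 6 sh (fun n => Part.some n.pred.unpair.1))
    (ht : CalcAt 5 st (fun n => Part.some n.pred.unpair.2)) : ∀ (l : List ℕ) (σ : St),
    σ.v 5 = ((Encodable.encode l : ℕ) : ℤ) →
    ∃ c τ, Big (.whl 5 (.seq (.mov 6 5) (.seq sh (.seq (.print 6) st)))) σ c τ ∧
      τ.out = σ.out ++ l.map (fun n : ℕ => (n : ℤ)) := by
  intro l
  induction l with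
  | nil =>
    intro σ h5
    refine ⟨1, σ, Big.while_end (by rw [h5]; simp), by simp⟩
  | cons a l ih =>
    intro σ h5
    have hpos : 0 < σ.v 5 := by
      rw [h5, Encodable.encode_list_cons]
      positivity
    obtain ⟨c1, τ1, hB1, hv1, hf1, -, -, ho1⟩ := hh (σ.sv 6 (σ.v 5)) (Encodable.encode (a :: l)) _
      (show (σ.sv 6 (σ.v 5)).v 6 = ((Encodable.encode (a :: l) : ℕ) : ℤ) by
        rw [← h5]
        simp [St.sv]) (Part.mem_some _)
    have ha : (Encodable.encode (a :: l)).pred.unpair.1 = a := by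
      rw [Encodable.encode_list_cons, Nat.succ_eq_add_one, Nat.pred_succ, Nat.unpair_pair, Encodable.encode_nat]
    have hl : (Encodable.encode (a :: l)).pred.unpair.2 = Encodable.encode l := by
      rw [Encodable.encode_list_cons, Nat.succ_eq_add_one, Nat.pred_succ, Nat.unpair_pair]
    rw [ha] at hv1
    have h15 : τ1.v 5 = ((Encodable.encode (a :: l) : ℕ) : ℤ) := by
      rw [hf1 5 (by norm_num), ← h5]
      simp [St.sv]
    obtain ⟨c2, τ2, hB2, hv2, -, -, -, ho2⟩ := ht { τ1 with out := τ1.out ++ [τ1.v 6] } _ _ h15 (Part.mem_some _)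
    rw [hl] at hv2
    obtain ⟨c3, τ3, hB3, ho3⟩ := ih τ2 hv2
    refine ⟨_, τ3, Big.while_step hpos (Big.seq (Big.mov _ _ _) (Big.seq hB1 (Big.seq (Big.print _ _) hB2))) hB3, ?_⟩
    rw [ho3, ho2]
    simp only [ho1, hv1, List.map_cons]
    simp [St.sv]

theorem code_L (u : ℕ → List ℕ) (hu : Computable u) : ∃ s : Stmt, ∀ x : List Bool,
    ∃ c τ, Big s (St.ini x 0 0) c τ ∧ τ.out = (u x.length).map (fun n : ℕ => (n : ℤ)) := by
  obtain ⟨se, he⟩ := codeL_calc (f := fun n => Encodable.encode (u n)) (Computable.encode.comp hu) 5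
  obtain ⟨sh, hh⟩ := codeL_calc (f := fun n => n.pred.unpair.1)
    (Computable.fst.comp (Computable.unpair.comp Computable.pred)) 6
  obtain ⟨st, ht⟩ := codeL_calc (f := fun n => n.pred.unpair.2)
    (Computable.snd.comp (Computable.unpair.comp Computable.pred)) 5
  refine ⟨.seq (.seq (.const 2 2) (.seq (.const 4 1) (.seq (.read 1) (.sub 3 2 1))))
    (.seq (.whl 3 (.seq (.add 0 0 4) (.seq (.read 1) (.sub 3 2 1)))) (.seq (.mov 5 0)
    (.seq se (.whl 5 (.seq (.mov 6 5) (.seq sh (.seq (.print 6) st))))))), fun x => ?_⟩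
  obtain ⟨c0, σ, h0, t0, t2, t4, t3, ti, tO⟩ := codeL_init x
  obtain ⟨c1, τ1, hB1, hv1, ho1⟩ := codeL_read x σ 0 t0 t2 t4 t3 ti
  obtain ⟨c2, τ2, hB2, hv2, -, -, -, ho2⟩ := he (τ1.sv 5 (τ1.v 0)) x.length _
    (by simp [St.sv, hv1]) (Part.mem_some _)
  obtain ⟨c3, τ3, hB3, ho3⟩ := codeL_print hh ht (u x.length) τ2 hv2
  refine ⟨_, τ3, Big.seq h0 (Big.seq hB1 (Big.seq (Big.mov _ _ _) (Big.seq hB2 hB3))), ?_⟩
  rw [ho3, ho2]
  simp only [St.sv, ho1, tO, List.nil_append]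

theorem code_prog (u : ℕ → List ℕ) (hu : Computable u) : ∃ H : Prog, ∀ x : List Bool,
    ∃ t, Runs H x t ((u x.length).map (fun n : ℕ => (n : ℤ))) := by
  obtain ⟨s, hs⟩ := code_L u hu
  obtain ⟨r, rest, κ, h⟩ := compile_param s 0
  refine ⟨Instr.const r (0 : ℕ) :: rest, fun x => ?_⟩
  obtain ⟨c, τ, hb, ho⟩ := hs x
  obtain ⟨t, _, _, ht⟩ := h 0 x c τ (by simpa using hb)
  exact ⟨t, by rw [← ho]; exact ht⟩

end Pool.Agent.H71.CT
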