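import Pool.Agent.H71.CT.Lang

/-!
Compiler from the while language to the RAM. Layout: register 0 always holds 0, registers 1 and 2
are scratch, variable `v < V` is register `3 + v`, cell `j` of array `a < N` is register
`3 + V + N * j + a`.
-/

namespace Pool.Agent.H71.CT

/-- `cmp V N s b` is the code of `s` placed at address `b`. -/
def cmp (V N : ℕ) : Stmt → ℕ → List Instr
  | .skip, _ => []
  | .const v c, _ => [.const (3 + v) c]
  | .mov v a, _ => [.add (3 + v) (3 + a) 0]
  | .add v a b, _ => [.add (3 + v) (3 + a) (3 + b)]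
  | .sub v a b, _ => [.sub (3 + v) (3 + a) (3 + b)]
  | .get v a i, b => [.const 1 ((3 + V + a : ℕ) : ℤ), .jpos (3 + i) (b + 3), .jpos 1 (b + 3 + N)] ++
      List.replicate N (.add 1 1 (3 + i)) ++ [.load (3 + v) 1]
  | .put a i v, b => [.const 1 ((3 + V + a : ℕ) : ℤ), .jpos (3 + i) (b + 3), .jpos 1 (b + 3 + N)] ++
      List.replicate N (.add 1 1 (3 + i)) ++ [.store 1 (3 + v)]
  | .read v, _ => [.read (3 + v)]
  | .print v, _ => [.print (3 + v)]
  | .seq s t, b => cmp V N s b ++ cmp V N t (b + (cmp V N s b).length)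
  | .ite v s t, b =>
      let ct := cmp V N t (b + 1)
      let cs := cmp V N s (b + ct.length + 3)
      [.jpos (3 + v) (b + ct.length + 3)] ++ ct ++
        [.const 1 1, .jpos 1 (b + ct.length + 3 + cs.length)] ++ cs
  | .whl v s, b =>
      let cs := cmp V N s (b + 3)
      [.jpos (3 + v) (b + 3), .const 1 1, .jpos 1 (b + 5 + cs.length)] ++ cs ++
        [.const 1 1, .jpos 1 b]

/-- all variables are below `V` and all arrays below `N` -/
def Bdd (V N : ℕ) : Stmt → Prop
  | .skip => True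
  | .const v _ => v < V
  | .mov v a => v < V ∧ a < V
  | .add v a b => v < V ∧ a < V ∧ b < V
  | .sub v a b => v < V ∧ a < V ∧ b < V
  | .get v a i => v < V ∧ a < N ∧ i < V
  | .put a i v => a < N ∧ i < V ∧ v < V
  | .read v => v < V
  | .print v => v < V
  | .seq s t => Bdd V N s ∧ Bdd V N t
  | .ite v s t => v < V ∧ Bdd V N s ∧ Bdd V N t
  | .whl v s => v < V ∧ Bdd V N s

theorem Bdd.mono {V N V' N' : ℕ} (hV : V ≤ V') (hN : N ≤ N') :
    ∀ {s : Stmt}, Bdd V N s → Bdd V' N' s := by
  intro s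
  induction s with
  | skip => intro _; trivial
  | const v c => intro h; exact lt_of_lt_of_le h hV
  | mov v a => intro h; exact ⟨h.1.trans_le hV, h.2.trans_le hV⟩
  | add v a b => intro h; exact ⟨h.1.trans_le hV, h.2.1.trans_le hV, h.2.2.trans_le hV⟩
  | sub v a b => intro h; exact ⟨h.1.trans_le hV, h.2.1.trans_le hV, h.2.2.trans_le hV⟩
  | get v a i => intro h; exact ⟨h.1.trans_le hV, h.2.1.trans_le hN, h.2.2.trans_le hV⟩
  | put a i v => intro h; exact ⟨h.1.trans_le hN, h.2.1.trans_le hV, h.2.2.trans_le hV⟩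
  | read v => intro h; exact lt_of_lt_of_le h hV
  | print v => intro h; exact lt_of_lt_of_le h hV
  | seq s t hs ht => intro h; exact ⟨hs h.1, ht h.2⟩
  | ite v s t hs ht => intro h; exact ⟨h.1.trans_le hV, hs h.2.1, ht h.2.2⟩
  | whl v s hs => intro h; exact ⟨h.1.trans_le hV, hs h.2⟩

/-- some bounds exist -/
theorem exists_Bdd (s : Stmt) : ∃ V N, Bdd V N s := by
  induction s with
  | skip => exact ⟨0, 0, trivial⟩
  | const v c => exact ⟨v + 1, 0, Nat.lt_succ_self v⟩
  | mov v a => exact ⟨v + a + 1, 0, by simp only [Bdd]; omega⟩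
  | add v a b => exact ⟨v + a + b + 1, 0, by simp only [Bdd]; omega⟩
  | sub v a b => exact ⟨v + a + b + 1, 0, by simp only [Bdd]; omega⟩
  | get v a i => exact ⟨v + i + 1, a + 1, by simp only [Bdd]; omega⟩
  | put a i v => exact ⟨v + i + 1, a + 1, by simp only [Bdd]; omega⟩
  | read v => exact ⟨v + 1, 0, Nat.lt_succ_self v⟩
  | print v => exact ⟨v + 1, 0, Nat.lt_succ_self v⟩
  | seq s t hs ht =>
    obtain ⟨V, N, h⟩ := hs
    obtain ⟨V', N', h'⟩ := ht
    exact ⟨V + V', N + N', h.mono (by omega) (by omega), h'.mono (by omega) (by omega)⟩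
  | ite v s t hs ht =>
    obtain ⟨V, N, h⟩ := hs
    obtain ⟨V', N', h'⟩ := ht
    exact ⟨V + V' + v + 1, N + N', by omega, h.mono (by omega) (by omega),
      h'.mono (by omega) (by omega)⟩
  | whl v s hs =>
    obtain ⟨V, N, h⟩ := hs
    exact ⟨V + v + 1, N, by omega, h.mono (by omega) le_rfl⟩

/-- the state `σ` of the while language is represented by the configuration `k` -/
structure Rep (V N : ℕ) (σ : St) (k : Cfg) : Prop where
  zero : k.reg 0 = 0
  var : ∀ v < V, k.reg (3 + v) = σ.v v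
  arr : ∀ a < N, ∀ j, k.reg (3 + V + N * j + a) = σ.a a j
  inp : k.inp = σ.inp
  out : k.out = σ.out

end Pool.Agent.H71.CT
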