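import Pool.Agent.H71.CT.PrimA
import Pool.Agent.H71.CT.Prep

/-! New stopping times and horizons are computable. -/

namespace Pool.Agent.H71.CT

variable {A : ℕ → ℕ → ℕ} {F : ℕ → ℕ} {stp : ℕ → ℕ → ℕ → Bool}

section aux

variable {α : Type} [Primcodable α]

private theorem cpl_lev {T : α → List ℕ} (hT : Computable T) : Computable (fun a => lev (T a)) :=
  ((Primrec.list_getD 0).to_comp.comp hT (Computable.const 0)).of_eq fun _ => rfl

private theorem cpl_fld {T : α → List ℕ} {c : α → ℕ} (hT : Computable T) (hc : Computable c)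
    (j : ℕ) : Computable (fun a => fld (T a) (c a) j) := by
  have h1 : Primrec (fun c : ℕ => 1 + 4 * c + j) :=
    Primrec.nat_add.comp (Primrec.nat_add.comp (Primrec.const 1)
      (Primrec.nat_mul.comp (Primrec.const 4) Primrec.id)) (Primrec.const j)
  have h2 : Computable (fun a => 1 + 4 * c a + j) := h1.to_comp.comp hc
  exact ((Primrec.list_getD 0).to_comp.comp hT h2).of_eq fun _ => rfl

private theorem cpl_toNat : Computable Bool.toNat :=
  (Primrec.dom_finite Bool.toNat).to_comp

private theorem cpl_lt {f g : α → ℕ} (hf : Computable f) (hg : Computable g) :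
    Computable (fun a => decide (f a < g a)) := by
  have h : Primrec (fun p : ℕ × ℕ => decide (p.1 < p.2)) :=
    (Primrec.nat_lt.comp Primrec.fst Primrec.snd).decide
  exact h.to_comp.comp (hf.pair hg)

private theorem cpl_le {f g : α → ℕ} (hf : Computable f) (hg : Computable g) :
    Computable (fun a => decide (f a ≤ g a)) := by
  have h : Primrec (fun p : ℕ × ℕ => decide (p.1 ≤ p.2)) :=
    (Primrec.nat_le.comp Primrec.fst Primrec.snd).decide
  exact h.to_comp.comp (hf.pair hg)

private theorem cpl_add {f g : α → ℕ} (hf : Computable f) (hg : Computable g) :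
    Computable (fun a => f a + g a) :=
  Primrec.nat_add.to_comp.comp hf hg

private theorem cpl_sub {f g : α → ℕ} (hf : Computable f) (hg : Computable g) :
    Computable (fun a => f a - g a) :=
  Primrec.nat_sub.to_comp.comp hf hg

private theorem cpl_mul {f g : α → ℕ} (hf : Computable f) (hg : Computable g) :
    Computable (fun a => f a * g a) :=
  Primrec.nat_mul.to_comp.comp hf hg

private theorem cpl_and {f g : α → Bool} (hf : Computable f) (hg : Computable g) :
    Computable (fun a => f a && g a) :=
  Primrec.and.to_comp.comp hf hg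

/-- conditional with a decided proposition -/
private theorem cpl_ite {σ : Type} [Primcodable σ] {p : α → Prop} [DecidablePred p]
    {f g : α → σ} (hp : Computable (fun a => decide (p a))) (hf : Computable f)
    (hg : Computable g) : Computable (fun a => if p a then f a else g a) := by
  refine (Computable.cond hp hf hg).of_eq fun a => ?_
  by_cases h : p a <;> simp [h]

private theorem cpl_cst {bit : α → ℕ → ℕ → Bool} {c k : α → ℕ}
    (hb : Computable (fun p : α × ℕ × ℕ => bit p.1 p.2.1 p.2.2)) (hc : Computable c)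
    (hk : Computable k) : Computable (fun a => cst (bit a) (c a) (k a)) := by
  have h : Computable₂ (fun (a : α) (p : ℕ × ℕ) => 2 * p.2 + (bit a p.1 p.2).toNat) := by
    have h1 : Computable (fun q : α × (ℕ × ℕ) => q.2.2) := Computable.snd.comp Computable.snd
    exact cpl_add (cpl_mul (Computable.const 2) h1) (cpl_toNat.comp hb)
  refine (Computable.nat_rec hk hc h).of_eq fun a => ?_
  induction k a with
  | zero => rfl
  | succ n ih =>
    show 2 * _ + (bit a n _).toNat = 2 * _ + (bit a n _).toNat
    rw [ih]

private theorem cpl_stepN {T : α → List ℕ} {bit : α → ℕ → ℕ → Bool} {c : α → ℕ}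
    (hT : Computable T) (hb : Computable (fun p : α × ℕ × ℕ => bit p.1 p.2.1 p.2.2))
    (hc : Computable c) : Computable (fun a => stepN (T a) (bit a) (c a)) :=
  cpl_cst hb hc (cpl_lev hT)

private theorem cpl_stepS {T : α → List ℕ} {bit : α → ℕ → ℕ → Bool} {c : α → ℕ}
    (hT : Computable T) (hb : Computable (fun p : α × ℕ × ℕ => bit p.1 p.2.1 p.2.2))
    (hc : Computable c) : Computable (fun a => stepS (T a) (bit a) (c a)) := by
  have h1 := cpl_cst hb hc (cpl_lev hT)
  exact cpl_ite (cpl_lt (Computable.const 0) (cpl_fld hT h1 3)) hc h1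

private theorem cpl_oldC {T : α → List ℕ} {a' : α → ℕ → ℕ} {s t : α → ℕ}
    (hT : Computable T) (ha : Computable (fun p : α × ℕ => a' p.1 p.2))
    (hs : Computable s) (ht : Computable t) :
    Computable (fun a => oldC (T a) (a' a) (s a) (t a)) := by
  have h : Computable₂ (fun (a : α) (p : ℕ × ℕ) =>
      stepS (T a) (fun v _ => decide (a' a v ≤ s a + p.1)) p.2) := by
    have h2 : Computable (fun q : (α × (ℕ × ℕ)) × ℕ × ℕ =>
        decide (a' q.1.1 q.2.1 ≤ s q.1.1 + q.1.2.1)) := by
      refine cpl_le (ha.comp ((Computable.fst.comp Computable.fst).pair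
        (Computable.fst.comp Computable.snd))) (cpl_add (hs.comp
        (Computable.fst.comp Computable.fst)) ?_)
      exact Computable.fst.comp (Computable.snd.comp Computable.fst)
    exact cpl_stepS (T := fun q : α × (ℕ × ℕ) => T q.1)
      (bit := fun (q : α × (ℕ × ℕ)) v _ => decide (a' q.1 v ≤ s q.1 + q.2.1))
      (c := fun q => q.2.2) (hT.comp Computable.fst) h2 (Computable.snd.comp Computable.snd)
  refine (Computable.nat_rec ht (Computable.const 1) h).of_eq fun a => ?_
  induction t a with
  | zero => rfl
  | succ n ih =>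
    show stepS (T a) (fun v _ => decide (a' a v ≤ s a + n)) _ =
      stepS (T a) (fun v _ => decide (a' a v ≤ s a + n)) _
    rw [ih]

private theorem cpl_meP (par : Bool) : Computable (meP par) := by
  have h : Primrec (fun v : ℕ => (decide (v % 2 = 0), par)) :=
    (Primrec.eq.comp (Primrec.nat_mod.comp Primrec.id (Primrec.const 2))
      (Primrec.const 0)).decide.pair (Primrec.const par)
  have h2 : Primrec (fun p : Bool × Bool => p.1 == p.2) := Primrec.dom_finite _
  exact (h2.comp h).to_comp

private theorem cpl_nbit (hs : Computable (fun a : ℕ × ℕ × ℕ => stp a.1 a.2.1 a.2.2))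
    (par : Bool) (j : ℕ) {T : α → List ℕ} {n s v c : α → ℕ} (hT : Computable T)
    (hn : Computable n) (hs' : Computable s) (hv : Computable v) (hc : Computable c) :
    Computable (fun a => nbit (T a) (mkB A F stp par (n a)) j (s a) (v a) (c a)) := by
  have h1 : Computable (fun a => decide (v a < lev (T a)) && decide (0 < fld (T a) (c a) j)) :=
    cpl_and (cpl_lt hv (cpl_lev hT)) (cpl_lt (Computable.const 0) (cpl_fld hT hc j))
  have h2 : Computable (fun a => stp (v a / 2) (n a) (s a)) := by
    have h3 : Computable (fun a => v a / 2) :=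
      Primrec.nat_div.to_comp.comp hv (Computable.const 2)
    exact hs.comp (h3.pair (hn.pair hs'))
  refine (Computable.cond ((cpl_meP par).comp hv) h1 h2).of_eq fun a => ?_
  show (bif meP par (v a) then _ else _) = (if meP par (v a) = true then _ else _)
  cases meP par (v a) <;> rfl

private theorem cpl_newC (hA : Computable (fun a : ℕ × ℕ => A a.1 a.2)) (hF : Computable F)
    (hs : Computable (fun a : ℕ × ℕ × ℕ => stp a.1 a.2.1 a.2.2)) (par sd : Bool)
    {T : α → List ℕ} {n u : α → ℕ} (hT : Computable T) (hn : Computable n)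
    (hu : Computable u) :
    Computable (fun a => newC (T a) (mkB A F stp par (n a)) sd (u a)) := by
  have h0 : Computable (fun a => oldC (T a) (fun v => A v (n a)) (s0 (n a)) (F (n a) - s0 (n a))) :=
    cpl_oldC hT (hA.comp (Computable.snd.pair (hn.comp Computable.fst)))
      (computable_s0.comp hn) (cpl_sub (hF.comp hn) (computable_s0.comp hn))
  have hb : ∀ j, Computable (fun q : (α × (ℕ × ℕ)) × ℕ × ℕ =>
      nbit (T q.1.1) (mkB A F stp par (n q.1.1)) j (F (n q.1.1) + q.1.2.1) q.2.1 q.2.2) := by
    intro j
    have h1 : Computable (fun q : (α × (ℕ × ℕ)) × ℕ × ℕ => q.1.1) :=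
      Computable.fst.comp Computable.fst
    exact cpl_nbit hs par j (hT.comp h1) (hn.comp h1)
      (cpl_add (hF.comp (hn.comp h1)) (Computable.fst.comp (Computable.snd.comp Computable.fst)))
      (Computable.fst.comp Computable.snd) (Computable.snd.comp Computable.snd)
  cases sd with
  | false =>
    have h : Computable₂ (fun (a : α) (p : ℕ × ℕ) =>
        stepN (T a) (nbit (T a) (mkB A F stp par (n a)) 1 (F (n a) + p.1)) p.2) :=
      cpl_stepN (T := fun q : α × (ℕ × ℕ) => T q.1)
        (bit := fun (q : α × (ℕ × ℕ)) =>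
          nbit (T q.1) (mkB A F stp par (n q.1)) 1 (F (n q.1) + q.2.1))
        (c := fun q => q.2.2) (hT.comp Computable.fst) (hb 1)
        (Computable.snd.comp Computable.snd)
    refine (Computable.nat_rec hu h0 h).of_eq fun a => ?_
    induction u a with
    | zero => rfl
    | succ m ih =>
      show stepN (T a) (nbit (T a) (mkB A F stp par (n a)) 1 (F (n a) + m)) _ =
        stepN (T a) (nbit (T a) (mkB A F stp par (n a)) 1 (F (n a) + m)) _
      rw [ih]
  | true =>
    have h : Computable₂ (fun (a : α) (p : ℕ × ℕ) =>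
        stepS (T a) (nbit (T a) (mkB A F stp par (n a)) 0 (F (n a) + p.1)) p.2) :=
      cpl_stepS (T := fun q : α × (ℕ × ℕ) => T q.1)
        (bit := fun (q : α × (ℕ × ℕ)) =>
          nbit (T q.1) (mkB A F stp par (n q.1)) 0 (F (n q.1) + q.2.1))
        (c := fun q => q.2.2) (hT.comp Computable.fst) (hb 0)
        (Computable.snd.comp Computable.snd)
    refine (Computable.nat_rec hu h0 h).of_eq fun a => ?_
    induction u a with
    | zero => rfl
    | succ m ih =>
      show stepS (T a) (nbit (T a) (mkB A F stp par (n a)) 0 (F (n a) + m)) _ =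
        stepS (T a) (nbit (T a) (mkB A F stp par (n a)) 0 (F (n a) + m)) _
      rw [ih]

private theorem cpl_bitAt (hA : Computable (fun a : ℕ × ℕ => A a.1 a.2)) (hF : Computable F)
    (hs : Computable (fun a : ℕ × ℕ × ℕ => stp a.1 a.2.1 a.2.2)) (par sd : Bool)
    {T : α → List ℕ} {n u v : α → ℕ} (hT : Computable T) (hn : Computable n)
    (hu : Computable u) (hv : Computable v) :
    Computable (fun a => bitAt (T a) (mkB A F stp par (n a)) sd (u a) (v a)) := by
  have hbit : ∀ j, Computable (fun q : α × ℕ × ℕ =>
      nbit (T q.1) (mkB A F stp par (n q.1)) j (F (n q.1) + u q.1) q.2.1 q.2.2) := by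
    intro j
    exact cpl_nbit hs par j (hT.comp Computable.fst) (hn.comp Computable.fst)
      (cpl_add (hF.comp (hn.comp Computable.fst)) (hu.comp Computable.fst))
      (Computable.fst.comp Computable.snd) (Computable.snd.comp Computable.snd)
  have hC := cpl_newC hA hF hs par sd hT hn hu
  have h1 : ∀ j, Computable (fun a =>
      nbit (T a) (mkB A F stp par (n a)) j (F (n a) + u a) (v a)
        (cst (nbit (T a) (mkB A F stp par (n a)) j (F (n a) + u a))
          (newC (T a) (mkB A F stp par (n a)) sd (u a)) (v a))) := by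
    intro j
    exact cpl_nbit hs par j hT hn (cpl_add (hF.comp hn) hu) hv (cpl_cst (hbit j) hC hv)
  exact h1 (if sd then 0 else 1)

private theorem leastBelow_zero (f : ℕ → Bool) : leastBelow f 0 = 0 := rfl

private theorem leastBelow_succ (f : ℕ → Bool) (w : ℕ) :
    leastBelow f (w + 1) =
      if leastBelow f w < w then leastBelow f w else if f w = true then w else w + 1 := by
  unfold leastBelow
  rw [List.range_succ, List.find?_append]
  cases h : (List.range w).find? f with
  | some u =>
    have hu : u < w := List.mem_range.1 (List.mem_of_find?_eq_some h)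
    simp [hu]
  | none =>
    cases hw : f w <;> simp [hw]

private theorem cpl_least {f : α → ℕ → Bool} {w : α → ℕ}
    (hf : Computable (fun p : α × ℕ => f p.1 p.2)) (hw : Computable w) :
    Computable (fun a => leastBelow (f a) (w a)) := by
  have h : Computable₂ (fun (a : α) (p : ℕ × ℕ) =>
      if p.2 < p.1 then p.2 else if f a p.1 = true then p.1 else p.1 + 1) := by
    have h1 : Computable (fun q : α × (ℕ × ℕ) => q.2.1) := Computable.fst.comp Computable.snd
    have h2 : Computable (fun q : α × (ℕ × ℕ) => q.2.2) := Computable.snd.comp Computable.snd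
    have h3 : Computable (fun q : α × (ℕ × ℕ) => f q.1 q.2.1) :=
      hf.comp (Computable.fst.pair h1)
    refine cpl_ite (p := fun q : α × (ℕ × ℕ) => q.2.2 < q.2.1) (cpl_lt h2 h1) h2
      (cpl_ite (p := fun q : α × (ℕ × ℕ) => f q.1 q.2.1 = true) ?_ h1 (Computable.succ.comp h1))
    exact h3.of_eq fun q => by cases f q.1 q.2.1 <;> rfl
  refine (Computable.nat_rec hw (Computable.const 0) h).of_eq fun a => ?_
  induction w a with
  | zero => rfl
  | succ m ih =>
    rw [leastBelow_succ, ← ih]

end aux

theorem computable_newC (hA : Computable (fun a : ℕ × ℕ => A a.1 a.2)) (hF : Computable F)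
    (hs : Computable (fun a : ℕ × ℕ × ℕ => stp a.1 a.2.1 a.2.2)) (par sd : Bool) :
    Computable (fun a : List ℕ × ℕ × ℕ => newC a.1 (mkB A F stp par a.2.1) sd a.2.2) :=
  cpl_newC hA hF hs par sd Computable.fst (Computable.fst.comp Computable.snd)
    (Computable.snd.comp Computable.snd)

theorem computable_newH (hA : Computable (fun a : ℕ × ℕ => A a.1 a.2)) (hF : Computable F)
    (hs : Computable (fun a : ℕ × ℕ × ℕ => stp a.1 a.2.1 a.2.2)) (par : Bool) :
    Computable (fun a : List ℕ × ℕ => newH a.1 (mkB A F stp par a.2)) := by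
  have hM : Computable (fun a : List ℕ × ℕ => QB a.1) := by
    have h1 : Computable (fun a : List ℕ × ℕ => lev a.1) := cpl_lev Computable.fst
    exact cpl_mul (Computable.const 2) (cpl_mul h1 (Computable.succ.comp h1))
  have hC : Computable (fun p : (List ℕ × ℕ) × ℕ =>
      newC p.1.1 (mkB A F stp par p.1.2) false p.2) :=
    cpl_newC hA hF hs par false (Computable.fst.comp Computable.fst)
      (Computable.snd.comp Computable.fst) Computable.snd
  have hf : Computable (fun p : (List ℕ × ℕ) × ℕ =>
      decide (fld p.1.1 (newC p.1.1 (mkB A F stp par p.1.2) false p.2) 2 = 0)) := by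
    have h1 : Primrec (fun n : ℕ => decide (n = 0)) :=
      (Primrec.eq.comp Primrec.id (Primrec.const 0)).decide
    exact h1.to_comp.comp (cpl_fld (Computable.fst.comp Computable.fst) hC 2)
  exact cpl_add (hF.comp Computable.snd) (cpl_least
    (f := fun (a : List ℕ × ℕ) u =>
      decide (fld a.1 (newC a.1 (mkB A F stp par a.2) false u) 2 = 0)) hf hM)

/-- arguments: table, board, new horizon, function -/
theorem computable_newA (hA : Computable (fun a : ℕ × ℕ => A a.1 a.2)) (hF : Computable F)
    (hs : Computable (fun a : ℕ × ℕ × ℕ => stp a.1 a.2.1 a.2.2)) (par sd : Bool) :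
    Computable (fun a : List ℕ × ℕ × ℕ × ℕ =>
      newA a.1 (mkB A F stp par a.2.1) sd a.2.2.1 a.2.2.2) := by
  have e1 : Computable (fun a : List ℕ × ℕ × ℕ × ℕ => a.2.1) :=
    Computable.fst.comp Computable.snd
  have e2 : Computable (fun a : List ℕ × ℕ × ℕ × ℕ => a.2.2.1) :=
    Computable.fst.comp (Computable.snd.comp Computable.snd)
  have e3 : Computable (fun a : List ℕ × ℕ × ℕ × ℕ => a.2.2.2) :=
    Computable.snd.comp (Computable.snd.comp Computable.snd)
  have hAv : Computable (fun a : List ℕ × ℕ × ℕ × ℕ => A a.2.2.2 a.2.1) :=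
    hA.comp (e3.pair e1)
  have hh : Computable (fun a : List ℕ × ℕ × ℕ × ℕ => F a.2.1) := hF.comp e1
  have hb : Computable (fun p : (List ℕ × ℕ × ℕ × ℕ) × ℕ =>
      bitAt p.1.1 (mkB A F stp par p.1.2.1) sd p.2 p.1.2.2.2) :=
    cpl_bitAt hA hF hs par sd (Computable.fst.comp Computable.fst) (e1.comp Computable.fst)
      Computable.snd (e3.comp Computable.fst)
  exact cpl_ite (p := fun a : List ℕ × ℕ × ℕ × ℕ => A a.2.2.2 a.2.1 < F a.2.1)
    (cpl_lt hAv hh) hAv (cpl_add hh (cpl_least
      (f := fun (a : List ℕ × ℕ × ℕ × ℕ) u =>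
        bitAt a.1 (mkB A F stp par a.2.1) sd u a.2.2.2) hb (cpl_sub e2 hh)))

theorem computable_first (hF : Computable F)
    (hs : Computable (fun a : ℕ × ℕ × ℕ => stp a.1 a.2.1 a.2.2)) (p : ℕ) {F' : ℕ → ℕ}
    (h : FirstFrom stp p F F') : Computable F' := by
  have h1 : Computable₂ (fun (n k : ℕ) => stp p n (F n + k)) := by
    have hn : Computable (fun q : ℕ × ℕ => q.1) := Computable.fst
    exact hs.comp ((Computable.const p).pair (hn.pair (cpl_add (hF.comp hn) Computable.snd)))
  have h2 : Partrec (fun n => Nat.rfind (fun k => Part.some (stp p n (F n + k)))) :=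
    Partrec.rfind h1
  have h3 : Computable (fun n => F' n - F n) := by
    refine h2.of_eq fun n => ?_
    obtain ⟨ha, hb, hc⟩ := h n
    refine Part.eq_some_iff.2 (Nat.mem_rfind.2 ⟨?_, ?_⟩)
    · rw [Nat.add_sub_cancel' ha]
      exact Part.mem_some_iff.2 hb.symm
    · intro m hm
      have hm' : m < F' n - F n := hm
      exact Part.mem_some_iff.2 (hc (F n + m) (by omega) (by omega)).symm
  refine (cpl_add hF h3).of_eq fun n => ?_
  exact Nat.add_sub_cancel' (h n).1

end Pool.Agent.H71.CT
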