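import Pool.Agent.H71.CT.CompDef

/-!
Correctness of the compiler: simulation lemma.
-/

namespace Pool.Agent.H71.CT

/-- `t` steps from `k` to `k'`, before the last one the program counter stays below `e` -/
private def Rn (p : List Instr) (e : ℕ) (k : Cfg) (t : ℕ) (k' : Cfg) : Prop :=
  (step p)^[t] k = k' ∧ ∀ i < t, ((step p)^[i] k).pc < e

private theorem Rn.refl (p : List Instr) (e : ℕ) (k : Cfg) : Rn p e k 0 k :=
  ⟨rfl, fun i hi => absurd hi (Nat.not_lt_zero i)⟩

private theorem Rn.trans {p : List Instr} {e : ℕ} {k k' k'' : Cfg} {t t' : ℕ} (h : Rn p e k t k')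
    (h' : Rn p e k' t' k'') : Rn p e k (t + t') k'' := by
  obtain ⟨h1, h2⟩ := h
  obtain ⟨h3, h4⟩ := h'
  refine ⟨?_, fun i hi => ?_⟩
  · rw [Nat.add_comm, Function.iterate_add_apply, h1, h3]
  · rcases lt_or_ge i t with hit | hit
    · exact h2 i hit
    · obtain ⟨m, rfl⟩ := Nat.exists_eq_add_of_le hit
      rw [Nat.add_comm, Function.iterate_add_apply, h1]
      exact h4 m (by omega)

private theorem Rn.mono {p : List Instr} {e e' : ℕ} {k k' : Cfg} {t : ℕ} (h : Rn p e k t k')
    (he : e ≤ e') : Rn p e' k t k' :=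
  ⟨h.1, fun i hi => (h.2 i hi).trans_le he⟩

private theorem Rn.one {p : List Instr} {e : ℕ} {k : Cfg} {a : Instr} (h : p[k.pc]? = some a)
    (he : k.pc < e) : Rn p e k 1 (a.exec k) := by
  refine ⟨?_, fun i hi => ?_⟩
  · rw [Function.iterate_one]
    unfold step
    rw [h]
  · obtain rfl : i = 0 := by omega
    exact he

private theorem fetch {p pre code post : List Instr} (hp : p = pre ++ code ++ post) {m : ℕ}
    (hm : m < code.length) : p[pre.length + m]? = code[m]? := by
  rw [hp, List.append_assoc, List.getElem?_append_right (by omega), Nat.add_sub_cancel_left,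
    List.getElem?_append_left hm]

private theorem rep_sv {V N : ℕ} {σ : St} {k : Cfg} (h : Rep V N σ k) {v : ℕ} (hv : v < V) (z : ℤ)
    (pc : ℕ) : Rep V N (σ.sv v z) ⟨pc, Function.update k.reg (3 + v) z, k.inp, k.out⟩ where
  zero := by
    change Function.update k.reg (3 + v) z 0 = 0
    rw [Function.update_of_ne (by omega)]
    exact h.zero
  var := by
    intro w hw
    change Function.update k.reg (3 + v) z (3 + w) = Function.update σ.v v z w
    by_cases hvw : w = v
    · subst hvw
      rw [Function.update_self, Function.update_self]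
    · rw [Function.update_of_ne (by omega), Function.update_of_ne hvw]
      exact h.var w hw
  arr := by
    intro a ha j
    change Function.update k.reg (3 + v) z (3 + V + N * j + a) = σ.a a j
    rw [Function.update_of_ne (by omega)]
    exact h.arr a ha j
  inp := h.inp
  out := h.out

private theorem rep_scr {V N : ℕ} {σ : St} {k : Cfg} (h : Rep V N σ k) (z : ℤ)
    (pc : ℕ) : Rep V N σ ⟨pc, Function.update k.reg 1 z, k.inp, k.out⟩ where
  zero := by
    change Function.update k.reg 1 z 0 = 0
    rw [Function.update_of_ne (by omega)]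
    exact h.zero
  var := by
    intro w hw
    change Function.update k.reg 1 z (3 + w) = σ.v w
    rw [Function.update_of_ne (by omega)]
    exact h.var w hw
  arr := by
    intro a ha j
    change Function.update k.reg 1 z (3 + V + N * j + a) = σ.a a j
    rw [Function.update_of_ne (by omega)]
    exact h.arr a ha j
  inp := h.inp
  out := h.out

private theorem rep_pc {V N : ℕ} {σ : St} {k : Cfg} (h : Rep V N σ k) (pc : ℕ) :
    Rep V N σ ⟨pc, k.reg, k.inp, k.out⟩ :=
  ⟨h.zero, h.var, h.arr, h.inp, h.out⟩

private theorem addr_inj {N j a j' a' : ℕ} (ha : a < N) (ha' : a' < N)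
    (h : N * j + a = N * j' + a') : j = j' ∧ a = a' := by
  have h1 : (N * j + a) / N = j := by
    rw [Nat.mul_add_div (by omega), Nat.div_eq_of_lt ha, Nat.add_zero]
  have h2 : (N * j' + a') / N = j' := by
    rw [Nat.mul_add_div (by omega), Nat.div_eq_of_lt ha', Nat.add_zero]
  have h3 : j = j' := by rw [← h1, ← h2, h]
  subst h3
  exact ⟨rfl, by omega⟩

private theorem rep_sa {V N : ℕ} {σ : St} {k : Cfg} (h : Rep V N σ k) {a : ℕ} (ha : a < N) (j : ℕ)
    (z : ℤ) (pc : ℕ) :
    Rep V N (σ.sa a j z) ⟨pc, Function.update k.reg (3 + V + N * j + a) z, k.inp, k.out⟩ where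
  zero := by
    change Function.update k.reg (3 + V + N * j + a) z 0 = 0
    rw [Function.update_of_ne (by omega)]
    exact h.zero
  var := by
    intro w hw
    change Function.update k.reg (3 + V + N * j + a) z (3 + w) = σ.v w
    rw [Function.update_of_ne (by omega)]
    exact h.var w hw
  arr := by
    intro a' ha' j'
    change Function.update k.reg (3 + V + N * j + a) z (3 + V + N * j' + a') =
      Function.update σ.a a (Function.update (σ.a a) j z) a' j'
    by_cases haa : a' = a
    · subst haa
      rw [Function.update_self]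
      by_cases hjj : j' = j
      · subst hjj
        rw [Function.update_self, Function.update_self]
      · rw [Function.update_of_ne hjj, Function.update_of_ne]
        · exact h.arr a' ha' j'
        · intro hcon
          have hcon' : N * j' + a' = N * j + a' := by omega
          exact hjj (addr_inj ha' ha' hcon').1
    · rw [Function.update_of_ne haa, Function.update_of_ne]
      · exact h.arr a' ha' j'
      · intro hcon
        have hcon' : N * j' + a' = N * j + a := by omega
        exact haa (addr_inj ha' ha hcon').2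
  inp := h.inp
  out := h.out

private theorem ex_const (i : ℕ) (c : ℤ) (k : Cfg) : (Instr.const i c).exec k =
    ⟨k.pc + 1, Function.update k.reg i c, k.inp, k.out⟩ := rfl

private theorem ex_add (i j l : ℕ) (k : Cfg) : (Instr.add i j l).exec k =
    ⟨k.pc + 1, Function.update k.reg i (k.reg j + k.reg l), k.inp, k.out⟩ := rfl

private theorem ex_sub (i j l : ℕ) (k : Cfg) : (Instr.sub i j l).exec k =
    ⟨k.pc + 1, Function.update k.reg i (k.reg j - k.reg l), k.inp, k.out⟩ := rfl

private theorem ex_load (i j : ℕ) (k : Cfg) : (Instr.load i j).exec k =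
    ⟨k.pc + 1, Function.update k.reg i (k.reg (k.reg j).toNat), k.inp, k.out⟩ := rfl

private theorem ex_store (i j : ℕ) (k : Cfg) : (Instr.store i j).exec k =
    ⟨k.pc + 1, Function.update k.reg (k.reg i).toNat (k.reg j), k.inp, k.out⟩ := rfl

private theorem ex_jpos (j m : ℕ) (k : Cfg) : (Instr.jpos j m).exec k =
    ⟨if 0 < k.reg j then m else k.pc + 1, k.reg, k.inp, k.out⟩ := rfl

private theorem ex_read (i : ℕ) (k : Cfg) : (Instr.read i).exec k =
    ⟨k.pc + 1, Function.update k.reg i (sym k.inp), k.inp.tail, k.out⟩ := rfl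

private theorem ex_print (i : ℕ) (k : Cfg) : (Instr.print i).exec k =
    ⟨k.pc + 1, k.reg, k.inp, k.out ++ [k.reg i]⟩ := rfl

/-- the loop of additions -/
private theorem addloop {p : List Instr} {b0 N r : ℕ} (hr : r ≠ 1)
    (hf : ∀ m < N, p[b0 + m]? = some (.add 1 1 r)) (k : Cfg) (hk : k.pc = b0) (m : ℕ) (hm : m ≤ N) :
    Rn p (b0 + N) k m ⟨b0 + m, Function.update k.reg 1 (k.reg 1 + m * k.reg r), k.inp, k.out⟩ := by
  induction m with
  | zero =>
    have e : (⟨b0 + 0, Function.update k.reg 1 (k.reg 1 + (0 : ℕ) * k.reg r), k.inp, k.out⟩ : Cfg) =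
        k := by
      have e1 : k.reg 1 + ((0 : ℕ) : ℤ) * k.reg r = k.reg 1 := by simp
      rw [e1, Function.update_eq_self, Nat.add_zero, ← hk]
    rw [e]
    exact Rn.refl _ _ _
  | succ m ih =>
    have h1 := ih (by omega)
    refine h1.trans ?_
    have h2 : Rn p (b0 + N)
        (⟨b0 + m, Function.update k.reg 1 (k.reg 1 + m * k.reg r), k.inp, k.out⟩ : Cfg) 1 _ :=
      Rn.one (a := .add 1 1 r) (hf m (by omega)) (by
        change b0 + m < b0 + N
        omega)
    have e : (Instr.add 1 1 r).exec
        (⟨b0 + m, Function.update k.reg 1 (k.reg 1 + m * k.reg r), k.inp, k.out⟩ : Cfg) =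
        ⟨b0 + (m + 1), Function.update k.reg 1 (k.reg 1 + ((m + 1 : ℕ) : ℤ) * k.reg r), k.inp,
          k.out⟩ := by
      have e1 : k.reg 1 + (m : ℤ) * k.reg r + k.reg r = k.reg 1 + ((m + 1 : ℕ) : ℤ) * k.reg r := by
        push_cast
        ring
      rw [ex_add]
      simp only [Function.update_self, Function.update_idem, Function.update_of_ne hr]
      rw [e1, Nat.add_assoc]
    rw [e] at h2
    exact h2

/-- computing the address of a cell -/
private theorem addrc {V N : ℕ} {σ : St} {p pre post : List Instr} {b a i : ℕ} {last : Instr}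
    (hpre : pre.length = b)
    (hp : p = pre ++ (([.const 1 ((3 + V + a : ℕ) : ℤ), .jpos (3 + i) (b + 3),
      .jpos 1 (b + 3 + N)] : List Instr) ++
      List.replicate N (.add 1 1 (3 + i)) ++ [last]) ++ post) (hi : i < V) {k : Cfg}
    (hk : k.pc = b) (h : Rep V N σ k) : ∃ t, 1 ≤ t ∧ t + 1 ≤ N + 4 ∧
      Rn p (b + (N + 3)) k t ⟨b + (N + 3), Function.update k.reg 1
        ((3 + V + N * (σ.v i).toNat + a : ℕ) : ℤ), k.inp, k.out⟩ ∧
      p[b + (N + 3)]? = some last := by
  have hlen : (([.const 1 ((3 + V + a : ℕ) : ℤ), .jpos (3 + i) (b + 3),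
      .jpos 1 (b + 3 + N)] : List Instr) ++
      List.replicate N (Instr.add 1 1 (3 + i)) ++ [last]).length = N + 4 := by
    simp only [List.length_append, List.length_replicate, List.length_cons, List.length_nil]
    omega
  have hfe : ∀ m < N + 4, p[b + m]? = (([.const 1 ((3 + V + a : ℕ) : ℤ), .jpos (3 + i) (b + 3),
      .jpos 1 (b + 3 + N)] : List Instr) ++ List.replicate N (Instr.add 1 1 (3 + i)) ++
      [last])[m]? := by
    intro m hm
    rw [← hpre]
    rw [← hpre] at hp
    exact fetch hp (by
      rw [← hpre] at hlen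
      rw [hlen]
      exact hm)
  have f0 : p[b]? = some (.const 1 ((3 + V + a : ℕ) : ℤ)) := by
    have := hfe 0 (by omega)
    rw [Nat.add_zero] at this
    rw [this]
    rfl
  have f1 : p[b + 1]? = some (.jpos (3 + i) (b + 3)) := by
    rw [hfe 1 (by omega)]
    rfl
  have f2 : p[b + 2]? = some (.jpos 1 (b + 3 + N)) := by
    rw [hfe 2 (by omega)]
    rfl
  have f3 : ∀ m < N, p[b + 3 + m]? = some (.add 1 1 (3 + i)) := by
    intro m hm
    rw [Nat.add_assoc, hfe (3 + m) (by omega), List.getElem?_append_left (by simp; omega),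
      List.getElem?_append_right (by simp)]
    simp [hm]
  have f4 : p[b + (N + 3)]? = some last := by
    rw [hfe (N + 3) (by omega), List.getElem?_append_right (by simp)]
    simp
  -- the first two instructions
  obtain ⟨k1, hk1⟩ : ∃ k1 : Cfg, k1 = ⟨b + 1, Function.update k.reg 1 ((3 + V + a : ℕ) : ℤ), k.inp,
    k.out⟩ := ⟨_, rfl⟩
  have s1 : Rn p (b + (N + 3)) k 1 k1 := by
    have := Rn.one (p := p) (e := b + (N + 3)) (k := k) (a := .const 1 ((3 + V + a : ℕ) : ℤ))
      (by rw [hk]; exact f0) (by omega)
    rw [hk1]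
    rw [ex_const, hk] at this
    exact this
  have hvi : k1.reg (3 + i) = σ.v i := by
    rw [hk1]
    change Function.update k.reg 1 _ (3 + i) = _
    rw [Function.update_of_ne (by omega)]
    exact h.var i hi
  have hv1 : k1.reg 1 = ((3 + V + a : ℕ) : ℤ) := by
    rw [hk1]
    exact Function.update_self (f := k.reg) 1 ((3 + V + a : ℕ) : ℤ)
  have s2 := Rn.one (p := p) (e := b + (N + 3)) (k := k1) (a := .jpos (3 + i) (b + 3))
      (by rw [hk1]; exact f1) (by rw [hk1]; change b + 1 < _; omega)
  rw [ex_jpos, hvi] at s2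
  by_cases hpos : 0 < σ.v i
  · rw [if_pos hpos] at s2
    have s3 := addloop (p := p) (b0 := b + 3) (N := N) (r := 3 + i) (by omega) f3
      ⟨b + 3, k1.reg, k1.inp, k1.out⟩ rfl N le_rfl
    refine ⟨1 + 1 + N, by omega, by omega, ?_, f4⟩
    have s4 := (s1.trans s2).trans (s3.mono (e' := b + (N + 3)) (by omega))
    have e : (⟨b + 3 + N, Function.update k1.reg 1 (k1.reg 1 + N * k1.reg (3 + i)), k1.inp,
        k1.out⟩ : Cfg) = ⟨b + (N + 3), Function.update k.reg 1
        ((3 + V + N * (σ.v i).toNat + a : ℕ) : ℤ), k.inp, k.out⟩ := by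
      rw [hvi, hv1, hk1]
      have e1 : ((3 + V + a : ℕ) : ℤ) + N * σ.v i = ((3 + V + N * (σ.v i).toNat + a : ℕ) : ℤ) := by
        push_cast
        rw [Int.toNat_of_nonneg hpos.le]
        ring
      rw [e1]
      simp only [Function.update_idem]
      congr 1
      omega
    rw [← e]
    exact s4
  · rw [if_neg hpos] at s2
    have s3 := Rn.one (p := p) (e := b + (N + 3)) (k := ⟨k1.pc + 1, k1.reg, k1.inp, k1.out⟩)
      (a := .jpos 1 (b + 3 + N)) (by rw [hk1]; exact f2) (by rw [hk1]; change b + 1 + 1 < _; omega)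
    have h1 : (0 : ℤ) < k1.reg 1 := by
      rw [hv1]
      positivity
    rw [ex_jpos, if_pos h1] at s3
    refine ⟨1 + 1 + 1, by omega, by omega, ?_, f4⟩
    have s4 := (s1.trans s2).trans s3
    have e : (⟨b + 3 + N, k1.reg, k1.inp, k1.out⟩ : Cfg) = ⟨b + (N + 3), Function.update k.reg 1
        ((3 + V + N * (σ.v i).toNat + a : ℕ) : ℤ), k.inp, k.out⟩ := by
      have e1 : (σ.v i).toNat = 0 := Int.toNat_of_nonpos (not_lt.mp hpos)
      rw [hk1, e1, Nat.mul_zero, Nat.add_zero]
      congr 1
      omega
    rw [← e]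
    exact s4

private theorem single {p pre post : List Instr} {a : Instr} {b : ℕ} (hpre : pre.length = b)
    (hp : p = pre ++ [a] ++ post) {k : Cfg} (hk : k.pc = b) : Rn p (b + 1) k 1 (a.exec k) := by
  apply Rn.one
  · have := fetch (m := 0) hp (by simp)
    rw [Nat.add_zero, hpre] at this
    rw [hk, this]
    rfl
  · omega

private theorem sim (V N : ℕ) {s : Stmt} {σ τ : St} {c : ℕ} (h : Big s σ c τ) : Bdd V N s →
    ∀ (p pre post : List Instr) (b : ℕ), pre.length = b → p = pre ++ cmp V N s b ++ post →
    ∀ k : Cfg, k.pc = b → Rep V N σ k → ∃ (t : ℕ) (k' : Cfg), c ≤ t ∧ t ≤ (N + 4) * c ∧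
      Rn p (b + (cmp V N s b).length) k t k' ∧ k'.pc = b + (cmp V N s b).length ∧
      Rep V N τ k' := by
  induction h with
  | skip σ =>
    intro _ p pre post b hpre hp k hk hr
    exact ⟨0, k, le_rfl, by omega, Rn.refl _ _ _, by simp [cmp, hk], hr⟩
  | const σ v c =>
    intro hb p pre post b hpre hp k hk hr
    have s1 := single hpre hp hk
    rw [ex_const] at s1
    refine ⟨1, _, le_rfl, by omega, s1, ?_, rep_sv hr hb c _⟩
    change k.pc + 1 = b + 1
    rw [hk]
  | mov σ v a =>
    intro hb p pre post b hpre hp k hk hr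
    have e : k.reg (3 + a) + k.reg 0 = σ.v a := by rw [hr.zero, add_zero, hr.var a hb.2]
    have s1 := single hpre hp hk
    rw [ex_add, e] at s1
    refine ⟨1, _, le_rfl, by omega, s1, ?_, rep_sv hr hb.1 _ _⟩
    change k.pc + 1 = b + 1
    rw [hk]
  | add σ v a b' =>
    intro hb p pre post b hpre hp k hk hr
    have e : k.reg (3 + a) + k.reg (3 + b') = σ.v a + σ.v b' := by
      rw [hr.var a hb.2.1, hr.var b' hb.2.2]
    have s1 := single hpre hp hk
    rw [ex_add, e] at s1
    refine ⟨1, _, le_rfl, by omega, s1, ?_, rep_sv hr hb.1 _ _⟩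
    change k.pc + 1 = b + 1
    rw [hk]
  | sub σ v a b' =>
    intro hb p pre post b hpre hp k hk hr
    have e : k.reg (3 + a) - k.reg (3 + b') = σ.v a - σ.v b' := by
      rw [hr.var a hb.2.1, hr.var b' hb.2.2]
    have s1 := single hpre hp hk
    rw [ex_sub, e] at s1
    refine ⟨1, _, le_rfl, by omega, s1, ?_, rep_sv hr hb.1 _ _⟩
    change k.pc + 1 = b + 1
    rw [hk]
  | get σ v a i =>
    intro hb p pre post b hpre hp k hk hr
    obtain ⟨t, ht1, ht2, hrun, hlast⟩ := addrc hpre hp hb.2.2 hk hr
    have hlen : (cmp V N (.get v a i) b).length = N + 4 := by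
      simp only [cmp, List.length_append, List.length_replicate, List.length_cons, List.length_nil]
      omega
    have s1 := Rn.one (p := p) (e := b + (N + 4)) (a := .load (3 + v) 1)
      (k := ⟨b + (N + 3), Function.update k.reg 1 ((3 + V + N * (σ.v i).toNat + a : ℕ) : ℤ), k.inp,
        k.out⟩) hlast (by change b + (N + 3) < _; omega)
    have h2 := rep_scr hr ((3 + V + N * (σ.v i).toNat + a : ℕ) : ℤ) (b + (N + 3))
    have h3 := rep_sv h2 hb.1 (σ.a a (σ.v i).toNat) (b + (N + 3) + 1)
    have e : (Instr.load (3 + v) 1).exec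
        ⟨b + (N + 3), Function.update k.reg 1 ((3 + V + N * (σ.v i).toNat + a : ℕ) : ℤ), k.inp,
          k.out⟩ = ⟨b + (N + 3) + 1, Function.update (Function.update k.reg 1
            ((3 + V + N * (σ.v i).toNat + a : ℕ) : ℤ)) (3 + v) (σ.a a (σ.v i).toNat), k.inp,
          k.out⟩ := by
      rw [ex_load]
      simp only [Function.update_self, Int.toNat_natCast]
      have e2 := h2.arr a hb.2.1 (σ.v i).toNat
      simp only at e2
      rw [e2]
    rw [e] at s1
    refine ⟨t + 1, _, by omega, by omega, ?_, ?_, h3⟩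
    · rw [hlen]
      exact (hrun.mono (by omega)).trans s1
    · rw [hlen]
      rfl
  | put σ a i v =>
    intro hb p pre post b hpre hp k hk hr
    obtain ⟨t, ht1, ht2, hrun, hlast⟩ := addrc hpre hp hb.2.1 hk hr
    have hlen : (cmp V N (.put a i v) b).length = N + 4 := by
      simp only [cmp, List.length_append, List.length_replicate, List.length_cons, List.length_nil]
      omega
    have s1 := Rn.one (p := p) (e := b + (N + 4)) (a := .store 1 (3 + v))
      (k := ⟨b + (N + 3), Function.update k.reg 1 ((3 + V + N * (σ.v i).toNat + a : ℕ) : ℤ), k.inp,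
        k.out⟩) hlast (by change b + (N + 3) < _; omega)
    have h2 := rep_scr hr ((3 + V + N * (σ.v i).toNat + a : ℕ) : ℤ) (b + (N + 3))
    have h3 := rep_sa h2 hb.1 (σ.v i).toNat (σ.v v) (b + (N + 3) + 1)
    have e : (Instr.store 1 (3 + v)).exec
        ⟨b + (N + 3), Function.update k.reg 1 ((3 + V + N * (σ.v i).toNat + a : ℕ) : ℤ), k.inp,
          k.out⟩ = ⟨b + (N + 3) + 1, Function.update (Function.update k.reg 1
            ((3 + V + N * (σ.v i).toNat + a : ℕ) : ℤ)) (3 + V + N * (σ.v i).toNat + a) (σ.v v),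
          k.inp, k.out⟩ := by
      rw [ex_store]
      simp only [Function.update_self, Int.toNat_natCast]
      have e2 := h2.var v hb.2.2
      simp only at e2
      rw [e2]
    rw [e] at s1
    refine ⟨t + 1, _, by omega, by omega, ?_, ?_, h3⟩
    · rw [hlen]
      exact (hrun.mono (by omega)).trans s1
    · rw [hlen]
      rfl
  | read σ v =>
    intro hb p pre post b hpre hp k hk hr
    have s1 := single hpre hp hk
    rw [ex_read, hr.inp] at s1
    refine ⟨1, _, le_rfl, by omega, s1, ?_, ?_⟩
    · change k.pc + 1 = b + 1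
      rw [hk]
    · have h1 := rep_sv hr hb (sym σ.inp) (k.pc + 1)
      exact ⟨h1.zero, h1.var, h1.arr, rfl, h1.out⟩
  | print σ v =>
    intro hb p pre post b hpre hp k hk hr
    have s1 := single hpre hp hk
    rw [ex_print] at s1
    refine ⟨1, _, le_rfl, by omega, s1, ?_, ?_⟩
    · change k.pc + 1 = b + 1
      rw [hk]
    · refine ⟨hr.zero, hr.var, hr.arr, hr.inp, ?_⟩
      change k.out ++ [k.reg (3 + v)] = σ.out ++ [σ.v v]
      rw [hr.out, hr.var v hb]
  | @seq s t σ σ' σ'' c d _ _ ih1 ih2 =>
    intro hb p pre post b hpre hp k hk hr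
    have e0 : cmp V N (.seq s t) b = cmp V N s b ++ cmp V N t (b + (cmp V N s b).length) := rfl
    have hp1 : p = pre ++ cmp V N s b ++ (cmp V N t (b + (cmp V N s b).length) ++ post) := by
      rw [hp, e0]
      simp only [List.append_assoc]
    have hp2 : p = (pre ++ cmp V N s b) ++ cmp V N t (b + (cmp V N s b).length) ++ post := by
      rw [hp, e0]
      simp only [List.append_assoc]
    obtain ⟨t1, k1, a1, a2, a3, a4, a5⟩ := ih1 hb.1 p pre _ b hpre hp1 k hk hr
    obtain ⟨t2, k2, b1, b2, b3, b4, b5⟩ := ih2 hb.2 p (pre ++ cmp V N s b) post _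
      (by rw [List.length_append, hpre]) hp2 k1 a4 a5
    have hlen : (cmp V N (.seq s t) b).length =
        (cmp V N s b).length + (cmp V N t (b + (cmp V N s b).length)).length := by
      rw [e0, List.length_append]
    refine ⟨t1 + t2, k2, by omega, ?_, ?_, ?_, b5⟩
    · rw [Nat.mul_add]
      omega
    · rw [hlen]
      exact (a3.mono (by omega)).trans (b3.mono (by omega))
    · rw [b4, hlen]
      omega
  | @ite_pos v s t σ σ' c hv _ ih =>
    intro hb p pre post b hpre hp k hk hr
    obtain ⟨ct, hct⟩ : ∃ ct, ct = cmp V N t (b + 1) := ⟨_, rfl⟩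
    obtain ⟨cs, hcs⟩ : ∃ cs, cs = cmp V N s (b + ct.length + 3) := ⟨_, rfl⟩
    have e0 : cmp V N (.ite v s t) b = ([.jpos (3 + v) (b + ct.length + 3)] : List Instr) ++ ct ++
        ([.const 1 1, .jpos 1 (b + ct.length + 3 + cs.length)] : List Instr) ++ cs := by
      rw [hcs, hct]
      rfl
    have hlen : (cmp V N (.ite v s t) b).length = ct.length + 3 + cs.length := by
      rw [e0]
      simp only [List.length_append, List.length_cons, List.length_nil]
      omega
    have hp1 : p = pre ++ ([.jpos (3 + v) (b + ct.length + 3)] : List Instr) ++ (ct ++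
        (([.const 1 1, .jpos 1 (b + ct.length + 3 + cs.length)] : List Instr) ++ (cs ++ post))) := by
      rw [hp, e0]
      simp only [List.append_assoc]
    have hp2 : p = (pre ++ (([.jpos (3 + v) (b + ct.length + 3)] : List Instr) ++ (ct ++
        ([.const 1 1, .jpos 1 (b + ct.length + 3 + cs.length)] : List Instr)))) ++
          cmp V N s (b + ct.length + 3) ++ post := by
      rw [hp, e0, ← hcs]
      simp only [List.append_assoc]
    have s1 := single hpre hp1 hk
    rw [ex_jpos, if_pos (by rw [hr.var v hb.1]; exact hv)] at s1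
    obtain ⟨t1, k1, a1, a2, a3, a4, a5⟩ := ih hb.2.1 p _ post _ (by
      simp only [List.length_append, List.length_cons, List.length_nil, hpre]
      omega) hp2 ⟨b + ct.length + 3, k.reg, k.inp, k.out⟩ rfl (rep_pc hr _)
    rw [← hcs] at a3 a4
    refine ⟨1 + t1, k1, by omega, ?_, ?_, ?_, a5⟩
    · rw [Nat.mul_add]
      omega
    · rw [hlen]
      exact (s1.mono (by omega)).trans (a3.mono (by omega))
    · rw [a4, hlen]
      omega
  | @ite_neg v s t σ σ' c hv _ ih =>
    intro hb p pre post b hpre hp k hk hr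
    obtain ⟨ct, hct⟩ : ∃ ct, ct = cmp V N t (b + 1) := ⟨_, rfl⟩
    obtain ⟨cs, hcs⟩ : ∃ cs, cs = cmp V N s (b + ct.length + 3) := ⟨_, rfl⟩
    have e0 : cmp V N (.ite v s t) b = ([.jpos (3 + v) (b + ct.length + 3)] : List Instr) ++ ct ++
        ([.const 1 1, .jpos 1 (b + ct.length + 3 + cs.length)] : List Instr) ++ cs := by
      rw [hcs, hct]
      rfl
    have hlen : (cmp V N (.ite v s t) b).length = ct.length + 3 + cs.length := by
      rw [e0]
      simp only [List.length_append, List.length_cons, List.length_nil]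
      omega
    have hp1 : p = pre ++ ([.jpos (3 + v) (b + ct.length + 3)] : List Instr) ++ (ct ++
        (([.const 1 1, .jpos 1 (b + ct.length + 3 + cs.length)] : List Instr) ++ (cs ++ post))) := by
      rw [hp, e0]
      simp only [List.append_assoc]
    have hp2 : p = (pre ++ ([.jpos (3 + v) (b + ct.length + 3)] : List Instr)) ++ cmp V N t (b + 1) ++
        (([.const 1 1, .jpos 1 (b + ct.length + 3 + cs.length)] : List Instr) ++ (cs ++ post)) := by
      rw [hp, e0, ← hct]
      simp only [List.append_assoc]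
    have hp3 : p = (pre ++ (([.jpos (3 + v) (b + ct.length + 3)] : List Instr) ++ ct)) ++
        ([.const 1 1, .jpos 1 (b + ct.length + 3 + cs.length)] : List Instr) ++ (cs ++ post) := by
      rw [hp, e0]
      simp only [List.append_assoc]
    have s1 := single hpre hp1 hk
    rw [ex_jpos, if_neg (by rw [hr.var v hb.1]; exact hv), hk] at s1
    obtain ⟨t1, k1, a1, a2, a3, a4, a5⟩ := ih hb.2.2 p _ _ (b + 1) (by
      simp only [List.length_append, List.length_cons, List.length_nil, hpre]) hp2
      ⟨b + 1, k.reg, k.inp, k.out⟩ rfl (rep_pc hr _)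
    rw [← hct] at a3 a4
    have hl3 : (pre ++ (([.jpos (3 + v) (b + ct.length + 3)] : List Instr) ++ ct)).length = b + 1 + ct.length := by
      simp only [List.length_append, List.length_cons, List.length_nil, hpre]
      omega
    have f0 : p[b + 1 + ct.length]? = some (.const 1 1) := by
      have := fetch (m := 0) hp3 (by simp)
      rw [hl3, Nat.add_zero] at this
      rw [this]
      rfl
    have f1 : p[b + 1 + ct.length + 1]? = some (.jpos 1 (b + ct.length + 3 + cs.length)) := by
      have := fetch (m := 1) hp3 (by simp)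
      rw [hl3] at this
      rw [this]
      rfl
    have s2 := Rn.one (p := p) (e := b + (ct.length + 3 + cs.length)) (k := k1)
      (a := .const 1 1) (by rw [a4]; exact f0) (by omega)
    rw [ex_const] at s2
    have s3 := Rn.one (p := p) (e := b + (ct.length + 3 + cs.length))
      (k := ⟨k1.pc + 1, Function.update k1.reg 1 1, k1.inp, k1.out⟩)
      (a := .jpos 1 (b + ct.length + 3 + cs.length)) (by
        change p[k1.pc + 1]? = _
        rw [a4]
        exact f1) (by
        change k1.pc + 1 < _
        omega)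
    rw [ex_jpos] at s3
    simp only [Function.update_self, if_pos Int.zero_lt_one] at s3
    refine ⟨1 + t1 + 1 + 1, _, by omega, ?_, ?_, ?_, rep_scr a5 1 (b + ct.length + 3 + cs.length)⟩
    · rw [Nat.mul_add]
      omega
    · rw [hlen]
      exact (((s1.mono (by omega)).trans (a3.mono (by omega))).trans s2).trans s3
    · change b + ct.length + 3 + cs.length = _
      rw [hlen]
      omega
  | @while_end v s σ hv =>
    intro hb p pre post b hpre hp k hk hr
    obtain ⟨cs, hcs⟩ : ∃ cs, cs = cmp V N s (b + 3) := ⟨_, rfl⟩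
    have e0 : cmp V N (.whl v s) b = ([.jpos (3 + v) (b + 3), .const 1 1,
        .jpos 1 (b + 5 + cs.length)] : List Instr) ++ cs ++ ([.const 1 1, .jpos 1 b] : List Instr) := by
      rw [hcs]
      rfl
    have hlen : (cmp V N (.whl v s) b).length = cs.length + 5 := by
      rw [e0]
      simp only [List.length_append, List.length_cons, List.length_nil]
      omega
    have hp1 : p = pre ++ ([.jpos (3 + v) (b + 3), .const 1 1,
        .jpos 1 (b + 5 + cs.length)] : List Instr) ++
        (cs ++ (([.const 1 1, .jpos 1 b] : List Instr) ++ post)) := by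
      rw [hp, e0]
      simp only [List.append_assoc]
    have f0 : p[b]? = some (.jpos (3 + v) (b + 3)) := by
      have := fetch (m := 0) hp1 (by simp)
      rw [hpre, Nat.add_zero] at this
      rw [this]
      rfl
    have f1 : p[b + 1]? = some (.const 1 1) := by
      have := fetch (m := 1) hp1 (by simp)
      rw [hpre] at this
      rw [this]
      rfl
    have f2 : p[b + 1 + 1]? = some (.jpos 1 (b + 5 + cs.length)) := by
      have := fetch (m := 2) hp1 (by simp)
      rw [hpre] at this
      rw [this]
      rfl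
    have s1 := Rn.one (p := p) (e := b + (cs.length + 5)) (k := k) (a := .jpos (3 + v) (b + 3))
      (by rw [hk]; exact f0) (by omega)
    rw [ex_jpos, if_neg (by rw [hr.var v hb.1]; exact hv), hk] at s1
    have s2 := Rn.one (p := p) (e := b + (cs.length + 5)) (k := ⟨b + 1, k.reg, k.inp, k.out⟩)
      (a := .const 1 1) f1 (by change b + 1 < _; omega)
    rw [ex_const] at s2
    have s3 := Rn.one (p := p) (e := b + (cs.length + 5))
      (k := ⟨b + 1 + 1, Function.update k.reg 1 1, k.inp, k.out⟩)
      (a := .jpos 1 (b + 5 + cs.length)) f2 (by change b + 1 + 1 < _; omega)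
    rw [ex_jpos] at s3
    simp only [Function.update_self, if_pos Int.zero_lt_one] at s3
    refine ⟨1 + 1 + 1, _, by omega, by omega, ?_, ?_, rep_scr hr 1 (b + 5 + cs.length)⟩
    · rw [hlen]
      exact (s1.trans s2).trans s3
    · change b + 5 + cs.length = _
      rw [hlen]
      omega
  | @while_step v s σ σ' σ'' c d hv _ _ ih1 ih2 =>
    intro hb p pre post b hpre hp k hk hr
    obtain ⟨cs, hcs⟩ : ∃ cs, cs = cmp V N s (b + 3) := ⟨_, rfl⟩
    have e0 : cmp V N (.whl v s) b = ([.jpos (3 + v) (b + 3), .const 1 1,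
        .jpos 1 (b + 5 + cs.length)] : List Instr) ++ cs ++ ([.const 1 1, .jpos 1 b] : List Instr) := by
      rw [hcs]
      rfl
    have hlen : (cmp V N (.whl v s) b).length = cs.length + 5 := by
      rw [e0]
      simp only [List.length_append, List.length_cons, List.length_nil]
      omega
    have hp1 : p = pre ++ ([.jpos (3 + v) (b + 3), .const 1 1,
        .jpos 1 (b + 5 + cs.length)] : List Instr) ++
        (cs ++ (([.const 1 1, .jpos 1 b] : List Instr) ++ post)) := by
      rw [hp, e0]
      simp only [List.append_assoc]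
    have hp2 : p = (pre ++ ([.jpos (3 + v) (b + 3), .const 1 1,
        .jpos 1 (b + 5 + cs.length)] : List Instr)) ++
        cmp V N s (b + 3) ++ (([.const 1 1, .jpos 1 b] : List Instr) ++ post) := by
      rw [hp, e0, ← hcs]
      simp only [List.append_assoc]
    have hp3 : p = (pre ++ (([.jpos (3 + v) (b + 3), .const 1 1,
        .jpos 1 (b + 5 + cs.length)] : List Instr) ++
        cs)) ++ ([.const 1 1, .jpos 1 b] : List Instr) ++ post := by
      rw [hp, e0]
      simp only [List.append_assoc]
    have hl3 : (pre ++ (([.jpos (3 + v) (b + 3), .const 1 1,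
        .jpos 1 (b + 5 + cs.length)] : List Instr) ++
        cs)).length = b + 3 + cs.length := by
      simp only [List.length_append, List.length_cons, List.length_nil, hpre]
      omega
    have f0 : p[b]? = some (.jpos (3 + v) (b + 3)) := by
      have := fetch (m := 0) hp1 (by simp)
      rw [hpre, Nat.add_zero] at this
      rw [this]
      rfl
    have f1 : p[b + 3 + cs.length]? = some (.const 1 1) := by
      have := fetch (m := 0) hp3 (by simp)
      rw [hl3, Nat.add_zero] at this
      rw [this]
      rfl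
    have f2 : p[b + 3 + cs.length + 1]? = some (.jpos 1 b) := by
      have := fetch (m := 1) hp3 (by simp)
      rw [hl3] at this
      rw [this]
      rfl
    have s1 := Rn.one (p := p) (e := b + (cs.length + 5)) (k := k) (a := .jpos (3 + v) (b + 3))
      (by rw [hk]; exact f0) (by omega)
    rw [ex_jpos, if_pos (by rw [hr.var v hb.1]; exact hv)] at s1
    obtain ⟨t1, k1, a1, a2, a3, a4, a5⟩ := ih1 hb.2 p _ _ (b + 3) (by
      simp only [List.length_append, List.length_cons, List.length_nil, hpre]) hp2
      ⟨b + 3, k.reg, k.inp, k.out⟩ rfl (rep_pc hr _)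
    rw [← hcs] at a3 a4
    have s2 := Rn.one (p := p) (e := b + (cs.length + 5)) (k := k1)
      (a := .const 1 1) (by rw [a4]; exact f1) (by omega)
    rw [ex_const] at s2
    have s3 := Rn.one (p := p) (e := b + (cs.length + 5))
      (k := ⟨k1.pc + 1, Function.update k1.reg 1 1, k1.inp, k1.out⟩)
      (a := .jpos 1 b) (by
        change p[k1.pc + 1]? = _
        rw [a4]
        exact f2) (by
        change k1.pc + 1 < _
        omega)
    rw [ex_jpos] at s3
    simp only [Function.update_self, if_pos Int.zero_lt_one] at s3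
    obtain ⟨t2, k2, b1, b2, b3, b4, b5⟩ := ih2 hb p pre post b hpre hp
      ⟨b, Function.update k1.reg 1 1, k1.inp, k1.out⟩ rfl (rep_scr a5 1 _)
    rw [hlen] at b3 b4
    refine ⟨1 + t1 + 1 + 1 + t2, k2, by omega, ?_, ?_, ?_, b5⟩
    · rw [Nat.mul_add, Nat.mul_add]
      omega
    · rw [hlen]
      exact ((((s1.trans (a3.mono (by omega))).trans s2).trans s3).trans b3)
    · rw [b4, hlen]

/-- Simulation lemma. (Induction on `h`; generalise `pre`, `post`, `k`.) -/
theorem cmp_sim (V N : ℕ) {s : Stmt} {σ τ : St} {c : ℕ} (h : Big s σ c τ) (hb : Bdd V N s)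
    (p pre post : List Instr) (hp : p = pre ++ cmp V N s pre.length ++ post) (k : Cfg)
    (hk : k.pc = pre.length) (hr : Rep V N σ k) :
    ∃ t, c ≤ t ∧ t ≤ (N + 4) * c ∧
      (∀ i < t, ((step p)^[i] k).pc < pre.length + (cmp V N s pre.length).length) ∧
      ((step p)^[t] k).pc = pre.length + (cmp V N s pre.length).length ∧
      Rep V N τ ((step p)^[t] k) := by
  obtain ⟨t, k', h1, h2, ⟨h3, h4⟩, h5, h6⟩ := sim V N h hb p pre post pre.length rfl hp k hk hr
  refine ⟨t, h1, h2, h4, ?_, ?_⟩
  · rw [h3]
    exact h5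
  · rw [h3]
    exact h6

end Pool.Agent.H71.CT
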