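import Pool.Agent.H71.CT.Enum

/-!
The simulation of RAM programs is computable in Mathlib's sense.
-/

namespace Pool.Agent.H71.CT

/-- coded configuration: program counter, association list of the registers (an integer `a - b` is
coded by the pair `(a, b)`), input, output -/
private abbrev RC : Type := ℕ × List (ℕ × ℕ × ℕ) × List Bool × List (ℕ × ℕ)

private def rcLook (l : List (ℕ × ℕ × ℕ)) (i : ℕ) : ℕ × ℕ :=
  l.foldr (fun b s => if b.1 = i then b.2 else s) (0, 0)

private def rcVal (v : ℕ × ℕ) : ℤ := (v.1 : ℤ) - v.2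

private def rcSym (l : List Bool) : ℕ × ℕ :=
  List.casesOn l (2, 0) (fun b _ => bif b then (1, 0) else (0, 0))

private def rcExec (q : ℕ × ℕ × ℕ × ℕ) (c : RC) : RC :=
  if q.1 = 0 then (c.1 + 1, (q.2.1, (q.2.2.1, 0)) :: c.2.1, c.2.2.1, c.2.2.2)
  else if q.1 = 1 then (c.1 + 1, (q.2.1, (0, q.2.2.1)) :: c.2.1, c.2.2.1, c.2.2.2)
  else if q.1 = 2 then (c.1 + 1, (q.2.1, ((rcLook c.2.1 q.2.2.1).1 + (rcLook c.2.1 q.2.2.2).1,
    (rcLook c.2.1 q.2.2.1).2 + (rcLook c.2.1 q.2.2.2).2)) :: c.2.1, c.2.2.1, c.2.2.2)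
  else if q.1 = 3 then (c.1 + 1, (q.2.1, ((rcLook c.2.1 q.2.2.1).1 + (rcLook c.2.1 q.2.2.2).2,
    (rcLook c.2.1 q.2.2.1).2 + (rcLook c.2.1 q.2.2.2).1)) :: c.2.1, c.2.2.1, c.2.2.2)
  else if q.1 = 4 then (c.1 + 1, (q.2.1, rcLook c.2.1
    ((rcLook c.2.1 q.2.2.1).1 - (rcLook c.2.1 q.2.2.1).2)) :: c.2.1, c.2.2.1, c.2.2.2)
  else if q.1 = 5 then (c.1 + 1, ((rcLook c.2.1 q.2.1).1 - (rcLook c.2.1 q.2.1).2,
    rcLook c.2.1 q.2.2.1) :: c.2.1, c.2.2.1, c.2.2.2)
  else if q.1 = 6 then (if (rcLook c.2.1 q.2.1).2 < (rcLook c.2.1 q.2.1).1 then q.2.2.1 else c.1 + 1,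
    c.2.1, c.2.2.1, c.2.2.2)
  else if q.1 = 7 then (c.1 + 1, (q.2.1, rcSym c.2.2.1) :: c.2.1, c.2.2.1.tail, c.2.2.2)
  else (c.1 + 1, c.2.1, c.2.2.1, c.2.2.2 ++ [rcLook c.2.1 q.2.1])

/-- the configuration with a given code -/
private def rcCfg (c : RC) : Cfg :=
  ⟨c.1, fun i => rcVal (rcLook c.2.1 i), c.2.2.1, c.2.2.2.map rcVal⟩

private def rcStep (P : List (ℕ × ℕ × ℕ × ℕ)) (c : RC) : RC :=
  Option.casesOn (P[c.1]?) c (fun q => rcExec q c)

private def rcConf (e : ℕ) (y : List Bool) (B : ℕ) : RC :=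
  (rcStep (Denumerable.ofNat (List (ℕ × ℕ × ℕ × ℕ)) e))^[B] (0, [], y, [])

private theorem rcLook_cons (k : ℕ) (v : ℕ × ℕ) (l : List (ℕ × ℕ × ℕ)) (i : ℕ) :
    rcLook ((k, v) :: l) i = if k = i then v else rcLook l i := rfl

private theorem rc_update (k : ℕ) (v : ℕ × ℕ) (l : List (ℕ × ℕ × ℕ)) :
    (fun i => rcVal (rcLook ((k, v) :: l) i)) =
      Function.update (fun i => rcVal (rcLook l i)) k (rcVal v) := by
  funext i
  rw [rcLook_cons]
  by_cases h : k = i
  · subst h
    simp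
  · rw [if_neg h, Function.update_of_ne (Ne.symm h)]

private theorem rcVal_sym (l : List Bool) : rcVal (rcSym l) = sym l := by
  cases l with
  | nil => rfl
  | cons b l => cases b <;> rfl

private theorem rcVal_toNat (v : ℕ × ℕ) : (rcVal v).toNat = v.1 - v.2 := by
  unfold rcVal
  omega

private theorem rcCfg_exec (q : ℕ × ℕ × ℕ × ℕ) (c : RC) :
    rcCfg (rcExec q c) = (toI q).exec (rcCfg c) := by
  obtain ⟨q0, i, j, k⟩ := q
  obtain ⟨pc, reg, inp, out⟩ := c
  rcases q0 with _ | _ | _ | _ | _ | _ | _ | _ | q0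
  · simp only [rcExec, toI, Instr.exec, rcCfg, if_true, rc_update]
    simp [rcVal]
  · simp only [rcExec, toI, Instr.exec, rcCfg, Nat.zero_add, one_ne_zero, if_false, if_true, rc_update]
    simp [rcVal]
  · have e : rcExec (2, i, j, k) (pc, reg, inp, out) = (pc + 1, (i, ((rcLook reg j).1 + (rcLook reg k).1,
        (rcLook reg j).2 + (rcLook reg k).2)) :: reg, inp, out) := rfl
    show rcCfg (rcExec (2, i, j, k) (pc, reg, inp, out)) = _
    rw [e]
    show rcCfg _ = (Instr.add i j k).exec _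
    simp only [Instr.exec, rcCfg, rc_update]
    congr 2
    simp only [rcVal]
    push_cast
    ring
  · have e : rcExec (3, i, j, k) (pc, reg, inp, out) = (pc + 1, (i, ((rcLook reg j).1 + (rcLook reg k).2,
        (rcLook reg j).2 + (rcLook reg k).1)) :: reg, inp, out) := rfl
    show rcCfg (rcExec (3, i, j, k) (pc, reg, inp, out)) = _
    rw [e]
    show rcCfg _ = (Instr.sub i j k).exec _
    simp only [Instr.exec, rcCfg, rc_update]
    congr 2
    simp only [rcVal]
    push_cast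
    ring
  · have e : rcExec (4, i, j, k) (pc, reg, inp, out) = (pc + 1, (i, rcLook reg
        ((rcLook reg j).1 - (rcLook reg j).2)) :: reg, inp, out) := rfl
    show rcCfg (rcExec (4, i, j, k) (pc, reg, inp, out)) = _
    rw [e]
    show rcCfg _ = (Instr.load i j).exec _
    simp only [Instr.exec, rcCfg, rc_update, rcVal_toNat]
  · have e : rcExec (5, i, j, k) (pc, reg, inp, out) = (pc + 1, ((rcLook reg i).1 - (rcLook reg i).2,
        rcLook reg j) :: reg, inp, out) := rfl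
    show rcCfg (rcExec (5, i, j, k) (pc, reg, inp, out)) = _
    rw [e]
    show rcCfg _ = (Instr.store i j).exec _
    simp only [Instr.exec, rcCfg, rc_update, rcVal_toNat]
  · have e : rcExec (6, i, j, k) (pc, reg, inp, out) =
        (if (rcLook reg i).2 < (rcLook reg i).1 then j else pc + 1, reg, inp, out) := rfl
    show rcCfg (rcExec (6, i, j, k) (pc, reg, inp, out)) = _
    rw [e]
    show rcCfg _ = (Instr.jpos i j).exec _
    simp only [Instr.exec, rcCfg]
    congr 1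
    by_cases h : (rcLook reg i).2 < (rcLook reg i).1
    · rw [if_pos h, if_pos]
      unfold rcVal
      omega
    · rw [if_neg h, if_neg]
      unfold rcVal
      omega
  · have e : rcExec (7, i, j, k) (pc, reg, inp, out) =
        (pc + 1, (i, rcSym inp) :: reg, inp.tail, out) := rfl
    show rcCfg (rcExec (7, i, j, k) (pc, reg, inp, out)) = _
    rw [e]
    show rcCfg _ = (Instr.read i).exec _
    simp only [Instr.exec, rcCfg, rc_update, rcVal_sym]
  · have e : rcExec (q0 + 8, i, j, k) (pc, reg, inp, out) =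
        (pc + 1, reg, inp, out ++ [rcLook reg i]) := rfl
    show rcCfg (rcExec (q0 + 8, i, j, k) (pc, reg, inp, out)) = _
    rw [e]
    show rcCfg _ = (Instr.print i).exec _
    simp only [Instr.exec, rcCfg, List.map_append, List.map_cons, List.map_nil]

private theorem rcCfg_step (P : List (ℕ × ℕ × ℕ × ℕ)) (c : RC) :
    rcCfg (rcStep P c) = step (P.map toI) (rcCfg c) := by
  unfold rcStep step
  have e : (P.map toI)[(rcCfg c).pc]? = (P[c.1]?).map toI := List.getElem?_map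
  rw [e]
  cases P[c.1]? with
  | none => rfl
  | some q => exact rcCfg_exec q c

private theorem rcCfg_conf (e : ℕ) (y : List Bool) (B : ℕ) :
    rcCfg (rcConf e y B) = conf (pr e) y B := by
  unfold rcConf conf
  induction B with
  | zero => rfl
  | succ B ih =>
    rw [Function.iterate_succ_apply', Function.iterate_succ_apply', rcCfg_step, ih]
    rfl

private theorem rcLook_prim : Primrec₂ rcLook := by
  unfold rcLook
  refine (Primrec.list_foldr (h := fun (a : List (ℕ × ℕ × ℕ) × ℕ) (b : (ℕ × ℕ × ℕ) × (ℕ × ℕ)) =>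
    if b.1.1 = a.2 then b.1.2 else b.2) Primrec.fst (Primrec.const (0, 0)) ?_).to₂
  exact Primrec.ite (Primrec.eq.comp (Primrec.fst.comp (Primrec.fst.comp Primrec.snd))
    (Primrec.snd.comp Primrec.fst)) (Primrec.snd.comp (Primrec.fst.comp Primrec.snd))
    (Primrec.snd.comp Primrec.snd)

private theorem rcSym_prim : Primrec rcSym := by
  unfold rcSym
  refine Primrec.list_casesOn (h := fun _ (b : Bool × List Bool) => bif b.1 then (1, 0) else (0, 0))
    Primrec.id (Primrec.const (2, 0)) ?_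
  exact Primrec.cond (Primrec.fst.comp Primrec.snd) (Primrec.const (1, 0)) (Primrec.const (0, 0))

private theorem rcExec_prim : Primrec₂ rcExec := by
  unfold rcExec
  -- projections
  have q : Primrec (fun p : (ℕ × ℕ × ℕ × ℕ) × RC => p.1) := Primrec.fst
  have c : Primrec (fun p : (ℕ × ℕ × ℕ × ℕ) × RC => p.2) := Primrec.snd
  have q1 : Primrec (fun p : (ℕ × ℕ × ℕ × ℕ) × RC => p.1.1) := Primrec.fst.comp q
  have q' : Primrec (fun p : (ℕ × ℕ × ℕ × ℕ) × RC => p.1.2) := Primrec.snd.comp q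
  have i : Primrec (fun p : (ℕ × ℕ × ℕ × ℕ) × RC => p.1.2.1) := Primrec.fst.comp q'
  have q'' : Primrec (fun p : (ℕ × ℕ × ℕ × ℕ) × RC => p.1.2.2) := Primrec.snd.comp q'
  have j : Primrec (fun p : (ℕ × ℕ × ℕ × ℕ) × RC => p.1.2.2.1) := Primrec.fst.comp q''
  have k : Primrec (fun p : (ℕ × ℕ × ℕ × ℕ) × RC => p.1.2.2.2) := Primrec.snd.comp q''
  have pc : Primrec (fun p : (ℕ × ℕ × ℕ × ℕ) × RC => p.2.1) := Primrec.fst.comp c
  have c' : Primrec (fun p : (ℕ × ℕ × ℕ × ℕ) × RC => p.2.2) := Primrec.snd.comp c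
  have reg : Primrec (fun p : (ℕ × ℕ × ℕ × ℕ) × RC => p.2.2.1) := Primrec.fst.comp c'
  have c'' : Primrec (fun p : (ℕ × ℕ × ℕ × ℕ) × RC => p.2.2.2) := Primrec.snd.comp c'
  have inp : Primrec (fun p : (ℕ × ℕ × ℕ × ℕ) × RC => p.2.2.2.1) := Primrec.fst.comp c''
  have out : Primrec (fun p : (ℕ × ℕ × ℕ × ℕ) × RC => p.2.2.2.2) := Primrec.snd.comp c''
  have pc1 : Primrec (fun p : (ℕ × ℕ × ℕ × ℕ) × RC => p.2.1 + 1) := Primrec.succ.comp pc
  have Li : Primrec (fun p : (ℕ × ℕ × ℕ × ℕ) × RC => rcLook p.2.2.1 p.1.2.1) :=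
    rcLook_prim.comp reg i
  have Lj : Primrec (fun p : (ℕ × ℕ × ℕ × ℕ) × RC => rcLook p.2.2.1 p.1.2.2.1) :=
    rcLook_prim.comp reg j
  have Lk : Primrec (fun p : (ℕ × ℕ × ℕ × ℕ) × RC => rcLook p.2.2.1 p.1.2.2.2) :=
    rcLook_prim.comp reg k
  have Li1 := Primrec.fst.comp Li
  have Li2 := Primrec.snd.comp Li
  have Lj1 := Primrec.fst.comp Lj
  have Lj2 := Primrec.snd.comp Lj
  have Lk1 := Primrec.fst.comp Lk
  have Lk2 := Primrec.snd.comp Lk
  have io := Primrec.pair inp out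
  have set : ∀ {a : (ℕ × ℕ × ℕ × ℕ) × RC → ℕ} {v : (ℕ × ℕ × ℕ × ℕ) × RC → ℕ × ℕ},
      Primrec a → Primrec v → Primrec (fun p : (ℕ × ℕ × ℕ × ℕ) × RC =>
        ((p.2.1 + 1, (a p, v p) :: p.2.2.1, p.2.2.2.1, p.2.2.2.2) : RC)) := by
    intro a v ha hv
    exact Primrec.pair pc1 (Primrec.pair (Primrec.list_cons.comp (Primrec.pair ha hv) reg) io)
  have eqn : ∀ m : ℕ, PrimrecPred (fun p : (ℕ × ℕ × ℕ × ℕ) × RC => p.1.1 = m) := fun m =>
    Primrec.eq.comp q1 (Primrec.const m)
  refine Primrec.ite (eqn 0) (set i (Primrec.pair j (Primrec.const 0))) ?_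
  refine Primrec.ite (eqn 1) (set i (Primrec.pair (Primrec.const 0) j)) ?_
  refine Primrec.ite (eqn 2) (set i (Primrec.pair (Primrec.nat_add.comp Lj1 Lk1)
    (Primrec.nat_add.comp Lj2 Lk2))) ?_
  refine Primrec.ite (eqn 3) (set i (Primrec.pair (Primrec.nat_add.comp Lj1 Lk2)
    (Primrec.nat_add.comp Lj2 Lk1))) ?_
  refine Primrec.ite (eqn 4) (set i (rcLook_prim.comp reg (Primrec.nat_sub.comp Lj1 Lj2))) ?_
  refine Primrec.ite (eqn 5) (set (Primrec.nat_sub.comp Li1 Li2) Lj) ?_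
  refine Primrec.ite (eqn 6) (Primrec.pair (Primrec.ite (Primrec.nat_lt.comp Li2 Li1) j pc1)
    (Primrec.pair reg io)) ?_
  refine Primrec.ite (eqn 7) (Primrec.pair pc1 (Primrec.pair (Primrec.list_cons.comp
    (Primrec.pair i (rcSym_prim.comp inp)) reg) (Primrec.pair (Primrec.list_tail.comp inp) out))) ?_
  exact Primrec.pair pc1 (Primrec.pair reg (Primrec.pair inp (Primrec.list_concat.comp out Li)))

private theorem rcStep_prim : Primrec₂ rcStep := by
  unfold rcStep
  refine Primrec.option_casesOn (Primrec.list_getElem?.comp Primrec.fst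
    (Primrec.fst.comp Primrec.snd)) Primrec.snd ?_
  exact rcExec_prim.comp Primrec.snd (Primrec.snd.comp Primrec.fst)

private theorem rcProg_prim :
    Primrec (fun e : ℕ => Denumerable.ofNat (List (ℕ × ℕ × ℕ × ℕ)) e) := by
  have h : Primrec (fun e : ℕ => (Encodable.decode (α := List (ℕ × ℕ × ℕ × ℕ)) e).getD []) :=
    Primrec.option_getD.comp Primrec.decode (Primrec.const [])
  refine h.of_eq fun e => ?_
  rw [Denumerable.decode_eq_ofNat]
  rfl

private theorem rcConf_prim :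
    Primrec (fun a : ℕ × List Bool × ℕ => rcConf a.1 a.2.1 a.2.2) := by
  unfold rcConf
  refine Primrec.nat_iterate (Primrec.snd.comp Primrec.snd) ?_ ?_
  · exact Primrec.pair (Primrec.const 0) (Primrec.pair (Primrec.const [])
      (Primrec.pair (Primrec.fst.comp Primrec.snd) (Primrec.const [])))
  · exact rcStep_prim.comp (rcProg_prim.comp (Primrec.fst.comp Primrec.fst)) Primrec.snd

/-- Whether program `e` halts on `y` within `B` steps is computable. (Simulate configurations coded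
as (pc, association list of registers, input, output), integers coded by naturals; primitive
recursive, by `Primrec.nat_iterate`.) -/
theorem computable_hb : Computable (fun a : ℕ × List Bool × ℕ => hb a.1 a.2.1 a.2.2) := by
  apply Primrec.to_comp
  have h1 : Primrec (fun a : ℕ × List Bool × ℕ =>
      (Denumerable.ofNat (List (ℕ × ℕ × ℕ × ℕ)) a.1).length) :=
    Primrec.list_length.comp (rcProg_prim.comp Primrec.fst)
  have h2 : Primrec (fun a : ℕ × List Bool × ℕ => (rcConf a.1 a.2.1 a.2.2).1) :=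
    Primrec.fst.comp rcConf_prim
  refine (Primrec.nat_le.decide.comp h1 h2).of_eq fun a => ?_
  unfold hb
  rw [← rcCfg_conf]
  simp only [pr, List.length_map]
  rfl

private theorem rc_single (l : List (ℕ × ℕ)) (m : ℕ) :
    l.map rcVal = [(m : ℤ)] ↔ l.length = 1 ∧ (l.getD 0 (0, 0)).1 = (l.getD 0 (0, 0)).2 + m := by
  match l with
  | [] => simp
  | [v] =>
    simp only [List.map_cons, List.map_nil, List.cons.injEq, and_true, List.length_cons,
      List.length_nil, List.getD_cons_zero, true_and, rcVal]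
    omega
  | v :: w :: l => simp

theorem computable_oc : Computable (fun a : ℕ × List Bool × ℕ => oc a.1 a.2.1 a.2.2) := by
  apply Primrec.to_comp
  have h1 : Primrec (fun a : ℕ × List Bool × ℕ => (rcConf a.1 a.2.1 a.2.2).2.2.2) :=
    Primrec.snd.comp (Primrec.snd.comp (Primrec.snd.comp rcConf_prim))
  have h2 := Primrec.list_length.comp h1
  have h3 := (Primrec.list_getD ((0, 0) : ℕ × ℕ)).comp h1 (Primrec.const 0)
  have h4 : ∀ m : ℕ, PrimrecPred (fun a : ℕ × List Bool × ℕ =>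
      ((rcConf a.1 a.2.1 a.2.2).2.2.2.length = 1 ∧
        ((rcConf a.1 a.2.1 a.2.2).2.2.2.getD 0 (0, 0)).1 =
          ((rcConf a.1 a.2.1 a.2.2).2.2.2.getD 0 (0, 0)).2 + m)) := fun m =>
    (Primrec.eq.comp h2 (Primrec.const 1)).and
      (Primrec.eq.comp (Primrec.fst.comp h3) (Primrec.nat_add.comp (Primrec.snd.comp h3)
        (Primrec.const m)))
  refine (Primrec.ite (h4 1) (Primrec.const 1) (Primrec.ite (h4 0) (Primrec.const 2)
    (Primrec.const 0))).of_eq fun a => ?_
  unfold oc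
  rw [← rcCfg_conf]
  have e1 := rc_single (rcConf a.1 a.2.1 a.2.2).2.2.2 1
  have e0 := rc_single (rcConf a.1 a.2.1 a.2.2).2.2.2 0
  simp only [Nat.cast_one, Nat.cast_zero] at e1 e0
  simp only [rcCfg, e1, e0]

end Pool.Agent.H71.CT
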