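import Pool.Agent.H71.CT.DDef
import Pool.Agent.H71.CT.RunComp
import Pool.Agent.H71.CT.EcsComp
import Pool.Agent.H71.CT.Prep

/-! The table function of the diagonal set is computable. -/

namespace Pool.Agent.H71.CT

private theorem dc_hb_mono {e : ℕ} {x : List Bool} {s t : ℕ} (h : hb e x s = true)
    (hst : s ≤ t) : hb e x t = true := by
  rw [hb_iff] at h ⊢
  induction t, hst using Nat.le_induction with
  | base => exact h
  | succ t _ ih =>
    have h1 : conf (pr e) x (t + 1) = step (pr e) (conf (pr e) x t) :=
      Function.iterate_succ_apply' _ _ _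
    have h2 : step (pr e) (conf (pr e) x t) = conf (pr e) x t := by
      unfold step
      rw [List.getElem?_eq_none ih]
    rw [h1, h2]
    exact ih

private theorem dc_pow : Computable (fun n : ℕ => 2 ^ n) := by
  apply Primrec.to_comp
  refine (Primrec.nat_rec₁ (f := fun _ m => m + m) 1 ?_).of_eq (fun n => ?_)
  · exact Primrec.nat_add.comp Primrec.snd Primrec.snd
  · induction n with
    | zero => rfl
    | succ n ih =>
      rw [pow_succ, ← ih]
      show _ + _ = _ * 2
      omega

private theorem dc_repl (b : Bool) : Computable (fun n : ℕ => List.replicate n b) := by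
  apply Primrec.to_comp
  have h : Primrec (fun n : ℕ => (List.range n).map (fun _ => b)) :=
    Primrec.list_map Primrec.list_range (Primrec.const b).to₂
  refine h.of_eq fun n => ?_
  rw [List.map_const', List.length_range]

private theorem dc_bex {α : Type*} [Primcodable α] {f : α → ℕ → Bool} {N : α → ℕ}
    (hf : Computable₂ f) (hN : Computable N) :
    ∃ F : α → Bool, Computable F ∧ ∀ a, F a = true ↔ ∃ i < N a, f a i = true := by
  refine ⟨fun a => Nat.rec (motive := fun _ => Bool) false (fun i b => b || f a i) (N a), ?_, ?_⟩
  · exact Computable.nat_rec (h := fun a (p : ℕ × Bool) => p.2 || f a p.1) hN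
      (Computable.const false) ((Primrec.or.to_comp).comp (Computable.snd.comp Computable.snd)
        (hf.comp Computable.fst (Computable.fst.comp Computable.snd)))
  · intro a
    show Nat.rec (motive := fun _ => Bool) false (fun i b => b || f a i) (N a) = true ↔ _
    generalize N a = n
    induction n with
    | zero => simp
    | succ n ih =>
      have h : (Nat.rec (motive := fun _ => Bool) false (fun i b => b || f a i) (n + 1)) =
          ((Nat.rec (motive := fun _ => Bool) false (fun i b => b || f a i) n) || f a n) := rfl
      rw [h, Bool.or_eq_true, ih]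
      constructor
      · rintro (⟨i, hi, h1⟩ | h2)
        · exact ⟨i, by omega, h1⟩
        · exact ⟨n, by omega, h2⟩
      · rintro ⟨i, hi, h1⟩
        rcases Nat.lt_succ_iff_lt_or_eq.1 hi with hi | rfl
        · exact Or.inl ⟨i, hi, h1⟩
        · exact Or.inr h1

private theorem dc_find {α : Type*} [Primcodable α] {f : α → ℕ → Bool}
    (hf : Computable₂ f) (h : ∀ a, ∃ n, f a n = true) :
    ∃ g : α → ℕ, Computable g ∧ ∀ a, f a (g a) = true := by
  refine ⟨fun a => Nat.find (h a), ?_, fun a => Nat.find_spec (h a)⟩
  have h1 : Partrec (fun a => Nat.rfind (fun n => (Part.some (f a n) : Part Bool))) :=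
    Partrec.rfind (p := fun a n => Part.some (f a n)) hf
  refine h1.of_eq (fun a => ?_)
  apply Part.eq_some_iff.2
  apply Nat.mem_rfind.2
  refine ⟨?_, ?_⟩
  · have h2 := Nat.find_spec (h a)
    exact Part.mem_some_iff.2 h2.symm
  · intro m hm
    have h2 := Nat.find_min (h a) hm
    rw [Bool.not_eq_true] at h2
    exact Part.mem_some_iff.2 h2.symm

private theorem dc_le {α : Type*} [Primcodable α] {f g : α → ℕ} (hf : Computable f)
    (hg : Computable g) : Computable (fun a => decide (f a ≤ g a)) := by
  have h1 : Computable (fun r : ℕ × ℕ => decide (r.1 ≤ r.2)) := (Primrec.nat_le.decide).to_comp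
  have h2 : Computable (fun a => (f a, g a)) := Computable.pair hf hg
  exact h1.comp h2

private theorem dc_hb {α : Type*} [Primcodable α] {f : α → ℕ} {g : α → List Bool} {h : α → ℕ}
    (hf : Computable f) (hg : Computable g) (hh : Computable h) :
    Computable (fun a => hb (f a) (g a) (h a)) := by
  have h2 : Computable (fun a => (f a, g a, h a)) := Computable.pair hf (Computable.pair hg hh)
  exact computable_hb.comp h2

private theorem dc_sub {α : Type*} [Primcodable α] {f g : α → ℕ} (hf : Computable f)
    (hg : Computable g) : Computable (fun a => f a - g a) := (Primrec.nat_sub.to_comp).comp hf hg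

private theorem dc_add {α : Type*} [Primcodable α] {f g : α → ℕ} (hf : Computable f)
    (hg : Computable g) : Computable (fun a => f a + g a) := (Primrec.nat_add.to_comp).comp hf hg

private theorem dc_lin {α : Type*} [Primcodable α] {f : α → ℕ} (c : ℕ) (hf : Computable f) :
    Computable (fun a => 2 * f a + c) := by
  have h : Computable (fun a => (f a + f a) + c) :=
    dc_add (dc_add hf hf) (Computable.const c)
  refine h.of_eq fun a => ?_
  omega

private theorem dc_and {α : Type*} [Primcodable α] {f g : α → Bool} (hf : Computable f)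
    (hg : Computable g) : Computable (fun a => f a && g a) := (Primrec.and.to_comp).comp hf hg

private theorem dc_xs {α : Type*} [Primcodable α] {f g : α → ℕ} (hf : Computable f)
    (hg : Computable g) : Computable (fun a => xs (f a) (g a)) := by
  unfold xs
  exact (Primrec.list_append.to_comp).comp ((dc_repl true).comp hf)
    ((dc_repl false).comp (dc_sub hg hf))

/-- acting is decidable, uniformly -/
private theorem dc_act (ι : ℕ → ℕ) (hι : Computable ι) (ht : ∀ j, Tot (ι j)) :
    ∃ D : ℕ × ℕ × ℕ → Bool, Computable D ∧ ∀ k e n, D (k, e, n) = true ↔ Act ι k e n := by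
  -- the bound for `s`
  have hf0 : Computable₂ (fun (n : ℕ) (s : ℕ) => hb (ι 0) (List.replicate n false) (2 ^ s)) :=
    dc_hb (Computable.const (ι 0)) ((dc_repl false).comp Computable.fst)
      (dc_pow.comp Computable.snd)
  obtain ⟨g, hg, hg'⟩ := dc_find hf0 (fun n => by
    obtain ⟨B, hB⟩ := ht 0 n
    exact ⟨B, dc_hb_mono hB Nat.lt_two_pow_self.le⟩)
  -- some clock has halted: argument `((n, s), e)`
  have hc : Computable₂ (fun (q : (ℕ × ℕ) × ℕ) (j : ℕ) => decide (2 * j + 1 ≤ q.1.2) &&
      hb (ι j) (List.replicate q.1.1 false) (2 ^ (q.1.2 - (2 * j + 1)))) := by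
    have c1 : Computable (fun p : ((ℕ × ℕ) × ℕ) × ℕ => 2 * p.2 + 1) :=
      dc_lin 1 Computable.snd
    have c2 : Computable (fun p : ((ℕ × ℕ) × ℕ) × ℕ => p.1.1.2) :=
      Computable.snd.comp (Computable.fst.comp Computable.fst)
    have c3 : Computable (fun p : ((ℕ × ℕ) × ℕ) × ℕ => p.1.1.1) :=
      Computable.fst.comp (Computable.fst.comp Computable.fst)
    exact dc_and (dc_le c1 c2) (dc_hb (hι.comp Computable.snd) ((dc_repl false).comp c3)
      (dc_pow.comp (dc_sub c2 c1)))
  have hN1 : Computable (fun q : (ℕ × ℕ) × ℕ => q.2 + 1) := Computable.succ.comp Computable.snd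
  obtain ⟨C, hC, hC'⟩ := dc_bex hc hN1
  -- the test for `s`: argument `((e, n), s)`
  have hs : Computable₂ (fun (q : ℕ × ℕ) (s : ℕ) => decide (s0 q.2 ≤ s) &&
      (decide (2 * q.1 + 2 ≤ s) && (hb q.1 (xs q.1 q.2) (2 ^ (s - (2 * q.1 + 2))) &&
        !(C ((q.2, s), q.1))))) := by
    have ce : Computable (fun p : (ℕ × ℕ) × ℕ => p.1.1) := Computable.fst.comp Computable.fst
    have cn : Computable (fun p : (ℕ × ℕ) × ℕ => p.1.2) := Computable.snd.comp Computable.fst
    have cs : Computable (fun p : (ℕ × ℕ) × ℕ => p.2) := Computable.snd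
    exact dc_and (dc_le (computable_s0.comp cn) cs) (dc_and (dc_le (dc_lin 2 ce) cs)
      (dc_and (dc_hb ce (dc_xs ce cn) (dc_pow.comp (dc_sub cs (dc_lin 2 ce))))
        (Primrec.not.to_comp.comp (hC.comp (Computable.pair (Computable.pair cn cs) ce)))))
  have hN2 : Computable (fun q : ℕ × ℕ => g q.2 + 1) :=
    Computable.succ.comp (hg.comp Computable.snd)
  obtain ⟨S, hS, hS'⟩ := dc_bex hs hN2
  refine ⟨fun a => decide (a.2.1 + 1 ≤ a.1) && (decide (a.2.1 ≤ a.2.2) && S a.2), ?_, ?_⟩
  · have ck : Computable (fun a : ℕ × ℕ × ℕ => a.1) := Computable.fst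
    have ce : Computable (fun a : ℕ × ℕ × ℕ => a.2.1) := Computable.fst.comp Computable.snd
    have cn : Computable (fun a : ℕ × ℕ × ℕ => a.2.2) := Computable.snd.comp Computable.snd
    exact dc_and (dc_le (Computable.succ.comp ce) ck) (dc_and (dc_le ce cn)
      (hS.comp Computable.snd))
  · intro k e n
    have hCn : ∀ s, C ((n, s), e) = false ↔ ∀ j ≤ e, ¬ (2 * j + 1 ≤ s ∧
        hb (ι j) (List.replicate n false) (2 ^ (s - (2 * j + 1))) = true) := by
      intro s
      have h := hC' ((n, s), e)
      rw [← Bool.not_eq_true, h]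
      simp only [not_exists, not_and, Bool.and_eq_true, decide_eq_true_eq, Bool.not_eq_true]
      constructor
      · intro h1 j hj hs
        exact h1 j (by omega) hs
      · intro h1 j hj hs
        exact h1 j (by omega) hs
    simp only [Bool.and_eq_true, decide_eq_true_eq]
    rw [hS' (e, n)]
    unfold Act
    constructor
    · rintro ⟨h1, h2, s, -, h3⟩
      simp only [Bool.and_eq_true, decide_eq_true_eq, Bool.not_eq_true'] at h3
      exact ⟨by omega, h2, s, h3.1, h3.2.1, h3.2.2.1, (hCn s).1 h3.2.2.2⟩
    · rintro ⟨h1, h2, s, h3, h4, h5, h6⟩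
      refine ⟨by omega, h2, s, ?_, ?_⟩
      · by_contra hlt
        apply h6 0 (Nat.zero_le _)
        refine ⟨by omega, dc_hb_mono (hg' n) ?_⟩
        exact Nat.pow_le_pow_right (by norm_num) (by simp only at hlt; omega)
      · simp only [Bool.and_eq_true, decide_eq_true_eq, Bool.not_eq_true']
        exact ⟨h3, h4, h5, (hCn s).2 h6⟩

private theorem dc_satD (ι : ℕ → ℕ) (hι : Computable ι) (ht : ∀ j, Tot (ι j)) :
    Computable₂ (satD ι) := by
  obtain ⟨D, hD, hD'⟩ := dc_act ι hι ht
  have h1 : Computable₂ (fun (q : List ℕ × ℕ) (m : ℕ) => D (q.1.getD m 0, q.2, m)) := by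
    have c1 : Computable (fun p : (List ℕ × ℕ) × ℕ => p.1.1.getD p.2 0) :=
      (Primrec.list_getD (0 : ℕ)).to_comp.comp (Computable.fst.comp Computable.fst)
        Computable.snd
    exact hD.comp (Computable.pair c1 (Computable.pair (Computable.snd.comp Computable.fst)
      Computable.snd))
  obtain ⟨E, hE, hE'⟩ := dc_bex h1 (N := fun q => q.1.length)
    (Computable.list_length.comp Computable.fst)
  have h2 : Computable (fun q : List ℕ × ℕ => bif E q then 1 else 0) :=
    Computable.cond hE (Computable.const 1) (Computable.const 0)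
  refine h2.of_eq fun q => ?_
  obtain ⟨κs, e⟩ := q
  have h3 := hE' (κs, e)
  simp only [hD'] at h3
  show (bif E (κs, e) then 1 else 0) = satD ι κs e
  unfold satD
  by_cases h : ∃ m < κs.length, Act ι (κs.getD m 0) e m
  · rw [if_pos h, h3.2 h]
    rfl
  · rw [if_neg h]
    have h4 : E (κs, e) = false := by
      rw [← Bool.not_eq_true, h3]
      exact h
    rw [h4]
    rfl

private theorem dc_map {α β : Type*} [Primcodable α] [Primcodable β] {f : α → ℕ → β}
    (hf : Computable₂ f) {g : α → ℕ} (hg : Computable g) :
    Computable (fun a => (List.range (g a)).map (f a)) := by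
  have h : Computable (fun a => (Nat.rec [] (fun n ih => ih ++ [f a n]) (g a) : List β)) := by
    refine Computable.nat_rec (f := g) (g := fun _ => ([] : List β))
      (h := fun a (q : ℕ × List β) => q.2 ++ [f a q.1]) hg (Computable.const []) ?_
    exact Computable.list_concat.comp (Computable.snd.comp Computable.snd)
      (hf.comp Computable.fst (Computable.fst.comp Computable.snd))
  refine h.of_eq fun a => ?_
  induction g a with
  | zero => rfl
  | succ n ih =>
    simp only at ih ⊢
    rw [ih, List.range_succ, List.map_append]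
    rfl

/-- the code of a program together with its length -/
private def dcCode (e : ℕ) : List ℕ := (pr e).length :: ecs (pr e)

private theorem dc_code : Computable dcCode := by
  have h1 : Computable (fun e : ℕ => (pr e).length) := by
    have h2 : Computable (fun e : ℕ =>
        ((Encodable.decode (α := List (ℕ × ℕ × ℕ × ℕ)) e).getD []).length) := by
      apply Primrec.to_comp
      exact Primrec.list_length.comp (Primrec.option_getD.comp Primrec.decode (Primrec.const []))
    refine h2.of_eq fun e => ?_
    rw [Denumerable.decode_eq_ofNat]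
    simp [pr]
  exact (Primrec.list_cons.to_comp).comp h1 computable_ecs

private def dcPiece (ι : ℕ → ℕ) (j : ℕ) : List ℕ :=
  (1 :: dcCode (ι j)) ++ (0 :: dcCode j)

private theorem dc_piece (ι : ℕ → ℕ) (hι : Computable ι) : Computable (dcPiece ι) := by
  have c : ∀ (b : ℕ) {f : ℕ → ℕ}, Computable f → Computable (fun j => b :: dcCode (f j)) :=
    fun b f hf => (Primrec.list_cons.to_comp).comp (Computable.const b) (dc_code.comp hf)
  exact (Primrec.list_append.to_comp).comp (c 1 hι) (c 0 Computable.id)

private theorem dc_flat (ι : ℕ → ℕ) (hι : Computable ι) :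
    Computable (fun k : ℕ => (List.range k).flatMap (dcPiece ι)) := by
  have h : Computable (fun k => (Nat.rec [] (fun n ih => ih ++ dcPiece ι n) k : List ℕ)) := by
    refine Computable.nat_rec (f := fun k : ℕ => k) (g := fun _ => ([] : List ℕ))
      (h := fun _ (q : ℕ × List ℕ) => q.2 ++ dcPiece ι q.1) Computable.id (Computable.const []) ?_
    exact (Primrec.list_append.to_comp).comp (Computable.snd.comp Computable.snd)
      ((dc_piece ι hι).comp (Computable.fst.comp Computable.snd))
  refine h.of_eq fun k => ?_
  induction k with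
  | zero => rfl
  | succ n ih =>
    simp only at ih ⊢
    rw [ih, List.range_succ, List.flatMap_append]
    simp

private theorem dc_enc (ι : ℕ → ℕ) (k : ℕ) :
    encE (entD ι k) = (k + k) :: (List.range k).flatMap (dcPiece ι) := by
  unfold encE entD
  congr 1
  · induction k with
    | zero => rfl
    | succ n ih =>
      rw [List.range_succ, List.flatMap_append, List.length_append, ih]
      simp
      omega
  · rw [List.flatMap_assoc]
    congr 1
    funext j
    simp [dcPiece, dcCode]

/-- (In `Act` the existential quantifier over `s` is bounded because the clock `ι 0` halts: the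
search for the least `s ≥ s0 n` at which program `e` or one of the clocks has halted is total.) -/
theorem computable_PsiD (ι : ℕ → ℕ) (hι : Computable ι) (ht : ∀ j, Tot (ι j)) :
    Computable (PsiD ι) := by
  have hlen : Computable (fun L : List (List ℕ) => L.length) := Computable.list_length
  have h1 : Computable (fun L : List (List ℕ) =>
      (L.length + L.length) :: (List.range L.length).flatMap (dcPiece ι)) :=
    (Primrec.list_cons.to_comp).comp (dc_add hlen hlen) ((dc_flat ι hι).comp hlen)
  have h2 : Computable (fun L : List (List ℕ) => L.map (fun l => l.getD 0 0 / 2)) := by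
    apply Primrec.to_comp
    refine Primrec.list_map Primrec.id ?_
    exact Primrec.nat_div.comp ((Primrec.list_getD (0 : ℕ)).comp Primrec.snd (Primrec.const 0))
      (Primrec.const 2)
  have h3 : Computable (fun L : List (List ℕ) => (List.range L.length).map
      (satD ι (L.map (fun l => l.getD 0 0 / 2)))) := by
    refine dc_map (f := fun (L : List (List ℕ)) (e : ℕ) =>
      satD ι (L.map (fun l => l.getD 0 0 / 2)) e) ?_ hlen
    exact (dc_satD ι hι ht).comp (h2.comp Computable.fst) Computable.snd
  refine ((Primrec.list_append.to_comp).comp h1 h3).of_eq fun L => ?_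
  unfold PsiD
  rw [dc_enc]

end Pool.Agent.H71.CT
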