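import Pool.Agent.H71.CT.Entries

/-! The diagonal set. -/

namespace Pool.Agent.H71.CT

/-- the string `1^e 0^(n-e)` -/
def xs (e n : ℕ) : List Bool := List.replicate e true ++ List.replicate (n - e) false

/-- Requirement `e` acts at length `n` when the level is `k`: program `e` halts on `xs e n` strictly
before all clocks `ι j`, `j ≤ e`. -/
def Act (ι : ℕ → ℕ) (k e n : ℕ) : Prop :=
  e < k ∧ e ≤ n ∧ ∃ s, s0 n ≤ s ∧ 2 * e + 2 ≤ s ∧ hb e (xs e n) (2 ^ (s - (2 * e + 2))) = true ∧
    ∀ j ≤ e, ¬ (2 * j + 1 ≤ s ∧ hb (ι j) (List.replicate n false) (2 ^ (s - (2 * j + 1))) = true)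

/-- the program accepts -/
def Acc (e : ℕ) (y : List Bool) : Prop := ∃ B, hb e y B = true ∧ oc e y B = 1

/-- the diagonal set, requirements from `i` on -/
def BFrom (ι κ : ℕ → ℕ) (i : ℕ) : Set (List Bool) :=
  {x | ∃ e n, i ≤ e ∧ x = xs e n ∧ (∀ m < κ n, ¬ Act ι (κ m) e m) ∧ Act ι (κ n) e n ∧
    ¬ Acc e (xs e n)}

/-- entries of the table of level `k` -/
def entD (ι : ℕ → ℕ) (k : ℕ) : List Entry :=
  (List.range k).flatMap (fun j => [(true, pr (ι j)), (false, pr j)])

open Classical in
/-- flag of requirement `e`: it has acted at one of the lengths `m < κs.length` -/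
noncomputable def satD (ι : ℕ → ℕ) (κs : List ℕ) (e : ℕ) : ℕ :=
  if ∃ m < κs.length, Act ι (κs.getD m 0) e m then 1 else 0

/-- the table computed from the list of the previous tables (the level of a table is half of its
first entry); the flags stand at the end -/
noncomputable def PsiD (ι : ℕ → ℕ) (L : List (List ℕ)) : List ℕ :=
  encE (entD ι L.length) ++
    (List.range L.length).map (satD ι (L.map (fun l => l.getD 0 0 / 2)))

end Pool.Agent.H71.CT
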