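import Pool.Agent.H71.CT.Env

/-! Constant tables; the table of lists. -/

namespace Pool.Agent.H71.CT

private theorem linc_sv (σ : St) (v w : ℕ) (z : ℤ) :
    (σ.sv v z).v w = if w = v then z else σ.v w := by
  simp [St.sv, Function.update_apply]

private theorem linc_sva (σ : St) (v : ℕ) (z : ℤ) : (σ.sv v z).a = σ.a := rfl

private theorem linc_sav (σ : St) (a i : ℕ) (z : ℤ) : (σ.sa a i z).v = σ.v := rfl

private theorem linc_saa (σ : St) (a i b j : ℕ) (z : ℤ) :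
    (σ.sa a i z).a b j = if b = a ∧ j = i then z else σ.a b j := by
  by_cases hb : b = a
  · subst hb
    by_cases hj : j = i
    · subst hj
      simp [St.sa]
    · simp [St.sa, Function.update_of_ne hj, hj]
  · simp [St.sa, Function.update_of_ne hb, hb]

/-- A run of cost `c` changes at most `c` cells of an array. -/
private theorem linc_cells {s : Stmt} {σ τ : St} {c : ℕ} (h : Big s σ c τ) (a : ℕ) :
    ∃ S : Finset ℕ, S.card ≤ c ∧ ∀ i ∉ S, τ.a a i = σ.a a i := by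
  have trans : ∀ {σ₁ σ₂ σ₃ : St} {c d : ℕ},
      (∃ S : Finset ℕ, S.card ≤ c ∧ ∀ i ∉ S, σ₂.a a i = σ₁.a a i) →
      (∃ S : Finset ℕ, S.card ≤ d ∧ ∀ i ∉ S, σ₃.a a i = σ₂.a a i) →
      ∃ S : Finset ℕ, S.card ≤ c + d ∧ ∀ i ∉ S, σ₃.a a i = σ₁.a a i := by
    rintro σ₁ σ₂ σ₃ c d ⟨S, hS, h⟩ ⟨T, hT, h'⟩
    refine ⟨S ∪ T, (Finset.card_union_le _ _).trans (by omega), fun i hi => ?_⟩
    rw [Finset.mem_union, not_or] at hi
    rw [h' i hi.2, h i hi.1]
  have mono : ∀ {σ₁ σ₂ : St} {c d : ℕ}, c ≤ d →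
      (∃ S : Finset ℕ, S.card ≤ c ∧ ∀ i ∉ S, σ₂.a a i = σ₁.a a i) →
      ∃ S : Finset ℕ, S.card ≤ d ∧ ∀ i ∉ S, σ₂.a a i = σ₁.a a i := by
    rintro σ₁ σ₂ c d hcd ⟨S, hS, h⟩
    exact ⟨S, hS.trans hcd, h⟩
  induction h with
  | skip σ => exact ⟨∅, by simp, fun _ _ => rfl⟩
  | const σ v c => exact ⟨∅, by simp, fun _ _ => rfl⟩
  | mov σ v b => exact ⟨∅, by simp, fun _ _ => rfl⟩
  | add σ v b d => exact ⟨∅, by simp, fun _ _ => rfl⟩
  | sub σ v b d => exact ⟨∅, by simp, fun _ _ => rfl⟩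
  | get σ v b i => exact ⟨∅, by simp, fun _ _ => rfl⟩
  | put σ b i v =>
    refine ⟨{(σ.v i).toNat}, by simp, fun j hj => ?_⟩
    rw [linc_saa, if_neg]
    rintro ⟨-, h⟩
    exact hj (by simp [h])
  | read σ v => exact ⟨∅, by simp, fun _ _ => rfl⟩
  | print σ v => exact ⟨∅, by simp, fun _ _ => rfl⟩
  | seq _ _ ih ih' => exact trans ih ih'
  | ite_pos _ _ ih => exact mono (Nat.le_succ _) ih
  | ite_neg _ _ ih => exact mono (Nat.le_succ _) ih
  | while_end _ => exact ⟨∅, by simp, fun _ _ => rfl⟩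
  | while_step _ _ _ ih ih' => exact mono (Nat.le_succ _) (trans ih ih')

/-- A table that can be stored in linear time has linear length. -/
private theorem linc_len {d : ℕ → List ℕ} (h : LinTab d) :
    ∃ κ : ℕ, ∀ n, (d n).length ≤ κ * (n + 1) := by
  obtain ⟨κ, h⟩ := h
  refine ⟨κ, fun n => ?_⟩
  obtain ⟨s, hs⟩ := h 10 100 le_rfl le_rfl
  obtain ⟨σ, hσ⟩ : ∃ σ : St, σ = ⟨fun v => if v = 40 then (n : ℤ) else 0,
      fun a _ => if a = 10 then -1 else 0, [], []⟩ := ⟨_, rfl⟩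
  have hE : Env σ (List.replicate n false) := by
    refine ⟨?_, ?_, ?_, ?_⟩
    · simp [hσ]
    · intro i hi
      simp [hσ]
    · simp [hσ]
    · intro i
      simp [hσ]
  obtain ⟨τ, ⟨c, hc, hb⟩, -, hst, -, -⟩ := hs _ σ hE
  rw [List.length_replicate] at hc hst
  obtain ⟨S, hS, hSa⟩ := linc_cells hb 10
  have hsub : Finset.range (d n).length ⊆ S := by
    intro i hi
    rw [Finset.mem_range] at hi
    by_contra hiS
    have h1 := hSa i hiS
    have h2 := hst i hi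
    rw [Nat.zero_add] at h2
    rw [h2] at h1
    have h3 : σ.a 10 i = -1 := by simp [hσ]
    rw [h3] at h1
    have := Int.natCast_nonneg ((d n)[i])
    omega
  have := Finset.card_le_card hsub
  rw [Finset.card_range] at this
  omega

/-- The changed variables. -/
private def lincV (tl : ℕ) : Set ℕ := {v | (43 ≤ v ∧ v < 100) ∨ v = tl}

private theorem lincV_mem {tl v : ℕ} (h : (43 ≤ v ∧ v < 100) ∨ v = tl) : v ∈ lincV tl := h

private theorem linc_frv {tl : ℕ} {AS : Set ℕ} {σ τ : St} {v : ℕ}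
    (h : Fr (lincV tl) AS σ τ) (hv : (43 ≤ v ∧ v < 100) ∨ v = tl) (z : ℤ) :
    Fr (lincV tl) AS σ (τ.sv v z) := by
  refine ⟨fun w hw => ?_, h.a, h.inp, h.out⟩
  rw [linc_sv, if_neg, h.v w hw]
  rintro rfl
  exact hw (lincV_mem hv)

private theorem linc_fra {VS : Set ℕ} {ta : ℕ} {σ τ : St}
    (h : Fr VS {ta} σ τ) (i : ℕ) (z : ℤ) : Fr VS {ta} σ (τ.sa ta i z) := by
  refine ⟨h.v, fun b hb => ?_, h.inp, h.out⟩
  rw [← h.a b hb]
  funext j
  rw [linc_saa, if_neg]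
  rintro ⟨rfl, -⟩
  exact hb rfl

private theorem linc_env {σ τ : St} {x : List Bool} {ta tl : ℕ} (hta : 10 ≤ ta) (htl : 100 ≤ tl)
    (h : Env σ x) (hF : Fr (lincV tl) {ta} σ τ) : Env τ x := by
  have k40 : (40 : ℕ) ∉ lincV tl := by
    simp only [lincV, Set.mem_setOf_eq]
    omega
  have k8 : (8 : ℕ) ∉ lincV tl := by
    simp only [lincV, Set.mem_setOf_eq]
    omega
  have a0 : (0 : ℕ) ∉ ({ta} : Set ℕ) := by
    simp only [Set.mem_singleton_iff]
    omega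
  have a2 : (2 : ℕ) ∉ ({ta} : Set ℕ) := by
    simp only [Set.mem_singleton_iff]
    omega
  refine ⟨?_, ?_, ?_, ?_⟩
  · rw [hF.v 40 k40]
    exact h.n
  · rw [hF.a 0 a0]
    exact h.inp
  · rw [hF.v 8 k8]
    exact h.stamps.1
  · rw [hF.v 8 k8, hF.a 2 a2]
    exact h.stamps.2

private theorem linc_fr {σ τ : St} {ta tl : ℕ} (hF : Fr (lincV tl) {ta} σ τ) :
    Fr (LV ∪ {tl}) (LA ∪ {ta}) σ τ := by
  refine hF.mono ?_ Set.subset_union_right
  rintro v (hv | hv)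
  · left
    simp only [LV, Set.mem_setOf_eq]
    omega
  · right
    exact hv

/-- write the list `l` into the array `ta` from position `k` on -/
private def cstP (ta : ℕ) : ℕ → List ℕ → Stmt
  | _, [] => .skip
  | k, a :: l => .seq (.seq (.const 43 k) (.seq (.const 44 a) (.put ta 43 44))) (cstP ta (k + 1) l)

private theorem cstP_spec (ta tl : ℕ) : ∀ (l : List ℕ) (k : ℕ) (σ : St),
    ∃ τ, Reach (cstP ta k l) σ (3 * l.length) τ ∧
      (∀ i (h : i < l.length), τ.a ta (k + i) = (l[i] : ℤ)) ∧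
      (∀ i < k, τ.a ta i = σ.a ta i) ∧ Fr (lincV tl) {ta} σ τ := by
  intro l
  induction l with
  | nil =>
    intro k σ
    exact ⟨σ, Reach.skip σ, fun i h => absurd h (by simp), fun _ _ => rfl, Fr.refl _ _ σ⟩
  | cons a l ih =>
    intro k σ
    obtain ⟨σ₁, hσ₁⟩ : ∃ s, s = ((σ.sv 43 (k : ℤ)).sv 44 (a : ℤ)).sa ta k (a : ℤ) := ⟨_, rfl⟩
    have r₁ : Reach (.seq (.const 43 k) (.seq (.const 44 a) (.put ta 43 44))) σ 3 σ₁ := by
      have b₁ := Big.const σ 43 (k : ℤ)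
      have b₂ := Big.const (σ.sv 43 (k : ℤ)) 44 (a : ℤ)
      have b₃ := Big.put ((σ.sv 43 (k : ℤ)).sv 44 (a : ℤ)) ta 43 44
      have e₁ : ((σ.sv 43 (k : ℤ)).sv 44 (a : ℤ)).v 43 = (k : ℤ) := by simp [linc_sv]
      have e₂ : ((σ.sv 43 (k : ℤ)).sv 44 (a : ℤ)).v 44 = (a : ℤ) := by simp [linc_sv]
      rw [e₁, e₂, Int.toNat_natCast, ← hσ₁] at b₃
      exact ⟨_, by omega, Big.seq b₁ (Big.seq b₂ b₃)⟩
    have f₁ : Fr (lincV tl) {ta} σ σ₁ := by
      rw [hσ₁]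
      exact linc_fra (linc_frv (linc_frv (Fr.refl _ _ σ) (by omega) _) (by omega) _) _ _
    obtain ⟨τ, r, h1, h2, h3⟩ := ih (k + 1) σ₁
    refine ⟨τ, (r₁.seq r).mono (by rw [List.length_cons]; omega), ?_, ?_, f₁.trans h3⟩
    · intro i hi
      cases i with
      | zero =>
        rw [Nat.add_zero, h2 k (by omega), hσ₁, linc_saa, if_pos ⟨rfl, rfl⟩]
        rfl
      | succ i =>
        have := h1 i (by rw [List.length_cons] at hi; omega)
        rw [show k + (i + 1) = k + 1 + i by omega, this]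
        rfl
    · intro i hi
      rw [h2 i (by omega), hσ₁, linc_saa, if_neg (by rintro ⟨-, h⟩; omega)]
      rfl

private def cstQ (ta tl : ℕ) (l : List ℕ) : Stmt := .seq (cstP ta 0 l) (.const tl l.length)

private theorem cstQ_spec (ta tl : ℕ) (l : List ℕ) (σ : St) :
    ∃ τ, Reach (cstQ ta tl l) σ (3 * l.length + 1) τ ∧ StoredAt τ ta 0 l ∧
      τ.v tl = l.length ∧ Fr (lincV tl) {ta} σ τ := by
  obtain ⟨τ, r, h1, -, h3⟩ := cstP_spec ta tl l 0 σ
  refine ⟨τ.sv tl (l.length : ℤ), r.seq ⟨1, le_rfl, Big.const _ _ _⟩, ?_, ?_, ?_⟩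
  · intro i hi
    exact h1 i hi
  · rw [linc_sv, if_pos rfl]
  · exact linc_frv h3 (Or.inr rfl) _

theorem lin_const (l : List ℕ) : LinTab (fun _ => l) := by
  refine ⟨3 * l.length + 1, fun ta tl hta htl => ⟨cstQ ta tl l, fun x σ hE => ?_⟩⟩
  obtain ⟨τ, r, h1, h2, h3⟩ := cstQ_spec ta tl l σ
  exact ⟨τ, r.mono (Nat.le_mul_of_pos_right _ (Nat.succ_pos _)), linc_env hta htl hE h3, h1, h2,
    linc_fr h3⟩

/-- flat code of a list of lists -/
def encLL (L : List (List ℕ)) : List ℕ := L.flatMap (fun l => l.length :: l)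

private theorem encLL_cons (l : List ℕ) (L : List (List ℕ)) :
    encLL (l :: L) = l.length :: (l ++ encLL L) := by
  simp [encLL]

/-- pass one list; 43 = position, 46 = one -/
private def wk (ta tl : ℕ) : Stmt :=
  .seq (.sub 44 tl 43) (.ite 44 (.seq (.get 45 ta 43) (.seq (.add 43 43 45) (.add 43 43 46))) .skip)

private def wks (ta tl : ℕ) : ℕ → Stmt
  | 0 => .skip
  | c + 1 => .seq (wk ta tl) (wks ta tl c)

/-- position `p`, the lists `M` are still to come -/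
private structure Pos (ta tl p : ℕ) (M : List (List ℕ)) (σ : St) : Prop where
  v43 : σ.v 43 = p
  v46 : σ.v 46 = 1
  len : σ.v tl = p + (encLL M).length
  st : StoredAt σ ta p (encLL M)

private theorem wk_spec {ta tl : ℕ} (htl : 100 ≤ tl) (p : ℕ) (M : List (List ℕ)) (σ : St)
    (h : Pos ta tl p M σ) : ∃ τ, Reach (wk ta tl) σ 5 τ ∧ (∃ p', Pos ta tl p' (M.drop 1) τ) ∧
      Fr (lincV tl) {ta} σ τ := by
  obtain ⟨σ₁, hσ₁⟩ : ∃ s, s = σ.sv 44 (σ.v tl - σ.v 43) := ⟨_, rfl⟩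
  have r₁ : Reach (.sub 44 tl 43) σ 1 σ₁ := ⟨1, le_rfl, by rw [hσ₁]; exact Big.sub _ _ _ _⟩
  have v₁ : ∀ w, w ≠ 44 → σ₁.v w = σ.v w := by
    intro w hw
    rw [hσ₁, linc_sv, if_neg hw]
  have a₁ : σ₁.a = σ.a := by rw [hσ₁]; rfl
  have e44 : σ₁.v 44 = (encLL M).length := by
    rw [hσ₁, linc_sv, if_pos rfl, h.len, h.v43]
    ring
  have f₁ : Fr (lincV tl) {ta} σ σ₁ := by
    rw [hσ₁]
    exact linc_frv (Fr.refl _ _ σ) (by omega) _
  cases M with
  | nil =>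
    refine ⟨σ₁, (r₁.seq (Reach.ite_neg (by rw [e44]; simp [encLL]) (Reach.skip σ₁))).mono
      (by omega), ⟨p, ?_, ?_, ?_, ?_⟩, f₁⟩
    · rw [v₁ 43 (by omega), h.v43]
    · rw [v₁ 46 (by omega), h.v46]
    · rw [v₁ tl (by omega), h.len]
      rfl
    · intro i hi
      simp [encLL] at hi
  | cons l M =>
    obtain ⟨σ₂, hσ₂⟩ : ∃ s, s = σ₁.sv 45 (l.length : ℤ) := ⟨_, rfl⟩
    obtain ⟨σ₃, hσ₃⟩ : ∃ s, s = σ₂.sv 43 ((p : ℤ) + l.length) := ⟨_, rfl⟩
    obtain ⟨σ₄, hσ₄⟩ : ∃ s, s = σ₃.sv 43 ((p : ℤ) + l.length + 1) := ⟨_, rfl⟩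
    have st := h.st
    rw [encLL_cons] at st
    have c0 : σ.a ta p = (l.length : ℤ) := by
      have := st 0 (by simp)
      simpa using this
    have b₂ : Big (.get 45 ta 43) σ₁ 1 σ₂ := by
      have := Big.get σ₁ 45 ta 43
      rw [v₁ 43 (by omega), h.v43, Int.toNat_natCast, a₁, c0, ← hσ₂] at this
      exact this
    have b₃ : Big (.add 43 43 45) σ₂ 1 σ₃ := by
      have := Big.add σ₂ 43 43 45
      have e1 : σ₂.v 43 = p := by
        rw [hσ₂, linc_sv, if_neg (by omega), v₁ 43 (by omega), h.v43]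
      have e2 : σ₂.v 45 = l.length := by
        rw [hσ₂, linc_sv, if_pos rfl]
      rw [e1, e2, ← hσ₃] at this
      exact this
    have b₄ : Big (.add 43 43 46) σ₃ 1 σ₄ := by
      have := Big.add σ₃ 43 43 46
      have e1 : σ₃.v 43 = (p : ℤ) + l.length := by
        rw [hσ₃, linc_sv, if_pos rfl]
      have e2 : σ₃.v 46 = 1 := by
        rw [hσ₃, linc_sv, if_neg (by omega), hσ₂, linc_sv, if_neg (by omega), v₁ 46 (by omega), h.v46]
      rw [e1, e2, ← hσ₄] at this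
      exact this
    have v₄ : ∀ w, w ≠ 43 → w ≠ 44 → w ≠ 45 → σ₄.v w = σ.v w := by
      intro w h3 h4 h5
      rw [hσ₄, linc_sv, if_neg h3, hσ₃, linc_sv, if_neg h3, hσ₂, linc_sv, if_neg h5, v₁ w h4]
    have a₄ : σ₄.a = σ.a := by
      rw [hσ₄, hσ₃, hσ₂]
      exact a₁
    have f₄ : Fr (lincV tl) {ta} σ σ₄ := by
      rw [hσ₄, hσ₃, hσ₂]
      exact linc_frv (linc_frv (linc_frv f₁ (by omega) _) (by omega) _) (by omega) _
    have hpos : 0 < σ₁.v 44 := by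
      rw [e44, encLL_cons]
      simp only [List.length_cons]
      positivity
    refine ⟨σ₄, (r₁.seq (Reach.ite_pos hpos ⟨_, le_rfl, Big.seq b₂ (Big.seq b₃ b₄)⟩)).mono
      (by omega), ⟨p + l.length + 1, ?_, ?_, ?_, ?_⟩, f₄⟩
    · rw [hσ₄, linc_sv, if_pos rfl]
      push_cast
      ring
    · rw [v₄ 46 (by omega) (by omega) (by omega), h.v46]
    · rw [v₄ tl (by omega) (by omega) (by omega), h.len, encLL_cons]
      simp only [List.length_cons, List.length_append, List.drop_succ_cons, List.drop_zero]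
      push_cast
      ring
    · intro i hi
      simp only [List.drop_succ_cons, List.drop_zero] at hi ⊢
      have h1 := st (1 + l.length + i) (by simp; omega)
      rw [a₄, show p + l.length + 1 + i = p + (1 + l.length + i) by ring, h1]
      congr 1
      simp only [show 1 + l.length + i = (l.length + i) + 1 by ring, List.getElem_cons_succ]
      rw [List.getElem_append_right (by omega)]
      congr 1
      omega

private theorem wks_spec {ta tl : ℕ} (htl : 100 ≤ tl) : ∀ (c p : ℕ) (M : List (List ℕ)) (σ : St),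
    Pos ta tl p M σ → ∃ τ, Reach (wks ta tl c) σ (5 * c) τ ∧ (∃ p', Pos ta tl p' (M.drop c) τ) ∧
      Fr (lincV tl) {ta} σ τ := by
  intro c
  induction c with
  | zero =>
    intro p M σ h
    exact ⟨σ, Reach.skip σ, ⟨p, by simpa using h⟩, Fr.refl _ _ σ⟩
  | succ c ih =>
    intro p M σ h
    obtain ⟨τ₁, r₁, ⟨p₁, h₁⟩, f₁⟩ := wk_spec htl p M σ h
    obtain ⟨τ₂, r₂, ⟨p₂, h₂⟩, f₂⟩ := ih p₁ _ τ₁ h₁
    refine ⟨τ₂, (r₁.seq r₂).mono (by omega), ⟨p₂, ?_⟩, f₁.trans f₂⟩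
    rwa [List.drop_drop, Nat.add_comm 1 c] at h₂

/-- the loop of the left shift; 43 = source, 47 = target, 45 = length -/
private def shl (ta : ℕ) : Stmt :=
  .seq (.get 49 ta 43) (.seq (.put ta 47 49) (.seq (.add 43 43 46) (.seq (.add 47 47 46)
    (.sub 48 45 47))))

private structure ShI (ta tl p : ℕ) (l : List ℕ) (σ : St) (j : ℕ) (τ : St) : Prop where
  v43 : τ.v 43 = ((p + 1 + j : ℕ) : ℤ)
  v45 : τ.v 45 = (l.length : ℤ)
  v46 : τ.v 46 = 1
  v47 : τ.v 47 = (j : ℤ)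
  v48 : τ.v 48 = (l.length : ℤ) - j
  vtl : τ.v tl = (l.length : ℤ)
  lo : ∀ i (h : i < l.length), i < j → τ.a ta i = (l[i] : ℤ)
  hi : ∀ i, j ≤ i → τ.a ta i = σ.a ta i
  fr : Fr (lincV tl) {ta} σ τ

private theorem shl_step {ta tl p : ℕ} (htl : 100 ≤ tl) {l : List ℕ} {σ : St}
    (hst : ∀ i (h : i < l.length), σ.a ta (p + 1 + i) = (l[i] : ℤ))
    (j : ℕ) (hj : j < l.length) (τ : St) (h : ShI ta tl p l σ j τ) :
    ∃ ρ, Reach (shl ta) τ 5 ρ ∧ ShI ta tl p l σ (j + 1) ρ := by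
  obtain ⟨τ₁, h₁⟩ : ∃ s, s = τ.sv 49 (l[j] : ℤ) := ⟨_, rfl⟩
  obtain ⟨τ₂, h₂⟩ : ∃ s, s = τ₁.sa ta j (l[j] : ℤ) := ⟨_, rfl⟩
  obtain ⟨τ₃, h₃⟩ : ∃ s, s = τ₂.sv 43 ((p + 1 + (j + 1) : ℕ) : ℤ) := ⟨_, rfl⟩
  obtain ⟨τ₄, h₄⟩ : ∃ s, s = τ₃.sv 47 ((j + 1 : ℕ) : ℤ) := ⟨_, rfl⟩
  obtain ⟨τ₅, h₅⟩ : ∃ s, s = τ₄.sv 48 ((l.length : ℤ) - (j + 1 : ℕ)) := ⟨_, rfl⟩
  have b₁ : Big (.get 49 ta 43) τ 1 τ₁ := by
    have := Big.get τ 49 ta 43
    rw [h.v43, Int.toNat_natCast, h.hi _ (by omega), hst j hj, ← h₁] at this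
    exact this
  have b₂ : Big (.put ta 47 49) τ₁ 1 τ₂ := by
    have := Big.put τ₁ ta 47 49
    have e1 : τ₁.v 47 = j := by rw [h₁, linc_sv, if_neg (by omega), h.v47]
    have e2 : τ₁.v 49 = (l[j] : ℤ) := by rw [h₁, linc_sv, if_pos rfl]
    rw [e1, e2, Int.toNat_natCast, ← h₂] at this
    exact this
  have v₂ : ∀ w, w ≠ 49 → τ₂.v w = τ.v w := by
    intro w hw
    rw [h₂, linc_sav, h₁, linc_sv, if_neg hw]
  have b₃ : Big (.add 43 43 46) τ₂ 1 τ₃ := by
    have := Big.add τ₂ 43 43 46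
    rw [v₂ 43 (by omega), v₂ 46 (by omega), h.v43, h.v46,
      show ((p + 1 + j : ℕ) : ℤ) + 1 = ((p + 1 + (j + 1) : ℕ) : ℤ) by push_cast; ring, ← h₃] at this
    exact this
  have v₃ : ∀ w, w ≠ 49 → w ≠ 43 → τ₃.v w = τ.v w := by
    intro w hw hw'
    rw [h₃, linc_sv, if_neg hw', v₂ w hw]
  have b₄ : Big (.add 47 47 46) τ₃ 1 τ₄ := by
    have := Big.add τ₃ 47 47 46
    rw [v₃ 47 (by omega) (by omega), v₃ 46 (by omega) (by omega), h.v47, h.v46,
      show (j : ℤ) + 1 = ((j + 1 : ℕ) : ℤ) by push_cast; ring, ← h₄] at this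
    exact this
  have b₅ : Big (.sub 48 45 47) τ₄ 1 τ₅ := by
    have := Big.sub τ₄ 48 45 47
    have e1 : τ₄.v 45 = l.length := by
      rw [h₄, linc_sv, if_neg (by omega), v₃ 45 (by omega) (by omega), h.v45]
    have e2 : τ₄.v 47 = ((j + 1 : ℕ) : ℤ) := by rw [h₄, linc_sv, if_pos rfl]
    rw [e1, e2, ← h₅] at this
    exact this
  have v₅ : ∀ w, w ≠ 49 → w ≠ 43 → w ≠ 47 → w ≠ 48 → τ₅.v w = τ.v w := by
    intro w h9 h3 h7 h8
    rw [h₅, linc_sv, if_neg h8, h₄, linc_sv, if_neg h7, v₃ w h9 h3]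
  have a₅ : ∀ i, τ₅.a ta i = if i = j then (l[j] : ℤ) else τ.a ta i := by
    intro i
    have : τ₅.a = τ₂.a := by rw [h₅, h₄, h₃]; rfl
    rw [this, h₂, linc_saa]
    have e : τ₁.a = τ.a := by rw [h₁]; rfl
    rw [e]
    by_cases hi : i = j
    · rw [if_pos ⟨rfl, hi⟩, if_pos hi]
    · rw [if_neg (fun h => hi h.2), if_neg hi]
  refine ⟨τ₅, ⟨_, by omega, Big.seq b₁ (Big.seq b₂ (Big.seq b₃ (Big.seq b₄ b₅)))⟩,
    ?_, ?_, ?_, ?_, ?_, ?_, ?_, ?_, ?_⟩
  · rw [h₅, linc_sv, if_neg (by omega), h₄, linc_sv, if_neg (by omega), h₃, linc_sv, if_pos rfl]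
  · rw [v₅ 45 (by omega) (by omega) (by omega) (by omega), h.v45]
  · rw [v₅ 46 (by omega) (by omega) (by omega) (by omega), h.v46]
  · rw [h₅, linc_sv, if_neg (by omega), h₄, linc_sv, if_pos rfl]
  · rw [h₅, linc_sv, if_pos rfl]
  · rw [v₅ tl (by omega) (by omega) (by omega) (by omega), h.vtl]
  · intro i hi hij
    rw [a₅]
    by_cases e : i = j
    · subst e
      rw [if_pos rfl]
    · rw [if_neg e]
      exact h.lo i hi (by omega)
  · intro i hi
    rw [a₅, if_neg (by omega)]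
    exact h.hi i (by omega)
  · rw [h₅, h₄, h₃, h₂, h₁]
    exact linc_frv (linc_frv (linc_frv (linc_fra (linc_frv h.fr (by omega) _) _ _)
      (by omega) _) (by omega) _) (by omega) _

/-- extract the list at the position 43 -/
private def ext0 (ta tl : ℕ) : Stmt :=
  .seq (.seq (.get 45 ta 43) (.seq (.add 43 43 46) (.seq (.mov tl 45) (.seq (.const 47 0)
    (.sub 48 45 47))))) (.whl 48 (shl ta))

private theorem ext0_spec {ta tl p : ℕ} (htl : 100 ≤ tl) (l : List ℕ) (M : List (List ℕ)) (σ : St)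
    (h : Pos ta tl p (l :: M) σ) : ∃ τ, Reach (ext0 ta tl) σ (6 * l.length + 6) τ ∧
      StoredAt τ ta 0 l ∧ τ.v tl = l.length ∧ Fr (lincV tl) {ta} σ τ := by
  have st := h.st
  rw [encLL_cons] at st
  have c0 : σ.a ta p = (l.length : ℤ) := by
    have := st 0 (by simp)
    simpa using this
  have hst : ∀ i (h : i < l.length), σ.a ta (p + 1 + i) = (l[i] : ℤ) := by
    intro i hi
    have := st (i + 1) (by simp; omega)
    rw [show p + 1 + i = p + (i + 1) by ring, this, List.getElem_cons_succ,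
      List.getElem_append_left hi]
  obtain ⟨τ₁, h₁⟩ : ∃ s, s = σ.sv 45 (l.length : ℤ) := ⟨_, rfl⟩
  obtain ⟨τ₂, h₂⟩ : ∃ s, s = τ₁.sv 43 ((p + 1 : ℕ) : ℤ) := ⟨_, rfl⟩
  obtain ⟨τ₃, h₃⟩ : ∃ s, s = τ₂.sv tl (l.length : ℤ) := ⟨_, rfl⟩
  obtain ⟨τ₄, h₄⟩ : ∃ s, s = τ₃.sv 47 0 := ⟨_, rfl⟩
  obtain ⟨τ₅, h₅⟩ : ∃ s, s = τ₄.sv 48 ((l.length : ℤ) - 0) := ⟨_, rfl⟩
  have b₁ : Big (.get 45 ta 43) σ 1 τ₁ := by
    have := Big.get σ 45 ta 43
    rw [h.v43, Int.toNat_natCast, c0, ← h₁] at this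
    exact this
  have b₂ : Big (.add 43 43 46) τ₁ 1 τ₂ := by
    have := Big.add τ₁ 43 43 46
    have e1 : τ₁.v 43 = p := by rw [h₁, linc_sv, if_neg (by omega), h.v43]
    have e2 : τ₁.v 46 = 1 := by rw [h₁, linc_sv, if_neg (by omega), h.v46]
    rw [e1, e2, show (p : ℤ) + 1 = ((p + 1 : ℕ) : ℤ) by push_cast; ring, ← h₂] at this
    exact this
  have e45 : τ₂.v 45 = l.length := by
    rw [h₂, linc_sv, if_neg (by omega), h₁, linc_sv, if_pos rfl]
  have b₃ : Big (.mov tl 45) τ₂ 1 τ₃ := by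
    have := Big.mov τ₂ tl 45
    rw [e45, ← h₃] at this
    exact this
  have b₄ : Big (.const 47 0) τ₃ 1 τ₄ := by
    have := Big.const τ₃ 47 0
    rw [← h₄] at this
    exact this
  have b₅ : Big (.sub 48 45 47) τ₄ 1 τ₅ := by
    have := Big.sub τ₄ 48 45 47
    have e1 : τ₄.v 45 = l.length := by
      rw [h₄, linc_sv, if_neg (by omega), h₃, linc_sv, if_neg (by omega), e45]
    have e2 : τ₄.v 47 = 0 := by rw [h₄, linc_sv, if_pos rfl]
    rw [e1, e2, ← h₅] at this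
    exact this
  have hI : ShI ta tl p l σ 0 τ₅ := by
    have a₅ : τ₅.a = σ.a := by rw [h₅, h₄, h₃, h₂, h₁]; rfl
    refine ⟨?_, ?_, ?_, ?_, ?_, ?_, ?_, ?_, ?_⟩
    · rw [h₅, linc_sv, if_neg (by omega), h₄, linc_sv, if_neg (by omega), h₃, linc_sv,
        if_neg (by omega), h₂, linc_sv, if_pos rfl, Nat.add_zero]
    · rw [h₅, linc_sv, if_neg (by omega), h₄, linc_sv, if_neg (by omega), h₃, linc_sv,
        if_neg (by omega), e45]
    · rw [h₅, linc_sv, if_neg (by omega), h₄, linc_sv, if_neg (by omega), h₃, linc_sv,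
        if_neg (by omega), h₂, linc_sv, if_neg (by omega), h₁, linc_sv, if_neg (by omega), h.v46]
    · rw [h₅, linc_sv, if_neg (by omega), h₄, linc_sv, if_pos rfl]
      rfl
    · rw [h₅, linc_sv, if_pos rfl]
      simp
    · rw [h₅, linc_sv, if_neg (by omega), h₄, linc_sv, if_neg (by omega), h₃, linc_sv, if_pos rfl]
    · intro i _ hi
      omega
    · intro i _
      rw [a₅]
    · rw [h₅, h₄, h₃, h₂, h₁]
      exact linc_frv (linc_frv (linc_frv (linc_frv (linc_frv (Fr.refl _ _ σ) (by omega) _)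
        (by omega) _) (by omega) _) (by omega) _) (by omega) _
  obtain ⟨τ, r, hτ⟩ := Reach.loop (v := 48) (s := shl ta) l.length (ShI ta tl p l σ) (fun _ => 5)
    (fun j hj τ hτ => by rw [hτ.v48]; omega) (fun τ hτ => by rw [hτ.v48]; omega)
    (fun j hj τ hτ => shl_step htl hst j hj τ hτ) τ₅ hI
  have r₀ : Reach (.seq (.get 45 ta 43) (.seq (.add 43 43 46) (.seq (.mov tl 45)
      (.seq (.const 47 0) (.sub 48 45 47))))) σ 5 τ₅ :=
    ⟨_, by omega, Big.seq b₁ (Big.seq b₂ (Big.seq b₃ (Big.seq b₄ b₅)))⟩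
  refine ⟨τ, (r₀.seq r).mono ?_, ?_, hτ.vtl, hτ.fr⟩
  · rw [Finset.sum_const, Finset.card_range, smul_eq_mul]
    omega
  · intro i hi
    rw [Nat.zero_add]
    exact hτ.lo i hi hi

/-- Entry `c` of a table of lists can be extracted (in place, left shift); `dflt` is a constant. -/
theorem lin_getD (L : ℕ → List (List ℕ)) (h : LinTab (fun n => encLL (L n))) (c : ℕ)
    (dflt : List ℕ) : LinTab (fun n => (L n).getD c dflt) := by
  obtain ⟨κ', hlen⟩ := linc_len h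
  obtain ⟨κ, h⟩ := h
  refine ⟨κ + 6 * κ' + 5 * c + 3 * dflt.length + 11, fun ta tl hta htl => ?_⟩
  obtain ⟨s, hs⟩ := h ta tl hta htl
  refine ⟨.seq s (.seq (.seq (.const 43 0) (.const 46 1)) (.seq (wks ta tl c)
    (.seq (.sub 44 tl 43) (.ite 44 (ext0 ta tl) (cstQ ta tl dflt))))), fun x σ hE => ?_⟩
  obtain ⟨τ₀, r₀, E₀, st₀, l₀, f₀⟩ := hs x σ hE
  obtain ⟨τ₁, h₁⟩ : ∃ s, s = (τ₀.sv 43 0).sv 46 1 := ⟨_, rfl⟩
  have r₁ : Reach (.seq (.const 43 0) (.const 46 1)) τ₀ 2 τ₁ := by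
    rw [h₁]
    exact ⟨_, by omega, Big.seq (Big.const _ _ _) (Big.const _ _ _)⟩
  have f₁ : Fr (lincV tl) {ta} τ₀ τ₁ := by
    rw [h₁]
    exact linc_frv (linc_frv (Fr.refl _ _ _) (by omega) _) (by omega) _
  have P₁ : Pos ta tl 0 (L x.length) τ₁ := by
    refine ⟨?_, ?_, ?_, ?_⟩
    · rw [h₁, linc_sv, if_neg (by omega), linc_sv, if_pos rfl]
      rfl
    · rw [h₁, linc_sv, if_pos rfl]
    · rw [h₁, linc_sv, if_neg (by omega), linc_sv, if_neg (by omega), l₀]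
      simp
    · rw [h₁]
      exact st₀
  obtain ⟨τ₂, r₂, ⟨p, P₂⟩, f₂⟩ := wks_spec htl c 0 _ τ₁ P₁
  obtain ⟨τ₃, h₃⟩ : ∃ s, s = τ₂.sv 44 ((encLL ((L x.length).drop c)).length : ℤ) := ⟨_, rfl⟩
  have r₃ : Reach (.sub 44 tl 43) τ₂ 1 τ₃ := by
    have := Big.sub τ₂ 44 tl 43
    rw [P₂.v43, P₂.len, add_sub_cancel_left, ← h₃] at this
    exact ⟨_, le_rfl, this⟩
  have f₃ : Fr (lincV tl) {ta} τ₂ τ₃ := by
    rw [h₃]
    exact linc_frv (Fr.refl _ _ _) (by omega) _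
  have e44 : τ₃.v 44 = ((encLL ((L x.length).drop c)).length : ℤ) := by
    rw [h₃, linc_sv, if_pos rfl]
  have P₃ : Pos ta tl p ((L x.length).drop c) τ₃ := by
    refine ⟨?_, ?_, ?_, ?_⟩
    · rw [h₃, linc_sv, if_neg (by omega), P₂.v43]
    · rw [h₃, linc_sv, if_neg (by omega), P₂.v46]
    · rw [h₃, linc_sv, if_neg (by omega), P₂.len]
    · rw [h₃]
      exact P₂.st
  have hmain : ∃ τ, Reach (.ite 44 (ext0 ta tl) (cstQ ta tl dflt)) τ₃
      (6 * κ' * (x.length + 1) + 7 + (3 * dflt.length + 1)) τ ∧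
      StoredAt τ ta 0 ((L x.length).getD c dflt) ∧ τ.v tl = ((L x.length).getD c dflt).length ∧
      Fr (lincV tl) {ta} τ₃ τ := by
    by_cases hc : c < (L x.length).length
    · have hd : (L x.length).drop c = (L x.length)[c] :: (L x.length).drop (c + 1) :=
        List.drop_eq_getElem_cons hc
      have hg : (L x.length).getD c dflt = (L x.length)[c] := by
        rw [List.getD_eq_getElem?_getD, List.getElem?_eq_getElem hc]
        rfl
      rw [hd] at P₃ e44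
      obtain ⟨τ, r, s1, s2, s3⟩ := ext0_spec htl _ _ τ₃ P₃
      have hpos : 0 < τ₃.v 44 := by
        rw [e44, encLL_cons]
        simp only [List.length_cons]
        positivity
      refine ⟨τ, (Reach.ite_pos hpos r).mono ?_, by rw [hg]; exact s1, by rw [hg]; exact s2, s3⟩
      have hl : ((L x.length)[c]).length ≤ κ' * (x.length + 1) := by
        refine le_trans ?_ (hlen x.length)
        have : L x.length = (L x.length).take c ++ (L x.length).drop c :=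
          (List.take_append_drop _ _).symm
        have h2 : encLL (L x.length) = encLL ((L x.length).take c) ++
            encLL ((L x.length).drop c) := by
          conv_lhs => rw [this]
          simp only [encLL, List.flatMap_append]
        simp only [h2, List.length_append, hd, encLL_cons, List.length_cons]
        omega
      have : 6 * κ' * (x.length + 1) = 6 * (κ' * (x.length + 1)) := by ring
      omega
    · have hd : (L x.length).drop c = [] := List.drop_eq_nil_of_le (by omega)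
      have hg : (L x.length).getD c dflt = dflt := by
        rw [List.getD_eq_getElem?_getD, List.getElem?_eq_none (by omega)]
        rfl
      rw [hd] at e44
      obtain ⟨τ, r, s1, s2, s3⟩ := cstQ_spec ta tl dflt τ₃
      refine ⟨τ, (Reach.ite_neg (by rw [e44]; simp [encLL]) r).mono (by omega),
        by rw [hg]; exact s1, by rw [hg]; exact s2, s3⟩
  obtain ⟨τ, r, s1, s2, s3⟩ := hmain
  have fAll : Fr (lincV tl) {ta} τ₀ τ := f₁.trans (f₂.trans (f₃.trans s3))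
  refine ⟨τ, (r₀.seq (r₁.seq (r₂.seq (r₃.seq r)))).mono ?_, linc_env hta htl E₀ fAll, s1, s2,
    f₀.trans (linc_fr fAll)⟩
  have e : (κ + 6 * κ' + 5 * c + 3 * dflt.length + 11) * (x.length + 1) =
      κ * (x.length + 1) + 6 * κ' * (x.length + 1) +
        (5 * c + 3 * dflt.length + 11) * (x.length + 1) := by ring
  have e2 : 5 * c + 3 * dflt.length + 11 ≤ (5 * c + 3 * dflt.length + 11) * (x.length + 1) :=
    Nat.le_mul_of_pos_right _ (Nat.succ_pos _)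
  rw [e]
  omega

end Pool.Agent.H71.CT
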