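import Pool.Agent.H71.CT.JJ
import Pool.Agent.H71.CT.LinConst
import Pool.Agent.H71.CT.Prep
import Pool.Agent.H71.CT.ReadInput
import Pool.Agent.H71.CT.Comp

/-! Two machines for the same set can be run in parallel. -/

namespace Pool.Agent.H71.CT

private theorem dMin_stay {p : Prog} {s : Cfg} (h : Halted p s) (m : ℕ) : (step p)^[m] s = s := by
  have h1 : step p s = s := by
    unfold step
    have h2 : p[s.pc]? = none := List.getElem?_eq_none h
    rw [h2]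
  induction m with
  | zero => rfl
  | succ m ih => rw [Function.iterate_succ_apply, h1, ih]

private theorem dMin_conf {p : Prog} {x : List Bool} {t : ℕ} {o : List ℤ} (h : Runs p x t o) {m : ℕ}
    (hm : t ≤ m) : conf p x m = conf p x t := by
  obtain ⟨d, rfl⟩ := Nat.exists_eq_add_of_le hm
  unfold conf
  rw [Nat.add_comm t d, Function.iterate_add_apply]
  exact dMin_stay h.1 d

private theorem dMin_halted {p : Prog} {x : List Bool} {t : ℕ} {o : List ℤ} (h : Runs p x t o) (m : ℕ) :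
    Halted p (conf p x m) ↔ t ≤ m := by
  constructor
  · intro hm
    by_contra hlt
    exact h.2.1 m (not_le.1 hlt) hm
  · intro hm
    rw [dMin_conf h hm]
    exact h.1

/-- only variables above 40 differ -/
private structure DMinSame (σ τ : St) : Prop where
  a : τ.a = σ.a
  inp : τ.inp = σ.inp
  out : τ.out = σ.out
  v : ∀ v ≤ 40, τ.v v = σ.v v

private theorem DMinSame.trans {σ τ ρ : St} (h : DMinSame σ τ) (h' : DMinSame τ ρ) : DMinSame σ ρ :=
  ⟨h'.a.trans h.a, h'.inp.trans h.inp, h'.out.trans h.out, fun v hv => (h'.v v hv).trans (h.v v hv)⟩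

private theorem dMin_sv (σ : St) {v : ℕ} (hv : 40 < v) (z : ℤ) : DMinSame σ (σ.sv v z) :=
  ⟨rfl, rfl, rfl, fun w hw => Function.update_of_ne (by omega) _ _⟩

private theorem DMinSame.env {σ τ : St} {x : List Bool} (h : DMinSame σ τ) (he : Env σ x) : Env τ x := by
  refine ⟨?_, ?_, ?_, ?_⟩
  · rw [h.v 40 le_rfl]
    exact he.n
  · intro i hi
    rw [h.a]
    exact he.inp i hi
  · rw [h.v 8 (by norm_num)]
    exact he.stamps.1
  · intro i
    rw [h.a, h.v 8 (by norm_num)]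
    exact he.stamps.2 i

private theorem dMin_prim {s : Stmt} {σ τ : St} (h : Big s σ 1 τ) : Reach s σ 1 τ := ⟨1, le_rfl, h⟩

/-- look at the results, advance the time if nothing has happened -/
private def dMinRest : Stmt :=
  .seq (.const 51 0) (.seq (.get 52 4 51) (.seq (.get 53 5 51) (.seq (.const 54 1) (.seq (.get 55 4 54)
    (.seq (.get 56 5 54) (.ite 52 (.seq (.mov 103 53) (.const 102 0))
      (.ite 55 (.seq (.mov 103 56) (.const 102 0)) (.seq (.add 41 41 54) (.add 42 42 42)))))))))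

private theorem dMin_rest (σ : St) : ∃ τ, Reach dMinRest σ 10 τ ∧ DMinSame σ τ ∧
    (0 < σ.a 4 0 → τ.v 102 = 0 ∧ τ.v 103 = σ.a 5 0) ∧
    (¬ 0 < σ.a 4 0 → 0 < σ.a 4 1 → τ.v 102 = 0 ∧ τ.v 103 = σ.a 5 1) ∧
    (¬ 0 < σ.a 4 0 → ¬ 0 < σ.a 4 1 → τ.v 102 = σ.v 102 ∧ τ.v 41 = σ.v 41 + 1 ∧
      τ.v 42 = σ.v 42 + σ.v 42) := by
  obtain ⟨σ1, h1⟩ : ∃ σ1, σ1 = σ.sv 51 0 := ⟨_, rfl⟩
  obtain ⟨σ2, h2⟩ : ∃ σ2, σ2 = σ1.sv 52 (σ1.a 4 (σ1.v 51).toNat) := ⟨_, rfl⟩
  obtain ⟨σ3, h3⟩ : ∃ σ3, σ3 = σ2.sv 53 (σ2.a 5 (σ2.v 51).toNat) := ⟨_, rfl⟩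
  obtain ⟨σ4, h4⟩ : ∃ σ4, σ4 = σ3.sv 54 1 := ⟨_, rfl⟩
  obtain ⟨σ5, h5⟩ : ∃ σ5, σ5 = σ4.sv 55 (σ4.a 4 (σ4.v 54).toNat) := ⟨_, rfl⟩
  obtain ⟨σ6, h6⟩ : ∃ σ6, σ6 = σ5.sv 56 (σ5.a 5 (σ5.v 54).toNat) := ⟨_, rfl⟩
  have r1 : Reach (.const 51 0) σ 1 σ1 := h1 ▸ dMin_prim (Big.const σ 51 0)
  have r2 : Reach (.get 52 4 51) σ1 1 σ2 := h2 ▸ dMin_prim (Big.get σ1 52 4 51)
  have r3 : Reach (.get 53 5 51) σ2 1 σ3 := h3 ▸ dMin_prim (Big.get σ2 53 5 51)
  have r4 : Reach (.const 54 1) σ3 1 σ4 := h4 ▸ dMin_prim (Big.const σ3 54 1)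
  have r5 : Reach (.get 55 4 54) σ4 1 σ5 := h5 ▸ dMin_prim (Big.get σ4 55 4 54)
  have r6 : Reach (.get 56 5 54) σ5 1 σ6 := h6 ▸ dMin_prim (Big.get σ5 56 5 54)
  have s6 : DMinSame σ σ6 := by
    have a1 : DMinSame σ σ1 := h1 ▸ dMin_sv σ (by norm_num) _
    have a2 : DMinSame σ1 σ2 := h2 ▸ dMin_sv σ1 (by norm_num) _
    have a3 : DMinSame σ2 σ3 := h3 ▸ dMin_sv σ2 (by norm_num) _
    have a4 : DMinSame σ3 σ4 := h4 ▸ dMin_sv σ3 (by norm_num) _
    have a5 : DMinSame σ4 σ5 := h5 ▸ dMin_sv σ4 (by norm_num) _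
    have a6 : DMinSame σ5 σ6 := h6 ▸ dMin_sv σ5 (by norm_num) _
    exact ((((a1.trans a2).trans a3).trans a4).trans a5).trans a6
  have e52 : σ6.v 52 = σ.a 4 0 := by
    simp [h6, h5, h4, h3, h2, h1, St.sv, Function.update_apply]
  have e53 : σ6.v 53 = σ.a 5 0 := by
    simp [h6, h5, h4, h3, h2, h1, St.sv, Function.update_apply]
  have e54 : σ6.v 54 = 1 := by
    simp [h6, h5, h4, h3, h2, h1, St.sv, Function.update_apply]
  have e55 : σ6.v 55 = σ.a 4 1 := by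
    simp [h6, h5, h4, h3, h2, h1, St.sv, Function.update_apply]
  have e56 : σ6.v 56 = σ.a 5 1 := by
    simp [h6, h5, h4, h3, h2, h1, St.sv, Function.update_apply]
  have e41 : σ6.v 41 = σ.v 41 := by
    simp [h6, h5, h4, h3, h2, h1, St.sv, Function.update_apply]
  have e42 : σ6.v 42 = σ.v 42 := by
    simp [h6, h5, h4, h3, h2, h1, St.sv, Function.update_apply]
  have e102 : σ6.v 102 = σ.v 102 := by
    simp [h6, h5, h4, h3, h2, h1, St.sv, Function.update_apply]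
  have key : ∀ τ, Reach (.ite 52 (.seq (.mov 103 53) (.const 102 0))
      (.ite 55 (.seq (.mov 103 56) (.const 102 0)) (.seq (.add 41 41 54) (.add 42 42 42)))) σ6 4 τ →
      Reach dMinRest σ 10 τ := by
    intro τ hτ
    exact (r1.seq (r2.seq (r3.seq (r4.seq (r5.seq (r6.seq hτ)))))).mono (by norm_num)
  by_cases c0 : 0 < σ.a 4 0
  · refine ⟨(σ6.sv 103 (σ6.v 53)).sv 102 0, key _ ?_, ?_, fun _ => ⟨?_, ?_⟩, fun h => absurd c0 h,
      fun h => absurd c0 h⟩
    · exact (Reach.ite_pos (by rw [e52]; exact c0) ((dMin_prim (Big.mov σ6 103 53)).seq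
        (dMin_prim (Big.const _ 102 0)))).mono (by norm_num)
    · exact (s6.trans (dMin_sv σ6 (by norm_num) _)).trans (dMin_sv _ (by norm_num) _)
    · simp [St.sv, Function.update_apply]
    · simp [St.sv, Function.update_apply, e53]
  · by_cases c1 : 0 < σ.a 4 1
    · refine ⟨(σ6.sv 103 (σ6.v 56)).sv 102 0, key _ ?_, ?_, fun h => absurd h c0, fun _ _ => ⟨?_, ?_⟩,
        fun _ h => absurd c1 h⟩
      · exact (Reach.ite_neg (by rw [e52]; exact c0) (Reach.ite_pos (by rw [e55]; exact c1)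
          ((dMin_prim (Big.mov σ6 103 56)).seq (dMin_prim (Big.const _ 102 0))))).mono (by norm_num)
      · exact (s6.trans (dMin_sv σ6 (by norm_num) _)).trans (dMin_sv _ (by norm_num) _)
      · simp [St.sv, Function.update_apply]
      · simp [St.sv, Function.update_apply, e56]
    · refine ⟨(σ6.sv 41 (σ6.v 41 + σ6.v 54)).sv 42
        ((σ6.sv 41 (σ6.v 41 + σ6.v 54)).v 42 + (σ6.sv 41 (σ6.v 41 + σ6.v 54)).v 42), key _ ?_, ?_,
        fun h => absurd h c0, fun _ h => absurd h c1, fun _ _ => ⟨?_, ?_, ?_⟩⟩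
      · exact (Reach.ite_neg (by rw [e52]; exact c0) (Reach.ite_neg (by rw [e55]; exact c1)
          ((dMin_prim (Big.add σ6 41 41 54)).seq (dMin_prim (Big.add _ 42 42 42))))).mono (by norm_num)
      · exact (s6.trans (dMin_sv σ6 (by norm_num) _)).trans (dMin_sv _ (by norm_num) _)
      · simp [St.sv, Function.update_apply, e102]
      · simp [St.sv, Function.update_apply, e41, e54]
      · simp [St.sv, Function.update_apply, e42]

/-- set the time to `s0 n`, compute its power of two, set the flag -/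
private def dMinInit : Stmt :=
  .seq (.mov 41 43) (.seq (.const 42 1) (.seq (.mov 57 43) (.seq (.const 58 1)
    (.seq (.whl 57 (.seq (.add 42 42 42) (.sub 57 57 58))) (.const 102 1)))))

private theorem dMin_init (σ : St) (k : ℕ) (hk : σ.v 43 = k) : ∃ τ, Reach dMinInit σ (3 * k + 6) τ ∧
    DMinSame σ τ ∧ τ.v 41 = k ∧ τ.v 42 = 2 ^ k ∧ τ.v 102 = 1 := by
  obtain ⟨σ1, h1⟩ : ∃ σ1, σ1 = σ.sv 41 (σ.v 43) := ⟨_, rfl⟩
  obtain ⟨σ2, h2⟩ : ∃ σ2, σ2 = σ1.sv 42 1 := ⟨_, rfl⟩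
  obtain ⟨σ3, h3⟩ : ∃ σ3, σ3 = σ2.sv 57 (σ2.v 43) := ⟨_, rfl⟩
  obtain ⟨σ4, h4⟩ : ∃ σ4, σ4 = σ3.sv 58 1 := ⟨_, rfl⟩
  have r1 : Reach (.mov 41 43) σ 1 σ1 := h1 ▸ dMin_prim (Big.mov σ 41 43)
  have r2 : Reach (.const 42 1) σ1 1 σ2 := h2 ▸ dMin_prim (Big.const σ1 42 1)
  have r3 : Reach (.mov 57 43) σ2 1 σ3 := h3 ▸ dMin_prim (Big.mov σ2 57 43)
  have r4 : Reach (.const 58 1) σ3 1 σ4 := h4 ▸ dMin_prim (Big.const σ3 58 1)
  have s4 : DMinSame σ σ4 := by
    have a1 : DMinSame σ σ1 := h1 ▸ dMin_sv σ (by norm_num) _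
    have a2 : DMinSame σ1 σ2 := h2 ▸ dMin_sv σ1 (by norm_num) _
    have a3 : DMinSame σ2 σ3 := h3 ▸ dMin_sv σ2 (by norm_num) _
    have a4 : DMinSame σ3 σ4 := h4 ▸ dMin_sv σ3 (by norm_num) _
    exact ((a1.trans a2).trans a3).trans a4
  have e41 : σ4.v 41 = k := by
    simp [h4, h3, h2, h1, St.sv, Function.update_apply, hk]
  have e42 : σ4.v 42 = 1 := by
    simp [h4, h3, h2, h1, St.sv, Function.update_apply]
  have e57 : σ4.v 57 = k := by
    simp [h4, h3, h2, h1, St.sv, Function.update_apply, hk]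
  have e58 : σ4.v 58 = 1 := by
    simp [h4, h3, h2, h1, St.sv, Function.update_apply]
  obtain ⟨τ, hτ, hI⟩ := Reach.loop (v := 57) (s := .seq (.add 42 42 42) (.sub 57 57 58)) k
    (fun j ρ => DMinSame σ ρ ∧ ρ.v 41 = k ∧ ρ.v 42 = 2 ^ j ∧ ρ.v 57 = (k : ℤ) - j ∧ ρ.v 58 = 1)
    (fun _ => 2) (fun j hj ρ hρ => by rw [hρ.2.2.2.1]; omega) (fun ρ hρ => by rw [hρ.2.2.2.1]; omega)
    (fun j hj ρ hρ => by
      obtain ⟨b1, b2, b3, b4, b5⟩ := hρ
      refine ⟨(ρ.sv 42 (ρ.v 42 + ρ.v 42)).sv 57 ((ρ.sv 42 (ρ.v 42 + ρ.v 42)).v 57 -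
        (ρ.sv 42 (ρ.v 42 + ρ.v 42)).v 58), (dMin_prim (Big.add ρ 42 42 42)).seq
        (dMin_prim (Big.sub _ 57 57 58)), (b1.trans (dMin_sv ρ (by norm_num) _)).trans
        (dMin_sv _ (by norm_num) _), ?_, ?_, ?_, ?_⟩
      · simp [St.sv, Function.update_apply, b2]
      · simp [St.sv, Function.update_apply, b3]
        ring
      · simp [St.sv, Function.update_apply, b4, b5]
        ring
      · simp [St.sv, Function.update_apply, b5])
    σ4 ⟨s4, e41, by simpa using e42, by simpa using e57, e58⟩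
  obtain ⟨b1, b2, b3, b4, b5⟩ := hI
  refine ⟨τ.sv 102 1, ?_, b1.trans (dMin_sv τ (by norm_num) _), ?_, ?_, ?_⟩
  · refine (r1.seq (r2.seq (r3.seq (r4.seq (hτ.seq (dMin_prim (Big.const τ 102 1))))))).mono ?_
    simp
    omega
  · simp [St.sv, Function.update_apply, b2]
  · simp [St.sv, Function.update_apply, b3]
  · simp [St.sv, Function.update_apply]

private theorem dMin_sum (a m : ℕ) : ∑ j ∈ Finset.range m, 2 ^ (a + j) ≤ 2 ^ (a + m) := by
  induction m with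
  | zero => simp
  | succ m ih =>
    rw [Finset.sum_range_succ]
    have e : 2 ^ (a + (m + 1)) = 2 ^ (a + m) + 2 ^ (a + m) := by
      rw [← add_assoc, pow_succ]
      ring
    omega

/-- Table with the two entries `(false, M_f)`, `(false, M_g)` (constant, `lin_const`); for
`s = s0 n, s0 n + 1, ...` run `jj_spec` until one of them has halted, print its answer. -/
theorem dtime_min {f g : ℕ → ℕ} {A : Set (List Bool)} (hf : ∀ n, n ≤ f n) (hg : ∀ n, n ≤ g n)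
    (h : DTIME f A) (h' : DTIME g A) : DTIME (fun n => min (f n) (g n)) A := by
  classical
  obtain ⟨pf, cf, hpf⟩ := h
  obtain ⟨pg, cg, hpg⟩ := h'
  obtain ⟨L, hL⟩ : ∃ L : List Entry, L = [(false, pf), (false, pg)] := ⟨_, rfl⟩
  obtain ⟨pr, κ0, hread⟩ := read_input 100 le_rfl
  obtain ⟨κ1, htab⟩ := lin_const (encE L)
  obtain ⟨pt, htab⟩ := htab 10 101 le_rfl (by norm_num)
  obtain ⟨pp, κ2, hprep⟩ := prep_spec
  obtain ⟨κ3, hjj⟩ := jj_spec
  obtain ⟨pj, hjj⟩ := hjj 10 le_rfl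
  obtain ⟨r, rest, κ, hcomp⟩ := compile_param
    (.seq pr (.seq pt (.seq pp (.seq dMinInit (.seq (.whl 102 (.seq pj dMinRest)) (.print 103))))))
    100
  refine ⟨Instr.const r ((0 : ℕ) : ℤ) :: rest,
    κ * (κ0 + κ1 + κ2 + 6 + 6 + 2 + 1 + 2 * (4 * κ3 + 11) * (8 * (cf + cg) + 7)), ?_⟩
  intro x
  obtain ⟨n, hn⟩ : ∃ n, n = x.length := ⟨_, rfl⟩
  obtain ⟨tf, htf, hRf⟩ := hpf x
  obtain ⟨tg, htg, hRg⟩ := hpg x
  obtain ⟨ans, hans⟩ : ∃ ans : ℤ, ans = if x ∈ A then 1 else 0 := ⟨_, rfl⟩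
  rw [← hans] at hRf hRg
  have hL2 : L.length = 2 := by rw [hL]; rfl
  -- the events
  have hev0 : ∀ s, evt L x 0 s = true ↔ 1 ≤ s ∧ tf ≤ 2 ^ (s - 1) := by
    intro s
    have e : evt L x 0 s = decide (0 + 1 ≤ s ∧ Halted pf (conf pf x (2 ^ (s - (0 + 1))))) := by
      rw [hL]
      rfl
    rw [e, decide_eq_true_iff, zero_add, dMin_halted hRf]
  have hev1 : ∀ s, evt L x 1 s = true ↔ 2 ≤ s ∧ tg ≤ 2 ^ (s - 2) := by
    intro s
    have e : evt L x 1 s = decide (1 + 1 ≤ s ∧ Halted pg (conf pg x (2 ^ (s - (1 + 1))))) := by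
      rw [hL]
      rfl
    rw [e, decide_eq_true_iff, dMin_halted hRg]
  have hone : ∀ o : ℤ, o = ans → (if decide ([o] = [(1 : ℤ)]) = true then (1 : ℤ) else 0) = ans := by
    intro o ho
    rw [ho, hans]
    by_cases hx : x ∈ A
    · rw [if_pos hx]
      simp
    · rw [if_neg hx]
      simp
  have hone0 : ∀ s, evt L x 0 s = true → (if one L x 0 s = true then (1 : ℤ) else 0) = ans := by
    intro s hs
    have e : one L x 0 s = decide ((conf pf x (2 ^ (s - (0 + 1)))).out = [1]) := by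
      rw [hL]
      rfl
    rw [e, dMin_conf hRf (by simpa using ((hev0 s).1 hs).2), hRf.2.2]
    exact hone ans rfl
  have hone1 : ∀ s, evt L x 1 s = true → (if one L x 1 s = true then (1 : ℤ) else 0) = ans := by
    intro s hs
    have e : one L x 1 s = decide ((conf pg x (2 ^ (s - (1 + 1)))).out = [1]) := by
      rw [hL]
      rfl
    rw [e, dMin_conf hRg ((hev1 s).1 hs).2, hRg.2.2]
    exact hone ans rfl
  -- the number of rounds
  have hex : ∃ d, evt L x 0 (s0 n + d) = true ∨ evt L x 1 (s0 n + d) = true := by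
    refine ⟨tf + 1, Or.inl ((hev0 _).2 ⟨by omega, ?_⟩)⟩
    have h1 : tf < 2 ^ tf := Nat.lt_two_pow_self
    have h2 : 2 ^ tf ≤ 2 ^ (s0 n + (tf + 1) - 1) := Nat.pow_le_pow_right (by norm_num) (by omega)
    exact (h1.le).trans h2
  obtain ⟨d, hd⟩ : ∃ d, d = Nat.find hex := ⟨_, rfl⟩
  have hdspec : evt L x 0 (s0 n + d) = true ∨ evt L x 1 (s0 n + d) = true := hd ▸ Nat.find_spec hex
  have hdmin : ∀ e < d, ¬ (evt L x 0 (s0 n + e) = true ∨ evt L x 1 (s0 n + e) = true) := by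
    intro e he
    rw [hd] at he
    exact Nat.find_min hex he
  -- bound of the time
  have hbound : 2 ^ (s0 n + d) ≤ 2 * n + 5 + 8 * min tf tg := by
    rcases Nat.eq_zero_or_pos d with hd0 | hdpos
    · rw [hd0, add_zero]
      have := two_pow_s0_le n
      omega
    · have h1 := hdmin (d - 1) (by omega)
      rw [not_or, hev0, hev1] at h1
      obtain ⟨h1, h2⟩ := h1
      have h3 : 2 ^ (s0 n + d) ≤ 2 * n + 5 + 8 * tf := by
        by_cases h4 : s0 n + d ≤ 1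
        · have : 2 ^ (s0 n + d) ≤ 2 ^ 1 := Nat.pow_le_pow_right (by norm_num) h4
          omega
        · have h5 : ¬ tf ≤ 2 ^ (s0 n + (d - 1) - 1) := fun h5 => h1 ⟨by omega, h5⟩
          have h6 : 2 ^ (s0 n + d) = 4 * 2 ^ (s0 n + (d - 1) - 1) := by
            rw [show s0 n + d = (s0 n + (d - 1) - 1) + 2 by omega, pow_add]
            ring
          omega
      have h4 : 2 ^ (s0 n + d) ≤ 2 * n + 5 + 8 * tg := by
        by_cases h4 : s0 n + d ≤ 2
        · have : 2 ^ (s0 n + d) ≤ 2 ^ 2 := Nat.pow_le_pow_right (by norm_num) h4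
          omega
        · have h5 : ¬ tg ≤ 2 ^ (s0 n + (d - 1) - 2) := fun h5 => h2 ⟨by omega, h5⟩
          have h6 : 2 ^ (s0 n + d) = 8 * 2 ^ (s0 n + (d - 1) - 2) := by
            rw [show s0 n + d = (s0 n + (d - 1) - 2) + 3 by omega, pow_add]
            ring
          omega
      rcases min_choice tf tg with h5 | h5
      · rw [h5]; exact h3
      · rw [h5]; exact h4
  -- run the program
  obtain ⟨σ1, q1, env1, out1, inp1, -, v1, a1⟩ := hread x 0
  obtain ⟨σ2, q2, env2, st2, -, fr2⟩ := htab x σ1 env1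
  obtain ⟨σ3, q3, env3, v43, -, -, fr3⟩ := hprep x σ2 env2
  obtain ⟨σ4, q4, same4, v41, v42, v102⟩ := dMin_init σ3 (s0 x.length) v43
  have st4 : StoredAt σ4 10 0 (encE L) := by
    intro i hi
    rw [same4.a, fr3.a 10 (by simp)]
    exact st2 i hi
  have out4 : σ4.out = [] := by
    rw [same4.out, fr3.out, fr2.out, out1]
  rw [← hn] at v41 v42 q4
  obtain ⟨σ5, q5, hI⟩ := Reach.loop (v := 102) (s := .seq pj dMinRest) (d + 1)
    (fun j ρ => Env ρ x ∧ StoredAt ρ 10 0 (encE L) ∧ ρ.out = [] ∧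
      (j ≤ d → ρ.v 102 = 1 ∧ ρ.v 41 = ((s0 n + j : ℕ) : ℤ) ∧ ρ.v 42 = 2 ^ (s0 n + j)) ∧
      (¬ j ≤ d → ρ.v 102 = 0 ∧ ρ.v 103 = ans))
    (fun j => κ3 * (2 ^ (s0 n + j) + 3 * (s0 n + j + 1)) + 10)
    (fun j hj ρ hρ => by
      rw [(hρ.2.2.2.1 (by omega)).1]
      norm_num)
    (fun ρ hρ => by
      rw [(hρ.2.2.2.2 (by omega)).1]
      norm_num)
    (fun j hj ρ hρ => by
      obtain ⟨b1, b2, b3, b4, -⟩ := hρ
      obtain ⟨b4, b5, b6⟩ := b4 (by omega)
      obtain ⟨τ, w1, w2, w3, w4, w5⟩ := hjj x (s0 n + j) ρ L b1 b5 b6 b2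
      rw [hL2] at w1 w3 w4
      obtain ⟨τ', z1, z2, z3, z4, z5⟩ := dMin_rest τ
      have e0 := w3 0 (by norm_num)
      have e1 := w3 1 (by norm_num)
      refine ⟨τ', (w1.seq z1).mono (by norm_num), z2.env w2, ?_, ?_, ?_, ?_⟩
      · intro i hi
        rw [z2.a, w5.a 10 (by simp [LA])]
        exact b2 i hi
      · rw [z2.out, w5.out, b3]
      · intro hjd
        have hno := hdmin j (by omega)
        rw [not_or] at hno
        have c0 : ¬ 0 < τ.a 4 0 := by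
          rw [e0, if_neg hno.1]
          norm_num
        have c1 : ¬ 0 < τ.a 4 1 := by
          rw [e1, if_neg hno.2]
          norm_num
        obtain ⟨y1, y2, y3⟩ := z5 c0 c1
        refine ⟨?_, ?_, ?_⟩
        · rw [y1, w5.v 102 (by simp [LV]), b4]
        · rw [y2, w5.v 41 (by simp [LV]), b5]
          push_cast
          ring
        · rw [y3, w5.v 42 (by simp [LV]), b6, ← add_assoc, pow_succ]
          ring
      · intro hjd
        have hjd' : j = d := by omega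
        subst hjd'
        by_cases c0 : evt L x 0 (s0 n + j) = true
        · have c0' : 0 < τ.a 4 0 := by
            rw [e0, if_pos c0]
            norm_num
          obtain ⟨y1, y2⟩ := z3 c0'
          refine ⟨y1, ?_⟩
          rw [y2, w4 0 (by norm_num) c0]
          exact hone0 _ c0
        · have c0' : ¬ 0 < τ.a 4 0 := by
            rw [e0, if_neg c0]
            norm_num
          have c1 := hdspec.resolve_left c0
          have c1' : 0 < τ.a 4 1 := by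
            rw [e1, if_pos c1]
            norm_num
          obtain ⟨y1, y2⟩ := z4 c0' c1'
          refine ⟨y1, ?_⟩
          rw [y2, w4 1 (by norm_num) c1]
          exact hone1 _ c1)
    σ4 ⟨same4.env env3, st4, out4, fun _ => ⟨v102, by simpa using v41, by simpa using v42⟩,
      fun h => absurd (Nat.zero_le d) h⟩
  obtain ⟨b1, b2, b3, -, b4⟩ := hI
  obtain ⟨b4, b5⟩ := b4 (by omega)
  have q6 : Reach (.print 103) σ5 1 { σ5 with out := σ5.out ++ [σ5.v 103] } :=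
    dMin_prim (Big.print σ5 103)
  obtain ⟨c, hc, hbig⟩ := q1.seq (q2.seq (q3.seq (q4.seq (q5.seq q6))))
  have hini : St.ini x 100 (0 : ℤ) = St.ini x 100 ((0 : ℕ) : ℤ) := by rw [Nat.cast_zero]
  rw [hini] at hbig
  obtain ⟨t, hct, htc, hruns⟩ := hcomp 0 x c _ hbig
  refine ⟨t, ?_, ?_⟩
  · -- the time bound
    rw [← hn] at hc htf htg ⊢
    have hmin : n ≤ min (f n) (g n) := le_min (hf n) (hg n)
    obtain ⟨m, hm⟩ : ∃ m, m = min (f n) (g n) := ⟨_, rfl⟩
    rw [← hm] at hmin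
    have hmt : min tf tg ≤ (cf + cg) * (m + 1) := by
      rcases min_choice (f n) (g n) with h1 | h1
      · rw [h1] at hm
        rw [hm]
        refine (min_le_left _ _).trans (htf.trans ?_)
        exact Nat.mul_le_mul_right _ (Nat.le_add_right _ _)
      · rw [h1] at hm
        rw [hm]
        refine (min_le_right _ _).trans (htg.trans ?_)
        exact Nat.mul_le_mul_right _ (Nat.le_add_left _ _)
    have hT : 2 ^ (s0 n + d) ≤ (8 * (cf + cg) + 7) * (m + 1) := by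
      have h1 : (8 * (cf + cg) + 7) * (m + 1) = 8 * ((cf + cg) * (m + 1)) + 7 * (m + 1) := by ring
      omega
    have hsum : ∑ j ∈ Finset.range (d + 1), (κ3 * (2 ^ (s0 n + j) + 3 * (s0 n + j + 1)) + 10 + 1) ≤
        (4 * κ3 + 11) * (2 * 2 ^ (s0 n + d)) := by
      have h1 : ∀ j ∈ Finset.range (d + 1), κ3 * (2 ^ (s0 n + j) + 3 * (s0 n + j + 1)) + 10 + 1 ≤
          (4 * κ3 + 11) * 2 ^ (s0 n + j) := by
        intro j _
        have h2 : s0 n + j + 1 ≤ 2 ^ (s0 n + j) := Nat.lt_two_pow_self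
        have h3 : κ3 * (2 ^ (s0 n + j) + 3 * (s0 n + j + 1)) ≤ κ3 * (4 * 2 ^ (s0 n + j)) :=
          Nat.mul_le_mul_left _ (by omega)
        have h4 : (4 * κ3 + 11) * 2 ^ (s0 n + j) = κ3 * (4 * 2 ^ (s0 n + j)) + 11 * 2 ^ (s0 n + j) := by
          ring
        omega
      refine (Finset.sum_le_sum h1).trans ?_
      rw [← Finset.mul_sum]
      refine Nat.mul_le_mul_left _ ((dMin_sum (s0 n) (d + 1)).trans ?_)
      rw [← add_assoc, pow_succ]
      omega
    have hs0 : s0 n ≤ 2 * n + 1 := (Nat.lt_two_pow_self).le.trans (two_pow_s0_le n)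
    have hcc : c + 1 ≤ (κ0 + κ1 + κ2 + 6 + 6 + 2 + 1 + 2 * (4 * κ3 + 11) * (8 * (cf + cg) + 7)) * (m + 1) := by
      have h1 : (4 * κ3 + 11) * (2 * 2 ^ (s0 n + d)) ≤
          (4 * κ3 + 11) * (2 * ((8 * (cf + cg) + 7) * (m + 1))) :=
        Nat.mul_le_mul_left _ (Nat.mul_le_mul_left _ hT)
      have h2 : (κ0 + κ1 + κ2 + 6 + 6 + 2 + 1 + 2 * (4 * κ3 + 11) * (8 * (cf + cg) + 7)) * (m + 1) =
          κ0 * (m + 1) + κ1 * (m + 1) + κ2 * (m + 1) + 15 * (m + 1) +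
            (4 * κ3 + 11) * (2 * ((8 * (cf + cg) + 7) * (m + 1))) := by ring
      have h3 : κ0 * (n + 1) ≤ κ0 * (m + 1) := Nat.mul_le_mul_left _ (by omega)
      have h4 : κ1 * (n + 1) ≤ κ1 * (m + 1) := Nat.mul_le_mul_left _ (by omega)
      have h5 : κ2 * (n + 1) ≤ κ2 * (m + 1) := Nat.mul_le_mul_left _ (by omega)
      omega
    calc t ≤ κ * (c + 1) := htc
      _ ≤ κ * ((κ0 + κ1 + κ2 + 6 + 6 + 2 + 1 + 2 * (4 * κ3 + 11) * (8 * (cf + cg) + 7)) * (m + 1)) :=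
        Nat.mul_le_mul_left _ hcc
      _ = κ * (κ0 + κ1 + κ2 + 6 + 6 + 2 + 1 + 2 * (4 * κ3 + 11) * (8 * (cf + cg) + 7)) * (m + 1) := by
        ring
      _ = _ := by rw [hm]
  · have e : ({ σ5 with out := σ5.out ++ [σ5.v 103] } : St).out = [if x ∈ A then 1 else 0] := by
      change σ5.out ++ [σ5.v 103] = _
      rw [b3, b5, hans]
      rfl
    rw [e] at hruns
    exact hruns

end Pool.Agent.H71.CT
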