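import Pool.Agent.H71.CT.InterpStep

/-!
Specification of the interpreter.
-/

namespace Pool.Agent.H71.CT

private theorem Interp_rc (σ : St) (v : ℕ) (c : ℤ) : Reach (.const v c) σ 1 (σ.sv v c) :=
  ⟨1, le_rfl, Big.const σ v c⟩

private theorem Interp_ra (σ : St) (v a b : ℕ) :
    Reach (.add v a b) σ 1 (σ.sv v (σ.v a + σ.v b)) :=
  ⟨1, le_rfl, Big.add σ v a b⟩

private theorem Interp_rs (σ : St) (v a b : ℕ) :
    Reach (.sub v a b) σ 1 (σ.sv v (σ.v a - σ.v b)) :=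
  ⟨1, le_rfl, Big.sub σ v a b⟩

private theorem Interp_sv_v (σ : St) (v w : ℕ) (z : ℤ) :
    (σ.sv v z).v w = if w = v then z else σ.v w := by
  simp [St.sv, Function.update_apply]

private theorem Interp_sv_a (σ : St) (v : ℕ) (z : ℤ) : (σ.sv v z).a = σ.a := rfl

private theorem Interp_fr_sv {VS AS : Set ℕ} (σ : St) {v : ℕ} (hv : v ∈ VS) (z : ℤ) :
    Fr VS AS σ (σ.sv v z) := by
  refine ⟨fun w hw => ?_, fun _ _ => rfl, rfl, rfl⟩
  rw [Interp_sv_v, if_neg]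
  rintro rfl
  exact hw hv

private theorem Interp_setrun (σ : St) : ∃ τ, Reach setrun σ 5 τ ∧
    (∀ v, v ≠ 18 → v ≠ 19 → τ.v v = σ.v v) ∧ τ.a = σ.a ∧ τ.inp = σ.inp ∧ τ.out = σ.out ∧
    (0 < τ.v 19 ↔ 0 < σ.v 2 - σ.v 9 ∧ 0 < σ.v 3) := by
  obtain ⟨σ1, hσ1⟩ : ∃ s, s = σ.sv 19 0 := ⟨_, rfl⟩
  obtain ⟨σ2, hσ2⟩ : ∃ s, s = σ1.sv 18 (σ1.v 2 - σ1.v 9) := ⟨_, rfl⟩
  have e18 : σ2.v 18 = σ.v 2 - σ.v 9 := by simp [hσ2, hσ1, Interp_sv_v]
  have e3 : σ2.v 3 = σ.v 3 := by simp [hσ2, hσ1, Interp_sv_v]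
  have e19 : σ2.v 19 = 0 := by simp [hσ2, hσ1, Interp_sv_v]
  have hv : ∀ v, v ≠ 18 → v ≠ 19 → σ2.v v = σ.v v := by
    intro v h h'
    simp [hσ2, hσ1, Interp_sv_v, h, h']
  have ha : σ2.a = σ.a := by rw [hσ2, hσ1]; rfl
  have hi : σ2.inp = σ.inp := by rw [hσ2, hσ1]; rfl
  have ho : σ2.out = σ.out := by rw [hσ2, hσ1]; rfl
  have hpre : ∀ (C : ℕ) (τ : St) (s : Stmt), C ≤ 3 → Reach s σ2 C τ →
      Reach (blk [.const 19 0, .sub 18 2 9, s]) σ 5 τ := by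
    intro C τ s hC h
    have r1 := Interp_rc σ 19 0
    have r2 := Interp_rs σ1 18 2 9
    rw [← hσ1] at r1
    rw [← hσ2] at r2
    exact (r1.seq (r2.seq (h.seq (Reach.skip _)))).mono (by omega)
  by_cases c1 : 0 < σ.v 2 - σ.v 9
  · by_cases c2 : 0 < σ.v 3
    · refine ⟨σ2.sv 19 1, hpre 3 _ _ le_rfl (Reach.ite_pos (by rw [e18]; exact c1)
        (Reach.ite_pos (by rw [e3]; exact c2) (Interp_rc σ2 19 1))), ?_, ?_, ?_, ?_, ?_⟩
      · intro v h h'
        rw [Interp_sv_v, if_neg h']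
        exact hv v h h'
      · exact ha
      · exact hi
      · exact ho
      · rw [Interp_sv_v, if_pos rfl]
        exact ⟨fun _ => ⟨c1, c2⟩, fun _ => by norm_num⟩
    · refine ⟨σ2, hpre 2 _ _ (by omega) (Reach.ite_pos (by rw [e18]; exact c1)
        (Reach.ite_neg (by rw [e3]; exact c2) (Reach.skip σ2))), hv, ha, hi, ho, ?_⟩
      rw [e19]
      exact ⟨fun h => absurd h (lt_irrefl _), fun h => absurd h.2 c2⟩
  · refine ⟨σ2, hpre 1 _ _ (by omega) (Reach.ite_neg (by rw [e18]; exact c1)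
      (Reach.skip σ2)), hv, ha, hi, ho, ?_⟩
    rw [e19]
    exact ⟨fun h => absurd h (lt_irrefl _), fun h => absurd h.1 c1⟩

private theorem Interp_conf_succ (p : Prog) (y : List Bool) (j : ℕ) :
    conf p y (j + 1) = step p (conf p y j) := by
  unfold conf
  rw [Function.iterate_succ_apply']

private theorem Interp_conf_stop (p : Prog) (y : List Bool) (n : ℕ)
    (h : ¬ (conf p y n).pc < p.length) (d : ℕ) : conf p y (n + d) = conf p y n := by
  induction d with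
  | zero => rfl
  | succ d ih =>
    rw [← Nat.add_assoc, Interp_conf_succ, ih]
    unfold step
    rw [List.getElem?_eq_none (not_lt.1 h)]

/-- the loop invariant -/
private structure Interp_I (p : Prog) (y : List Bool) (B : ℕ) (σ : St) (j : ℕ) (τ : St) : Prop where
  fr : Fr iV iA σ τ
  st : Stamps τ
  bu : τ.v 3 = ((B - j : ℕ) : ℤ)
  sim : SimR y τ (conf p y j)
  run : 0 < τ.v 19 ↔ (conf p y j).pc < p.length ∧ 0 < B - j

private theorem Interp_keep {ca cb : ℕ} (hca : 4 ≤ ca) {p : Prog} {y : List Bool} {σ τ : St}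
    (h1 : σ.v 1 = cb) (h2 : σ.v 2 = p.length) (hst : StoredAt σ ca cb (ecs p)) (hin : InpAt σ y)
    (h : Fr iV iA σ τ) :
    τ.v 1 = cb ∧ τ.v 2 = p.length ∧ StoredAt τ ca cb (ecs p) ∧ InpAt τ y := by
  have k1 : (1 : ℕ) ∉ iV := by simp [iV]
  have k2 : (2 : ℕ) ∉ iV := by simp [iV]
  have k4 : (4 : ℕ) ∉ iV := by simp [iV]
  have k5 : (5 : ℕ) ∉ iV := by simp [iV]
  have k0 : (0 : ℕ) ∉ iA := by simp [iA]
  have kc : ca ∉ iA := by
    simp only [iA, Set.mem_insert_iff, Set.mem_singleton_iff]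
    omega
  refine ⟨by rw [h.v 1 k1, h1], by rw [h.v 2 k2, h2], ?_, ?_⟩
  · intro i hi
    rw [h.a ca kc]
    exact hst i hi
  · unfold InpAt
    rw [h.v 5 k5, h.v 4 k4, h.a 0 k0]
    exact hin

open Classical in
/-- The interpreter simulates `B` steps of `p` on the input `y` (or until `p` halts). -/
theorem interp_spec : ∃ κ : ℕ, ∀ (ca : ℕ), 4 ≤ ca → ∀ (p : Prog) (y : List Bool) (B cb : ℕ)
    (σ : St), σ.v 1 = cb → σ.v 2 = p.length → σ.v 3 = B → StoredAt σ ca cb (ecs p) →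
    InpAt σ y → Stamps σ →
    ∃ τ, Reach (interp ca) σ (κ * (B + 1)) τ ∧ Fr iV iA σ τ ∧ Stamps τ ∧
      τ.v 6 = (if Halted p (conf p y B) then 1 else 0) ∧
      τ.v 7 = (conf p y B).out.length ∧
      ∀ i (h : i < (conf p y B).out.length), τ.a 3 i = (conf p y B).out[i] := by
  obtain ⟨κ, hstep⟩ := istep_spec
  refine ⟨κ + 20, ?_⟩
  intro ca hca p y B cb σ h1 h2 h3 hst hin hsta
  -- the initial part
  obtain ⟨σ5, hσ5⟩ : ∃ s, s = ((((σ.sv 39 1).sv 8 (σ.v 8 + 1)).sv 9 0).sv 10 0).sv 7 0 := ⟨_, rfl⟩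
  have hfr5 : Fr iV iA σ σ5 := by
    rw [hσ5]
    refine ((((Interp_fr_sv σ ?_ _).trans (Interp_fr_sv _ ?_ _)).trans
      (Interp_fr_sv _ ?_ _)).trans (Interp_fr_sv _ ?_ _)).trans (Interp_fr_sv _ ?_ _) <;>
    simp [iV]
  obtain ⟨σ6, r6, hv6, ha6, hi6, ho6, hrun6⟩ := Interp_setrun σ5
  have hfr56 : Fr iV iA σ5 σ6 := by
    refine ⟨fun v hv => hv6 v ?_ ?_, fun a _ => by rw [ha6], hi6, ho6⟩
    · rintro rfl
      exact hv (by simp [iV])
    · rintro rfl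
      exact hv (by simp [iV])
  have hfr6 : Fr iV iA σ σ6 := hfr5.trans hfr56
  have ha5 : σ5.a = σ.a := by rw [hσ5]; rfl
  have v8 : σ5.v 8 = σ.v 8 + 1 := by simp [hσ5, Interp_sv_v]
  have v9 : σ5.v 9 = 0 := by simp [hσ5, Interp_sv_v]
  have v10 : σ5.v 10 = 0 := by simp [hσ5, Interp_sv_v]
  have v7 : σ5.v 7 = 0 := by simp [hσ5, Interp_sv_v]
  have v3 : σ5.v 3 = B := by simp [hσ5, Interp_sv_v, h3]
  have v2 : σ5.v 2 = p.length := by simp [hσ5, Interp_sv_v, h2]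
  have w8 : σ6.v 8 = σ.v 8 + 1 := by rw [hv6 8 (by norm_num) (by norm_num), v8]
  have hI0 : Interp_I p y B σ 0 σ6 := by
    refine ⟨hfr6, ⟨?_, ?_⟩, ?_, ⟨?_, ?_, ?_, ?_, ?_⟩, ?_⟩
    · rw [w8]
      have := hsta.1
      omega
    · intro i
      rw [w8, ha6, ha5]
      have := hsta.2 i
      omega
    · rw [hv6 3 (by norm_num) (by norm_num), v3, Nat.sub_zero]
    · rw [hv6 9 (by norm_num) (by norm_num), v9]
      rfl
    · intro i
      rw [w8, ha6, ha5, if_neg]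
      · rfl
      · have := hsta.2 i
        omega
    · refine ⟨0, ?_, Nat.zero_le _, rfl⟩
      rw [hv6 10 (by norm_num) (by norm_num), v10]
      rfl
    · rw [hv6 7 (by norm_num) (by norm_num), v7]
      rfl
    · intro i hi
      exact absurd hi (Nat.not_lt_zero _)
    · rw [hrun6, v2, v9, v3, Nat.sub_zero]
      have e : (conf p y 0).pc = 0 := rfl
      rw [e]
      constructor
      · rintro ⟨a, b⟩
        exact ⟨by omega, by omega⟩
      · rintro ⟨a, b⟩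
        exact ⟨by omega, by omega⟩
  -- number of rounds
  have hex : ∃ j, ¬ ((conf p y j).pc < p.length ∧ 0 < B - j) :=
    ⟨B, fun h => by have := h.2; omega⟩
  obtain ⟨n, hn⟩ : ∃ n, n = Nat.find hex := ⟨_, rfl⟩
  have hnot : ¬ ((conf p y n).pc < p.length ∧ 0 < B - n) := by
    rw [hn]; exact Nat.find_spec hex
  have hlt : ∀ j < n, (conf p y j).pc < p.length ∧ 0 < B - j := by
    intro j hj
    rw [hn] at hj
    exact not_not.1 (Nat.find_min hex hj)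
  have hnB : n ≤ B := by
    rw [hn]
    exact Nat.find_min' hex (fun h => by have := h.2; omega)
  have hBn : conf p y B = conf p y n := by
    by_cases hc : (conf p y n).pc < p.length
    · have : n = B := by
        have : ¬ (0 < B - n) := fun h => hnot ⟨hc, h⟩
        omega
      rw [this]
    · obtain ⟨d, rfl⟩ := Nat.exists_eq_add_of_le hnB
      exact Interp_conf_stop p y n hc d
  -- the loop
  obtain ⟨σ7, r7, hI7⟩ := Reach.loop (v := 19) (s := istep ca) n (Interp_I p y B σ) (fun _ => κ)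
    (fun j hj τ hτ => hτ.run.2 (hlt j hj)) (fun τ hτ h => hnot (hτ.run.1 h))
    (by
      intro j hj τ hτ
      obtain ⟨a1, a2, a3, a4⟩ := Interp_keep hca h1 h2 hst hin hτ.fr
      have hb : τ.v 3 = ((B - (j + 1) : ℕ) + 1 : ℕ) := by
        rw [hτ.bu]
        have := (hlt j hj).2
        have e : B - j = B - (j + 1) + 1 := by omega
        rw [e]
      obtain ⟨ρ, q1, q2, q3, _, q5, q6, q7⟩ := hstep ca hca p y (B - (j + 1)) cb τ (conf p y j)
        a1 a2 hb a3 a4 hτ.st (hlt j hj).1 hτ.sim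
      refine ⟨ρ, q1, hτ.fr.trans q2, q3, q5, ?_, ?_⟩
      · rw [Interp_conf_succ]
        exact q6
      · rw [Interp_conf_succ]
        exact q7)
    σ6 hI0
  -- the end
  obtain ⟨σ8, hσ8⟩ : ∃ s, s = σ7.sv 6 1 := ⟨_, rfl⟩
  obtain ⟨σ9, hσ9⟩ : ∃ s, s = σ8.sv 18 (σ8.v 2 - σ8.v 9) := ⟨_, rfl⟩
  have hfr79 : Fr iV iA σ7 σ9 := by
    rw [hσ9, hσ8]
    refine (Interp_fr_sv σ7 ?_ _).trans (Interp_fr_sv _ ?_ _) <;> simp [iV]
  have e18 : σ9.v 18 = σ7.v 2 - σ7.v 9 := by simp [hσ9, hσ8, Interp_sv_v]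
  have e6 : σ9.v 6 = 1 := by simp [hσ9, hσ8, Interp_sv_v]
  have hv9 : ∀ v, v ≠ 6 → v ≠ 18 → σ9.v v = σ7.v v := by
    intro v h h'
    simp [hσ9, hσ8, Interp_sv_v, h, h']
  have ha9 : σ9.a = σ7.a := by rw [hσ9, hσ8]; rfl
  have s2 : σ7.v 2 = p.length := (Interp_keep hca h1 h2 hst hin hI7.fr).2.1
  have s9 : σ7.v 9 = (conf p y n).pc := hI7.sim.pc
  have hcost : ∑ j ∈ Finset.range n, (κ + 1) = n * (κ + 1) := by
    rw [Finset.sum_const, Finset.card_range, smul_eq_mul]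
  have hreach : ∀ (C : ℕ) (τ : St), C ≤ 2 → Reach (.ite 18 (.const 6 0) .skip) σ9 C τ →
      Reach (interp ca) σ ((κ + 20) * (B + 1)) τ := by
    intro C τ hC h
    have q1 := Interp_rc σ 39 1
    have q2 := Interp_ra (σ.sv 39 1) 8 8 39
    have e : (σ.sv 39 1).v 8 + (σ.sv 39 1).v 39 = σ.v 8 + 1 := by simp [Interp_sv_v]
    rw [e] at q2
    have q3 := Interp_rc ((σ.sv 39 1).sv 8 (σ.v 8 + 1)) 9 0
    have q4 := Interp_rc (((σ.sv 39 1).sv 8 (σ.v 8 + 1)).sv 9 0) 10 0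
    have q5 := Interp_rc ((((σ.sv 39 1).sv 8 (σ.v 8 + 1)).sv 9 0).sv 10 0) 7 0
    rw [← hσ5] at q5
    have q8 := Interp_rc σ7 6 1
    rw [← hσ8] at q8
    have q9 := Interp_rs σ8 18 2 9
    rw [← hσ9] at q9
    have r := q1.seq (q2.seq (q3.seq (q4.seq (q5.seq (r6.seq (r7.seq (q8.seq (q9.seq
      (h.seq (Reach.skip τ))))))))))
    refine r.mono ?_
    rw [hcost]
    have : n * (κ + 1) ≤ B * (κ + 1) := Nat.mul_le_mul_right _ hnB
    nlinarith
  have hStamps : ∀ τ : St, (∀ v, v ≠ 6 → v ≠ 18 → τ.v v = σ7.v v) → τ.a = σ7.a → Stamps τ ∧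
      τ.v 7 = (conf p y B).out.length ∧
      ∀ i (h : i < (conf p y B).out.length), τ.a 3 i = (conf p y B).out[i] := by
    intro τ hv ha
    rw [hBn]
    refine ⟨⟨?_, ?_⟩, ?_, ?_⟩
    · rw [hv 8 (by norm_num) (by norm_num)]
      exact hI7.st.1
    · intro i
      rw [hv 8 (by norm_num) (by norm_num), ha]
      exact hI7.st.2 i
    · rw [hv 7 (by norm_num) (by norm_num)]
      exact hI7.sim.ocl
    · intro i hi
      rw [ha]
      exact hI7.sim.outp i hi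
  by_cases hh : Halted p (conf p y B)
  · have hc : ¬ (0 < σ9.v 18) := by
      rw [e18, s2, s9]
      rw [hBn] at hh
      unfold Halted at hh
      omega
    obtain ⟨b1, b2, b3⟩ := hStamps σ9 hv9 ha9
    refine ⟨σ9, hreach 1 σ9 (by omega) (Reach.ite_neg hc (Reach.skip σ9)),
      hI7.fr.trans hfr79, b1, ?_, b2, b3⟩
    rw [if_pos hh, e6]
  · have hc : 0 < σ9.v 18 := by
      rw [e18, s2, s9]
      rw [hBn] at hh
      unfold Halted at hh
      omega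
    obtain ⟨b1, b2, b3⟩ := hStamps (σ9.sv 6 0)
      (fun v h h' => by rw [Interp_sv_v, if_neg h]; exact hv9 v h h') ha9
    refine ⟨σ9.sv 6 0, hreach 2 _ le_rfl (Reach.ite_pos hc (Interp_rc σ9 6 0)),
      (hI7.fr.trans hfr79).trans (Interp_fr_sv σ9 (by simp [iV]) 0), b1, ?_, b2, b3⟩
    rw [if_neg hh, Interp_sv_v, if_pos rfl]

end Pool.Agent.H71.CT
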