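import Pool.Agent.H71.CT.Entries
import Pool.Agent.H71.CT.Interp

/-! Running all entries of a table with geometrically decreasing budgets. -/

namespace Pool.Agent.H71.CT

/-! ### elementary rules -/

private theorem JJ_rc (σ : St) (v : ℕ) (c : ℤ) : Reach (.const v c) σ 1 (σ.sv v c) :=
  ⟨1, le_rfl, Big.const σ v c⟩

private theorem JJ_rm (σ : St) (v a : ℕ) : Reach (.mov v a) σ 1 (σ.sv v (σ.v a)) :=
  ⟨1, le_rfl, Big.mov σ v a⟩

private theorem JJ_ra (σ : St) (v a b : ℕ) : Reach (.add v a b) σ 1 (σ.sv v (σ.v a + σ.v b)) :=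
  ⟨1, le_rfl, Big.add σ v a b⟩

private theorem JJ_rs (σ : St) (v a b : ℕ) : Reach (.sub v a b) σ 1 (σ.sv v (σ.v a - σ.v b)) :=
  ⟨1, le_rfl, Big.sub σ v a b⟩

private theorem JJ_rg (σ : St) (v a i : ℕ) :
    Reach (.get v a i) σ 1 (σ.sv v (σ.a a (σ.v i).toNat)) :=
  ⟨1, le_rfl, Big.get σ v a i⟩

private theorem JJ_rp (σ : St) (a i v : ℕ) :
    Reach (.put a i v) σ 1 (σ.sa a (σ.v i).toNat (σ.v v)) :=
  ⟨1, le_rfl, Big.put σ a i v⟩

private theorem JJ_sv_v (σ : St) (v w : ℕ) (z : ℤ) :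
    (σ.sv v z).v w = if w = v then z else σ.v w := by
  simp [St.sv, Function.update_apply]

private theorem JJ_sv_a (σ : St) (v : ℕ) (z : ℤ) : (σ.sv v z).a = σ.a := rfl

private theorem JJ_sa_v (σ : St) (a i : ℕ) (z : ℤ) : (σ.sa a i z).v = σ.v := rfl

private theorem JJ_sa_a (σ : St) (a i : ℕ) (z : ℤ) (b k : ℕ) :
    (σ.sa a i z).a b k = if b = a ∧ k = i then z else σ.a b k := by
  by_cases hb : b = a
  · subst hb
    by_cases hk : k = i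
    · subst hk
      simp [St.sa]
    · simp [St.sa, hk]
  · simp [St.sa, hb]

private theorem JJ_sa_ne (σ : St) (a i : ℕ) (z : ℤ) (b : ℕ) (h : b ≠ a) :
    (σ.sa a i z).a b = σ.a b := by
  funext k
  rw [JJ_sa_a, if_neg (fun h' => h h'.1)]

/-! ### doubling -/

private theorem JJ_dbl (k : ℕ) : ∀ σ : St, σ.v 48 = k → σ.v 47 = 1 →
    ∃ τ, Reach (.whl 48 (blk [.add 3 3 3, .sub 48 48 47])) σ (3 * k + 1) τ ∧
      τ.v 3 = 2 ^ k * σ.v 3 ∧ (∀ v, v ≠ 3 → v ≠ 48 → τ.v v = σ.v v) ∧ τ.a = σ.a ∧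
      τ.inp = σ.inp ∧ τ.out = σ.out := by
  induction k with
  | zero =>
    intro σ h _
    exact ⟨σ, (Reach.while_end (by rw [h]; simp)).mono (by omega), by simp, fun _ _ _ => rfl,
      rfl, rfl, rfl⟩
  | succ k ih =>
    intro σ h h1
    have e1 := JJ_ra σ 3 3 3
    obtain ⟨σ1, hσ1⟩ : ∃ s, s = σ.sv 3 (σ.v 3 + σ.v 3) := ⟨_, rfl⟩
    have e2 := JJ_rs σ1 48 48 47
    obtain ⟨σ2, hσ2⟩ : ∃ s, s = σ1.sv 48 (σ1.v 48 - σ1.v 47) := ⟨_, rfl⟩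
    rw [← hσ1] at e1
    rw [← hσ2] at e2
    have a48 : σ2.v 48 = k := by simp [hσ2, hσ1, JJ_sv_v, h, h1]
    have a47 : σ2.v 47 = 1 := by simp [hσ2, hσ1, JJ_sv_v, h1]
    have a3 : σ2.v 3 = σ.v 3 + σ.v 3 := by simp [hσ2, hσ1, JJ_sv_v]
    obtain ⟨τ, r, t3, tv, ta, ti, tout⟩ := ih σ2 a48 a47
    refine ⟨τ, (Reach.while_step (by rw [h]; positivity) (e1.seq (e2.seq (Reach.skip σ2)))
      r).mono (by omega), ?_, ?_, ?_, ?_, ?_⟩
    · rw [t3, a3]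
      ring
    · intro v h3 h48
      rw [tv v h3 h48]
      simp [hσ2, hσ1, JJ_sv_v, h3, h48]
    · rw [ta, hσ2, hσ1]; rfl
    · rw [ti, hσ2, hσ1]; rfl
    · rw [tout, hσ2, hσ1]; rfl

/-! ### reading off the result of one run -/

private def JJ_mid : Stmt :=
  .ite 7 (.ite 52 .skip (blk [.const 53 0, .get 54 3 53, .sub 55 54 47,
    .ite 54 (.ite 55 .skip (.const 51 1)) .skip])) .skip

private theorem JJ_mid_spec (σ : St) (m : ℕ) (h7 : σ.v 7 = m) (h52 : σ.v 52 = (m : ℤ) - 1)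
    (h51 : σ.v 51 = 0) (h47 : σ.v 47 = 1) :
    ∃ τ, Reach JJ_mid σ 8 τ ∧ τ.v 51 = (if m = 1 ∧ σ.a 3 0 = 1 then 1 else 0) ∧
      (∀ v, v < 51 ∨ 55 < v → τ.v v = σ.v v) ∧ τ.a = σ.a ∧ τ.inp = σ.inp ∧ τ.out = σ.out := by
  rcases Nat.lt_trichotomy m 1 with hm | hm | hm
  · have hm0 : m = 0 := by omega
    refine ⟨σ, (Reach.ite_neg (by rw [h7, hm0]; simp) (Reach.skip σ)).mono (by omega), ?_,
      fun _ _ => rfl, rfl, rfl, rfl⟩
    rw [h51, if_neg]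
    rintro ⟨h, _⟩
    omega
  · obtain ⟨σ1, hσ1⟩ : ∃ s, s = σ.sv 53 0 := ⟨_, rfl⟩
    have e1 := JJ_rc σ 53 0
    rw [← hσ1] at e1
    have e2 := JJ_rg σ1 54 3 53
    obtain ⟨σ2, hσ2⟩ : ∃ s, s = σ1.sv 54 (σ1.a 3 (σ1.v 53).toNat) := ⟨_, rfl⟩
    rw [← hσ2] at e2
    have e3 := JJ_rs σ2 55 54 47
    obtain ⟨σ3, hσ3⟩ : ∃ s, s = σ2.sv 55 (σ2.v 54 - σ2.v 47) := ⟨_, rfl⟩
    rw [← hσ3] at e3
    have a54 : σ3.v 54 = σ.a 3 0 := by simp [hσ3, hσ2, hσ1, JJ_sv_v, JJ_sv_a]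
    have a55 : σ3.v 55 = σ.a 3 0 - 1 := by simp [hσ3, hσ2, hσ1, JJ_sv_v, JJ_sv_a, h47]
    have a51 : σ3.v 51 = 0 := by simp [hσ3, hσ2, hσ1, JJ_sv_v, h51]
    have av : ∀ v, v < 51 ∨ 55 < v → σ3.v v = σ.v v := by
      intro v hv
      have k3 : v ≠ 53 := by omega
      have k4 : v ≠ 54 := by omega
      have k5 : v ≠ 55 := by omega
      simp [hσ3, hσ2, hσ1, JJ_sv_v, k3, k4, k5]
    have aa : σ3.a = σ.a := by rw [hσ3, hσ2, hσ1]; rfl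
    have ai : σ3.inp = σ.inp := by rw [hσ3, hσ2, hσ1]; rfl
    have ao : σ3.out = σ.out := by rw [hσ3, hσ2, hσ1]; rfl
    have hpre : ∀ (C : ℕ) (τ : St), C ≤ 3 →
        Reach (.ite 54 (.ite 55 .skip (.const 51 1)) .skip) σ3 C τ → Reach JJ_mid σ 8 τ := by
      intro C τ hC h
      have r := e1.seq (e2.seq (e3.seq (h.seq (Reach.skip τ))))
      exact (Reach.ite_pos (by rw [h7, hm]; simp) (Reach.ite_neg (by rw [h52, hm]; simp) r)).mono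
        (by omega)
    by_cases c1 : 0 < σ.a 3 0
    · by_cases c2 : 0 < σ.a 3 0 - 1
      · refine ⟨σ3, hpre 2 _ (by omega) (Reach.ite_pos (by rw [a54]; exact c1)
          (Reach.ite_pos (by rw [a55]; exact c2) (Reach.skip σ3))), ?_, av, aa, ai, ao⟩
        rw [a51, if_neg]
        rintro ⟨_, h⟩
        omega
      · refine ⟨σ3.sv 51 1, hpre 3 _ le_rfl (Reach.ite_pos (by rw [a54]; exact c1)
          (Reach.ite_neg (by rw [a55]; exact c2) (JJ_rc σ3 51 1))), ?_, ?_, aa, ai, ao⟩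
        · rw [JJ_sv_v, if_pos rfl, if_pos]
          exact ⟨hm, by omega⟩
        · intro v hv
          have k : v ≠ 51 := by omega
          rw [JJ_sv_v, if_neg k]
          exact av v hv
    · refine ⟨σ3, hpre 1 _ (by omega) (Reach.ite_neg (by rw [a54]; exact c1)
        (Reach.skip σ3)), ?_, av, aa, ai, ao⟩
      rw [a51, if_neg]
      rintro ⟨_, h⟩
      omega
  · refine ⟨σ, (Reach.ite_pos (by rw [h7]; omega) (Reach.ite_pos (by rw [h52]; omega)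
      (Reach.skip σ))).mono (by omega), ?_, fun _ _ => rfl, rfl, rfl, rfl⟩
    rw [h51, if_neg]
    rintro ⟨h, _⟩
    omega

private def JJ_chk : Stmt := blk [.put 4 43 6, .const 51 0, .sub 52 7 47, JJ_mid, .put 5 43 51]

private theorem JJ_chk_spec (σ : St) (j m : ℕ) (h43 : σ.v 43 = j) (h47 : σ.v 47 = 1)
    (h7 : σ.v 7 = m) :
    ∃ τ, Reach JJ_chk σ 12 τ ∧ (∀ v, v < 51 ∨ 55 < v → τ.v v = σ.v v) ∧
      (∀ a, a ≠ 4 → a ≠ 5 → τ.a a = σ.a a) ∧ (∀ i, i ≠ j → τ.a 4 i = σ.a 4 i) ∧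
      (∀ i, i ≠ j → τ.a 5 i = σ.a 5 i) ∧ τ.a 4 j = σ.v 6 ∧
      τ.a 5 j = (if m = 1 ∧ σ.a 3 0 = 1 then 1 else 0) ∧ τ.inp = σ.inp ∧ τ.out = σ.out := by
  have e1 := JJ_rp σ 4 43 6
  rw [h43, Int.toNat_natCast] at e1
  obtain ⟨σ1, hσ1⟩ : ∃ s, s = σ.sa 4 j (σ.v 6) := ⟨_, rfl⟩
  rw [← hσ1] at e1
  have e2 := JJ_rc σ1 51 0
  obtain ⟨σ2, hσ2⟩ : ∃ s, s = σ1.sv 51 0 := ⟨_, rfl⟩
  rw [← hσ2] at e2
  have e3 := JJ_rs σ2 52 7 47
  obtain ⟨σ3, hσ3⟩ : ∃ s, s = σ2.sv 52 (σ2.v 7 - σ2.v 47) := ⟨_, rfl⟩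
  rw [← hσ3] at e3
  have b7 : σ3.v 7 = m := by simp [hσ3, hσ2, hσ1, JJ_sv_v, JJ_sa_v, h7]
  have b52 : σ3.v 52 = (m : ℤ) - 1 := by simp [hσ3, hσ2, hσ1, JJ_sv_v, JJ_sa_v, h7, h47]
  have b51 : σ3.v 51 = 0 := by simp [hσ3, hσ2, hσ1, JJ_sv_v, JJ_sa_v]
  have b47 : σ3.v 47 = 1 := by simp [hσ3, hσ2, hσ1, JJ_sv_v, JJ_sa_v, h47]
  obtain ⟨ρ, r4, q51, qv, qa, qi, qo⟩ := JJ_mid_spec σ3 m b7 b52 b51 b47
  have e5 := JJ_rp ρ 5 43 51
  have c43 : ρ.v 43 = j := by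
    rw [qv 43 (by omega)]
    simp [hσ3, hσ2, hσ1, JJ_sv_v, JJ_sa_v, h43]
  rw [c43, Int.toNat_natCast] at e5
  have sa : σ3.a = (σ.sa 4 j (σ.v 6)).a := by rw [hσ3, hσ2, hσ1]; rfl
  refine ⟨ρ.sa 5 j (ρ.v 51), (e1.seq (e2.seq (e3.seq (r4.seq (e5.seq (Reach.skip _)))))).mono
    (by omega), ?_, ?_, ?_, ?_, ?_, ?_, ?_, ?_⟩
  · intro v hv
    rw [JJ_sa_v, qv v hv]
    have k1 : v ≠ 51 := by omega
    have k2 : v ≠ 52 := by omega
    simp [hσ3, hσ2, hσ1, JJ_sv_v, JJ_sa_v, k1, k2]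
  · intro a h4 h5
    rw [JJ_sa_ne _ _ _ _ _ h5, qa, sa, JJ_sa_ne _ _ _ _ _ h4]
  · intro i hi
    rw [JJ_sa_a, if_neg (by omega), qa, sa, JJ_sa_a, if_neg (by omega)]
  · intro i hi
    rw [JJ_sa_a, if_neg (by omega), qa, sa, JJ_sa_a, if_neg (by omega)]
  · rw [JJ_sa_a, if_neg (by omega), qa, sa, JJ_sa_a, if_pos ⟨rfl, rfl⟩]
  · rw [JJ_sa_a, if_pos ⟨rfl, rfl⟩, q51]
    have : σ3.a 3 0 = σ.a 3 0 := by rw [sa, JJ_sa_a, if_neg (by omega)]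
    rw [this]
  · show ρ.inp = σ.inp
    rw [qi, hσ3, hσ2, hσ1]; rfl
  · show ρ.out = σ.out
    rw [qo, hσ3, hσ2, hσ1]; rfl

/-! ### running one entry -/

private def JJ_run (ta : ℕ) : Stmt :=
  blk [.mov 1 45, .mov 4 49, .mov 5 40, .const 3 1, .sub 48 46 47,
    .whl 48 (blk [.add 3 3 3, .sub 48 48 47]), interp ta, JJ_chk]

open Classical in
private theorem JJ_run_spec (κ : ℕ)
    (hκ : ∀ (ca : ℕ), 4 ≤ ca → ∀ (p : Prog) (y : List Bool) (B cb : ℕ)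
      (σ : St), σ.v 1 = cb → σ.v 2 = p.length → σ.v 3 = B → StoredAt σ ca cb (ecs p) →
      InpAt σ y → Stamps σ →
      ∃ τ, Reach (interp ca) σ (κ * (B + 1)) τ ∧ Fr iV iA σ τ ∧ Stamps τ ∧
        τ.v 6 = (if Halted p (conf p y B) then 1 else 0) ∧
        τ.v 7 = (conf p y B).out.length ∧
        ∀ i (h : i < (conf p y B).out.length), τ.a 3 i = (conf p y B).out[i])
    (ta : ℕ) (hta : 10 ≤ ta) (x : List Bool) (e : Entry) (cb j k : ℕ) (σ : St)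
    (h43 : σ.v 43 = j) (h46 : σ.v 46 = (k : ℤ) + 1) (h45 : σ.v 45 = cb)
    (h49 : σ.v 49 = e.1.toNat) (h40 : σ.v 40 = x.length) (h2 : σ.v 2 = e.2.length)
    (h47 : σ.v 47 = 1) (hst : StoredAt σ ta cb (ecs e.2))
    (hin : ∀ i (h : i < x.length), σ.a 0 i = if x[i] then 1 else 0) (hsta : Stamps σ) :
    ∃ τ, Reach (JJ_run ta) σ (20 + 3 * k + κ * (2 ^ k + 1)) τ ∧ Stamps τ ∧
      (∀ v, 40 ≤ v → v ≠ 48 → v < 51 ∨ 55 < v → τ.v v = σ.v v) ∧ τ.v 2 = σ.v 2 ∧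
      (∀ a, a ≠ 1 → a ≠ 2 → a ≠ 3 → a ≠ 4 → a ≠ 5 → τ.a a = σ.a a) ∧
      (∀ i, i ≠ j → τ.a 4 i = σ.a 4 i) ∧ (∀ i, i ≠ j → τ.a 5 i = σ.a 5 i) ∧
      τ.a 4 j = (if Halted e.2 (conf e.2 (inpE e x) (2 ^ k)) then 1 else 0) ∧
      τ.a 5 j = (if (conf e.2 (inpE e x) (2 ^ k)).out = [1] then 1 else 0) ∧
      τ.inp = σ.inp ∧ τ.out = σ.out := by
  have e1 := JJ_rm σ 1 45
  obtain ⟨σ1, hσ1⟩ : ∃ s, s = σ.sv 1 (σ.v 45) := ⟨_, rfl⟩
  rw [← hσ1] at e1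
  have e2 := JJ_rm σ1 4 49
  obtain ⟨σ2, hσ2⟩ : ∃ s, s = σ1.sv 4 (σ1.v 49) := ⟨_, rfl⟩
  rw [← hσ2] at e2
  have e3 := JJ_rm σ2 5 40
  obtain ⟨σ3, hσ3⟩ : ∃ s, s = σ2.sv 5 (σ2.v 40) := ⟨_, rfl⟩
  rw [← hσ3] at e3
  have e4 := JJ_rc σ3 3 1
  obtain ⟨σ4, hσ4⟩ : ∃ s, s = σ3.sv 3 1 := ⟨_, rfl⟩
  rw [← hσ4] at e4
  have e5 := JJ_rs σ4 48 46 47
  obtain ⟨σ5, hσ5⟩ : ∃ s, s = σ4.sv 48 (σ4.v 46 - σ4.v 47) := ⟨_, rfl⟩
  rw [← hσ5] at e5
  have b1 : σ5.v 1 = cb := by simp [hσ5, hσ4, hσ3, hσ2, hσ1, JJ_sv_v, h45]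
  have b4 : σ5.v 4 = e.1.toNat := by simp [hσ5, hσ4, hσ3, hσ2, hσ1, JJ_sv_v, h49]
  have b5 : σ5.v 5 = x.length := by simp [hσ5, hσ4, hσ3, hσ2, hσ1, JJ_sv_v, h40]
  have b3 : σ5.v 3 = 1 := by simp [hσ5, hσ4, hσ3, hσ2, hσ1, JJ_sv_v]
  have b48 : σ5.v 48 = k := by simp [hσ5, hσ4, hσ3, hσ2, hσ1, JJ_sv_v, h46, h47]
  have b47 : σ5.v 47 = 1 := by simp [hσ5, hσ4, hσ3, hσ2, hσ1, JJ_sv_v, h47]
  have bv : ∀ v, v ≠ 1 → v ≠ 4 → v ≠ 5 → v ≠ 3 → v ≠ 48 → σ5.v v = σ.v v := by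
    intro v k1 k4 k5 k3 k48
    simp [hσ5, hσ4, hσ3, hσ2, hσ1, JJ_sv_v, k1, k4, k5, k3, k48]
  have ba : σ5.a = σ.a := by rw [hσ5, hσ4, hσ3, hσ2, hσ1]; rfl
  have bi : σ5.inp = σ.inp := by rw [hσ5, hσ4, hσ3, hσ2, hσ1]; rfl
  have bo : σ5.out = σ.out := by rw [hσ5, hσ4, hσ3, hσ2, hσ1]; rfl
  obtain ⟨σ6, r6, c3, cv, ca, ci, co⟩ := JJ_dbl k σ5 b48 b47
  have c3' : σ6.v 3 = ((2 ^ k : ℕ) : ℤ) := by
    rw [c3, b3]
    push_cast
    ring
  have c1 : σ6.v 1 = cb := by rw [cv 1 (by omega) (by omega), b1]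
  have c2 : σ6.v 2 = e.2.length := by
    rw [cv 2 (by omega) (by omega), bv 2 (by omega) (by omega) (by omega) (by omega) (by omega),
      h2]
  have c4 : σ6.v 4 = e.1.toNat := by rw [cv 4 (by omega) (by omega), b4]
  have c5 : σ6.v 5 = x.length := by rw [cv 5 (by omega) (by omega), b5]
  have c8 : σ6.v 8 = σ.v 8 := by
    rw [cv 8 (by omega) (by omega), bv 8 (by omega) (by omega) (by omega) (by omega) (by omega)]
  have ca' : σ6.a = σ.a := by rw [ca, ba]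
  have hst6 : StoredAt σ6 ta cb (ecs e.2) := by
    intro i hi
    rw [ca']
    exact hst i hi
  have hsta6 : Stamps σ6 := by
    unfold Stamps
    rw [c8, ca']
    exact hsta
  have hin6 : InpAt σ6 (inpE e x) := by
    unfold InpAt inpE
    cases he : e.1 with
    | true =>
      simp only [if_true, List.length_replicate]
      refine ⟨c5, Or.inl ⟨?_, trivial⟩⟩
      rw [c4, he]
      simp
    | false =>
      simp only [Bool.false_eq_true, if_false]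
      refine ⟨c5, Or.inr ⟨?_, ?_⟩⟩
      · rw [c4, he]
        simp
      · rw [ca']
        exact hin
  obtain ⟨σ7, r7, fr7, st7, d6, d7, dout⟩ := hκ ta (by omega) e.2 (inpE e x) (2 ^ k) cb σ6 c1 c2
    c3' hst6 hin6 hsta6
  have n43 : (43 : ℕ) ∉ iV := by simp [iV]
  have n47 : (47 : ℕ) ∉ iV := by simp [iV]
  have n2 : (2 : ℕ) ∉ iV := by simp [iV]
  have d43 : σ7.v 43 = j := by
    rw [fr7.v 43 n43, cv 43 (by omega) (by omega),
      bv 43 (by omega) (by omega) (by omega) (by omega) (by omega), h43]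
  have d47 : σ7.v 47 = 1 := by
    rw [fr7.v 47 n47, cv 47 (by omega) (by omega),
      bv 47 (by omega) (by omega) (by omega) (by omega) (by omega), h47]
  obtain ⟨τ, r8, tv, ta', t4, t5, t4j, t5j, ti, to'⟩ := JJ_chk_spec σ7 j _ d43 d47 d7
  have na : ∀ a, a ≠ 1 → a ≠ 2 → a ≠ 3 → a ∉ iA := by
    intro a h1 h2 h3
    simp [iA, h1, h2, h3]
  refine ⟨τ, ?_, ?_, ?_, ?_, ?_, ?_, ?_, ?_, ?_, ?_, ?_⟩
  · exact (e1.seq (e2.seq (e3.seq (e4.seq (e5.seq (r6.seq (r7.seq (r8.seq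
      (Reach.skip τ))))))))).mono (by omega)
  · unfold Stamps
    rw [tv 8 (by omega), ta' 2 (by omega) (by omega)]
    exact st7
  · intro v hv h48 h
    have n : v ∉ iV := by
      intro hm
      exact absurd hm.1 (by omega)
    rw [tv v h, fr7.v v n, cv v (by omega) h48,
      bv v (by omega) (by omega) (by omega) (by omega) h48]
  · rw [tv 2 (by omega), fr7.v 2 n2, cv 2 (by omega) (by omega),
      bv 2 (by omega) (by omega) (by omega) (by omega) (by omega)]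
  · intro a h1 h2 h3 h4 h5
    rw [ta' a h4 h5, fr7.a a (na a h1 h2 h3), ca']
  · intro i hi
    rw [t4 i hi, fr7.a 4 (na 4 (by omega) (by omega) (by omega)), ca']
  · intro i hi
    rw [t5 i hi, fr7.a 5 (na 5 (by omega) (by omega) (by omega)), ca']
  · rw [t4j, d6]
  · rw [t5j]
    obtain ⟨o, ho⟩ : ∃ o, o = (conf e.2 (inpE e x) (2 ^ k)).out := ⟨_, rfl⟩
    have dout' : ∀ i (h : i < o.length), σ7.a 3 i = o[i] := by
      intro i hi
      subst ho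
      exact dout i hi
    rw [← ho]
    by_cases hc : o = [1]
    · rw [if_pos hc, if_pos]
      refine ⟨by rw [hc]; rfl, ?_⟩
      rw [dout' 0 (by rw [hc]; simp)]
      simp [hc]
    · rw [if_neg hc, if_neg]
      rintro ⟨hl, h0⟩
      apply hc
      obtain ⟨a, rfl⟩ := List.length_eq_one_iff.1 hl
      have := dout' 0 (by simp)
      rw [h0] at this
      simp at this
      rw [← this]
  · rw [ti, fr7.inp, ci, bi]
  · rw [to', fr7.out, co, bo]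

/-! ### lists -/

private theorem JJ_ec_length (a : Instr) : (ec a).length = 4 := by
  cases a with
  | const i c =>
    show (if 0 ≤ c then [0, i, c.toNat, 0] else [1, i, (-c).toNat, 0]).length = 4
    split_ifs <;> rfl
  | _ => rfl

private theorem JJ_ecs_length (p : Prog) : (ecs p).length = 4 * p.length := by
  induction p with
  | nil => rfl
  | cons a p ih =>
    have : ecs (a :: p) = ec a ++ ecs p := rfl
    rw [this, List.length_append, ih, JJ_ec_length, List.length_cons]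
    ring

private theorem JJ_stored_append {σ : St} {ca b : ℕ} {l l' : List ℕ}
    (h : StoredAt σ ca b (l ++ l')) :
    StoredAt σ ca b l ∧ StoredAt σ ca (b + l.length) l' := by
  constructor
  · intro i hi
    rw [h i (by rw [List.length_append]; omega), List.getElem_append_left hi]
  · intro i hi
    have := h (l.length + i) (by rw [List.length_append]; omega)
    rw [List.getElem_append_right (by omega)] at this
    rw [Nat.add_assoc, this]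
    simp

/-- code of one entry -/
private def JJ_f (e : Entry) : List ℕ := e.1.toNat :: e.2.length :: ecs e.2

private theorem JJ_f_length (e : Entry) : (JJ_f e).length = 2 + 4 * e.2.length := by
  unfold JJ_f
  rw [List.length_cons, List.length_cons, JJ_ecs_length]
  ring

/-- start of entry `j` -/
private def JJ_pos (L : List Entry) (j : ℕ) : ℕ := 1 + ((L.take j).flatMap JJ_f).length

private theorem JJ_split {σ : St} {ta : ℕ} {L : List Entry} (h : StoredAt σ ta 0 (encE L))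
    (j : ℕ) : StoredAt σ ta (JJ_pos L j) ((L.drop j).flatMap JJ_f) := by
  have e : encE L = (L.length :: (L.take j).flatMap JJ_f) ++ (L.drop j).flatMap JJ_f := by
    rw [List.cons_append, ← List.flatMap_append, List.take_append_drop]
    rfl
  rw [e] at h
  have := (JJ_stored_append h).2
  rw [List.length_cons] at this
  unfold JJ_pos
  rwa [show 0 + (((L.take j).flatMap JJ_f).length + 1) = 1 + ((L.take j).flatMap JJ_f).length by
    omega] at this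

private theorem JJ_pos_succ (L : List Entry) (j : ℕ) (hj : j < L.length) :
    JJ_pos L (j + 1) = JJ_pos L j + (2 + 4 * (L[j]).2.length) := by
  unfold JJ_pos
  rw [List.take_succ_eq_append_getElem hj, List.flatMap_append, List.length_append]
  have : ([L[j]].flatMap JJ_f).length = 2 + 4 * (L[j]).2.length := by
    rw [List.flatMap_singleton, JJ_f_length]
  rw [this]
  ring

private theorem JJ_entry {σ : St} {ta : ℕ} {L : List Entry} (h : StoredAt σ ta 0 (encE L))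
    (j : ℕ) (hj : j < L.length) :
    σ.a ta (JJ_pos L j) = (L[j]).1.toNat ∧ σ.a ta (JJ_pos L j + 1) = (L[j]).2.length ∧
      StoredAt σ ta (JJ_pos L j + 2) (ecs (L[j]).2) := by
  have h1 := JJ_split h j
  rw [List.drop_eq_getElem_cons hj] at h1
  have e : (L[j] :: L.drop (j + 1)).flatMap JJ_f
      = ([(L[j]).1.toNat, (L[j]).2.length] ++ ecs (L[j]).2) ++ (L.drop (j + 1)).flatMap JJ_f := rfl
  rw [e] at h1
  obtain ⟨h2, h3⟩ := JJ_stored_append (JJ_stored_append h1).1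
  refine ⟨?_, ?_, h3⟩
  · have := h2 0 (by simp)
    simpa using this
  · have := h2 1 (by simp)
    simpa using this

private theorem JJ_geom (s n : ℕ) :
    ∑ j ∈ Finset.range n, (if j + 1 ≤ s then 2 ^ (s - (j + 1)) else 0)
      + (if n ≤ s then 2 ^ (s - n) else 0) ≤ 2 ^ s := by
  induction n with
  | zero => simp
  | succ n ih =>
    rw [Finset.sum_range_succ]
    by_cases h : n + 1 ≤ s
    · rw [if_pos h]
      rw [if_pos (by omega : n ≤ s)] at ih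
      have : 2 ^ (s - n) = 2 ^ (s - (n + 1)) + 2 ^ (s - (n + 1)) := by
        rw [show s - n = (s - (n + 1)) + 1 by omega, pow_succ]
        ring
      omega
    · rw [if_neg h]
      omega

/-! ### the loop -/

private def JJ_body (ta : ℕ) : Stmt :=
  blk [.get 49 ta 45, .add 45 45 47, .get 2 ta 45, .add 45 45 47, .const 50 0, .put 4 43 50,
    .ite 46 (JJ_run ta) .skip, .add 51 2 2, .add 51 51 51, .add 45 45 51, .add 43 43 47,
    .sub 44 44 47, .sub 46 46 47]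

private structure JJ_I (L : List Entry) (x : List Bool) (s : ℕ) (σ : St) (j : ℕ) (τ : St) :
    Prop where
  fr : Fr LV LA σ τ
  st : Stamps τ
  v43 : τ.v 43 = j
  v44 : τ.v 44 = (L.length : ℤ) - j
  v45 : τ.v 45 = JJ_pos L j
  v46 : τ.v 46 = (s : ℤ) - j
  v47 : τ.v 47 = 1
  r4 : ∀ i < j, τ.a 4 i = if evt L x i s then 1 else 0
  r5 : ∀ i < j, evt L x i s = true → τ.a 5 i = if one L x i s then 1 else 0

private theorem JJ_fin (ρ : St) (L : List Entry) (j s : ℕ) (hj : j < L.length)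
    (h43 : ρ.v 43 = j) (h44 : ρ.v 44 = (L.length : ℤ) - j) (h45 : ρ.v 45 = JJ_pos L j + 2)
    (h46 : ρ.v 46 = (s : ℤ) - j) (h47 : ρ.v 47 = 1) (h2 : ρ.v 2 = (L[j]).2.length) :
    ∃ τ, Reach (blk [.add 51 2 2, .add 51 51 51, .add 45 45 51, .add 43 43 47,
      .sub 44 44 47, .sub 46 46 47]) ρ 6 τ ∧ τ.v 43 = ((j + 1 : ℕ) : ℤ) ∧
      τ.v 44 = (L.length : ℤ) - ((j + 1 : ℕ) : ℤ) ∧ τ.v 45 = JJ_pos L (j + 1) ∧
      τ.v 46 = (s : ℤ) - ((j + 1 : ℕ) : ℤ) ∧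
      (∀ v, v ≠ 51 → v ≠ 45 → v ≠ 43 → v ≠ 44 → v ≠ 46 → τ.v v = ρ.v v) ∧ τ.a = ρ.a ∧
      τ.inp = ρ.inp ∧ τ.out = ρ.out := by
  have e1 := JJ_ra ρ 51 2 2
  obtain ⟨σ1, hσ1⟩ : ∃ s, s = ρ.sv 51 (ρ.v 2 + ρ.v 2) := ⟨_, rfl⟩
  rw [← hσ1] at e1
  have e2 := JJ_ra σ1 51 51 51
  obtain ⟨σ2, hσ2⟩ : ∃ s, s = σ1.sv 51 (σ1.v 51 + σ1.v 51) := ⟨_, rfl⟩
  rw [← hσ2] at e2
  have e3 := JJ_ra σ2 45 45 51
  obtain ⟨σ3, hσ3⟩ : ∃ s, s = σ2.sv 45 (σ2.v 45 + σ2.v 51) := ⟨_, rfl⟩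
  rw [← hσ3] at e3
  have e4 := JJ_ra σ3 43 43 47
  obtain ⟨σ4, hσ4⟩ : ∃ s, s = σ3.sv 43 (σ3.v 43 + σ3.v 47) := ⟨_, rfl⟩
  rw [← hσ4] at e4
  have e5 := JJ_rs σ4 44 44 47
  obtain ⟨σ5, hσ5⟩ : ∃ s, s = σ4.sv 44 (σ4.v 44 - σ4.v 47) := ⟨_, rfl⟩
  rw [← hσ5] at e5
  have e6 := JJ_rs σ5 46 46 47
  obtain ⟨σ6, hσ6⟩ : ∃ s, s = σ5.sv 46 (σ5.v 46 - σ5.v 47) := ⟨_, rfl⟩
  rw [← hσ6] at e6
  refine ⟨σ6, (e1.seq (e2.seq (e3.seq (e4.seq (e5.seq (e6.seq (Reach.skip _))))))).mono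
    (by omega), ?_, ?_, ?_, ?_, ?_, ?_, ?_, ?_⟩
  · simp [hσ6, hσ5, hσ4, hσ3, hσ2, hσ1, JJ_sv_v, h43, h47]
  · simp [hσ6, hσ5, hσ4, hσ3, hσ2, hσ1, JJ_sv_v, h44, h47]
    ring
  · rw [JJ_pos_succ L j hj]
    simp [hσ6, hσ5, hσ4, hσ3, hσ2, hσ1, JJ_sv_v, h45, h2]
    ring
  · simp [hσ6, hσ5, hσ4, hσ3, hσ2, hσ1, JJ_sv_v, h46, h47]
    ring
  · intro v k1 k2 k3 k4 k5
    simp [hσ6, hσ5, hσ4, hσ3, hσ2, hσ1, JJ_sv_v, k1, k2, k3, k4, k5]
  · rw [hσ6, hσ5, hσ4, hσ3, hσ2, hσ1]; rfl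
  · rw [hσ6, hσ5, hσ4, hσ3, hσ2, hσ1]; rfl
  · rw [hσ6, hσ5, hσ4, hσ3, hσ2, hσ1]; rfl


open Classical in
private theorem JJ_body_spec (κ : ℕ)
    (hκ : ∀ (ca : ℕ), 4 ≤ ca → ∀ (p : Prog) (y : List Bool) (B cb : ℕ)
      (σ : St), σ.v 1 = cb → σ.v 2 = p.length → σ.v 3 = B → StoredAt σ ca cb (ecs p) →
      InpAt σ y → Stamps σ →
      ∃ τ, Reach (interp ca) σ (κ * (B + 1)) τ ∧ Fr iV iA σ τ ∧ Stamps τ ∧
        τ.v 6 = (if Halted p (conf p y B) then 1 else 0) ∧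
        τ.v 7 = (conf p y B).out.length ∧
        ∀ i (h : i < (conf p y B).out.length), τ.a 3 i = (conf p y B).out[i])
    (ta : ℕ) (hta : 10 ≤ ta) (x : List Bool) (L : List Entry) (s j : ℕ) (σ τ : St)
    (hE : Env σ x) (hst : StoredAt σ ta 0 (encE L)) (hj : j < L.length) (hI : JJ_I L x s σ j τ) :
    ∃ ρ, Reach (JJ_body ta) τ
      (40 + κ + 3 * s + κ * (if j + 1 ≤ s then 2 ^ (s - (j + 1)) else 0)) ρ ∧
      JJ_I L x s σ (j + 1) ρ := by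
  have nta : ta ∉ LA := by
    rintro ⟨h, _⟩
    omega
  have n0 : (0 : ℕ) ∉ LA := by
    rintro ⟨_, h⟩
    exact h rfl
  have n40 : (40 : ℕ) ∉ LV := by
    rintro ⟨_, h, _⟩
    exact h rfl
  have hstτ : StoredAt τ ta 0 (encE L) := by
    intro i hi
    rw [hI.fr.a ta nta]
    exact hst i hi
  obtain ⟨m1, m2, m3⟩ := JJ_entry hstτ j hj
  have h40 : τ.v 40 = x.length := by rw [hI.fr.v 40 n40, hE.n]
  have hin : ∀ i (h : i < x.length), τ.a 0 i = if x[i] then 1 else 0 := by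
    intro i hi
    rw [hI.fr.a 0 n0]
    exact hE.inp i hi
  -- the head
  have e1 := JJ_rg τ 49 ta 45
  rw [hI.v45, Int.toNat_natCast, m1] at e1
  obtain ⟨σ1, hσ1⟩ : ∃ s, s = τ.sv 49 ((L[j]).1.toNat : ℤ) := ⟨_, rfl⟩
  rw [← hσ1] at e1
  have e2 := JJ_ra σ1 45 45 47
  have e2' : σ1.v 45 + σ1.v 47 = ((JJ_pos L j + 1 : ℕ) : ℤ) := by
    simp [hσ1, JJ_sv_v, hI.v45, hI.v47]
  rw [e2'] at e2
  obtain ⟨σ2, hσ2⟩ : ∃ s, s = σ1.sv 45 ((JJ_pos L j + 1 : ℕ) : ℤ) := ⟨_, rfl⟩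
  rw [← hσ2] at e2
  have e3 := JJ_rg σ2 2 ta 45
  have e3' : σ2.v 45 = ((JJ_pos L j + 1 : ℕ) : ℤ) := by simp [hσ2, JJ_sv_v]
  have e3'' : σ2.a = τ.a := by rw [hσ2, hσ1]; rfl
  rw [e3', Int.toNat_natCast, e3'', m2] at e3
  obtain ⟨σ3, hσ3⟩ : ∃ s, s = σ2.sv 2 ((L[j]).2.length : ℤ) := ⟨_, rfl⟩
  rw [← hσ3] at e3
  have e4 := JJ_ra σ3 45 45 47
  have e4' : σ3.v 45 + σ3.v 47 = ((JJ_pos L j + 2 : ℕ) : ℤ) := by
    simp [hσ3, hσ2, hσ1, JJ_sv_v, hI.v47]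
    ring
  rw [e4'] at e4
  obtain ⟨σ4, hσ4⟩ : ∃ s, s = σ3.sv 45 ((JJ_pos L j + 2 : ℕ) : ℤ) := ⟨_, rfl⟩
  rw [← hσ4] at e4
  have e5 := JJ_rc σ4 50 0
  obtain ⟨σ5, hσ5⟩ : ∃ s, s = σ4.sv 50 0 := ⟨_, rfl⟩
  rw [← hσ5] at e5
  have e6 := JJ_rp σ5 4 43 50
  have e6' : σ5.v 43 = j := by simp [hσ5, hσ4, hσ3, hσ2, hσ1, JJ_sv_v, hI.v43]
  have e6'' : σ5.v 50 = 0 := by simp [hσ5, JJ_sv_v]
  rw [e6', Int.toNat_natCast, e6''] at e6
  obtain ⟨σ6, hσ6⟩ : ∃ s, s = σ5.sa 4 j 0 := ⟨_, rfl⟩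
  rw [← hσ6] at e6
  have b49 : σ6.v 49 = (L[j]).1.toNat := by
    simp [hσ6, hσ5, hσ4, hσ3, hσ2, hσ1, JJ_sv_v, JJ_sa_v]
  have b2 : σ6.v 2 = (L[j]).2.length := by
    simp [hσ6, hσ5, hσ4, hσ3, hσ2, hσ1, JJ_sv_v, JJ_sa_v]
  have b45 : σ6.v 45 = ((JJ_pos L j + 2 : ℕ) : ℤ) := by
    simp [hσ6, hσ5, hσ4, hσ3, hσ2, hσ1, JJ_sv_v, JJ_sa_v]
  have bv : ∀ v, v ≠ 49 → v ≠ 2 → v ≠ 45 → v ≠ 50 → σ6.v v = τ.v v := by
    intro v k1 k2 k3 k4
    simp [hσ6, hσ5, hσ4, hσ3, hσ2, hσ1, JJ_sv_v, JJ_sa_v, k1, k2, k3, k4]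
  have b5a : σ5.a = τ.a := by rw [hσ5, hσ4, hσ3, hσ2, hσ1]; rfl
  have ba : ∀ a, a ≠ 4 → σ6.a a = τ.a a := by
    intro a ha
    rw [hσ6, JJ_sa_ne _ _ _ _ _ ha, b5a]
  have b4 : ∀ i, i ≠ j → σ6.a 4 i = τ.a 4 i := by
    intro i hi
    rw [hσ6, JJ_sa_a, if_neg (by omega), b5a]
  have b4j : σ6.a 4 j = 0 := by rw [hσ6, JJ_sa_a, if_pos ⟨rfl, rfl⟩]
  have bi : σ6.inp = τ.inp := by rw [hσ6, hσ5, hσ4, hσ3, hσ2, hσ1]; rfl
  have bo : σ6.out = τ.out := by rw [hσ6, hσ5, hσ4, hσ3, hσ2, hσ1]; rfl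
  have bst : Stamps σ6 := by
    unfold Stamps
    rw [bv 8 (by omega) (by omega) (by omega) (by omega), ba 2 (by omega)]
    exact hI.st
  have c43 : σ6.v 43 = j := by rw [bv 43 (by omega) (by omega) (by omega) (by omega), hI.v43]
  have c44 : σ6.v 44 = (L.length : ℤ) - j := by
    rw [bv 44 (by omega) (by omega) (by omega) (by omega), hI.v44]
  have c46 : σ6.v 46 = (s : ℤ) - j := by
    rw [bv 46 (by omega) (by omega) (by omega) (by omega), hI.v46]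
  have c47 : σ6.v 47 = 1 := by rw [bv 47 (by omega) (by omega) (by omega) (by omega), hI.v47]
  have c40 : σ6.v 40 = x.length := by
    rw [bv 40 (by omega) (by omega) (by omega) (by omega), h40]
  -- the run
  obtain ⟨ρ, D, hD, rρ, stρ, vρ, v2ρ, aρ, q4, q5, p4, p5, iρ, oρ⟩ :
      ∃ ρ D, D ≤ 25 + κ + 3 * s + κ * (if j + 1 ≤ s then 2 ^ (s - (j + 1)) else 0) ∧
        Reach (.ite 46 (JJ_run ta) .skip) σ6 D ρ ∧ Stamps ρ ∧
        (∀ v, 40 ≤ v → v ≠ 48 → v < 51 ∨ 55 < v → ρ.v v = σ6.v v) ∧ ρ.v 2 = σ6.v 2 ∧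
        (∀ a, a ≠ 1 → a ≠ 2 → a ≠ 3 → a ≠ 4 → a ≠ 5 → ρ.a a = σ6.a a) ∧
        (∀ i, i ≠ j → ρ.a 4 i = σ6.a 4 i) ∧ (∀ i, i ≠ j → ρ.a 5 i = σ6.a 5 i) ∧
        (ρ.a 4 j = if evt L x j s then 1 else 0) ∧
        (evt L x j s = true → ρ.a 5 j = if one L x j s then 1 else 0) ∧
        ρ.inp = σ6.inp ∧ ρ.out = σ6.out := by
    have hLj : L[j]? = some L[j] := List.getElem?_eq_getElem hj
    by_cases hjs : j + 1 ≤ s
    · obtain ⟨k, hk⟩ : ∃ k, k = s - (j + 1) := ⟨_, rfl⟩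
      have c46' : σ6.v 46 = (k : ℤ) + 1 := by
        rw [c46, hk]
        omega
      have hstj : StoredAt σ6 ta (JJ_pos L j + 2) (ecs (L[j]).2) := by
        intro i hi
        rw [ba ta (by omega)]
        exact m3 i hi
      obtain ⟨ρ, r, g1, g2, g3, g4, g5, g6, g7, g8, g9, g10⟩ := JJ_run_spec κ hκ ta hta x (L[j])
        (JJ_pos L j + 2) j k σ6 c43 c46' b45 b49 c40 b2 c47 hstj
        (by
          intro i hi
          rw [ba 0 (by omega)]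
          exact hin i hi) bst
      refine ⟨ρ, _, ?_, Reach.ite_pos (by rw [c46']; positivity) r, g1, g2, g3, g4, g5, g6,
        ?_, ?_, g9, g10⟩
      · rw [if_pos hjs, ← hk]
        have : k ≤ s := by omega
        rw [Nat.mul_add]
        omega
      · rw [g7]
        unfold evt cfE
        rw [hLj, ← hk]
        simp [hjs]
      · intro _
        rw [g8]
        unfold one cfE
        rw [hLj, ← hk]
        simp
    · refine ⟨σ6, 1, by omega, Reach.ite_neg (by rw [c46]; omega) (Reach.skip σ6), bst,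
        fun _ _ _ _ => rfl, rfl, fun _ _ _ _ _ _ => rfl, fun _ _ => rfl, fun _ _ => rfl,
        ?_, ?_, rfl, rfl⟩
      · rw [b4j]
        unfold evt
        rw [hLj]
        simp [hjs]
      · unfold evt
        rw [hLj]
        simp [hjs]
  -- the tail
  have d43 : ρ.v 43 = j := by rw [vρ 43 (by omega) (by omega) (by omega), c43]
  have d44 : ρ.v 44 = (L.length : ℤ) - j := by
    rw [vρ 44 (by omega) (by omega) (by omega), c44]
  have d45 : ρ.v 45 = JJ_pos L j + 2 := by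
    rw [vρ 45 (by omega) (by omega) (by omega), b45]
    push_cast
    rfl
  have d46 : ρ.v 46 = (s : ℤ) - j := by rw [vρ 46 (by omega) (by omega) (by omega), c46]
  have d47 : ρ.v 47 = 1 := by rw [vρ 47 (by omega) (by omega) (by omega), c47]
  obtain ⟨ω, rω, w43, w44, w45, w46, wv, wa, wi, wo⟩ := JJ_fin ρ L j s hj d43 d44 d45 d46 d47
    (by rw [v2ρ, b2])
  refine ⟨ω, (e1.seq (e2.seq (e3.seq (e4.seq (e5.seq (e6.seq (rρ.seq rω))))))).mono (by omega),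
    ⟨?_, ?_, w43, w44, w45, w46, ?_, ?_, ?_⟩⟩
  · refine ⟨?_, ?_, ?_, ?_⟩
    · intro v hv
      have hv' : v = 40 ∨ v = 41 ∨ v = 42 ∨ 100 ≤ v := by
        by_contra hc
        apply hv
        refine ⟨by omega, by omega, by omega, by omega⟩
      rw [wv v (by omega) (by omega) (by omega) (by omega) (by omega),
        vρ v (by omega) (by omega) (by omega), bv v (by omega) (by omega) (by omega) (by omega)]
      exact hI.fr.v v hv
    · intro a ha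
      have ha' : a = 0 ∨ 10 ≤ a := by
        by_contra hc
        apply ha
        exact ⟨by omega, by omega⟩
      rw [wa, aρ a (by omega) (by omega) (by omega) (by omega) (by omega), ba a (by omega)]
      exact hI.fr.a a ha
    · rw [wi, iρ, bi]
      exact hI.fr.inp
    · rw [wo, oρ, bo]
      exact hI.fr.out
  · unfold Stamps
    rw [wv 8 (by omega) (by omega) (by omega) (by omega) (by omega), wa]
    exact stρ
  · rw [wv 47 (by omega) (by omega) (by omega) (by omega) (by omega), d47]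
  · intro i hi
    rw [wa]
    by_cases hij : i = j
    · rw [hij]
      exact p4
    · rw [q4 i hij, b4 i hij]
      exact hI.r4 i (by omega)
  · intro i hi he
    rw [wa]
    by_cases hij : i = j
    · rw [hij] at he ⊢
      exact p5 he
    · rw [q5 i hij, ba 5 (by omega)]
      exact hI.r5 i (by omega) he

/-- The table `encE L` is stored in the array `ta`, the time `s` is in variable 41 (and `2 ^ s` in
variable 42). Results: array 4 (halted?), array 5 (output `[1]`?). Entry `j` is run by the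
interpreter with budget `2 ^ (s - (j + 1))` if `j + 1 ≤ s` (the budget is computed by doubling). -/
theorem jj_spec : ∃ κ : ℕ, ∀ ta : ℕ, 10 ≤ ta → ∃ p : Stmt, ∀ (x : List Bool) (s : ℕ) (σ : St)
    (L : List Entry), Env σ x → σ.v 41 = s → σ.v 42 = 2 ^ s → StoredAt σ ta 0 (encE L) →
    ∃ τ, Reach p σ (κ * (2 ^ s + (L.length + 1) * (s + 1))) τ ∧ Env τ x ∧
      (∀ j < L.length, τ.a 4 j = if evt L x j s then 1 else 0) ∧
      (∀ j < L.length, evt L x j s = true → τ.a 5 j = if one L x j s then 1 else 0) ∧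
      Fr LV LA σ τ := by
  obtain ⟨κ, hκ⟩ := interp_spec
  refine ⟨60 + κ, fun ta hta => ⟨blk [.const 47 1, .const 43 0, .get 44 ta 43, .mov 45 47,
    .mov 46 41, .whl 44 (JJ_body ta)], ?_⟩⟩
  intro x s σ L hE h41 h42 hst
  have n0 : (0 : ℕ) ∉ LA := by
    rintro ⟨_, h⟩
    exact h rfl
  have n40 : (40 : ℕ) ∉ LV := by
    rintro ⟨_, h, _⟩
    exact h rfl
  have m0 : σ.a ta 0 = L.length := by
    have := hst 0 (by unfold encE; simp)
    simpa [encE] using this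
  have e1 := JJ_rc σ 47 1
  obtain ⟨σ1, hσ1⟩ : ∃ s, s = σ.sv 47 1 := ⟨_, rfl⟩
  rw [← hσ1] at e1
  have e2 := JJ_rc σ1 43 0
  obtain ⟨σ2, hσ2⟩ : ∃ s, s = σ1.sv 43 0 := ⟨_, rfl⟩
  rw [← hσ2] at e2
  have e3 := JJ_rg σ2 44 ta 43
  have e3' : σ2.v 43 = 0 := by simp [hσ2, JJ_sv_v]
  have e3'' : σ2.a = σ.a := by rw [hσ2, hσ1]; rfl
  rw [e3', Int.toNat_zero, e3'', m0] at e3
  obtain ⟨σ3, hσ3⟩ : ∃ s, s = σ2.sv 44 (L.length : ℤ) := ⟨_, rfl⟩
  rw [← hσ3] at e3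
  have e4 := JJ_rm σ3 45 47
  obtain ⟨σ4, hσ4⟩ : ∃ s, s = σ3.sv 45 (σ3.v 47) := ⟨_, rfl⟩
  rw [← hσ4] at e4
  have e5 := JJ_rm σ4 46 41
  obtain ⟨σ5, hσ5⟩ : ∃ s, s = σ4.sv 46 (σ4.v 41) := ⟨_, rfl⟩
  rw [← hσ5] at e5
  have bv : ∀ v, v ≠ 43 → v ≠ 44 → v ≠ 45 → v ≠ 46 → v ≠ 47 → σ5.v v = σ.v v := by
    intro v k1 k2 k3 k4 k5
    simp [hσ5, hσ4, hσ3, hσ2, hσ1, JJ_sv_v, k1, k2, k3, k4, k5]
  have ba : σ5.a = σ.a := by rw [hσ5, hσ4, hσ3, hσ2, hσ1]; rfl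
  have hI0 : JJ_I L x s σ 0 σ5 := by
    refine ⟨⟨?_, ?_, ?_, ?_⟩, ?_, ?_, ?_, ?_, ?_, ?_, ?_, ?_⟩
    · intro v hv
      have hv' : v = 40 ∨ v = 41 ∨ v = 42 ∨ 100 ≤ v := by
        by_contra hc
        apply hv
        refine ⟨by omega, by omega, by omega, by omega⟩
      exact bv v (by omega) (by omega) (by omega) (by omega) (by omega)
    · intro a _
      rw [ba]
    · rw [hσ5, hσ4, hσ3, hσ2, hσ1]; rfl
    · rw [hσ5, hσ4, hσ3, hσ2, hσ1]; rfl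
    · unfold Stamps
      rw [bv 8 (by omega) (by omega) (by omega) (by omega) (by omega), ba]
      exact hE.stamps
    · simp [hσ5, hσ4, hσ3, hσ2, hσ1, JJ_sv_v]
    · simp [hσ5, hσ4, hσ3, hσ2, hσ1, JJ_sv_v]
    · simp [hσ5, hσ4, hσ3, hσ2, hσ1, JJ_sv_v, JJ_pos]
    · simp [hσ5, hσ4, hσ3, hσ2, hσ1, JJ_sv_v, h41]
    · simp [hσ5, hσ4, hσ3, hσ2, hσ1, JJ_sv_v]
    · intro i hi
      exact absurd hi (Nat.not_lt_zero i)
    · intro i hi
      exact absurd hi (Nat.not_lt_zero i)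
  obtain ⟨τ, rτ, hI⟩ := Reach.loop (v := 44) (s := JJ_body ta) L.length (JJ_I L x s σ)
    (fun j => 40 + κ + 3 * s + κ * (if j + 1 ≤ s then 2 ^ (s - (j + 1)) else 0))
    (fun j hj τ hτ => by rw [hτ.v44]; omega) (fun τ hτ => by rw [hτ.v44]; omega)
    (fun j hj τ hτ => JJ_body_spec κ hκ ta hta x L s j σ τ hE hst hj hτ) σ5 hI0
  refine ⟨τ, (e1.seq (e2.seq (e3.seq (e4.seq (e5.seq (rτ.seq (Reach.skip τ))))))).mono ?_,
    ⟨?_, ?_, hI.st⟩, hI.r4, hI.r5, hI.fr⟩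
  · have hg := JJ_geom s L.length
    have hs : ∑ j ∈ Finset.range L.length,
        (40 + κ + 3 * s + κ * (if j + 1 ≤ s then 2 ^ (s - (j + 1)) else 0) + 1)
        = L.length * (41 + κ + 3 * s)
          + κ * ∑ j ∈ Finset.range L.length, (if j + 1 ≤ s then 2 ^ (s - (j + 1)) else 0) := by
      rw [Finset.mul_sum, ← smul_eq_mul (a := L.length), ← Finset.card_range L.length,
        ← Finset.sum_const, Finset.card_range, ← Finset.sum_add_distrib]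
      apply Finset.sum_congr rfl
      intro j _
      ring
    rw [hs]
    obtain ⟨G, hG⟩ : ∃ G, G = ∑ j ∈ Finset.range L.length,
      (if j + 1 ≤ s then 2 ^ (s - (j + 1)) else 0) := ⟨_, rfl⟩
    rw [← hG] at hg ⊢
    have hG' : G ≤ 2 ^ s := by omega
    have h1 : κ * G ≤ κ * 2 ^ s := Nat.mul_le_mul_left _ hG'
    have h2 : 1 ≤ 2 ^ s := Nat.one_le_two_pow
    have h3 : (60 + κ) * (2 ^ s + (L.length + 1) * (s + 1))
        = κ * 2 ^ s + 60 * 2 ^ s + (L.length * (41 + κ + 3 * s) + 6 + (57 * L.length * s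
          + 19 * L.length + 60 * s + 54 + κ * L.length * s + κ * s + κ)) := by ring
    rw [h3]
    generalize 2 ^ s = P at *
    omega
  · rw [hI.fr.v 40 n40]
    exact hE.n
  · intro i hi
    rw [hI.fr.a 0 n0]
    exact hE.inp i hi

end Pool.Agent.H71.CT
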