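import Pool.Agent.H71.CT.Env

/-! Clocks of total programs, orders of growth. -/

namespace Pool.Agent.H71.CT

theorem Ole.refl (f : ℕ → ℕ) : Ole f f := ⟨1, fun n => by omega⟩

theorem Ole.trans {f g h : ℕ → ℕ} (h₁ : Ole f g) (h₂ : Ole g h) : Ole f h := by
  obtain ⟨C, hC⟩ := h₁
  obtain ⟨D, hD⟩ := h₂
  refine ⟨C * (D + 1), fun n => ?_⟩
  calc f n ≤ C * (g n + 1) := hC n
    _ ≤ C * (D * (h n + 1) + 1) := Nat.mul_le_mul_left _ (Nat.add_le_add_right (hD n) 1)
    _ ≤ C * ((D + 1) * (h n + 1)) := Nat.mul_le_mul_left _ (by nlinarith)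
    _ = C * (D + 1) * (h n + 1) := (mul_assoc _ _ _).symm

private theorem tcBase_step {p : Prog} {s : Cfg} (h : Halted p s) : step p s = s := by
  unfold step
  rw [List.getElem?_eq_none h]

private theorem tcBase_succ (p : Prog) (x : List Bool) (t : ℕ) : conf p x (t + 1) = step p (conf p x t) :=
  Function.iterate_succ_apply' _ _ _

/-- a halted machine stays -/
theorem conf_of_halted {p : Prog} {x : List Bool} {s t : ℕ} (h : Halted p (conf p x s))
    (hst : s ≤ t) : conf p x t = conf p x s := by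
  induction t, hst using Nat.le_induction with
  | base => rfl
  | succ t _ ih => rw [tcBase_succ, ih, tcBase_step h]

/-- two runs of a deterministic machine agree -/
theorem Runs.unique {p : Prog} {x : List Bool} {t t' : ℕ} {o o' : List ℤ} (h : Runs p x t o)
    (h' : Runs p x t' o') : t = t' ∧ o = o' := by
  have ht : t = t' := by
    rcases lt_trichotomy t t' with h1 | h1 | h1
    · exact absurd h.1 (h'.2.1 t h1)
    · exact h1
    · exact absurd h'.1 (h.2.1 t' h1)
  subst ht
  exact ⟨rfl, h.2.2.symm.trans h'.2.2⟩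

/-- a run determines the clock -/
theorem ck_of_runs {e n t : ℕ} {o : List ℤ} (h : Runs (pr e) (List.replicate n false) t o) :
    ck e n = n + t := by
  have hex : ∃ B, hb e (List.replicate n false) B = true := ⟨t, hb_iff.2 h.1⟩
  unfold ck
  rw [dif_pos hex]
  congr 1
  refine (Nat.find_eq_iff hex).2 ⟨hb_iff.2 h.1, fun s hs hc => h.2.1 s hs (hb_iff.1 hc)⟩

theorem tot_iff (e : ℕ) : Tot e ↔ ∀ n, ∃ t o, Runs (pr e) (List.replicate n false) t o := by
  classical
  constructor
  · intro h n
    have hex := h n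
    refine ⟨Nat.find hex, _, hb_iff.1 (Nat.find_spec hex), fun s hs hc => ?_, rfl⟩
    exact Nat.find_min hex hs (hb_iff.2 hc)
  · intro h n
    obtain ⟨t, o, ho⟩ := h n
    exact ⟨t, hb_iff.2 ho.1⟩

/-- a program halts within `B` steps iff it runs in some `t ≤ B` steps -/
theorem halted_iff_runs (p : Prog) (x : List Bool) (B : ℕ) :
    Halted p (conf p x B) ↔ ∃ t ≤ B, ∃ o, Runs p x t o := by
  classical
  constructor
  · intro h
    have hex : ∃ t, Halted p (conf p x t) := ⟨B, h⟩
    exact ⟨Nat.find hex, Nat.find_le h, _, Nat.find_spec hex, fun s hs => Nat.find_min hex hs, rfl⟩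
  · rintro ⟨t, ht, o, ho⟩
    rw [conf_of_halted ho.1 ht]
    exact ho.1

theorem length_out_le (p : Prog) (x : List Bool) (t : ℕ) : (conf p x t).out.length ≤ t := by
  induction t with
  | zero => exact Nat.le_refl _
  | succ t ih =>
    rw [tcBase_succ]
    have key : ∀ s : Cfg, (step p s).out.length ≤ s.out.length + 1 := by
      intro s
      unfold step
      cases p[s.pc]? with
      | none => exact Nat.le_succ _
      | some a =>
        cases a <;> simp [Instr.exec]
    exact (key _).trans (Nat.add_le_add_right ih 1)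

theorem DTIME.mono {f g : ℕ → ℕ} {A : Set (List Bool)} (h : DTIME f A) (hfg : Ole f g) :
    DTIME g A := by
  obtain ⟨p, c, hp⟩ := h
  obtain ⟨D, hD⟩ := hfg
  refine ⟨p, c * (D + 1), fun x => ?_⟩
  obtain ⟨t, ht, hr⟩ := hp x
  refine ⟨t, ?_, hr⟩
  calc t ≤ c * (f x.length + 1) := ht
    _ ≤ c * (D * (g x.length + 1) + 1) := Nat.mul_le_mul_left _ (Nat.add_le_add_right (hD _) 1)
    _ ≤ c * ((D + 1) * (g x.length + 1)) := Nat.mul_le_mul_left _ (by nlinarith)
    _ = c * (D + 1) * (g x.length + 1) := (mul_assoc _ _ _).symm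

end Pool.Agent.H71.CT
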