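import Pool.Agent.H71.CT.DDef
import Pool.Agent.H71.CT.JJ
import Pool.Agent.H71.CT.Prep
import Pool.Agent.H71.CT.ReadInput
import Pool.Agent.H71.CT.Comp
import Pool.Agent.H71.CT.TcBase

/-! The machines for the diagonal set. -/

namespace Pool.Agent.H71.CT

/-! ### evaluation of loop free statements -/

/-- value of loop free statements -/
private def dpEv : Stmt → St → St
  | .skip, σ => σ
  | .const v c, σ => σ.sv v c
  | .mov v a, σ => σ.sv v (σ.v a)
  | .add v a b, σ => σ.sv v (σ.v a + σ.v b)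
  | .sub v a b, σ => σ.sv v (σ.v a - σ.v b)
  | .get v a i, σ => σ.sv v (σ.a a (σ.v i).toNat)
  | .put a i v, σ => σ.sa a (σ.v i).toNat (σ.v v)
  | .read v, σ => { (σ.sv v (sym σ.inp)) with inp := σ.inp.tail }
  | .print v, σ => { σ with out := σ.out ++ [σ.v v] }
  | .seq s t, σ => dpEv t (dpEv s σ)
  | .ite v s t, σ => if 0 < σ.v v then dpEv s σ else dpEv t σ
  | .whl _ _, σ => σ

/-- loop free -/
private def dpLf : Stmt → Bool
  | .seq s t => dpLf s && dpLf t
  | .ite _ s t => dpLf s && dpLf t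
  | .whl _ _ => false
  | _ => true

/-- cost of loop free statements -/
private def dpC : Stmt → ℕ
  | .skip => 0
  | .seq s t => dpC s + dpC t
  | .ite _ s t => max (dpC s) (dpC t) + 1
  | .whl _ _ => 0
  | _ => 1

private theorem dp_ev (s : Stmt) : dpLf s = true → ∀ σ, Reach s σ (dpC s) (dpEv s σ) := by
  induction s with
  | skip => intro _ σ; exact ⟨0, le_rfl, Big.skip σ⟩
  | const v c => intro _ σ; exact ⟨1, le_rfl, Big.const σ v c⟩
  | mov v a => intro _ σ; exact ⟨1, le_rfl, Big.mov σ v a⟩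
  | add v a b => intro _ σ; exact ⟨1, le_rfl, Big.add σ v a b⟩
  | sub v a b => intro _ σ; exact ⟨1, le_rfl, Big.sub σ v a b⟩
  | get v a i => intro _ σ; exact ⟨1, le_rfl, Big.get σ v a i⟩
  | put a i v => intro _ σ; exact ⟨1, le_rfl, Big.put σ a i v⟩
  | read v => intro _ σ; exact ⟨1, le_rfl, Big.read σ v⟩
  | print v => intro _ σ; exact ⟨1, le_rfl, Big.print σ v⟩
  | seq s t hs ht =>
    intro h σ
    simp only [dpLf, Bool.and_eq_true] at h
    exact (hs h.1 σ).seq (ht h.2 _)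
  | ite v s t hs ht =>
    intro h σ
    simp only [dpLf, Bool.and_eq_true] at h
    by_cases hv : 0 < σ.v v
    · have := Reach.ite_pos (t := t) hv (hs h.1 σ)
      simp only [dpEv, if_pos hv, dpC]
      exact this.mono (by omega)
    · have := Reach.ite_neg (s := s) hv (ht h.2 σ)
      simp only [dpEv, if_neg hv, dpC]
      exact this.mono (by omega)
  | whl v s _ => intro h; simp [dpLf] at h

private theorem dp_sv_v (σ : St) (v w : ℕ) (z : ℤ) :
    (σ.sv v z).v w = if w = v then z else σ.v w := by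
  simp [St.sv, Function.update_apply]

private theorem dp_sv_a (σ : St) (v : ℕ) (z : ℤ) : (σ.sv v z).a = σ.a := rfl
private theorem dp_ite_v (c : Prop) [Decidable c] (σ τ : St) (w : ℕ) :
    (if c then σ else τ).v w = if c then σ.v w else τ.v w := by
  split_ifs <;> rfl

private theorem dp_ite_a (c : Prop) [Decidable c] (σ τ : St) :
    (if c then σ else τ).a = if c then σ.a else τ.a := by
  split_ifs <;> rfl

private theorem dp_sv_inp (σ : St) (v : ℕ) (z : ℤ) : (σ.sv v z).inp = σ.inp := rfl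
private theorem dp_sv_out (σ : St) (v : ℕ) (z : ℤ) : (σ.sv v z).out = σ.out := rfl

/-! ### the table -/

private theorem dp_entD_len (ι : ℕ → ℕ) (k : ℕ) : (entD ι k).length = 2 * k := by
  induction k with
  | zero => rfl
  | succ k ih =>
    have : entD ι (k + 1) = entD ι k ++ [(true, pr (ι k)), (false, pr k)] := by
      simp [entD, List.range_succ]
    rw [this, List.length_append, ih]
    simp
    omega

private theorem dp_entD_get (ι : ℕ → ℕ) (k j : ℕ) (hj : j < k) :
    (entD ι k)[2 * j]? = some (true, pr (ι j)) ∧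
      (entD ι k)[2 * j + 1]? = some (false, pr j) := by
  induction k with
  | zero => omega
  | succ k ih =>
    have he : entD ι (k + 1) = entD ι k ++ [(true, pr (ι k)), (false, pr k)] := by
      simp [entD, List.range_succ]
    have hl := dp_entD_len ι k
    rcases Nat.lt_succ_iff_lt_or_eq.1 hj with h | h
    · obtain ⟨h1, h2⟩ := ih h
      rw [he]
      constructor
      · rw [List.getElem?_append_left (by omega)]; exact h1
      · rw [List.getElem?_append_left (by omega)]; exact h2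
    · subst h
      rw [he]
      constructor
      · rw [List.getElem?_append_right (by omega), hl]; simp
      · rw [List.getElem?_append_right (by omega), hl]; simp

private theorem dp_PsiD_head (ι : ℕ → ℕ) (L : List (List ℕ)) :
    (PsiD ι L).getD 0 0 = 2 * L.length := by
  rw [← dp_entD_len ι L.length]
  rfl

/-- the table of length `n` -/
private theorem dp_table (ι κ : ℕ → ℕ) (d : ℕ → List ℕ)
    (hdκ : ∀ n, d n = PsiD ι ((List.range (κ n)).map d)) (n : ℕ) :
    d n = encE (entD ι (κ n)) ++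
      (List.range (κ n)).map (satD ι ((List.range (κ n)).map κ)) := by
  have h0 : ∀ m, (d m).getD 0 0 / 2 = κ m := by
    intro m
    rw [hdκ m, dp_PsiD_head]
    simp
  have h1 : ((List.range (κ n)).map d).map (fun l => l.getD 0 0 / 2) = (List.range (κ n)).map κ := by
    rw [List.map_map]
    apply List.map_congr_left
    intro m _
    exact h0 m
  rw [hdκ n, PsiD, h1]
  simp

open Classical in
private theorem dp_sat (ι κ : ℕ → ℕ) (k e : ℕ) :
    satD ι ((List.range k).map κ) e = if ∃ m < k, Act ι (κ m) e m then 1 else 0 := by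
  unfold satD
  have : (∃ m < ((List.range k).map κ).length, Act ι (((List.range k).map κ).getD m 0) e m) ↔
      ∃ m < k, Act ι (κ m) e m := by
    rw [List.length_map, List.length_range]
    constructor
    · rintro ⟨m, hm, h⟩
      refine ⟨m, hm, ?_⟩
      have : ((List.range k).map κ).getD m 0 = κ m := by
        simp [List.getD, hm]
      rwa [this] at h
    · rintro ⟨m, hm, h⟩
      refine ⟨m, hm, ?_⟩
      have : ((List.range k).map κ).getD m 0 = κ m := by
        simp [List.getD, hm]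
      rwa [this]
  simp only [this]

/-! ### events -/

private theorem dp_halt_mono {p : Prog} {x : List Bool} {s t : ℕ} (h : Halted p (conf p x s))
    (hst : s ≤ t) : Halted p (conf p x t) := by
  rw [conf_of_halted h hst]; exact h

private theorem dp_hb_mono {e : ℕ} {x : List Bool} {s t : ℕ} (h : hb e x s = true)
    (hst : s ≤ t) : hb e x t = true := hb_iff.2 (dp_halt_mono (hb_iff.1 h) hst)

/-- clock `j` has halted -/
private def dpA (ι : ℕ → ℕ) (n j s : ℕ) : Prop :=
  2 * j + 1 ≤ s ∧ hb (ι j) (List.replicate n false) (2 ^ (s - (2 * j + 1))) = true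

/-- program `e` has halted -/
private def dpB (x : List Bool) (e s : ℕ) : Prop :=
  2 * e + 2 ≤ s ∧ hb e x (2 ^ (s - (2 * e + 2))) = true

private theorem dp_A_mono {ι : ℕ → ℕ} {n j s t : ℕ} (h : dpA ι n j s) (hst : s ≤ t) :
    dpA ι n j t := by
  refine ⟨by have := h.1; omega, dp_hb_mono h.2 ?_⟩
  exact Nat.pow_le_pow_right (by norm_num) (by omega)

private theorem dp_B_mono {x : List Bool} {e s t : ℕ} (h : dpB x e s) (hst : s ≤ t) :
    dpB x e t := by
  refine ⟨by have := h.1; omega, dp_hb_mono h.2 ?_⟩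
  exact Nat.pow_le_pow_right (by norm_num) (by omega)

open Classical in
private theorem dp_evtA (ι : ℕ → ℕ) (k : ℕ) (x : List Bool) (j s : ℕ) (hj : j < k) :
    evt (entD ι k) x (2 * j) s = true ↔ dpA ι x.length j s := by
  unfold evt
  rw [(dp_entD_get ι k j hj).1]
  refine decide_eq_true_iff.trans ?_
  unfold dpA
  rw [hb_iff]
  rfl

open Classical in
private theorem dp_evtB (ι : ℕ → ℕ) (k : ℕ) (x : List Bool) (j s : ℕ) (hj : j < k) :
    evt (entD ι k) x (2 * j + 1) s = true ↔ dpB x j s := by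
  unfold evt
  rw [(dp_entD_get ι k j hj).2]
  refine decide_eq_true_iff.trans ?_
  unfold dpB
  rw [hb_iff]
  rfl

private theorem dp_oneB (ι : ℕ → ℕ) (k : ℕ) (x : List Bool) (j s : ℕ) (hj : j < k)
    (hB : dpB x j s) : one (entD ι k) x (2 * j + 1) s = true ↔ Acc j x := by
  unfold one
  rw [(dp_entD_get ι k j hj).2]
  refine decide_eq_true_iff.trans ?_
  show (conf (pr j) x (2 ^ (s - (2 * j + 2)))).out = [1] ↔ _
  have h2 := hb_iff.1 hB.2
  unfold Acc
  constructor
  · intro h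
    refine ⟨2 ^ (s - (2 * j + 2)), hB.2, ?_⟩
    unfold oc
    rw [if_pos]
    exact h
  · rintro ⟨B, hb1, ho⟩
    have ho' : (conf (pr j) x B).out = [1] := by
      unfold oc at ho
      by_contra hne
      rw [if_neg hne] at ho
      split_ifs at ho
      exact absurd ho (by norm_num)
    have h1 := hb_iff.1 hb1
    rcases le_total B (2 ^ (s - (2 * j + 2))) with h | h
    · have := conf_of_halted h1 h
      show (conf (pr j) x (2 ^ (s - (2 * j + 2)))).out = [1]
      rw [this, ho']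
    · have := conf_of_halted h2 h
      show (conf (pr j) x (2 ^ (s - (2 * j + 2)))).out = [1]
      rw [← this, ho']

/-! ### small programs -/

private theorem dp_env {σ τ : St} {x : List Bool} (h : Env σ x) {VS AS : Set ℕ}
    (hF : Fr VS AS σ τ) (h40 : 40 ∉ VS) (h8 : 8 ∉ VS) (h0 : 0 ∉ AS) (h2 : 2 ∉ AS) : Env τ x := by
  refine ⟨by rw [hF.v 40 h40]; exact h.n, fun i hi => by rw [hF.a 0 h0]; exact h.inp i hi, ?_, ?_⟩
  · rw [hF.v 8 h8]; exact h.stamps.1
  · intro i
    rw [hF.v 8 h8, hF.a 2 h2]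
    exact h.stamps.2 i

/-- assigned variables -/
private def dpW : Stmt → List ℕ
  | .const v _ => [v]
  | .mov v _ => [v]
  | .add v _ _ => [v]
  | .sub v _ _ => [v]
  | .get v _ _ => [v]
  | .seq s t => dpW s ++ dpW t
  | .ite _ s t => dpW s ++ dpW t
  | _ => []

/-- loop free, only assignments to variables -/
private def dpP : Stmt → Bool
  | .skip => true
  | .const _ _ => true
  | .mov _ _ => true
  | .add _ _ _ => true
  | .sub _ _ _ => true
  | .get _ _ _ => true
  | .seq s t => dpP s && dpP t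
  | .ite _ s t => dpP s && dpP t
  | _ => false

private theorem dp_fr (s : Stmt) : dpP s = true → ∀ VS : Set ℕ, (∀ v ∈ dpW s, v ∈ VS) →
    ∀ σ, Fr VS ∅ σ (dpEv s σ) := by
  have key : ∀ (VS : Set ℕ) (σ : St) (v : ℕ) (z : ℤ), v ∈ VS → Fr VS ∅ σ (σ.sv v z) := by
    intro VS σ v z hv
    refine ⟨fun w hw => ?_, fun _ _ => rfl, rfl, rfl⟩
    rw [dp_sv_v, if_neg]
    rintro rfl
    exact hw hv
  induction s with
  | skip => intro _ VS _ σ; exact Fr.refl _ _ _
  | const v c => intro _ VS h σ; exact key _ _ _ _ (h v (by simp [dpW]))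
  | mov v a => intro _ VS h σ; exact key _ _ _ _ (h v (by simp [dpW]))
  | add v a b => intro _ VS h σ; exact key _ _ _ _ (h v (by simp [dpW]))
  | sub v a b => intro _ VS h σ; exact key _ _ _ _ (h v (by simp [dpW]))
  | get v a i => intro _ VS h σ; exact key _ _ _ _ (h v (by simp [dpW]))
  | put a i v => intro h; simp [dpP] at h
  | read v => intro h; simp [dpP] at h
  | print v => intro h; simp [dpP] at h
  | seq s t hs ht =>
    intro h VS hW σ
    simp only [dpP, Bool.and_eq_true] at h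
    simp only [dpW, List.mem_append] at hW
    exact (hs h.1 VS (fun v hv => hW v (Or.inl hv)) σ).trans
      (ht h.2 VS (fun v hv => hW v (Or.inr hv)) _)
  | ite v s t hs ht =>
    intro h VS hW σ
    simp only [dpP, Bool.and_eq_true] at h
    simp only [dpW, List.mem_append] at hW
    simp only [dpEv]
    split_ifs
    · exact hs h.1 VS (fun v hv => hW v (Or.inl hv)) σ
    · exact ht h.2 VS (fun v hv => hW v (Or.inr hv)) σ
  | whl v s _ => intro h; simp [dpP] at h

/-- count the ones -/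
private def dpCnt : Stmt :=
  .seq (blk [.const 101 0, .const 61 0, .const 62 1, .sub 63 40 61])
    (.whl 63 (blk [.get 64 0 61, .add 101 101 64, .add 61 61 62, .sub 63 40 61]))

private theorem dp_cnt (x : List Bool) (σ : St) (hE : Env σ x) :
    ∃ τ, Reach dpCnt σ (5 * x.length + 5) τ ∧ Fr {v | 60 ≤ v} ∅ σ τ ∧
      τ.v 101 = (x.count true : ℕ) := by
  have hn := hE.n
  have hL := Reach.loop (v := 63) (s := blk [.get 64 0 61, .add 101 101 64, .add 61 61 62, .sub 63 40 61])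
    x.length (fun j τ => Fr {v | 60 ≤ v} ∅ σ τ ∧ τ.v 61 = j ∧ τ.v 62 = 1 ∧
      τ.v 63 = (x.length : ℤ) - j ∧ τ.v 101 = ((x.take j).count true : ℕ)) (fun _ => 4)
    (by
      rintro j hj τ ⟨-, -, -, h, -⟩
      rw [h]
      have : (j : ℤ) < x.length := by exact_mod_cast hj
      omega)
    (by
      rintro τ ⟨-, -, -, h, -⟩
      rw [h]
      omega)
    (by
      rintro j hj τ ⟨hF, h61, h62, h63, h101⟩
      refine ⟨_, dp_ev _ rfl τ, ?_, ?_, ?_, ?_, ?_⟩
      · refine hF.trans (dp_fr _ rfl _ ?_ _)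
        simp [dpW, blk]
      · simp [blk, dpEv, dp_sv_v, h61, h62]
      · simp [blk, dpEv, dp_sv_v, h62]
      · have h40 : τ.v 40 = x.length := by rw [hF.v 40 (by simp)]; exact hn
        simp [blk, dpEv, dp_sv_v, h61, h62, h40]
      · have ha : τ.a 0 j = if x[j] then 1 else 0 := by
          rw [hF.a 0 (by simp)]; exact hE.inp j hj
        simp only [blk, dpEv, dp_sv_v]
        simp only [h61, h101, Int.toNat_natCast, ha]
        rw [List.take_succ_eq_append_getElem hj, List.count_append]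
        cases x[j] <;> simp)
    (dpEv (blk [.const 101 0, .const 61 0, .const 62 1, .sub 63 40 61]) σ)
    (by
      refine ⟨?_, ?_, ?_, ?_, ?_⟩
      · refine dp_fr _ rfl _ ?_ _
        simp [dpW, blk]
      · simp [blk, dpEv, dp_sv_v]
      · simp [blk, dpEv, dp_sv_v]
      · simp [blk, dpEv, dp_sv_v, hn]
      · simp [blk, dpEv, dp_sv_v])
  obtain ⟨τ, hR, hF, -, -, -, h101⟩ := hL
  refine ⟨τ, ((dp_ev _ rfl σ).seq hR).mono ?_, hF, ?_⟩
  · simp [blk, dpC]
    ring_nf
    omega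
  · rw [h101, List.take_length]

private theorem dp_xs_len {e n : ℕ} (h : e ≤ n) : (xs e n).length = n := by
  simp [xs]; omega

private theorem dp_xs_get {e n j : ℕ} (hj : j < (xs e n).length) :
    (xs e n)[j] = decide (j < e) := by
  simp only [xs]
  rw [List.getElem_append]
  split_ifs with h
  · simp at h
    simp [h]
  · simp at h
    simp [h]

private theorem dp_take_succ {e : ℕ} (x : List Bool) (he : e ≤ x.length) (j : ℕ)
    (hj : j < x.length) : x.take (j + 1) = (xs e x.length).take (j + 1) ↔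
      x.take j = (xs e x.length).take j ∧ x[j] = decide (j < e) := by
  have hj' : j < (xs e x.length).length := by rw [dp_xs_len he]; exact hj
  rw [List.take_succ_eq_append_getElem hj, List.take_succ_eq_append_getElem hj', dp_xs_get hj']
  constructor
  · intro h
    have := List.append_inj' h rfl
    exact ⟨this.1, by simpa using this.2⟩
  · rintro ⟨h1, h2⟩
    rw [h1, h2]

/-- check the form of the input -/
private def dpChk : Stmt :=
  .seq (blk [.const 103 1, .const 61 0, .const 62 1, .sub 63 40 61])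
    (.whl 63 (blk [.get 64 0 61, .sub 65 101 61, .ite 65 (.sub 64 62 64) .skip,
      .ite 64 (.const 103 0) .skip, .add 61 61 62, .sub 63 40 61]))

private theorem dp_chk (x : List Bool) (σ : St) (e : ℕ) (he : e ≤ x.length) (hE : Env σ x)
    (h101 : σ.v 101 = e) :
    ∃ τ, Reach dpChk σ (9 * x.length + 5) τ ∧ Fr {v | 60 ≤ v ∧ v ≠ 101} ∅ σ τ ∧
      τ.v 103 = if x = xs e x.length then 1 else 0 := by
  have hn := hE.n
  have hL := Reach.loop (v := 63) (s := blk [.get 64 0 61, .sub 65 101 61, .ite 65 (.sub 64 62 64) .skip,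
      .ite 64 (.const 103 0) .skip, .add 61 61 62, .sub 63 40 61])
    x.length (fun j τ => Fr {v | 60 ≤ v ∧ v ≠ 101} ∅ σ τ ∧ τ.v 61 = j ∧ τ.v 62 = 1 ∧
      τ.v 63 = (x.length : ℤ) - j ∧
      τ.v 103 = if x.take j = (xs e x.length).take j then 1 else 0) (fun _ => 8)
    (by
      rintro j hj τ ⟨-, -, -, h, -⟩
      rw [h]
      have : (j : ℤ) < x.length := by exact_mod_cast hj
      omega)
    (by
      rintro τ ⟨-, -, -, h, -⟩
      rw [h]
      omega)
    (by
      rintro j hj τ ⟨hF, h61, h62, h63, h103⟩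
      have h40 : τ.v 40 = x.length := by rw [hF.v 40 (by simp)]; exact hn
      have he1 : τ.v 101 = e := by rw [hF.v 101 (by simp)]; exact h101
      refine ⟨_, dp_ev _ rfl τ, ?_, ?_, ?_, ?_, ?_⟩
      · refine hF.trans (dp_fr _ rfl _ ?_ _)
        simp [dpW, blk]
      · simp [blk, dpEv, dp_ite_v, dp_sv_v, h61, h62]
      · simp [blk, dpEv, dp_ite_v, dp_sv_v, h62]
      · simp [blk, dpEv, dp_ite_v, dp_sv_v, h61, h62, h40]
      · have ha : τ.a 0 j = if x[j] then 1 else 0 := by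
          rw [hF.a 0 (by simp)]; exact hE.inp j hj
        rw [if_congr (dp_take_succ x he j hj) rfl rfl]
        by_cases hc : j < e
        · cases hx : x[j] <;>
          simp [blk, dpEv, dp_sv_v, h61, h62, he1, ha, hc, hx, h103]
        · cases hx : x[j] <;>
          simp [blk, dpEv, dp_sv_v, h61, h62, he1, ha, hc, hx, h103])
    (dpEv (blk [.const 103 1, .const 61 0, .const 62 1, .sub 63 40 61]) σ)
    (by
      refine ⟨?_, ?_, ?_, ?_, ?_⟩
      · refine dp_fr _ rfl _ ?_ _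
        simp [dpW, blk]
      · simp [blk, dpEv, dp_sv_v]
      · simp [blk, dpEv, dp_sv_v]
      · simp [blk, dpEv, dp_sv_v, hn]
      · simp [blk, dpEv, dp_sv_v])
  obtain ⟨τ, hR, hF, -, -, -, h103⟩ := hL
  refine ⟨τ, ((dp_ev _ rfl σ).seq hR).mono ?_, hF, ?_⟩
  · simp [blk, dpC]
    ring_nf
    omega
  · rw [h103, List.take_length]
    have : (xs e x.length).take x.length = xs e x.length := by
      rw [List.take_of_length_le (by rw [dp_xs_len he])]
    rw [this]

/-- level and test -/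
private def dpLev (i : ℕ) : Stmt :=
  .seq (blk [.const 61 0, .get 66 10 61, .const 67 0, .const 62 2, .const 68 1])
    (.seq (.whl 66 (blk [.sub 66 66 62, .add 67 67 68]))
      (blk [.sub 69 102 67, .add 69 69 101, .get 70 10 69, .const 71 i, .sub 72 71 101,
        .ite 72 (.const 103 0) .skip, .sub 72 101 67, .add 72 72 68, .ite 72 (.const 103 0) .skip,
        .ite 70 (.const 103 0) .skip, .const 104 0]))

private theorem dp_encE_len (L : List Entry) : 0 < (encE L).length := by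
  simp [encE]

private theorem dp_lev (i : ℕ) (L : List Entry) (k : ℕ) (hL : L.length = 2 * k) (f : ℕ → ℕ)
    (σ : St) (e : ℕ) (h101 : σ.v 101 = e)
    (hst : StoredAt σ 10 0 (encE L ++ (List.range k).map f))
    (h102 : σ.v 102 = ((encE L ++ (List.range k).map f).length : ℕ)) :
    ∃ τ, Reach (dpLev i) σ (3 * k + 20) τ ∧ Fr {v | 60 ≤ v ∧ v ≠ 101 ∧ v ≠ 102} ∅ σ τ ∧
      τ.v 103 = (if i ≤ e ∧ e < k ∧ f e = 0 then σ.v 103 else 0) ∧ τ.v 104 = 0 := by
  have h0 : σ.a 10 0 = ((2 * k : ℕ) : ℤ) := by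
    have := hst 0 (by simp [encE])
    rw [zero_add] at this
    rw [this]
    simp [encE, hL]
  obtain ⟨σ1, hσ1⟩ : ∃ s, s = dpEv (blk [.const 61 0, .get 66 10 61, .const 67 0, .const 62 2,
    .const 68 1]) σ := ⟨_, rfl⟩
  have hR1 := dp_ev (blk [.const 61 0, .get 66 10 61, .const 67 0, .const 62 2,
    .const 68 1]) rfl σ
  rw [← hσ1] at hR1
  have hF1 : Fr {v | 60 ≤ v ∧ v < 100} ∅ σ σ1 := by
    rw [hσ1]
    refine dp_fr _ rfl _ ?_ _
    simp [dpW, blk]
  have hL := Reach.loop (v := 66) (s := blk [.sub 66 66 62, .add 67 67 68])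
    k (fun j τ => Fr {v | 60 ≤ v ∧ v < 100} ∅ σ τ ∧ τ.v 62 = 2 ∧ τ.v 68 = 1 ∧
      τ.v 66 = 2 * (k : ℤ) - 2 * j ∧ τ.v 67 = j) (fun _ => 2)
    (by
      rintro j hj τ ⟨-, -, -, h, -⟩
      rw [h]
      omega)
    (by
      rintro τ ⟨-, -, -, h, -⟩
      rw [h]
      omega)
    (by
      rintro j hj τ ⟨hF, h62, h68, h66, h67⟩
      refine ⟨_, dp_ev _ rfl τ, ?_, ?_, ?_, ?_, ?_⟩
      · refine hF.trans (dp_fr _ rfl _ ?_ _)
        simp [dpW, blk]
      · simp [blk, dpEv, dp_sv_v, h62]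
      · simp [blk, dpEv, dp_sv_v, h68]
      · simp [blk, dpEv, dp_sv_v, h66, h62]
        ring
      · simp [blk, dpEv, dp_sv_v, h67, h68])
    σ1
    (by
      refine ⟨hF1, ?_, ?_, ?_, ?_⟩
      · simp [hσ1, blk, dpEv, dp_sv_v]
      · simp [hσ1, blk, dpEv, dp_sv_v]
      · simp [hσ1, blk, dpEv, dp_sv_v, dp_sv_a, h0]
      · simp [hσ1, blk, dpEv, dp_sv_v])
  obtain ⟨σ2, hR2, hF2, -, h68, -, h67⟩ := hL
  have hlf : dpLf (blk [.sub 69 102 67, .add 69 69 101, .get 70 10 69, .const 71 i, .sub 72 71 101,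
        .ite 72 (.const 103 0) .skip, .sub 72 101 67, .add 72 72 68, .ite 72 (.const 103 0) .skip,
        .ite 70 (.const 103 0) .skip, .const 104 0]) = true := rfl
  have hR3 := dp_ev _ hlf σ2
  refine ⟨_, (hR1.seq (hR2.seq hR3)).mono ?_, ?_, ?_, ?_⟩
  · simp [blk, dpC]
    ring_nf
    omega
  · refine (hF2.mono ?_ le_rfl).trans (dp_fr _ rfl _ ?_ _)
    · intro v hv
      obtain ⟨h1, h2⟩ := hv
      exact ⟨h1, by omega, by omega⟩
    · simp [dpW, blk]
  · have e101 : σ2.v 101 = e := by rw [hF2.v 101 (by simp)]; exact h101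
    have e102 : σ2.v 102 = ((encE L).length : ℤ) + k := by
      rw [hF2.v 102 (by simp), h102]
      simp
    have e103 : σ2.v 103 = σ.v 103 := hF2.v 103 (by simp)
    have e10 : σ2.a 10 = σ.a 10 := hF2.a 10 (by simp)
    have hpos : (((encE L).length : ℤ) + e).toNat = (encE L).length + e := by
      omega
    by_cases hek : e < k
    · have hfl : σ.a 10 ((encE L).length + e) = f e := by
        have := hst ((encE L).length + e) (by simp; exact hek)
        rw [zero_add] at this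
        rw [this, List.getElem_append_right (by omega)]
        simp
      by_cases hie : i ≤ e
      · by_cases hfe : f e = 0
        · simp [blk, dpEv, dp_ite_v, dp_sv_v, dp_sv_a, e101, e102, e103, e10, h67, h68,
            hek, hie, hfe, hpos, hfl]
          omega
        · simp [blk, dpEv, dp_ite_v, dp_sv_v, dp_sv_a, e101, e102, e103, e10, h67, h68,
            hek, hie, hfe, hpos, hfl]
      · have c1 : e < i := by omega
        simp [blk, dpEv, dp_ite_v, dp_sv_v, dp_sv_a, e101, e102, e10, h67, h68, hek, hie, c1]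
    · have c2 : (0 : ℤ) < (e : ℤ) - k + 1 := by omega
      simp [blk, dpEv, dp_ite_v, dp_sv_v, dp_sv_a, e101, e102, e10, h67, h68, hek, c2]
  · simp [blk, dpEv, dp_sv_v]

/-- the time -/
private def dpPow : Stmt :=
  .seq (blk [.const 41 0, .const 42 1, .const 62 1, .add 63 40 62, .sub 63 63 42])
    (.whl 63 (blk [.add 42 42 42, .add 41 41 62, .add 63 40 62, .sub 63 63 42]))

private theorem dp_pow (n : ℕ) (σ : St) (hn : σ.v 40 = n) :
    ∃ τ, Reach dpPow σ (5 * n + 6) τ ∧ Fr {v | v = 41 ∨ v = 42 ∨ (60 ≤ v ∧ v < 100)} ∅ σ τ ∧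
      τ.v 41 = s0 n ∧ τ.v 42 = 2 ^ s0 n := by
  have hL := Reach.loop (v := 63) (s := blk [.add 42 42 42, .add 41 41 62, .add 63 40 62, .sub 63 63 42])
    (s0 n) (fun j τ => Fr {v | v = 41 ∨ v = 42 ∨ (60 ≤ v ∧ v < 100)} ∅ σ τ ∧ τ.v 62 = 1 ∧
      τ.v 41 = j ∧ τ.v 42 = 2 ^ j ∧ τ.v 63 = (n : ℤ) + 1 - 2 ^ j) (fun _ => 4)
    (by
      rintro j hj τ ⟨-, -, -, -, h⟩
      rw [h]
      have : 2 ^ j ≤ n := Nat.lt_size.1 hj
      have : (2 : ℤ) ^ j ≤ n := by exact_mod_cast this
      omega)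
    (by
      rintro τ ⟨-, -, -, -, h⟩
      rw [h]
      have : n < 2 ^ s0 n := Nat.size_le.1 le_rfl
      have : (n : ℤ) < 2 ^ s0 n := by exact_mod_cast this
      omega)
    (by
      rintro j hj τ ⟨hF, h62, h41, h42, h63⟩
      have h40 : τ.v 40 = n := by rw [hF.v 40 (by simp)]; exact hn
      refine ⟨_, dp_ev _ rfl τ, ?_, ?_, ?_, ?_, ?_⟩
      · refine hF.trans (dp_fr _ rfl _ ?_ _)
        simp [dpW, blk]
      · simp [blk, dpEv, dp_sv_v, h62]
      · simp [blk, dpEv, dp_sv_v, h41, h62]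
      · simp [blk, dpEv, dp_sv_v, h42]
        ring
      · simp [blk, dpEv, dp_sv_v, h40, h42, h62]
        ring)
    (dpEv (blk [.const 41 0, .const 42 1, .const 62 1, .add 63 40 62, .sub 63 63 42]) σ)
    (by
      refine ⟨?_, ?_, ?_, ?_, ?_⟩
      · refine dp_fr _ rfl _ ?_ _
        simp [dpW, blk]
      · simp [blk, dpEv, dp_sv_v]
      · simp [blk, dpEv, dp_sv_v]
      · simp [blk, dpEv, dp_sv_v]
      · simp [blk, dpEv, dp_sv_v, hn])
  obtain ⟨τ, hR, hF, -, h41, h42, -⟩ := hL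
  refine ⟨τ, ((dp_ev _ rfl σ).seq hR).mono ?_, hF, h41, h42⟩
  have : s0 n ≤ n := Nat.size_le.2 Nat.lt_two_pow_self
  simp [blk, dpC]
  ring_nf
  omega

/-- the test after the parallel run -/
private def dpTest : Stmt :=
  .seq (blk [.const 61 0, .const 62 1, .const 63 2, .const 73 0, .add 64 101 62])
    (.seq (.whl 64 (blk [.get 65 4 61, .ite 65 (.const 73 1) .skip, .add 61 61 63, .sub 64 64 62]))
      (blk [.sub 61 61 62, .get 65 4 61, .get 66 5 61,
        .ite 73 (.const 103 0) (.ite 65 (.seq (.const 103 0) (.sub 104 62 66)) .skip),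
        .add 41 41 62, .add 42 42 42]))

open Classical in
private theorem dp_test (e s : ℕ) (P : ℕ → Prop) (Q R : Prop) (σ : St) (h101 : σ.v 101 = e)
    (h41 : σ.v 41 = s) (h42 : σ.v 42 = 2 ^ s)
    (hP : ∀ j ≤ e, σ.a 4 (2 * j) = if P j then 1 else 0)
    (hQ : σ.a 4 (2 * e + 1) = if Q then 1 else 0)
    (hR : Q → σ.a 5 (2 * e + 1) = if R then 1 else 0) :
    ∃ τ, Reach dpTest σ (6 * e + 24) τ ∧
      Fr {v | v = 41 ∨ v = 42 ∨ v = 103 ∨ v = 104 ∨ (60 ≤ v ∧ v < 100)} ∅ σ τ ∧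
      τ.v 41 = (s + 1 : ℕ) ∧ τ.v 42 = 2 ^ (s + 1) ∧
      τ.v 103 = (if (∃ j ≤ e, P j) ∨ Q then 0 else σ.v 103) ∧
      τ.v 104 = (if (¬ ∃ j ≤ e, P j) ∧ Q then (if R then 0 else 1) else σ.v 104) := by
  have hL := Reach.loop (v := 64)
    (s := blk [.get 65 4 61, .ite 65 (.const 73 1) .skip, .add 61 61 63, .sub 64 64 62])
    (e + 1) (fun j τ => Fr {v | 60 ≤ v ∧ v < 100} ∅ σ τ ∧ τ.v 62 = 1 ∧ τ.v 63 = 2 ∧
      τ.v 61 = 2 * (j : ℤ) ∧ τ.v 64 = (e : ℤ) + 1 - j ∧
      τ.v 73 = if ∃ i < j, P i then 1 else 0) (fun _ => 5)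
    (by
      rintro j hj τ ⟨-, -, -, -, h, -⟩
      rw [h]
      omega)
    (by
      rintro τ ⟨-, -, -, -, h, -⟩
      rw [h]
      push_cast
      omega)
    (by
      rintro j hj τ ⟨hF, h62, h63, h61, h64, h73⟩
      have ha : τ.a 4 (2 * j) = if P j then 1 else 0 := by
        rw [hF.a 4 (by simp)]; exact hP j (by omega)
      have hidx : (2 * (j : ℤ)).toNat = 2 * j := by omega
      have hex : (∃ i < j + 1, P i) ↔ (P j ∨ ∃ i < j, P i) := by
        constructor
        · rintro ⟨i, hi, h⟩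
          rcases Nat.lt_succ_iff_lt_or_eq.1 hi with h' | h'
          · exact Or.inr ⟨i, h', h⟩
          · subst h'; exact Or.inl h
        · rintro (h | ⟨i, hi, h⟩)
          · exact ⟨j, by omega, h⟩
          · exact ⟨i, by omega, h⟩
      refine ⟨_, dp_ev _ rfl τ, ?_, ?_, ?_, ?_, ?_, ?_⟩
      · refine hF.trans (dp_fr _ rfl _ ?_ _)
        simp [dpW, blk]
      · simp [blk, dpEv, dp_ite_v, dp_sv_v, h62]
      · simp [blk, dpEv, dp_ite_v, dp_sv_v, h63]
      · simp [blk, dpEv, dp_ite_v, dp_sv_v, h61, h63]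
        ring
      · simp [blk, dpEv, dp_ite_v, dp_sv_v, h64, h62]
        ring
      · rw [if_congr hex rfl rfl]
        by_cases hPj : P j
        · simp [blk, dpEv, dp_sv_v, h61, hidx, ha, hPj]
        · simp [blk, dpEv, dp_sv_v, h61, hidx, ha, hPj, h73])
    (dpEv (blk [.const 61 0, .const 62 1, .const 63 2, .const 73 0, .add 64 101 62]) σ)
    (by
      refine ⟨?_, ?_, ?_, ?_, ?_, ?_⟩
      · refine dp_fr _ rfl _ ?_ _
        simp [dpW, blk]
      · simp [blk, dpEv, dp_sv_v]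
      · simp [blk, dpEv, dp_sv_v]
      · simp [blk, dpEv, dp_sv_v]
      · simp [blk, dpEv, dp_sv_v, h101]
      · simp [blk, dpEv, dp_sv_v])
  obtain ⟨σ2, hR2, hF2, h62, -, h61, -, h73⟩ := hL
  have hex : (∃ i < e + 1, P i) ↔ ∃ i ≤ e, P i := by
    constructor
    · rintro ⟨i, hi, h⟩; exact ⟨i, by omega, h⟩
    · rintro ⟨i, hi, h⟩; exact ⟨i, by omega, h⟩
  rw [if_congr hex rfl rfl] at h73
  have e41 : σ2.v 41 = s := by rw [hF2.v 41 (by simp)]; exact h41
  have e42 : σ2.v 42 = 2 ^ s := by rw [hF2.v 42 (by simp)]; exact h42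
  have e103 : σ2.v 103 = σ.v 103 := hF2.v 103 (by simp)
  have e104 : σ2.v 104 = σ.v 104 := hF2.v 104 (by simp)
  have e4 : σ2.a 4 = σ.a 4 := hF2.a 4 (by simp)
  have e5 : σ2.a 5 = σ.a 5 := hF2.a 5 (by simp)
  have hidx : (2 * ((e : ℤ) + 1)).toNat - 1 = 2 * e + 1 := by omega
  have hlf : dpLf (blk [.sub 61 61 62, .get 65 4 61, .get 66 5 61,
        .ite 73 (.const 103 0) (.ite 65 (.seq (.const 103 0) (.sub 104 62 66)) .skip),
        .add 41 41 62, .add 42 42 42]) = true := rfl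
  refine ⟨_, ((dp_ev _ rfl σ).seq (hR2.seq (dp_ev _ hlf σ2))).mono ?_, ?_, ?_, ?_, ?_, ?_⟩
  · simp [blk, dpC]
    ring_nf
    omega
  · refine (hF2.mono ?_ le_rfl).trans (dp_fr _ rfl _ ?_ _)
    · intro v hv
      exact Or.inr (Or.inr (Or.inr (Or.inr hv)))
    · simp [dpW, blk]
  · simp [blk, dpEv, dp_ite_v, dp_sv_v, e41, h62]
  · simp [blk, dpEv, dp_ite_v, dp_sv_v, e42]
    ring
  · by_cases hA : ∃ j ≤ e, P j
    · simp only [hA, if_true] at h73
      simp [blk, dpEv, dp_sv_v, h73, hA]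
    · simp only [hA, if_false] at h73
      by_cases hq : Q
      · simp only [hq, if_true] at hQ
        simp [blk, dpEv, dp_sv_v, dp_sv_a, h73, hA, hq, h61, h62, hidx, e4, hQ]
      · simp only [hq, if_false] at hQ
        simp [blk, dpEv, dp_sv_v, dp_sv_a, h73, hA, hq, h61, h62, hidx, e4, hQ, e103]
  · by_cases hA : ∃ j ≤ e, P j
    · simp only [hA, if_true] at h73
      simp [blk, dpEv, dp_sv_v, h73, hA, e104]
    · simp only [hA, if_false] at h73
      by_cases hq : Q
      · have hr := hR hq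
        simp only [hq, if_true] at hQ
        by_cases hR' : R
        · simp only [hR', if_true] at hr
          simp [blk, dpEv, dp_sv_v, dp_sv_a, h73, hA, hq, h61, h62, hidx, e4, e5, hQ, hr,
            hR']
        · simp only [hR', if_false] at hr
          simp [blk, dpEv, dp_sv_v, dp_sv_a, h73, hA, hq, h61, h62, hidx, e4, e5, hQ, hr,
            hR']
      · simp only [hq, if_false] at hQ
        simp [blk, dpEv, dp_sv_v, dp_sv_a, h73, hA, hq, h61, h62, hidx, e4, hQ, e104]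

/-! ### the stopping time -/

private theorem dp_le_ck (e n : ℕ) : n ≤ ck e n := by
  unfold ck
  split_ifs <;> omega

private theorem dp_time (ι : ℕ → ℕ) (n i e : ℕ) (hie : i ≤ e) (ht : Tot (ι i)) (Q : ℕ → Prop) :
    ∃ S, s0 n ≤ S ∧ ((∃ j ≤ e, dpA ι n j S) ∨ Q S) ∧
      (∀ s, s0 n ≤ s → s < S → ¬ ((∃ j ≤ e, dpA ι n j s) ∨ Q s)) ∧
      2 ^ S ≤ 2 ^ (2 * i + 2) * (ck (ι i) n + 1) := by
  classical
  have hT := Nat.find_spec (ht n)
  have hck : ck (ι i) n = n + Nat.find (ht n) := by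
    unfold ck
    rw [dif_pos (ht n)]
  obtain ⟨T, hTT⟩ : ∃ T, T = Nat.find (ht n) := ⟨_, rfl⟩
  rw [← hTT] at hT hck
  have hex : ∃ s, s0 n ≤ s ∧ ((∃ j ≤ e, dpA ι n j s) ∨ Q s) := by
    refine ⟨max (s0 n) (2 * i + 1 + T), le_max_left _ _, Or.inl ⟨i, hie, ?_, ?_⟩⟩
    · exact (by omega : 2 * i + 1 ≤ 2 * i + 1 + T).trans (le_max_right _ _)
    · refine dp_hb_mono hT ?_
      have h1 : T ≤ max (s0 n) (2 * i + 1 + T) - (2 * i + 1) := by
        have := le_max_right (s0 n) (2 * i + 1 + T)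
        omega
      exact h1.trans Nat.lt_two_pow_self.le
  have hS := Nat.find_spec hex
  have hmin : ∀ m, m < Nat.find hex → ¬ (s0 n ≤ m ∧ ((∃ j ≤ e, dpA ι n j m) ∨ Q m)) :=
    fun m hm => Nat.find_min hex hm
  obtain ⟨S, hSS⟩ : ∃ S, S = Nat.find hex := ⟨_, rfl⟩
  rw [← hSS] at hS hmin
  refine ⟨S, hS.1, hS.2, fun s h1 h2 h3 => hmin s h2 ⟨h1, h3⟩, ?_⟩
  have hpow : 2 ≤ 2 ^ (2 * i + 2) := by
    calc 2 = 2 ^ 1 := by norm_num
      _ ≤ _ := Nat.pow_le_pow_right (by norm_num) (by omega)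
  rcases Nat.eq_or_lt_of_le hS.1 with h | h
  · rw [← h]
    have h1 := two_pow_s0_le n
    calc 2 ^ s0 n ≤ 2 * (ck (ι i) n + 1) := by omega
      _ ≤ _ := Nat.mul_le_mul_right _ hpow
  · have h1 := hmin (S - 1) (by omega)
    have h2 : ¬ dpA ι n i (S - 1) := fun h' => h1 ⟨by omega, Or.inl ⟨i, hie, h'⟩⟩
    by_cases hc : 2 * i + 1 ≤ S - 1
    · have h3 : 2 ^ (S - 1 - (2 * i + 1)) < T := by
        by_contra hcon
        exact h2 ⟨hc, dp_hb_mono hT (not_lt.1 hcon)⟩
      have h4 : 2 ^ S = 2 ^ (2 * i + 2) * 2 ^ (S - 1 - (2 * i + 1)) := by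
        rw [← pow_add]
        congr 1
        omega
      rw [h4]
      exact Nat.mul_le_mul_left _ (by omega)
    · calc 2 ^ S ≤ 2 ^ (2 * i + 2) * 1 := by
            rw [mul_one]
            exact Nat.pow_le_pow_right (by norm_num) (by omega)
        _ ≤ _ := Nat.mul_le_mul_left _ (by omega)

private theorem dp_quad (s : ℕ) : (2 * s + 1) * (s + 1) ≤ 4 * 2 ^ s := by
  induction s with
  | zero => norm_num
  | succ s ih =>
    rcases Nat.lt_or_ge s 2 with h | h
    · interval_cases s <;> norm_num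
    · have h1 : (2 * (s + 1) + 1) * (s + 1 + 1) ≤ 2 * ((2 * s + 1) * (s + 1)) := by nlinarith
      calc _ ≤ 2 * ((2 * s + 1) * (s + 1)) := h1
        _ ≤ 2 * (4 * 2 ^ s) := Nat.mul_le_mul_left _ ih
        _ = 4 * 2 ^ (s + 1) := by ring

private theorem dp_geo (a N : ℕ) : ∑ j ∈ Finset.range N, 2 ^ (a + j) ≤ 2 ^ (a + N) := by
  induction N with
  | zero => simp
  | succ N ih =>
    rw [Finset.sum_range_succ]
    calc _ ≤ 2 ^ (a + N) + 2 ^ (a + N) := by omega
      _ = 2 ^ (a + (N + 1)) := by ring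

open Classical in
private theorem dp_main (jj : Stmt) (κj : ℕ) (hjj : ∀ (x : List Bool) (s : ℕ) (σ : St)
    (L : List Entry), Env σ x → σ.v 41 = s → σ.v 42 = 2 ^ s → StoredAt σ 10 0 (encE L) →
    ∃ τ, Reach jj σ (κj * (2 ^ s + (L.length + 1) * (s + 1))) τ ∧ Env τ x ∧
      (∀ j < L.length, τ.a 4 j = if evt L x j s then 1 else 0) ∧
      (∀ j < L.length, evt L x j s = true → τ.a 5 j = if one L x j s then 1 else 0) ∧
      Fr LV LA σ τ) (ι : ℕ → ℕ) (k : ℕ) (x : List Bool) (e S : ℕ) (σ : St) (hE : Env σ x)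
    (hst : StoredAt σ 10 0 (encE (entD ι k))) (h101 : σ.v 101 = e) (hek : e < k)
    (h41 : σ.v 41 = s0 x.length) (h42 : σ.v 42 = 2 ^ s0 x.length) (h103 : σ.v 103 = 1)
    (h104 : σ.v 104 = 0) (hks : k ≤ s0 x.length) (hS : s0 x.length ≤ S)
    (hstop : (∃ j ≤ e, dpA ι x.length j S) ∨ dpB x e S)
    (hmin : ∀ s, s0 x.length ≤ s → s < S → ¬ ((∃ j ≤ e, dpA ι x.length j s) ∨ dpB x e s)) :
    ∃ τ, Reach (.whl 103 (.seq jj dpTest)) σ ((10 * κj + 51) * 2 ^ S) τ ∧ τ.out = σ.out ∧
      τ.v 104 = if (¬ ∃ j ≤ e, dpA ι x.length j S) ∧ dpB x e S ∧ ¬ Acc e x then 1 else 0 := by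
  obtain ⟨a, ha⟩ : ∃ a, a = s0 x.length := ⟨_, rfl⟩
  rw [← ha] at h41 h42 hks hS hmin
  obtain ⟨N, hN⟩ : ∃ N, a + N = S + 1 := ⟨S + 1 - a, by omega⟩
  have hlen := dp_entD_len ι k
  have hL := Reach.loop (v := 103) (s := .seq jj dpTest)
    N (fun j τ => Env τ x ∧ Fr (LV ∪ {41, 42, 103, 104}) LA σ τ ∧ τ.v 41 = ((a + j : ℕ) : ℤ) ∧
      τ.v 42 = 2 ^ (a + j) ∧ (j < N → τ.v 103 = 1 ∧ τ.v 104 = 0) ∧
      (j = N → τ.v 103 = 0 ∧ τ.v 104 =
        if (¬ ∃ j ≤ e, dpA ι x.length j S) ∧ dpB x e S ∧ ¬ Acc e x then 1 else 0))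
    (fun j => κj * (2 ^ (a + j) + (2 * k + 1) * (a + j + 1)) + (6 * e + 24))
    (by
      rintro j hj τ ⟨-, -, -, -, h, -⟩
      rw [(h hj).1]
      norm_num)
    (by
      rintro τ ⟨-, -, -, -, -, h⟩
      rw [(h rfl).1]
      norm_num)
    (by
      rintro j hj τ ⟨hEτ, hF, t41, t42, hlt, -⟩
      have h10 : τ.a 10 = σ.a 10 := hF.a 10 (by simp [LA])
      have hst' : StoredAt τ 10 0 (encE (entD ι k)) := by
        intro m hm
        rw [h10]
        exact hst m hm
      obtain ⟨ρ, hR, hEρ, h4, h5, hFρ⟩ := hjj x (a + j) τ (entD ι k) hEτ t41 t42 hst'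
      rw [hlen] at hR h4 h5
      have r101 : ρ.v 101 = e := by
        rw [hFρ.v 101 (by simp [LV]), hF.v 101 (by simp [LV])]
        exact h101
      have r41 : ρ.v 41 = ((a + j : ℕ) : ℤ) := by
        rw [hFρ.v 41 (by simp [LV])]; exact t41
      have r42 : ρ.v 42 = 2 ^ (a + j) := by
        rw [hFρ.v 42 (by simp [LV])]; exact t42
      have r103 : ρ.v 103 = 1 := by
        rw [hFρ.v 103 (by simp [LV])]; exact (hlt hj).1
      have r104 : ρ.v 104 = 0 := by
        rw [hFρ.v 104 (by simp [LV])]; exact (hlt hj).2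
      obtain ⟨ω, hRω, hFω, w41, w42, w103, w104⟩ := dp_test e (a + j)
        (fun m => dpA ι x.length m (a + j)) (dpB x e (a + j)) (Acc e x) ρ r101 r41 r42
        (by
          intro m hm
          rw [h4 (2 * m) (by omega), if_congr (dp_evtA ι k x m (a + j) (by omega)) rfl rfl])
        (by
          rw [h4 (2 * e + 1) (by omega), if_congr (dp_evtB ι k x e (a + j) hek) rfl rfl])
        (by
          intro hB
          rw [h5 (2 * e + 1) (by omega) ((dp_evtB ι k x e (a + j) hek).2 hB),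
            if_congr (dp_oneB ι k x e (a + j) hek hB) rfl rfl])
      refine ⟨ω, hR.seq hRω, ?_, ?_, w41, w42, ?_, ?_⟩
      · exact dp_env hEρ hFω (by simp) (by simp) (by simp) (by simp)
      · refine hF.trans ((hFρ.mono Set.subset_union_left le_rfl).trans
          (hFω.mono ?_ (Set.empty_subset _)))
        intro v hv
        simp only [LV, Set.mem_union, Set.mem_insert_iff, Set.mem_singleton_iff, Set.mem_ofPred_eq]
          at hv ⊢
        omega
      · intro hj1
        have hm := hmin (a + j) (by omega) (by omega)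
        rw [w103, w104, if_neg hm, if_neg (fun h => hm (Or.inr h.2))]
        exact ⟨r103, r104⟩
      · intro hj1
        have hSa : S = a + j := by omega
        rw [w103, w104]
        rw [hSa] at hstop ⊢
        rw [if_pos hstop]
        refine ⟨rfl, ?_⟩
        by_cases hA : ∃ m ≤ e, dpA ι x.length m (a + j)
        · simp only [hA, not_true_eq_false, false_and, if_false]
          exact r104
        · have hB : dpB x e (a + j) := hstop.resolve_left hA
          by_cases hAcc : Acc e x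
          · simp [hA, hB, hAcc]
          · simp [hA, hB, hAcc])
    σ
    (by
      refine ⟨hE, Fr.refl _ _ _, by simpa using h41, by simpa using h42, fun _ => ⟨h103, h104⟩, ?_⟩
      intro h0
      omega)
  obtain ⟨τ, hR, -, hF, -, -, -, hfin⟩ := hL
  refine ⟨τ, hR.mono ?_, hF.out, (hfin rfl).2⟩
  have hterm : ∀ j ∈ Finset.range N, κj * (2 ^ (a + j) + (2 * k + 1) * (a + j + 1)) +
      (6 * e + 24) + 1 ≤ (5 * κj + 25) * 2 ^ (a + j) := by
    intro j _
    have h1 : (2 * k + 1) * (a + j + 1) ≤ 4 * 2 ^ (a + j) := by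
      calc (2 * k + 1) * (a + j + 1) ≤ (2 * (a + j) + 1) * (a + j + 1) :=
            Nat.mul_le_mul_right _ (by omega)
        _ ≤ _ := dp_quad (a + j)
    have h2 : a + j + 1 ≤ 2 ^ (a + j) := Nat.lt_two_pow_self
    have h3 : κj * (2 ^ (a + j) + (2 * k + 1) * (a + j + 1)) ≤ κj * (5 * 2 ^ (a + j)) :=
      Nat.mul_le_mul_left _ (by omega)
    have h4 : 6 * e + 24 + 1 ≤ 25 * 2 ^ (a + j) := by omega
    calc _ ≤ κj * (5 * 2 ^ (a + j)) + 25 * 2 ^ (a + j) := by omega
      _ = _ := by ring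
  have hsum := (Finset.sum_le_sum hterm).trans_eq (Finset.mul_sum _ _ _).symm
  have hg := Nat.mul_le_mul_left (5 * κj + 25) (dp_geo a N)
  have hpow : 2 ^ (a + N) = 2 * 2 ^ S := by
    rw [hN, ← pow_succ']
  rw [hpow] at hg
  have hone : 1 ≤ 2 ^ S := Nat.one_le_two_pow
  calc _ ≤ (5 * κj + 25) * (2 * 2 ^ S) + 2 ^ S := Nat.add_le_add (hsum.trans hg) hone
    _ = _ := by ring

private theorem dp_count_xs {e n : ℕ} : (xs e n).count true = e := by
  unfold xs
  rw [List.count_append, List.count_replicate, List.count_replicate]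
  simp

/-- membership in the diagonal set -/
private theorem dp_mem (ι κ : ℕ → ℕ) (i : ℕ) (x : List Bool) (S : ℕ)
    (hS : s0 x.length ≤ S) (hx : x = xs (x.count true) x.length) (hi : i ≤ x.count true)
    (hk : x.count true < κ x.length)
    (hf : ¬ ∃ m < κ x.length, Act ι (κ m) (x.count true) m)
    (hstop : (∃ j ≤ x.count true, dpA ι x.length j S) ∨ dpB x (x.count true) S)
    (hmin : ∀ s, s0 x.length ≤ s → s < S →
      ¬ ((∃ j ≤ x.count true, dpA ι x.length j s) ∨ dpB x (x.count true) s)) :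
    x ∈ BFrom ι κ i ↔ ((¬ ∃ j ≤ x.count true, dpA ι x.length j S) ∧ dpB x (x.count true) S ∧
      ¬ Acc (x.count true) x) := by
  have hle : x.count true ≤ x.length := List.count_le_length
  constructor
  · rintro ⟨e, n, hie, hxe, hno, hact, hacc⟩
    have hen : e ≤ n := hact.2.1
    have hn : x.length = n := by rw [hxe, dp_xs_len hen]
    have he : x.count true = e := by rw [hxe]; exact dp_count_xs
    subst hn
    rw [he] at hstop hmin ⊢
    rw [← hxe] at hacc
    obtain ⟨-, -, s, hs0, hse, hbs, hcl⟩ := hact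
    rw [← hxe] at hbs
    have hSs : S ≤ s := by
      by_contra hcon
      exact hmin s hs0 (not_le.1 hcon) (Or.inr ⟨hse, hbs⟩)
    have hnA : ¬ ∃ j ≤ e, dpA ι x.length j S := by
      rintro ⟨j, hj, hA⟩
      exact hcl j hj (dp_A_mono hA hSs)
    exact ⟨hnA, hstop.resolve_left hnA, hacc⟩
  · rintro ⟨hnA, hB, hacc⟩
    refine ⟨x.count true, x.length, hi, hx, ?_, ⟨hk, hle, S, hS, hB.1, ?_, ?_⟩, ?_⟩
    · intro m hm hact
      exact hf ⟨m, hm, hact⟩
    · rw [← hx]; exact hB.2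
    · intro j hj hA
      exact hnA ⟨j, hj, hA⟩
    · rw [← hx]; exact hacc

private theorem dp_mem' (ι κ : ℕ → ℕ) (i : ℕ) (x : List Bool) (h : x ∈ BFrom ι κ i) :
    x = xs (x.count true) x.length ∧ i ≤ x.count true ∧ x.count true < κ x.length ∧
      ¬ ∃ m < κ x.length, Act ι (κ m) (x.count true) m := by
  obtain ⟨e, n, hie, hxe, hno, hact, hacc⟩ := h
  have hen : e ≤ n := hact.2.1
  have hn : x.length = n := by rw [hxe, dp_xs_len hen]
  have he : x.count true = e := by rw [hxe]; exact dp_count_xs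
  subst hn
  rw [he]
  exact ⟨hxe, hie, hact.1, fun ⟨m, hm, h⟩ => hno m hm h⟩

/-- Program: read the input, check that it has the form `1^e 0^(n-e)`, find `e`; store the table
`d n`, its level is `k = (first entry) / 2`; if `e < i`, or `k ≤ e`, or the flag of `e` (at position
`length - k + e`) is 1, print 0. Else for `s = s0 n, ...`: `jj_spec`; if a clock `2 j`, `j ≤ e`, has
halted print 0; else if entry `2 e + 1` has halted print 1 minus its acceptance bit. It stops at the
latest when the clock `ι i` has halted. -/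
theorem d_prog (ι κ : ℕ → ℕ) (ht : ∀ j, Tot (ι j)) (d : ℕ → List ℕ) (hd : LinTab d)
    (hdκ : ∀ n, d n = PsiD ι ((List.range (κ n)).map d)) (hκ : ∀ n, κ n ≤ cap n) (i : ℕ) :
    DTIME (ck (ι i)) (BFrom ι κ i) := by
  classical
  obtain ⟨κt, htab⟩ := hd
  obtain ⟨tab, htab⟩ := htab 10 102 le_rfl (by norm_num)
  obtain ⟨κj, hjj⟩ := jj_spec
  obtain ⟨jj, hjj⟩ := hjj 10 le_rfl
  obtain ⟨rd, κr, hrd⟩ := read_input 100 le_rfl
  obtain ⟨r, rest, κc, hcomp⟩ := compile_param
    (.seq rd (.seq dpCnt (.seq dpChk (.seq tab (.seq (dpLev i) (.seq dpPow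
      (.seq (.whl 103 (.seq jj dpTest)) (.print 104)))))))) 100
  obtain ⟨C, hC⟩ : ∃ C, C = κr + κt + (10 * κj + 51) * 2 ^ (2 * i + 2) + 100 := ⟨_, rfl⟩
  refine ⟨Instr.const r ((0 : ℕ) : ℤ) :: rest, κc * (C + 1), fun x => ?_⟩
  obtain ⟨n, hn⟩ : ∃ n, n = x.length := ⟨_, rfl⟩
  obtain ⟨e, he⟩ : ∃ e, e = x.count true := ⟨_, rfl⟩
  have hen : e ≤ x.length := by rw [he]; exact List.count_le_length
  -- read
  obtain ⟨σ0, hR0, hE0, ho0, -, -, -, -⟩ := hrd x ((0 : ℕ) : ℤ)
  -- count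
  obtain ⟨σ1, hR1, hF1, h1e⟩ := dp_cnt x σ0 hE0
  rw [← he] at h1e
  have hE1 : Env σ1 x := dp_env hE0 hF1 (by simp) (by simp) (by simp) (by simp)
  -- check
  obtain ⟨σ2, hR2, hF2, h2⟩ := dp_chk x σ1 e hen hE1 h1e
  have hE2 : Env σ2 x := dp_env hE1 hF2 (by simp) (by simp) (by simp) (by simp)
  have h2e : σ2.v 101 = e := by rw [hF2.v 101 (by simp)]; exact h1e
  -- table
  obtain ⟨σ3, hR3, hE3, hst3, hl3, hF3⟩ := htab x σ2 hE2
  have h3e : σ3.v 101 = e := by rw [hF3.v 101 (by simp [LV])]; exact h2e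
  have h3c : σ3.v 103 = σ2.v 103 := hF3.v 103 (by simp [LV])
  rw [← hn] at hst3 hl3
  rw [dp_table ι κ d hdκ n] at hst3 hl3
  obtain ⟨k, hk⟩ : ∃ k, k = κ n := ⟨_, rfl⟩
  obtain ⟨f, hf⟩ : ∃ f, f = satD ι ((List.range (κ n)).map κ) := ⟨_, rfl⟩
  rw [← hf, ← hk] at hst3 hl3
  have hfe : f e = if ∃ m < k, Act ι (κ m) e m then 1 else 0 := by
    rw [hf, dp_sat, ← hk]
  -- level
  obtain ⟨σ4, hR4, hF4, h4, h4o⟩ := dp_lev i (entD ι k) k (dp_entD_len ι k) f σ3 e h3e hst3 hl3
  have hE4 : Env σ4 x := dp_env hE3 hF4 (by simp) (by simp) (by simp) (by simp)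
  have h4e : σ4.v 101 = e := by rw [hF4.v 101 (by simp)]; exact h3e
  have h4a : σ4.a 10 = σ3.a 10 := hF4.a 10 (by simp)
  -- power
  obtain ⟨σ5, hR5, hF5, h5s, h5p⟩ := dp_pow n σ4 (by rw [hE4.n, hn])
  have hE5 : Env σ5 x := dp_env hE4 hF5 (by simp) (by simp) (by simp) (by simp)
  have h5e : σ5.v 101 = e := by rw [hF5.v 101 (by simp)]; exact h4e
  have h5a : σ5.a 10 = σ3.a 10 := by rw [hF5.a 10 (by simp)]; exact h4a
  have h5c : σ5.v 103 = σ4.v 103 := hF5.v 103 (by simp)
  have h5o : σ5.v 104 = 0 := by rw [hF5.v 104 (by simp)]; exact h4o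
  have hst5 : StoredAt σ5 10 0 (encE (entD ι k)) := by
    intro m hm
    have := hst3 m (by rw [List.length_append]; omega)
    rw [h5a, this, List.getElem_append_left hm]
  have hout5 : σ5.out = [] := by
    rw [hF5.out, hF4.out, hF3.out, hF2.out, hF1.out, ho0]
  have hkn : k ≤ n := by
    rw [hk]
    exact (hκ n).trans ((cap_le_s0 n).trans (Nat.size_le.2 Nat.lt_two_pow_self))
  have hnc : n ≤ ck (ι i) n := dp_le_ck _ _
  -- the loop
  have hloop : ∃ τ, Reach (.whl 103 (.seq jj dpTest)) σ5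
      ((10 * κj + 51) * 2 ^ (2 * i + 2) * (ck (ι i) n + 1)) τ ∧ τ.out = [] ∧
      τ.v 104 = if x ∈ BFrom ι κ i then 1 else 0 := by
    by_cases hc : x = xs e x.length ∧ i ≤ e ∧ e < k ∧ f e = 0
    · obtain ⟨hx, hie, hek, hf0⟩ := hc
      have h103 : σ5.v 103 = 1 := by
        rw [h5c, h4, if_pos ⟨hie, hek, hf0⟩, h3c, h2, if_pos hx]
      obtain ⟨S, hS0, hstop, hmin, hSb⟩ := dp_time ι n i e hie (ht i) (dpB x e)
      rw [hn] at hS0 hstop hmin
      obtain ⟨τ, hRτ, hoτ, hvτ⟩ := dp_main jj κj hjj ι k x e S σ5 hE5 hst5 h5e hek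
        (by rw [h5s, hn]) (by rw [h5p, hn]) h103 h5o
        (by rw [hk, ← hn]; exact (hκ n).trans (cap_le_s0 n)) hS0 hstop hmin
      refine ⟨τ, hRτ.mono ?_, by rw [hoτ, hout5], ?_⟩
      · rw [mul_assoc]
        exact Nat.mul_le_mul_left _ hSb
      · rw [hvτ]
        have hfl : ¬ ∃ m < κ x.length, Act ι (κ m) (x.count true) m := by
          intro h
          rw [hfe, if_pos (by rw [hk, hn, he]; exact h)] at hf0
          exact absurd hf0 (by norm_num)
        rw [he] at hx hie hek hstop hmin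
        rw [hk, hn] at hek
        rw [if_congr (dp_mem ι κ i x S hS0 hx hie hek hfl hstop hmin) rfl rfl, he]
    · have h103 : σ5.v 103 = 0 := by
        rw [h5c, h4]
        split_ifs with h
        · rw [h3c, h2, if_neg (fun hx => hc ⟨hx, h⟩)]
        · rfl
      refine ⟨σ5, (Reach.while_end (by rw [h103]; norm_num)).mono ?_, hout5, ?_⟩
      · exact Nat.one_le_iff_ne_zero.2 (by positivity)
      · rw [h5o, if_neg]
        intro hmem
        obtain ⟨m1, m2, m3, m4⟩ := dp_mem' ι κ i x hmem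
        refine hc ⟨by rw [he]; exact m1, by rw [he]; exact m2, by rw [he, hk, hn]; exact m3, ?_⟩
        rw [hfe, if_neg]
        rw [he, hk, hn]
        exact m4
  obtain ⟨σ6, hR6, ho6, h6⟩ := hloop
  have hR7 : Reach (.print 104) σ6 1 { σ6 with out := σ6.out ++ [σ6.v 104] } :=
    ⟨1, le_rfl, Big.print σ6 104⟩
  have hall := hR0.seq (hR1.seq (hR2.seq (hR3.seq (hR4.seq (hR5.seq (hR6.seq hR7))))))
  obtain ⟨c, hc, hbig⟩ := hall
  obtain ⟨t, -, htc, hrun⟩ := hcomp 0 x c _ hbig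
  refine ⟨t, ?_, ?_⟩
  · refine htc.trans ?_
    rw [mul_assoc]
    refine Nat.mul_le_mul_left _ ?_
    rw [← hn] at hc ⊢
    have hcC : c ≤ C * (ck (ι i) n + 1) := by
      refine hc.trans ?_
      rw [hC]
      have e1 : κr * (n + 1) ≤ κr * (ck (ι i) n + 1) := Nat.mul_le_mul_left _ (by omega)
      have e2 : κt * (n + 1) ≤ κt * (ck (ι i) n + 1) := Nat.mul_le_mul_left _ (by omega)
      have e3 : (κr + κt + (10 * κj + 51) * 2 ^ (2 * i + 2) + 100) * (ck (ι i) n + 1) =
        κr * (ck (ι i) n + 1) + κt * (ck (ι i) n + 1) +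
          (10 * κj + 51) * 2 ^ (2 * i + 2) * (ck (ι i) n + 1) + 100 * (ck (ι i) n + 1) := by
        ring
      rw [e3]
      omega
    calc c + 1 ≤ C * (ck (ι i) n + 1) + 1 := by omega
      _ ≤ C * (ck (ι i) n + 1) + (ck (ι i) n + 1) := by omega
      _ = (C + 1) * (ck (ι i) n + 1) := by ring
  · have : ({ σ6 with out := σ6.out ++ [σ6.v 104] } : St).out =
        [if x ∈ BFrom ι κ i then 1 else 0] := by
      show σ6.out ++ [σ6.v 104] = _
      rw [ho6, h6]
      rfl
    rw [this] at hrun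
    convert hrun using 3

end Pool.Agent.H71.CT
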