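import Pool.Agent.H71.CT.Env

/-!
Lists of programs to be run in parallel.
-/

namespace Pool.Agent.H71.CT

/-- Entry of a table: mode (`true`: run on the zero input) and program. -/
abbrev Entry : Type := Bool × Prog

/-- flat code of a list of entries: number of entries, then mode, number of instructions, code -/
def encE (L : List Entry) : List ℕ :=
  L.length :: L.flatMap (fun e => e.1.toNat :: e.2.length :: ecs e.2)

/-- the input of an entry -/
def inpE (e : Entry) (x : List Bool) : List Bool :=
  if e.1 then List.replicate x.length false else x

/-- the configuration of entry `j` after its budget `2 ^ (s - (j + 1))` -/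
def cfE (e : Entry) (x : List Bool) (j s : ℕ) : Cfg := conf e.2 (inpE e x) (2 ^ (s - (j + 1)))

open Classical in
/-- entry `j` has halted by time `s` -/
noncomputable def evt (L : List Entry) (x : List Bool) (j s : ℕ) : Bool :=
  match L[j]? with
  | none => false
  | some e => decide (j + 1 ≤ s ∧ Halted e.2 (cfE e x j s))

open Classical in
/-- the output of entry `j` at time `s` is `[1]` -/
noncomputable def one (L : List Entry) (x : List Bool) (j s : ℕ) : Bool :=
  match L[j]? with
  | none => false
  | some e => decide ((cfE e x j s).out = [1])

end Pool.Agent.H71.CT
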