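import Pool.Agent.H71.CT.Ram

/-!
Enumeration of the programs.
-/

namespace Pool.Agent.H71.CT

/-- raw instruction to instruction -/
def toI (q : ℕ × ℕ × ℕ × ℕ) : Instr :=
  match q.1 with
  | 0 => .const q.2.1 (q.2.2.1 : ℤ)
  | 1 => .const q.2.1 (-(q.2.2.1 : ℤ))
  | 2 => .add q.2.1 q.2.2.1 q.2.2.2
  | 3 => .sub q.2.1 q.2.2.1 q.2.2.2
  | 4 => .load q.2.1 q.2.2.1
  | 5 => .store q.2.1 q.2.2.1
  | 6 => .jpos q.2.1 q.2.2.1
  | 7 => .read q.2.1
  | _ => .print q.2.1

/-- instruction to raw instruction -/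
def ofI : Instr → ℕ × ℕ × ℕ × ℕ
  | .const i c => if 0 ≤ c then (0, i, c.toNat, 0) else (1, i, (-c).toNat, 0)
  | .add i j k => (2, i, j, k)
  | .sub i j k => (3, i, j, k)
  | .load i j => (4, i, j, 0)
  | .store i j => (5, i, j, 0)
  | .jpos j m => (6, j, m, 0)
  | .read i => (7, i, 0, 0)
  | .print i => (8, i, 0, 0)

theorem toI_ofI (a : Instr) : toI (ofI a) = a := by
  cases a with
  | const i c =>
    by_cases h : 0 ≤ c
    · simp [ofI, toI, h]
    · simp only [ofI, h, if_false, toI]
      congr 1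
      omega
  | _ => simp [ofI, toI]

/-- program number `e` -/
def pr (e : ℕ) : Prog := (Denumerable.ofNat (List (ℕ × ℕ × ℕ × ℕ)) e).map toI

/-- a number of a program -/
def num (p : Prog) : ℕ := Encodable.encode (p.map ofI)

theorem pr_num (p : Prog) : pr (num p) = p := by
  simp only [pr, num, Denumerable.ofNat_encode, List.map_map]
  conv_rhs => rw [← List.map_id p]
  apply List.map_congr_left
  intro a _
  exact toI_ofI a

/-- program `e` halts on `y` within `B` steps -/
def hb (e : ℕ) (y : List Bool) (B : ℕ) : Bool :=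
  decide ((pr e).length ≤ (conf (pr e) y B).pc)

/-- output code after `B` steps: 1 if the output is `[1]`, 2 if it is `[0]`, else 0 -/
def oc (e : ℕ) (y : List Bool) (B : ℕ) : ℕ :=
  if (conf (pr e) y B).out = [1] then 1 else if (conf (pr e) y B).out = [0] then 2 else 0

theorem hb_iff {e : ℕ} {y : List Bool} {B : ℕ} :
    hb e y B = true ↔ Halted (pr e) (conf (pr e) y B) := by
  simp [hb, Halted]

end Pool.Agent.H71.CT
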