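import Pool.Agent.H71.CT.InterpDef
import Pool.Agent.H71.CT.Enum

/-!
Environment conventions for while programs.

Variables: below 40 interpreter; 40 = input length; 41 = current time `s`; 42 = `2 ^ s`;
43 ... 99 scratch; from 100 on persistent. Arrays: 0 = input; 1, 2, 3 interpreter; 4 ... 9 scratch;
from 10 on persistent.
-/

namespace Pool.Agent.H71.CT

/-- binary length: `n < 2 ^ s0 n ≤ 2 * n` (for `n > 0`) -/
def s0 (n : ℕ) : ℕ := Nat.size n

/-- level cap: doubly logarithmic -/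
def cap (n : ℕ) : ℕ := Nat.size (Nat.size n)

/-- budget for look back -/
def bud (n : ℕ) : ℕ := 2 ^ (s0 n / 2)

/-- standard environment for the input `x` -/
structure Env (σ : St) (x : List Bool) : Prop where
  n : σ.v 40 = x.length
  inp : ∀ i (h : i < x.length), σ.a 0 i = if x[i] then 1 else 0
  stamps : Stamps σ

/-- scratch variables -/
def LV : Set ℕ := {v | v < 100 ∧ v ≠ 40 ∧ v ≠ 41 ∧ v ≠ 42}

/-- scratch arrays -/
def LA : Set ℕ := {a | a < 10 ∧ a ≠ 0}

/-- The table `d n` can be stored in any persistent array in linear time. -/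
def LinTab (d : ℕ → List ℕ) : Prop :=
  ∃ κ : ℕ, ∀ ta tl : ℕ, 10 ≤ ta → 100 ≤ tl → ∃ s : Stmt, ∀ (x : List Bool) (σ : St), Env σ x →
    ∃ τ, Reach s σ (κ * (x.length + 1)) τ ∧ Env τ x ∧ StoredAt τ ta 0 (d x.length) ∧
      τ.v tl = (d x.length).length ∧ Fr (LV ∪ {tl}) (LA ∪ {ta}) σ τ

/-- Joint realisation in real time of the stopping times `A v n` (`v < cap n`) with horizon `F n`,
together with the bits `stp e n s` of the adversary. `init` is executed once, `tick` once for every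
time `s = s0 n, s0 n + 1, ...`, with cost `O(2 ^ s)`. All persistent variables are in `[100, b)`,
all persistent arrays in `[10, b)`. -/
def JR (A : ℕ → ℕ → ℕ) (F : ℕ → ℕ) (stp : ℕ → ℕ → ℕ → Bool) : Prop :=
  ∃ (b ev ad fv : ℕ) (init tick : Stmt) (Inv : List Bool → ℕ → St → Prop) (κ : ℕ),
    100 ≤ b ∧ 10 ≤ ev ∧ ev < b ∧ 10 ≤ ad ∧ ad < b ∧ 100 ≤ fv ∧ fv < b ∧
    (∀ x σ, Env σ x → ∃ τ, Reach init σ (κ * (x.length + 1)) τ ∧ Env τ x ∧
      Inv x (s0 x.length) τ ∧ Fr (LV ∪ Set.Ico 100 b) (LA ∪ Set.Ico 10 b) σ τ) ∧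
    (∀ x s σ, Env σ x → s0 x.length ≤ s → Inv x s σ → σ.v 41 = s → σ.v 42 = 2 ^ s →
      ∃ τ, Reach tick σ (κ * 2 ^ s) τ ∧ Env τ x ∧ Inv x (s + 1) τ ∧
        Fr (LV ∪ Set.Ico 100 b) (LA ∪ Set.Ico 10 b) σ τ) ∧
    (∀ x s σ, s0 x.length ≤ s → Inv x (s + 1) σ →
      (∀ v < cap x.length, σ.a ev v = if A v x.length ≤ s then (A v x.length : ℤ) else -1) ∧
      (∀ e < cap x.length, σ.a ad e = if stp e x.length s then 1 else 0) ∧
      σ.v fv = if F x.length ≤ s then (F x.length : ℤ) else -1) ∧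
    (∀ x s σ τ, (∀ v, 100 ≤ v → v < b → τ.v v = σ.v v) →
      (∀ a, 10 ≤ a → a < b → τ.a a = σ.a a) → Inv x s σ → Inv x s τ)

/-- the bit: program `e` has halted on the zero input of length `n` by (logarithmic) time `s`; for
`e ≥ K0 n` the bit is 1 -/
def stpK (K0 : ℕ → ℕ) (e n s : ℕ) : Bool :=
  decide (K0 n ≤ e) || (decide (e + 1 ≤ s) && hb e (List.replicate n false) (2 ^ (s - (e + 1))))

/-- program `e` halts on all zero inputs -/
def Tot (e : ℕ) : Prop := ∀ n, ∃ B, hb e (List.replicate n false) B = true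

open Classical in
/-- input length plus halting time of program `e` on the zero input -/
noncomputable def ck (e n : ℕ) : ℕ :=
  if h : ∃ B, hb e (List.replicate n false) B = true then n + Nat.find h else n

/-- `f = O(g)` -/
def Ole (f g : ℕ → ℕ) : Prop := ∃ C, ∀ n, f n ≤ C * (g n + 1)

/-- `a ≤ b + O(1)` -/
def Ale (a b : ℕ → ℕ) : Prop := ∃ C, ∀ n, a n ≤ b n + C

end Pool.Agent.H71.CT
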