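import Pool.Agent.H71.CT.SimRun
import Pool.Agent.H71.CT.ReadInput
import Pool.Agent.H71.CT.Comp

/-! Finite changes of a set. -/

namespace Pool.Agent.H71.CT

/-- arrays, input, output and variable 40 are the same -/
private structure FDS (σ τ : St) : Prop where
  a : τ.a = σ.a
  inp : τ.inp = σ.inp
  out : τ.out = σ.out
  n : τ.v 40 = σ.v 40

private theorem FDS.trans {σ τ ρ : St} (h : FDS σ τ) (h' : FDS τ ρ) : FDS σ ρ :=
  ⟨h'.a.trans h.a, h'.inp.trans h.inp, h'.out.trans h.out, h'.n.trans h.n⟩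

private theorem FDS.refl (σ : St) : FDS σ σ := ⟨rfl, rfl, rfl, rfl⟩

private theorem fds_sv (σ : St) {v : ℕ} (hv : 100 ≤ v) (z : ℤ) : FDS σ (σ.sv v z) :=
  ⟨rfl, rfl, rfl, Function.update_of_ne (by omega) _ _⟩

private theorem fd_prim {s : Stmt} {σ τ : St} (h : Big s σ 1 τ) : Reach s σ 1 τ := ⟨1, le_rfl, h⟩

private theorem fd_v (σ : St) (v w : ℕ) (z : ℤ) :
    (σ.sv v z).v w = if w = v then z else σ.v w := by
  simp [St.sv, Function.update_apply]

/-- if the input from position `i` on is `w` then variable 103 becomes `ans` -/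
private def fdC (ans : ℤ) : ℕ → List Bool → Stmt
  | _, [] => .const 103 ans
  | i, b :: l => .seq (.const 104 i) (.seq (.get 105 0 104)
      (if b then .ite 105 (fdC ans (i + 1) l) .skip else .ite 105 .skip (fdC ans (i + 1) l)))

private theorem fdC_spec (ans : ℤ) (x : List Bool) (w : List Bool) : ∀ (i : ℕ) (σ : St),
    (∀ j (h : j < x.length), σ.a 0 j = if x[j] then 1 else 0) → x.length = i + w.length →
    ∃ τ, Reach (fdC ans i w) σ (3 * w.length + 1) τ ∧ FDS σ τ ∧
      (x.drop i = w → τ.v 103 = ans) ∧ (x.drop i ≠ w → τ.v 103 = σ.v 103) := by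
  induction w with
  | nil =>
    intro i σ _ hlen
    have hd : x.drop i = [] := List.drop_eq_nil_of_le (by simpa using hlen.le)
    refine ⟨σ.sv 103 ans, ?_, fds_sv σ (by norm_num) _, fun _ => ?_, fun h => absurd hd h⟩
    · exact (fd_prim (Big.const σ 103 ans)).mono (by omega)
    · rw [fd_v, if_pos rfl]
  | cons b l ih =>
    intro i σ hin hlen
    have hi : i < x.length := by
      simp only [List.length_cons] at hlen
      omega
    have hd : x.drop i = x[i] :: x.drop (i + 1) := List.drop_eq_getElem_cons hi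
    obtain ⟨σ1, h1⟩ : ∃ s, s = σ.sv 104 (i : ℤ) := ⟨_, rfl⟩
    obtain ⟨σ2, h2⟩ : ∃ s, s = σ1.sv 105 (σ1.a 0 (σ1.v 104).toNat) := ⟨_, rfl⟩
    have r1 : Reach (.const 104 i) σ 1 σ1 := h1 ▸ fd_prim (Big.const σ 104 _)
    have r2 : Reach (.get 105 0 104) σ1 1 σ2 := h2 ▸ fd_prim (Big.get σ1 105 0 104)
    have s2 : FDS σ σ2 := by
      have a1 : FDS σ σ1 := h1 ▸ fds_sv σ (by norm_num) _
      have a2 : FDS σ1 σ2 := h2 ▸ fds_sv σ1 (by norm_num) _
      exact a1.trans a2
    have e104 : σ1.v 104 = i := by rw [h1, fd_v, if_pos rfl]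
    have e105 : σ2.v 105 = if x[i] then 1 else 0 := by
      rw [h2, fd_v, if_pos rfl, e104, Int.toNat_natCast, h1]
      exact hin i hi
    have e103 : σ2.v 103 = σ.v 103 := by
      rw [h2, fd_v, if_neg (by norm_num), h1, fd_v, if_neg (by norm_num)]
    have hin2 : ∀ j (h : j < x.length), σ2.a 0 j = if x[j] then 1 else 0 := by
      intro j hj
      rw [s2.a]
      exact hin j hj
    obtain ⟨τ, q, s3, g1, g2⟩ := ih (i + 1) σ2 hin2 (by
      simp only [List.length_cons] at hlen
      omega)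
    have hcost : 1 + (1 + (3 * l.length + 1 + 1)) ≤ 3 * (b :: l).length + 1 := by
      simp only [List.length_cons]
      omega
    by_cases hb : x[i] = b
    · refine ⟨τ, ?_, s2.trans s3, ?_, ?_⟩
      · refine Reach.mono (r1.seq (r2.seq ?_)) hcost
        cases b with
        | true => exact Reach.ite_pos (by rw [e105, hb]; norm_num) q
        | false => exact Reach.ite_neg (by rw [e105, hb]; norm_num) q
      · intro h
        rw [hd] at h
        exact g1 (List.cons.inj h).2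
      · intro h
        rw [← e103]
        refine g2 (fun h' => h ?_)
        rw [hd, hb, h']
    · refine ⟨σ2, ?_, s2, ?_, fun _ => e103⟩
      · refine Reach.mono (r1.seq (r2.seq (C := 1) (D := 3 * l.length + 1 + 1) ?_)) hcost
        cases b with
        | true =>
          have hx : x[i] = false := by simpa using hb
          exact (Reach.ite_neg (by rw [e105, hx]; norm_num) (Reach.skip σ2)).mono (by omega)
        | false =>
          have hx : x[i] = true := by simpa using hb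
          exact (Reach.ite_pos (by rw [e105, hx]; norm_num) (Reach.skip σ2)).mono (by omega)
      · intro h
        rw [hd] at h
        exact absurd (List.cons.inj h).1 hb

/-- if the input is `w` then variable 103 becomes `ans` -/
private def fdW (ans : ℤ) (w : List Bool) : Stmt :=
  .seq (.const 106 w.length) (.seq (.sub 107 40 106) (.ite 107 .skip
    (.seq (.sub 107 106 40) (.ite 107 .skip (fdC ans 0 w)))))

private theorem fdW_spec (ans : ℤ) (x w : List Bool) (σ : St) (hn : σ.v 40 = x.length)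
    (hin : ∀ j (h : j < x.length), σ.a 0 j = if x[j] then 1 else 0) :
    ∃ τ, Reach (fdW ans w) σ (3 * w.length + 6) τ ∧ FDS σ τ ∧
      (x = w → τ.v 103 = ans) ∧ (x ≠ w → τ.v 103 = σ.v 103) := by
  obtain ⟨σ1, h1⟩ : ∃ s, s = σ.sv 106 (w.length : ℤ) := ⟨_, rfl⟩
  obtain ⟨σ2, h2⟩ : ∃ s, s = σ1.sv 107 (σ1.v 40 - σ1.v 106) := ⟨_, rfl⟩
  obtain ⟨σ3, h3⟩ : ∃ s, s = σ2.sv 107 (σ2.v 106 - σ2.v 40) := ⟨_, rfl⟩
  have r1 : Reach (.const 106 w.length) σ 1 σ1 := h1 ▸ fd_prim (Big.const σ 106 _)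
  have r2 : Reach (.sub 107 40 106) σ1 1 σ2 := h2 ▸ fd_prim (Big.sub σ1 107 40 106)
  have r3 : Reach (.sub 107 106 40) σ2 1 σ3 := h3 ▸ fd_prim (Big.sub σ2 107 106 40)
  have s2 : FDS σ σ2 := by
    have a1 : FDS σ σ1 := h1 ▸ fds_sv σ (by norm_num) _
    have a2 : FDS σ1 σ2 := h2 ▸ fds_sv σ1 (by norm_num) _
    exact a1.trans a2
  have s3 : FDS σ2 σ3 := h3 ▸ fds_sv σ2 (by norm_num) _
  have e2 : σ2.v 107 = (x.length : ℤ) - w.length := by
    rw [h2, fd_v, if_pos rfl, h1, fd_v, if_neg (by norm_num), fd_v, if_pos rfl, hn]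
  have e3 : σ3.v 107 = (w.length : ℤ) - x.length := by
    rw [h3, fd_v, if_pos rfl, s2.n, hn, h2, fd_v, if_neg (by norm_num), h1, fd_v, if_pos rfl]
  have g2 : σ2.v 103 = σ.v 103 := by
    rw [h2, fd_v, if_neg (by norm_num), h1, fd_v, if_neg (by norm_num)]
  have g3 : σ3.v 103 = σ.v 103 := by
    rw [h3, fd_v, if_neg (by norm_num), g2]
  by_cases c2 : 0 < σ2.v 107
  · refine ⟨σ2, ?_, s2, ?_, fun _ => g2⟩
    · exact (r1.seq (r2.seq (Reach.ite_pos c2 (Reach.skip σ2)))).mono (by omega)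
    · rintro rfl
      rw [e2] at c2
      omega
  · by_cases c3 : 0 < σ3.v 107
    · refine ⟨σ3, ?_, s2.trans s3, ?_, fun _ => g3⟩
      · exact (r1.seq (r2.seq (Reach.ite_neg c2 (r3.seq (Reach.ite_pos c3
          (Reach.skip σ3)))))).mono (by omega)
      · rintro rfl
        rw [e3] at c3
        omega
    · have hlen : x.length = 0 + w.length := by
        rw [e2] at c2
        rw [e3] at c3
        omega
      obtain ⟨τ, q, s4, k1, k2⟩ := fdC_spec ans x w 0 σ3 (by
        intro j hj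
        rw [s3.a, s2.a]
        exact hin j hj) hlen
      rw [List.drop_zero] at k1 k2
      refine ⟨τ, ?_, (s2.trans s3).trans s4, k1, fun h => by rw [k2 h, g3]⟩
      exact (r1.seq (r2.seq (Reach.ite_neg c2 (r3.seq (Reach.ite_neg c3 q))))).mono (by omega)

/-- compare with all strings of the list -/
private def fdL (g : List Bool → ℤ) : List (List Bool) → Stmt
  | [] => .skip
  | w :: L => .seq (fdW (g w) w) (fdL g L)

private theorem fdL_spec (g : List Bool → ℤ) (L : List (List Bool)) : ∃ K : ℕ,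
    ∀ (x : List Bool) (σ : St), σ.v 40 = x.length →
    (∀ j (h : j < x.length), σ.a 0 j = if x[j] then 1 else 0) →
    ∃ τ, Reach (fdL g L) σ K τ ∧ FDS σ τ ∧
      (x ∈ L → τ.v 103 = g x) ∧ (x ∉ L → τ.v 103 = σ.v 103) := by
  induction L with
  | nil => exact ⟨0, fun x σ _ _ => ⟨σ, Reach.skip σ, FDS.refl σ, fun h => absurd h (by simp),
      fun _ => rfl⟩⟩
  | cons w L ih =>
    obtain ⟨K, hK⟩ := ih
    refine ⟨3 * w.length + 6 + K, fun x σ hn hin => ?_⟩
    obtain ⟨σ1, q1, s1, a1, a2⟩ := fdW_spec (g w) x w σ hn hin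
    obtain ⟨τ, q2, s2, b1, b2⟩ := hK x σ1 (by rw [s1.n, hn]) (by
      intro j hj
      rw [s1.a]
      exact hin j hj)
    refine ⟨τ, q1.seq q2, s1.trans s2, fun h => ?_, fun h => ?_⟩
    · by_cases hx : x ∈ L
      · exact b1 hx
      · rw [b2 hx]
        rcases List.mem_cons.1 h with h | h
        · rw [a1 h, h]
        · exact absurd h hx
    · rw [List.mem_cons, not_or] at h
      rw [b2 h.2, a2 h.1]

/-- Program: read the input; compare it with the finitely many strings in the symmetric difference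
(straight-line code, one comparison of the length and then of the symbols for each string); if it
is one of them print the right answer, else `sim_run` the given machine on `x` and print its
output. -/
theorem dtime_fin {f : ℕ → ℕ} {A B : Set (List Bool)} (hf : ∀ n, n ≤ f n) (h : DTIME f A)
    (hAB : {x | ¬ (x ∈ A ↔ x ∈ B)}.Finite) : DTIME f B := by
  classical
  obtain ⟨p, c, hp⟩ := h
  obtain ⟨L, hL⟩ : ∃ L : List (List Bool), ∀ x, x ∈ L ↔ ¬ (x ∈ A ↔ x ∈ B) :=
    ⟨hAB.toFinset.toList, fun x => by simp⟩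
  obtain ⟨pr, κ0, hread⟩ := read_input 100 le_rfl
  obtain ⟨ps, κ1, hsim⟩ := sim_run p false
  obtain ⟨K, hlist⟩ := fdL_spec (fun x => if x ∈ B then 1 else 0) L
  obtain ⟨r, rest, κ, hcomp⟩ := compile_param
    (.seq pr (.seq ps (.seq (.const 101 0) (.seq (.get 103 3 101)
      (.seq (fdL (fun x => if x ∈ B then 1 else 0) L) (.print 103)))))) 100
  refine ⟨Instr.const r ((0 : ℕ) : ℤ) :: rest, κ * (κ0 + κ1 * (c + 1) + K + 4), ?_⟩
  intro x
  obtain ⟨t, ht, hR⟩ := hp x
  have hi : inpE (false, p) x = x := by simp [inpE]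
  rw [← hi] at hR
  obtain ⟨σ1, q1, env1, out1, -, -, -, -⟩ := hread x 0
  obtain ⟨σ2, m, q2, env2, v7, a3, -, -, -, -, fr2⟩ := hsim x σ1 t _ env1 hR
  obtain ⟨σ3, h3⟩ : ∃ s, s = σ2.sv 101 0 := ⟨_, rfl⟩
  obtain ⟨σ4, h4⟩ : ∃ s, s = σ3.sv 103 (σ3.a 3 (σ3.v 101).toNat) := ⟨_, rfl⟩
  have q3 : Reach (.const 101 0) σ2 1 σ3 := h3 ▸ fd_prim (Big.const σ2 101 0)
  have q4 : Reach (.get 103 3 101) σ3 1 σ4 := h4 ▸ fd_prim (Big.get σ3 103 3 101)
  have s4 : FDS σ2 σ4 := by
    have a1 : FDS σ2 σ3 := h3 ▸ fds_sv σ2 (by norm_num) _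
    have a2 : FDS σ3 σ4 := h4 ▸ fds_sv σ3 (by norm_num) _
    exact a1.trans a2
  have e4 : σ4.v 103 = if x ∈ A then 1 else 0 := by
    have e : σ2.a 3 0 = _ := a3 0 (by simp)
    rw [h4, fd_v, if_pos rfl, h3, fd_v, if_pos rfl, Int.toNat_zero]
    show σ2.a 3 0 = _
    rw [e, List.getElem_singleton, hi]
  obtain ⟨σ5, q5, s5, k1, k2⟩ := hlist x σ4 (by rw [s4.n, env2.n]) (by
    intro j hj
    rw [s4.a]
    exact env2.inp j hj)
  have e5 : σ5.v 103 = if x ∈ B then 1 else 0 := by
    by_cases hx : x ∈ L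
    · exact k1 hx
    · have hx' : x ∈ A ↔ x ∈ B := by
        by_contra hh
        exact hx ((hL x).2 hh)
      rw [k2 hx, e4]
      simp only [hx']
  have q6 : Reach (.print 103) σ5 1 { σ5 with out := σ5.out ++ [σ5.v 103] } :=
    fd_prim (Big.print σ5 103)
  obtain ⟨C, hC, hbig⟩ := q1.seq (q2.seq (q3.seq (q4.seq (q5.seq q6))))
  obtain ⟨t', -, ht', hrun⟩ := hcomp 0 x C _ (by simpa using hbig)
  refine ⟨t', ht'.trans ?_, ?_⟩
  · have hfx := hf x.length
    have h1 : C + 1 ≤ (κ0 + κ1 * (c + 1) + K + 4) * (f x.length + 1) := by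
      have e1 : κ0 * (x.length + 1) ≤ κ0 * (f x.length + 1) := Nat.mul_le_mul_left _ (by omega)
      have e2 : κ1 * (x.length + t + 1) ≤ κ1 * ((c + 1) * (f x.length + 1)) := by
        refine Nat.mul_le_mul_left _ ?_
        have : (c + 1) * (f x.length + 1) = c * (f x.length + 1) + (f x.length + 1) := by ring
        omega
      have e3 : K + 4 ≤ (K + 4) * (f x.length + 1) := Nat.le_mul_of_pos_right _ (by omega)
      have e4 : (κ0 + κ1 * (c + 1) + K + 4) * (f x.length + 1) =
          κ0 * (f x.length + 1) + κ1 * ((c + 1) * (f x.length + 1)) +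
            (K + 4) * (f x.length + 1) := by ring
      omega
    calc κ * (C + 1) ≤ κ * ((κ0 + κ1 * (c + 1) + K + 4) * (f x.length + 1)) :=
          Nat.mul_le_mul_left _ h1
      _ = _ := by ring
  · have e6 : σ5.out = [] := by rw [s5.out, s4.out, fr2.out, out1]
    have e7 : ({ σ5 with out := σ5.out ++ [σ5.v 103] } : St).out = [if x ∈ B then 1 else 0] := by
      show σ5.out ++ [σ5.v 103] = _
      rw [e6, e5, List.nil_append]
    rw [e7] at hrun
    exact hrun

end Pool.Agent.H71.CT
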