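import Pool.Agent.H71.CT.ReadInput
import Pool.Agent.H71.CT.Comp

/-! Two time constructible functions. -/

namespace Pool.Agent.H71.CT

private def tcFunBodyA : Stmt := .seq (.add 2 2 2) (.seq (.read 3) (.sub 5 4 3))

private theorem tcFun_sym_pos (b : Bool) (l : List Bool) : 0 < 2 - sym (b :: l) := by
  cases b <;> simp [sym]

private theorem tcFun_loopA : ∀ (y : List Bool) (σ : St), σ.v 5 = 2 - sym y → σ.inp = y.tail →
    σ.v 4 = 2 → ∃ c τ, c ≤ 4 * y.length + 1 ∧ Big (.whl 5 tcFunBodyA) σ c τ ∧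
      τ.v 2 = σ.v 2 * 2 ^ y.length ∧ τ.out = σ.out := by
  intro y
  induction y with
  | nil =>
    intro σ h5 _ _
    refine ⟨1, σ, by simp, Big.while_end (by rw [h5]; simp [sym]), by simp, rfl⟩
  | cons b l ih =>
    intro σ h5 hi h4
    have hpos : 0 < σ.v 5 := by rw [h5]; exact tcFun_sym_pos b l
    have e1 := Big.add σ 2 2 2
    set σ1 := σ.sv 2 (σ.v 2 + σ.v 2) with hσ1
    have e2 := Big.read σ1 3
    set σ2 : St := { (σ1.sv 3 (sym σ1.inp)) with inp := σ1.inp.tail } with hσ2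
    have e3 := Big.sub σ2 5 4 3
    set σ3 := σ2.sv 5 (σ2.v 4 - σ2.v 3) with hσ3
    have i1 : σ1.inp = l := by simp [hσ1, St.sv, hi]
    have g5 : σ3.v 5 = 2 - sym l := by
      simp [hσ3, hσ2, hσ1, St.sv, h4, hi]
    have gi : σ3.inp = l.tail := by
      simp [hσ3, hσ2, hσ1, St.sv, hi]
    have g4 : σ3.v 4 = 2 := by
      simp [hσ3, hσ2, hσ1, St.sv, h4]
    have g2 : σ3.v 2 = σ.v 2 + σ.v 2 := by
      simp [hσ3, hσ2, hσ1, St.sv]
    have go : σ3.out = σ.out := rfl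
    obtain ⟨c, τ, hc, hB, ht, ho⟩ := ih σ3 g5 gi g4
    refine ⟨(1 + (1 + 1)) + c + 1, τ, ?_,
      Big.while_step hpos (Big.seq e1 (Big.seq e2 e3)) hB, ?_, ?_⟩
    · simp only [List.length_cons]; omega
    · rw [ht, g2, List.length_cons, pow_succ]; ring
    · rw [ho, go]

private def tcFunBodyB : Stmt := .seq (.add 6 6 1) (.seq (.sub 8 1 8)
  (.seq (.ite 8 .skip (.add 2 2 2)) (.seq (.read 3) (.sub 5 4 3))))

private theorem tcFun_loopB : ∀ (y : List Bool) (k : ℕ) (σ : St), σ.v 5 = 2 - sym y →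
    σ.inp = y.tail → σ.v 4 = 2 → σ.v 1 = 1 → σ.v 6 = k → σ.v 8 = (k % 2 : ℕ) →
    σ.v 2 = 2 ^ (k / 2) → ∃ c τ, c ≤ 7 * y.length + 1 ∧ Big (.whl 5 tcFunBodyB) σ c τ ∧
      τ.v 2 = 2 ^ ((k + y.length) / 2) ∧ τ.v 6 = ((k + y.length : ℕ) : ℤ) ∧ τ.out = σ.out := by
  intro y
  induction y with
  | nil =>
    intro k σ h5 _ _ _ h6 _ h2
    refine ⟨1, σ, by simp, Big.while_end (by rw [h5]; simp [sym]), by simpa using h2,
      by simpa using h6, rfl⟩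
  | cons b l ih =>
    intro k σ h5 hi h4 h1 h6 h8 h2
    have hpos : 0 < σ.v 5 := by rw [h5]; exact tcFun_sym_pos b l
    have e1 := Big.add σ 6 6 1
    set σ1 := σ.sv 6 (σ.v 6 + σ.v 1) with hσ1
    have e2 := Big.sub σ1 8 1 8
    set σ2 := σ1.sv 8 (σ1.v 1 - σ1.v 8) with hσ2
    have a8 : σ2.v 8 = ((k + 1) % 2 : ℕ) := by
      have : σ2.v 8 = 1 - ((k % 2 : ℕ) : ℤ) := by
        simp [hσ2, hσ1, St.sv, h1, h8]
      rw [this]
      rcases Nat.mod_two_eq_zero_or_one k with h | h <;> omega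
    have a6 : σ2.v 6 = ((k + 1 : ℕ) : ℤ) := by
      simp [hσ2, hσ1, St.sv, h1, h6]
    have a2 : σ2.v 2 = 2 ^ (k / 2) := by
      simp [hσ2, hσ1, St.sv, h2]
    have a1 : σ2.v 1 = 1 := by
      simp [hσ2, hσ1, St.sv, h1]
    have a4 : σ2.v 4 = 2 := by
      simp [hσ2, hσ1, St.sv, h4]
    have ai : σ2.inp = l := by
      simp [hσ2, hσ1, St.sv, hi]
    have ao : σ2.out = σ.out := rfl
    -- the conditional doubling
    obtain ⟨c3, σ3, hc3, e3, b2, b8, b6, b1, b4, bi, bo⟩ : ∃ c3 σ3, c3 ≤ 2 ∧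
        Big (.ite 8 .skip (.add 2 2 2)) σ2 c3 σ3 ∧ σ3.v 2 = 2 ^ ((k + 1) / 2) ∧
        σ3.v 8 = ((k + 1) % 2 : ℕ) ∧ σ3.v 6 = ((k + 1 : ℕ) : ℤ) ∧ σ3.v 1 = 1 ∧ σ3.v 4 = 2 ∧
        σ3.inp = l ∧ σ3.out = σ.out := by
      rcases Nat.mod_two_eq_zero_or_one k with h | h
      · have hp : 0 < σ2.v 8 := by rw [a8]; omega
        refine ⟨0 + 1, σ2, by omega, Big.ite_pos hp (Big.skip σ2), ?_, a8, a6, a1, a4, ai, ao⟩
        rw [a2]
        congr 1
        omega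
      · have hp : ¬ 0 < σ2.v 8 := by rw [a8]; omega
        refine ⟨1 + 1, σ2.sv 2 (σ2.v 2 + σ2.v 2), by omega, Big.ite_neg hp (Big.add σ2 2 2 2),
          ?_, ?_, ?_, ?_, ?_, ai, ao⟩
        · have : (k + 1) / 2 = k / 2 + 1 := by omega
          simp only [St.sv, Function.update_self]
          rw [a2, this, pow_succ]; ring
        · simpa [St.sv] using a8
        · simpa [St.sv] using a6
        · simpa [St.sv] using a1
        · simpa [St.sv] using a4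
    have e4 := Big.read σ3 3
    set σ4 : St := { (σ3.sv 3 (sym σ3.inp)) with inp := σ3.inp.tail } with hσ4
    have e5 := Big.sub σ4 5 4 3
    set σ5 := σ4.sv 5 (σ4.v 4 - σ4.v 3) with hσ5
    have g5 : σ5.v 5 = 2 - sym l := by
      simp [hσ5, hσ4, St.sv, b4, bi]
    have gi : σ5.inp = l.tail := by
      simp [hσ5, hσ4, St.sv, bi]
    have g4 : σ5.v 4 = 2 := by
      simp [hσ5, hσ4, St.sv, b4]
    have g1 : σ5.v 1 = 1 := by
      simp [hσ5, hσ4, St.sv, b1]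
    have g6 : σ5.v 6 = ((k + 1 : ℕ) : ℤ) := by
      rw [← b6]
      simp [hσ5, hσ4, St.sv]
    have g8 : σ5.v 8 = ((k + 1) % 2 : ℕ) := by
      rw [← b8]
      simp [hσ5, hσ4, St.sv]
    have g2 : σ5.v 2 = 2 ^ ((k + 1) / 2) := by
      rw [← b2]
      simp [hσ5, hσ4, St.sv]
    have go : σ5.out = σ.out := by rw [← bo]; rfl
    obtain ⟨c, τ, hc, hB, ht2, ht6, ho⟩ := ih (k + 1) σ5 g5 gi g4 g1 g6 g8 g2
    refine ⟨(1 + (1 + (c3 + (1 + 1)))) + c + 1, τ, ?_,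
      Big.while_step hpos (Big.seq e1 (Big.seq e2 (Big.seq e3 (Big.seq e4 e5)))) hB, ?_, ?_, ?_⟩
    · simp only [List.length_cons]; omega
    · rw [ht2, List.length_cons]
      congr 2
      omega
    · rw [ht6, List.length_cons]
      congr 1
      omega
    · rw [ho, go]

/-- from a statement with the right output to a time constructible function -/
private theorem tcFun_of (f : ℕ → ℕ) (hf : ∀ n, n ≤ f n) (s : Stmt) (K : ℕ)
    (h : ∀ x : List Bool, ∃ c τ, c ≤ K * (x.length + 1) ∧ Big s (St.ini x 9 ((0 : ℕ) : ℤ)) c τ ∧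
      τ.out = [(f x.length : ℤ)]) : TC f := by
  obtain ⟨r, rest, κ, hp⟩ := compile_param s 9
  refine ⟨hf, Instr.const r ((0 : ℕ) : ℤ) :: rest, κ * (K + 1), fun x => ?_⟩
  obtain ⟨c, τ, hc, hB, ho⟩ := h x
  obtain ⟨t, _, ht, hr⟩ := hp 0 x c τ hB
  refine ⟨t, ht.trans ?_, ?_⟩
  · rw [mul_assoc]
    refine Nat.mul_le_mul_left _ ?_
    have h1 := hf x.length
    calc c + 1 ≤ K * (x.length + 1) + 1 := by omega
      _ ≤ K * (f x.length + 1) + (f x.length + 1) := by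
          have : K * (x.length + 1) ≤ K * (f x.length + 1) := Nat.mul_le_mul_left _ (by omega)
          omega
      _ = (K + 1) * (f x.length + 1) := by ring
  · rw [← ho]; exact hr

/-- read the input to count `n`, double `n` times, print -/
theorem tc_exp : TC (fun n => 2 ^ n) := by
  refine tcFun_of _ (fun n => Nat.lt_two_pow_self.le)
    (.seq (.const 2 1) (.seq (.const 4 2) (.seq (.read 3) (.seq (.sub 5 4 3)
      (.seq (.whl 5 tcFunBodyA) (.print 2)))))) 6 fun x => ?_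
  set σ0 : St := St.ini x 9 ((0 : ℕ) : ℤ) with hσ0
  have e1 := Big.const σ0 2 1
  set σ1 := σ0.sv 2 1 with hσ1
  have e2 := Big.const σ1 4 2
  set σ2 := σ1.sv 4 2 with hσ2
  have e3 := Big.read σ2 3
  set σ3 : St := { (σ2.sv 3 (sym σ2.inp)) with inp := σ2.inp.tail } with hσ3
  have e4 := Big.sub σ3 5 4 3
  set σ4 := σ3.sv 5 (σ3.v 4 - σ3.v 3) with hσ4
  have g5 : σ4.v 5 = 2 - sym x := by
    simp [hσ4, hσ3, hσ2, hσ1, hσ0, St.sv, St.ini]
  have gi : σ4.inp = x.tail := by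
    simp [hσ4, hσ3, hσ2, hσ1, hσ0, St.sv, St.ini]
  have g4 : σ4.v 4 = 2 := by
    simp [hσ4, hσ3, hσ2, hσ1, hσ0, St.sv, St.ini]
  have g2 : σ4.v 2 = 1 := by
    simp [hσ4, hσ3, hσ2, hσ1, hσ0, St.sv, St.ini]
  have go : σ4.out = [] := rfl
  obtain ⟨c, τ, hc, hB, ht, ho⟩ := tcFun_loopA x σ4 g5 gi g4
  have e6 := Big.print τ 2
  refine ⟨1 + (1 + (1 + (1 + (c + 1)))), _, ?_,
    Big.seq e1 (Big.seq e2 (Big.seq e3 (Big.seq e4 (Big.seq hB e6)))), ?_⟩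
  · omega
  · show τ.out ++ [τ.v 2] = _
    rw [ho, go, ht, g2]
    simp

/-- read the input to count `n`, halve by a loop, double `n / 2` times, add `n`, print -/
theorem tc_half : TC (fun n => 2 ^ (n / 2) + n) := by
  refine tcFun_of _ (fun n => Nat.le_add_left n _)
    (.seq (.const 2 1) (.seq (.const 4 2) (.seq (.const 1 1) (.seq (.read 3) (.seq (.sub 5 4 3)
      (.seq (.whl 5 tcFunBodyB) (.seq (.add 2 2 6) (.print 2)))))))) 8 fun x => ?_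
  set σ0 : St := St.ini x 9 ((0 : ℕ) : ℤ) with hσ0
  have e1 := Big.const σ0 2 1
  set σ1 := σ0.sv 2 1 with hσ1
  have e2 := Big.const σ1 4 2
  set σ2 := σ1.sv 4 2 with hσ2
  have e2' := Big.const σ2 1 1
  set σ2' := σ2.sv 1 1 with hσ2'
  have e3 := Big.read σ2' 3
  set σ3 : St := { (σ2'.sv 3 (sym σ2'.inp)) with inp := σ2'.inp.tail } with hσ3
  have e4 := Big.sub σ3 5 4 3
  set σ4 := σ3.sv 5 (σ3.v 4 - σ3.v 3) with hσ4
  have g5 : σ4.v 5 = 2 - sym x := by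
    simp [hσ4, hσ3, hσ2', hσ2, hσ1, hσ0, St.sv, St.ini]
  have gi : σ4.inp = x.tail := by
    simp [hσ4, hσ3, hσ2', hσ2, hσ1, hσ0, St.sv, St.ini]
  have g4 : σ4.v 4 = 2 := by
    simp [hσ4, hσ3, hσ2', hσ2, hσ1, hσ0, St.sv, St.ini]
  have g1 : σ4.v 1 = 1 := by
    simp [hσ4, hσ3, hσ2', hσ2, hσ1, hσ0, St.sv, St.ini]
  have g2 : σ4.v 2 = 2 ^ (0 / 2) := by
    simp [hσ4, hσ3, hσ2', hσ2, hσ1, hσ0, St.sv, St.ini]
  have g6 : σ4.v 6 = ((0 : ℕ) : ℤ) := by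
    simp [hσ4, hσ3, hσ2', hσ2, hσ1, hσ0, St.sv, St.ini]
  have g8 : σ4.v 8 = (0 % 2 : ℕ) := by
    simp [hσ4, hσ3, hσ2', hσ2, hσ1, hσ0, St.sv, St.ini]
  have go : σ4.out = [] := rfl
  obtain ⟨c, τ, hc, hB, ht2, ht6, ho⟩ := tcFun_loopB x 0 σ4 g5 gi g4 g1 g6 g8 g2
  have e6 := Big.add τ 2 2 6
  have e7 := Big.print (τ.sv 2 (τ.v 2 + τ.v 6)) 2
  refine ⟨1 + (1 + (1 + (1 + (1 + (c + (1 + 1)))))), _, ?_,
    Big.seq e1 (Big.seq e2 (Big.seq e2' (Big.seq e3 (Big.seq e4 (Big.seq hB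
      (Big.seq e6 e7)))))), ?_⟩
  · omega
  · show τ.out ++ [(τ.sv 2 (τ.v 2 + τ.v 6)).v 2] = _
    rw [ho, go]
    simp only [St.sv, Function.update_self]
    rw [ht2, ht6]
    simp

end Pool.Agent.H71.CT
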