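import Pool.Agent.H71.CT.Types
import Pool.Agent.H71.CT.TcFun

/-! From the moving correspondence to the theorem. -/

namespace Pool.Agent.H71.CT

private theorem final_le_ck (e n : ℕ) : n ≤ ck e n := by
  unfold ck
  split_ifs
  · exact Nat.le_add_right _ _
  · exact le_rfl

/-- `real_thm` for a constant sequence -/
private theorem final_const (e : ℕ) (te : Tot e) : ∃ B : Set (List Bool), CompSet B ∧
    ∀ f, (∀ n, n ≤ f n) → (DTIME f B ↔ Ole (ck e) f) := by
  obtain ⟨B, hB, hf⟩ := real_thm (fun _ => e) (Computable.const e) (fun _ => te)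
    (fun _ => Ole.refl _)
  refine ⟨B, hB, fun f hn => (hf f hn).trans ?_⟩
  exact ⟨fun ⟨_, hj⟩ => hj, fun hj => ⟨0, hj⟩⟩

private theorem final_growth (k : ℕ) : ¬ Ole (fun n => 2 ^ n) (fun n => n ^ k + n) := by
  rintro ⟨C, hC⟩
  have hpos : (0 : ℝ) < 1 / (3 * C + 1) := by positivity
  have h := (isLittleO_pow_const_const_pow_of_one_lt (R := ℝ) (k + 1) (r := 2)
    (by norm_num)).bound hpos
  obtain ⟨n, hn1, hn⟩ := ((Filter.eventually_ge_atTop 1).and h).exists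
  have h1 : n ^ k ≤ n ^ (k + 1) := Nat.pow_le_pow_right hn1 (Nat.le_succ k)
  have h2 : n ≤ n ^ (k + 1) := Nat.le_self_pow (Nat.succ_ne_zero k) n
  have h3 : 1 ≤ n ^ (k + 1) := Nat.one_le_pow _ _ hn1
  have h4 : 2 ^ n ≤ C * (3 * n ^ (k + 1)) :=
    (hC n).trans (Nat.mul_le_mul_left _ (by
      show n ^ k + n + 1 ≤ 3 * n ^ (k + 1)
      omega))
  have h5 : (2 : ℝ) ^ n ≤ C * (3 * (n : ℝ) ^ (k + 1)) := by exact_mod_cast h4
  rw [Real.norm_of_nonneg (by positivity), Real.norm_of_nonneg (by positivity)] at hn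
  have h6 : (3 * (C : ℝ) + 1) * (n : ℝ) ^ (k + 1) ≤ 2 ^ n := by
    have h7 : (0 : ℝ) < 3 * C + 1 := by positivity
    have h8 := mul_le_mul_of_nonneg_left hn h7.le
    have h9 : (3 * (C : ℝ) + 1) * (1 / (3 * C + 1) * 2 ^ n) = 2 ^ n := by
      field_simp
    rw [h9] at h8
    exact h8
  have h10 : (1 : ℝ) ≤ (n : ℝ) ^ (k + 1) := by exact_mod_cast h3
  nlinarith

/-- (Let `2 ^ n = O(ck e)`, `R e e'`, `ck e' = O(n ^ 2)`. By `real_thm` for constant sequences there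
are sets `A`, `B` with `DTIME f A ↔ ck e = O(f)`, `DTIME f B ↔ ck e' = O(f)`; then the automorphism
maps the type of `A` to the type of `B`, its inverse maps the type of `B`, contained in `P`, to the
type of `A`, not contained in `P` because `2 ^ n` is not bounded by a polynomial.) -/
theorem final_of (R : ℕ → ℕ → Prop) (hR : IsAuto R) (e e' : ℕ) (h : R e e')
    (h1 : Ole (fun n => 2 ^ n) (ck e)) (h2 : Ole (ck e') (fun n => n ^ 2)) :
    ∃ (π : CType ≃o CType) (C : CType), InP C ∧ ¬ InP (π C) := by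
  obtain ⟨te, te'⟩ := hR.tot e e' h
  obtain ⟨A, hA, hAf⟩ := final_const e te
  obtain ⟨B, hB, hBf⟩ := final_const e' te'
  obtain ⟨π, hπ⟩ := exists_orderIso R hR
  have hAB : π (CType.of ⟨A, hA⟩) = CType.of ⟨B, hB⟩ := by
    rw [hπ]
    intro a a' ha
    obtain ⟨ta, ta'⟩ := hR.tot a a' ha
    show (Tot a ∧ DTIME (ck a) A) ↔ (Tot a' ∧ DTIME (ck a') B)
    rw [hAf _ (final_le_ck a), hBf _ (final_le_ck a')]
    have hi := hR.iso e e' a a' h ha
    exact ⟨fun hh => ⟨ta', hi.1 hh.2⟩, fun hh => ⟨ta, hi.2 hh.2⟩⟩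
  refine ⟨π.symm, CType.of ⟨B, hB⟩, ?_, ?_⟩
  · intro D hD
    refine ⟨2, ?_⟩
    obtain ⟨f, hf, hf1, hf2⟩ := ck_tc te'
    have hle : D ≤ (⟨B, hB⟩ : CSet) :=
      toAntisymmetrization_le_toAntisymmetrization_iff.1 (le_of_eq hD)
    have h3 : DTIME f B := (hBf f hf.1).2 hf2
    exact (hle f hf h3).mono (hf1.trans h2)
  · rw [← hAB, OrderIso.symm_apply_apply]
    intro hP
    obtain ⟨k, hk⟩ := hP ⟨A, hA⟩ rfl
    have h4 : DTIME (fun n => n ^ k + n) A := hk.mono ⟨1, fun n => by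
      show n ^ k ≤ 1 * (n ^ k + n + 1)
      omega⟩
    have h5 := (hAf _ (fun n => Nat.le_add_left _ _)).1 h4
    exact final_growth k (h1.trans h5)

end Pool.Agent.H71.CT
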