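import Pool.Agent.H71.CT.Lang

/-!
Frames and elementary rules for the while language.
-/

namespace Pool.Agent.H71.CT

/-- Only variables in `VS` and arrays in `AS` differ; unread input and output are the same. -/
structure Fr (VS AS : Set ℕ) (σ τ : St) : Prop where
  v : ∀ v ∉ VS, τ.v v = σ.v v
  a : ∀ a ∉ AS, τ.a a = σ.a a
  inp : τ.inp = σ.inp
  out : τ.out = σ.out

theorem Fr.refl (VS AS : Set ℕ) (σ : St) : Fr VS AS σ σ :=
  ⟨fun _ _ => rfl, fun _ _ => rfl, rfl, rfl⟩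

theorem Fr.trans {VS AS : Set ℕ} {σ τ ρ : St} (h : Fr VS AS σ τ) (h' : Fr VS AS τ ρ) :
    Fr VS AS σ ρ :=
  ⟨fun v hv => (h'.v v hv).trans (h.v v hv), fun a ha => (h'.a a ha).trans (h.a a ha),
    h'.inp.trans h.inp, h'.out.trans h.out⟩

theorem Fr.mono {VS AS VS' AS' : Set ℕ} {σ τ : St} (h : Fr VS AS σ τ) (hV : VS ⊆ VS')
    (hA : AS ⊆ AS') : Fr VS' AS' σ τ :=
  ⟨fun v hv => h.v v (fun h => hv (hV h)), fun a ha => h.a a (fun h => ha (hA h)), h.inp, h.out⟩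

theorem Reach.mono {s : Stmt} {σ τ : St} {C D : ℕ} (h : Reach s σ C τ) (hCD : C ≤ D) :
    Reach s σ D τ := by
  obtain ⟨c, hc, hb⟩ := h
  exact ⟨c, hc.trans hCD, hb⟩

theorem Reach.seq {s t : Stmt} {σ τ ρ : St} {C D : ℕ} (h : Reach s σ C τ) (h' : Reach t τ D ρ) :
    Reach (.seq s t) σ (C + D) ρ := by
  obtain ⟨c, hc, hb⟩ := h
  obtain ⟨d, hd, hb'⟩ := h'
  exact ⟨c + d, Nat.add_le_add hc hd, Big.seq hb hb'⟩

theorem Reach.ite_pos {v : ℕ} {s t : Stmt} {σ τ : St} {C : ℕ} (hv : 0 < σ.v v)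
    (h : Reach s σ C τ) : Reach (.ite v s t) σ (C + 1) τ := by
  obtain ⟨c, hc, hb⟩ := h
  exact ⟨c + 1, Nat.add_le_add_right hc 1, Big.ite_pos hv hb⟩

theorem Reach.ite_neg {v : ℕ} {s t : Stmt} {σ τ : St} {C : ℕ} (hv : ¬ 0 < σ.v v)
    (h : Reach t σ C τ) : Reach (.ite v s t) σ (C + 1) τ := by
  obtain ⟨c, hc, hb⟩ := h
  exact ⟨c + 1, Nat.add_le_add_right hc 1, Big.ite_neg hv hb⟩

theorem Reach.while_end {v : ℕ} {s : Stmt} {σ : St} (hv : ¬ 0 < σ.v v) :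
    Reach (.whl v s) σ 1 σ := ⟨1, le_rfl, Big.while_end hv⟩

theorem Reach.while_step {v : ℕ} {s : Stmt} {σ τ ρ : St} {C D : ℕ} (hv : 0 < σ.v v)
    (h : Reach s σ C τ) (h' : Reach (.whl v s) τ D ρ) :
    Reach (.whl v s) σ (C + D + 1) ρ := by
  obtain ⟨c, hc, hb⟩ := h
  obtain ⟨d, hd, hb'⟩ := h'
  exact ⟨c + d + 1, by omega, Big.while_step hv hb hb'⟩

theorem Reach.skip (σ : St) : Reach .skip σ 0 σ := ⟨0, le_rfl, Big.skip σ⟩

/-- Loop rule: `I j` is the invariant before the `j`-th round, the loop makes `n` rounds. -/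
theorem Reach.loop {v : ℕ} {s : Stmt} (n : ℕ) (I : ℕ → St → Prop) (C : ℕ → ℕ)
    (hpos : ∀ j < n, ∀ σ, I j σ → 0 < σ.v v) (hend : ∀ σ, I n σ → ¬ 0 < σ.v v)
    (hstep : ∀ j < n, ∀ σ, I j σ → ∃ τ, Reach s σ (C j) τ ∧ I (j + 1) τ) (σ : St) (h : I 0 σ) :
    ∃ τ, Reach (.whl v s) σ ((∑ j ∈ Finset.range n, (C j + 1)) + 1) τ ∧ I n τ := by
  have key : ∀ d, ∀ j, j + d = n → ∀ σ, I j σ →
      ∃ τ, Reach (.whl v s) σ ((∑ i ∈ Finset.range d, (C (j + i) + 1)) + 1) τ ∧ I n τ := by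
    intro d
    induction d with
    | zero =>
      intro j hj σ hσ
      have hj' : j = n := by omega
      subst hj'
      exact ⟨σ, by simpa using Reach.while_end (s := s) (hend σ hσ), hσ⟩
    | succ d ih =>
      intro j hj σ hσ
      obtain ⟨τ, hτ, hI⟩ := hstep j (by omega) σ hσ
      obtain ⟨ρ, hρ, hn⟩ := ih (j + 1) (by omega) τ hI
      refine ⟨ρ, ?_, hn⟩
      refine (Reach.while_step (hpos j (by omega) σ hσ) hτ hρ).mono ?_
      rw [Finset.sum_range_succ' (fun i => C (j + i) + 1) d]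
      have : ∀ i, C (j + 1 + i) + 1 = C (j + (i + 1)) + 1 := by
        intro i; rw [show j + 1 + i = j + (i + 1) by ring]
      simp only [this, add_zero]
      omega
  have := key n 0 (by omega) σ h
  simpa using this

end Pool.Agent.H71.CT
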