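import Mathlib

/-!
The finite game played on every board.

A state is a list of bit vectors, newest first; the vector at a step says which functions have
stopped. At level `k` runs of equal vectors are capped at `k`.
-/

namespace Pool.Agent.H71.CT

/-- states, newest vector first -/
abbrev Q : Type := List (List Bool)

/-- append the vector `m` at level `k` (runs of equal vectors are capped at `k`) -/
def ext (k : ℕ) (q : Q) (m : List Bool) : Q :=
  if q.take k = List.replicate k m then q else m :: q

/-- restriction of a state to level `k` -/
def res (k : ℕ) (q : Q) : Q := q.foldr (fun m acc => ext k acc (m.take k)) []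

/-- the current vector -/
def cur (q : Q) : List Bool := q.headD []

/-- `m` is a legal next vector at level `k` after the vector `c` -/
def Legal (k : ℕ) (c m : List Bool) : Prop :=
  m.length = k ∧ ∀ i, c.getD i false = true → m.getD i false = true

/-- the states of level `k` -/
inductive Good (k : ℕ) : Q → Prop
  | nil : Good k []
  | ext {q m} (h : Good k q) (hm : Legal k (cur q) m) : Good k (ext k q m)

section values

variable {α : Type*} [LinearOrder α]

/-- value of the rest of a step: the bits already chosen are `b`, `j` bits are left; bits of
stopped functions are forced, the maximiser owns the functions `v` with `own v = true` -/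
def mx (own : ℕ → Bool) (c : List Bool) (X : List Bool → α) : ℕ → List Bool → α
  | 0, b => X b
  | j + 1, b =>
      if c.getD b.length false then mx own c X j (b ++ [true])
      else if own b.length then max (mx own c X j (b ++ [false])) (mx own c X j (b ++ [true]))
      else min (mx own c X j (b ++ [false])) (mx own c X j (b ++ [true]))

/-- value of the game at a state with `d` steps left: the maximiser may stop the game at the
beginning of each step -/
def V (own : ℕ → Bool) (k : ℕ) (pay : Q → α) : ℕ → Q → α
  | 0, q => pay q
  | d + 1, q => max (pay q) (mx own (cur q) (fun m => V own k pay d (ext k q m)) k [])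

end values

/-- maximal length of a state of level `k` -/
def M (k : ℕ) : ℕ := k * (k + 1)

/-- vector of the functions that have stopped by time `s` -/
def vec (k : ℕ) (a : ℕ → ℕ) (s : ℕ) : List Bool := (List.range k).map (fun v => decide (a v ≤ s))

/-- state of level `k` after `t` steps, the first step being at time `s0` -/
def hist (k : ℕ) (a : ℕ → ℕ) (s0 : ℕ) : ℕ → Q
  | 0 => []
  | t + 1 => ext k (hist k a s0 t) (vec k a (s0 + t))

/-- number of vectors that contain `u` but not `v` -/
def cnt (q : Q) (u v : ℕ) : ℕ := q.countP (fun m => m.getD u false && !m.getD v false)

/-- number of vectors that contain `u` -/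
def cntH (q : Q) (u : ℕ) : ℕ := q.countP (fun m => m.getD u false)

/-- payoff at level `K`; `P m`, `R m` (`m < K`) are the final states of the first `K` boards on
the two sides -/
def payN (K : ℕ) (P R : ℕ → Q) (q : Q) : ℕ :=
  ∑ k ∈ Finset.range K, 2 ^ (K - k) *
    (2 ^ K + 2 ^ (K - ((List.range K).countP (fun m => decide (res k (R m) = res k q)))) -
      2 ^ (K - ((List.range K).countP (fun m => decide (res k (P m) = res k q)))))

end Pool.Agent.H71.CT
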