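import Pool.Agent.H71.CT.Game

/-! Restriction of states. -/

namespace Pool.Agent.H71.CT

private theorem gameA_res_cons (k : ℕ) (m : List Bool) (q : Q) :
    res k (m :: q) = ext k (res k q) (m.take k) := rfl

private theorem gameA_run (k : ℕ) (m : List Bool) (r : Q) (j : ℕ) :
    (res k (List.replicate j m ++ r)).take (min j k) = List.replicate (min j k) (m.take k) := by
  induction j with
  | zero => simp
  | succ j ih =>
    rw [List.replicate_succ, List.cons_append, gameA_res_cons]
    unfold ext
    split_ifs with h
    · have h2 : min (j + 1) k = min (min (j + 1) k) k := by omega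
      rw [h2, ← List.take_take, h, List.take_replicate]
    · rcases Nat.eq_zero_or_pos k with hk | hk
      · subst hk; simp
      · obtain ⟨k', rfl⟩ : ∃ k', k = k' + 1 := ⟨k - 1, by omega⟩
        have h3 : min (j + 1) (k' + 1) = min j k' + 1 := by omega
        rw [h3, List.take_succ_cons, List.replicate_succ]
        congr 1
        have h4 : min j k' = min (min j k') (min j (k' + 1)) := by omega
        rw [h4, ← List.take_take, ih, List.take_replicate]

/-- (Skip case: `q = replicate K m ++ rest`, and after at least `k` extensions by the same vector
the first `k` entries are equal to it.) -/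
theorem res_ext {k K : ℕ} (h : k ≤ K) (q : Q) (m : List Bool) :
    res k (ext K q m) = ext k (res k q) (m.take k) := by
  by_cases hq : q.take K = List.replicate K m
  · have e1 : ext K q m = q := by unfold ext; rw [if_pos hq]
    rw [e1]
    have e2 : q = List.replicate K m ++ q.drop K := by
      conv_lhs => rw [← List.take_append_drop K q, hq]
    have e3 := gameA_run k m (q.drop K) K
    rw [← e2, min_eq_right h] at e3
    unfold ext
    rw [if_pos e3]
  · have e1 : ext K q m = m :: q := by unfold ext; rw [if_neg hq]
    rw [e1, gameA_res_cons]

theorem res_self {k : ℕ} {q : Q} (h : Good k q) : res k q = q := by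
  induction h with
  | nil => rfl
  | ext h hm ih =>
    rw [res_ext le_rfl, ih, List.take_of_length_le (le_of_eq hm.1)]

theorem res_res {k K : ℕ} (h : k ≤ K) (q : Q) : res k (res K q) = res k q := by
  induction q with
  | nil => rfl
  | cons m q ih =>
    rw [gameA_res_cons, gameA_res_cons, res_ext h, ih, List.take_take, min_eq_left h]

private theorem gameA_cur_ext {k : ℕ} (hk : 0 < k) (q : Q) (m : List Bool) :
    cur (ext k q m) = m := by
  unfold ext
  split_ifs with h
  · obtain ⟨k', rfl⟩ : ∃ k', k = k' + 1 := ⟨k - 1, by omega⟩
    cases q with
    | nil => simp [List.replicate_succ] at h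
    | cons a q =>
      rw [List.take_succ_cons, List.replicate_succ] at h
      have := (List.cons.inj h).1
      simp [cur, this]
  · rfl

theorem cur_res {k : ℕ} (hk : 0 < k) {K : ℕ} {q : Q} (h : Good K q) (hkK : k ≤ K) :
    cur (res k q) = (cur q).take k := by
  cases q with
  | nil => simp [res, cur]
  | cons m q =>
    rw [gameA_res_cons, gameA_cur_ext hk]
    rfl

private theorem gameA_res_zero (q : Q) : res 0 q = [] := by
  induction q with
  | nil => rfl
  | cons m q ih =>
    rw [gameA_res_cons, ih]
    simp [ext]

theorem Good.res {k K : ℕ} (h : k ≤ K) {q : Q} (hq : Good K q) : Good k (res k q) := by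
  rcases Nat.eq_zero_or_pos k with hk | hk
  · subst hk
    rw [gameA_res_zero]
    exact Good.nil
  · induction hq with
    | nil => exact Good.nil
    | @ext q m hq hm ih =>
      rw [res_ext h]
      refine Good.ext ih ⟨?_, ?_⟩
      · rw [List.length_take, hm.1, min_eq_left h]
      · intro i hi
        rw [cur_res hk hq h] at hi
        have hi2 : i < k := by
          by_contra hc
          rw [List.getD_eq_default] at hi
          · exact absurd hi (by simp)
          · rw [List.length_take]; omega
        have e : ∀ l : List Bool, (l.take k).getD i false = l.getD i false := by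
          intro l
          simp [List.getD_eq_getElem?_getD, hi2]
        rw [e] at hi ⊢
        exact hm.2 i hi

end Pool.Agent.H71.CT
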