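import Pool.Agent.H71.CT.GameB1

/-! Values of the game: projection. -/

namespace Pool.Agent.H71.CT

variable {α : Type*} [LinearOrder α]

private theorem gameB2_tail (own : ℕ → Bool) (c : List Bool) (X : List Bool → α) (k : ℕ) :
    ∀ (j : ℕ) (b : List Bool), k ≤ b.length →
      mx own c (fun m => X (m.take k)) j b = X (b.take k) := by
  intro j
  induction j with
  | zero => intro b _; rfl
  | succ j ih =>
    intro b hb
    have h1 : ∀ x : Bool, mx own c (fun m => X (m.take k)) j (b ++ [x]) = X (b.take k) := by
      intro x
      rw [ih (b ++ [x]) (by rw [List.length_append]; omega), List.take_append_of_le_length hb]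
    rw [mx]
    split_ifs
    · exact h1 true
    · rw [h1, h1, max_self]
    · rw [h1, h1, min_self]

private theorem gameB2_head (own : ℕ → Bool) (c c' : List Bool) (X : List Bool → α) (k K : ℕ) (h : k ≤ K)
    (hc : ∀ i < k, c'.getD i false = c.getD i false) :
    ∀ (j : ℕ) (b : List Bool), b.length ≤ k → b.length + j = K →
      mx own c (fun m => X (m.take k)) j b = mx own c' X (k - b.length) b := by
  intro j
  induction j with
  | zero =>
    intro b hb hj
    have e : k - b.length = 0 := by omega
    rw [e]
    change X (b.take k) = X b
    rw [List.take_of_length_le hb]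
  | succ j ih =>
    intro b hb hj
    by_cases hbk : b.length = k
    · rw [gameB2_tail own c X k (j + 1) b hbk.ge, List.take_of_length_le hb]
      have e : k - b.length = 0 := by omega
      rw [e]
      rfl
    · have hlt : b.length < k := lt_of_le_of_ne hb hbk
      have e : k - b.length = (k - (b.length + 1)) + 1 := by omega
      have h1 : ∀ x : Bool, mx own c (fun m => X (m.take k)) j (b ++ [x]) =
          mx own c' X (k - (b.length + 1)) (b ++ [x]) := by
        intro x
        have h2 := ih (b ++ [x]) (by rw [List.length_append]; simpa using hlt)
          (by rw [List.length_append]; simp; omega)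
        rw [h2, List.length_append]
        rfl
      rw [e, mx, mx, hc _ hlt, h1, h1]

private theorem gameB2_cur {K : ℕ} {q : Q} (hq : Good K q) : (cur q).length ≤ K := by
  induction hq with
  | nil => exact Nat.zero_le _
  | @ext q m h hm ih =>
    unfold ext
    split_ifs
    · exact ih
    · exact hm.1.le

private theorem gameB2_pay (own : ℕ → Bool) (k : ℕ) (pay : Q → α) (d : ℕ) (q : Q) :
    pay q ≤ V own k pay d q := by
  cases d with
  | zero => exact le_rfl
  | succ d => exact le_max_left _ _

/-- Projection: payoffs of level `k` have the same value at all levels `K ≥ k`. (Both inequalities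
by induction on the fuel; for `≤` compare `V^K_d q` with the stable value at level `k`, which is a
fixed point by `V_stable`; the bits beyond `k` do not matter.) -/
theorem V_res (own : ℕ → Bool) {k K : ℕ} (h : k ≤ K) (pay : Q → α) {q : Q} (hq : Good K q) :
    V own K (fun q => pay (res k q)) (M K) q = V own k pay (M k) (res k q) := by
  have hcur : ∀ {q : Q}, Good K q → ∀ i < k, (cur (res k q)).getD i false = (cur q).getD i false := by
    intro q hq i hi
    rw [cur_res (by omega) hq h, List.getD_eq_getElem?_getD, List.getD_eq_getElem?_getD,
      List.getElem?_take_of_lt hi]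
  have hmx : ∀ {q : Q}, Good K q → ∀ X : Q → α,
      mx own (cur q) (fun m => X (res k (ext K q m))) K [] =
        mx own (cur (res k q)) (fun m => X (ext k (res k q) m)) k [] := by
    intro q hq X
    have h1 := gameB2_head own (cur q) (cur (res k q)) (fun m => X (ext k (res k q) m)) k K h
      (hcur hq) K [] (Nat.zero_le _) (by simp)
    rw [show k - ([] : List Bool).length = k from rfl] at h1
    rw [← h1]
    congr 1
    funext m
    rw [res_ext h]
  have hfixk : ∀ {q : Q}, Good k q → max (pay q) (mx own (cur q) (fun m => V own k pay (M k) (ext k q m)) k [])
      = V own k pay (M k) q := fun {q} hq => V_stable own k pay hq (M k + 1) (Nat.le_succ _)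
  have hfixK : ∀ {q : Q}, Good K q → max (pay (res k q)) (mx own (cur q)
      (fun m => V own K (fun q => pay (res k q)) (M K) (ext K q m)) K [])
      = V own K (fun q => pay (res k q)) (M K) q := fun {q} hq =>
    V_stable own K (fun q => pay (res k q)) hq (M K + 1) (Nat.le_succ _)
  refine le_antisymm ?_ ?_
  · have key : ∀ d : ℕ, ∀ q : Q, Good K q →
        V own K (fun q => pay (res k q)) d q ≤ V own k pay (M k) (res k q) := by
      intro d
      induction d with
      | zero =>
        intro q hq
        exact gameB2_pay own k pay (M k) (res k q)
      | succ d ih =>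
        intro q hq
        rw [← hfixk (hq.res h)]
        refine max_le_max le_rfl ?_
        rw [← hmx hq (fun q => V own k pay (M k) q)]
        exact mx_mono own (cur q) _ _ K (gameB2_cur hq) fun m hm => ih _ (Good.ext hq hm)
    exact key (M K) q hq
  · have key : ∀ d : ℕ, ∀ q : Q, Good K q →
        V own k pay d (res k q) ≤ V own K (fun q => pay (res k q)) (M K) q := by
      intro d
      induction d with
      | zero =>
        intro q hq
        exact gameB2_pay own K (fun q => pay (res k q)) (M K) q
      | succ d ih =>
        intro q hq
        rw [← hfixK hq]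
        refine max_le_max le_rfl ?_
        rw [← hmx hq (fun q => V own k pay d q)]
        exact mx_mono own (cur q) _ _ K (gameB2_cur hq) fun m hm => ih _ (Good.ext hq hm)
    exact key (M k) q hq

end Pool.Agent.H71.CT
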