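import Pool.Agent.H71.CT.SimRun
import Pool.Agent.H71.CT.ReadInput
import Pool.Agent.H71.CT.Comp
import Pool.Agent.H71.CT.TcBase

/-! Time constructible functions and clocks of total programs. -/

namespace Pool.Agent.H71.CT

private theorem TcIndex_count (k : ℕ) : ∀ σ : St, σ.v 43 = k → σ.v 45 = 1 →
    ∃ τ, Big (.whl 43 (.sub 43 43 45)) σ (2 * k + 1) τ := by
  induction k with
  | zero =>
    intro σ h _
    exact ⟨σ, Big.while_end (by rw [h]; simp)⟩
  | succ k ih =>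
    intro σ h h45
    obtain ⟨τ, hτ⟩ := ih (σ.sv 43 (σ.v 43 - σ.v 45)) (by simp [St.sv, h, h45])
      (by simp [St.sv, h45])
    have h0 : 0 < σ.v 43 := by rw [h]; positivity
    have h1 := Big.while_step h0 (Big.sub σ 43 43 45) hτ
    have e : 1 + (2 * k + 1) + 1 = 2 * (k + 1) + 1 := by ring
    rw [e] at h1
    exact ⟨τ, h1⟩

private theorem TcIndex_down : ∃ s : Stmt, ∀ (σ : St) (k : ℕ), σ.a 3 0 = k →
    ∃ τ, Big s σ (2 * k + 4) τ := by
  refine ⟨.seq (.const 43 0) (.seq (.get 43 3 43) (.seq (.const 45 1)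
    (.whl 43 (.sub 43 43 45)))), ?_⟩
  intro σ k hk
  have hg : (σ.sv 43 0).a 3 ((σ.sv 43 0).v 43).toNat = (k : ℤ) := by
    simp [St.sv, hk]
  obtain ⟨τ, hτ⟩ := TcIndex_count k
    (((σ.sv 43 0).sv 43 ((σ.sv 43 0).a 3 ((σ.sv 43 0).v 43).toNat)).sv 45 1)
    (by rw [hg]; simp [St.sv]) (by simp [St.sv])
  have h1 := Big.seq (Big.const σ 43 0) (Big.seq (Big.get (σ.sv 43 0) 43 3 43)
    (Big.seq (Big.const ((σ.sv 43 0).sv 43 ((σ.sv 43 0).a 3 ((σ.sv 43 0).v 43).toNat)) 45 1) hτ))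
  have e : 1 + (1 + (1 + (2 * k + 1))) = 2 * k + 4 := by ring
  rw [e] at h1
  exact ⟨τ, h1⟩

private theorem TcIndex_inpE (p : Prog) (x : List Bool) :
    inpE (true, p) x = List.replicate x.length false := by
  simp [inpE]

private theorem TcIndex_le {p : Prog} {x : List Bool} {t B : ℕ} {o : List ℤ}
    (h : Runs p x t o) (hB : Halted p (conf p x B)) : t ≤ B := by
  by_contra hlt
  exact h.2.1 B (by omega) hB

/-- Given `f ∈ T` there is a total program with clock `f` up to constant factors. (Program: read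
the input, simulate the machine of `f` on the zero input by `sim_run`, then count down from the
printed value to 0.) -/
theorem tc_index {f : ℕ → ℕ} (hf : TC f) : ∃ e, Tot e ∧ Ole f (ck e) ∧ Ole (ck e) f := by
  obtain ⟨hfn, p, c0, hp⟩ := hf
  obtain ⟨s1, κ1, h1⟩ := read_input 100 le_rfl
  obtain ⟨s2, κ2, h2⟩ := sim_run p true
  obtain ⟨s3, h3⟩ := TcIndex_down
  obtain ⟨r, rest, κ, hk⟩ := compile_param (.seq s1 (.seq s2 s3)) 100
  have key : ∀ x : List Bool, ∃ t o, f x.length ≤ t ∧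
      t ≤ κ * (κ1 * (x.length + 1) + (κ2 * (x.length + c0 * (f x.length + 1) + 1) +
        (2 * f x.length + 4)) + 1) ∧
      Runs (Instr.const r ((0 : ℕ) : ℤ) :: rest) x t o := by
    intro x
    obtain ⟨τ1, ⟨c1, hc1, b1⟩, env1, -⟩ := h1 x ((0 : ℕ) : ℤ)
    obtain ⟨t0, ht0, hr0⟩ := hp (inpE (true, p) x)
    have hlen : (inpE (true, p) x).length = x.length := by
      rw [TcIndex_inpE, List.length_replicate]
    rw [hlen] at ht0 hr0
    obtain ⟨τ2, m, ⟨c2, hc2, b2⟩, env2, -, ho, -⟩ := h2 x τ1 t0 [(f x.length : ℤ)] env1 hr0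
    have ha : τ2.a 3 0 = (f x.length : ℤ) := ho 0 (by simp)
    obtain ⟨τ3, b3⟩ := h3 τ2 (f x.length) ha
    obtain ⟨t, ht1, ht2, hr⟩ := hk 0 x _ τ3 (Big.seq b1 (Big.seq b2 b3))
    refine ⟨t, τ3.out, by omega, ?_, hr⟩
    refine ht2.trans (Nat.mul_le_mul_left κ ?_)
    have h4 : κ2 * (x.length + t0 + 1) ≤ κ2 * (x.length + c0 * (f x.length + 1) + 1) :=
      Nat.mul_le_mul_left _ (by omega)
    omega
  have hpr : pr (num (Instr.const r ((0 : ℕ) : ℤ) :: rest)) =
      Instr.const r ((0 : ℕ) : ℤ) :: rest := pr_num _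
  refine ⟨num (Instr.const r ((0 : ℕ) : ℤ) :: rest), ?_, ⟨1, fun n => ?_⟩,
    ⟨1 + κ * (κ1 + κ2 * (1 + c0) + 5), fun n => ?_⟩⟩
  · rw [tot_iff]
    intro n
    obtain ⟨t, o, -, -, hr⟩ := key (List.replicate n false)
    exact ⟨t, o, by rw [hpr]; exact hr⟩
  · obtain ⟨t, o, h4, -, hr⟩ := key (List.replicate n false)
    rw [List.length_replicate] at h4
    rw [← hpr] at hr
    rw [ck_of_runs hr]
    omega
  · obtain ⟨t, o, -, h4, hr⟩ := key (List.replicate n false)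
    rw [List.length_replicate] at h4
    rw [← hpr] at hr
    rw [ck_of_runs hr]
    have hn := hfn n
    have e1 : κ1 * (n + 1) ≤ κ1 * (f n + 1) := Nat.mul_le_mul_left _ (by omega)
    have e2 : κ2 * (n + c0 * (f n + 1) + 1) ≤ κ2 * ((1 + c0) * (f n + 1)) :=
      Nat.mul_le_mul_left _ (by
        have : (1 + c0) * (f n + 1) = (f n + 1) + c0 * (f n + 1) := by ring
        omega)
    have e3 : κ1 * (n + 1) + (κ2 * (n + c0 * (f n + 1) + 1) + (2 * f n + 4)) + 1 ≤
        (κ1 + κ2 * (1 + c0) + 5) * (f n + 1) := by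
      have : (κ1 + κ2 * (1 + c0) + 5) * (f n + 1) =
        κ1 * (f n + 1) + κ2 * ((1 + c0) * (f n + 1)) + 5 * (f n + 1) := by ring
      omega
    have e4 := h4.trans (Nat.mul_le_mul_left κ e3)
    have e5 : (1 + κ * (κ1 + κ2 * (1 + c0) + 5)) * (f n + 1) =
        (f n + 1) + κ * ((κ1 + κ2 * (1 + c0) + 5) * (f n + 1)) := by ring
    rw [e5]
    omega

/-- Clocks are time constructible up to constant factors. (Program: read the input, `sim_run` in
zero mode, print variable 44.) -/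
theorem ck_tc {e : ℕ} (he : Tot e) : ∃ f, TC f ∧ Ole f (ck e) ∧ Ole (ck e) f := by
  classical
  have hrun := (tot_iff e).1 he
  have hex : ∀ n, ∃ m, s0 n ≤ m ∧
      Halted (pr e) (conf (pr e) (List.replicate n false) (2 ^ m)) := by
    intro n
    obtain ⟨t, o, hh, -, -⟩ := hrun n
    refine ⟨s0 n + t, Nat.le_add_right _ _, ?_⟩
    have hle : t ≤ 2 ^ (s0 n + t) :=
      (Nat.lt_two_pow_self).le.trans (Nat.pow_le_pow_right (by norm_num) (Nat.le_add_left _ _))
    rw [conf_of_halted hh hle]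
    exact hh
  have hm1 : ∀ n, s0 n ≤ Nat.find (hex n) := fun n => (Nat.find_spec (hex n)).1
  have hm2 : ∀ n, Halted (pr e) (conf (pr e) (List.replicate n false) (2 ^ Nat.find (hex n))) :=
    fun n => (Nat.find_spec (hex n)).2
  have hn : ∀ n, n ≤ 2 ^ Nat.find (hex n) := fun n =>
    (lt_two_pow_s0 n).le.trans (Nat.pow_le_pow_right (by norm_num) (hm1 n))
  refine ⟨fun n => 2 ^ Nat.find (hex n), ⟨hn, ?_⟩, ⟨2, fun n => ?_⟩, ⟨2, fun n => ?_⟩⟩
  · obtain ⟨s1, κ1, h1⟩ := read_input 100 le_rfl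
    obtain ⟨s2, κ2, h2⟩ := sim_run (pr e) true
    obtain ⟨r, rest, κ, hk⟩ := compile_param (.seq s1 (.seq s2 (.print 44))) 100
    refine ⟨Instr.const r ((0 : ℕ) : ℤ) :: rest, κ * (κ1 + 2 * κ2 + 1), fun x => ?_⟩
    obtain ⟨τ1, ⟨c1, hc1, b1⟩, env1, out1, -⟩ := h1 x ((0 : ℕ) : ℤ)
    obtain ⟨t0, o0, hr0⟩ := hrun x.length
    rw [← TcIndex_inpE (pr e) x] at hr0
    obtain ⟨τ2, m, ⟨c2, hc2, b2⟩, env2, -, -, hs, hh, hmin, hv, hfr⟩ := h2 x τ1 t0 o0 env1 hr0
    rw [TcIndex_inpE] at hh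
    have hmin' : ∀ m', s0 x.length ≤ m' → m' < m →
        ¬ Halted (pr e) (conf (pr e) (List.replicate x.length false) (2 ^ m')) := by
      intro m' h4 h5
      have := hmin m' h4 h5
      rwa [TcIndex_inpE] at this
    have hfind : Nat.find (hex x.length) = m := by
      rw [Nat.find_eq_iff]
      exact ⟨⟨hs, hh⟩, fun m' h4 h5 => hmin' m' h5.1 h4 h5.2⟩
    have b3 := Big.print τ2 44
    obtain ⟨t, ht1, ht2, hr⟩ := hk 0 x _ _ (Big.seq b1 (Big.seq b2 b3))
    have hout : τ2.out ++ [τ2.v 44] = [((2 ^ Nat.find (hex x.length) : ℕ) : ℤ)] := by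
      rw [hfr.out, out1, hv, hfind]
      simp
    refine ⟨t, ?_, ?_⟩
    · have ht0 : t0 ≤ 2 ^ Nat.find (hex x.length) := by
        rw [TcIndex_inpE] at hr0
        exact TcIndex_le hr0 (hm2 x.length)
      have hnx := hn x.length
      have hpos : 1 ≤ 2 ^ Nat.find (hex x.length) := Nat.one_le_two_pow
      show t ≤ κ * (κ1 + 2 * κ2 + 1) * (2 ^ Nat.find (hex x.length) + 1)
      generalize 2 ^ Nat.find (hex x.length) = F at *
      have e1 : κ1 * (x.length + 1) ≤ κ1 * (F + 1) := Nat.mul_le_mul_left _ (by omega)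
      have e2 : κ2 * (x.length + t0 + 1) ≤ κ2 * (2 * (F + 1)) :=
        Nat.mul_le_mul_left _ (by omega)
      have e3 : c1 + (c2 + 1) + 1 ≤ (κ1 + 2 * κ2 + 1) * (F + 1) := by
        have : (κ1 + 2 * κ2 + 1) * (F + 1) =
          κ1 * (F + 1) + κ2 * (2 * (F + 1)) + (F + 1) := by ring
        omega
      calc t ≤ κ * (c1 + (c2 + 1) + 1) := ht2
        _ ≤ κ * ((κ1 + 2 * κ2 + 1) * (F + 1)) := Nat.mul_le_mul_left κ e3
        _ = κ * (κ1 + 2 * κ2 + 1) * (F + 1) := by ring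
    · rw [← hout]
      exact hr
  · obtain ⟨t0, o0, hr0⟩ := hrun n
    rw [ck_of_runs hr0]
    show 2 ^ Nat.find (hex n) ≤ 2 * (n + t0 + 1)
    rcases (hm1 n).eq_or_lt with h | h
    · rw [← h]
      have := two_pow_s0_le n
      omega
    · have h4 : ¬ (s0 n ≤ Nat.find (hex n) - 1 ∧
          Halted (pr e) (conf (pr e) (List.replicate n false) (2 ^ (Nat.find (hex n) - 1)))) :=
        Nat.find_min (hex n) (by omega)
      have h5 : 2 ^ (Nat.find (hex n) - 1) < t0 := by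
        by_contra hle
        apply h4
        refine ⟨by omega, ?_⟩
        rw [conf_of_halted hr0.1 (by omega)]
        exact hr0.1
      have h6 : 2 ^ Nat.find (hex n) = 2 * 2 ^ (Nat.find (hex n) - 1) := by
        rw [← pow_succ']
        congr 1
        omega
      omega
  · obtain ⟨t0, o0, hr0⟩ := hrun n
    rw [ck_of_runs hr0]
    show n + t0 ≤ 2 * (2 ^ Nat.find (hex n) + 1)
    have h4 := TcIndex_le hr0 (hm2 n)
    have h5 := hn n
    omega

end Pool.Agent.H71.CT
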