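import Pool.Agent.H71.CT.Race
import Pool.Agent.H71.CT.DMin
import Pool.Agent.H71.CT.TcIndex

/-!
Every complexity type is given by a computable descending sequence of clocks.

Proof. Let `M` decide `A`. Let `τ n` be the maximum of the running times of `M` on inputs of length
`n`; it is computable (`computable_hb`), so by `code_prog` applied to `u n` = a list of `τ n` zeros
there is a total program `e0` with `ck e0 n ≥ τ n` (`length_out_le`); `A ∈ DTIME(ck e0)`.
For `i = (d, e, c)` (unpairing) and `n` let `L n` be the least `s ≥ s0 n` such that `e0` or `d`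
halts on the zero input of length `n` within `2 ^ s` steps. The flag `fl k i` is true iff for all
strings `x` of length `< k` program `e` halts on `x` within `2 ^ (c + L |x|)` steps with output `[1]`
or `[0]` according to `x ∈ A`. Computable. Apply `race_index` with `dd i = d`.
If `A ∈ DTIME(f)`, `f ∈ T`: take `d` with `ck d ~ f` (`tc_index`); by `dtime_min`
`A ∈ DTIME(min (ck e0) (ck d))`, so for suitable `e`, `c` all flags of `i = (d, e, c)` are true and
`ck (ι i) = O(f)`. Conversely `A ∈ DTIME(ck (ι j))`: for late `n` only those `i ≤ j` are enabled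
whose flag is true for all `k`; for them `A ∈ DTIME(2 ^ L)`; use `dtime_min` finitely often.
Descending: the stopping condition is monotone in `j` (the constants depend on `j` only).
-/

namespace Pool.Agent.H71.CT

open Filter

private theorem gt_ball {α : Type*} [Primcodable α] {f : α → ℕ → Bool} {N : α → ℕ}
    (hf : Computable₂ f) (hN : Computable N) :
    ∃ F : α → Bool, Computable F ∧ ∀ a, F a = true ↔ ∀ i < N a, f a i = true := by
  refine ⟨fun a => Nat.rec (motive := fun _ => Bool) true (fun i b => b && f a i) (N a), ?_, ?_⟩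
  · exact Computable.nat_rec (h := fun a (p : ℕ × Bool) => p.2 && f a p.1) hN
      (Computable.const true) ((Primrec.and.to_comp).comp (Computable.snd.comp Computable.snd)
        (hf.comp Computable.fst (Computable.fst.comp Computable.snd)))
  · intro a
    show Nat.rec (motive := fun _ => Bool) true (fun i b => b && f a i) (N a) = true ↔ _
    generalize N a = n
    induction n with
    | zero => simp
    | succ n ih =>
      have h : (Nat.rec (motive := fun _ => Bool) true (fun i b => b && f a i) (n + 1)) =
          ((Nat.rec (motive := fun _ => Bool) true (fun i b => b && f a i) n) && f a n) := rfl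
      rw [h, Bool.and_eq_true, ih]
      constructor
      · rintro ⟨h1, h2⟩ i hi
        rcases Nat.lt_succ_iff_lt_or_eq.1 hi with hi | rfl
        · exact h1 i hi
        · exact h2
      · intro h
        exact ⟨fun i hi => h i (by omega), h n (by omega)⟩

private theorem gt_find {α : Type*} [Primcodable α] {f : α → ℕ → Bool}
    (hf : Computable₂ f) (h : ∀ a, ∃ n, f a n = true) :
    ∃ g : α → ℕ, Computable g ∧ ∀ a, f a (g a) = true ∧ ∀ m < g a, f a m = false := by
  refine ⟨fun a => Nat.find (h a), ?_, fun a => ⟨Nat.find_spec (h a), fun m hm => ?_⟩⟩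
  · have h1 : Partrec (fun a => Nat.rfind (fun n => (Part.some (f a n) : Part Bool))) :=
      Partrec.rfind (p := fun a n => Part.some (f a n)) hf
    refine h1.of_eq (fun a => ?_)
    apply Part.eq_some_iff.2
    apply Nat.mem_rfind.2
    refine ⟨?_, ?_⟩
    · have h2 := Nat.find_spec (h a)
      exact Part.mem_some_iff.2 h2.symm
    · intro m hm
      have h2 := Nat.find_min (h a) hm
      rw [Bool.not_eq_true] at h2
      exact Part.mem_some_iff.2 h2.symm
  · have := Nat.find_min (h a) hm
    rwa [Bool.not_eq_true] at this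

private theorem gt_pow : Computable (fun n : ℕ => 2 ^ n) := by
  apply Primrec.to_comp
  refine (Primrec.nat_rec₁ (f := fun _ m => m + m) 1 ?_).of_eq (fun n => ?_)
  · exact Primrec.nat_add.comp Primrec.snd Primrec.snd
  · induction n with
    | zero => rfl
    | succ n ih =>
      rw [pow_succ, ← ih]
      show _ + _ = _ * 2
      omega

/-- all strings of length `n` -/
private def gtAllS (n : ℕ) : List (List Bool) :=
  Nat.rec (motive := fun _ => List (List Bool)) [[]]
    (fun _ l => l.map (fun x => false :: x) ++ l.map (fun x => true :: x)) n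

private theorem gt_allS_comp : Computable gtAllS := by
  apply Primrec.to_comp
  refine Primrec.nat_rec₁ _ ?_
  have hc : ∀ b : Bool, Primrec (fun p : ℕ × List (List Bool) => p.2.map (fun x => b :: x)) :=
    fun b => Primrec.list_map Primrec.snd (Primrec.list_cons.comp (Primrec.const b) Primrec.snd)
  exact Primrec.list_append.comp (hc false) (hc true)

private theorem gt_mem_allS (x : List Bool) : x ∈ gtAllS x.length := by
  induction x with
  | nil => exact List.mem_singleton.2 rfl
  | cons b x ih =>
    show b :: x ∈ (gtAllS x.length).map (fun x => false :: x) ++ (gtAllS x.length).map (fun x => true :: x)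
    rw [List.mem_append]
    cases b
    · exact Or.inl (List.mem_map.2 ⟨x, ih, rfl⟩)
    · exact Or.inr (List.mem_map.2 ⟨x, ih, rfl⟩)

/-- bound for the running times of a program that halts on all inputs -/
private theorem gt_tau (e : ℕ) (he : ∀ x, ∃ B, hb e x B = true) :
    ∃ τ : ℕ → ℕ, Computable τ ∧ ∀ x, hb e x (τ x.length) = true := by
  have h1 : Computable₂ (fun (p : ℕ × ℕ) (i : ℕ) => hb e ((gtAllS p.1).getD i []) p.2) := by
    have hg : Computable (fun q : (ℕ × ℕ) × ℕ => (gtAllS q.1.1).getD q.2 []) :=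
      (Primrec.list_getD ([] : List Bool)).to_comp.comp
        (gt_allS_comp.comp (Computable.fst.comp Computable.fst)) Computable.snd
    exact computable_hb.comp (Computable.pair (Computable.const e)
      (Computable.pair hg (Computable.snd.comp Computable.fst)))
  have hN : Computable (fun p : ℕ × ℕ => (gtAllS p.1).length) := by
    have h2 : Computable (fun p : ℕ × ℕ => gtAllS p.1) := gt_allS_comp.comp Computable.fst
    exact Primrec.list_length.to_comp.comp h2
  obtain ⟨F, hF, hF'⟩ := gt_ball h1 hN
  have hmono : ∀ x B B', B ≤ B' → hb e x B = true → hb e x B' = true := by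
    intro x B B' hB h
    rw [hb_iff] at h ⊢
    rw [conf_of_halted h hB]
    exact h
  obtain ⟨g, hg, hg'⟩ := gt_find (f := fun n B => F (n, B)) hF (fun n => by
    have : ∀ l : List (List Bool), ∃ B, ∀ x ∈ l, hb e x B = true := by
      intro l
      induction l with
      | nil => exact ⟨0, fun x hx => absurd hx (by simp)⟩
      | cons y l ih =>
        obtain ⟨B, hB⟩ := ih
        obtain ⟨B', hB'⟩ := he y
        refine ⟨B + B', fun x hx => ?_⟩
        rcases List.mem_cons.1 hx with rfl | hx
        · exact hmono _ _ _ (by omega) hB'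
        · exact hmono _ _ _ (by omega) (hB x hx)
    obtain ⟨B, hB⟩ := this (gtAllS n)
    refine ⟨B, (hF' (n, B)).2 (fun i hi => ?_)⟩
    have hi' : i < (gtAllS n).length := hi
    show hb e ((gtAllS n).getD i []) B = true
    rw [List.getD_eq_getElem _ _ hi']
    exact hB _ (List.getElem_mem hi'))
  refine ⟨g, hg, fun x => ?_⟩
  obtain ⟨i, hi, hx⟩ := List.mem_iff_getElem.1 (gt_mem_allS x)
  have := (hF' (x.length, g x.length)).1 (hg' x.length).1 i hi
  have h2 : hb e ((gtAllS x.length).getD i []) (g x.length) = true := this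
  rw [List.getD_eq_getElem _ _ hi, hx] at h2
  exact h2


private theorem gt_ole_ev {f g : ℕ → ℕ} (N C : ℕ) (h : ∀ n, N ≤ n → f n ≤ C * (g n + 1)) :
    Ole f g := by
  refine ⟨C + ∑ i ∈ Finset.range N, f i, fun n => ?_⟩
  rw [Nat.add_mul]
  by_cases hn : N ≤ n
  · exact (h n hn).trans (Nat.le_add_right _ _)
  · have h1 : f n ≤ ∑ i ∈ Finset.range N, f i :=
      Finset.single_le_sum (f := f) (fun _ _ => Nat.zero_le _) (Finset.mem_range.2 (by omega))
    have h2 : (∑ i ∈ Finset.range N, f i) ≤ (∑ i ∈ Finset.range N, f i) * (g n + 1) :=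
      Nat.le_mul_of_pos_right _ (Nat.succ_pos _)
    omega

private theorem gt_min {A : Set (List Bool)} (l : List (ℕ → ℕ))
    (hl : ∀ h ∈ l, (∀ n, n ≤ h n) ∧ DTIME h A) (f : ℕ → ℕ) (hf : ∀ n, n ≤ f n) (hfA : DTIME f A) :
    ∃ m : ℕ → ℕ, (∀ n, n ≤ m n) ∧ DTIME m A ∧ (∀ n, m n ≤ f n) ∧ ∀ h ∈ l, ∀ n, m n ≤ h n := by
  induction l with
  | nil => exact ⟨f, hf, hfA, fun n => le_rfl, fun h hh => absurd hh (by simp)⟩
  | cons g l ih =>
    obtain ⟨m, h1, h2, h3, h4⟩ := ih (fun h hh => hl h (List.mem_cons_of_mem _ hh))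
    obtain ⟨h5, h6⟩ := hl g List.mem_cons_self
    refine ⟨fun n => min (g n) (m n), fun n => le_min (h5 n) (h1 n), dtime_min h5 h1 h6 h2,
      fun n => (min_le_right _ _).trans (h3 n), fun h hh n => ?_⟩
    rcases List.mem_cons.1 hh with rfl | hh
    · exact min_le_left _ _
    · exact (min_le_right _ _).trans (h4 h hh n)

private theorem gt_run {e : ℕ} {x : List Bool} {t : ℕ} {o : List ℤ} (h : Runs (pr e) x t o) {B : ℕ}
    (hB : t ≤ B) : hb e x B = true ∧ (conf (pr e) x B).out = o := by
  have h1 := conf_of_halted h.1 hB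
  refine ⟨?_, ?_⟩
  · rw [hb_iff, h1]
    exact h.1
  · rw [h1]
    exact h.2.2

private theorem gt_run' {e : ℕ} {x : List Bool} {t : ℕ} {o : List ℤ} (h : Runs (pr e) x t o) {B : ℕ}
    (hB : hb e x B = true) : t ≤ B := by
  obtain ⟨t', ht', o', h'⟩ := (halted_iff_runs (pr e) x B).1 (hb_iff.1 hB)
  rw [(h.unique h').1]
  exact ht'

private theorem gt_rep : Computable (fun n : ℕ => List.replicate n false) := by
  apply Primrec.to_comp
  refine (Primrec.list_map (f := fun n : ℕ => List.range n) (g := fun _ _ => false)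
    Primrec.list_range (Primrec.const false).to₂).of_eq (fun n => ?_)
  simp

/-- the data of the construction -/
private theorem gt_data (A : Set (List Bool)) (hA : CompSet A) : ∃ (eM e0 : ℕ) (τ : ℕ → ℕ),
    Computable τ ∧ (∀ x, ∃ t ≤ τ x.length, ∃ o, (x ∈ A → o = [1]) ∧ (x ∉ A → o = [0]) ∧
      Runs (pr eM) x t o) ∧ Tot e0 ∧ (∀ n, τ n ≤ ck e0 n) := by
  classical
  obtain ⟨p, hp⟩ := hA
  have hM : ∀ x, ∃ B, hb (num p) x B = true := by
    intro x
    obtain ⟨t, ht⟩ := hp x
    refine ⟨t, (gt_run (e := num p) (x := x) (t := t) (o := [if x ∈ A then 1 else 0]) ?_ le_rfl).1⟩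
    rw [pr_num]
    exact ht
  obtain ⟨τ, hτ, hτ'⟩ := gt_tau (num p) hM
  obtain ⟨H, hH⟩ := code_prog (fun n => List.replicate (τ n) 0) (by
    have h1 : Computable (fun n : ℕ => List.replicate n (0 : ℕ)) := by
      apply Primrec.to_comp
      refine (Primrec.list_map (f := fun n : ℕ => List.range n) (g := fun _ _ => (0 : ℕ))
        Primrec.list_range (Primrec.const 0).to₂).of_eq (fun n => ?_)
      simp
    exact h1.comp hτ)
  refine ⟨num p, num H, τ, hτ, fun x => ?_, ?_, fun n => ?_⟩
  · obtain ⟨t, ht⟩ := hp x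
    have ht' : Runs (pr (num p)) x t [if x ∈ A then 1 else 0] := by
      rw [pr_num]
      exact ht
    refine ⟨t, gt_run' ht' (hτ' x), _, ?_, ?_, ht'⟩
    · intro hx
      rw [if_pos hx]
    · intro hx
      rw [if_neg hx]
  · intro n
    obtain ⟨t, ht⟩ := hH (List.replicate n false)
    rw [← pr_num H] at ht
    exact ⟨t, (gt_run ht le_rfl).1⟩
  · obtain ⟨t, ht⟩ := hH (List.replicate n false)
    have ht' := ht
    rw [← pr_num H] at ht'
    rw [ck_of_runs ht']
    have h1 := length_out_le H (List.replicate n false) t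
    rw [ht.2.2, List.length_map, List.length_replicate, List.length_replicate] at h1
    omega


private theorem gt_le {α : Type*} [Primcodable α] {f g : α → ℕ} (hf : Computable f)
    (hg : Computable g) : Computable (fun a => decide (f a ≤ g a)) := by
  have h1 : Computable (fun r : ℕ × ℕ => decide (r.1 ≤ r.2)) := (Primrec.nat_le.decide).to_comp
  have h2 : Computable (fun a => (f a, g a)) := Computable.pair hf hg
  exact h1.comp h2

private theorem gt_eq {α : Type*} [Primcodable α] {f g : α → ℕ} (hf : Computable f)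
    (hg : Computable g) : Computable (fun a => decide (f a = g a)) := by
  have h1 : Computable (fun r : ℕ × ℕ => decide (r.1 = r.2)) :=
    (Primrec.eq (α := ℕ)).decide.to_comp
  have h2 : Computable (fun a => (f a, g a)) := Computable.pair hf hg
  exact h1.comp h2

/-- enumeration of the strings -/
private def gtDec (m : ℕ) : List Bool := (Encodable.decode (α := List Bool) m).getD []

private theorem gt_dec_comp : Computable gtDec := by
  apply Primrec.to_comp
  exact Primrec.option_getD.comp Primrec.decode (Primrec.const [])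

private theorem gt_dec_encode (x : List Bool) : gtDec (Encodable.encode x) = x := by
  unfold gtDec
  rw [Encodable.encodek]
  rfl

private theorem gt_hb {α : Type*} [Primcodable α] {f : α → ℕ} {g : α → List Bool} {h : α → ℕ}
    (hf : Computable f) (hg : Computable g) (hh : Computable h) :
    Computable (fun a => hb (f a) (g a) (h a)) := by
  have h2 : Computable (fun a => (f a, g a, h a)) := Computable.pair hf (Computable.pair hg hh)
  exact computable_hb.comp h2

private theorem gt_oc {α : Type*} [Primcodable α] {f : α → ℕ} {g : α → List Bool} {h : α → ℕ}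
    (hf : Computable f) (hg : Computable g) (hh : Computable h) :
    Computable (fun a => oc (f a) (g a) (h a)) := by
  have h2 : Computable (fun a => (f a, g a, h a)) := Computable.pair hf (Computable.pair hg hh)
  exact computable_oc.comp h2

private theorem gt_powf {α : Type*} [Primcodable α] {f : α → ℕ} (hf : Computable f) :
    Computable (fun a => 2 ^ f a) := gt_pow.comp hf

private theorem gt_add {α : Type*} [Primcodable α] {f g : α → ℕ} (hf : Computable f)
    (hg : Computable g) : Computable (fun a => f a + g a) := (Primrec.nat_add.to_comp).comp hf hg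

private theorem gt_and {α : Type*} [Primcodable α] {f g : α → Bool} (hf : Computable f)
    (hg : Computable g) : Computable (fun a => f a && g a) := (Primrec.and.to_comp).comp hf hg

private theorem gt_or {α : Type*} [Primcodable α] {f g : α → Bool} (hf : Computable f)
    (hg : Computable g) : Computable (fun a => f a || g a) := (Primrec.or.to_comp).comp hf hg

private theorem gt_hb_mono {e : ℕ} {x : List Bool} {B B' : ℕ} (hB : B ≤ B') (h : hb e x B = true) :
    hb e x B' = true := by
  rw [hb_iff] at h ⊢
  rw [conf_of_halted h hB]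
  exact h

private theorem gt_le_ck {e : ℕ} (he : Tot e) (n : ℕ) : n ≤ ck e n := by
  obtain ⟨t, o, h⟩ := (tot_iff e).1 he n
  rw [ck_of_runs h]
  omega

theorem gen_thm (A : Set (List Bool)) (hA : CompSet A) : ∃ ι : ℕ → ℕ, Computable ι ∧
    (∀ j, Tot (ι j)) ∧ (∀ j, Ole (ck (ι (j + 1))) (ck (ι j))) ∧
    ∀ f, TC f → (DTIME f A ↔ ∃ j, Ole (ck (ι j)) f) := by
  classical
  obtain ⟨eM, e0, τ, hτ, hM, h0, hτ0⟩ := gt_data A hA
  -- the function `L`
  have cst0 : Computable (fun q : (ℕ × ℕ) × ℕ => List.replicate q.1.2 false) :=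
    gt_rep.comp (Computable.snd.comp Computable.fst)
  have chb : ∀ (fe : (ℕ × ℕ) × ℕ → ℕ), Computable fe → Computable (fun q : (ℕ × ℕ) × ℕ =>
      hb (fe q) (List.replicate q.1.2 false) (2 ^ q.2)) := fun fe hfe =>
    gt_hb hfe cst0 (gt_powf Computable.snd)
  have cle : Computable (fun q : (ℕ × ℕ) × ℕ => decide (s0 q.1.2 ≤ q.2)) :=
    gt_le (computable_s0.comp (Computable.snd.comp Computable.fst)) Computable.snd
  obtain ⟨L, hL, hL'⟩ := gt_find (f := fun (q : ℕ × ℕ) s => decide (s0 q.2 ≤ s) &&
      (hb e0 (List.replicate q.2 false) (2 ^ s) || hb q.1 (List.replicate q.2 false) (2 ^ s)))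
    (gt_and cle (gt_or (chb _ (Computable.const e0))
      (chb _ (Computable.fst.comp Computable.fst)))) (fun q => by
        obtain ⟨B, hB⟩ := h0 q.2
        refine ⟨s0 q.2 + B, ?_⟩
        have h1 : hb e0 (List.replicate q.2 false) (2 ^ (s0 q.2 + B)) = true :=
          gt_hb_mono ((Nat.lt_two_pow_self (n := B)).le.trans
            (Nat.pow_le_pow_right (by norm_num) (Nat.le_add_left _ _))) hB
        simp [h1])
  have hLs : ∀ d n, s0 n ≤ L (d, n) := by
    intro d n
    have h1 := (hL' (d, n)).1
    simp only [Bool.and_eq_true, decide_eq_true_eq] at h1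
    exact h1.1
  have hLh : ∀ d n, hb e0 (List.replicate n false) (2 ^ L (d, n)) = true ∨
      hb d (List.replicate n false) (2 ^ L (d, n)) = true := by
    intro d n
    have h1 := (hL' (d, n)).1
    simp only [Bool.and_eq_true, Bool.or_eq_true, decide_eq_true_eq] at h1
    exact h1.2
  have hLm : ∀ d n s, s0 n ≤ s → (hb e0 (List.replicate n false) (2 ^ s) = true ∨
      hb d (List.replicate n false) (2 ^ s) = true) → L (d, n) ≤ s := by
    intro d n s hs h
    by_contra hlt
    have h1 := (hL' (d, n)).2 s (by omega)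
    rw [← Bool.not_eq_true] at h1
    apply h1
    simp only [Bool.and_eq_true, Bool.or_eq_true, decide_eq_true_eq]
    exact ⟨hs, h⟩
  have hLn : ∀ d n, n ≤ 2 ^ L (d, n) := by
    intro d n
    exact (lt_two_pow_s0 n).le.trans (Nat.pow_le_pow_right (by norm_num) (hLs d n))
  -- the output of the given machine
  have hoM : ∀ x, (x ∈ A → oc eM x (τ x.length) = 1) ∧ (x ∉ A → oc eM x (τ x.length) = 2) := by
    intro x
    obtain ⟨t, ht, o, ho1, ho0, hr⟩ := hM x
    have h1 := (gt_run hr ht).2
    unfold oc
    rw [h1]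
    refine ⟨fun hx => ?_, fun hx => ?_⟩
    · rw [ho1 hx, if_pos rfl]
    · rw [ho0 hx, if_neg (by simp), if_pos rfl]
  -- the check
  obtain ⟨bud', hbud'⟩ : ∃ b : ℕ → List Bool → ℕ, b = fun i x =>
    2 ^ (i.unpair.2.unpair.2 + L (i.unpair.1, x.length)) := ⟨_, rfl⟩
  obtain ⟨chk, hchk⟩ : ∃ c : ℕ → List Bool → Bool, c = fun i x =>
    hb i.unpair.2.unpair.1 x (bud' i x) &&
      decide (oc i.unpair.2.unpair.1 x (bud' i x) = oc eM x (τ x.length)) := ⟨_, rfl⟩
  have cu1 : Computable (fun i : ℕ => i.unpair.1) := Computable.fst.comp Computable.unpair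
  have cu2 : Computable (fun i : ℕ => i.unpair.2) := Computable.snd.comp Computable.unpair
  have cbud : Computable (fun q : ℕ × List Bool => bud' q.1 q.2) := by
    rw [hbud']
    have h1 : Computable (fun q : ℕ × List Bool => q.1.unpair.2.unpair.2) :=
      cu2.comp (cu2.comp Computable.fst)
    have h2 : Computable (fun q : ℕ × List Bool => L (q.1.unpair.1, q.2.length)) :=
      hL.comp (Computable.pair (cu1.comp Computable.fst) (Computable.list_length.comp Computable.snd))
    exact gt_powf (gt_add h1 h2)
  have cchk : Computable (fun q : ℕ × List Bool => chk q.1 q.2) := by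
    rw [hchk]
    have h1 : Computable (fun q : ℕ × List Bool => q.1.unpair.2.unpair.1) :=
      cu1.comp (cu2.comp Computable.fst)
    have h2 : Computable (fun q : ℕ × List Bool => hb q.1.unpair.2.unpair.1 q.2 (bud' q.1 q.2)) :=
      gt_hb h1 Computable.snd cbud
    have h3 : Computable (fun q : ℕ × List Bool => oc q.1.unpair.2.unpair.1 q.2 (bud' q.1 q.2)) :=
      gt_oc h1 Computable.snd cbud
    have h4 : Computable (fun q : ℕ × List Bool => oc eM q.2 (τ q.2.length)) :=
      gt_oc (Computable.const eM) Computable.snd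
        (hτ.comp (Computable.list_length.comp Computable.snd))
    exact gt_and h2 (gt_eq h3 h4)
  have hgood1 : ∀ i x, chk i x = true → ∃ t ≤ bud' i x, Runs (pr i.unpair.2.unpair.1) x t
      [if x ∈ A then 1 else 0] := by
    intro i x h
    rw [hchk] at h
    simp only [Bool.and_eq_true, decide_eq_true_eq] at h
    obtain ⟨h1, h2⟩ := h
    obtain ⟨t, ht, o, hr⟩ := (halted_iff_runs _ x _).1 (hb_iff.1 h1)
    refine ⟨t, ht, ?_⟩
    have h3 := (gt_run hr ht).2
    unfold oc at h2
    rw [h3] at h2
    by_cases hx : x ∈ A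
    · have h4 := (hoM x).1 hx
      unfold oc at h4
      rw [h4] at h2
      rw [if_pos hx]
      by_cases h5 : o = [1]
      · rw [← h5]
        exact hr
      · exfalso
        rw [if_neg h5] at h2
        split_ifs at h2
        omega
    · have h4 := (hoM x).2 hx
      unfold oc at h4
      rw [h4] at h2
      rw [if_neg hx]
      by_cases h5 : o = [1]
      · exfalso
        rw [if_pos h5] at h2
        omega
      · rw [if_neg h5] at h2
        by_cases h6 : o = [0]
        · rw [← h6]
          exact hr
        · exfalso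
          rw [if_neg h6] at h2
          omega
  have hgood : ∀ i, (∀ x, chk i x = true) → DTIME (fun n => 2 ^ L (i.unpair.1, n)) A := by
    intro i hi
    refine ⟨pr i.unpair.2.unpair.1, 2 ^ i.unpair.2.unpair.2, fun x => ?_⟩
    obtain ⟨t, ht, hr⟩ := hgood1 i x (hi x)
    refine ⟨t, ht.trans ?_, hr⟩
    rw [hbud']
    show 2 ^ (i.unpair.2.unpair.2 + L (i.unpair.1, x.length)) ≤ _
    rw [pow_add]
    exact Nat.mul_le_mul_left _ (Nat.le_succ _)
  -- the flags
  obtain ⟨F, hF, hF'⟩ := gt_ball (α := ℕ × ℕ)
    (f := fun q m => chk q.2 (gtDec m)) (N := fun q => q.1)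
    (cchk.comp (Computable.pair (Computable.snd.comp Computable.fst)
      (gt_dec_comp.comp Computable.snd))) Computable.fst
  obtain ⟨g, ι, hι, hg, -, hj⟩ := race_index e0 (fun i => i.unpair.1) (fun k i => F (k, i)) h0 cu1 hF
  have hA0 : DTIME (ck e0) A := by
    refine ⟨pr eM, 1, fun x => ?_⟩
    obtain ⟨t, ht, o, ho1, ho0, hr⟩ := hM x
    refine ⟨t, ?_, ?_⟩
    · have := hτ0 x.length
      omega
    · by_cases hx : x ∈ A
      · rw [if_pos hx, ← ho1 hx]
        exact hr
      · rw [if_neg hx, ← ho0 hx]
        exact hr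
  refine ⟨ι, hι, fun j => (hj j).1, fun j => ?_, fun f hf => ⟨fun hfA => ?_, ?_⟩⟩
  · -- descending
    obtain ⟨C, hC⟩ := (hj j).2
    obtain ⟨C', hC'⟩ := (hj (j + 1)).2
    refine ⟨C' * C, fun n => ?_⟩
    obtain ⟨s, hs, hst, hmin, hup, hlo⟩ := hC n
    obtain ⟨s', hs', hst', hmin', hup', hlo'⟩ := hC' n
    have hle : s' ≤ s := by
      by_contra hlt
      refine hmin' s hs (by omega) ?_
      rcases hst with h | ⟨i, hi, h⟩
      · exact Or.inl h
      · exact Or.inr ⟨i, by omega, h⟩
    calc ck (ι (j + 1)) n ≤ C' * 2 ^ s' := hlo'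
      _ ≤ C' * 2 ^ s := Nat.mul_le_mul_left _ (Nat.pow_le_pow_right (by norm_num) hle)
      _ ≤ C' * (C * (ck (ι j) n + 1)) := Nat.mul_le_mul_left _ hup
      _ = C' * C * (ck (ι j) n + 1) := (Nat.mul_assoc _ _ _).symm
  · -- from a time bound to an index
    obtain ⟨d, hd, hfd, hdf⟩ := tc_index hf
    obtain ⟨p', c', hp'⟩ := dtime_min (gt_le_ck h0) (gt_le_ck hd) hA0 (hfA.mono hfd)
    obtain ⟨i, hi⟩ : ∃ i, i = Nat.pair d (Nat.pair (num p') (c' + 1)) := ⟨_, rfl⟩
    have i1 : i.unpair.1 = d := by rw [hi, Nat.unpair_pair]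
    have i2 : i.unpair.2.unpair.1 = num p' := by rw [hi, Nat.unpair_pair, Nat.unpair_pair]
    have i3 : i.unpair.2.unpair.2 = c' + 1 := by rw [hi, Nat.unpair_pair, Nat.unpair_pair]
    have hck : ∀ x, chk i x = true := by
      intro x
      obtain ⟨t, ht, hr⟩ := hp' x
      have hr' : Runs (pr (num p')) x t [if x ∈ A then 1 else 0] := by
        rw [pr_num]
        exact hr
      have hbd : t ≤ bud' i x := by
        rw [hbud']
        show t ≤ 2 ^ (i.unpair.2.unpair.2 + L (i.unpair.1, x.length))
        rw [i1, i3]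
        have h1 : min (ck e0 x.length) (ck d x.length) + 1 ≤ 2 ^ (L (d, x.length) + 1) := by
          have h2 : x.length < 2 ^ L (d, x.length) :=
            (lt_two_pow_s0 _).trans_le (Nat.pow_le_pow_right (by norm_num) (hLs _ _))
          rw [pow_succ]
          rcases hLh d x.length with h | h
          · obtain ⟨t1, o1, hr1⟩ := (tot_iff e0).1 h0 x.length
            have h3 := gt_run' hr1 h
            have h4 := ck_of_runs hr1
            have h5 := min_le_left (ck e0 x.length) (ck d x.length)
            omega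
          · obtain ⟨t1, o1, hr1⟩ := (tot_iff d).1 hd x.length
            have h3 := gt_run' hr1 h
            have h4 := ck_of_runs hr1
            have h5 := min_le_right (ck e0 x.length) (ck d x.length)
            omega
        calc t ≤ c' * (min (ck e0 x.length) (ck d x.length) + 1) := ht
          _ ≤ 2 ^ c' * 2 ^ (L (d, x.length) + 1) :=
            Nat.mul_le_mul (Nat.lt_two_pow_self).le h1
          _ = 2 ^ (c' + 1 + L (d, x.length)) := by
            rw [← pow_add]
            congr 1
            omega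
      obtain ⟨h1, h2⟩ := gt_run hr' hbd
      rw [hchk]
      simp only [Bool.and_eq_true, decide_eq_true_eq]
      rw [i2]
      refine ⟨h1, ?_⟩
      by_cases hx : x ∈ A
      · rw [(hoM x).1 hx]
        unfold oc
        rw [h2, if_pos hx, if_pos rfl]
      · rw [(hoM x).2 hx]
        unfold oc
        rw [h2, if_neg hx, if_neg (by simp), if_pos rfl]
    refine ⟨i, Ole.trans ?_ hdf⟩
    obtain ⟨N, hN⟩ := Filter.eventually_atTop.1 (hg.eventually_gt_atTop i)
    obtain ⟨C, hC⟩ := (hj i).2
    refine gt_ole_ev N (C * 2 ^ (i + 2) * 2) (fun n hn => ?_)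
    obtain ⟨s, hs, hst, hmin, hup, hlo⟩ := hC n
    obtain ⟨t, o, hr⟩ := (tot_iff d).1 hd n
    have h1 := ck_of_runs hr
    have h2 := lt_two_pow_s0 (ck d n)
    have h3 := two_pow_s0_le (ck d n)
    have h4 : s0 n ≤ s0 (ck d n) := Nat.size_le_size (gt_le_ck hd n)
    have hle : s ≤ i + 2 + s0 (ck d n) := by
      by_contra hlt
      refine hmin (i + 2 + s0 (ck d n)) (by omega) (by omega) (Or.inr ⟨i, le_rfl, hN n hn, ?_,
        by omega, ?_⟩)
      · exact (hF' (g n, i)).2 (fun m _ => hck _)
      · show hb i.unpair.1 _ _ = true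
        rw [i1, Nat.add_sub_cancel_left]
        exact (gt_run hr (by omega)).1
    calc ck (ι i) n ≤ C * 2 ^ s := hlo
      _ ≤ C * 2 ^ (i + 2 + s0 (ck d n)) :=
        Nat.mul_le_mul_left _ (Nat.pow_le_pow_right (by norm_num) hle)
      _ = C * 2 ^ (i + 2) * 2 ^ s0 (ck d n) := by rw [pow_add, Nat.mul_assoc]
      _ ≤ C * 2 ^ (i + 2) * (2 * (ck d n + 1)) := Nat.mul_le_mul_left _ (by omega)
      _ = C * 2 ^ (i + 2) * 2 * (ck d n + 1) := (Nat.mul_assoc _ _ _).symm
  · -- from an index to a time bound
    rintro ⟨j, hjf⟩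
    refine DTIME.mono ?_ hjf
    obtain ⟨C, hC⟩ := (hj j).2
    have hbad : ∀ i, ∃ k, (∀ x, chk i x = true) ∨
        ∃ m < k, chk i (gtDec m) ≠ true := by
      intro i
      by_cases h : ∀ x, chk i x = true
      · exact ⟨0, Or.inl h⟩
      · push Not at h
        obtain ⟨x, hx⟩ := h
        refine ⟨Encodable.encode x + 1, Or.inr ⟨Encodable.encode x, Nat.lt_succ_self _, ?_⟩⟩
        rw [gt_dec_encode]
        exact hx
    choose K hK using hbad
    obtain ⟨N, hN⟩ := Filter.eventually_atTop.1
      (hg.eventually_ge_atTop (∑ i ∈ Finset.range (j + 1), K i))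
    obtain ⟨m, hm1, hm2, hm3, hm4⟩ := gt_min
      (((List.range (j + 1)).filter (fun i => decide (∀ x, chk i x = true))).map
        (fun i n => 2 ^ L (i.unpair.1, n))) (by
          intro h hh
          obtain ⟨i, hi, rfl⟩ := List.mem_map.1 hh
          rw [List.mem_filter, decide_eq_true_eq] at hi
          exact ⟨fun n => hLn _ _, hgood i hi.2⟩) (ck e0) (gt_le_ck h0) hA0
    refine hm2.mono (gt_ole_ev N (2 * C) (fun n hn => ?_))
    obtain ⟨s, hs, hst, hmin, hup, hlo⟩ := hC n
    have hmain : m n ≤ 2 * 2 ^ s := by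
      rcases hst with ⟨h1, h2⟩ | ⟨i, hij, hig, hfl, his, h2⟩
      · obtain ⟨t1, o1, hr1⟩ := (tot_iff e0).1 h0 n
        have h3 := gt_run' hr1 h2
        have h4 := ck_of_runs hr1
        have h5 : 2 ^ (s - 1) ≤ 2 ^ s := Nat.pow_le_pow_right (by norm_num) (by omega)
        have h6 : n < 2 ^ s := (lt_two_pow_s0 n).trans_le (Nat.pow_le_pow_right (by norm_num) hs)
        have h7 := hm3 n
        omega
      · have hgd : ∀ x, chk i x = true := by
          rcases hK i with h | ⟨m', hm', hne⟩
          · exact h
          · exfalso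
            apply hne
            refine (hF' (g n, i)).1 hfl m' ?_
            have h5 : K i ≤ ∑ i ∈ Finset.range (j + 1), K i :=
              Finset.single_le_sum (f := K) (fun _ _ => Nat.zero_le _)
                (Finset.mem_range.2 (by omega))
            have h6 := hN n hn
            show m' < g n
            omega
        have h3 : L (i.unpair.1, n) ≤ s := by
          refine hLm _ _ _ hs (Or.inr (gt_hb_mono ?_ h2))
          exact Nat.pow_le_pow_right (by norm_num) (by omega)
        have h4 := hm4 (fun n => 2 ^ L (i.unpair.1, n)) (List.mem_map.2 ⟨i, by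
          rw [List.mem_filter, decide_eq_true_eq, List.mem_range]
          exact ⟨by omega, hgd⟩, rfl⟩) n
        have h5 : 2 ^ L (i.unpair.1, n) ≤ 2 ^ s := Nat.pow_le_pow_right (by norm_num) h3
        have h6 : m n ≤ 2 ^ L (i.unpair.1, n) := h4
        omega
    calc m n ≤ 2 * 2 ^ s := hmain
      _ ≤ 2 * (C * (ck (ι j) n + 1)) := Nat.mul_le_mul_left _ hup
      _ = 2 * C * (ck (ι j) n + 1) := (Nat.mul_assoc _ _ _).symm

end Pool.Agent.H71.CT
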