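import Pool.Agent.H71.CT.InterpDef

/-!
One simulated step.
-/

namespace Pool.Agent.H71.CT

/-! ### atomic rules -/

private theorem is_const (σ : St) (v : ℕ) (c : ℤ) : Reach (.const v c) σ 1 (σ.sv v c) :=
  ⟨1, le_rfl, Big.const σ v c⟩

private theorem is_mov (σ : St) (v a : ℕ) : Reach (.mov v a) σ 1 (σ.sv v (σ.v a)) :=
  ⟨1, le_rfl, Big.mov σ v a⟩

private theorem is_add (σ : St) (v a b : ℕ) : Reach (.add v a b) σ 1 (σ.sv v (σ.v a + σ.v b)) :=
  ⟨1, le_rfl, Big.add σ v a b⟩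

private theorem is_sub (σ : St) (v a b : ℕ) : Reach (.sub v a b) σ 1 (σ.sv v (σ.v a - σ.v b)) :=
  ⟨1, le_rfl, Big.sub σ v a b⟩

private theorem is_get (σ : St) (v a i : ℕ) :
    Reach (.get v a i) σ 1 (σ.sv v (σ.a a (σ.v i).toNat)) :=
  ⟨1, le_rfl, Big.get σ v a i⟩

private theorem is_put (σ : St) (a i v : ℕ) :
    Reach (.put a i v) σ 1 (σ.sa a (σ.v i).toNat (σ.v v)) :=
  ⟨1, le_rfl, Big.put σ a i v⟩

private theorem is_cons {s : Stmt} {l : List Stmt} {σ ρ τ : St} {C D : ℕ} (h : Reach s σ C ρ)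
    (h' : Reach (blk l) ρ D τ) : Reach (blk (s :: l)) σ (C + D) τ :=
  Reach.seq h h'

private theorem is_nil (σ : St) : Reach (blk []) σ 0 σ := Reach.skip σ

/-- one changed variable -/
private theorem is_fr_sv (σ : St) (v : ℕ) (z : ℤ) : Fr {v} ∅ σ (σ.sv v z) :=
  ⟨fun w hw => Function.update_of_ne (fun h => hw h) _ _, fun _ _ => rfl, rfl, rfl⟩

private theorem is_sv_same (σ : St) (v : ℕ) (z : ℤ) : (σ.sv v z).v v = z :=
  Function.update_self _ _ _

private theorem is_sv_ne (σ : St) {v w : ℕ} (h : w ≠ v) (z : ℤ) : (σ.sv v z).v w = σ.v w :=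
  Function.update_of_ne h _ _

private theorem is_sv_a (σ : St) (v : ℕ) (z : ℤ) : (σ.sv v z).a = σ.a := rfl

private theorem is_sim {y : List Bool} {σ τ : St} {k : Cfg} {V A : Set ℕ} (h : SimR y σ k)
    (hf : Fr V A σ τ) (h7 : 7 ∉ V) (h8 : 8 ∉ V) (h9 : 9 ∉ V) (h10 : 10 ∉ V) (h1 : 1 ∉ A)
    (h2 : 2 ∉ A) (h3 : 3 ∉ A) : SimR y τ k := by
  refine ⟨?_, fun i => ?_, ?_, ?_, fun i hi => ?_⟩
  · rw [hf.v 9 h9]; exact h.pc
  · rw [hf.v 8 h8, hf.a 2 h2, hf.a 1 h1]; exact h.reg i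
  · rw [hf.v 10 h10]; exact h.ipl
  · rw [hf.v 7 h7]; exact h.ocl
  · rw [hf.a 3 h3]; exact h.outp i hi

private theorem is_stamps {σ τ : St} {V A : Set ℕ} (h : Stamps σ)
    (hf : Fr V A σ τ) (h8 : 8 ∉ V) (h2 : 2 ∉ A) : Stamps τ := by
  refine ⟨?_, fun i => ?_⟩
  · rw [hf.v 8 h8]; exact h.1
  · rw [hf.v 8 h8, hf.a 2 h2]; exact h.2 i

/-- reading a simulated register -/
private theorem is_rd {v i : ℕ} (hi : i ≠ 38) (hi' : i ≠ 39) {σ : St}
    (hs : Stamps σ) : ∃ τ, Reach (rdreg v i) σ 6 τ ∧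
      τ.v v = (if σ.a 2 (σ.v i).toNat = σ.v 8 then σ.a 1 (σ.v i).toNat else 0) ∧
      Fr {38, 39, v} ∅ σ τ := by
  set σ1 := σ.sv 38 (σ.a 2 (σ.v i).toNat) with e1
  set σ2 := σ1.sv 38 (σ1.v 38 - σ1.v 8) with e2
  set σ3 := σ2.sv 39 1 with e3
  set σ4 := σ3.sv 38 (σ3.v 38 + σ3.v 39) with e4
  have h38 : σ4.v 38 = σ.a 2 (σ.v i).toNat - σ.v 8 + 1 := by
    rw [e4, is_sv_same, e3, is_sv_same, is_sv_ne _ (by norm_num), e2, is_sv_same, e1, is_sv_same,
      is_sv_ne _ (by norm_num)]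
  have hi4 : σ4.v i = σ.v i := by
    rw [e4, is_sv_ne _ hi, e3, is_sv_ne _ hi', e2, is_sv_ne _ hi, e1, is_sv_ne _ hi]
  have ha4 : σ4.a = σ.a := rfl
  have hf4 : Fr {38, 39, v} ∅ σ σ4 := by
    refine ⟨fun w hw => ?_, fun _ _ => rfl, rfl, rfl⟩
    have hw1 : w ≠ 38 := fun h => hw (by simp [h])
    have hw2 : w ≠ 39 := fun h => hw (by simp [h])
    rw [e4, is_sv_ne _ hw1, e3, is_sv_ne _ hw2, e2, is_sv_ne _ hw1, e1, is_sv_ne _ hw1]
  have hle := hs.2 (σ.v i).toNat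
  by_cases hc : σ.a 2 (σ.v i).toNat = σ.v 8
  · refine ⟨σ4.sv v (σ4.a 1 (σ4.v i).toNat), ?_, ?_, ?_⟩
    · refine (is_cons (is_get σ 38 2 i) (is_cons (is_sub _ 38 38 8) (is_cons (is_const _ 39 1)
        (is_cons (is_add _ 38 38 39) (is_cons (Reach.ite_pos ?_ (is_get _ v 1 i))
          (is_nil _)))))).mono (by norm_num)
      show 0 < σ4.v 38
      rw [h38, hc]; norm_num
    · rw [is_sv_same, if_pos hc, ha4, hi4]
    · refine hf4.trans ((is_fr_sv _ v _).mono ?_ (fun x hx => hx))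
      intro x hx
      rw [Set.mem_singleton_iff] at hx
      simp [hx]
  · refine ⟨σ4.sv v 0, ?_, ?_, ?_⟩
    · refine (is_cons (is_get σ 38 2 i) (is_cons (is_sub _ 38 38 8) (is_cons (is_const _ 39 1)
        (is_cons (is_add _ 38 38 39) (is_cons (Reach.ite_neg ?_ (is_const _ v 0))
          (is_nil _)))))).mono (by norm_num)
      show ¬ 0 < σ4.v 38
      rw [h38]; omega
    · rw [is_sv_same, if_neg hc]
    · refine hf4.trans ((is_fr_sv _ v _).mono ?_ (fun x hx => hx))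
      intro x hx
      rw [Set.mem_singleton_iff] at hx
      simp [hx]

/-- the next address -/
private theorem is_inc {y : List Bool} {σ : St} {k : Cfg} (hR : SimR y σ k) (hS : Stamps σ) :
    ∃ τ, Reach incpc σ 2 τ ∧ Fr {9, 39} ∅ σ τ ∧ Stamps τ ∧
      SimR y τ ⟨k.pc + 1, k.reg, k.inp, k.out⟩ := by
  set τ := (σ.sv 39 1).sv 9 ((σ.sv 39 1).v 9 + (σ.sv 39 1).v 39) with et
  have h9 : τ.v 9 = σ.v 9 + 1 := by
    rw [et, is_sv_same, is_sv_same, is_sv_ne _ (by norm_num)]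
  have hv : ∀ w, w ≠ 9 → w ≠ 39 → τ.v w = σ.v w := fun w h h' => by
    rw [et, is_sv_ne _ h, is_sv_ne _ h']
  have ha : τ.a = σ.a := rfl
  refine ⟨τ, (is_cons (is_const σ 39 1) (is_cons (is_add _ 9 9 39) (is_nil _))).mono (by norm_num),
    ⟨fun w hw => hv w (fun h => hw (by simp [h])) (fun h => hw (by simp [h])),
      fun _ _ => rfl, rfl, rfl⟩, ⟨?_, fun i => ?_⟩, ⟨?_, fun i => ?_, ?_, ?_, fun i hi => ?_⟩⟩
  · rw [hv 8 (by norm_num) (by norm_num)]; exact hS.1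
  · rw [hv 8 (by norm_num) (by norm_num), ha]; exact hS.2 i
  · rw [h9, hR.pc]; push_cast; rfl
  · rw [hv 8 (by norm_num) (by norm_num), ha]; exact hR.reg i
  · rw [hv 10 (by norm_num) (by norm_num)]; exact hR.ipl
  · rw [hv 7 (by norm_num) (by norm_num)]; exact hR.ocl
  · rw [ha]; exact hR.outp i hi

/-- writing a simulated register -/
private theorem is_wr {y : List Bool} {σ : St} {k : Cfg} (hR : SimR y σ k) (hS : Stamps σ)
    (i v idx : ℕ) (val : ℤ) (hi : (σ.v i).toNat = idx) (hv : σ.v v = val) :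
    ∃ τ, Reach (blk [wrreg i v, incpc]) σ 4 τ ∧ Fr {9, 39} {1, 2} σ τ ∧ Stamps τ ∧
      SimR y τ ⟨k.pc + 1, Function.update k.reg idx val, k.inp, k.out⟩ := by
  set σ1 := σ.sa 2 (σ.v i).toNat (σ.v 8) with e1
  set σ2 := σ1.sa 1 (σ1.v i).toNat (σ1.v v) with e2
  have hv2 : σ2.v = σ.v := rfl
  have hA : σ2.a = Function.update (Function.update σ.a 2
      (Function.update (σ.a 2) (σ.v i).toNat (σ.v 8))) 1
      (Function.update ((Function.update σ.a 2
        (Function.update (σ.a 2) (σ.v i).toNat (σ.v 8))) 1) (σ.v i).toNat (σ.v v)) := rfl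
  have ha2 : σ2.a 2 = Function.update (σ.a 2) idx (σ.v 8) := by
    rw [hA, ← hi, Function.update_of_ne (by norm_num : (2 : ℕ) ≠ 1), Function.update_self]
  have ha1 : σ2.a 1 = Function.update (σ.a 1) idx val := by
    rw [hA, ← hi, ← hv, Function.update_self, Function.update_of_ne (by norm_num : (1 : ℕ) ≠ 2)]
  have ha : ∀ w, w ≠ 1 → w ≠ 2 → σ2.a w = σ.a w := fun w h1 h2 => by
    rw [hA, Function.update_of_ne h1, Function.update_of_ne h2]
  have hf : Fr {9, 39} {1, 2} σ σ2 :=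
    ⟨fun _ _ => rfl, fun w hw => ha w (fun h => hw (by simp [h])) (fun h => hw (by simp [h])),
      rfl, rfl⟩
  have hS2 : Stamps σ2 := by
    refine ⟨hS.1, fun j => ?_⟩
    rw [ha2, hv2]
    by_cases h : j = idx
    · rw [h, Function.update_self]
    · rw [Function.update_of_ne h]; exact hS.2 j
  have hR2 : SimR y σ2 ⟨k.pc, Function.update k.reg idx val, k.inp, k.out⟩ := by
    refine ⟨hR.pc, fun j => ?_, hR.ipl, hR.ocl, fun j hj => ?_⟩
    · show _ = Function.update k.reg idx val j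
      rw [ha2, ha1, hv2]
      by_cases h : j = idx
      · rw [h, Function.update_self, if_pos rfl, Function.update_self, Function.update_self]
      · rw [Function.update_of_ne h, Function.update_of_ne h, Function.update_of_ne h]
        exact hR.reg j
    · rw [ha 3 (by norm_num) (by norm_num)]; exact hR.outp j hj
  obtain ⟨τ, h1, h2, h3, h4⟩ := is_inc hR2 hS2
  refine ⟨τ, (is_cons (is_cons (is_put σ 2 i 8) (is_cons (is_put _ 1 i v) (is_nil _)))
    (is_cons h1 (is_nil _))).mono (by norm_num), hf.trans (h2.mono (fun x hx => hx) ?_), h3, h4⟩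
  intro x hx
  exact absurd hx (Set.notMem_empty x)

/-- the variables which one instruction may change -/
private def isS : Set ℕ := {v | v < 40 ∧ v ≠ 0 ∧ v ≠ 1 ∧ v ≠ 2 ∧ v ≠ 3 ∧ v ≠ 4 ∧ v ≠ 5 ∧ v ≠ 8}

private theorem is_sub1 : ({9, 39} : Set ℕ) ⊆ isS := by
  intro x hx
  simp only [Set.mem_insert_iff, Set.mem_singleton_iff] at hx
  rcases hx with rfl | rfl <;> simp [isS]

private theorem is_sub2 : ({38, 39, 16} : Set ℕ) ⊆ isS := by
  intro x hx
  simp only [Set.mem_insert_iff, Set.mem_singleton_iff] at hx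
  rcases hx with rfl | rfl | rfl <;> simp [isS]

private theorem is_sub3 : ({38, 39, 17} : Set ℕ) ⊆ isS := by
  intro x hx
  simp only [Set.mem_insert_iff, Set.mem_singleton_iff] at hx
  rcases hx with rfl | rfl | rfl <;> simp [isS]

private theorem is_sub16 : ({16} : Set ℕ) ⊆ isS := by
  intro x hx
  rw [Set.mem_singleton_iff] at hx
  rw [hx]; simp [isS]

private theorem is_sub17 : ({17} : Set ℕ) ⊆ isS := by
  intro x hx
  rw [Set.mem_singleton_iff] at hx
  rw [hx]; simp [isS]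

private theorem is_subA : ({1, 2} : Set ℕ) ⊆ iA := by
  intro x hx
  simp only [Set.mem_insert_iff, Set.mem_singleton_iff] at hx
  rcases hx with rfl | rfl <;> simp [iA]

/-- the conclusion for one instruction -/
private def isGood (y : List Bool) (s : Stmt) (σ : St) (k : Cfg) : Prop :=
  ∃ τ, Reach s σ 30 τ ∧ Fr isS iA σ τ ∧ Stamps τ ∧ SimR y τ k

/-- precede by a statement that changes only scratch variables -/
private theorem is_pre {y : List Bool} {s : Stmt} {l : List Stmt} {σ ρ : St} {k k' : Cfg}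
    {V : Set ℕ} {C D : ℕ} (h : Reach s σ C ρ) (hf : Fr V ∅ σ ρ) (hV : V ⊆ isS)
    (h' : ∃ τ, Reach (blk l) ρ D τ ∧ Fr isS iA ρ τ ∧ Stamps τ ∧ SimR y τ k') (hk : k' = k) :
    ∃ τ, Reach (blk (s :: l)) σ (C + D) τ ∧ Fr isS iA σ τ ∧ Stamps τ ∧ SimR y τ k := by
  obtain ⟨τ, h1, h2, h3, h4⟩ := h'
  subst hk
  exact ⟨τ, is_cons h h1, (hf.mono hV (Set.empty_subset _)).trans h2, h3, h4⟩

private theorem is_wr' {y : List Bool} {σ : St} {k : Cfg} (hR : SimR y σ k) (hS : Stamps σ)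
    (i v idx : ℕ) (val : ℤ) (hi : (σ.v i).toNat = idx) (hv : σ.v v = val) :
    ∃ τ, Reach (blk [wrreg i v, incpc]) σ 4 τ ∧ Fr isS iA σ τ ∧ Stamps τ ∧
      SimR y τ ⟨k.pc + 1, Function.update k.reg idx val, k.inp, k.out⟩ := by
  obtain ⟨τ, h1, h2, h3, h4⟩ := is_wr hR hS i v idx val hi hv
  exact ⟨τ, h1, h2.mono is_sub1 is_subA, h3, h4⟩

private theorem is_inc' {y : List Bool} {σ : St} {k : Cfg} (hR : SimR y σ k) (hS : Stamps σ) :
    ∃ τ, Reach incpc σ 2 τ ∧ Fr isS iA σ τ ∧ Stamps τ ∧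
      SimR y τ ⟨k.pc + 1, k.reg, k.inp, k.out⟩ := by
  obtain ⟨τ, h1, h2, h3, h4⟩ := is_inc hR hS
  exact ⟨τ, h1, h2.mono is_sub1 (Set.empty_subset _), h3, h4⟩

/-- scratch changes keep the simulation -/
private theorem is_keep {y : List Bool} {σ ρ : St} {k : Cfg} {V : Set ℕ} (hR : SimR y σ k)
    (hS : Stamps σ) (hf : Fr V ∅ σ ρ) (h7 : 7 ∉ V) (h8 : 8 ∉ V) (h9 : 9 ∉ V) (h10 : 10 ∉ V) :
    SimR y ρ k ∧ Stamps ρ :=
  ⟨is_sim hR hf h7 h8 h9 h10 (Set.notMem_empty _) (Set.notMem_empty _) (Set.notMem_empty _),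
    is_stamps hS hf h8 (Set.notMem_empty _)⟩

/-- read the register with number in variable `i` into `16` -/
private theorem is_rd16 {y : List Bool} {σ : St} {k : Cfg} (hR : SimR y σ k) (hS : Stamps σ)
    {i idx : ℕ} (hi : i ≠ 38) (hi' : i ≠ 39) (h : (σ.v i).toNat = idx) :
    ∃ τ, Reach (rdreg 16 i) σ 6 τ ∧ τ.v 16 = k.reg idx ∧ Fr {38, 39, 16} ∅ σ τ ∧ SimR y τ k ∧
      Stamps τ := by
  obtain ⟨τ, h1, h2, h3⟩ := is_rd (v := 16) (i := i) hi hi' hS
  obtain ⟨h4, h5⟩ := is_keep hR hS h3 (by simp) (by simp) (by simp) (by simp)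
  refine ⟨τ, h1, ?_, h3, h4, h5⟩
  rw [h2, h]
  exact hR.reg idx

private theorem is_rd17 {y : List Bool} {σ : St} {k : Cfg} (hR : SimR y σ k) (hS : Stamps σ)
    {i idx : ℕ} (hi : i ≠ 38) (hi' : i ≠ 39) (h : (σ.v i).toNat = idx) :
    ∃ τ, Reach (rdreg 17 i) σ 6 τ ∧ τ.v 17 = k.reg idx ∧ Fr {38, 39, 17} ∅ σ τ ∧ SimR y τ k ∧
      Stamps τ := by
  obtain ⟨τ, h1, h2, h3⟩ := is_rd (v := 17) (i := i) hi hi' hS
  obtain ⟨h4, h5⟩ := is_keep hR hS h3 (by simp) (by simp) (by simp) (by simp)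
  refine ⟨τ, h1, ?_, h3, h4, h5⟩
  rw [h2, h]
  exact hR.reg idx

private theorem is_op0 {y : List Bool} {σ : St} {k : Cfg} (hR : SimR y σ k) (hS : Stamps σ)
    {i c : ℕ} (h13 : σ.v 13 = i) (h14 : σ.v 14 = c) :
    isGood y (opc 0) σ ⟨k.pc + 1, Function.update k.reg i c, k.inp, k.out⟩ := by
  obtain ⟨τ, h1, h2⟩ := is_wr' hR hS 13 14 i c (by rw [h13]; simp) h14
  exact ⟨τ, h1.mono (by norm_num), h2⟩

private theorem is_op1 {y : List Bool} {σ : St} {k : Cfg} (hR : SimR y σ k) (hS : Stamps σ)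
    {i c : ℕ} (h13 : σ.v 13 = i) (h14 : σ.v 14 = c) :
    isGood y (opc 1) σ ⟨k.pc + 1, Function.update k.reg i (-(c : ℤ)), k.inp, k.out⟩ := by
  obtain ⟨hR1, hS1⟩ := is_keep hR hS (is_fr_sv σ 16 0) (by simp) (by simp) (by simp) (by simp)
  obtain ⟨hR2, hS2⟩ := is_keep hR1 hS1 (is_fr_sv _ 16 ((σ.sv 16 0).v 16 - (σ.sv 16 0).v 14))
    (by simp) (by simp) (by simp) (by simp)
  have h3 := is_wr' hR2 hS2 13 16 i (-(c : ℤ))
    (by rw [is_sv_ne _ (by norm_num), is_sv_ne _ (by norm_num), h13]; simp)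
    (by rw [is_sv_same, is_sv_same, is_sv_ne _ (by norm_num), h14]; ring)
  obtain ⟨τ, h4, h5⟩ := is_pre (is_const σ 16 0) (is_fr_sv σ 16 0) is_sub16
    (is_pre (is_sub _ 16 16 14) (is_fr_sv _ 16 _) is_sub16 h3 rfl) rfl
  exact ⟨τ, h4.mono (by norm_num), h5⟩

private theorem is_op2 {y : List Bool} {σ : St} {k : Cfg} (hR : SimR y σ k) (hS : Stamps σ)
    {i j l : ℕ} (h13 : σ.v 13 = i) (h14 : σ.v 14 = j) (h15 : σ.v 15 = l) :
    isGood y (opc 2) σ ⟨k.pc + 1, Function.update k.reg i (k.reg j + k.reg l), k.inp, k.out⟩ := by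
  obtain ⟨σ1, h1, h2, h3, hR1, hS1⟩ := is_rd16 hR hS (i := 14) (idx := j) (by norm_num)
    (by norm_num) (by rw [h14]; simp)
  obtain ⟨σ2, h4, h5, h6, hR2, hS2⟩ := is_rd17 hR1 hS1 (i := 15) (idx := l) (by norm_num)
    (by norm_num) (by rw [h3.v 15 (by simp), h15]; simp)
  obtain ⟨hR3, hS3⟩ := is_keep hR2 hS2 (is_fr_sv σ2 16 (σ2.v 16 + σ2.v 17)) (by simp) (by simp)
    (by simp) (by simp)
  have h7 := is_wr' hR3 hS3 13 16 i (k.reg j + k.reg l)
    (by rw [is_sv_ne _ (by norm_num), h6.v 13 (by simp), h3.v 13 (by simp), h13]; simp)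
    (by rw [is_sv_same, h6.v 16 (by simp), h2, h5])
  obtain ⟨τ, h8, h9⟩ := is_pre h1 h3 is_sub2 (is_pre h4 h6 is_sub3
    (is_pre (is_add σ2 16 16 17) (is_fr_sv σ2 16 _) is_sub16 h7 rfl) rfl) rfl
  exact ⟨τ, h8.mono (by norm_num), h9⟩

private theorem is_op3 {y : List Bool} {σ : St} {k : Cfg} (hR : SimR y σ k) (hS : Stamps σ)
    {i j l : ℕ} (h13 : σ.v 13 = i) (h14 : σ.v 14 = j) (h15 : σ.v 15 = l) :
    isGood y (opc 3) σ ⟨k.pc + 1, Function.update k.reg i (k.reg j - k.reg l), k.inp, k.out⟩ := by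
  obtain ⟨σ1, h1, h2, h3, hR1, hS1⟩ := is_rd16 hR hS (i := 14) (idx := j) (by norm_num)
    (by norm_num) (by rw [h14]; simp)
  obtain ⟨σ2, h4, h5, h6, hR2, hS2⟩ := is_rd17 hR1 hS1 (i := 15) (idx := l) (by norm_num)
    (by norm_num) (by rw [h3.v 15 (by simp), h15]; simp)
  obtain ⟨hR3, hS3⟩ := is_keep hR2 hS2 (is_fr_sv σ2 16 (σ2.v 16 - σ2.v 17)) (by simp) (by simp)
    (by simp) (by simp)
  have h7 := is_wr' hR3 hS3 13 16 i (k.reg j - k.reg l)
    (by rw [is_sv_ne _ (by norm_num), h6.v 13 (by simp), h3.v 13 (by simp), h13]; simp)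
    (by rw [is_sv_same, h6.v 16 (by simp), h2, h5])
  obtain ⟨τ, h8, h9⟩ := is_pre h1 h3 is_sub2 (is_pre h4 h6 is_sub3
    (is_pre (is_sub σ2 16 16 17) (is_fr_sv σ2 16 _) is_sub16 h7 rfl) rfl) rfl
  exact ⟨τ, h8.mono (by norm_num), h9⟩

private theorem is_op4 {y : List Bool} {σ : St} {k : Cfg} (hR : SimR y σ k) (hS : Stamps σ)
    {i j : ℕ} (h13 : σ.v 13 = i) (h14 : σ.v 14 = j) :
    isGood y (opc 4) σ
      ⟨k.pc + 1, Function.update k.reg i (k.reg (k.reg j).toNat), k.inp, k.out⟩ := by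
  obtain ⟨σ1, h1, h2, h3, hR1, hS1⟩ := is_rd16 hR hS (i := 14) (idx := j) (by norm_num)
    (by norm_num) (by rw [h14]; simp)
  obtain ⟨σ2, h4, h5, h6, hR2, hS2⟩ := is_rd17 hR1 hS1 (i := 16) (idx := (k.reg j).toNat)
    (by norm_num) (by norm_num) (by rw [h2])
  have h7 := is_wr' hR2 hS2 13 17 i (k.reg (k.reg j).toNat)
    (by rw [h6.v 13 (by simp), h3.v 13 (by simp), h13]; simp) h5
  obtain ⟨τ, h8, h9⟩ := is_pre h1 h3 is_sub2 (is_pre h4 h6 is_sub3 h7 rfl) rfl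
  exact ⟨τ, h8.mono (by norm_num), h9⟩

private theorem is_op5 {y : List Bool} {σ : St} {k : Cfg} (hR : SimR y σ k) (hS : Stamps σ)
    {i j : ℕ} (h13 : σ.v 13 = i) (h14 : σ.v 14 = j) :
    isGood y (opc 5) σ
      ⟨k.pc + 1, Function.update k.reg (k.reg i).toNat (k.reg j), k.inp, k.out⟩ := by
  obtain ⟨σ1, h1, h2, h3, hR1, hS1⟩ := is_rd16 hR hS (i := 13) (idx := i) (by norm_num)
    (by norm_num) (by rw [h13]; simp)
  obtain ⟨σ2, h4, h5, h6, hR2, hS2⟩ := is_rd17 hR1 hS1 (i := 14) (idx := j)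
    (by norm_num) (by norm_num) (by rw [h3.v 14 (by simp), h14]; simp)
  have h7 := is_wr' hR2 hS2 16 17 (k.reg i).toNat (k.reg j)
    (by rw [h6.v 16 (by simp), h2]) h5
  obtain ⟨τ, h8, h9⟩ := is_pre h1 h3 is_sub2 (is_pre h4 h6 is_sub3 h7 rfl) rfl
  exact ⟨τ, h8.mono (by norm_num), h9⟩

private theorem is_op6 {y : List Bool} {σ : St} {k : Cfg} (hR : SimR y σ k) (hS : Stamps σ)
    {j m : ℕ} (h13 : σ.v 13 = j) (h14 : σ.v 14 = m) :
    isGood y (opc 6) σ ⟨if 0 < k.reg j then m else k.pc + 1, k.reg, k.inp, k.out⟩ := by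
  obtain ⟨σ1, h1, h2, h3, hR1, hS1⟩ := is_rd16 hR hS (i := 13) (idx := j) (by norm_num)
    (by norm_num) (by rw [h13]; simp)
  by_cases hc : 0 < k.reg j
  · rw [if_pos hc]
    set τ := σ1.sv 9 (σ1.v 14) with et
    have hv : ∀ w, w ≠ 9 → τ.v w = σ1.v w := fun w h => by rw [et, is_sv_ne _ h]
    have ha : τ.a = σ1.a := rfl
    have h9 : τ.v 9 = m := by rw [et, is_sv_same, h3.v 14 (by simp), h14]
    refine ⟨τ, (is_cons h1 (is_cons (Reach.ite_pos (by rw [h2]; exact hc) (is_mov σ1 9 14))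
      (is_nil _))).mono (by norm_num), ?_, ⟨?_, fun i => ?_⟩,
      ⟨h9, fun i => ?_, ?_, ?_, fun i hi => ?_⟩⟩
    · refine (h3.mono is_sub2 (Set.empty_subset _)).trans
        ((is_fr_sv σ1 9 _).mono ?_ (Set.empty_subset _))
      intro x hx
      rw [Set.mem_singleton_iff] at hx
      rw [hx]; simp [isS]
    · rw [hv 8 (by norm_num)]; exact hS1.1
    · rw [hv 8 (by norm_num), ha]; exact hS1.2 i
    · rw [hv 8 (by norm_num), ha]; exact hR1.reg i
    · rw [hv 10 (by norm_num)]; exact hR1.ipl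
    · rw [hv 7 (by norm_num)]; exact hR1.ocl
    · rw [ha]; exact hR1.outp i hi
  · rw [if_neg hc]
    obtain ⟨τ, h4, h5, h6, h7⟩ := is_inc' hR1 hS1
    refine ⟨τ, (is_cons h1 (is_cons (Reach.ite_neg (by rw [h2]; exact hc) h4)
      (is_nil _))).mono (by norm_num), (h3.mono is_sub2 (Set.empty_subset _)).trans h5, h6, h7⟩

private theorem is_op8 {y : List Bool} {σ : St} {k : Cfg} (hR : SimR y σ k) (hS : Stamps σ)
    {i : ℕ} (h13 : σ.v 13 = i) :
    isGood y (opc 8) σ ⟨k.pc + 1, k.reg, k.inp, k.out ++ [k.reg i]⟩ := by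
  obtain ⟨σ1, h1, h2, h3, hR1, hS1⟩ := is_rd16 hR hS (i := 13) (idx := i) (by norm_num)
    (by norm_num) (by rw [h13]; simp)
  set σ2 := σ1.sa 3 (σ1.v 7).toNat (σ1.v 16) with e2
  set σ3 := σ2.sv 39 1 with e3
  set σ4 := σ3.sv 7 (σ3.v 7 + σ3.v 39) with e4
  have hv : ∀ w, w ≠ 7 → w ≠ 39 → σ4.v w = σ1.v w := fun w h h' => by
    rw [e4, is_sv_ne _ h, e3, is_sv_ne _ h']
    rfl
  have h7 : σ4.v 7 = σ1.v 7 + 1 := by
    rw [e4, is_sv_same, e3, is_sv_same, is_sv_ne _ (by norm_num)]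
    rfl
  have ha3 : σ4.a 3 = Function.update (σ1.a 3) (σ1.v 7).toNat (σ1.v 16) := by
    show Function.update σ1.a 3 (Function.update (σ1.a 3) (σ1.v 7).toNat (σ1.v 16)) 3 = _
    rw [Function.update_self]
  have ha : ∀ w, w ≠ 3 → σ4.a w = σ1.a w := fun w h => by
    show Function.update σ1.a 3 (Function.update (σ1.a 3) (σ1.v 7).toNat (σ1.v 16)) w = _
    rw [Function.update_of_ne h]
  have hS4 : Stamps σ4 := by
    refine ⟨?_, fun j => ?_⟩
    · rw [hv 8 (by norm_num) (by norm_num)]; exact hS1.1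
    · rw [hv 8 (by norm_num) (by norm_num), ha 2 (by norm_num)]; exact hS1.2 j
  have hidx : (σ1.v 7).toNat = k.out.length := by rw [hR1.ocl]; simp
  have hR4 : SimR y σ4 ⟨k.pc, k.reg, k.inp, k.out ++ [k.reg i]⟩ := by
    refine ⟨?_, fun j => ?_, ?_, ?_, fun j hj => ?_⟩
    · rw [hv 9 (by norm_num) (by norm_num)]; exact hR1.pc
    · rw [hv 8 (by norm_num) (by norm_num), ha 2 (by norm_num), ha 1 (by norm_num)]
      exact hR1.reg j
    · rw [hv 10 (by norm_num) (by norm_num)]; exact hR1.ipl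
    · rw [h7, hR1.ocl]; simp
    · rw [ha3, hidx]
      simp only [List.length_append, List.length_cons, List.length_nil] at hj
      by_cases h : j = k.out.length
      · subst h
        rw [Function.update_self, h2]
        simp
      · rw [Function.update_of_ne h]
        have hj' : j < k.out.length := by omega
        rw [hR1.outp j hj']
        simp only
        rw [List.getElem_append_left hj']
  obtain ⟨τ, h4, h5, h6, h8⟩ := is_inc' hR4 hS4
  have hf : Fr isS iA σ1 σ4 := by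
    refine ⟨fun w hw => hv w (fun h => hw (by rw [h]; simp [isS])) (fun h => hw (by rw [h]; simp [isS])),
      fun w hw => ha w (fun h => hw (by rw [h]; simp [iA])), rfl, rfl⟩
  exact ⟨τ, (is_cons h1 (is_cons (is_put σ1 3 7 16) (is_cons (is_const σ2 39 1)
    (is_cons (is_add σ3 7 7 39) (is_cons h4 (is_nil _)))))).mono (by norm_num),
    ((h3.mono is_sub2 (Set.empty_subset _)).trans hf).trans h5, h6, h8⟩

private theorem is_op7 {y : List Bool} {σ : St} {k : Cfg} (hR : SimR y σ k) (hS : Stamps σ)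
    (hI : InpAt σ y) {i : ℕ} (h13 : σ.v 13 = i) :
    isGood y (opc 7) σ ⟨k.pc + 1, Function.update k.reg i (sym k.inp), k.inp.tail, k.out⟩ := by
  obtain ⟨ip, hip, hle, hinp⟩ := hR.ipl
  set σ1 := σ.sv 17 (σ.v 5 - σ.v 10) with e1
  have h17 : σ1.v 17 = (y.length : ℤ) - ip := by rw [e1, is_sv_same, hI.1, hip]
  obtain ⟨hR1, hS1⟩ := is_keep hR hS (is_fr_sv σ 17 (σ.v 5 - σ.v 10)) (by simp) (by simp)
    (by simp) (by simp)
  by_cases hc : ip < y.length
  · have hpos : 0 < σ1.v 17 := by rw [h17]; omega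
    have hdrop : k.inp = y[ip] :: y.drop (ip + 1) := by
      rw [hinp, List.drop_eq_getElem_cons hc]
    have hsym : sym k.inp = if y[ip] then 1 else 0 := by
      rw [hdrop]
      cases y[ip] <;> rfl
    have htail : k.inp.tail = y.drop (ip + 1) := by rw [hdrop]; rfl
    obtain ⟨σ2, hr2, hf2, h16⟩ : ∃ σ2, Reach (.ite 4 (.const 16 0) (.get 16 0 10)) σ1 2 σ2 ∧
        Fr {16} ∅ σ1 σ2 ∧ σ2.v 16 = sym k.inp := by
      rcases hI.2 with ⟨h4, hy⟩ | ⟨h4, hy⟩
      · refine ⟨σ1.sv 16 0, (Reach.ite_pos ?_ (is_const σ1 16 0)).mono (by norm_num),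
          is_fr_sv _ _ _, ?_⟩
        · rw [e1, is_sv_ne _ (by norm_num)]; exact h4
        · rw [is_sv_same, hsym]
          have : y[ip] = false := by
            have h0 : ∀ b ∈ y, b = false := by
              rw [hy]
              intro b hb
              exact List.eq_of_mem_replicate hb
            exact h0 _ (List.getElem_mem hc)
          rw [this]; simp
      · refine ⟨σ1.sv 16 (σ1.a 0 (σ1.v 10).toNat), (Reach.ite_neg ?_ (is_get σ1 16 0 10)).mono
          (by norm_num), is_fr_sv _ _ _, ?_⟩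
        · rw [e1, is_sv_ne _ (by norm_num)]; exact h4
        · rw [is_sv_same, hsym, ← hy ip hc]
          have : (σ1.v 10).toNat = ip := by
            rw [e1, is_sv_ne _ (by norm_num), hip]; simp
          rw [this]
          rfl
    set σ3 := σ2.sv 39 1 with e3
    set σ4 := σ3.sv 10 (σ3.v 10 + σ3.v 39) with e4
    have hv : ∀ w, w ≠ 10 → w ≠ 39 → σ4.v w = σ2.v w := fun w h h' => by
      rw [e4, is_sv_ne _ h, e3, is_sv_ne _ h']
    have h10 : σ4.v 10 = ((ip + 1 : ℕ) : ℤ) := by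
      rw [e4, is_sv_same, e3, is_sv_same, is_sv_ne _ (by norm_num), hf2.v 10 (by simp), e1,
        is_sv_ne _ (by norm_num), hip]
      push_cast; rfl
    have ha : σ4.a = σ2.a := rfl
    obtain ⟨hR2, hS2⟩ := is_keep hR1 hS1 hf2 (by simp) (by simp) (by simp) (by simp)
    have hS4 : Stamps σ4 := by
      refine ⟨?_, fun j => ?_⟩
      · rw [hv 8 (by norm_num) (by norm_num)]; exact hS2.1
      · rw [hv 8 (by norm_num) (by norm_num), ha]; exact hS2.2 j
    have hR4 : SimR y σ4 ⟨k.pc, k.reg, k.inp.tail, k.out⟩ := by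
      refine ⟨?_, fun j => ?_, ⟨ip + 1, h10, hc, htail⟩, ?_, fun j hj => ?_⟩
      · rw [hv 9 (by norm_num) (by norm_num)]; exact hR2.pc
      · rw [hv 8 (by norm_num) (by norm_num), ha]; exact hR2.reg j
      · rw [hv 7 (by norm_num) (by norm_num)]; exact hR2.ocl
      · rw [ha]; exact hR2.outp j hj
    obtain ⟨τ, h4, h5, h6, h8⟩ := is_wr' hR4 hS4 13 16 i (sym k.inp)
      (by rw [hv 13 (by norm_num) (by norm_num), hf2.v 13 (by simp), e1,
        is_sv_ne _ (by norm_num), h13]; simp)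
      (by rw [hv 16 (by norm_num) (by norm_num), h16])
    have hf4 : Fr isS iA σ2 σ4 :=
      ⟨fun w hw => hv w (fun h => hw (by rw [h]; simp [isS])) (fun h => hw (by rw [h]; simp [isS])),
        fun _ _ => rfl, rfl, rfl⟩
    exact ⟨τ, (is_cons (is_sub σ 17 5 10) (is_cons (Reach.ite_pos hpos (is_cons hr2
      (is_cons (is_const σ2 39 1) (is_cons (is_add σ3 10 10 39) (is_nil _))))) h4)).mono
        (by norm_num),
      ((((is_fr_sv σ 17 _).mono is_sub17 (Set.empty_subset _)).trans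
        (hf2.mono is_sub16 (Set.empty_subset _))).trans hf4).trans h5, h6, h8⟩
  · have hneg : ¬ 0 < σ1.v 17 := by rw [h17]; omega
    have hnil : k.inp = [] := by
      rw [hinp, List.drop_eq_nil_iff]; omega
    obtain ⟨hR2, hS2⟩ := is_keep hR1 hS1 (is_fr_sv σ1 16 2) (by simp) (by simp)
      (by simp) (by simp)
    obtain ⟨τ, h4, h5, h6, h8⟩ := is_wr' hR2 hS2 13 16 i (sym k.inp)
      (by rw [is_sv_ne _ (by norm_num), e1, is_sv_ne _ (by norm_num), h13]; simp)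
      (by rw [is_sv_same, hnil]; rfl)
    refine ⟨τ, (is_cons (is_sub σ 17 5 10) (is_cons (Reach.ite_neg hneg (is_const σ1 16 2))
      h4)).mono (by norm_num),
      (((is_fr_sv σ 17 _).mono is_sub17 (Set.empty_subset _)).trans
        ((is_fr_sv σ1 16 2).mono is_sub16 (Set.empty_subset _))).trans h5, h6, ?_⟩
    rw [hnil] at h8 ⊢
    exact h8

/-- the code of one instruction, as a function -/
private def ecf (a : Instr) (j : ℕ) : ℕ := (ec a).getD j 0

private theorem is_op (a : Instr) {y : List Bool} {σ : St} {k : Cfg} (hR : SimR y σ k)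
    (hS : Stamps σ) (hI : InpAt σ y) (h13 : σ.v 13 = (ecf a 1 : ℕ)) (h14 : σ.v 14 = (ecf a 2 : ℕ))
    (h15 : σ.v 15 = (ecf a 3 : ℕ)) : ecf a 0 ≤ 8 ∧ isGood y (opc (ecf a 0)) σ (a.exec k) := by
  cases a with
  | const i c =>
    by_cases hc : 0 ≤ c
    · have e : ∀ j, ecf (.const i c) j = [0, i, c.toNat, 0].getD j 0 := fun j => by
        rw [ecf, ec, if_pos hc]
      rw [e] at h13 h14 ⊢
      refine ⟨by norm_num, ?_⟩
      have h := is_op0 hR hS h13 h14
      rw [show ((([0, i, c.toNat, 0].getD 2 0 : ℕ)) : ℤ) = c from Int.toNat_of_nonneg hc] at h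
      exact h
    · have e : ∀ j, ecf (.const i c) j = [1, i, (-c).toNat, 0].getD j 0 := fun j => by
        rw [ecf, ec, if_neg hc]
      rw [e] at h13 h14 ⊢
      refine ⟨by norm_num, ?_⟩
      have h := is_op1 hR hS h13 h14
      rw [show ((([1, i, (-c).toNat, 0].getD 2 0 : ℕ)) : ℤ) = -c from
        Int.toNat_of_nonneg (by omega), neg_neg] at h
      exact h
  | add i j l => exact ⟨by norm_num [ecf, ec], is_op2 hR hS h13 h14 h15⟩
  | sub i j l => exact ⟨by norm_num [ecf, ec], is_op3 hR hS h13 h14 h15⟩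
  | load i j => exact ⟨by norm_num [ecf, ec], is_op4 hR hS h13 h14⟩
  | store i j => exact ⟨by norm_num [ecf, ec], is_op5 hR hS h13 h14⟩
  | jpos j m => exact ⟨by norm_num [ecf, ec], is_op6 hR hS h13 h14⟩
  | read i => exact ⟨by norm_num [ecf, ec], is_op7 hR hS hI h13⟩
  | print i => exact ⟨by norm_num [ecf, ec], is_op8 hR hS h13⟩

/-- the dispatcher finds the instruction -/
private theorem is_disp (op : ℕ) : ∀ (n : ℕ), op ≤ n → ∀ σ : St, σ.v 12 = op →
    ∃ σ', Fr {18} ∅ σ σ' ∧ ∀ C τ, Reach (opc op) σ' C τ →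
      Reach (dispatch n) σ (C + 3 * n) τ := by
  intro n
  induction n with
  | zero =>
    intro h σ _
    obtain rfl : op = 0 := by omega
    exact ⟨σ, Fr.refl _ _ _, fun C τ h => h⟩
  | succ n ih =>
    intro h σ hσ
    set σ1 := σ.sv 18 n with e1
    set σ2 := σ1.sv 18 (σ1.v 12 - σ1.v 18) with e2
    have h18 : σ2.v 18 = (op : ℤ) - n := by
      rw [e2, is_sv_same, e1, is_sv_same, is_sv_ne _ (by norm_num), hσ]
    have hf : Fr {18} ∅ σ σ2 := (is_fr_sv σ 18 _).trans (is_fr_sv σ1 18 _)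
    by_cases hc : op = n + 1
    · subst hc
      refine ⟨σ2, hf, fun C τ hr => ?_⟩
      refine (is_cons (is_const σ 18 n) (is_cons (is_sub σ1 18 12 18) (is_cons
        (Reach.ite_pos ?_ hr) (is_nil _)))).mono (by omega)
      show 0 < σ2.v 18
      rw [h18]; push_cast; omega
    · have h12 : σ2.v 12 = op := by rw [hf.v 12 (by simp), hσ]
      obtain ⟨σ', h1, h2⟩ := ih (by omega) σ2 h12
      refine ⟨σ', hf.trans h1, fun C τ hr => ?_⟩
      refine (is_cons (is_const σ 18 n) (is_cons (is_sub σ1 18 12 18) (is_cons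
        (Reach.ite_neg ?_ (h2 C τ hr)) (is_nil _)))).mono (by omega)
      show ¬ 0 < σ2.v 18
      rw [h18]; omega

/-- the code list -/
private theorem is_len (a : Instr) : (ec a).length = 4 := by
  cases a with
  | const i c =>
    simp only [ec]
    split_ifs <;> rfl
  | _ => rfl

private theorem is_code : ∀ (p : Prog) (n : ℕ) (h : n < p.length) (j : ℕ), j < 4 →
    4 * n + j < (ecs p).length ∧ (ecs p)[4 * n + j]? = some (ecf p[n] j) := by
  intro p
  induction p with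
  | nil => intro n h; exact absurd h (by simp)
  | cons a p ih =>
    intro n h j hj
    have e : ecs (a :: p) = ec a ++ ecs p := by simp [ecs]
    have hl : (ecs (a :: p)).length = 4 + (ecs p).length := by
      rw [e, List.length_append, is_len]
    cases n with
    | zero =>
      refine ⟨by rw [hl]; omega, ?_⟩
      rw [e, List.getElem?_append_left (by rw [is_len]; omega)]
      simp only [Nat.mul_zero, Nat.zero_add, List.getElem_cons_zero]
      rw [ecf, List.getD_eq_getElem?_getD, List.getElem?_eq_getElem (by rw [is_len]; omega)]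
      rfl
    | succ n =>
      simp only [List.length_cons] at h
      obtain ⟨h1, h2⟩ := ih n (by omega) j hj
      refine ⟨by rw [hl]; omega, ?_⟩
      rw [e, List.getElem?_append_right (by rw [is_len]; omega), is_len,
        show 4 * (n + 1) + j - 4 = 4 * n + j by omega, h2]
      simp

/-- fetching -/
private theorem is_fetch {ca cb : ℕ} (hca : 4 ≤ ca) {p : Prog} {σ : St} {pc : ℕ} (h1 : σ.v 1 = cb)
    (h9 : σ.v 9 = pc) (hpc : pc < p.length) (hst : StoredAt σ ca cb (ecs p)) :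
    ∃ τ, Reach (fetch ca) σ 11 τ ∧ Fr {11, 12, 13, 14, 15, 39} ∅ σ τ ∧
      τ.v 12 = (ecf p[pc] 0 : ℕ) ∧ τ.v 13 = (ecf p[pc] 1 : ℕ) ∧ τ.v 14 = (ecf p[pc] 2 : ℕ) ∧
      τ.v 15 = (ecf p[pc] 3 : ℕ) := by
  have hg : ∀ j, j < 4 → σ.a ca (cb + (4 * pc + j)) = (ecf p[pc] j : ℕ) := by
    intro j hj
    obtain ⟨h, h'⟩ := is_code p pc hpc j hj
    rw [hst _ h]
    rw [List.getElem?_eq_getElem h, Option.some_inj] at h'
    rw [h']
  set σ1 := σ.sv 39 1 with e1
  set σ2 := σ1.sv 11 (σ1.v 9 + σ1.v 9) with e2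
  set σ3 := σ2.sv 11 (σ2.v 11 + σ2.v 11) with e3
  set σ4 := σ3.sv 11 (σ3.v 11 + σ3.v 1) with e4
  set σ5 := σ4.sv 12 (σ4.a ca (σ4.v 11).toNat) with e5
  set σ6 := σ5.sv 11 (σ5.v 11 + σ5.v 39) with e6
  set σ7 := σ6.sv 13 (σ6.a ca (σ6.v 11).toNat) with e7
  set σ8 := σ7.sv 11 (σ7.v 11 + σ7.v 39) with e8
  set σ9 := σ8.sv 14 (σ8.a ca (σ8.v 11).toNat) with e9
  set σa := σ9.sv 11 (σ9.v 11 + σ9.v 39) with ea
  set σb := σa.sv 15 (σa.a ca (σa.v 11).toNat) with eb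
  have k1 : σ1.v 9 = pc := by rw [e1, is_sv_ne _ (by norm_num), h9]
  have k1' : σ1.v 1 = cb := by rw [e1, is_sv_ne _ (by norm_num), h1]
  have k2 : σ2.v 11 = (pc : ℤ) + pc := by rw [e2, is_sv_same, k1]
  have k2' : σ2.v 1 = cb := by rw [e2, is_sv_ne _ (by norm_num), k1']
  have k3 : σ3.v 11 = (pc : ℤ) + pc + (pc + pc) := by rw [e3, is_sv_same, k2]
  have k3' : σ3.v 1 = cb := by rw [e3, is_sv_ne _ (by norm_num), k2']
  have k4 : σ4.v 11 = ((cb + (4 * pc + 0) : ℕ) : ℤ) := by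
    rw [e4, is_sv_same, k3, k3']
    push_cast; ring
  have k39 : σ4.v 39 = 1 := by
    rw [e4, is_sv_ne _ (by norm_num), e3, is_sv_ne _ (by norm_num), e2, is_sv_ne _ (by norm_num),
      e1, is_sv_same]
  have m5 : σ5.v 11 = σ4.v 11 := by rw [e5, is_sv_ne _ (by norm_num)]
  have m5' : σ5.v 39 = 1 := by rw [e5, is_sv_ne _ (by norm_num), k39]
  have k6 : σ6.v 11 = ((cb + (4 * pc + 1) : ℕ) : ℤ) := by
    rw [e6, is_sv_same, m5, m5', k4]; push_cast; ring
  have m7 : σ7.v 11 = σ6.v 11 := by rw [e7, is_sv_ne _ (by norm_num)]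
  have m7' : σ7.v 39 = 1 := by
    rw [e7, is_sv_ne _ (by norm_num), e6, is_sv_ne _ (by norm_num), m5']
  have k8 : σ8.v 11 = ((cb + (4 * pc + 2) : ℕ) : ℤ) := by
    rw [e8, is_sv_same, m7, m7', k6]; push_cast; ring
  have m9 : σ9.v 11 = σ8.v 11 := by rw [e9, is_sv_ne _ (by norm_num)]
  have m9' : σ9.v 39 = 1 := by
    rw [e9, is_sv_ne _ (by norm_num), e8, is_sv_ne _ (by norm_num), m7']
  have ka : σa.v 11 = ((cb + (4 * pc + 3) : ℕ) : ℤ) := by
    rw [ea, is_sv_same, m9, m9', k8]; push_cast; ring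
  refine ⟨σb, (is_cons (is_const σ 39 1) (is_cons (is_add σ1 11 9 9) (is_cons (is_add σ2 11 11 11)
    (is_cons (is_add σ3 11 11 1) (is_cons (is_get σ4 12 ca 11) (is_cons (is_add σ5 11 11 39)
    (is_cons (is_get σ6 13 ca 11) (is_cons (is_add σ7 11 11 39) (is_cons (is_get σ8 14 ca 11)
    (is_cons (is_add σ9 11 11 39) (is_cons (is_get σa 15 ca 11) (is_nil _)))))))))))).mono
      (by norm_num), ?_, ?_, ?_, ?_, ?_⟩
  · refine ⟨fun w hw => ?_, fun _ _ => rfl, rfl, rfl⟩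
    have n1 : w ≠ 11 := fun h => hw (by simp [h])
    have n2 : w ≠ 12 := fun h => hw (by simp [h])
    have n3 : w ≠ 13 := fun h => hw (by simp [h])
    have n4 : w ≠ 14 := fun h => hw (by simp [h])
    have n5 : w ≠ 15 := fun h => hw (by simp [h])
    have n6 : w ≠ 39 := fun h => hw (by simp [h])
    rw [eb, is_sv_ne _ n5, ea, is_sv_ne _ n1, e9, is_sv_ne _ n4, e8, is_sv_ne _ n1, e7,
      is_sv_ne _ n3, e6, is_sv_ne _ n1, e5, is_sv_ne _ n2, e4, is_sv_ne _ n1, e3, is_sv_ne _ n1,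
      e2, is_sv_ne _ n1, e1, is_sv_ne _ n6]
  · rw [eb, is_sv_ne _ (by norm_num), ea, is_sv_ne _ (by norm_num), e9, is_sv_ne _ (by norm_num),
      e8, is_sv_ne _ (by norm_num), e7, is_sv_ne _ (by norm_num), e6, is_sv_ne _ (by norm_num),
      e5, is_sv_same, k4, Int.toNat_natCast]
    exact hg 0 (by norm_num)
  · rw [eb, is_sv_ne _ (by norm_num), ea, is_sv_ne _ (by norm_num), e9, is_sv_ne _ (by norm_num),
      e8, is_sv_ne _ (by norm_num), e7, is_sv_same, k6, Int.toNat_natCast]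
    exact hg 1 (by norm_num)
  · rw [eb, is_sv_ne _ (by norm_num), ea, is_sv_ne _ (by norm_num), e9, is_sv_same, k8,
      Int.toNat_natCast]
    exact hg 2 (by norm_num)
  · rw [eb, is_sv_same, ka, Int.toNat_natCast]
    exact hg 3 (by norm_num)

/-- the running flag -/
private theorem is_setrun (σ : St) : ∃ τ, Reach setrun σ 5 τ ∧ Fr {18, 19} ∅ σ τ ∧
    (0 < τ.v 19 ↔ 0 < σ.v 2 - σ.v 9 ∧ 0 < σ.v 3) := by
  set σ1 := σ.sv 19 0 with e1
  set σ2 := σ1.sv 18 (σ1.v 2 - σ1.v 9) with e2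
  have h18 : σ2.v 18 = σ.v 2 - σ.v 9 := by
    rw [e2, is_sv_same, e1, is_sv_ne _ (by norm_num), is_sv_ne _ (by norm_num)]
  have h3 : σ2.v 3 = σ.v 3 := by
    rw [e2, is_sv_ne _ (by norm_num), e1, is_sv_ne _ (by norm_num)]
  have h19 : σ2.v 19 = 0 := by
    rw [e2, is_sv_ne _ (by norm_num), e1, is_sv_same]
  have hf : Fr {18, 19} ∅ σ σ2 :=
    ((is_fr_sv σ 19 0).mono (by simp) (fun x hx => hx)).trans
      ((is_fr_sv σ1 18 _).mono (by simp) (fun x hx => hx))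
  by_cases hc : 0 < σ2.v 18
  · by_cases hd : 0 < σ2.v 3
    · refine ⟨σ2.sv 19 1, (is_cons (is_const σ 19 0) (is_cons (is_sub σ1 18 2 9) (is_cons
        (Reach.ite_pos hc (Reach.ite_pos hd (is_const σ2 19 1))) (is_nil _)))).mono (by norm_num),
        hf.trans ((is_fr_sv σ2 19 1).mono (by simp) (fun x hx => hx)), ?_⟩
      rw [is_sv_same, ← h18, ← h3]
      exact ⟨fun _ => ⟨hc, hd⟩, fun _ => by norm_num⟩
    · refine ⟨σ2, (is_cons (is_const σ 19 0) (is_cons (is_sub σ1 18 2 9) (is_cons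
        (Reach.ite_pos hc (Reach.ite_neg hd (Reach.skip σ2))) (is_nil _)))).mono (by norm_num),
        hf, ?_⟩
      rw [h19, ← h18, ← h3]
      exact ⟨fun h => absurd h (by norm_num), fun h => absurd h.2 hd⟩
  · refine ⟨σ2, (is_cons (is_const σ 19 0) (is_cons (is_sub σ1 18 2 9) (is_cons
      (Reach.ite_neg hc (Reach.skip σ2)) (is_nil _)))).mono (by norm_num),
      hf, ?_⟩
    rw [h19, ← h18, ← h3]
    exact ⟨fun h => absurd h (by norm_num), fun h => absurd h.1 hc⟩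

/-- One round of the interpreter simulates one step. (Case distinction on the instruction; compute
the final state of each straight-line block explicitly.) -/
theorem istep_spec : ∃ κ : ℕ, ∀ (ca : ℕ), 4 ≤ ca → ∀ (p : Prog) (y : List Bool) (B cb : ℕ)
    (σ : St) (k : Cfg), σ.v 1 = cb → σ.v 2 = p.length → σ.v 3 = (B + 1 : ℕ) →
    StoredAt σ ca cb (ecs p) → InpAt σ y → Stamps σ → k.pc < p.length → SimR y σ k →
    ∃ τ, Reach (istep ca) σ κ τ ∧ Fr iV iA σ τ ∧ Stamps τ ∧ τ.v 8 = σ.v 8 ∧ τ.v 3 = B ∧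
      SimR y τ (step p k) ∧
      (0 < τ.v 19 ↔ (step p k).pc < p.length ∧ 0 < B) := by
  refine ⟨100, ?_⟩
  intro ca hca p y B cb σ k h1 h2 h3 hst hI hS hpc hR
  obtain ⟨σ1, hr1, hf1, h12, h13, h14, h15⟩ := is_fetch hca h1 hR.pc hpc hst
  obtain ⟨hR1, hS1⟩ := is_keep hR hS hf1 (by simp) (by simp) (by simp) (by simp)
  have hstep : step p k = (p[k.pc]).exec k := by
    unfold step
    rw [List.getElem?_eq_getElem hpc]
  have hI1 : ∀ (τ : St) (V : Set ℕ), Fr V ∅ σ τ → 4 ∉ V → 5 ∉ V → InpAt τ y := by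
    intro τ V hf h4 h5
    refine ⟨by rw [hf.v 5 h5]; exact hI.1, ?_⟩
    rw [hf.v 4 h4, hf.a 0 (Set.notMem_empty _)]
    exact hI.2
  have hop := is_op p[k.pc] hR1 hS1 (hI1 σ1 _ hf1 (by simp) (by simp)) h13 h14 h15
  obtain ⟨σ', hf', hd⟩ := is_disp _ 8 hop.1 σ1 h12
  obtain ⟨hR2, hS2⟩ := is_keep hR1 hS1 hf' (by simp) (by simp) (by simp) (by simp)
  have hf12 : Fr {11, 12, 13, 14, 15, 39, 18} ∅ σ σ' := by
    refine (hf1.mono ?_ (fun x hx => hx)).trans (hf'.mono ?_ (fun x hx => hx))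
    · intro x hx
      simp only [Set.mem_insert_iff, Set.mem_singleton_iff] at hx ⊢
      tauto
    · intro x hx
      simp only [Set.mem_insert_iff, Set.mem_singleton_iff] at hx ⊢
      tauto
  obtain ⟨_, σ2, hr2, hf2, hS3, hR3⟩ := is_op p[k.pc] hR2 hS2 (hI1 σ' _ hf12 (by simp) (by simp))
    (by rw [hf'.v 13 (by simp), h13]) (by rw [hf'.v 14 (by simp), h14])
    (by rw [hf'.v 15 (by simp), h15])
  have hdd := hd 30 σ2 hr2
  rw [← hstep] at hR3
  set σ3 := σ2.sv 39 1 with e3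
  set σ4 := σ3.sv 3 (σ3.v 3 - σ3.v 39) with e4
  have hf24 : Fr {39, 3} ∅ σ2 σ4 :=
    ((is_fr_sv σ2 39 1).mono (by simp) (fun x hx => hx)).trans
      ((is_fr_sv σ3 3 _).mono (by simp) (fun x hx => hx))
  obtain ⟨hR4, hS4⟩ := is_keep hR3 hS3 hf24 (by simp) (by simp) (by simp) (by simp)
  obtain ⟨τ, hr5, hf5, h5⟩ := is_setrun σ4
  obtain ⟨hR5, hS5⟩ := is_keep hR4 hS4 hf5 (by simp) (by simp) (by simp) (by simp)
  have hv3 : σ2.v 3 = (B + 1 : ℕ) := by
    rw [hf2.v 3 (by simp [isS]), hf12.v 3 (by simp), h3]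
  have h43 : σ4.v 3 = B := by
    rw [e4, is_sv_same, e3, is_sv_same, is_sv_ne _ (by norm_num), hv3]
    push_cast; ring
  have h42 : σ4.v 2 = p.length := by
    rw [hf24.v 2 (by simp), hf2.v 2 (by simp [isS]), hf12.v 2 (by simp), h2]
  refine ⟨τ, (is_cons hr1 (is_cons hdd (is_cons (is_const σ2 39 1) (is_cons (is_sub σ3 3 3 39)
    (is_cons hr5 (is_nil _)))))).mono (by norm_num), ?_, hS5, ?_, ?_, hR5, ?_⟩
  · refine (((hf12.mono ?_ (Set.empty_subset _)).trans (hf2.mono ?_ (fun x hx => hx))).trans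
      (hf24.mono ?_ (Set.empty_subset _))).trans (hf5.mono ?_ (Set.empty_subset _))
    · intro x hx
      simp only [Set.mem_insert_iff, Set.mem_singleton_iff] at hx
      rcases hx with rfl | rfl | rfl | rfl | rfl | rfl | rfl <;> simp [iV]
    · intro x hx
      exact ⟨hx.1, hx.2.1, hx.2.2.1, hx.2.2.2.1, hx.2.2.2.2.2.1, hx.2.2.2.2.2.2.1⟩
    · intro x hx
      simp only [Set.mem_insert_iff, Set.mem_singleton_iff] at hx
      rcases hx with rfl | rfl <;> simp [iV]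
    · intro x hx
      simp only [Set.mem_insert_iff, Set.mem_singleton_iff] at hx
      rcases hx with rfl | rfl <;> simp [iV]
  · rw [hf5.v 8 (by simp), hf24.v 8 (by simp), hf2.v 8 (by simp [isS]), hf12.v 8 (by simp)]
  · rw [hf5.v 3 (by simp), h43]
  · rw [h5, h42, h43, hR4.pc]
    constructor
    · rintro ⟨ha, hb⟩
      exact ⟨by omega, by omega⟩
    · rintro ⟨ha, hb⟩
      exact ⟨by omega, by omega⟩

end Pool.Agent.H71.CT
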