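import Pool.Agent.H71.CT.SlowTab
import Pool.Agent.H71.CT.JJ
import Pool.Agent.H71.CT.EcsComp

/-! Joint realisation: the trivial family. -/

namespace Pool.Agent.H71.CT

open Filter

private theorem jb_halt {p : Prog} {c : Cfg} (h : Halted p c) (d : ℕ) : (step p)^[d] c = c := by
  have h1 : step p c = c := by
    unfold step
    rw [List.getElem?_eq_none h]
  exact Function.iterate_fixed h1 d

private theorem jb_hb {e : ℕ} {y : List Bool} {B B' : ℕ} (hBB : B ≤ B') (h : hb e y B = true) :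
    hb e y B' = true := by
  rw [hb_iff] at h ⊢
  obtain ⟨d, rfl⟩ := Nat.exists_eq_add_of_le hBB
  have h1 : conf (pr e) y (B + d) = conf (pr e) y B := by
    unfold conf
    rw [add_comm, Function.iterate_add_apply]
    exact jb_halt h d
  rw [h1]
  exact h

theorem stpK_mono (K0 : ℕ → ℕ) (e n s : ℕ) (h : stpK K0 e n s = true) :
    stpK K0 e n (s + 1) = true := by
  unfold stpK at h ⊢
  rw [Bool.or_eq_true, Bool.and_eq_true] at h ⊢
  rcases h with h | ⟨h1, h2⟩
  · exact Or.inl h
  · refine Or.inr ⟨?_, ?_⟩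
    · rw [decide_eq_true_eq] at h1 ⊢
      omega
    · exact jb_hb (Nat.pow_le_pow_right (by norm_num) (by omega)) h2

private theorem jb_pow2 : Primrec (fun n : ℕ => 2 ^ n) := by
  have h : Primrec (fun n : ℕ => (Nat.rec 1 (fun _ ih => ih + ih) n : ℕ)) :=
    Primrec.nat_rec₁ 1 ((Primrec.nat_add.comp Primrec.snd Primrec.snd).to₂)
  refine h.of_eq fun n => ?_
  induction n with
  | zero => rfl
  | succ n ih =>
    show (Nat.rec 1 (fun _ ih => ih + ih) n : ℕ) + (Nat.rec 1 (fun _ ih => ih + ih) n : ℕ) = _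
    rw [ih, pow_succ]
    ring

private theorem jb_repl : Primrec (fun n : ℕ => List.replicate n false) := by
  have h : Primrec (fun n : ℕ => (List.range n).map (fun _ => false)) :=
    Primrec.list_map Primrec.list_range (Primrec.const false).to₂
  refine h.of_eq fun n => ?_
  rw [List.map_const', List.length_range]

theorem computable_stpK (K0 : ℕ → ℕ) (h : Computable K0) :
    Computable (fun a : ℕ × ℕ × ℕ => stpK K0 a.1 a.2.1 a.2.2) := by
  have le2 : Computable₂ (fun a b : ℕ => decide (a ≤ b)) := Primrec.nat_le.decide.to_comp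
  have e : Computable (fun a : ℕ × ℕ × ℕ => a.1) := Computable.fst
  have n : Computable (fun a : ℕ × ℕ × ℕ => a.2.1) := Computable.fst.comp Computable.snd
  have s : Computable (fun a : ℕ × ℕ × ℕ => a.2.2) := Computable.snd.comp Computable.snd
  have e1 : Computable (fun a : ℕ × ℕ × ℕ => a.1 + 1) := Computable.succ.comp e
  have c1 : Computable (fun a : ℕ × ℕ × ℕ => decide (K0 a.2.1 ≤ a.1)) := le2.comp (h.comp n) e
  have c2 : Computable (fun a : ℕ × ℕ × ℕ => decide (a.1 + 1 ≤ a.2.2)) := le2.comp e1 s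
  have sub2 : Computable₂ (fun a b : ℕ => a - b) := Primrec.nat_sub.to_comp
  have or2 : Computable₂ (fun a b : Bool => a || b) := Primrec.or.to_comp
  have and2 : Computable₂ (fun a b : Bool => a && b) := Primrec.and.to_comp
  have c0 : Computable (fun a : ℕ × ℕ × ℕ => a.2.2 - (a.1 + 1)) := sub2.comp s e1
  obtain ⟨pw, hpw⟩ : ∃ pw : ℕ → ℕ, pw = fun n => 2 ^ n := ⟨_, rfl⟩
  have cpw : Computable pw := by
    rw [hpw]
    exact jb_pow2.to_comp
  have c3 : Computable (fun a : ℕ × ℕ × ℕ => pw (a.2.2 - (a.1 + 1))) := cpw.comp c0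
  have c4 : Computable (fun a : ℕ × ℕ × ℕ => List.replicate a.2.1 false) := jb_repl.to_comp.comp n
  obtain ⟨hq, hhq⟩ : ∃ hq : ℕ × List Bool × ℕ → Bool, hq = fun a => hb a.1 a.2.1 a.2.2 :=
    ⟨_, rfl⟩
  have chq : Computable hq := by
    rw [hhq]
    exact computable_hb
  have c5 : Computable (fun a : ℕ × ℕ × ℕ =>
      hq (a.1, (List.replicate a.2.1 false, pw (a.2.2 - (a.1 + 1))))) :=
    chq.comp (e.pair (c4.pair c3))
  have c6 : Computable (fun a : ℕ × ℕ × ℕ => decide (K0 a.2.1 ≤ a.1) ||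
      (decide (a.1 + 1 ≤ a.2.2) && hq (a.1, (List.replicate a.2.1 false,
        pw (a.2.2 - (a.1 + 1)))))) := or2.comp c1 (and2.comp c2 c5)
  refine c6.of_eq fun a => ?_
  rw [hhq, hpw]
  rfl

/-- the table of the first `k` programs -/
private def jbL (k : ℕ) : List Entry := (List.range k).map (fun e => (true, pr e))

private theorem jbL_length (k : ℕ) : (jbL k).length = k := by
  simp [jbL]

private theorem jb_u : Computable (fun k => encE (jbL k)) := by
  have hlen : Computable (fun e : ℕ => (pr e).length) := by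
    have h : Primrec (fun e : ℕ => (Denumerable.ofNat (List (ℕ × ℕ × ℕ × ℕ)) e).length) :=
      Primrec.list_length.comp (Primrec.ofNat _)
    refine (h.to_comp).of_eq fun e => ?_
    simp [pr]
  have cons2 : Computable₂ (fun (a : ℕ) (l : List ℕ) => a :: l) := Primrec.list_cons.to_comp
  have hf : Computable (fun e : ℕ => 1 :: (pr e).length :: ecs (pr e)) :=
    cons2.comp (Computable.const 1) (cons2.comp hlen computable_ecs)
  have hrec : Computable (fun k : ℕ => (Nat.rec [] (fun y IH => IH ++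
      (1 :: (pr y).length :: ecs (pr y))) k : List ℕ)) := by
    have hh : Computable₂ (fun (_ : ℕ) (q : ℕ × List ℕ) => q.2 ++
        (1 :: (pr q.1).length :: ecs (pr q.1))) :=
      (Primrec.list_append.to_comp : Computable₂ _).comp
        (Computable.snd.comp Computable.snd) (hf.comp (Computable.fst.comp Computable.snd))
    exact Computable.nat_rec (f := fun k : ℕ => k) (g := fun _ : ℕ => ([] : List ℕ))
      (h := fun (_ : ℕ) (q : ℕ × List ℕ) => q.2 ++ (1 :: (pr q.1).length :: ecs (pr q.1)))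
      Computable.id (Computable.const []) hh
  refine (cons2.comp Computable.id hrec).of_eq fun k => ?_
  have hk : ∀ k : ℕ, (Nat.rec [] (fun y IH => IH ++ (1 :: (pr y).length :: ecs (pr y))) k :
      List ℕ) = (jbL k).flatMap (fun e => e.1.toNat :: e.2.length :: ecs e.2) := by
    intro k
    induction k with
    | zero => rfl
    | succ k ih =>
      show (Nat.rec [] (fun y IH => IH ++ (1 :: (pr y).length :: ecs (pr y))) k :
        List ℕ) ++ (1 :: (pr k).length :: ecs (pr k)) = _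
      rw [ih]
      unfold jbL
      rw [List.range_succ, List.map_append, List.flatMap_append]
      simp
  show k :: _ = encE (jbL k)
  unfold encE
  rw [jbL_length, hk]

private theorem jb_evt (k : ℕ) (x : List Bool) (j s : ℕ) (hj : j < k) :
    evt (jbL k) x j s = (decide (j + 1 ≤ s) &&
      hb j (List.replicate x.length false) (2 ^ (s - (j + 1)))) := by
  classical
  have h1 : (jbL k)[j]? = some (true, pr j) := by
    unfold jbL
    rw [List.getElem?_map, List.getElem?_range hj]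
    rfl
  unfold evt
  rw [h1]
  simp only [cfE, inpE, if_true, hb, Halted, Bool.decide_and]

private theorem jb_sv (σ : St) (v w : ℕ) (z : ℤ) : (σ.sv v z).v w = if w = v then z else σ.v w := by
  simp [St.sv, Function.update_apply]

private theorem jb_sa (σ : St) (a b i j : ℕ) (z : ℤ) :
    (σ.sa a i z).a b j = if b = a then (if j = i then z else σ.a a j) else σ.a b j := by
  by_cases h : b = a
  · subst h
    simp [St.sa, Function.update_apply]
  · simp [St.sa, h]

/-- the invariant of the loop that fills the arrays -/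
private structure JbI (σ : St) (c g S : ℕ) (β : ℕ → ℤ) (i : ℕ) (ρ : St) : Prop where
  v43 : ρ.v 43 = i
  v44 : ρ.v 44 = 1
  v45 : ρ.v 45 = (c : ℤ) - i
  v46 : ρ.v 46 = (g : ℤ) - i
  v101 : ρ.v 101 = S
  a20 : ∀ e < i, ρ.a 20 e = S
  a21 : ∀ e < i, ρ.a 21 e = if e < g then β e else 1
  a4 : ∀ e, ρ.a 4 e = β e
  vo : ∀ v, v ≠ 43 → v ≠ 44 → v ≠ 45 → v ≠ 46 → v ≠ 47 → v ≠ 48 → ρ.v v = σ.v v
  ao : ∀ a, a ≠ 20 → a ≠ 21 → ρ.a a = σ.a a
  io : ρ.inp = σ.inp
  oo : ρ.out = σ.out

private def jbBody : Stmt :=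
  .seq (.ite 46 (.get 48 4 43) (.const 48 1)) (.seq (.put 21 43 48) (.seq (.put 20 43 101)
    (.seq (.add 43 43 44) (.seq (.sub 45 45 44) (.sub 46 46 44)))))

private theorem jb_step (σ : St) (c g S : ℕ) (β : ℕ → ℤ) (i : ℕ) (ρ : St)
    (h : JbI σ c g S β i ρ) : ∃ τ, Reach jbBody ρ 7 τ ∧ JbI σ c g S β (i + 1) τ := by
  set z : ℤ := if i < g then β i else 1 with hz
  have hite : Reach (.ite 46 (.get 48 4 43) (.const 48 1)) ρ 2 (ρ.sv 48 z) := by
    by_cases hg : i < g
    · have h1 : 0 < ρ.v 46 := by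
        rw [h.v46]
        omega
      have h2 : (ρ.a 4 (ρ.v 43).toNat) = z := by
        rw [h.v43, Int.toNat_natCast, h.a4, hz, if_pos hg]
      have h3 : Reach (.get 48 4 43) ρ 1 (ρ.sv 48 (ρ.a 4 (ρ.v 43).toNat)) :=
        ⟨1, le_rfl, Big.get ρ 48 4 43⟩
      rw [h2] at h3
      exact Reach.ite_pos h1 h3
    · have h1 : ¬ 0 < ρ.v 46 := by
        rw [h.v46]
        omega
      have h2 : z = 1 := by rw [hz, if_neg hg]
      have h3 : Reach (.const 48 1) ρ 1 (ρ.sv 48 1) := ⟨1, le_rfl, Big.const ρ 48 1⟩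
      rw [h2]
      exact Reach.ite_neg h1 h3
  set ρ1 := ρ.sv 48 z with hρ1
  set ρ2 := ρ1.sa 21 (ρ1.v 43).toNat (ρ1.v 48) with hρ2
  set ρ3 := ρ2.sa 20 (ρ2.v 43).toNat (ρ2.v 101) with hρ3
  set ρ4 := ρ3.sv 43 (ρ3.v 43 + ρ3.v 44) with hρ4
  set ρ5 := ρ4.sv 45 (ρ4.v 45 - ρ4.v 44) with hρ5
  set ρ6 := ρ5.sv 46 (ρ5.v 46 - ρ5.v 44) with hρ6
  have e21 : Reach (.put 21 43 48) ρ1 1 ρ2 := ⟨1, le_rfl, Big.put ρ1 21 43 48⟩
  have e20 : Reach (.put 20 43 101) ρ2 1 ρ3 := ⟨1, le_rfl, Big.put ρ2 20 43 101⟩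
  have e43 : Reach (.add 43 43 44) ρ3 1 ρ4 := ⟨1, le_rfl, Big.add ρ3 43 43 44⟩
  have e45 : Reach (.sub 45 45 44) ρ4 1 ρ5 := ⟨1, le_rfl, Big.sub ρ4 45 45 44⟩
  have e46 : Reach (.sub 46 46 44) ρ5 1 ρ6 := ⟨1, le_rfl, Big.sub ρ5 46 46 44⟩
  have w43 : (ρ1.v 43).toNat = i := by
    rw [hρ1, jb_sv, if_neg (by norm_num), h.v43, Int.toNat_natCast]
  have w43' : (ρ2.v 43).toNat = i := w43
  have w48 : ρ1.v 48 = z := by rw [hρ1, jb_sv, if_pos rfl]
  have w101 : ρ2.v 101 = S := by
    show ρ1.v 101 = S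
    rw [hρ1, jb_sv, if_neg (by norm_num), h.v101]
  have wa : ∀ a j, ρ6.a a j = if a = 20 then (if j = i then (S : ℤ) else ρ.a 20 j) else
      if a = 21 then (if j = i then z else ρ.a 21 j) else ρ.a a j := by
    intro a j
    show ρ3.a a j = _
    rw [hρ3, jb_sa, w43', w101]
    by_cases ha : a = 20
    · rw [if_pos ha, if_pos ha]
      congr 1
    · rw [if_neg ha, if_neg ha, hρ2, jb_sa, w43, w48]
      rfl
  refine ⟨ρ6, (hite.seq (e21.seq (e20.seq (e43.seq (e45.seq e46))))).mono (by norm_num), ?_⟩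
  have u43 : ρ3.v 43 = i := by
    show ρ1.v 43 = i
    rw [hρ1, jb_sv, if_neg (by norm_num), h.v43]
  have u44 : ρ3.v 44 = 1 := by
    show ρ1.v 44 = 1
    rw [hρ1, jb_sv, if_neg (by norm_num), h.v44]
  have u45 : ρ3.v 45 = (c : ℤ) - i := by
    show ρ1.v 45 = _
    rw [hρ1, jb_sv, if_neg (by norm_num), h.v45]
  have u46 : ρ3.v 46 = (g : ℤ) - i := by
    show ρ1.v 46 = _
    rw [hρ1, jb_sv, if_neg (by norm_num), h.v46]
  have uo : ∀ v, v ≠ 48 → ρ3.v v = ρ.v v := by
    intro v hv
    show ρ1.v v = _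
    rw [hρ1, jb_sv, if_neg hv]
  constructor
  · simp [hρ6, hρ5, hρ4, jb_sv, u43, u44]
  · simp [hρ6, hρ5, hρ4, jb_sv, u44]
  · simp [hρ6, hρ5, hρ4, jb_sv, u44, u45]
    ring
  · simp [hρ6, hρ5, hρ4, jb_sv, u44, u46]
    ring
  · simp [hρ6, hρ5, hρ4, jb_sv, uo, h.v101]
  · intro e he
    rw [wa, if_pos rfl]
    by_cases hei : e = i
    · rw [if_pos hei]
    · rw [if_neg hei]
      exact h.a20 e (by omega)
  · intro e he
    rw [wa, if_neg (by norm_num), if_pos rfl]
    by_cases hei : e = i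
    · rw [if_pos hei, hei]
    · rw [if_neg hei]
      exact h.a21 e (by omega)
  · intro e
    rw [wa, if_neg (by norm_num), if_neg (by norm_num)]
    exact h.a4 e
  · intro v h1 h2 h3 h4 h5 h6
    have : ρ6.v v = ρ3.v v := by
      simp [hρ6, hρ5, hρ4, jb_sv, h1, h3, h4]
    rw [this, uo v h6]
    exact h.vo v h1 h2 h3 h4 h5 h6
  · intro a h1 h2
    funext j
    rw [wa, if_neg h1, if_neg h2, h.ao a h1 h2]
  · show ρ.inp = σ.inp
    exact h.io
  · show ρ.out = σ.out
    exact h.oo

/-- filling the arrays -/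
private def jbFill : Stmt :=
  .seq (.const 43 0) (.seq (.const 44 1) (.seq (.mov 45 102) (.seq (.const 47 0)
    (.seq (.get 46 22 47) (.seq (.whl 45 jbBody) (.mov 103 101))))))

private theorem jb_fill (σ : St) (c g S : ℕ) (h102 : σ.v 102 = c) (h101 : σ.v 101 = S)
    (h22 : σ.a 22 0 = g) :
    ∃ τ, Reach jbFill σ (8 * c + 7) τ ∧ (∀ e < c, τ.a 20 e = S) ∧
      (∀ e < c, τ.a 21 e = if e < g then σ.a 4 e else 1) ∧ τ.v 103 = S ∧
      (∀ v, v ≠ 43 → v ≠ 44 → v ≠ 45 → v ≠ 46 → v ≠ 47 → v ≠ 48 → v ≠ 103 → τ.v v = σ.v v) ∧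
      (∀ a, a ≠ 20 → a ≠ 21 → τ.a a = σ.a a) ∧ τ.inp = σ.inp ∧ τ.out = σ.out := by
  set σ1 := σ.sv 43 0 with hσ1
  set σ2 := σ1.sv 44 1 with hσ2
  set σ3 := σ2.sv 45 (σ2.v 102) with hσ3
  set σ4 := σ3.sv 47 0 with hσ4
  set σ5 := σ4.sv 46 (σ4.a 22 (σ4.v 47).toNat) with hσ5
  have r1 : Reach (.const 43 0) σ 1 σ1 := ⟨1, le_rfl, Big.const σ 43 0⟩
  have r2 : Reach (.const 44 1) σ1 1 σ2 := ⟨1, le_rfl, Big.const σ1 44 1⟩
  have r3 : Reach (.mov 45 102) σ2 1 σ3 := ⟨1, le_rfl, Big.mov σ2 45 102⟩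
  have r4 : Reach (.const 47 0) σ3 1 σ4 := ⟨1, le_rfl, Big.const σ3 47 0⟩
  have r5 : Reach (.get 46 22 47) σ4 1 σ5 := ⟨1, le_rfl, Big.get σ4 46 22 47⟩
  have hI0 : JbI σ c g S (fun e => σ.a 4 e) 0 σ5 := by
    have a46 : σ4.a 22 (σ4.v 47).toNat = g := by
      have : (σ4.v 47).toNat = 0 := by
        rw [hσ4, jb_sv, if_pos rfl]
        rfl
      rw [this]
      exact h22
    constructor
    · simp [hσ5, hσ4, hσ3, hσ2, hσ1, jb_sv]
    · simp [hσ5, hσ4, hσ3, hσ2, hσ1, jb_sv]
    · simp [hσ5, hσ4, hσ3, hσ2, hσ1, jb_sv, h102]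
    · rw [hσ5, jb_sv, if_pos rfl, a46]
      simp
    · simp [hσ5, hσ4, hσ3, hσ2, hσ1, jb_sv, h101]
    · intro e he
      omega
    · intro e he
      omega
    · intro e
      rfl
    · intro v q1 q2 q3 q4 q5 q6
      simp [hσ5, hσ4, hσ3, hσ2, hσ1, jb_sv, q1, q2, q3, q4, q5]
    · intro a _ _
      rfl
    · rfl
    · rfl
  obtain ⟨τ, rτ, hI⟩ := Reach.loop (v := 45) (s := jbBody) c (JbI σ c g S (fun e => σ.a 4 e))
    (fun _ => 7)
    (by
      rintro i hi ρ h
      rw [h.v45]
      omega)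
    (by
      rintro ρ h
      rw [h.v45]
      omega) (fun i _ ρ h => jb_step σ c g S _ i ρ h) σ5 hI0
  have r6 : Reach (.mov 103 101) τ 1 (τ.sv 103 (τ.v 101)) := ⟨1, le_rfl, Big.mov τ 103 101⟩
  refine ⟨τ.sv 103 (τ.v 101), ?_, ?_, ?_, ?_, ?_, ?_, ?_, ?_⟩
  · refine (r1.seq (r2.seq (r3.seq (r4.seq (r5.seq (rτ.seq r6)))))).mono ?_
    simp only [Finset.sum_const, Finset.card_range, smul_eq_mul]
    omega
  · exact hI.a20
  · exact hI.a21
  · rw [jb_sv, if_pos rfl, hI.v101]
  · intro v q1 q2 q3 q4 q5 q6 q7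
    rw [jb_sv, if_neg q7]
    exact hI.vo v q1 q2 q3 q4 q5 q6
  · exact hI.ao
  · exact hI.io
  · exact hI.oo

private theorem jb_env {σ τ : St} {x : List Bool} (h : Env σ x) (h40 : τ.v 40 = σ.v 40)
    (h8 : τ.v 8 = σ.v 8) (h0 : τ.a 0 = σ.a 0) (h2 : τ.a 2 = σ.a 2) : Env τ x := by
  refine ⟨?_, ?_, ?_⟩
  · rw [h40, h.n]
  · intro i hi
    rw [h0]
    exact h.inp i hi
  · unfold Stamps
    rw [h8, h2]
    exact h.stamps

private theorem jb_sq (s : ℕ) : (s + 1) * (s + 1) ≤ 4 * 2 ^ s := by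
  induction s with
  | zero => norm_num
  | succ s ih =>
    rcases Nat.lt_or_ge s 2 with h | h
    · interval_cases s <;> norm_num
    · have h1 : 2 ^ (s + 1) = 2 * 2 ^ s := by rw [pow_succ]; ring
      nlinarith

/-- `slow_tab` with `u k = encE` of the list of `(true, pr e)`, `e < k`; `init` stores the table,
`tick` runs `jj_spec`, copies the results to the array of the adversary's bits (and sets the bits
`K0 n ≤ e < cap n` to 1), fills the array of stopping times with `s0 n`. -/
theorem jr_base : ∃ K0 : ℕ → ℕ, Computable K0 ∧ Tendsto K0 atTop atTop ∧ (∀ n, K0 n ≤ cap n) ∧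
    JR (fun _ n => s0 n) s0 (stpK K0) := by
  obtain ⟨g, hgc, hgt, hgcap, κ1, hlin⟩ := slow_tab (fun k => encE (jbL k)) jb_u
  obtain ⟨sT, hsT⟩ := hlin 22 100 (by norm_num) (by norm_num)
  obtain ⟨κ2, hjj⟩ := jj_spec
  obtain ⟨pj, hpj⟩ := hjj 22 (by norm_num)
  obtain ⟨sp, κ3, hprep⟩ := prep_spec
  refine ⟨g, hgc, hgt, hgcap, 110, 20, 21, 103,
    .seq sp (.seq (.mov 101 43) (.seq (.mov 102 44) sT)), .seq pj jbFill,
    fun x s σ => StoredAt σ 22 0 (encE (jbL (g x.length))) ∧ σ.v 101 = s0 x.length ∧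
      σ.v 102 = cap x.length ∧ ∀ s', s = s' + 1 → s0 x.length ≤ s' →
        (∀ v < cap x.length, σ.a 20 v = s0 x.length) ∧
        (∀ e < cap x.length, σ.a 21 e = if stpK g e x.length s' then 1 else 0) ∧
        σ.v 103 = s0 x.length, κ3 + κ1 + 2 + κ2 * 5 + 15, by norm_num, by norm_num, by norm_num,
    by norm_num, by norm_num, by norm_num, by norm_num, ?_, ?_, ?_, ?_⟩
  · -- init
    intro x σ hE
    obtain ⟨τ1, r1, e1, h43, h44, -, f1⟩ := hprep x σ hE
    set τ2 := τ1.sv 101 (τ1.v 43) with hτ2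
    set τ3 := τ2.sv 102 (τ2.v 44) with hτ3
    have r2 : Reach (.mov 101 43) τ1 1 τ2 := ⟨1, le_rfl, Big.mov τ1 101 43⟩
    have r3 : Reach (.mov 102 44) τ2 1 τ3 := ⟨1, le_rfl, Big.mov τ2 102 44⟩
    have e3 : Env τ3 x := jb_env e1 (by simp [hτ3, hτ2, jb_sv]) (by simp [hτ3, hτ2, jb_sv])
      rfl rfl
    obtain ⟨τ4, r4, e4, hst, -, f4⟩ := hsT x τ3 e3
    have v101 : τ4.v 101 = s0 x.length := by
      rw [f4.v 101 (by simp [LV]), hτ3, jb_sv, if_neg (by norm_num), hτ2, jb_sv, if_pos rfl, h43]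
    have v102 : τ4.v 102 = cap x.length := by
      rw [f4.v 102 (by simp [LV]), hτ3, jb_sv, if_pos rfl, hτ2, jb_sv, if_neg (by norm_num), h44]
    refine ⟨τ4, ?_, e4, ⟨hst, v101, v102, ?_⟩, ?_⟩
    · refine (r1.seq (r2.seq (r3.seq r4))).mono ?_
      ring_nf
      nlinarith [Nat.zero_le (κ2 * 5 * (x.length + 1))]
    · intro s' h1 h2
      omega
    · refine ⟨?_, ?_, ?_, ?_⟩
      · intro v hv
        simp only [LV, Set.mem_union, Set.mem_ofPred_eq, Set.mem_Ico, not_or, not_and, not_lt]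
          at hv
        have q1 : v ∉ LV ∪ {100} := by
          simp only [LV, Set.mem_union, Set.mem_ofPred_eq, Set.mem_singleton_iff, not_or]
          refine ⟨?_, ?_⟩
          · rintro ⟨h1, h2, h3, h4⟩
            exact hv.1 h1 h2 h3 h4
          · intro h
            have := hv.2 (by omega)
            omega
        have q2 : v ≠ 101 := by
          intro h
          have := hv.2 (by omega)
          omega
        have q3 : v ≠ 102 := by
          intro h
          have := hv.2 (by omega)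
          omega
        have q4 : v ∉ {v : ℕ | 43 ≤ v ∧ v < 60} := by
          simp only [Set.mem_ofPred_eq]
          rintro ⟨h1, h2⟩
          exact hv.1 (by omega) (by omega) (by omega) (by omega)
        rw [f4.v v q1, hτ3, jb_sv, if_neg q3, hτ2, jb_sv, if_neg q2, f1.v v q4]
      · intro a ha
        simp only [LA, Set.mem_union, Set.mem_ofPred_eq, Set.mem_Ico, not_or, not_and, not_lt]
          at ha
        have q1 : a ∉ LA ∪ {22} := by
          simp only [LA, Set.mem_union, Set.mem_ofPred_eq, Set.mem_singleton_iff, not_or]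
          refine ⟨?_, ?_⟩
          · rintro ⟨h1, h2⟩
            exact ha.1 h1 h2
          · intro h
            have := ha.2 (by omega)
            omega
        rw [f4.a a q1]
        show τ1.a a = σ.a a
        exact f1.a a (by simp)
      · rw [f4.inp]
        exact f1.inp
      · rw [f4.out]
        exact f1.out
  · -- tick
    rintro x s σ hE hs ⟨hst, h101, h102, -⟩ h41 h42
    obtain ⟨τ1, r1, e1, hev, -, f1⟩ := hpj x s σ (jbL (g x.length)) hE h41 h42 hst
    have k101 : τ1.v 101 = s0 x.length := by rw [f1.v 101 (by simp [LV]), h101]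
    have k102 : τ1.v 102 = cap x.length := by rw [f1.v 102 (by simp [LV]), h102]
    have k22 : τ1.a 22 = σ.a 22 := f1.a 22 (by simp [LA])
    have k220 : τ1.a 22 0 = (g x.length : ℤ) := by
      rw [k22]
      have h1 := hst 0 (by simp [encE])
      rw [add_zero] at h1
      rw [h1]
      simp [encE, jbL_length]
    obtain ⟨τ, r2, t20, t21, t103, tv, ta, ti, tout⟩ := jb_fill τ1 (cap x.length) (g x.length)
      (s0 x.length) k102 k101 k220
    have hcap := cap_le_s0 x.length
    refine ⟨τ, ?_, ?_, ⟨?_, ?_, ?_, ?_⟩, ?_⟩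
    · refine (r1.seq r2).mono ?_
      have hg := hgcap x.length
      rw [jbL_length]
      have b1 : (g x.length + 1) * (s + 1) ≤ 4 * 2 ^ s :=
        (Nat.mul_le_mul_right _ (by omega : g x.length + 1 ≤ s + 1)).trans (jb_sq s)
      have b2 : s < 2 ^ s := Nat.lt_two_pow_self
      have b3 : κ2 * (2 ^ s + (g x.length + 1) * (s + 1)) ≤ κ2 * (5 * 2 ^ s) :=
        Nat.mul_le_mul_left _ (by omega)
      have b4 : 8 * cap x.length + 7 ≤ 15 * 2 ^ s := by omega
      calc κ2 * (2 ^ s + (g x.length + 1) * (s + 1)) + (8 * cap x.length + 7)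
          ≤ κ2 * (5 * 2 ^ s) + 15 * 2 ^ s := Nat.add_le_add b3 b4
        _ ≤ (κ3 + κ1 + 2 + κ2 * 5 + 15) * 2 ^ s := by
          have : κ2 * (5 * 2 ^ s) + 15 * 2 ^ s = (κ2 * 5 + 15) * 2 ^ s := by ring
          rw [this]
          exact Nat.mul_le_mul_right _ (by omega)
    · exact jb_env e1 (tv 40 (by norm_num) (by norm_num) (by norm_num) (by norm_num) (by norm_num)
        (by norm_num) (by norm_num)) (tv 8 (by norm_num) (by norm_num) (by norm_num) (by norm_num)
        (by norm_num) (by norm_num) (by norm_num)) (ta 0 (by norm_num) (by norm_num))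
        (ta 2 (by norm_num) (by norm_num))
    · intro i hi
      rw [ta 22 (by norm_num) (by norm_num), k22]
      exact hst i hi
    · rw [tv 101 (by norm_num) (by norm_num) (by norm_num) (by norm_num) (by norm_num)
        (by norm_num) (by norm_num), k101]
    · rw [tv 102 (by norm_num) (by norm_num) (by norm_num) (by norm_num) (by norm_num)
        (by norm_num) (by norm_num), k102]
    · intro s' h1 h2
      have hs' : s' = s := by omega
      subst hs'
      refine ⟨t20, ?_, t103⟩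
      intro e he
      rw [t21 e he]
      by_cases hge : e < g x.length
      · rw [if_pos hge, hev e (by rw [jbL_length]; exact hge), jb_evt _ _ _ _ hge]
        have : stpK g e x.length s' = (decide (e + 1 ≤ s') &&
            hb e (List.replicate x.length false) (2 ^ (s' - (e + 1)))) := by
          unfold stpK
          have : ¬ g x.length ≤ e := by omega
          rw [decide_eq_false this, Bool.false_or]
        rw [this]
      · rw [if_neg hge]
        have : stpK g e x.length s' = true := by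
          unfold stpK
          have : g x.length ≤ e := by omega
          rw [decide_eq_true this, Bool.true_or]
        rw [this, if_pos rfl]
    · refine ⟨?_, ?_, ?_, ?_⟩
      · intro v hv
        simp only [LV, Set.mem_union, Set.mem_ofPred_eq, Set.mem_Ico, not_or, not_and, not_lt]
          at hv
        have q0 : v ∉ LV := by
          simp only [LV, Set.mem_ofPred_eq]
          rintro ⟨h1, h2, h3, h4⟩
          exact hv.1 h1 h2 h3 h4
        have q : ∀ w, w < 100 → w ≠ 40 → w ≠ 41 → w ≠ 42 → v ≠ w := by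
          intro w h1 h2 h3 h4 h
          subst h
          exact hv.1 h1 h2 h3 h4
        have q103 : v ≠ 103 := by
          intro h
          have := hv.2 (by omega)
          omega
        rw [tv v (q 43 (by norm_num) (by norm_num) (by norm_num) (by norm_num))
          (q 44 (by norm_num) (by norm_num) (by norm_num) (by norm_num))
          (q 45 (by norm_num) (by norm_num) (by norm_num) (by norm_num))
          (q 46 (by norm_num) (by norm_num) (by norm_num) (by norm_num))
          (q 47 (by norm_num) (by norm_num) (by norm_num) (by norm_num))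
          (q 48 (by norm_num) (by norm_num) (by norm_num) (by norm_num)) q103, f1.v v q0]
      · intro a ha
        simp only [LA, Set.mem_union, Set.mem_ofPred_eq, Set.mem_Ico, not_or, not_and, not_lt]
          at ha
        have q0 : a ∉ LA := by
          simp only [LA, Set.mem_ofPred_eq]
          rintro ⟨h1, h2⟩
          exact ha.1 h1 h2
        have q20 : a ≠ 20 := by
          intro h
          have := ha.2 (by omega)
          omega
        have q21 : a ≠ 21 := by
          intro h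
          have := ha.2 (by omega)
          omega
        rw [ta a q20 q21, f1.a a q0]
      · rw [ti, f1.inp]
      · rw [tout, f1.out]
  · -- results
    rintro x s σ hs ⟨-, -, -, h⟩
    obtain ⟨h1, h2, h3⟩ := h s rfl hs
    refine ⟨?_, h2, ?_⟩
    · intro v hv
      rw [h1 v hv, if_pos hs]
    · rw [h3, if_pos hs]
  · -- frame
    rintro x s σ τ hv ha ⟨hst, h101, h102, h⟩
    refine ⟨?_, ?_, ?_, ?_⟩
    · intro i hi
      rw [ha 22 (by norm_num) (by norm_num)]
      exact hst i hi
    · rw [hv 101 (by norm_num) (by norm_num), h101]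
    · rw [hv 102 (by norm_num) (by norm_num), h102]
    · intro s' h1 h2
      obtain ⟨k1, k2, k3⟩ := h s' h1 h2
      refine ⟨?_, ?_, ?_⟩
      · intro v hvv
        rw [ha 20 (by norm_num) (by norm_num)]
        exact k1 v hvv
      · intro e he
        rw [ha 21 (by norm_num) (by norm_num)]
        exact k2 e he
      · rw [hv 103 (by norm_num) (by norm_num), k3]

end Pool.Agent.H71.CT
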