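import Pool.Agent.H71.CT.Ram

/-!
A small while language with variables and arrays, its cost semantics.
-/

namespace Pool.Agent.H71.CT

/-- Statements of the while language. Variables and arrays are numbered. -/
inductive Stmt where
  | skip
  /-- `v := c` -/
  | const (v : ℕ) (c : ℤ)
  /-- `v := a` -/
  | mov (v a : ℕ)
  /-- `v := a + b` -/
  | add (v a b : ℕ)
  /-- `v := a - b` -/
  | sub (v a b : ℕ)
  /-- `v := array a at index i` (`i` a variable) -/
  | get (v a i : ℕ)
  /-- `array a at index i := v` -/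
  | put (a i v : ℕ)
  | read (v : ℕ)
  | print (v : ℕ)
  | seq (s t : Stmt)
  /-- if `v > 0` then `s` else `t` -/
  | ite (v : ℕ) (s t : Stmt)
  /-- while `v > 0` do `s` -/
  | whl (v : ℕ) (s : Stmt)

/-- States of the while language. -/
@[ext] structure St where
  v : ℕ → ℤ
  a : ℕ → ℕ → ℤ
  inp : List Bool
  out : List ℤ

namespace St

/-- set a variable -/
def sv (σ : St) (v : ℕ) (z : ℤ) : St := { σ with v := Function.update σ.v v z }

/-- set an array cell -/
def sa (σ : St) (a i : ℕ) (z : ℤ) : St :=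
  { σ with a := Function.update σ.a a (Function.update (σ.a a) i z) }

/-- initial state on input `x`, all variables and cells `0`, except that variable `v` is `i` -/
def ini (x : List Bool) (v : ℕ) (i : ℤ) : St :=
  ⟨Function.update (fun _ => 0) v i, fun _ _ => 0, x, []⟩

end St

/-- `Big s σ c τ`: the statement `s`, started in `σ`, terminates in `τ` with cost `c`. -/
inductive Big : Stmt → St → ℕ → St → Prop
  | skip (σ : St) : Big .skip σ 0 σ
  | const (σ : St) (v c) : Big (.const v c) σ 1 (σ.sv v c)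
  | mov (σ : St) (v a) : Big (.mov v a) σ 1 (σ.sv v (σ.v a))
  | add (σ : St) (v a b) : Big (.add v a b) σ 1 (σ.sv v (σ.v a + σ.v b))
  | sub (σ : St) (v a b) : Big (.sub v a b) σ 1 (σ.sv v (σ.v a - σ.v b))
  | get (σ : St) (v a i) : Big (.get v a i) σ 1 (σ.sv v (σ.a a (σ.v i).toNat))
  | put (σ : St) (a i v) : Big (.put a i v) σ 1 (σ.sa a (σ.v i).toNat (σ.v v))
  | read (σ : St) (v) : Big (.read v) σ 1
      { (σ.sv v (sym σ.inp)) with inp := σ.inp.tail }
  | print (σ : St) (v) : Big (.print v) σ 1 { σ with out := σ.out ++ [σ.v v] }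
  | seq {s t σ σ' σ'' c d} (h : Big s σ c σ') (h' : Big t σ' d σ'') :
      Big (.seq s t) σ (c + d) σ''
  | ite_pos {v s t σ σ' c} (hv : 0 < σ.v v) (h : Big s σ c σ') : Big (.ite v s t) σ (c + 1) σ'
  | ite_neg {v s t σ σ' c} (hv : ¬ 0 < σ.v v) (h : Big t σ c σ') : Big (.ite v s t) σ (c + 1) σ'
  | while_end {v s σ} (hv : ¬ 0 < σ.v v) : Big (.whl v s) σ 1 σ
  | while_step {v s σ σ' σ'' c d} (hv : 0 < σ.v v) (h : Big s σ c σ')
      (h' : Big (.whl v s) σ' d σ'') : Big (.whl v s) σ (c + d + 1) σ''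

/-- sequence of a list of statements -/
def blk : List Stmt → Stmt
  | [] => .skip
  | s :: l => .seq s (blk l)

/-- `Reach s σ C τ`: `s` started in `σ` ends in `τ` with cost at most `C`. -/
def Reach (s : Stmt) (σ : St) (C : ℕ) (τ : St) : Prop := ∃ c ≤ C, Big s σ c τ

end Pool.Agent.H71.CT
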