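import Pool.Agent.H71.CT.Boards

/-! The loops over the functions in one step of a controlled process. -/

namespace Pool.Agent.H71.CT

private theorem ln_sv (σ : St) (v w : ℕ) (z : ℤ) : (σ.sv v z).v w = if w = v then z else σ.v w := by
  simp [St.sv, Function.update_apply]

private theorem ln_sva (σ : St) (v : ℕ) (z : ℤ) : (σ.sv v z).a = σ.a := rfl

private theorem ln_svi (σ : St) (v : ℕ) (z : ℤ) : (σ.sv v z).inp = σ.inp := rfl

private theorem ln_svo (σ : St) (v : ℕ) (z : ℤ) : (σ.sv v z).out = σ.out := rfl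

private theorem ln_sav (σ : St) (a i : ℕ) (z : ℤ) : (σ.sa a i z).v = σ.v := rfl

private theorem ln_sai (σ : St) (a i : ℕ) (z : ℤ) : (σ.sa a i z).inp = σ.inp := rfl

private theorem ln_sao (σ : St) (a i : ℕ) (z : ℤ) : (σ.sa a i z).out = σ.out := rfl

private theorem ln_sa (σ : St) (a b i j : ℕ) (z : ℤ) :
    (σ.sa a i z).a b j = if b = a then (if j = i then z else σ.a a j) else σ.a b j := by
  by_cases h : b = a
  · subst h
    simp [St.sa, Function.update_apply]
  · simp [St.sa, h, Function.update_of_ne h]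

/-- straight line execution -/
private def lnEx : Stmt → St → St
  | .const v c, σ => σ.sv v c
  | .mov v a, σ => σ.sv v (σ.v a)
  | .add v a b, σ => σ.sv v (σ.v a + σ.v b)
  | .sub v a b, σ => σ.sv v (σ.v a - σ.v b)
  | .get v a i, σ => σ.sv v (σ.a a (σ.v i).toNat)
  | .put a i v, σ => σ.sa a (σ.v i).toNat (σ.v v)
  | .seq s t, σ => lnEx t (lnEx s σ)
  | .ite v s t, σ => if 0 < σ.v v then lnEx s σ else lnEx t σ
  | _, σ => σ

private def lnSl : Stmt → Bool
  | .skip => true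
  | .const _ _ => true
  | .mov _ _ => true
  | .add _ _ _ => true
  | .sub _ _ _ => true
  | .get _ _ _ => true
  | .put _ _ _ => true
  | .seq s t => lnSl s && lnSl t
  | .ite _ s t => lnSl s && lnSl t
  | _ => false

private def lnCo : Stmt → ℕ
  | .seq s t => lnCo s + lnCo t
  | .ite _ s t => lnCo s + lnCo t + 1
  | _ => 1

private theorem ln_reach : ∀ s : Stmt, lnSl s = true → ∀ σ, Reach s σ (lnCo s) (lnEx s σ)
  | .skip, _, σ => ⟨0, by simp [lnCo], Big.skip σ⟩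
  | .const v c, _, σ => ⟨1, le_rfl, Big.const σ v c⟩
  | .mov v a, _, σ => ⟨1, le_rfl, Big.mov σ v a⟩
  | .add v a b, _, σ => ⟨1, le_rfl, Big.add σ v a b⟩
  | .sub v a b, _, σ => ⟨1, le_rfl, Big.sub σ v a b⟩
  | .get v a i, _, σ => ⟨1, le_rfl, Big.get σ v a i⟩
  | .put a i v, _, σ => ⟨1, le_rfl, Big.put σ a i v⟩
  | .seq s t, h, σ => by
    have h' : lnSl s = true ∧ lnSl t = true := by simpa [lnSl] using h
    exact (ln_reach s h'.1 σ).seq (ln_reach t h'.2 _)
  | .ite v s t, h, σ => by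
    have h' : lnSl s = true ∧ lnSl t = true := by simpa [lnSl] using h
    by_cases hv : 0 < σ.v v
    · have e : lnEx (.ite v s t) σ = lnEx s σ := by simp only [lnEx, if_pos hv]
      rw [e]
      exact (Reach.ite_pos hv (ln_reach s h'.1 σ)).mono (by simp only [lnCo]; omega)
    · have e : lnEx (.ite v s t) σ = lnEx t σ := by simp only [lnEx, if_neg hv]
      rw [e]
      exact (Reach.ite_neg hv (ln_reach t h'.2 σ)).mono (by simp only [lnCo]; omega)
  | .read _, h, _ => by simp [lnSl] at h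
  | .print _, h, _ => by simp [lnSl] at h
  | .whl _ _, h, _ => by simp [lnSl] at h

/-- look up -/
private def lnGf (ta tl cv j : ℕ) : Stmt :=
  .seq (.add 61 cv cv) (.seq (.add 61 61 61) (.seq (.const 62 ((1 + j : ℕ) : ℤ))
    (.seq (.add 61 61 62) (.seq (.sub 63 tl 61) (.ite 63 (.get 60 ta 61) (.const 60 0))))))

private theorem ln_gf (ta tl cv j : ℕ) (htl : 100 ≤ tl) (hcv' : cv < 60 ∨ 70 ≤ cv)
    (σ : St) (T : List ℕ) (c : ℕ) (hT : StoredAt σ ta 0 T)
    (hl : σ.v tl = T.length) (hc : σ.v cv = c) :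
    (lnEx (lnGf ta tl cv j) σ).v 60 = fld T c j ∧
    (∀ v, v < 60 ∨ 70 ≤ v → (lnEx (lnGf ta tl cv j) σ).v v = σ.v v) ∧
    (lnEx (lnGf ta tl cv j) σ).a = σ.a ∧ (lnEx (lnGf ta tl cv j) σ).inp = σ.inp ∧
    (lnEx (lnGf ta tl cv j) σ).out = σ.out := by
  have n1 : tl ≠ 61 := by omega
  have n2 : tl ≠ 62 := by omega
  set σ1 := σ.sv 61 (σ.v cv + σ.v cv) with hσ1
  set σ2 := σ1.sv 61 (σ1.v 61 + σ1.v 61) with hσ2
  set σ3 := σ2.sv 62 ((1 + j : ℕ) : ℤ) with hσ3
  set σ4 := σ3.sv 61 (σ3.v 61 + σ3.v 62) with hσ4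
  set σ5 := σ4.sv 63 (σ4.v tl - σ4.v 61) with hσ5
  have e : lnEx (lnGf ta tl cv j) σ = if 0 < σ5.v 63 then σ5.sv 60 (σ5.a ta (σ5.v 61).toNat)
      else σ5.sv 60 0 := rfl
  have a61 : σ4.v 61 = ((1 + 4 * c + j : ℕ) : ℤ) := by
    simp [hσ4, hσ3, hσ2, hσ1, ln_sv, hc]
    ring
  have b61 : σ5.v 61 = ((1 + 4 * c + j : ℕ) : ℤ) := by
    rw [hσ5, ln_sv, if_neg (by norm_num), a61]
  have atl : σ4.v tl = T.length := by
    simp [hσ4, hσ3, hσ2, hσ1, ln_sv, n1, n2, hl]
  have a63 : σ5.v 63 = (T.length : ℤ) - ((1 + 4 * c + j : ℕ) : ℤ) := by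
    rw [hσ5, ln_sv, if_pos rfl, atl, a61]
  have hfr : ∀ v, v < 60 ∨ 70 ≤ v → σ5.v v = σ.v v := by
    intro v hv
    have q1 : v ≠ 61 := by omega
    have q2 : v ≠ 62 := by omega
    have q3 : v ≠ 63 := by omega
    simp [hσ5, hσ4, hσ3, hσ2, hσ1, ln_sv, q1, q2, q3]
  have ha : σ5.a = σ.a := rfl
  by_cases hlt : 1 + 4 * c + j < T.length
  · have h63 : 0 < σ5.v 63 := by
      rw [a63]
      omega
    rw [e, if_pos h63]
    refine ⟨?_, ?_, rfl, rfl, rfl⟩
    · rw [ln_sv, if_pos rfl, b61, Int.toNat_natCast, ha]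
      have h1 := hT (1 + 4 * c + j) hlt
      rw [zero_add] at h1
      rw [h1, fld, List.getD_eq_getElem _ _ hlt]
    · intro v hv
      rw [ln_sv, if_neg (by omega), hfr v hv]
  · have h63 : ¬ 0 < σ5.v 63 := by
      rw [a63]
      omega
    rw [e, if_neg h63]
    refine ⟨?_, ?_, rfl, rfl, rfl⟩
    · rw [ln_sv, if_pos rfl, fld, List.getD_eq_default _ _ (by omega)]
      rfl
    · intro v hv
      rw [ln_sv, if_neg (by omega), hfr v hv]

/-- Look up of field `j` of the code in variable `cv`; table in array `ta`, its length in variable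
`tl`; the result goes to variable 60 (scratch 61 ... 69). -/
theorem get_fld (ta tl cv j : ℕ) (hta : 10 ≤ ta) (htl : 100 ≤ tl) (hcv : 43 ≤ cv)
    (hcv' : cv < 60 ∨ 70 ≤ cv) :
    ∃ (p : Stmt) (κ : ℕ), ∀ (σ : St) (T : List ℕ) (c : ℕ), StoredAt σ ta 0 T →
      σ.v tl = T.length → σ.v cv = c →
      ∃ τ, Reach p σ κ τ ∧ τ.v 60 = fld T c j ∧ Fr {v | 60 ≤ v ∧ v < 70} ∅ σ τ := by
  refine ⟨lnGf ta tl cv j, lnCo (lnGf ta tl cv j), ?_⟩
  intro σ T c hT hl hc
  obtain ⟨h1, h2, h3, h4, h5⟩ := ln_gf ta tl cv j htl hcv' σ T c hT hl hc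
  refine ⟨_, ln_reach _ rfl σ, h1, ?_, ?_, h4, h5⟩
  · intro v hv
    refine h2 v ?_
    simp only [Set.mem_ofPred_eq, not_and, not_lt] at hv
    by_cases h : v < 60
    · exact Or.inl h
    · exact Or.inr (hv (by omega))
  · intro a _
    rw [h3]

/-- the bit -/
private def lnBit (ta tl ad cv j : ℕ) : Stmt :=
  .ite 48 (.ite 46 (.seq (lnGf ta tl cv j) (.mov 49 60)) (.const 49 0)) (.get 49 ad 47)

/-- the code -/
private def lnCode (cv : ℕ) : Stmt :=
  .ite 46 (.seq (.add cv cv cv) (.ite 49 (.add cv cv 44) .skip)) .skip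

/-- the recorded time -/
private def lnRec (en : ℕ) : Stmt :=
  .seq (.get 51 en 43) (.seq (.const 52 0) (.seq (.sub 52 52 51)
    (.ite 52 (.ite 49 (.put en 43 41) .skip) .skip)))

private def lnUp : Stmt :=
  .seq (.add 43 43 44) (.seq (.sub 45 45 44) (.seq (.sub 46 46 44) (.seq (.add 47 47 50)
    (.seq (.sub 50 44 50) (.sub 48 44 48)))))

private def lnBody (ta tl en ad cv j : ℕ) : Stmt :=
  .seq (lnBit ta tl ad cv j) (.seq (lnCode cv) (.seq (lnRec en) lnUp))

private theorem ln_bit (ta tl ad cv j : ℕ) (htl : 100 ≤ tl) (hcv : 100 ≤ cv)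
    (σ : St) (T : List ℕ) (c v : ℕ) (par : Bool) (b : ℕ → Bool)
    (hT : StoredAt σ ta 0 T) (hl : σ.v tl = T.length) (hc : σ.v cv = c)
    (h46 : σ.v 46 = (lev T : ℤ) - v) (h47 : σ.v 47 = ((v / 2 : ℕ) : ℤ))
    (h48 : σ.v 48 = if meP par v then 1 else 0)
    (hb : σ.a ad (v / 2) = if b (v / 2) then 1 else 0) :
    ((0 < (lnEx (lnBit ta tl ad cv j) σ).v 49) ↔
      (if meP par v then decide (v < lev T) && decide (0 < fld T c j) else b (v / 2)) = true) ∧
    (∀ v, v ≠ 49 → v < 60 ∨ 70 ≤ v → (lnEx (lnBit ta tl ad cv j) σ).v v = σ.v v) ∧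
    (lnEx (lnBit ta tl ad cv j) σ).a = σ.a ∧ (lnEx (lnBit ta tl ad cv j) σ).inp = σ.inp ∧
    (lnEx (lnBit ta tl ad cv j) σ).out = σ.out := by
  by_cases hm : meP par v = true
  · have p48 : 0 < σ.v 48 := by
      rw [h48, if_pos hm]
      norm_num
    by_cases hv : v < lev T
    · have p46 : 0 < σ.v 46 := by
        rw [h46]
        omega
      have e : lnEx (lnBit ta tl ad cv j) σ = (lnEx (lnGf ta tl cv j) σ).sv 49
          ((lnEx (lnGf ta tl cv j) σ).v 60) := by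
        simp only [lnBit, lnEx, if_pos p48, if_pos p46]
      obtain ⟨g1, g2, g3, g4, g5⟩ := ln_gf ta tl cv j htl (Or.inr (by omega)) σ T c hT hl hc
      rw [e]
      refine ⟨?_, ?_, ?_, ?_, ?_⟩
      · rw [ln_sv, if_pos rfl, g1, if_pos hm]
        simp [hv]
      · intro u hu hu'
        rw [ln_sv, if_neg hu, g2 u hu']
      · rw [ln_sva, g3]
      · rw [ln_svi, g4]
      · rw [ln_svo, g5]
    · have p46 : ¬ 0 < σ.v 46 := by
        rw [h46]
        omega
      have e : lnEx (lnBit ta tl ad cv j) σ = σ.sv 49 0 := by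
        simp only [lnBit, lnEx, if_pos p48, if_neg p46]
      rw [e]
      refine ⟨?_, ?_, rfl, rfl, rfl⟩
      · rw [ln_sv, if_pos rfl, if_pos hm]
        simp [hv]
      · intro u hu hu'
        rw [ln_sv, if_neg hu]
  · have p48 : ¬ 0 < σ.v 48 := by
      rw [h48, if_neg hm]
      norm_num
    have e : lnEx (lnBit ta tl ad cv j) σ = σ.sv 49 (σ.a ad (σ.v 47).toNat) := by
      simp only [lnBit, lnEx, if_neg p48]
    rw [e]
    refine ⟨?_, ?_, rfl, rfl, rfl⟩
    · rw [ln_sv, if_pos rfl, h47, Int.toNat_natCast, hb, if_neg hm]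
      cases b (v / 2) <;> simp
    · intro u hu hu'
      rw [ln_sv, if_neg hu]

private theorem ln_code (cv : ℕ) (hcv : 100 ≤ cv) (σ : St) (d : ℕ) (q : Bool)
    (hc : σ.v cv = d) (h44 : σ.v 44 = 1) (h49 : 0 < σ.v 49 ↔ q = true) :
    (lnEx (lnCode cv) σ).v cv = (if 0 < σ.v 46 then ((2 * d + q.toNat : ℕ) : ℤ) else (d : ℤ)) ∧
    (∀ v, v ≠ cv → (lnEx (lnCode cv) σ).v v = σ.v v) ∧
    (lnEx (lnCode cv) σ).a = σ.a ∧ (lnEx (lnCode cv) σ).inp = σ.inp ∧
    (lnEx (lnCode cv) σ).out = σ.out := by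
  have n49 : (49 : ℕ) ≠ cv := by omega
  have n44 : (44 : ℕ) ≠ cv := by omega
  by_cases h46 : 0 < σ.v 46
  · rw [if_pos h46]
    set σ1 := σ.sv cv (σ.v cv + σ.v cv) with hσ1
    have a49 : σ1.v 49 = σ.v 49 := by rw [hσ1, ln_sv, if_neg n49]
    have a44 : σ1.v 44 = 1 := by rw [hσ1, ln_sv, if_neg n44, h44]
    have acv : σ1.v cv = d + d := by rw [hσ1, ln_sv, if_pos rfl, hc]
    have e0 : lnEx (lnCode cv) σ = if 0 < σ.v 46 then (if 0 < σ1.v 49 then
        σ1.sv cv (σ1.v cv + σ1.v 44) else σ1) else σ := rfl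
    by_cases hq : q = true
    · have p49 : 0 < σ1.v 49 := by
        rw [a49]
        exact h49.2 hq
      have e : lnEx (lnCode cv) σ = σ1.sv cv (σ1.v cv + σ1.v 44) := by
        rw [e0, if_pos h46, if_pos p49]
      rw [e]
      refine ⟨?_, ?_, rfl, rfl, rfl⟩
      · rw [ln_sv, if_pos rfl, acv, a44, hq]
        simp
        ring
      · intro v hv
        rw [ln_sv, if_neg hv, hσ1, ln_sv, if_neg hv]
    · have p49 : ¬ 0 < σ1.v 49 := by
        rw [a49]
        exact fun h => hq (h49.1 h)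
      have e : lnEx (lnCode cv) σ = σ1 := by
        rw [e0, if_pos h46, if_neg p49]
      rw [e]
      refine ⟨?_, ?_, rfl, rfl, rfl⟩
      · rw [acv]
        simp [hq]
        ring
      · intro v hv
        rw [hσ1, ln_sv, if_neg hv]
  · have e : lnEx (lnCode cv) σ = σ := by
      simp only [lnCode, lnEx, if_neg h46]
    rw [e, if_neg h46]
    exact ⟨hc, fun _ _ => rfl, rfl, rfl, rfl⟩

private theorem ln_rec (en : ℕ) (σ : St) (v t : ℕ) (q : Bool) (w : ℤ)
    (h43 : σ.v 43 = v) (h41 : σ.v 41 = t) (h49 : 0 < σ.v 49 ↔ q = true) (hw : σ.a en v = w) :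
    (lnEx (lnRec en) σ).a en v = (if w < 0 ∧ q = true then (t : ℤ) else w) ∧
    (∀ u, u ≠ v → (lnEx (lnRec en) σ).a en u = σ.a en u) ∧
    (∀ a, a ≠ en → (lnEx (lnRec en) σ).a a = σ.a a) ∧
    (∀ u, u ≠ 51 → u ≠ 52 → (lnEx (lnRec en) σ).v u = σ.v u) ∧
    (lnEx (lnRec en) σ).inp = σ.inp ∧ (lnEx (lnRec en) σ).out = σ.out := by
  set σ1 := σ.sv 51 (σ.a en (σ.v 43).toNat) with hσ1
  set σ2 := σ1.sv 52 0 with hσ2
  set σ3 := σ2.sv 52 (σ2.v 52 - σ2.v 51) with hσ3
  have e : lnEx (lnRec en) σ = if 0 < σ3.v 52 then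
      (if 0 < σ3.v 49 then σ3.sa en (σ3.v 43).toNat (σ3.v 41) else σ3) else σ3 := rfl
  have a52 : σ3.v 52 = -w := by
    simp [hσ3, hσ2, hσ1, ln_sv, h43, hw]
  have a49 : σ3.v 49 = σ.v 49 := by
    simp [hσ3, hσ2, hσ1, ln_sv]
  have a43 : σ3.v 43 = v := by
    simp [hσ3, hσ2, hσ1, ln_sv, h43]
  have a41 : σ3.v 41 = t := by
    simp [hσ3, hσ2, hσ1, ln_sv, h41]
  have hfr : ∀ u, u ≠ 51 → u ≠ 52 → σ3.v u = σ.v u := by
    intro u q1 q2
    simp [hσ3, hσ2, hσ1, ln_sv, q1, q2]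
  have ha : σ3.a = σ.a := rfl
  by_cases h1 : w < 0 ∧ q = true
  · have p52 : 0 < σ3.v 52 := by
      rw [a52]
      omega
    have p49 : 0 < σ3.v 49 := by
      rw [a49]
      exact h49.2 h1.2
    rw [e, if_pos p52, if_pos p49, if_pos h1]
    refine ⟨?_, ?_, ?_, ?_, rfl, rfl⟩
    · rw [ln_sa, if_pos rfl, a43, Int.toNat_natCast, if_pos rfl, a41]
    · intro u hu
      rw [ln_sa, if_pos rfl, a43, Int.toNat_natCast, if_neg hu, ha]
    · intro a haa
      funext i
      rw [ln_sa, if_neg haa, ha]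
    · intro u q1 q2
      rw [ln_sav, hfr u q1 q2]
  · rw [if_neg h1]
    have e' : lnEx (lnRec en) σ = σ3 := by
      rw [e]
      by_cases p52 : 0 < σ3.v 52
      · by_cases p49 : 0 < σ3.v 49
        · exfalso
          refine h1 ⟨?_, ?_⟩
          · rw [a52] at p52
            omega
          · rw [a49] at p49
            exact h49.1 p49
        · rw [if_pos p52, if_neg p49]
      · rw [if_neg p52]
    rw [e', ha]
    exact ⟨hw, fun _ _ => rfl, fun _ _ => rfl, hfr, rfl, rfl⟩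

private theorem ln_meP (par : Bool) (v : ℕ) :
    (1 : ℤ) - (if meP par v then 1 else 0) = if meP par (v + 1) then 1 else 0 := by
  unfold meP
  rcases Nat.mod_two_eq_zero_or_one v with h | h
  · have h' : (v + 1) % 2 = 1 := by omega
    rw [h, h']
    cases par <;> simp
  · have h' : (v + 1) % 2 = 0 := by omega
    rw [h, h']
    cases par <;> simp

/-- New phase: the code in variable `cv` becomes the code after the bits of all functions below
the level (variable `lv`); in array `en` the current time (variable 41) is recorded for the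
functions `v < cp` (variable `cpv`) whose bit is 1 and that have no recorded time. -/
theorem loop_new (ta tl en ad cv lv cpv : ℕ) (j : ℕ) (par : Bool) (h1 : 10 ≤ ta) (h2 : 10 ≤ en)
    (h3 : 10 ≤ ad) (h4 : ta ≠ en) (h5 : en ≠ ad) (h6 : 100 ≤ tl) (h7 : 100 ≤ cv) (h8 : 100 ≤ lv)
    (h9 : 100 ≤ cpv) (h10 : cv ≠ tl) (h11 : cv ≠ lv) (h12 : cv ≠ cpv) :
    ∃ (p : Stmt) (κ : ℕ), ∀ (σ : St) (T : List ℕ) (c t cp : ℕ) (b : ℕ → Bool) (w : ℕ → ℤ),
      StoredAt σ ta 0 T → σ.v tl = T.length → σ.v cv = c → σ.v lv = lev T → σ.v cpv = cp →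
      lev T ≤ cp → σ.v 41 = t → (∀ e < cp, σ.a ad e = if b e then 1 else 0) →
      (∀ v < cp, σ.a en v = w v) →
      ∃ τ, Reach p σ (κ * (cp + 1)) τ ∧
        τ.v cv = cst (fun v c => if meP par v then decide (v < lev T) && decide (0 < fld T c j)
          else b (v / 2)) c (lev T) ∧
        (∀ v < cp, τ.a en v = if w v < 0 ∧
          (if meP par v then decide (v < lev T) && decide (0 < fld T (cst (fun v c => if meP par v
            then decide (v < lev T) && decide (0 < fld T c j) else b (v / 2)) c v) j)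
            else b (v / 2)) = true then (t : ℤ) else w v) ∧
        Fr ({v | 43 ≤ v ∧ v < 100} ∪ {cv}) {en} σ τ := by
  let body : Stmt := lnBody ta tl en ad cv j
  refine ⟨.seq (.const 43 0) (.seq (.const 44 1) (.seq (.mov 45 cpv) (.seq (.mov 46 lv)
    (.seq (.const 47 0) (.seq (.const 48 (if par then 1 else 0)) (.seq (.const 50 0)
      (.whl 45 body))))))), lnCo body + 20, ?_⟩
  intro σ T c t cp b w hT hl hc hlev hcp hle h41 hb hw
  have n41 : (41 : ℕ) ≠ cv := by omega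
  have n43 : (43 : ℕ) ≠ cv := by omega
  have n44 : (44 : ℕ) ≠ cv := by omega
  have n45 : (45 : ℕ) ≠ cv := by omega
  have n46 : (46 : ℕ) ≠ cv := by omega
  have n47 : (47 : ℕ) ≠ cv := by omega
  have n48 : (48 : ℕ) ≠ cv := by omega
  have n49 : (49 : ℕ) ≠ cv := by omega
  have n50 : (50 : ℕ) ≠ cv := by omega
  set bit : ℕ → ℕ → Bool := fun v c => if meP par v then decide (v < lev T) &&
    decide (0 < fld T c j) else b (v / 2) with hbit
  set VS : Set ℕ := {v | 43 ≤ v ∧ v < 100} ∪ {cv} with hVS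
  have inVS : ∀ v ∉ VS, (v < 43 ∨ 100 ≤ v) ∧ v ≠ cv := by
    intro v hv
    simp only [hVS, Set.mem_union, Set.mem_ofPred_eq, Set.mem_singleton_iff, not_or] at hv
    omega
  let I : ℕ → St → Prop := fun i ρ => ρ.v 43 = i ∧ ρ.v 44 = 1 ∧ ρ.v 45 = (cp : ℤ) - i ∧
    ρ.v 46 = (lev T : ℤ) - i ∧ ρ.v 47 = ((i / 2 : ℕ) : ℤ) ∧
    (ρ.v 48 = if meP par i then 1 else 0) ∧ ρ.v 50 = ((i % 2 : ℕ) : ℤ) ∧
    ρ.v cv = cst bit c (min i (lev T)) ∧
    (∀ v < i, ρ.a en v = if w v < 0 ∧ bit v (cst bit c v) = true then (t : ℤ) else w v) ∧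
    (∀ v, i ≤ v → v < cp → ρ.a en v = w v) ∧ Fr VS {en} σ ρ
  have hstep : ∀ i < cp, ∀ ρ, I i ρ → ∃ τ, Reach body ρ (lnCo body) τ ∧ I (i + 1) τ := by
    rintro i hi ρ ⟨i43, i44, i45, i46, i47, i48, i50, icv, ien, ien', ifr⟩
    refine ⟨lnEx body ρ, ln_reach body rfl ρ, ?_⟩
    have fv : ∀ v, (v < 43 ∨ 100 ≤ v) → v ≠ cv → ρ.v v = σ.v v := by
      intro v q1 q2
      refine ifr.v v ?_
      simp only [hVS, Set.mem_union, Set.mem_ofPred_eq, Set.mem_singleton_iff, not_or]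
      omega
    have hTρ : StoredAt ρ ta 0 T := by
      intro k hk
      rw [ifr.a ta (by simpa using h4)]
      exact hT k hk
    have hlρ : ρ.v tl = T.length := by rw [fv tl (by omega) (Ne.symm h10), hl]
    have hbρ : ρ.a ad (i / 2) = if b (i / 2) then 1 else 0 := by
      rw [ifr.a ad (by simpa using Ne.symm h5)]
      exact hb _ (by omega)
    obtain ⟨a1, a2, a3, a4, a5⟩ := ln_bit ta tl ad cv j h6 h7 ρ T (cst bit c (min i (lev T))) i
      par b hTρ hlρ icv i46 i47 i48 hbρ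
    set q : Bool := (if meP par i then decide (i < lev T) &&
      decide (0 < fld T (cst bit c (min i (lev T))) j) else b (i / 2)) with hq
    set ρ1 := lnEx (lnBit ta tl ad cv j) ρ with hρ1
    obtain ⟨b1, b2, b3, b4, b5⟩ := ln_code cv h7 ρ1 (cst bit c (min i (lev T))) q
      (by rw [a2 cv (by omega) (by omega), icv]) (by rw [a2 44 (by norm_num) (by norm_num), i44]) a1
    set ρ2 := lnEx (lnCode cv) ρ1 with hρ2
    have c43 : ρ2.v 43 = i := by
      rw [b2 43 n43, a2 43 (by norm_num) (by norm_num), i43]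
    have c41 : ρ2.v 41 = t := by
      rw [b2 41 n41, a2 41 (by norm_num) (by norm_num), fv 41 (by norm_num) n41, h41]
    have c49 : 0 < ρ2.v 49 ↔ q = true := by
      rw [b2 49 n49]
      exact a1
    have cen : ρ2.a en i = w i := by
      rw [b3, a3]
      exact ien' i le_rfl hi
    obtain ⟨d1, d2, d3, d4, d5, d6⟩ := ln_rec en ρ2 i t q (w i) c43 c41 c49 cen
    set ρ3 := lnEx (lnRec en) ρ2 with hρ3
    have e3 : ∀ u, u ≠ 49 → u < 51 → u ≠ cv → ρ3.v u = ρ.v u := by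
      intro u q1 q2 q3
      rw [d4 u (by omega) (by omega), b2 u q3, a2 u q1 (by omega)]
    have f43 : ρ3.v 43 = i := by rw [e3 43 (by norm_num) (by norm_num) n43, i43]
    have f44 : ρ3.v 44 = 1 := by rw [e3 44 (by norm_num) (by norm_num) n44, i44]
    have f45 : ρ3.v 45 = (cp : ℤ) - i := by rw [e3 45 (by norm_num) (by norm_num) n45, i45]
    have f46 : ρ3.v 46 = (lev T : ℤ) - i := by rw [e3 46 (by norm_num) (by norm_num) n46, i46]
    have f47 : ρ3.v 47 = ((i / 2 : ℕ) : ℤ) := by rw [e3 47 (by norm_num) (by norm_num) n47, i47]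
    have f48 : ρ3.v 48 = if meP par i then 1 else 0 := by
      rw [e3 48 (by norm_num) (by norm_num) n48, i48]
    have f50 : ρ3.v 50 = ((i % 2 : ℕ) : ℤ) := by rw [e3 50 (by norm_num) (by norm_num) n50, i50]
    have fcv : ρ3.v cv = cst bit c (min (i + 1) (lev T)) := by
      rw [d4 cv (by omega) (by omega), b1]
      have g46 : ρ1.v 46 = (lev T : ℤ) - i := by
        rw [a2 46 (by norm_num) (by norm_num), i46]
      rw [g46]
      by_cases hik : i < lev T
      · have p : (0 : ℤ) < (lev T : ℤ) - i := by omega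
        rw [if_pos p, min_eq_left (by omega : i + 1 ≤ lev T)]
        have hqq : q = bit i (cst bit c i) := by
          rw [hq, min_eq_left (by omega : i ≤ lev T)]
        rw [hqq, min_eq_left (by omega : i ≤ lev T)]
        rfl
      · have p : ¬ (0 : ℤ) < (lev T : ℤ) - i := by omega
        rw [if_neg p, min_eq_right (by omega : lev T ≤ i), min_eq_right (by omega : lev T ≤ i + 1)]
    set s1 := ρ3.sv 43 (ρ3.v 43 + ρ3.v 44) with hs1
    set s2 := s1.sv 45 (s1.v 45 - s1.v 44) with hs2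
    set s3 := s2.sv 46 (s2.v 46 - s2.v 44) with hs3
    set s4 := s3.sv 47 (s3.v 47 + s3.v 50) with hs4
    set s5 := s4.sv 50 (s4.v 44 - s4.v 50) with hs5
    set s6 := s5.sv 48 (s5.v 44 - s5.v 48) with hs6
    have hE : lnEx body ρ = s6 := rfl
    rw [hE]
    have hsa : s6.a = ρ3.a := rfl
    have hqb : ∀ (h : i < cp), (if w i < 0 ∧ q = true then (t : ℤ) else w i) =
        if w i < 0 ∧ bit i (cst bit c i) = true then (t : ℤ) else w i := by
      intro _
      by_cases hik : i < lev T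
      · have hqq : q = bit i (cst bit c i) := by
          rw [hq, min_eq_left (by omega : i ≤ lev T)]
        rw [hqq]
      · have hqq : q = bit i (cst bit c i) := by
          rw [hq]
          simp only [hbit]
          by_cases hm : meP par i = true
          · simp [hm, hik]
          · simp [hm]
        rw [hqq]
    refine ⟨?_, ?_, ?_, ?_, ?_, ?_, ?_, ?_, ?_, ?_, ?_⟩
    · simp [hs6, hs5, hs4, hs3, hs2, hs1, ln_sv, f43, f44]
    · simp [hs6, hs5, hs4, hs3, hs2, hs1, ln_sv, f44]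
    · simp [hs6, hs5, hs4, hs3, hs2, hs1, ln_sv, f44, f45]
      ring
    · simp [hs6, hs5, hs4, hs3, hs2, hs1, ln_sv, f44, f46]
      ring
    · have e : s6.v 47 = ((i / 2 : ℕ) : ℤ) + ((i % 2 : ℕ) : ℤ) := by
        simp [hs6, hs5, hs4, hs3, hs2, hs1, ln_sv, f47, f50]
      rw [e]
      omega
    · have e : s6.v 48 = 1 - (if meP par i then 1 else 0) := by
        simp [hs6, hs5, hs4, hs3, hs2, hs1, ln_sv, f44, f48]
      rw [e]
      exact ln_meP par i
    · have e : s6.v 50 = 1 - ((i % 2 : ℕ) : ℤ) := by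
        simp [hs6, hs5, hs4, hs3, hs2, hs1, ln_sv, f44, f50]
      rw [e]
      omega
    · have m43 : cv ≠ 43 := by omega
      have m45 : cv ≠ 45 := by omega
      have m46 : cv ≠ 46 := by omega
      have m47 : cv ≠ 47 := by omega
      have m48 : cv ≠ 48 := by omega
      have m50 : cv ≠ 50 := by omega
      simp [hs6, hs5, hs4, hs3, hs2, hs1, ln_sv, m43, m45, m46, m47, m48, m50, fcv]
    · intro v hv
      rw [hsa]
      by_cases hvi : v = i
      · rw [hvi, d1]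
        exact hqb hi
      · rw [d2 v hvi, b3, a3]
        exact ien v (by omega)
    · intro v hv hv'
      rw [hsa, d2 v (by omega), b3, a3]
      exact ien' v (by omega) hv'
    · refine ifr.trans ⟨?_, ?_, ?_, ?_⟩
      · intro v hv
        obtain ⟨q1, q2⟩ := inVS v hv
        have m43 : v ≠ 43 := by omega
        have m45 : v ≠ 45 := by omega
        have m46 : v ≠ 46 := by omega
        have m47 : v ≠ 47 := by omega
        have m48 : v ≠ 48 := by omega
        have m50 : v ≠ 50 := by omega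
        have e : s6.v v = ρ3.v v := by
          simp [hs6, hs5, hs4, hs3, hs2, hs1, ln_sv, m43, m45, m46, m47, m48, m50]
        rw [e, d4 v (by omega) (by omega), b2 v q2, a2 v (by omega) (by omega)]
      · intro a ha
        have ha' : a ≠ en := by simpa using ha
        rw [hsa, d3 a ha', b3, a3]
      · show ρ3.inp = ρ.inp
        rw [d5, b4, a4]
      · show ρ3.out = ρ.out
        rw [d6, b5, a5]
  set σ1 := σ.sv 43 0 with hσ1
  set σ2 := σ1.sv 44 1 with hσ2
  set σ3 := σ2.sv 45 (σ2.v cpv) with hσ3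
  set σ4 := σ3.sv 46 (σ3.v lv) with hσ4
  set σ5 := σ4.sv 47 0 with hσ5
  set σ6 := σ5.sv 48 (if par then 1 else 0) with hσ6
  set σ7 := σ6.sv 50 0 with hσ7
  have p43 : cpv ≠ 43 := by omega
  have p44 : cpv ≠ 44 := by omega
  have l43 : lv ≠ 43 := by omega
  have l44 : lv ≠ 44 := by omega
  have l45 : lv ≠ 45 := by omega
  have hI0 : I 0 σ7 := by
    refine ⟨?_, ?_, ?_, ?_, ?_, ?_, ?_, ?_, ?_, ?_, ?_⟩
    · simp [hσ7, hσ6, hσ5, hσ4, hσ3, hσ2, hσ1, ln_sv]
    · simp [hσ7, hσ6, hσ5, hσ4, hσ3, hσ2, hσ1, ln_sv]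
    · simp [hσ7, hσ6, hσ5, hσ4, hσ3, hσ2, hσ1, ln_sv, p43, p44, hcp]
    · simp [hσ7, hσ6, hσ5, hσ4, hσ3, hσ2, hσ1, ln_sv, l43, l44, l45, hlev]
    · simp [hσ7, hσ6, hσ5, hσ4, hσ3, hσ2, hσ1, ln_sv]
    · have e : σ7.v 48 = if par then 1 else 0 := by
        simp [hσ7, hσ6, hσ5, hσ4, hσ3, hσ2, hσ1, ln_sv]
      rw [e]
      unfold meP
      cases par <;> simp
    · simp [hσ7, hσ6, hσ5, hσ4, hσ3, hσ2, hσ1, ln_sv]
    · simp [hσ7, hσ6, hσ5, hσ4, hσ3, hσ2, hσ1, ln_sv, n43.symm, n44.symm, n45.symm, n46.symm,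
        n47.symm, n48.symm, n50.symm, hc, cst]
    · intro v hv
      omega
    · intro v _ hv
      exact hw v hv
    · refine ⟨?_, fun _ _ => rfl, rfl, rfl⟩
      intro v hv
      obtain ⟨q1, q2⟩ := inVS v hv
      have m43 : v ≠ 43 := by omega
      have m44 : v ≠ 44 := by omega
      have m45 : v ≠ 45 := by omega
      have m46 : v ≠ 46 := by omega
      have m47 : v ≠ 47 := by omega
      have m48 : v ≠ 48 := by omega
      have m50 : v ≠ 50 := by omega
      simp [hσ7, hσ6, hσ5, hσ4, hσ3, hσ2, hσ1, ln_sv, m43, m44, m45, m46, m47, m48, m50]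
  obtain ⟨τ, rτ, t43, t44, t45, t46, t47, t48, t50, tcv, ten, ten', tfr⟩ :=
    Reach.loop (v := 45) (s := body) cp I (fun _ => lnCo body)
    (by
      rintro i hi ρ ⟨-, -, i45, -⟩
      rw [i45]
      omega)
    (by
      rintro ρ ⟨-, -, i45, -⟩
      rw [i45]
      omega) hstep σ7 hI0
  refine ⟨τ, ?_, ?_, ?_, tfr⟩
  · have h0 : Reach (.const 43 0) σ 1 σ1 := ⟨1, le_rfl, Big.const σ 43 0⟩
    have h1' : Reach (.const 44 1) σ1 1 σ2 := ⟨1, le_rfl, Big.const σ1 44 1⟩
    have h2' : Reach (.mov 45 cpv) σ2 1 σ3 := ⟨1, le_rfl, Big.mov σ2 45 cpv⟩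
    have h3' : Reach (.mov 46 lv) σ3 1 σ4 := ⟨1, le_rfl, Big.mov σ3 46 lv⟩
    have h4' : Reach (.const 47 0) σ4 1 σ5 := ⟨1, le_rfl, Big.const σ4 47 0⟩
    have h5' : Reach (.const 48 (if par then 1 else 0)) σ5 1 σ6 := ⟨1, le_rfl, Big.const σ5 48 _⟩
    have h6' : Reach (.const 50 0) σ6 1 σ7 := ⟨1, le_rfl, Big.const σ6 50 0⟩
    refine (h0.seq (h1'.seq (h2'.seq (h3'.seq (h4'.seq (h5'.seq (h6'.seq rτ))))))).mono ?_
    simp only [Finset.sum_const, Finset.card_range, smul_eq_mul]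
    ring_nf
    omega
  · rw [tcv, min_eq_right hle]
  · exact ten

end Pool.Agent.H71.CT
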