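import Pool.Agent.H71.CT.ChainEx
import Pool.Agent.H71.CT.ChainAuto
import Pool.Agent.H71.CT.Final

/-! The main theorem. -/

namespace Pool.Agent.H71.CT

open Filter

private theorem main_exp (k : ℕ) : 2 * M (k + 1) ≤ 2 ^ k + 60 := by
  have big : ∀ j : ℕ, 2 * M (j + 9) ≤ 2 ^ (j + 8) := by
    intro j
    induction j with
    | zero => decide
    | succ j ih =>
      unfold M at ih ⊢
      have e : 2 ^ (j + 1 + 8) = 2 * 2 ^ (j + 8) := by
        rw [← pow_succ']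
      rw [e]
      generalize 2 ^ (j + 8) = P at *
      nlinarith
  rcases Nat.lt_or_ge k 8 with h | h
  · interval_cases k <;> decide
  · obtain ⟨j, rfl⟩ := Nat.exists_eq_add_of_le' h
    exact (big j).trans (Nat.le_add_right _ _)

private theorem main_cap (n : ℕ) : 2 * M (cap n) ≤ s0 n + 60 := by
  rcases Nat.eq_zero_or_pos (s0 n) with h | h
  · have h1 : cap n = 0 := by
      unfold cap
      unfold s0 at h
      rw [h]
      exact Nat.size_zero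
    rw [h1]
    show 2 * (0 * (0 + 1)) ≤ _
    omega
  · have h1 : 0 < cap n := by
      unfold cap
      unfold s0 at h
      exact Nat.size_pos.2 h
    obtain ⟨k, hk⟩ : ∃ k, cap n = k + 1 := ⟨cap n - 1, by omega⟩
    rw [hk]
    refine (main_exp k).trans (Nat.add_le_add_right ?_ 60)
    have h2 : k < Nat.size (Nat.size n) := by
      unfold cap at hk
      omega
    exact Nat.lt_size.1 h2

/-- There is a moving correspondence. -/
theorem exists_moving : ∃ (R : ℕ → ℕ → Prop) (e e' : ℕ), IsAuto R ∧ R e e' ∧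
    Ole (fun n => 2 ^ n) (ck e) ∧ Ole (ck e') (fun n => n ^ 2) := by
  obtain ⟨K0, hc, hK, hcap, hJ⟩ := jr_base
  obtain ⟨e0, he0, ho, -⟩ := tc_index tc_exp
  obtain ⟨A, B, F, G, hch, hF, hG⟩ := chain_exists hc hK hcap hJ he0
  obtain ⟨ι, -, hι⟩ := side_index hK (hch.right 1)
  obtain ⟨ht, ⟨C1, h1⟩, h2⟩ := hι (2 * e0)
  have hb : ∀ n, B 1 (2 * e0) n ≤ G 1 n := fun n => (side_bounds (hch.right 1) (2 * e0) n).2
  refine ⟨_, e0, ι (2 * e0), chain_auto hK hch, ⟨1, he0, ht, ⟨0, fun n => hF n⟩,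
    ⟨C1, fun n => (h1 n).trans (Nat.add_le_add_right (hb n) C1)⟩, h2, ⟨C1, h1⟩⟩, ho, ?_⟩
  obtain ⟨C, h3⟩ := ck_le_tt hK ht
  refine ⟨C * 2 ^ (60 + C1) * 8, fun n => ?_⟩
  have h4 : tt K0 (ι (2 * e0)) n ≤ 2 * s0 n + (60 + C1) := by
    have := h1 n
    have := hb n
    have := hG n
    have := main_cap n
    omega
  have h5 : 2 ^ s0 n ≤ 2 * n + 1 := two_pow_s0_le n
  have h6 : 2 ^ tt K0 (ι (2 * e0)) n ≤ 2 ^ (60 + C1) * (2 * n + 1) ^ 2 := by
    calc 2 ^ tt K0 (ι (2 * e0)) n ≤ 2 ^ (2 * s0 n + (60 + C1)) :=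
          Nat.pow_le_pow_right (by norm_num) h4
      _ = 2 ^ (60 + C1) * (2 ^ s0 n) ^ 2 := by
          rw [pow_add, ← pow_mul, mul_comm (2 ^ (2 * s0 n)), mul_comm 2 (s0 n)]
      _ ≤ 2 ^ (60 + C1) * (2 * n + 1) ^ 2 :=
          Nat.mul_le_mul_left _ (Nat.pow_le_pow_left h5 2)
  have h7 : (2 * n + 1) ^ 2 ≤ 8 * (n ^ 2 + 1) := by nlinarith [sq_nonneg ((n : ℤ) - 1)]
  calc ck (ι (2 * e0)) n ≤ C * 2 ^ tt K0 (ι (2 * e0)) n := h3 n
    _ ≤ C * (2 ^ (60 + C1) * (2 * n + 1) ^ 2) := Nat.mul_le_mul_left _ h6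
    _ ≤ C * (2 ^ (60 + C1) * (8 * (n ^ 2 + 1))) :=
        Nat.mul_le_mul_left _ (Nat.mul_le_mul_left _ h7)
    _ = C * 2 ^ (60 + C1) * 8 * (n ^ 2 + 1) := by ring

theorem main : ∃ (π : CType ≃o CType) (C : CType), InP C ∧ ¬ InP (π C) := by
  obtain ⟨R, e, e', hR, h, h1, h2⟩ := exists_moving
  exact final_of R hR e e' h h1 h2

end Pool.Agent.H71.CT
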