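import Pool.Agent.H71.CT.Boards

/-! States are primitive recursive. -/

namespace Pool.Agent.H71.CT

private theorem primA_replicate : Primrec (fun a : ℕ × List Bool => List.replicate a.1 a.2) := by
  have h : Primrec (fun a : ℕ × List Bool => (List.range a.1).map (fun _ => a.2)) :=
    Primrec.list_map (f := fun a : ℕ × List Bool => List.range a.1) (g := fun a _ => a.2)
      (Primrec.list_range.comp Primrec.fst) (Primrec.snd.comp Primrec.fst).to₂
  refine h.of_eq ?_
  rintro ⟨n, b⟩
  simp

theorem primrec_ext : Primrec (fun a : ℕ × Q × List Bool => ext a.1 a.2.1 a.2.2) := by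
  have hk : Primrec (fun a : ℕ × Q × List Bool => a.1) := Primrec.fst
  have hq : Primrec (fun a : ℕ × Q × List Bool => a.2.1) := Primrec.fst.comp Primrec.snd
  have hm : Primrec (fun a : ℕ × Q × List Bool => a.2.2) := Primrec.snd.comp Primrec.snd
  have h1 : Primrec (fun a : ℕ × Q × List Bool => a.2.1.take a.1) :=
    Primrec.list_take.comp hk hq
  have h2 : Primrec (fun a : ℕ × Q × List Bool => List.replicate a.1 a.2.2) :=
    primA_replicate.comp (hk.pair hm)
  exact Primrec.ite (Primrec.eq.comp h1 h2) hq (Primrec.list_cons.comp hm hq)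

theorem primrec_res : Primrec (fun a : ℕ × Q => res a.1 a.2) := by
  have h : Primrec₂ (fun (a : ℕ × Q) (b : List Bool × Q) => ext a.1 b.2 (b.1.take a.1)) := by
    have hk : Primrec (fun p : (ℕ × Q) × (List Bool × Q) => p.1.1) :=
      Primrec.fst.comp Primrec.fst
    have hm : Primrec (fun p : (ℕ × Q) × (List Bool × Q) => p.2.1) :=
      Primrec.fst.comp Primrec.snd
    have hq : Primrec (fun p : (ℕ × Q) × (List Bool × Q) => p.2.2) :=
      Primrec.snd.comp Primrec.snd
    exact primrec_ext.comp (hk.pair (hq.pair (Primrec.list_take.comp hk hm)))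
  exact Primrec.list_foldr (f := fun a : ℕ × Q => a.2) (g := fun _ => ([] : Q))
    Primrec.snd (Primrec.const []) h

theorem primrec_stN : Primrec (fun a : ℕ × List Bool × ℕ => stN a.1 a.2.1 a.2.2) := by
  have h : Primrec₂ (fun (a : ℕ × List Bool × ℕ) (b : ℕ × Q) =>
      ext a.1 b.2 ((a.2.1.drop (b.1 * a.1)).take a.1)) := by
    have hk : Primrec (fun p : (ℕ × List Bool × ℕ) × (ℕ × Q) => p.1.1) :=
      Primrec.fst.comp Primrec.fst
    have hl : Primrec (fun p : (ℕ × List Bool × ℕ) × (ℕ × Q) => p.1.2.1) :=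
      Primrec.fst.comp (Primrec.snd.comp Primrec.fst)
    have hi : Primrec (fun p : (ℕ × List Bool × ℕ) × (ℕ × Q) => p.2.1) :=
      Primrec.fst.comp Primrec.snd
    have hq : Primrec (fun p : (ℕ × List Bool × ℕ) × (ℕ × Q) => p.2.2) :=
      Primrec.snd.comp Primrec.snd
    exact primrec_ext.comp (hk.pair (hq.pair (Primrec.list_take.comp hk
      (Primrec.list_drop.comp (Primrec.nat_mul.comp hi hk) hl))))
  have h2 := Primrec.nat_rec' (f := fun a : ℕ × List Bool × ℕ => a.2.2)
    (g := fun _ => ([] : Q)) (Primrec.snd.comp Primrec.snd) (Primrec.const []) h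
  refine h2.of_eq ?_
  rintro ⟨K, l, i⟩
  show Nat.rec (motive := fun _ => Q) [] (fun n IH => ext K IH ((l.drop (n * K)).take K)) i =
    stN K l i
  induction i with
  | zero => rfl
  | succ i ih =>
    show ext K _ _ = ext K _ _
    rw [ih]

theorem primrec_stOf : Primrec (fun a : ℕ × List Bool => stOf a.1 a.2) := by
  have h : Primrec (fun a : ℕ × List Bool => a.2.length / a.1) :=
    Primrec.nat_div.comp (Primrec.list_length.comp Primrec.snd) Primrec.fst
  exact primrec_stN.comp (Primrec.fst.pair (Primrec.snd.pair h))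

private theorem primA_bits_step (n : ℕ) (hn : n ≠ 0) :
    Nat.bits n = decide (n % 2 = 1) :: Nat.bits (n / 2) := by
  rcases Nat.even_or_odd' n with ⟨m, h | h⟩
  · subst h
    have hm : m ≠ 0 := by omega
    rw [Nat.bit0_bits m hm]
    have h1 : (2 * m) / 2 = m := by omega
    have h2 : (2 * m) % 2 = 0 := by omega
    rw [h1, h2]
    rfl
  · subst h
    rw [Nat.bit1_bits m]
    have h1 : (2 * m + 1) / 2 = m := by omega
    have h2 : (2 * m + 1) % 2 = 1 := by omega
    rw [h1, h2]
    rfl

private theorem primA_bits : Primrec Nat.bits := by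
  have hg : Primrec₂ (fun (_ : Unit) (L : List (List Bool)) =>
      if L.length = 0 then some [] else
        some (decide (L.length % 2 = 1) :: L.getD (L.length / 2) [])) := by
    have hL : Primrec (fun p : Unit × List (List Bool) => p.2) := Primrec.snd
    have hn : Primrec (fun p : Unit × List (List Bool) => p.2.length) :=
      Primrec.list_length.comp hL
    have h0 : PrimrecPred (fun p : Unit × List (List Bool) => p.2.length = 0) :=
      Primrec.eq.comp hn (Primrec.const 0)
    have h1 : Primrec (fun p : Unit × List (List Bool) => decide (p.2.length % 2 = 1)) :=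
      (Primrec.eq.comp (Primrec.nat_mod.comp hn (Primrec.const 2)) (Primrec.const 1)).decide
    have h2 : Primrec (fun p : Unit × List (List Bool) => p.2.getD (p.2.length / 2) []) :=
      (Primrec.list_getD []).comp hL (Primrec.nat_div.comp hn (Primrec.const 2))
    exact Primrec.ite h0 (Primrec.const (some []))
      (Primrec.option_some.comp (Primrec.list_cons.comp h1 h2))
  have h := Primrec.nat_strong_rec (fun (_ : Unit) n => Nat.bits n) hg (by
    intro _ n
    simp only [List.length_map, List.length_range]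
    by_cases hn : n = 0
    · subst hn
      simp
    · rw [if_neg hn, primA_bits_step n hn]
      have hlt : n / 2 < n := Nat.div_lt_self (Nat.pos_of_ne_zero hn) (by omega)
      have : ((List.range n).map (fun m => Nat.bits m)).getD (n / 2) [] = Nat.bits (n / 2) := by
        rw [List.getD_eq_getElem?_getD, List.getElem?_map, List.getElem?_range hlt]
        rfl
      rw [this])
  exact (h.comp (Primrec.const ()) Primrec.id)

theorem primrec_bitsOf : Primrec bitsOf := by
  exact Primrec.list_tail.comp (Primrec.list_reverse.comp primA_bits)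

private theorem primA_vec_congr {k : ℕ} {a b : ℕ → ℕ} (h : ∀ v < k, a v = b v) (s : ℕ) :
    vec k a s = vec k b s := by
  unfold vec
  apply List.map_congr_left
  intro v hv
  rw [h v (List.mem_range.1 hv)]

theorem hist_congr {k : ℕ} {a b : ℕ → ℕ} (h : ∀ v < k, a v = b v) (s0 t : ℕ) :
    hist k a s0 t = hist k b s0 t := by
  induction t with
  | zero => rfl
  | succ t ih =>
    show ext k _ _ = ext k _ _
    rw [ih, primA_vec_congr h]

theorem primrec_hist : Primrec (fun a : ℕ × List ℕ × ℕ × ℕ =>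
    hist a.1 (fun v => a.2.1.getD v 0) a.2.2.1 a.2.2.2) := by
  have hvec : Primrec (fun p : (ℕ × List ℕ × ℕ × ℕ) × (ℕ × Q) =>
      vec p.1.1 (fun v => p.1.2.1.getD v 0) (p.1.2.2.1 + p.2.1)) := by
    have hk : Primrec (fun p : (ℕ × List ℕ × ℕ × ℕ) × (ℕ × Q) => p.1.1) :=
      Primrec.fst.comp Primrec.fst
    have hl : Primrec (fun p : (ℕ × List ℕ × ℕ × ℕ) × (ℕ × Q) => p.1.2.1) :=
      Primrec.fst.comp (Primrec.snd.comp Primrec.fst)
    have hs : Primrec (fun p : (ℕ × List ℕ × ℕ × ℕ) × (ℕ × Q) => p.1.2.2.1) :=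
      Primrec.fst.comp (Primrec.snd.comp (Primrec.snd.comp Primrec.fst))
    have hn : Primrec (fun p : (ℕ × List ℕ × ℕ × ℕ) × (ℕ × Q) => p.2.1) :=
      Primrec.fst.comp Primrec.snd
    have hsn : Primrec (fun p : (ℕ × List ℕ × ℕ × ℕ) × (ℕ × Q) => p.1.2.2.1 + p.2.1) :=
      Primrec.nat_add.comp hs hn
    have hg : Primrec₂ (fun (p : (ℕ × List ℕ × ℕ × ℕ) × (ℕ × Q)) (v : ℕ) =>
        decide (p.1.2.1.getD v 0 ≤ p.1.2.2.1 + p.2.1)) := by
      have h1 : Primrec (fun r : ((ℕ × List ℕ × ℕ × ℕ) × (ℕ × Q)) × ℕ =>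
          r.1.1.2.1.getD r.2 0) :=
        (Primrec.list_getD 0).comp (hl.comp Primrec.fst) Primrec.snd
      have h2 : Primrec (fun r : ((ℕ × List ℕ × ℕ × ℕ) × (ℕ × Q)) × ℕ =>
          r.1.1.2.2.1 + r.1.2.1) := hsn.comp Primrec.fst
      exact (Primrec.nat_le.comp h1 h2).decide
    exact Primrec.list_map (Primrec.list_range.comp hk) hg
  have h : Primrec₂ (fun (a : ℕ × List ℕ × ℕ × ℕ) (b : ℕ × Q) =>
      ext a.1 b.2 (vec a.1 (fun v => a.2.1.getD v 0) (a.2.2.1 + b.1))) := by
    have hk : Primrec (fun p : (ℕ × List ℕ × ℕ × ℕ) × (ℕ × Q) => p.1.1) :=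
      Primrec.fst.comp Primrec.fst
    have hq : Primrec (fun p : (ℕ × List ℕ × ℕ × ℕ) × (ℕ × Q) => p.2.2) :=
      Primrec.snd.comp Primrec.snd
    exact primrec_ext.comp (hk.pair (hq.pair hvec))
  have h2 := Primrec.nat_rec' (f := fun a : ℕ × List ℕ × ℕ × ℕ => a.2.2.2)
    (g := fun _ => ([] : Q)) (Primrec.snd.comp (Primrec.snd.comp Primrec.snd))
    (Primrec.const []) h
  refine h2.of_eq ?_
  rintro ⟨k, l, s0, t⟩
  show Nat.rec (motive := fun _ => Q) []
    (fun n IH => ext k IH (vec k (fun v => l.getD v 0) (s0 + n))) t =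
      hist k (fun v => l.getD v 0) s0 t
  induction t with
  | zero => rfl
  | succ t ih =>
    show ext k _ _ = ext k _ _
    rw [ih]

end Pool.Agent.H71.CT
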