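import Pool.Agent.H71.CT.PrimA

/-! Payoffs are primitive recursive. -/

namespace Pool.Agent.H71.CT

/-- payoff from lists of states -/
def payL (PR : List Q × List Q) (q : Q) : ℕ :=
  payN PR.1.length (fun m => PR.1.getD m []) (fun m => PR.2.getD m []) q

private theorem pb_pow2 : Primrec (fun n : ℕ => 2 ^ n) := by
  have h : Primrec (fun n : ℕ => (Nat.rec 1 (fun _ ih => ih + ih) n : ℕ)) :=
    Primrec.nat_rec₁ 1 ((Primrec.nat_add.comp Primrec.snd Primrec.snd).to₂)
  refine h.of_eq fun n => ?_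
  induction n with
  | zero => rfl
  | succ n ih =>
    show (Nat.rec 1 (fun _ ih => ih + ih) n : ℕ) + (Nat.rec 1 (fun _ ih => ih + ih) n : ℕ) = _
    rw [ih, pow_succ]
    ring

/-- the count -/
private def pbC (k : ℕ) (L : List Q) (q : Q) (n : ℕ) : ℕ :=
  (List.range n).countP (fun m => decide (res k (L.getD m []) = res k q))

private theorem pb_C : Primrec (fun a : (ℕ × List Q) × (Q × ℕ) => pbC a.1.1 a.1.2 a.2.1 a.2.2) := by
  have h : Primrec₂ (fun (a : (ℕ × List Q) × (Q × ℕ)) (b : ℕ × ℕ) =>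
      b.2 + if res a.1.1 (a.1.2.getD b.1 []) = res a.1.1 a.2.1 then 1 else 0) := by
    have hk : Primrec (fun p : ((ℕ × List Q) × (Q × ℕ)) × (ℕ × ℕ) => p.1.1.1) :=
      Primrec.fst.comp (Primrec.fst.comp Primrec.fst)
    have hL : Primrec (fun p : ((ℕ × List Q) × (Q × ℕ)) × (ℕ × ℕ) => p.1.1.2) :=
      Primrec.snd.comp (Primrec.fst.comp Primrec.fst)
    have hq : Primrec (fun p : ((ℕ × List Q) × (Q × ℕ)) × (ℕ × ℕ) => p.1.2.1) :=
      Primrec.fst.comp (Primrec.snd.comp Primrec.fst)
    have hm : Primrec (fun p : ((ℕ × List Q) × (Q × ℕ)) × (ℕ × ℕ) => p.2.1) :=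
      Primrec.fst.comp Primrec.snd
    have hI : Primrec (fun p : ((ℕ × List Q) × (Q × ℕ)) × (ℕ × ℕ) => p.2.2) :=
      Primrec.snd.comp Primrec.snd
    have h1 : Primrec (fun p : ((ℕ × List Q) × (Q × ℕ)) × (ℕ × ℕ) =>
        res p.1.1.1 (p.1.1.2.getD p.2.1 [])) :=
      primrec_res.comp (hk.pair ((Primrec.list_getD ([] : Q)).comp hL hm))
    have h2 : Primrec (fun p : ((ℕ × List Q) × (Q × ℕ)) × (ℕ × ℕ) => res p.1.1.1 p.1.2.1) :=
      primrec_res.comp (hk.pair hq)
    exact Primrec.nat_add.comp hI (Primrec.ite (Primrec.eq.comp h1 h2) (Primrec.const 1)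
      (Primrec.const 0))
  have h2 := Primrec.nat_rec' (f := fun a : (ℕ × List Q) × (Q × ℕ) => a.2.2)
    (g := fun _ => (0 : ℕ)) (Primrec.snd.comp Primrec.snd) (Primrec.const 0) h
  refine h2.of_eq ?_
  rintro ⟨⟨k, L⟩, q, n⟩
  show Nat.rec (motive := fun _ => ℕ) 0 (fun m IH =>
    IH + if res k (L.getD m []) = res k q then 1 else 0) n = pbC k L q n
  induction n with
  | zero => rfl
  | succ n ih =>
    show Nat.rec (motive := fun _ => ℕ) 0 (fun m IH =>
      IH + if res k (L.getD m []) = res k q then 1 else 0) n + _ = _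
    rw [ih]
    unfold pbC
    rw [List.range_succ, List.countP_append, List.countP_singleton]
    simp only [decide_eq_true_eq]

theorem primrec_payL : Primrec (fun a : (List Q × List Q) × Q => payL a.1 a.2) := by
  have h : Primrec₂ (fun (a : (List Q × List Q) × Q) (b : ℕ × ℕ) =>
      b.2 + 2 ^ (a.1.1.length - b.1) * (2 ^ a.1.1.length +
        2 ^ (a.1.1.length - pbC b.1 a.1.2 a.2 a.1.1.length) -
        2 ^ (a.1.1.length - pbC b.1 a.1.1 a.2 a.1.1.length))) := by
    have hP : Primrec (fun p : ((List Q × List Q) × Q) × (ℕ × ℕ) => p.1.1.1) :=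
      Primrec.fst.comp (Primrec.fst.comp Primrec.fst)
    have hR : Primrec (fun p : ((List Q × List Q) × Q) × (ℕ × ℕ) => p.1.1.2) :=
      Primrec.snd.comp (Primrec.fst.comp Primrec.fst)
    have hq : Primrec (fun p : ((List Q × List Q) × Q) × (ℕ × ℕ) => p.1.2) :=
      Primrec.snd.comp Primrec.fst
    have hk : Primrec (fun p : ((List Q × List Q) × Q) × (ℕ × ℕ) => p.2.1) :=
      Primrec.fst.comp Primrec.snd
    have hI : Primrec (fun p : ((List Q × List Q) × Q) × (ℕ × ℕ) => p.2.2) :=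
      Primrec.snd.comp Primrec.snd
    have hK : Primrec (fun p : ((List Q × List Q) × Q) × (ℕ × ℕ) => p.1.1.1.length) :=
      Primrec.list_length.comp hP
    have cR : Primrec (fun p : ((List Q × List Q) × Q) × (ℕ × ℕ) =>
        pbC p.2.1 p.1.1.2 p.1.2 p.1.1.1.length) := pb_C.comp ((hk.pair hR).pair (hq.pair hK))
    have cP : Primrec (fun p : ((List Q × List Q) × Q) × (ℕ × ℕ) =>
        pbC p.2.1 p.1.1.1 p.1.2 p.1.1.1.length) := pb_C.comp ((hk.pair hP).pair (hq.pair hK))
    have e1 : Primrec (fun p : ((List Q × List Q) × Q) × (ℕ × ℕ) =>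
        2 ^ (p.1.1.1.length - p.2.1)) := pb_pow2.comp (Primrec.nat_sub.comp hK hk)
    have e2 : Primrec (fun p : ((List Q × List Q) × Q) × (ℕ × ℕ) => 2 ^ p.1.1.1.length) :=
      pb_pow2.comp hK
    have e3 : Primrec (fun p : ((List Q × List Q) × Q) × (ℕ × ℕ) =>
        2 ^ (p.1.1.1.length - pbC p.2.1 p.1.1.2 p.1.2 p.1.1.1.length)) :=
      pb_pow2.comp (Primrec.nat_sub.comp hK cR)
    have e4 : Primrec (fun p : ((List Q × List Q) × Q) × (ℕ × ℕ) =>
        2 ^ (p.1.1.1.length - pbC p.2.1 p.1.1.1 p.1.2 p.1.1.1.length)) :=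
      pb_pow2.comp (Primrec.nat_sub.comp hK cP)
    exact Primrec.nat_add.comp hI (Primrec.nat_mul.comp e1
      (Primrec.nat_sub.comp (Primrec.nat_add.comp e2 e3) e4))
  have h2 := Primrec.nat_rec' (f := fun a : (List Q × List Q) × Q => a.1.1.length)
    (g := fun _ => (0 : ℕ)) (Primrec.list_length.comp (Primrec.fst.comp Primrec.fst))
    (Primrec.const 0) h
  refine h2.of_eq ?_
  rintro ⟨⟨P, R⟩, q⟩
  have hn : ∀ n : ℕ, Nat.rec (motive := fun _ => ℕ) 0 (fun k IH =>
      IH + 2 ^ (P.length - k) * (2 ^ P.length + 2 ^ (P.length - pbC k R q P.length) -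
        2 ^ (P.length - pbC k P q P.length))) n =
      ∑ k ∈ Finset.range n, 2 ^ (P.length - k) * (2 ^ P.length +
        2 ^ (P.length - pbC k R q P.length) - 2 ^ (P.length - pbC k P q P.length)) := by
    intro n
    induction n with
    | zero => rfl
    | succ n ih =>
      rw [Finset.sum_range_succ, ← ih]
  exact hn P.length

theorem payN_congr {K : ℕ} {P P' R R' : ℕ → Q} (h : ∀ m < K, P m = P' m)
    (h' : ∀ m < K, R m = R' m) (q : Q) : payN K P R q = payN K P' R' q := by
  unfold payN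
  refine Finset.sum_congr rfl fun k _ => ?_
  have e1 : (List.range K).countP (fun m => decide (res k (R m) = res k q)) =
      (List.range K).countP (fun m => decide (res k (R' m) = res k q)) := by
    refine List.countP_congr fun m hm => ?_
    rw [h' m (List.mem_range.1 hm)]
  have e2 : (List.range K).countP (fun m => decide (res k (P m) = res k q)) =
      (List.range K).countP (fun m => decide (res k (P' m) = res k q)) := by
    refine List.countP_congr fun m hm => ?_
    rw [h m (List.mem_range.1 hm)]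
  rw [e1, e2]

end Pool.Agent.H71.CT
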