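import Pool.Agent.H71.CT.PrimW

/-! The strategy table is primitive recursive. -/

namespace Pool.Agent.H71.CT

private theorem primT_pow {α : Type} [Primcodable α] {f : α → ℕ} (hf : Primrec f) : Primrec fun a => 2 ^ f a := by
  refine (Primrec.nat_rec' (f := f) (g := fun _ => 1) (h := fun _ p => 2 * p.2) hf (Primrec.const 1)
    (Primrec.nat_mul.comp (Primrec.const 2) (Primrec.snd.comp Primrec.snd))).of_eq fun a => ?_
  induction f a with
  | zero => rfl
  | succ n ih =>
    rw [pow_succ, mul_comm, ← ih]

/-- table and history -/
private abbrev TB : Type := (List Q × List Q) × List Bool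

private theorem primT_K : Primrec (fun b : TB => b.1.1.length) :=
  Primrec.list_length.comp (Primrec.fst.comp Primrec.fst)

private theorem primT_len : Primrec (fun b : TB => b.2.length) := Primrec.list_length.comp Primrec.snd

private theorem primT_NB {α : Type} [Primcodable α] {f : α → ℕ} (hf : Primrec f) : Primrec fun a => NB (f a) := by
  unfold NB M
  exact Primrec.nat_mul.comp (Primrec.nat_mul.comp (Primrec.const 2)
    (Primrec.nat_mul.comp hf (Primrec.succ.comp hf))) hf

private theorem primT_forced : Primrec (fun b : TB => forced b.1.1.length b.2) := by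
  unfold forced
  exact Primrec.and.comp (Primrec.nat_le.comp primT_K primT_len).decide
    ((Primrec.list_getD false).comp Primrec.snd (Primrec.nat_sub.comp primT_len primT_K))

private theorem primT_W (par : Bool) {g : TB → ℕ} {h : TB → List Bool} (hg : Primrec g) (hh : Primrec h) :
    Primrec (fun b : TB => W (meP par) b.1.1.length (payL b.1) (g b) (h b)) :=
  (primrec_W par).comp (Primrec.pair Primrec.fst (Primrec.pair hg hh))

private theorem primT_j : Primrec (fun b : TB => NB b.1.1.length - b.2.length) :=
  Primrec.nat_sub.comp (primT_NB primT_K) primT_len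

private theorem primT_j1 : Primrec (fun b : TB => NB b.1.1.length - b.2.length - 1) :=
  Primrec.nat_sub.comp primT_j (Primrec.const 1)

private theorem primT_app (c : Bool) : Primrec (fun b : TB => b.2 ++ [c]) :=
  Primrec.list_concat.comp Primrec.snd (Primrec.const c)

private theorem primT_f0 (par : Bool) : Primrec (fun b : TB => f0 (meP par) b.1.1.length (payL b.1) b.2) := by
  unfold f0
  exact Primrec.ite (Primrec.eq.comp primT_forced (Primrec.const true)) (Primrec.const 1)
    (Primrec.ite (Primrec.nat_lt.comp (primT_W par primT_j1 (primT_app true)) (primT_W par primT_j1 (primT_app false)))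
      (Primrec.const 1) (Primrec.const 0))

private theorem primT_f1 (par : Bool) : Primrec (fun b : TB => f1 (meP par) b.1.1.length (payL b.1) b.2) := by
  unfold f1
  exact Primrec.ite (Primrec.eq.comp primT_forced (Primrec.const true)) (Primrec.const 1)
    (Primrec.ite (Primrec.nat_lt.comp (primT_W par primT_j1 (primT_app false)) (primT_W par primT_j1 (primT_app true)))
      (Primrec.const 1) (Primrec.const 0))

private theorem primT_f2 (par : Bool) : Primrec (fun b : TB => f2 (meP par) b.1.1.length (payL b.1) b.2) := by
  unfold f2
  have h1 : Primrec (fun b : TB => payL b.1 (stOf b.1.1.length b.2)) :=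
    primrec_payL.comp (Primrec.pair Primrec.fst (primrec_stOf.comp (Primrec.pair primT_K Primrec.snd)))
  exact Primrec.ite (Primrec.nat_lt.comp h1 (primT_W par primT_j Primrec.snd)) (Primrec.const 1) (Primrec.const 0)

private theorem primT_f3 : Primrec (fun b : TB => f3 b.1.1.length b.2) := by
  unfold f3
  have hd : Primrec (fun b : TB => b.2.length / b.1.1.length) := Primrec.nat_div.comp primT_len primT_K
  have h1 : Primrec (fun b : TB => stN b.1.1.length b.2 (b.2.length / b.1.1.length)) :=
    primrec_stN.comp (Primrec.pair primT_K (Primrec.pair Primrec.snd hd))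
  have h2 : Primrec (fun b : TB => stN b.1.1.length b.2 (b.2.length / b.1.1.length - 1)) :=
    primrec_stN.comp (Primrec.pair primT_K (Primrec.pair Primrec.snd (Primrec.nat_sub.comp hd (Primrec.const 1))))
  refine Primrec.ite (PrimrecPred.and (Primrec.nat_lt.comp (Primrec.const 0) primT_len)
    (PrimrecPred.and (Primrec.eq.comp (Primrec.nat_mod.comp primT_len primT_K) (Primrec.const 0))
      (Primrec.eq.comp h1 h2))) (Primrec.const 1) (Primrec.const 0)

theorem primrec_mkT (par : Bool) : Primrec (fun a : List Q × List Q =>
    mkT (meP par) a.1.length (payL a)) := by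
  unfold mkT
  have hK : Primrec (fun a : List Q × List Q => a.1.length) := Primrec.list_length.comp Primrec.fst
  have hb : Primrec (fun p : (List Q × List Q) × ℕ => ((p.1, bitsOf p.2) : TB)) :=
    Primrec.pair Primrec.fst (primrec_bitsOf.comp Primrec.snd)
  have h0 := (primT_f0 par).comp hb
  have h1 := (primT_f1 par).comp hb
  have h2 := (primT_f2 par).comp hb
  have h3 := primT_f3.comp hb
  refine Primrec.list_cons.comp hK (Primrec.list_flatMap
    (Primrec.list_range.comp (primT_pow (Primrec.succ.comp (primT_NB hK)))) ?_)
  exact Primrec.list_cons.comp h0 (Primrec.list_cons.comp h1 (Primrec.list_cons.comp h2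
    (Primrec.list_cons.comp h3 (Primrec.const []))))

end Pool.Agent.H71.CT
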