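import Pool.Agent.H71.CT.PrimB

/-! The value function on histories is primitive recursive. -/

namespace Pool.Agent.H71.CT

private theorem pw_pow {α : Type} [Primcodable α] {f : α → ℕ} (hf : Primrec f) :
    Primrec fun a => 2 ^ f a := by
  refine (Primrec.nat_rec' (f := f) (g := fun _ => 1) (h := fun _ p => 2 * p.2) hf
    (Primrec.const 1) (Primrec.nat_mul.comp (Primrec.const 2)
      (Primrec.snd.comp Primrec.snd))).of_eq fun a => ?_
  induction f a with
  | zero => rfl
  | succ n ih =>
    rw [pow_succ, mul_comm, ← ih]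

/-- the word number `p` of length `n` -/
private def pwWd (n p : ℕ) : List Bool :=
  (List.range n).map (fun q => decide (p / 2 ^ (n - 1 - q) % 2 = 1))

private theorem pwWd_succ (n p : ℕ) (b : Bool) :
    pwWd (n + 1) (2 * p + b.toNat) = pwWd n p ++ [b] := by
  unfold pwWd
  rw [List.range_succ, List.map_append, List.map_cons, List.map_nil]
  congr 1
  · apply List.map_congr_left
    intro q hq
    rw [List.mem_range] at hq
    have h1 : n + 1 - 1 - q = (n - 1 - q) + 1 := by omega
    have h2 : (2 * p + b.toNat) / 2 = p := by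
      cases b
      · simp
      · simp only [Bool.toNat_true]; omega
    rw [h1, pow_succ', ← Nat.div_div_eq_div_mul, h2]
  · have h1 : n + 1 - 1 - n = 0 := by omega
    rw [h1, pow_zero, Nat.div_one]
    cases b
    · simp
    · simp

private theorem pwWd_prim : Primrec (fun a : ℕ × ℕ => pwWd a.1 a.2) := by
  unfold pwWd
  refine Primrec.list_map (Primrec.list_range.comp Primrec.fst) ?_
  have h1 : Primrec (fun r : (ℕ × ℕ) × ℕ => r.1.1 - 1 - r.2) :=
    Primrec.nat_sub.comp (Primrec.nat_sub.comp (Primrec.fst.comp Primrec.fst) (Primrec.const 1))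
      Primrec.snd
  have h2 : Primrec (fun r : (ℕ × ℕ) × ℕ => r.1.2 / 2 ^ (r.1.1 - 1 - r.2) % 2) :=
    Primrec.nat_mod.comp (Primrec.nat_div.comp (Primrec.snd.comp Primrec.fst) (pw_pow h1))
      (Primrec.const 2)
  exact (Primrec.eq.comp h2 (Primrec.const 1)).decide

private theorem pw_meP (par : Bool) : Primrec (meP par) := by
  have h : Primrec (fun v : ℕ => decide (v % 2 = 0)) :=
    (Primrec.eq.comp (Primrec.nat_mod.comp Primrec.id (Primrec.const 2)) (Primrec.const 0)).decide
  cases par
  · refine (Primrec.not.comp h).of_eq fun v => ?_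
    unfold meP
    cases decide (v % 2 = 0) <;> rfl
  · refine h.of_eq fun v => ?_
    unfold meP
    cases decide (v % 2 = 0) <;> rfl

/-- the combination of the two values -/
private def pwC (par : Bool) (PR : List Q × List Q) (l : List Bool) (wt wf : ℕ) : ℕ :=
  if l.length % PR.1.length = 0 then
    max (payL PR (stOf PR.1.length l))
      (if decide (PR.1.length ≤ l.length) && l.getD (l.length - PR.1.length) false then wt
       else if meP par (l.length % PR.1.length) then max wf wt else min wf wt)
  else
    (if decide (PR.1.length ≤ l.length) && l.getD (l.length - PR.1.length) false then wt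
       else if meP par (l.length % PR.1.length) then max wf wt else min wf wt)

private theorem pwC_eq (par : Bool) (PR : List Q × List Q) (j : ℕ) (l : List Bool) :
    W (meP par) PR.1.length (payL PR) (j + 1) l =
      pwC par PR l (W (meP par) PR.1.length (payL PR) j (l ++ [true]))
        (W (meP par) PR.1.length (payL PR) j (l ++ [false])) := rfl

private theorem pwC_prim (par : Bool) {α : Type} [Primcodable α] {f : α → List Q × List Q}
    {g : α → List Bool} {wt wf : α → ℕ} (hf : Primrec f) (hg : Primrec g) (ht : Primrec wt)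
    (hw : Primrec wf) : Primrec (fun a => pwC par (f a) (g a) (wt a) (wf a)) := by
  have hK : Primrec (fun a => (f a).1.length) := Primrec.list_length.comp (Primrec.fst.comp hf)
  have hl : Primrec (fun a => (g a).length) := Primrec.list_length.comp hg
  have hm : Primrec (fun a => (g a).length % (f a).1.length) := Primrec.nat_mod.comp hl hK
  have hp : Primrec (fun a => payL (f a) (stOf (f a).1.length (g a))) :=
    primrec_payL.comp (hf.pair (primrec_stOf.comp (hK.pair hg)))
  have hc : Primrec (fun a => decide ((f a).1.length ≤ (g a).length) &&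
      (g a).getD ((g a).length - (f a).1.length) false) :=
    Primrec.and.comp (Primrec.nat_le.comp hK hl).decide
      ((Primrec.list_getD false).comp hg (Primrec.nat_sub.comp hl hK))
  have hown : Primrec (fun a => meP par ((g a).length % (f a).1.length)) := (pw_meP par).comp hm
  have ho : Primrec (fun a => if (decide ((f a).1.length ≤ (g a).length) &&
      (g a).getD ((g a).length - (f a).1.length) false) = true then wt a
       else if meP par ((g a).length % (f a).1.length) = true then max (wf a) (wt a)
        else min (wf a) (wt a)) :=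
    Primrec.ite (Primrec.eq.comp hc (Primrec.const true)) ht
      (Primrec.ite (Primrec.eq.comp hown (Primrec.const true)) (Primrec.nat_max.comp hw ht)
        (Primrec.nat_min.comp hw ht))
  exact Primrec.ite (Primrec.eq.comp hm (Primrec.const 0)) (Primrec.nat_max.comp hp ho) ho

/-- the lists of values -/
private def pwT (par : Bool) (a : (List Q × List Q) × ℕ × List Bool) (i : ℕ) : List ℕ :=
  (List.range (2 ^ (a.2.1 - i))).map (fun p =>
    W (meP par) a.1.1.length (payL a.1) i (a.2.2 ++ pwWd (a.2.1 - i) p))

/-- the recursion step -/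
private def pwS (par : Bool) (a : (List Q × List Q) × ℕ × List Bool) (b : ℕ × List ℕ) : List ℕ :=
  (List.range (2 ^ (a.2.1 - (b.1 + 1)))).map (fun p =>
    pwC par a.1 (a.2.2 ++ pwWd (a.2.1 - (b.1 + 1)) p) (b.2.getD (2 * p + 1) 0) (b.2.getD (2 * p) 0))

private theorem pwS_prim (par : Bool) : Primrec₂ (pwS par) := by
  have hn : Primrec (fun r : ((List Q × List Q) × ℕ × List Bool) × (ℕ × List ℕ) =>
      r.1.2.1 - (r.2.1 + 1)) :=
    Primrec.nat_sub.comp (Primrec.fst.comp (Primrec.snd.comp Primrec.fst))
      (Primrec.succ.comp (Primrec.fst.comp Primrec.snd))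
  refine Primrec.list_map (Primrec.list_range.comp (pw_pow hn)) ?_
  have h2 : Primrec (fun s : (((List Q × List Q) × ℕ × List Bool) × (ℕ × List ℕ)) × ℕ =>
      2 * s.2) := Primrec.nat_mul.comp (Primrec.const 2) Primrec.snd
  have hb : Primrec (fun s : (((List Q × List Q) × ℕ × List Bool) × (ℕ × List ℕ)) × ℕ =>
      s.1.2.2) := Primrec.snd.comp (Primrec.snd.comp Primrec.fst)
  have hw : Primrec (fun s : (((List Q × List Q) × ℕ × List Bool) × (ℕ × List ℕ)) × ℕ =>
      s.1.1.2.2 ++ pwWd (s.1.1.2.1 - (s.1.2.1 + 1)) s.2) :=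
    Primrec.list_append.comp (Primrec.snd.comp (Primrec.snd.comp (Primrec.fst.comp Primrec.fst)))
      (pwWd_prim.comp ((hn.comp Primrec.fst).pair Primrec.snd))
  exact pwC_prim par (Primrec.fst.comp (Primrec.fst.comp Primrec.fst)) hw
    ((Primrec.list_getD 0).comp hb (Primrec.succ.comp h2)) ((Primrec.list_getD 0).comp hb h2)

private theorem pw_getD {n p : ℕ} (hp : p < n) (f : ℕ → ℕ) :
    ((List.range n).map f).getD p 0 = f p := by
  rw [List.getD_eq_getElem?_getD, List.getElem?_map, List.getElem?_range hp]
  rfl

private theorem pwS_eq (par : Bool) (a : (List Q × List Q) × ℕ × List Bool) (i : ℕ)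
    (hi : i < a.2.1) : pwS par a (i, pwT par a i) = pwT par a (i + 1) := by
  unfold pwS
  show _ = (List.range (2 ^ (a.2.1 - (i + 1)))).map _
  apply List.map_congr_left
  intro p hp
  rw [List.mem_range] at hp
  change p < 2 ^ (a.2.1 - (i + 1)) at hp
  have hn : a.2.1 - i = (a.2.1 - (i + 1)) + 1 := by omega
  have h2 : 2 ^ (a.2.1 - i) = 2 * 2 ^ (a.2.1 - (i + 1)) := by rw [hn, pow_succ']
  simp only
  rw [pwC_eq]
  unfold pwT
  rw [pw_getD (by rw [h2]; omega), pw_getD (by rw [h2]; omega)]
  have e1 := pwWd_succ (a.2.1 - (i + 1)) p true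
  have e0 := pwWd_succ (a.2.1 - (i + 1)) p false
  rw [← hn] at e1 e0
  simp only [Bool.toNat_true, Bool.toNat_false, add_zero] at e1 e0
  rw [e1, e0, List.append_assoc, List.append_assoc]

/-- (Compute the lists `T_i` of all `W i (l ++ m)`, `m` of length `j - i` in binary order, by
recursion on `i`; `T_0` is the list of payoffs, `T_(i+1)` is computed from pairs of neighbours of
`T_i`; `W j l` is the only entry of `T_j`.) -/
theorem primrec_W (par : Bool) : Primrec (fun a : (List Q × List Q) × ℕ × List Bool =>
    W (meP par) a.1.1.length (payL a.1) a.2.1 a.2.2) := by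
  have h0 : Primrec (fun a : (List Q × List Q) × ℕ × List Bool => pwT par a 0) := by
    have e : (fun a : (List Q × List Q) × ℕ × List Bool => pwT par a 0) = fun a =>
        (List.range (2 ^ (a.2.1 - 0))).map (fun p =>
          payL a.1 (stOf a.1.1.length (a.2.2 ++ pwWd (a.2.1 - 0) p))) := by
      funext a
      simp only [pwT, W]
    rw [e]
    have hj : Primrec (fun a : (List Q × List Q) × ℕ × List Bool => a.2.1 - 0) :=
      Primrec.nat_sub.comp (Primrec.fst.comp Primrec.snd) (Primrec.const 0)
    refine Primrec.list_map (Primrec.list_range.comp (pw_pow hj)) ?_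
    have hw : Primrec (fun s : ((List Q × List Q) × ℕ × List Bool) × ℕ =>
        s.1.2.2 ++ pwWd (s.1.2.1 - 0) s.2) :=
      Primrec.list_append.comp (Primrec.snd.comp (Primrec.snd.comp Primrec.fst))
        (pwWd_prim.comp ((hj.comp Primrec.fst).pair Primrec.snd))
    have hPR : Primrec (fun s : ((List Q × List Q) × ℕ × List Bool) × ℕ => s.1.1) :=
      Primrec.fst.comp Primrec.fst
    have hK : Primrec (fun s : ((List Q × List Q) × ℕ × List Bool) × ℕ => s.1.1.1.length) :=
      Primrec.list_length.comp (Primrec.fst.comp hPR)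
    have hst : Primrec (fun s : ((List Q × List Q) × ℕ × List Bool) × ℕ =>
        stOf s.1.1.1.length (s.1.2.2 ++ pwWd (s.1.2.1 - 0) s.2)) :=
      primrec_stOf.comp (hK.pair hw)
    have hp2 := hPR.pair hst
    have hpay := primrec_payL.comp hp2
    exact hpay
  have h1 := Primrec.nat_rec' (f := fun a : (List Q × List Q) × ℕ × List Bool => a.2.1)
    (g := fun a => pwT par a 0) (h := pwS par) (Primrec.fst.comp Primrec.snd) h0 (pwS_prim par)
  refine ((Primrec.list_getD 0).comp h1 (Primrec.const 0)).of_eq ?_
  intro a
  have key : ∀ i, i ≤ a.2.1 → Nat.rec (motive := fun _ => List ℕ) (pwT par a 0)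
      (fun n IH => pwS par a (n, IH)) i = pwT par a i := by
    intro i
    induction i with
    | zero => intro _; rfl
    | succ i ih =>
      intro hi
      show pwS par a (i, _) = _
      rw [ih (by omega), pwS_eq par a i (by omega)]
  rw [key a.2.1 le_rfl]
  unfold pwT
  rw [pw_getD (by rw [Nat.sub_self]; norm_num)]
  have e : pwWd (a.2.1 - a.2.1) 0 = [] := by
    rw [Nat.sub_self]; rfl
  rw [e, List.append_nil]

end Pool.Agent.H71.CT
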