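import Pool.Agent.H71.CT.SideDef
import Pool.Agent.H71.CT.PrimT
import Pool.Agent.H71.CT.CompPlay

/-! The table function of a stage is computable. -/

namespace Pool.Agent.H71.CT

private theorem psiComp_map {α β : Type*} [Primcodable α] [Primcodable β] {f : α → ℕ → β}
    (hf : Computable₂ f) {g : α → ℕ} (hg : Computable g) :
    Computable (fun a => (List.range (g a)).map (f a)) := by
  have h : Computable (fun a => (Nat.rec [] (fun n ih => ih ++ [f a n]) (g a) : List β)) := by
    refine Computable.nat_rec (f := g) (g := fun _ => ([] : List β))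
      (h := fun a (q : ℕ × List β) => q.2 ++ [f a q.1]) hg (Computable.const []) ?_
    exact Computable.list_concat.comp (Computable.snd.comp Computable.snd)
      (hf.comp Computable.fst (Computable.fst.comp Computable.snd))
  refine h.of_eq fun a => ?_
  induction g a with
  | zero => rfl
  | succ n ih =>
    simp only at ih ⊢
    rw [ih, List.range_succ, List.map_append]
    rfl

private theorem psiComp_hist {stp : ℕ → ℕ → ℕ → Bool} (par sd : Bool) {A : ℕ → ℕ → ℕ}
    {F : ℕ → ℕ} (hA : Computable (fun a : ℕ × ℕ => A a.1 a.2)) (hF : Computable F)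
    (hs : Computable (fun a : ℕ × ℕ × ℕ => stp a.1 a.2.1 a.2.2))
    {H : List (List ℕ) → ℕ → ℕ} (hH : Computable₂ H) :
    Computable₂ (fun (L : List (List ℕ)) (m : ℕ) =>
      hist L.length (newA (L.getD m []) (mkB A F stp par m) sd (H L m)) (s0 m)
        (H L m - s0 m)) := by
  have hgetD : Computable (fun p : List (List ℕ) × ℕ => p.1.getD p.2 []) :=
    (Primrec.list_getD ([] : List ℕ)).to_comp
  have hlist : Computable (fun p : List (List ℕ) × ℕ => (List.range p.1.length).map
      (fun v => newA (p.1.getD p.2 []) (mkB A F stp par p.2) sd (H p.1 p.2) v)) := by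
    refine psiComp_map (f := fun (p : List (List ℕ) × ℕ) (v : ℕ) =>
      newA (p.1.getD p.2 []) (mkB A F stp par p.2) sd (H p.1 p.2) v) ?_
      (Computable.list_length.comp Computable.fst)
    exact (computable_newA hA hF hs par sd).comp
      ((hgetD.comp Computable.fst).pair ((Computable.snd.comp Computable.fst).pair
        ((hH.comp (Computable.fst.comp Computable.fst) (Computable.snd.comp Computable.fst)).pair
          Computable.snd)))
  have hs0 : Computable (fun p : List (List ℕ) × ℕ => s0 p.2) :=
    computable_s0.comp Computable.snd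
  have hsub : Computable (fun p : List (List ℕ) × ℕ => H p.1 p.2 - s0 p.2) :=
    Primrec.nat_sub.to_comp.comp (hH.comp Computable.fst Computable.snd) hs0
  have h := primrec_hist.to_comp.comp
    ((Computable.list_length.comp (Computable.fst (α := List (List ℕ)) (β := ℕ))).pair
      (hlist.pair (hs0.pair hsub)))
  refine h.of_eq fun p => ?_
  apply hist_congr
  intro v hv
  simp [List.getD_eq_getElem?_getD, hv]

theorem computable_PsiS {stp : ℕ → ℕ → ℕ → Bool} (par : Bool) {A B : ℕ → ℕ → ℕ}
    {F F' G : ℕ → ℕ} (hA : Computable (fun a : ℕ × ℕ => A a.1 a.2)) (hF : Computable F)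
    (hF' : Computable F') (hB : Computable (fun a : ℕ × ℕ => B a.1 a.2)) (hG : Computable G)
    (hs : Computable (fun a : ℕ × ℕ × ℕ => stp a.1 a.2.1 a.2.2)) :
    Computable (PsiS stp par A F F' B G) := by
  have hgetD : Computable (fun p : List (List ℕ) × ℕ => p.1.getD p.2 []) :=
    (Primrec.list_getD ([] : List ℕ)).to_comp
  have h1 := psiComp_hist (!par) true hA hF hs (H := fun _ m => F' m)
    (hF'.comp Computable.snd)
  have h2 := psiComp_hist par false hB hG hs
    (H := fun L m => newH (L.getD m []) (mkB B G stp par m))
    ((computable_newH hB hG hs par).comp (hgetD.pair Computable.snd))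
  have m1 := psiComp_map h1 (Computable.list_length (α := List ℕ))
  have m2 := psiComp_map h2 (Computable.list_length (α := List ℕ))
  have h := (primrec_mkT par).to_comp.comp (m1.pair m2)
  refine h.of_eq fun L => ?_
  unfold PsiS
  simp only [List.length_map, List.length_range]
  congr 1
  funext q
  unfold payL
  simp only [List.length_map, List.length_range]
  apply payN_congr
  · intro m hm
    simp [List.getD_eq_getElem?_getD, hm]
  · intro m hm
    simp [List.getD_eq_getElem?_getD, hm]

end Pool.Agent.H71.CT
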