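import Pool.Agent.H71.CT.SlowTab
import Pool.Agent.H71.CT.JJ
import Pool.Agent.H71.CT.EcsComp
import Pool.Agent.H71.CT.ReadInput
import Pool.Agent.H71.CT.TcBase

/-! Minimum of a program and finitely many enabled programs, uniformly. -/

namespace Pool.Agent.H71.CT

open Filter

/-- stopping condition at time `s` on the zero input of length `n`, level `k`, parameter `j` -/
def RaceStop (e0 : ℕ) (dd : ℕ → ℕ) (fl : ℕ → ℕ → Bool) (k j n s : ℕ) : Prop :=
  (1 ≤ s ∧ hb e0 (List.replicate n false) (2 ^ (s - 1)) = true) ∨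
  ∃ i ≤ j, i < k ∧ fl k i = true ∧ i + 2 ≤ s ∧
    hb (dd i) (List.replicate n false) (2 ^ (s - (i + 2))) = true

private theorem race_sv (σ : St) (v w : ℕ) (z : ℤ) :
    (σ.sv v z).v w = if w = v then z else σ.v w := by
  simp [St.sv, Function.update_apply]

private theorem race_sva (σ : St) (v : ℕ) (z : ℤ) : (σ.sv v z).a = σ.a := rfl

private theorem race_svi (σ : St) (v : ℕ) (z : ℤ) : (σ.sv v z).inp = σ.inp := rfl

private theorem race_svo (σ : St) (v : ℕ) (z : ℤ) : (σ.sv v z).out = σ.out := rfl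

private theorem race_fr {VS AS : Set ℕ} (σ : St) {v : ℕ} (hv : v ∈ VS) (z : ℤ) :
    Fr VS AS σ (σ.sv v z) := by
  refine ⟨fun w hw => ?_, fun _ _ => rfl, rfl, rfl⟩
  rw [race_sv, if_neg]
  rintro rfl
  exact hw hv

private theorem race_rc (σ : St) (v : ℕ) (c : ℤ) : Reach (.const v c) σ 1 (σ.sv v c) :=
  ⟨1, le_rfl, Big.const σ v c⟩

private theorem race_rm (σ : St) (v a : ℕ) : Reach (.mov v a) σ 1 (σ.sv v (σ.v a)) :=
  ⟨1, le_rfl, Big.mov σ v a⟩

private theorem race_ra (σ : St) (v a b : ℕ) :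
    Reach (.add v a b) σ 1 (σ.sv v (σ.v a + σ.v b)) :=
  ⟨1, le_rfl, Big.add σ v a b⟩

private theorem race_rs (σ : St) (v a b : ℕ) :
    Reach (.sub v a b) σ 1 (σ.sv v (σ.v a - σ.v b)) :=
  ⟨1, le_rfl, Big.sub σ v a b⟩

private theorem race_rg (σ : St) (v a i : ℕ) :
    Reach (.get v a i) σ 1 (σ.sv v (σ.a a (σ.v i).toNat)) :=
  ⟨1, le_rfl, Big.get σ v a i⟩

private theorem race_env {VS AS : Set ℕ} {σ τ : St} {x : List Bool} (hE : Env σ x)
    (h : Fr VS AS σ τ) (h1 : 40 ∉ VS) (h2 : 8 ∉ VS) (h3 : 0 ∉ AS) (h4 : 2 ∉ AS) : Env τ x := by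
  refine ⟨by rw [h.v 40 h1, hE.n], fun i hi => by rw [h.a 0 h3]; exact hE.inp i hi, ?_⟩
  have hs := hE.stamps
  unfold Stamps at hs ⊢
  rw [h.v 8 h2, h.a 2 h4]
  exact hs

/-- `41 := v 43`, `42 := 2 ^ (v 43)` -/
private def racePow : Stmt :=
  .seq (.mov 41 43) (.seq (.const 42 1) (.seq (.mov 46 43) (.seq (.const 47 1)
    (.whl 46 (.seq (.add 42 42 42) (.sub 46 46 47))))))

private theorem race_pow (σ : St) (m : ℕ) (h : σ.v 43 = m) : ∃ τ, Reach racePow σ (3 * m + 6) τ ∧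
    Fr {41, 42, 46, 47} ∅ σ τ ∧ τ.v 41 = m ∧ τ.v 42 = 2 ^ m := by
  obtain ⟨σ4, hσ4⟩ : ∃ s, s = (((σ.sv 41 m).sv 42 1).sv 46 m).sv 47 1 := ⟨_, rfl⟩
  have f4 : Fr {41, 42, 46, 47} ∅ σ σ4 := by
    rw [hσ4]
    exact (((race_fr _ (by simp) _).trans (race_fr _ (by simp) _)).trans
      (race_fr _ (by simp) _)).trans (race_fr _ (by simp) _)
  obtain ⟨τ, r, ⟨hf, a1, a2, a3, a4⟩⟩ := Reach.loop (v := 46) (s := .seq (.add 42 42 42) (.sub 46 46 47)) m
    (fun j τ => Fr {41, 42, 46, 47} ∅ σ τ ∧ τ.v 41 = m ∧ τ.v 42 = 2 ^ j ∧ τ.v 47 = 1 ∧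
      τ.v 46 = (m : ℤ) - j) (fun _ => 2)
    (fun j hj τ hτ => by rw [hτ.2.2.2.2]; omega) (fun τ hτ => by rw [hτ.2.2.2.2]; omega)
    (by
      rintro j hj τ ⟨b0, b1, b2, b3, b4⟩
      refine ⟨(τ.sv 42 (τ.v 42 + τ.v 42)).sv 46 ((τ.sv 42 (τ.v 42 + τ.v 42)).v 46 -
        (τ.sv 42 (τ.v 42 + τ.v 42)).v 47), (race_ra _ _ _ _).seq (race_rs _ _ _ _), ?_, ?_, ?_, ?_, ?_⟩
      · exact b0.trans ((race_fr _ (by simp) _).trans (race_fr _ (by simp) _))
      · simp [race_sv, b1]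
      · simp [race_sv, b2, pow_succ]
        ring
      · simp [race_sv, b3]
      · simp [race_sv, b3, b4]
        ring) σ4 ⟨f4, by simp [hσ4, race_sv], by simp [hσ4, race_sv], by simp [hσ4, race_sv], by simp [hσ4, race_sv]⟩
  refine ⟨τ, ?_, hf, a1, a2⟩
  have r1 := race_rm σ 41 43
  rw [h] at r1
  have r2 := race_rc (σ.sv 41 m) 42 1
  have r3 := race_rm ((σ.sv 41 m).sv 42 1) 46 43
  have e3 : ((σ.sv 41 m).sv 42 1).v 43 = m := by simp [race_sv, h]
  rw [e3] at r3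
  have r4 := race_rc (((σ.sv 41 m).sv 42 1).sv 46 m) 47 1
  rw [← hσ4] at r4
  refine (r1.seq (r2.seq (r3.seq (r4.seq r)))).mono ?_
  simp
  omega

/-- set-up: level, base of the flags, number of rounds of the inner loop, run flag -/
private def raceSet : Stmt :=
  .seq (.const 46 0) (.seq (.get 102 10 46) (.seq (.const 47 1) (.seq (.sub 102 102 47)
    (.seq (.sub 103 101 102) (.seq (.add 105 100 47) (.seq (.sub 48 105 102)
      (.seq (.ite 48 (.mov 105 102) .skip) (.const 104 1))))))))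

private theorem race_set (σ : St) (len k j : ℕ) (h1 : σ.v 101 = len) (h2 : σ.a 10 0 = (k : ℤ) + 1)
    (h3 : σ.v 100 = j) (hk : k ≤ len) : ∃ τ, Reach raceSet σ 12 τ ∧
    Fr {46, 47, 48, 102, 103, 104, 105} ∅ σ τ ∧ τ.v 103 = ((len - k : ℕ) : ℤ) ∧
      τ.v 105 = ((min k (j + 1) : ℕ) : ℤ) ∧ τ.v 104 = 1 := by
  obtain ⟨σ7, hσ7⟩ : ∃ s, s = ((((((σ.sv 46 0).sv 102 ((k : ℤ) + 1)).sv 47 1).sv 102 k).sv 103
    ((len : ℤ) - k)).sv 105 ((j : ℤ) + 1)).sv 48 ((j : ℤ) + 1 - k) := ⟨_, rfl⟩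
  have f7 : Fr {46, 47, 48, 102, 103, 104, 105} ∅ σ σ7 := by
    rw [hσ7]
    exact ((((((race_fr _ (by simp) _).trans (race_fr _ (by simp) _)).trans
      (race_fr _ (by simp) _)).trans (race_fr _ (by simp) _)).trans (race_fr _ (by simp) _)).trans
      (race_fr _ (by simp) _)).trans (race_fr _ (by simp) _)
  have r1 := race_rc σ 46 0
  have r2 := race_rg (σ.sv 46 0) 102 10 46
  have e2 : (σ.sv 46 0).a 10 ((σ.sv 46 0).v 46).toNat = (k : ℤ) + 1 := by
    simp [race_sv, race_sva, h2]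
  rw [e2] at r2
  have r3 := race_rc ((σ.sv 46 0).sv 102 ((k : ℤ) + 1)) 47 1
  have r4 := race_rs (((σ.sv 46 0).sv 102 ((k : ℤ) + 1)).sv 47 1) 102 102 47
  have e4 : (((σ.sv 46 0).sv 102 ((k : ℤ) + 1)).sv 47 1).v 102 -
      (((σ.sv 46 0).sv 102 ((k : ℤ) + 1)).sv 47 1).v 47 = k := by
    simp [race_sv]
  rw [e4] at r4
  have r5 := race_rs ((((σ.sv 46 0).sv 102 ((k : ℤ) + 1)).sv 47 1).sv 102 k) 103 101 102
  have e5 : ((((σ.sv 46 0).sv 102 ((k : ℤ) + 1)).sv 47 1).sv 102 k).v 101 -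
      ((((σ.sv 46 0).sv 102 ((k : ℤ) + 1)).sv 47 1).sv 102 k).v 102 = (len : ℤ) - k := by
    simp [race_sv, h1]
  rw [e5] at r5
  have r6 := race_ra (((((σ.sv 46 0).sv 102 ((k : ℤ) + 1)).sv 47 1).sv 102 k).sv 103
    ((len : ℤ) - k)) 105 100 47
  have e6 : (((((σ.sv 46 0).sv 102 ((k : ℤ) + 1)).sv 47 1).sv 102 k).sv 103
      ((len : ℤ) - k)).v 100 + (((((σ.sv 46 0).sv 102 ((k : ℤ) + 1)).sv 47 1).sv 102 k).sv 103
      ((len : ℤ) - k)).v 47 = (j : ℤ) + 1 := by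
    simp [race_sv, h3]
  rw [e6] at r6
  have r7 := race_rs ((((((σ.sv 46 0).sv 102 ((k : ℤ) + 1)).sv 47 1).sv 102 k).sv 103
    ((len : ℤ) - k)).sv 105 ((j : ℤ) + 1)) 48 105 102
  have e7 : ((((((σ.sv 46 0).sv 102 ((k : ℤ) + 1)).sv 47 1).sv 102 k).sv 103
      ((len : ℤ) - k)).sv 105 ((j : ℤ) + 1)).v 105 - ((((((σ.sv 46 0).sv 102 ((k : ℤ) + 1)).sv 47 1).sv 102 k).sv 103
      ((len : ℤ) - k)).sv 105 ((j : ℤ) + 1)).v 102 = (j : ℤ) + 1 - k := by
    simp [race_sv]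
  rw [e7, ← hσ7] at r7
  have v48 : σ7.v 48 = (j : ℤ) + 1 - k := by simp [hσ7, race_sv]
  have v102 : σ7.v 102 = k := by simp [hσ7, race_sv]
  have v103 : σ7.v 103 = (len : ℤ) - k := by simp [hσ7, race_sv]
  have v105 : σ7.v 105 = (j : ℤ) + 1 := by simp [hσ7, race_sv]
  by_cases hjk : k < j + 1
  · refine ⟨(σ7.sv 105 (σ7.v 102)).sv 104 1, ?_, ?_, ?_, ?_, ?_⟩
    · exact (r1.seq (r2.seq (r3.seq (r4.seq (r5.seq (r6.seq (r7.seq
        ((Reach.ite_pos (by rw [v48]; omega) (race_rm σ7 105 102)).seq (race_rc _ 104 1))))))))).mono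
        (by norm_num)
    · exact (f7.trans (race_fr _ (by simp) _)).trans (race_fr _ (by simp) _)
    · simp only [race_sv]
      norm_num
      rw [v103]
      omega
    · simp only [race_sv]
      norm_num
      rw [v102, min_eq_left (by omega)]
    · simp [race_sv]
  · refine ⟨σ7.sv 104 1, ?_, ?_, ?_, ?_, ?_⟩
    · exact (r1.seq (r2.seq (r3.seq (r4.seq (r5.seq (r6.seq (r7.seq
        ((Reach.ite_neg (by rw [v48]; omega) (Reach.skip σ7)).seq (race_rc _ 104 1))))))))).mono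
        (by norm_num)
    · exact f7.trans (race_fr _ (by simp) _)
    · simp only [race_sv]
      norm_num
      rw [v103]
      omega
    · simp only [race_sv]
      norm_num
      rw [v105, min_eq_right (by omega)]
    · simp [race_sv]

/-- one round of the inner loop -/
private def raceIn : Stmt :=
  .seq (.add 45 43 47) (.seq (.get 46 4 45) (.seq (.add 50 103 43) (.seq (.get 51 10 50)
    (.seq (.ite 46 (.ite 51 (.const 49 1) .skip) .skip) (.seq (.add 43 43 47) (.sub 44 44 47))))))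

private theorem race_in (σ : St) (b i : ℕ) (h1 : σ.v 43 = i) (h2 : σ.v 47 = 1) (h3 : σ.v 103 = b) :
    ∃ τ, Reach raceIn σ 9 τ ∧ Fr {43, 44, 45, 46, 49, 50, 51} ∅ σ τ ∧ τ.v 43 = (i : ℤ) + 1 ∧
      τ.v 44 = σ.v 44 - 1 ∧ (0 < τ.v 49 ↔ 0 < σ.v 49 ∨ (0 < σ.a 4 (i + 1) ∧ 0 < σ.a 10 (b + i))) := by
  obtain ⟨σ4, hσ4⟩ : ∃ s, s = (((σ.sv 45 ((i : ℤ) + 1)).sv 46 (σ.a 4 (i + 1))).sv 50 ((b : ℤ) + i)).sv 51
    (σ.a 10 (b + i)) := ⟨_, rfl⟩
  have f4 : Fr {43, 44, 45, 46, 49, 50, 51} ∅ σ σ4 := by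
    rw [hσ4]
    exact (((race_fr _ (by simp) _).trans (race_fr _ (by simp) _)).trans
      (race_fr _ (by simp) _)).trans (race_fr _ (by simp) _)
  have r1 := race_ra σ 45 43 47
  rw [h1, h2] at r1
  have r2 := race_rg (σ.sv 45 ((i : ℤ) + 1)) 46 4 45
  have e2 : (σ.sv 45 ((i : ℤ) + 1)).a 4 ((σ.sv 45 ((i : ℤ) + 1)).v 45).toNat = σ.a 4 (i + 1) := by
    have : ((i : ℤ) + 1).toNat = i + 1 := by omega
    simp [race_sv, race_sva, this]
  rw [e2] at r2
  have r3 := race_ra ((σ.sv 45 ((i : ℤ) + 1)).sv 46 (σ.a 4 (i + 1))) 50 103 43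
  have e3 : ((σ.sv 45 ((i : ℤ) + 1)).sv 46 (σ.a 4 (i + 1))).v 103 +
      ((σ.sv 45 ((i : ℤ) + 1)).sv 46 (σ.a 4 (i + 1))).v 43 = (b : ℤ) + i := by
    simp [race_sv, h1, h3]
  rw [e3] at r3
  have r4 := race_rg (((σ.sv 45 ((i : ℤ) + 1)).sv 46 (σ.a 4 (i + 1))).sv 50 ((b : ℤ) + i)) 51 10 50
  have e4 : (((σ.sv 45 ((i : ℤ) + 1)).sv 46 (σ.a 4 (i + 1))).sv 50 ((b : ℤ) + i)).a 10
      ((((σ.sv 45 ((i : ℤ) + 1)).sv 46 (σ.a 4 (i + 1))).sv 50 ((b : ℤ) + i)).v 50).toNat =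
      σ.a 10 (b + i) := by
    have : ((b : ℤ) + i).toNat = b + i := by omega
    simp [race_sv, race_sva, this]
  rw [e4, ← hσ4] at r4
  have v43 : σ4.v 43 = i := by simp [hσ4, race_sv, h1]
  have v47 : σ4.v 47 = 1 := by simp [hσ4, race_sv, h2]
  have v44 : σ4.v 44 = σ.v 44 := by simp [hσ4, race_sv]
  have v46 : σ4.v 46 = σ.a 4 (i + 1) := by simp [hσ4, race_sv]
  have v51 : σ4.v 51 = σ.a 10 (b + i) := by simp [hσ4, race_sv]
  have v49 : σ4.v 49 = σ.v 49 := by simp [hσ4, race_sv]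
  -- the conditional
  obtain ⟨σ5, r5, f5, g5⟩ : ∃ σ5, Reach (.ite 46 (.ite 51 (.const 49 1) .skip) .skip) σ4 3 σ5 ∧
      Fr {49} ∅ σ4 σ5 ∧ (0 < σ5.v 49 ↔ 0 < σ.v 49 ∨ (0 < σ.a 4 (i + 1) ∧ 0 < σ.a 10 (b + i))) := by
    by_cases c1 : 0 < σ.a 4 (i + 1)
    · by_cases c2 : 0 < σ.a 10 (b + i)
      · refine ⟨σ4.sv 49 1, Reach.ite_pos (by rw [v46]; exact c1) (Reach.ite_pos (by rw [v51]; exact c2)
          (race_rc _ _ _)), race_fr _ (by simp) _, ?_⟩
        have e : (σ4.sv 49 1).v 49 = 1 := by simp [race_sv]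
        rw [e]
        exact ⟨fun _ => Or.inr ⟨c1, c2⟩, fun _ => one_pos⟩
      · refine ⟨σ4, (Reach.ite_pos (by rw [v46]; exact c1) (Reach.ite_neg (by rw [v51]; exact c2)
          (Reach.skip _))).mono (by norm_num), Fr.refl _ _ _, ?_⟩
        rw [v49]
        exact ⟨Or.inl, fun h => h.resolve_right fun h' => c2 h'.2⟩
    · refine ⟨σ4, (Reach.ite_neg (by rw [v46]; exact c1) (Reach.skip _)).mono (by norm_num), Fr.refl _ _ _, ?_⟩
      rw [v49]
      exact ⟨Or.inl, fun h => h.resolve_right fun h' => c1 h'.1⟩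
  have w43 : σ5.v 43 = i := by rw [f5.v 43 (by simp), v43]
  have w47 : σ5.v 47 = 1 := by rw [f5.v 47 (by simp), v47]
  have w44 : σ5.v 44 = σ.v 44 := by rw [f5.v 44 (by simp), v44]
  have r6 := race_ra σ5 43 43 47
  rw [w43, w47] at r6
  have r7 := race_rs (σ5.sv 43 ((i : ℤ) + 1)) 44 44 47
  have e7 : (σ5.sv 43 ((i : ℤ) + 1)).v 44 - (σ5.sv 43 ((i : ℤ) + 1)).v 47 = σ.v 44 - 1 := by
    simp [race_sv, w44, w47]
  rw [e7] at r7
  refine ⟨(σ5.sv 43 ((i : ℤ) + 1)).sv 44 (σ.v 44 - 1),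
    (r1.seq (r2.seq (r3.seq (r4.seq (r5.seq (r6.seq r7)))))).mono (by norm_num), ?_, ?_, ?_, ?_⟩
  · exact ((f4.trans (f5.mono (by simp) (by simp))).trans (race_fr _ (by simp) _)).trans (race_fr _ (by simp) _)
  · simp [race_sv]
  · simp [race_sv]
  · rw [← g5]
    simp [race_sv]

/-- the test: variable 49 is positive iff the stopping condition holds -/
private def raceCk : Stmt :=
  .seq (.const 43 0) (.seq (.const 47 1) (.seq (.get 49 4 43) (.seq (.mov 44 105) (.whl 44 raceIn))))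

private theorem race_ck (σ : St) (b m : ℕ) (h1 : σ.v 103 = b) (h2 : σ.v 105 = m) :
    ∃ τ, Reach raceCk σ (10 * m + 5) τ ∧ Fr {43, 44, 45, 46, 47, 49, 50, 51} ∅ σ τ ∧ τ.v 47 = 1 ∧
      (0 < τ.v 49 ↔ 0 < σ.a 4 0 ∨ ∃ i < m, 0 < σ.a 4 (i + 1) ∧ 0 < σ.a 10 (b + i)) := by
  obtain ⟨σ4, hσ4⟩ : ∃ s, s = (((σ.sv 43 0).sv 47 1).sv 49 (σ.a 4 0)).sv 44 m := ⟨_, rfl⟩
  have f4 : Fr {43, 44, 45, 46, 47, 49, 50, 51} ∅ σ σ4 := by
    rw [hσ4]
    exact (((race_fr _ (by simp) _).trans (race_fr _ (by simp) _)).trans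
      (race_fr _ (by simp) _)).trans (race_fr _ (by simp) _)
  have r1 := race_rc σ 43 0
  have r2 := race_rc (σ.sv 43 0) 47 1
  have r3 := race_rg ((σ.sv 43 0).sv 47 1) 49 4 43
  have e3 : ((σ.sv 43 0).sv 47 1).a 4 (((σ.sv 43 0).sv 47 1).v 43).toNat = σ.a 4 0 := by
    simp [race_sv, race_sva]
  rw [e3] at r3
  have r4 := race_rm (((σ.sv 43 0).sv 47 1).sv 49 (σ.a 4 0)) 44 105
  have e4 : (((σ.sv 43 0).sv 47 1).sv 49 (σ.a 4 0)).v 105 = m := by simp [race_sv, h2]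
  rw [e4, ← hσ4] at r4
  obtain ⟨τ, r, ⟨hf, a1, a2, a3, a4⟩⟩ := Reach.loop (v := 44) (s := raceIn) m
    (fun i τ => Fr {43, 44, 45, 46, 47, 49, 50, 51} ∅ σ τ ∧ τ.v 43 = i ∧ τ.v 47 = 1 ∧ τ.v 44 = (m : ℤ) - i ∧
      (0 < τ.v 49 ↔ 0 < σ.a 4 0 ∨ ∃ i' < i, 0 < σ.a 4 (i' + 1) ∧ 0 < σ.a 10 (b + i'))) (fun _ => 9)
    (fun i hi τ hτ => by rw [hτ.2.2.2.1]; omega) (fun τ hτ => by rw [hτ.2.2.2.1]; omega)
    (by
      rintro i hi τ ⟨b0, b1, b2, b3, b4⟩
      obtain ⟨ρ, q1, q2, q3, q4, q5⟩ := race_in τ b i b1 b2 (by rw [b0.v 103 (by simp), h1])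
      refine ⟨ρ, q1, b0.trans (q2.mono (fun w hw => ?_) (by simp)), ?_, ?_, ?_, ?_⟩
      · simp only [Set.mem_insert_iff, Set.mem_singleton_iff] at hw ⊢
        omega
      · rw [q3]
        push_cast
        ring
      · rw [q2.v 47 (by simp), b2]
      · rw [q4, b3]
        push_cast
        ring
      · rw [q5, b4, b0.a 4 (by simp), b0.a 10 (by simp)]
        constructor
        · rintro ((h | ⟨i', hi', h⟩) | h)
          · exact Or.inl h
          · exact Or.inr ⟨i', by omega, h⟩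
          · exact Or.inr ⟨i, by omega, h⟩
        · rintro (h | ⟨i', hi', h⟩)
          · exact Or.inl (Or.inl h)
          · rcases Nat.lt_succ_iff_lt_or_eq.1 hi' with h' | h'
            · exact Or.inl (Or.inr ⟨i', h', h⟩)
            · subst h'
              exact Or.inr h) σ4
    ⟨f4, by simp [hσ4, race_sv], by simp [hσ4, race_sv], by simp [hσ4, race_sv], by simp [hσ4, race_sv]⟩
  refine ⟨τ, ?_, hf, a2, a4⟩
  refine (r1.seq (r2.seq (r3.seq (r4.seq r)))).mono ?_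
  simp
  omega

/-- the entries -/
private def raceL (e0 : ℕ) (dd : ℕ → ℕ) (k : ℕ) : List Entry :=
  (true, pr e0) :: (List.range k).map (fun i => ((true, pr (dd i)) : Entry))

/-- the table -/
private def raceU (e0 : ℕ) (dd : ℕ → ℕ) (fl : ℕ → ℕ → Bool) (k : ℕ) : List ℕ :=
  encE (raceL e0 dd k) ++ (List.range k).map (fun i => (fl k i).toNat)

private theorem raceL_len (e0 : ℕ) (dd : ℕ → ℕ) (k : ℕ) : (raceL e0 dd k).length = k + 1 := by
  simp [raceL]

private theorem raceU_len (e0 : ℕ) (dd : ℕ → ℕ) (fl : ℕ → ℕ → Bool) (k : ℕ) :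
    (raceU e0 dd fl k).length = (encE (raceL e0 dd k)).length + k := by
  simp [raceU]

private theorem race_evt0 (e0 : ℕ) (dd : ℕ → ℕ) (k s : ℕ) (x : List Bool) :
    evt (raceL e0 dd k) x 0 s = true ↔
      1 ≤ s ∧ hb e0 (List.replicate x.length false) (2 ^ (s - 1)) = true := by
  simp only [evt, raceL, List.getElem?_cons_zero, cfE, inpE, if_true, hb, decide_eq_true_eq, Halted]

private theorem race_evt1 (e0 : ℕ) (dd : ℕ → ℕ) {k i : ℕ} (hi : i < k) (s : ℕ) (x : List Bool) :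
    evt (raceL e0 dd k) x (i + 1) s = true ↔
      i + 2 ≤ s ∧ hb (dd i) (List.replicate x.length false) (2 ^ (s - (i + 2))) = true := by
  have h1 : (raceL e0 dd k)[i + 1]? = some ((true, pr (dd i)) : Entry) := by
    simp [raceL, hi]
  simp only [evt, h1, cfE, inpE, if_true, hb, decide_eq_true_eq, Halted]

private theorem race_stored {σ : St} {e0 : ℕ} {dd : ℕ → ℕ} {fl : ℕ → ℕ → Bool} {k : ℕ}
    (h : StoredAt σ 10 0 (raceU e0 dd fl k)) : StoredAt σ 10 0 (encE (raceL e0 dd k)) ∧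
      ∀ i < k, σ.a 10 ((encE (raceL e0 dd k)).length + i) = ((fl k i).toNat : ℤ) := by
  constructor
  · intro i hi
    have h1 := h i (by rw [raceU_len]; omega)
    rw [h1]
    congr 1
    exact List.getElem_append_left hi
  · intro i hi
    have h1 := h ((encE (raceL e0 dd k)).length + i) (by rw [raceU_len]; omega)
    rw [Nat.zero_add] at h1
    rw [h1]
    congr 1
    simp [raceU]

private theorem race_pow_le (s : ℕ) : (s + 1) * (s + 2) ≤ 6 * 2 ^ s := by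
  induction s with
  | zero => norm_num
  | succ s ih =>
    rcases Nat.eq_zero_or_pos s with h | h
    · subst h
      norm_num
    · rw [pow_succ]
      nlinarith

private theorem race_geom (a d : ℕ) : ∑ r ∈ Finset.range (d + 1), 2 ^ (a + r) ≤ 2 * 2 ^ (a + d) := by
  induction d with
  | zero => simp
  | succ d ih =>
    rw [Finset.sum_range_succ]
    have e : 2 ^ (a + (d + 1)) = 2 * 2 ^ (a + d) := by
      rw [← add_assoc, pow_succ]
      ring
    rw [e] at *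
    omega

/-- body of the main loop -/
private def raceBody (p : Stmt) : Stmt :=
  .seq p (.seq raceCk (.ite 49 (.const 104 0) (.seq (.add 42 42 42) (.add 41 41 47))))

private theorem race_body {κ : ℕ} {p : Stmt} (hp : ∀ (x : List Bool) (s : ℕ) (σ : St)
    (L : List Entry), Env σ x → σ.v 41 = s → σ.v 42 = 2 ^ s → StoredAt σ 10 0 (encE L) →
    ∃ τ, Reach p σ (κ * (2 ^ s + (L.length + 1) * (s + 1))) τ ∧ Env τ x ∧
      (∀ j < L.length, τ.a 4 j = if evt L x j s then 1 else 0) ∧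
      (∀ j < L.length, evt L x j s = true → τ.a 5 j = if one L x j s then 1 else 0) ∧
      Fr LV LA σ τ) (e0 : ℕ) (dd : ℕ → ℕ) (fl : ℕ → ℕ → Bool) (k j : ℕ) (x : List Bool) (s : ℕ)
    (hks : k ≤ s) (σ : St) (hE : Env σ x) (hU : StoredAt σ 10 0 (raceU e0 dd fl k))
    (h103 : σ.v 103 = ((encE (raceL e0 dd k)).length : ℤ)) (h105 : σ.v 105 = ((min k (j + 1) : ℕ) : ℤ))
    (h104 : σ.v 104 = 1) (h41 : σ.v 41 = s) (h42 : σ.v 42 = 2 ^ s) :
    ∃ τ, Reach (raceBody p) σ ((7 * κ + 18) * 2 ^ s) τ ∧ Env τ x ∧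
      StoredAt τ 10 0 (raceU e0 dd fl k) ∧ τ.v 103 = ((encE (raceL e0 dd k)).length : ℤ) ∧
      τ.v 105 = ((min k (j + 1) : ℕ) : ℤ) ∧
      (RaceStop e0 dd fl k j x.length s → τ.v 104 = 0 ∧ τ.v 42 = 2 ^ s) ∧
      (¬ RaceStop e0 dd fl k j x.length s → τ.v 104 = 1 ∧ τ.v 41 = ((s + 1 : ℕ) : ℤ) ∧
        τ.v 42 = 2 ^ (s + 1)) := by
  classical
  obtain ⟨hL, hfl⟩ := race_stored hU
  obtain ⟨σ1, r1, E1, ev1, -, f1⟩ := hp x s σ (raceL e0 dd k) hE h41 h42 hL
  have nLV : ∀ v : ℕ, (100 ≤ v ∨ v = 41 ∨ v = 42) → v ∉ LV := fun v hv h => by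
    simp only [LV, Set.mem_ofPred_eq] at h
    omega
  have nLA : (10 : ℕ) ∉ LA := by simp [LA]
  obtain ⟨σ2, r2, f2, g47, g49⟩ := race_ck σ1 (encE (raceL e0 dd k)).length (min k (j + 1))
    (by rw [f1.v 103 (nLV _ (by omega)), h103]) (by rw [f1.v 105 (nLV _ (by omega)), h105])
  rw [raceL_len] at r1 ev1
  -- the test
  have htest : 0 < σ2.v 49 ↔ RaceStop e0 dd fl k j x.length s := by
    rw [g49, ev1 0 (by omega)]
    unfold RaceStop
    refine or_congr ?_ ?_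
    · rw [← race_evt0 e0 dd k s x]
      by_cases h : evt (raceL e0 dd k) x 0 s = true
      · simp [h]
      · simp [h]
    · constructor
      · rintro ⟨i, hi, h1, h2⟩
        have hik : i < k := lt_of_lt_of_le hi (min_le_left _ _)
        have hij : i < j + 1 := lt_of_lt_of_le hi (min_le_right _ _)
        rw [ev1 (i + 1) (by omega)] at h1
        rw [f1.a 10 nLA, hfl i hik] at h2
        have h3 : evt (raceL e0 dd k) x (i + 1) s = true := by
          by_contra h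
          rw [if_neg h] at h1
          exact lt_irrefl _ h1
        have h4 := (race_evt1 e0 dd hik s x).1 h3
        refine ⟨i, by omega, hik, ?_, h4.1, h4.2⟩
        by_contra h
        have h5 : fl k i = false := by simpa using h
        rw [h5] at h2
        simp at h2
      · rintro ⟨i, hij, hik, h1, h2, h3⟩
        refine ⟨i, lt_min hik (by omega), ?_, ?_⟩
        · rw [ev1 (i + 1) (by omega), if_pos ((race_evt1 e0 dd hik s x).2 ⟨h2, h3⟩)]
          exact one_pos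
        · rw [f1.a 10 nLA, hfl i hik, h1]
          simp
  have v41 : σ2.v 41 = s := by rw [f2.v 41 (by simp), f1.v 41 (nLV _ (by omega)), h41]
  have v42 : σ2.v 42 = 2 ^ s := by rw [f2.v 42 (by simp), f1.v 42 (nLV _ (by omega)), h42]
  have v103 : σ2.v 103 = ((encE (raceL e0 dd k)).length : ℤ) := by
    rw [f2.v 103 (by simp), f1.v 103 (nLV _ (by omega)), h103]
  have v104 : σ2.v 104 = 1 := by rw [f2.v 104 (by simp), f1.v 104 (nLV _ (by omega)), h104]
  have v105 : σ2.v 105 = ((min k (j + 1) : ℕ) : ℤ) := by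
    rw [f2.v 105 (by simp), f1.v 105 (nLV _ (by omega)), h105]
  have E2 : Env σ2 x := race_env E1 f2 (by simp) (by simp) (by simp) (by simp)
  have U2 : StoredAt σ2 10 0 (raceU e0 dd fl k) := fun i hi => by
    rw [f2.a 10 (by simp), f1.a 10 nLA]
    exact hU i hi
  have hcost : κ * (2 ^ s + (k + 1 + 1) * (s + 1)) + (10 * min k (j + 1) + 5 + 3) ≤ (7 * κ + 18) * 2 ^ s := by
    have h1 := race_pow_le s
    have h2 : (k + 1 + 1) * (s + 1) ≤ (s + 1) * (s + 2) := by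
      rw [mul_comm]
      exact Nat.mul_le_mul_left _ (by omega)
    have h3 : min k (j + 1) ≤ s := (min_le_left _ _).trans hks
    have h4 : s < 2 ^ s := Nat.lt_two_pow_self
    have h5 : κ * (2 ^ s + (k + 1 + 1) * (s + 1)) ≤ κ * (7 * 2 ^ s) := Nat.mul_le_mul_left _ (by omega)
    have h6 : (7 * κ + 18) * 2 ^ s = κ * (7 * 2 ^ s) + 18 * 2 ^ s := by ring
    have h7 : 10 * min k (j + 1) + 8 ≤ 18 * 2 ^ s := by omega
    omega
  by_cases hst : RaceStop e0 dd fl k j x.length s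
  · have f3 : Fr ({104} : Set ℕ) ∅ σ2 (σ2.sv 104 0) := race_fr _ (by simp) _
    refine ⟨σ2.sv 104 0, ?_, race_env E2 f3 (by simp) (by simp) (by simp) (by simp), ?_, ?_, ?_, ?_, ?_⟩
    · exact (r1.seq (r2.seq (Reach.ite_pos (htest.2 hst) (race_rc _ _ _)))).mono (by omega)
    · intro i hi
      rw [f3.a 10 (by simp)]
      exact U2 i hi
    · rw [f3.v 103 (by simp), v103]
    · rw [f3.v 105 (by simp), v105]
    · intro _
      exact ⟨by simp [race_sv], by rw [f3.v 42 (by simp), v42]⟩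
    · intro h
      exact absurd hst h
  · have r3 := race_ra σ2 42 42 42
    have r4 := race_ra (σ2.sv 42 (σ2.v 42 + σ2.v 42)) 41 41 47
    obtain ⟨σ4, hσ4⟩ : ∃ q, q = (σ2.sv 42 (σ2.v 42 + σ2.v 42)).sv 41
      ((σ2.sv 42 (σ2.v 42 + σ2.v 42)).v 41 + (σ2.sv 42 (σ2.v 42 + σ2.v 42)).v 47) := ⟨_, rfl⟩
    rw [← hσ4] at r4
    have f3 : Fr ({41, 42} : Set ℕ) ∅ σ2 σ4 := by
      rw [hσ4]
      exact (race_fr _ (by simp) _).trans (race_fr _ (by simp) _)
    refine ⟨σ4, ?_, race_env E2 f3 (by simp) (by simp) (by simp) (by simp), ?_, ?_, ?_, ?_, ?_⟩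
    · exact (r1.seq (r2.seq (Reach.ite_neg (fun h => hst (htest.1 h)) (r3.seq r4)))).mono (by omega)
    · intro i hi
      rw [f3.a 10 (by simp)]
      exact U2 i hi
    · rw [f3.v 103 (by simp), v103]
    · rw [f3.v 105 (by simp), v105]
    · intro h
      exact absurd h hst
    · intro _
      refine ⟨by rw [f3.v 104 (by simp), v104], ?_, ?_⟩
      · simp [hσ4, race_sv, v41, g47]
      · simp [hσ4, race_sv, v42, pow_succ]
        ring

private theorem race_loop {κ : ℕ} {p : Stmt} (hp : ∀ (x : List Bool) (s : ℕ) (σ : St)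
    (L : List Entry), Env σ x → σ.v 41 = s → σ.v 42 = 2 ^ s → StoredAt σ 10 0 (encE L) →
    ∃ τ, Reach p σ (κ * (2 ^ s + (L.length + 1) * (s + 1))) τ ∧ Env τ x ∧
      (∀ j < L.length, τ.a 4 j = if evt L x j s then 1 else 0) ∧
      (∀ j < L.length, evt L x j s = true → τ.a 5 j = if one L x j s then 1 else 0) ∧
      Fr LV LA σ τ) (e0 : ℕ) (dd : ℕ → ℕ) (fl : ℕ → ℕ → Bool) (k j : ℕ) (x : List Bool) (s d : ℕ)
    (hks : k ≤ s) (σ : St) (hE : Env σ x) (hU : StoredAt σ 10 0 (raceU e0 dd fl k))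
    (h103 : σ.v 103 = ((encE (raceL e0 dd k)).length : ℤ)) (h105 : σ.v 105 = ((min k (j + 1) : ℕ) : ℤ))
    (h104 : σ.v 104 = 1) (h41 : σ.v 41 = s) (h42 : σ.v 42 = 2 ^ s)
    (hno : ∀ r < d, ¬ RaceStop e0 dd fl k j x.length (s + r)) (hst : RaceStop e0 dd fl k j x.length (s + d)) :
    ∃ τ, Reach (.whl 104 (raceBody p)) σ ((14 * κ + 39) * 2 ^ (s + d)) τ ∧ τ.v 42 = 2 ^ (s + d) := by
  obtain ⟨τ, r, hI⟩ := Reach.loop (v := 104) (s := raceBody p) (d + 1)
    (fun r τ => Env τ x ∧ StoredAt τ 10 0 (raceU e0 dd fl k) ∧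
      τ.v 103 = ((encE (raceL e0 dd k)).length : ℤ) ∧ τ.v 105 = ((min k (j + 1) : ℕ) : ℤ) ∧
      (r ≤ d → τ.v 104 = 1 ∧ τ.v 41 = ((s + r : ℕ) : ℤ) ∧ τ.v 42 = 2 ^ (s + r)) ∧
      (r = d + 1 → τ.v 104 = 0 ∧ τ.v 42 = 2 ^ (s + d))) (fun r => (7 * κ + 18) * 2 ^ (s + r))
    (fun r hr τ hτ => by rw [(hτ.2.2.2.2.1 (by omega)).1]; exact one_pos)
    (fun τ hτ => by rw [(hτ.2.2.2.2.2 rfl).1]; exact lt_irrefl _)
    (by
      rintro r hr τ ⟨b0, b1, b2, b3, b4, -⟩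
      obtain ⟨c1, c2, c3⟩ := b4 (by omega)
      obtain ⟨ρ, q1, q2, q3, q4, q5, q6, q7⟩ := race_body hp e0 dd fl k j x (s + r) (by omega) τ b0 b1 b2 b3 c1 c2 c3
      refine ⟨ρ, q1, q2, q3, q4, q5, fun h => ?_, fun h => ?_⟩
      · have := q7 (hno r (by omega))
        exact ⟨this.1, by rw [this.2.1]; rfl, by rw [this.2.2]; rfl⟩
      · have hrd : r = d := by omega
        subst hrd
        exact q6 hst) σ
    ⟨hE, hU, h103, h105, fun _ => ⟨h104, by rw [h41]; simp, by rw [h42]; simp⟩, fun h => absurd h (by omega)⟩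
  refine ⟨τ, r.mono ?_, (hI.2.2.2.2.2 rfl).2⟩
  have h1 : ∀ r ∈ Finset.range (d + 1), (7 * κ + 18) * 2 ^ (s + r) + 1 ≤ (7 * κ + 19) * 2 ^ (s + r) := by
    intro r _
    have : 1 ≤ 2 ^ (s + r) := Nat.one_le_two_pow
    nlinarith
  have h2 := Finset.sum_le_sum h1
  rw [← Finset.mul_sum] at h2
  have h3 := Nat.mul_le_mul_left (7 * κ + 19) (race_geom s d)
  have h4 : 1 ≤ 2 ^ (s + d) := Nat.one_le_two_pow
  have h5 : (14 * κ + 39) * 2 ^ (s + d) = (7 * κ + 19) * (2 * 2 ^ (s + d)) + 2 ^ (s + d) := by ring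
  omega

private theorem race_count (k : ℕ) : ∀ σ : St, σ.v 42 = k → σ.v 47 = 1 →
    ∃ τ, Big (.whl 42 (.sub 42 42 47)) σ (2 * k + 1) τ := by
  induction k with
  | zero =>
    intro σ h _
    exact ⟨σ, Big.while_end (by rw [h]; simp)⟩
  | succ k ih =>
    intro σ h h47
    obtain ⟨τ, hτ⟩ := ih (σ.sv 42 (σ.v 42 - σ.v 47)) (by simp [St.sv, h, h47])
      (by simp [St.sv, h47])
    have h0 : 0 < σ.v 42 := by rw [h]; positivity
    have h1 := Big.while_step h0 (Big.sub σ 42 42 47) hτ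
    have e : 1 + (2 * k + 1) + 1 = 2 * (k + 1) + 1 := by ring
    rw [e] at h1
    exact ⟨τ, h1⟩

private theorem race_flat {F : ℕ → ℕ → List ℕ} (hF : Computable₂ F) :
    Computable (fun k => (List.range k).flatMap (F k)) := by
  have h : Computable fun a : ℕ => (Nat.rec (motive := fun _ => List ℕ) []
      (fun y IH => IH ++ F a y) a : List ℕ) :=
    Computable.nat_rec (f := fun a : ℕ => a) (g := fun _ : ℕ => ([] : List ℕ))
      (h := fun a (q : ℕ × List ℕ) => q.2 ++ F a q.1) Computable.id (Computable.const [])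
      ((Primrec.list_append.to_comp.comp (Computable.snd.comp Computable.snd)
        (hF.comp Computable.fst (Computable.fst.comp Computable.snd))).to₂)
  refine h.of_eq fun a => ?_
  have key : ∀ m : ℕ, (Nat.rec (motive := fun _ => List ℕ) [] (fun y IH => IH ++ F a y) m : List ℕ) =
      (List.range m).flatMap (F a) := by
    intro m
    induction m with
    | zero => rfl
    | succ m ih =>
      rw [List.range_succ, List.flatMap_append, ← ih]
      simp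
  exact key a

private theorem race_comp (e0 : ℕ) (dd : ℕ → ℕ) (fl : ℕ → ℕ → Bool) (hdd : Computable dd)
    (hfl : Computable₂ fl) : Computable (fun k => raceU e0 dd fl k) := by
  have hlen : Computable (fun e : ℕ => (pr e).length) := by
    have h : (fun e : ℕ => (pr e).length) =
        fun e : ℕ => (Denumerable.ofNat (List (ℕ × ℕ × ℕ × ℕ)) e).length := by
      funext e
      simp [pr]
    rw [h]
    exact (Primrec.list_length.comp (Primrec.ofNat _)).to_comp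
  have h1 : Computable₂ (fun (_ i : ℕ) => (1 : ℕ) :: (pr (dd i)).length :: ecs (pr (dd i))) := by
    have h2 : Computable (fun i : ℕ => (1 : ℕ) :: (pr (dd i)).length :: ecs (pr (dd i))) :=
      Computable.list_cons.comp (Computable.const 1) (Computable.list_cons.comp (hlen.comp hdd)
        (computable_ecs.comp hdd))
    exact (h2.comp Computable.snd).to₂
  have h3 : Computable₂ (fun (k i : ℕ) => [(fl k i).toNat]) := by
    have h4 : Computable (fun q : ℕ × ℕ => (fl q.1 q.2).toNat) :=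
      (Primrec.dom_finite Bool.toNat).to_comp.comp (hfl.comp Computable.fst Computable.snd)
    exact (Computable.list_cons.comp h4 (Computable.const [])).to₂
  have h5 : Computable (fun k : ℕ => (k + 1) :: ((1 : ℕ) :: (pr e0).length :: ecs (pr e0)) ++
      (List.range k).flatMap (fun i => (1 : ℕ) :: (pr (dd i)).length :: ecs (pr (dd i))) ++
      (List.range k).flatMap (fun i => [(fl k i).toNat])) := by
    refine Primrec.list_append.to_comp.comp (Primrec.list_append.to_comp.comp ?_ (race_flat h1)) (race_flat h3)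
    exact Computable.list_cons.comp Computable.succ (Computable.const _)
  refine h5.of_eq fun k => ?_
  have e1 : ∀ l : List ℕ, l.flatMap (fun i => [(fl k i).toNat]) = l.map (fun i => (fl k i).toNat) := by
    intro l
    induction l with
    | nil => rfl
    | cons a l ih => simp [ih]
  rw [e1]
  unfold raceU encE
  rw [raceL_len]
  unfold raceL
  rw [List.flatMap_cons, List.flatMap_map]
  rfl

/-- Slow table `u k = encE ((true, pr e0) :: (true, pr (dd i))_(i < k)) ++ (flags fl k i)_(i < k)`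
(the flag `i` is at position `length - k + i`). Program with parameter `j`: read the input, store
the table, for `s = s0 n, ...` run `jj_spec` until the stopping condition holds, then count down
from `2 ^ s`. -/
theorem race_index (e0 : ℕ) (dd : ℕ → ℕ) (fl : ℕ → ℕ → Bool) (h0 : Tot e0)
    (hdd : Computable dd) (hfl : Computable₂ fl) : ∃ (g ι : ℕ → ℕ), Computable ι ∧
      Tendsto g atTop atTop ∧ (∀ n, g n ≤ cap n) ∧ ∀ j, Tot (ι j) ∧ ∃ C, ∀ n, ∃ s, s0 n ≤ s ∧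
        RaceStop e0 dd fl (g n) j n s ∧
        (∀ s', s0 n ≤ s' → s' < s → ¬ RaceStop e0 dd fl (g n) j n s') ∧
        2 ^ s ≤ C * (ck (ι j) n + 1) ∧ ck (ι j) n ≤ C * 2 ^ s := by
  classical
  obtain ⟨g, -, hg, hgc, κ2, hlin⟩ := slow_tab (raceU e0 dd fl) (race_comp e0 dd fl hdd hfl)
  obtain ⟨P1, κ1, h1⟩ := read_input 100 le_rfl
  obtain ⟨P2, h2⟩ := hlin 10 101 le_rfl (by norm_num)
  obtain ⟨P3, κ3, h3⟩ := prep_spec
  obtain ⟨κ4, hjj⟩ := jj_spec
  obtain ⟨P4, h4⟩ := hjj 10 le_rfl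
  obtain ⟨r, rest, κ, hk⟩ := compile_param (.seq P1 (.seq P2 (.seq P3 (.seq racePow (.seq raceSet
    (.seq (.whl 104 (raceBody P4)) (.seq (.const 47 1) (.whl 42 (.sub 42 42 47)))))))) ) 100
  have hstop : ∀ j n, ∃ d, RaceStop e0 dd fl (g n) j n (s0 n + d) := by
    intro j n
    obtain ⟨B, hB⟩ := h0 n
    refine ⟨B + 1, Or.inl ⟨by omega, ?_⟩⟩
    have hle : B ≤ 2 ^ (s0 n + (B + 1) - 1) :=
      (Nat.lt_two_pow_self).le.trans (Nat.pow_le_pow_right (by norm_num) (by omega))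
    rw [hb_iff] at hB ⊢
    rw [conf_of_halted hB hle]
    exact hB
  refine ⟨g, fun j => num (Instr.const r (j : ℤ) :: rest), computable_param r rest, hg, hgc, fun j => ?_⟩
  have key : ∀ n, ∃ t o, 2 ^ (s0 n + Nat.find (hstop j n)) ≤ t ∧
      t ≤ κ * (κ1 + κ2 + κ3 + 14 * κ4 + 70) * 2 ^ (s0 n + Nat.find (hstop j n)) ∧
      Runs (Instr.const r (j : ℤ) :: rest) (List.replicate n false) t o := by
    intro n
    obtain ⟨x, hx⟩ : ∃ x, x = List.replicate n false := ⟨_, rfl⟩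
    have hxl : x.length = n := by rw [hx, List.length_replicate]
    rw [← hx]
    generalize hd : Nat.find (hstop j n) = d
    have hst : RaceStop e0 dd fl (g n) j n (s0 n + d) := by rw [← hd]; exact Nat.find_spec (hstop j n)
    have hno : ∀ r < d, ¬ RaceStop e0 dd fl (g n) j n (s0 n + r) := fun r hr =>
      Nat.find_min (hstop j n) (by rw [hd]; exact hr)
    obtain ⟨τ1, ⟨c1, hc1, b1⟩, env1, -, -, v1, -, -⟩ := h1 x (j : ℤ)
    obtain ⟨τ2, ⟨c2, hc2, b2⟩, env2, st2, l2, f2⟩ := h2 x τ1 env1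
    obtain ⟨τ3, ⟨c3, hc3, b3⟩, env3, w43, -, -, f3⟩ := h3 x τ2 env2
    rw [hxl] at hc1 hc2 hc3 st2 l2 w43
    obtain ⟨τ4, ⟨c4, hc4, b4⟩, f4, w41, w42⟩ := race_pow τ3 (s0 n) w43
    have U4 : StoredAt τ4 10 0 (raceU e0 dd fl (g n)) := fun i hi => by
      rw [f4.a 10 (by simp), f3.a 10 (by simp)]
      exact st2 i hi
    have nLV : ∀ v : ℕ, 100 ≤ v → v ≠ 101 → v ∉ LV ∪ {101} := fun v hv hv' h => by
      simp only [LV, Set.mem_union, Set.mem_ofPred_eq, Set.mem_singleton_iff] at h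
      omega
    have n3 : ∀ v : ℕ, 60 ≤ v → v ∉ {v : ℕ | 43 ≤ v ∧ v < 60} := fun v hv h => by
      simp only [Set.mem_ofPred_eq] at h
      omega
    have w100 : τ4.v 100 = j := by
      rw [f4.v 100 (by simp), f3.v 100 (n3 _ (by norm_num)), f2.v 100 (nLV _ le_rfl (by norm_num)), v1]
    have w101 : τ4.v 101 = ((raceU e0 dd fl (g n)).length : ℤ) := by
      rw [f4.v 101 (by simp), f3.v 101 (n3 _ (by norm_num)), l2]
    have w10 : τ4.a 10 0 = ((g n : ℕ) : ℤ) + 1 := by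
      have h5 := U4 0 (by rw [raceU_len]; simp [encE])
      rw [Nat.zero_add] at h5
      rw [h5]
      simp [raceU, encE, raceL_len]
    obtain ⟨τ5, ⟨c5, hc5, b5⟩, f5, x103, x105, x104⟩ := race_set τ4 (raceU e0 dd fl (g n)).length (g n) j w101 w10 w100
      (by rw [raceU_len]; omega)
    have hgs : g n ≤ s0 n := (hgc n).trans (cap_le_s0 n)
    have E4 : Env τ4 x := race_env env3 f4 (by simp) (by simp) (by simp) (by simp)
    have E5 : Env τ5 x := race_env E4 f5 (by simp) (by simp) (by simp) (by simp)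
    obtain ⟨τ6, ⟨c6, hc6, b6⟩, w6⟩ := race_loop (h4) e0 dd fl (g n) j x (s0 n) d hgs τ5 E5
      (fun i hi => by rw [f5.a 10 (by simp)]; exact U4 i hi)
      (by rw [x103, raceU_len]; simp) x105 x104 (by rw [f5.v 41 (by simp), w41])
      (by rw [f5.v 42 (by simp), w42]) (by rw [hxl]; exact hno) (by rw [hxl]; exact hst)
    obtain ⟨τ7, b7⟩ := race_count (2 ^ (s0 n + d)) (τ6.sv 47 1) (by simp [race_sv, w6]) (by simp [race_sv])
    obtain ⟨t, ht1, ht2, hr⟩ := hk j x _ τ7 (Big.seq b1 (Big.seq b2 (Big.seq b3 (Big.seq b4 (Big.seq b5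
      (Big.seq b6 (Big.seq (Big.const τ6 47 1) b7)))))))
    refine ⟨t, τ7.out, by omega, ht2.trans ?_, hr⟩
    rw [mul_assoc]
    refine Nat.mul_le_mul_left κ ?_
    have m1 : n + 1 ≤ 2 ^ (s0 n + d) :=
      (lt_two_pow_s0 n).trans_le (Nat.pow_le_pow_right (by norm_num) (by omega))
    have m2 : s0 n + d < 2 ^ (s0 n + d) := Nat.lt_two_pow_self
    have m3 : (κ1 + κ2 + κ3 + 14 * κ4 + 70) * 2 ^ (s0 n + d) = κ1 * 2 ^ (s0 n + d) + κ2 * 2 ^ (s0 n + d) +
      κ3 * 2 ^ (s0 n + d) + (14 * κ4 + 39) * 2 ^ (s0 n + d) + 31 * 2 ^ (s0 n + d) := by ring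
    rw [m3]
    have m4 := Nat.mul_le_mul_left κ1 m1
    have m5 := Nat.mul_le_mul_left κ2 m1
    have m6 := Nat.mul_le_mul_left κ3 m1
    omega
  have hpr : pr (num (Instr.const r (j : ℤ) :: rest)) = Instr.const r (j : ℤ) :: rest := pr_num _
  refine ⟨?_, 1 + κ * (κ1 + κ2 + κ3 + 14 * κ4 + 70), fun n => ⟨s0 n + Nat.find (hstop j n), by omega,
    Nat.find_spec (hstop j n), fun s' h5 h6 h7 => ?_, ?_, ?_⟩⟩
  · rw [tot_iff]
    intro n
    obtain ⟨t, o, -, -, hr⟩ := key n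
    exact ⟨t, o, by rw [hpr]; exact hr⟩
  · refine Nat.find_min (hstop j n) (m := s' - s0 n) (by omega) ?_
    rw [show s0 n + (s' - s0 n) = s' by omega]
    exact h7
  · obtain ⟨t, o, h5, -, hr⟩ := key n
    rw [← hpr] at hr
    rw [ck_of_runs hr]
    calc 2 ^ (s0 n + Nat.find (hstop j n)) ≤ 1 * (n + t + 1) := by omega
      _ ≤ (1 + κ * (κ1 + κ2 + κ3 + 14 * κ4 + 70)) * (n + t + 1) := Nat.mul_le_mul_right _ (by omega)
  · obtain ⟨t, o, -, h5, hr⟩ := key n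
    rw [← hpr] at hr
    rw [ck_of_runs hr]
    have m1 : n + 1 ≤ 2 ^ (s0 n + Nat.find (hstop j n)) :=
      (lt_two_pow_s0 n).trans_le (Nat.pow_le_pow_right (by norm_num) (by omega))
    have e : (1 + κ * (κ1 + κ2 + κ3 + 14 * κ4 + 70)) * 2 ^ (s0 n + Nat.find (hstop j n)) =
      2 ^ (s0 n + Nat.find (hstop j n)) + κ * (κ1 + κ2 + κ3 + 14 * κ4 + 70) * 2 ^ (s0 n + Nat.find (hstop j n)) := by
      ring
    rw [e]
    omega

end Pool.Agent.H71.CT
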