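import Mathlib

/-!
Random access machines, time constructible functions, complexity types.
-/

namespace Pool.Agent.H71.CT

/-- The instructions of the random access machine. The registers are `X_0, X_1, X_2, ...`. -/
inductive Instr where
  /-- `X_i := c` -/
  | const (i : ℕ) (c : ℤ)
  /-- `X_i := X_j + X_k` -/
  | add (i j k : ℕ)
  /-- `X_i := X_j - X_k` -/
  | sub (i j k : ℕ)
  /-- `X_i := X_a` with `a = X_j` -/
  | load (i j : ℕ)
  /-- `X_a := X_j` with `a = X_i` -/
  | store (i j : ℕ)
  /-- if `X_j > 0` then go to instruction number `m` -/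
  | jpos (j m : ℕ)
  /-- read the next input symbol into `X_i` -/
  | read (i : ℕ)
  /-- print `X_i` -/
  | print (i : ℕ)
  deriving DecidableEq

/-- A configuration: program counter, registers, unread input, printed output. -/
structure Cfg where
  pc : ℕ
  reg : ℕ → ℤ
  inp : List Bool
  out : List ℤ

/-- The symbol read: `0`, `1`, or `2` when the input is used up. -/
def sym : List Bool → ℤ
  | [] => 2
  | false :: _ => 0
  | true :: _ => 1

/-- Execution of one instruction (a negative address means register `0`). -/
def Instr.exec : Instr → Cfg → Cfg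
  | .const i c, s => ⟨s.pc + 1, Function.update s.reg i c, s.inp, s.out⟩
  | .add i j k, s => ⟨s.pc + 1, Function.update s.reg i (s.reg j + s.reg k), s.inp, s.out⟩
  | .sub i j k, s => ⟨s.pc + 1, Function.update s.reg i (s.reg j - s.reg k), s.inp, s.out⟩
  | .load i j, s => ⟨s.pc + 1, Function.update s.reg i (s.reg (s.reg j).toNat), s.inp, s.out⟩
  | .store i j, s => ⟨s.pc + 1, Function.update s.reg (s.reg i).toNat (s.reg j), s.inp, s.out⟩
  | .jpos j m, s => ⟨if 0 < s.reg j then m else s.pc + 1, s.reg, s.inp, s.out⟩
  | .read i, s => ⟨s.pc + 1, Function.update s.reg i (sym s.inp), s.inp.tail, s.out⟩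
  | .print i, s => ⟨s.pc + 1, s.reg, s.inp, s.out ++ [s.reg i]⟩

/-- A program is a finite list of instructions. -/
abbrev Prog := List Instr

/-- One step. The machine stops when its program counter leaves the program. -/
def step (p : Prog) (s : Cfg) : Cfg :=
  match p[s.pc]? with
  | none => s
  | some a => a.exec s

/-- The machine has halted. -/
def Halted (p : Prog) (s : Cfg) : Prop := p.length ≤ s.pc

/-- The initial configuration on input `x`. -/
def start (x : List Bool) : Cfg := ⟨0, fun _ => 0, x, []⟩

/-- The configuration after `t` steps on input `x`. -/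
def conf (p : Prog) (x : List Bool) (t : ℕ) : Cfg := (step p)^[t] (start x)

/-- On input `x` the machine `p` executes exactly `t` instructions, halts, and has printed `o`. -/
def Runs (p : Prog) (x : List Bool) (t : ℕ) (o : List ℤ) : Prop :=
  Halted p (conf p x t) ∧ (∀ s < t, ¬ Halted p (conf p x s)) ∧ (conf p x t).out = o

open Classical in
/-- `A` is in `DTIME(f)`: some machine decides `A` (prints `1` or `0`) and executes `O(f(n))`
instructions on every input of length `n`. -/
def DTIME (f : ℕ → ℕ) (A : Set (List Bool)) : Prop :=
  ∃ (p : Prog) (c : ℕ), ∀ x : List Bool, ∃ t ≤ c * (f x.length + 1),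
    Runs p x t [if x ∈ A then 1 else 0]

open Classical in
/-- `A` is computable: some machine decides it. -/
def CompSet (A : Set (List Bool)) : Prop :=
  ∃ p : Prog, ∀ x : List Bool, ∃ t, Runs p x t [if x ∈ A then 1 else 0]

/-- The class `T`: `f(n) ≥ n`, and some machine, given any input of length `n`, prints `f(n)`
after `O(f(n))` instructions. -/
def TC (f : ℕ → ℕ) : Prop :=
  (∀ n, n ≤ f n) ∧ ∃ (p : Prog) (c : ℕ), ∀ x : List Bool, ∃ t ≤ c * (f x.length + 1),
    Runs p x t [(f x.length : ℤ)]

/-- `A ≤_C B`. -/
def LeC (A B : Set (List Bool)) : Prop := ∀ f, TC f → DTIME f B → DTIME f A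

/-- The computable sets of binary strings. -/
def CSet : Type := {A : Set (List Bool) // CompSet A}

instance : Preorder CSet where
  le A B := LeC A.1 B.1
  le_refl A := fun _ _ h => h
  le_trans A B C h₁ h₂ := fun f hf h => h₁ f hf (h₂ f hf h)

/-- The complexity types: the computable sets modulo `A ≤_C B ∧ B ≤_C A`, with the induced
partial order. -/
def CType : Type := Antisymmetrization CSet (· ≤ ·)

noncomputable instance : PartialOrder CType :=
  inferInstanceAs (PartialOrder (Antisymmetrization CSet (· ≤ ·)))

/-- The complexity type of a computable set. -/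
def CType.of (A : CSet) : CType := toAntisymmetrization (· ≤ ·) A

/-- The type `C` is contained in `P`: every member of `C` is in `DTIME(n^k)` for some `k`. -/
def InP (C : CType) : Prop := ∀ A : CSet, CType.of A = C → ∃ k : ℕ, DTIME (fun n => n ^ k) A.1

end Pool.Agent.H71.CT
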