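import Pool.Agent.H71.CT.DComp
import Pool.Agent.H71.CT.DProg
import Pool.Agent.H71.CT.SelfRef
import Pool.Agent.H71.CT.FinDiff

/-!
The realisation theorem.

Proof. `B = BFrom ι κ 0` with `d`, `κ` from `self_ref` for `PsiD ι`. Upper bound: `BFrom ι κ i`
differs from `B` only in strings `xs e n` with `e < i`; for each `e` there are finitely many of
them in `B` (if `e` acts at some `m` it is blocked as soon as `m < κ n`); so `d_prog`, `dtime_fin`.
Lower bound: let program `e` decide `B` within `c (f n + 1)` steps. Then `e` never acts: at the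
first `m` at which it acts it is not blocked (`κ m ≤ cap m ≤ m`, so the blocking `m' < κ m` would be
smaller), and `xs e m ∈ B` iff program `e` does not accept it, contradiction. So for all `n` with
`e < κ n`, `e ≤ n` some clock `ι j`, `j ≤ e`, has halted when program `e` halts on `xs e n`; since
the clocks are descending `ck (ι e) = O(ck (ι j))` for `j ≤ e` ... = `O(f)`.
-/

namespace Pool.Agent.H71.CT

open Filter

private theorem le_ck (e n : ℕ) : n ≤ ck e n := by
  unfold ck
  split_ifs <;> omega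

private theorem ck_le {e n B : ℕ} (h : hb e (List.replicate n false) B = true) :
    ck e n ≤ n + B := by
  have h' : ∃ B, hb e (List.replicate n false) B = true := ⟨B, h⟩
  unfold ck
  rw [dif_pos h']
  have := Nat.find_min' h' h
  omega

private theorem cap_le (n : ℕ) : cap n ≤ n := by
  have h1 : ∀ m : ℕ, Nat.size m ≤ m := fun m => Nat.size_le.mpr Nat.lt_two_pow_self
  exact (h1 _).trans (h1 _)

private theorem length_xs {e n : ℕ} (h : e ≤ n) : (xs e n).length = n := by
  unfold xs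
  rw [List.length_append, List.length_replicate, List.length_replicate]
  omega

private theorem count_xs (e n : ℕ) : (xs e n).count true = e := by
  unfold xs
  rw [List.count_append, List.count_replicate, List.count_replicate]
  simp

private theorem xs_inj {e n e' n' : ℕ} (h : e ≤ n) (h' : e' ≤ n') (hx : xs e n = xs e' n') :
    e = e' ∧ n = n' := by
  refine ⟨?_, ?_⟩
  · rw [← count_xs e n, hx, count_xs]
  · rw [← length_xs h, hx, length_xs h']

/-- the sets from `i` on differ finitely -/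
private theorem fin_diff (ι κ : ℕ → ℕ) (hκ : Tendsto κ atTop atTop) (i : ℕ) :
    {x | ¬ (x ∈ BFrom ι κ i ↔ x ∈ BFrom ι κ 0)}.Finite := by
  have hS : ∀ e, {n | (∀ m < κ n, ¬ Act ι (κ m) e m) ∧ Act ι (κ n) e n}.Finite := by
    intro e
    by_cases hex : ∃ m, Act ι (κ m) e m
    · obtain ⟨m, hm⟩ := hex
      obtain ⟨N, hN⟩ := eventually_atTop.mp (hκ.eventually_gt_atTop m)
      refine (Set.finite_lt_nat N).subset ?_
      rintro n ⟨h1, _⟩
      by_contra hn
      exact h1 m (hN n (not_lt.mp hn)) hm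
    · refine Set.finite_empty.subset ?_
      rintro n ⟨_, h2⟩
      exact (hex ⟨n, h2⟩).elim
  have hfin : (⋃ e ∈ {e | e < i}, (xs e) ''
      {n | (∀ m < κ n, ¬ Act ι (κ m) e m) ∧ Act ι (κ n) e n}).Finite :=
    (Set.finite_lt_nat i).biUnion fun e _ => (hS e).image _
  refine hfin.subset ?_
  intro x hx
  have hsub : x ∈ BFrom ι κ i → x ∈ BFrom ι κ 0 := by
    rintro ⟨e, n, _, h2⟩
    exact ⟨e, n, Nat.zero_le e, h2⟩
  have hx' : x ∈ BFrom ι κ 0 ∧ x ∉ BFrom ι κ i := by
    by_contra hcon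
    apply hx
    refine ⟨hsub, fun h0 => ?_⟩
    by_contra h1
    exact hcon ⟨h0, h1⟩
  obtain ⟨⟨e, n, _, h2, h3, h4, h5⟩, hni⟩ := hx'
  have hei : e < i := by
    by_contra hcon
    exact hni ⟨e, n, not_lt.mp hcon, h2, h3, h4, h5⟩
  refine Set.mem_iUnion₂.mpr ⟨e, hei, ?_⟩
  exact ⟨n, ⟨h3, h4⟩, h2.symm⟩

private theorem ole_chain (ι : ℕ → ℕ) (hdesc : ∀ j, Ole (ck (ι (j + 1))) (ck (ι j))) (j : ℕ) :
    ∀ e, j ≤ e → Ole (ck (ι e)) (ck (ι j)) := by
  intro e he
  induction e, he using Nat.le_induction with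
  | base => exact Ole.refl _
  | succ e _ ih => exact (hdesc e).trans ih

/-- a program that decides the set never acts -/
private theorem never_acts (ι κ : ℕ → ℕ) (hcap : ∀ n, κ n ≤ cap n) {e : ℕ}
    (hrun : ∀ x : List Bool, ∃ t o, Runs (pr e) x t o ∧ (x ∈ BFrom ι κ 0 ↔ o = [1])) (n : ℕ) :
    ¬ Act ι (κ n) e n := by
  classical
  intro hact
  have hex : ∃ m, Act ι (κ m) e m := ⟨n, hact⟩
  obtain ⟨m, hm, hmin⟩ : ∃ m, Act ι (κ m) e m ∧ ∀ m' < m, ¬ Act ι (κ m') e m' :=
    ⟨Nat.find hex, Nat.find_spec hex, fun m' h => Nat.find_min hex h⟩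
  have hblk : ∀ m' < κ m, ¬ Act ι (κ m') e m' := by
    intro m' hm'
    have h1 := hcap m
    have h2 := cap_le m
    exact hmin m' (by omega)
  obtain ⟨t, o, hr, ho⟩ := hrun (xs e m)
  by_cases hA : Acc e (xs e m)
  · obtain ⟨b, hb1, hb2⟩ := hA
    have hout : (conf (pr e) (xs e m) b).out = [1] := by
      unfold oc at hb2
      by_contra hcon
      rw [if_neg hcon] at hb2
      split_ifs at hb2 <;> omega
    have hhalt : Halted (pr e) (conf (pr e) (xs e m) b) := hb_iff.mp hb1
    have ho1 : o = [1] := by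
      rw [← hr.2.2, ← hout]
      rcases le_total t b with htb | hbt
      · rw [conf_of_halted hr.1 htb]
      · rw [conf_of_halted hhalt hbt]
    obtain ⟨e', n', _, hx, _, h4, h5⟩ := ho.mpr ho1
    obtain ⟨he, hn⟩ := xs_inj hm.2.1 h4.2.1 hx
    subst he hn
    exact h5 ⟨b, hb1, hb2⟩
  · have hin : xs e m ∈ BFrom ι κ 0 := ⟨e, m, Nat.zero_le e, rfl, hblk, hm, hA⟩
    apply hA
    refine ⟨t, hb_iff.mpr hr.1, ?_⟩
    unfold oc
    rw [hr.2.2, ho.mp hin, if_pos rfl]

theorem real_thm (ι : ℕ → ℕ) (hι : Computable ι) (ht : ∀ j, Tot (ι j))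
    (hdesc : ∀ j, Ole (ck (ι (j + 1))) (ck (ι j))) :
    ∃ B : Set (List Bool), CompSet B ∧ ∀ f, (∀ n, n ≤ f n) →
      (DTIME f B ↔ ∃ j, Ole (ck (ι j)) f) := by
  classical
  obtain ⟨d, κ, hd, hκ, hcap, _, _, hlin⟩ := self_ref (PsiD ι) (computable_PsiD ι hι ht)
  have hprog : ∀ i, DTIME (ck (ι i)) (BFrom ι κ i) := fun i => d_prog ι κ ht d hlin hd hcap i
  refine ⟨BFrom ι κ 0, ?_, ?_⟩
  · obtain ⟨p, c, hp⟩ := hprog 0
    refine ⟨p, fun x => ?_⟩
    obtain ⟨t, _, h⟩ := hp x
    exact ⟨t, h⟩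
  intro f hf
  constructor
  · rintro ⟨p, c, hp⟩
    have hpe : pr (num p) = p := pr_num p
    generalize num p = e at hpe
    subst hpe
    have hnever : ∀ n, ¬ Act ι (κ n) e n := by
      intro n
      refine never_acts ι κ hcap ?_ n
      intro x
      obtain ⟨t, _, h⟩ := hp x
      refine ⟨t, _, h, ?_⟩
      by_cases hx : x ∈ BFrom ι κ 0
      · simp [hx]
      · simp [hx]
    have hole : ∀ j, j ≤ e → ∃ C, ∀ n, ck (ι e) n ≤ C * (ck (ι j) n + 1) := fun j hj =>
      ole_chain ι hdesc j e hj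
    choose! Cf hCf using hole
    obtain ⟨N, hN⟩ := eventually_atTop.mp (hκ.eventually_gt_atTop e)
    obtain ⟨CC, hCC⟩ : ∃ CC, CC = ∑ j ∈ Finset.range (e + 1), Cf j := ⟨_, rfl⟩
    obtain ⟨C1, hC1⟩ : ∃ C1, C1 = 1 + 2 ^ (2 * e + 2) * (2 * (c + 1) + 1) := ⟨_, rfl⟩
    obtain ⟨K, hK⟩ : ∃ K, K = ∑ m ∈ Finset.range (N + e), ck (ι e) m := ⟨_, rfl⟩
    refine ⟨e, CC * (C1 + 1) + K, fun n => ?_⟩
    by_cases hn : n < N + e
    · have h1 : ck (ι e) n ≤ K := by
        rw [hK]
        exact Finset.single_le_sum (f := fun m => ck (ι e) m) (fun _ _ => Nat.zero_le _)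
          (Finset.mem_range.mpr hn)
      calc ck (ι e) n ≤ K * 1 := by omega
        _ ≤ (CC * (C1 + 1) + K) * (f n + 1) := Nat.mul_le_mul (Nat.le_add_left _ _) (by omega)
    · have hnN : N ≤ n := by omega
      have hen : e ≤ n := by omega
      obtain ⟨t, htc, hr⟩ := hp (xs e n)
      rw [length_xs hen] at htc
      obtain ⟨s, hs⟩ : ∃ s, s = 2 * e + 2 + Nat.size (c * (f n + 1) + n) := ⟨_, rfl⟩
      have hs0 : s0 n ≤ s := by
        have : Nat.size n ≤ Nat.size (c * (f n + 1) + n) := Nat.size_le_size (by omega)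
        unfold s0
        omega
      have hbig : c * (f n + 1) + n < 2 ^ (s - (2 * e + 2)) := by
        have h1 : s - (2 * e + 2) = Nat.size (c * (f n + 1) + n) := by omega
        rw [h1]
        exact Nat.lt_size_self _
      have hhb : hb e (xs e n) (2 ^ (s - (2 * e + 2))) = true := by
        rw [hb_iff, conf_of_halted hr.1 (by omega)]
        exact hr.1
      have hex : ∃ j ≤ e, 2 * j + 1 ≤ s ∧
          hb (ι j) (List.replicate n false) (2 ^ (s - (2 * j + 1))) = true := by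
        by_contra hcon
        push Not at hcon
        refine hnever n ⟨hN n hnN, hen, s, hs0, by omega, hhb, ?_⟩
        rintro j hj ⟨h1, h2⟩
        exact hcon j hj h1 h2
      obtain ⟨j, hj, _, hjb⟩ := hex
      have h1 : ck (ι j) n ≤ n + 2 ^ s :=
        (ck_le hjb).trans (Nat.add_le_add_left (Nat.pow_le_pow_right (by norm_num) (by omega)) n)
      have h2 : 2 ^ s ≤ 2 ^ (2 * e + 2) * (2 * (c + 1) + 1) * (f n + 1) := by
        rw [hs, pow_add, mul_assoc]
        refine Nat.mul_le_mul_left _ ?_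
        have h3 := two_pow_s0_le (c * (f n + 1) + n)
        have h4 := hf n
        have h5 : 2 ^ Nat.size (c * (f n + 1) + n) ≤ 2 * (c * (f n + 1) + n) + 1 := h3
        calc 2 ^ Nat.size (c * (f n + 1) + n) ≤ 2 * (c * (f n + 1) + n) + 1 := h5
          _ ≤ 2 * (c * (f n + 1) + (f n + 1)) + (f n + 1) := by omega
          _ = (2 * (c + 1) + 1) * (f n + 1) := by ring
      have h3 : ck (ι j) n ≤ C1 * (f n + 1) := by
        have h4 := hf n
        rw [hC1, add_mul, one_mul]
        omega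
      have h4 : Cf j ≤ CC := by
        rw [hCC]
        exact Finset.single_le_sum (f := Cf) (fun _ _ => Nat.zero_le _)
          (Finset.mem_range.mpr (by omega))
      calc ck (ι e) n ≤ Cf j * (ck (ι j) n + 1) := hCf j hj n
        _ ≤ CC * (C1 * (f n + 1) + 1) := Nat.mul_le_mul h4 (by omega)
        _ ≤ CC * ((C1 + 1) * (f n + 1)) := Nat.mul_le_mul_left _ (by
            rw [add_mul, one_mul]
            omega)
        _ = CC * (C1 + 1) * (f n + 1) := by ring
        _ ≤ (CC * (C1 + 1) + K) * (f n + 1) :=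
          Nat.mul_le_mul_right _ (Nat.le_add_right _ _)
  · rintro ⟨j, hj⟩
    exact (dtime_fin (fun n => le_ck (ι j) n) (hprog j) (fin_diff ι κ hκ j)).mono hj

end Pool.Agent.H71.CT
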