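import Pool.Agent.H71.CT.Boards

/-! The two sides of a stage. -/

namespace Pool.Agent.H71.CT

open Filter

/-- One side of a stage: stopping times `A v n`, horizon `F n`; we control the functions
`meP par`. -/
structure Side (stp : ℕ → ℕ → ℕ → Bool) (par : Bool) (A : ℕ → ℕ → ℕ) (F : ℕ → ℕ) : Prop where
  jr : JR A F stp
  ok : ∀ n, (mkB A F stp par n).Ok
  cA : Computable (fun a : ℕ × ℕ => A a.1 a.2)
  cF : Computable F

/-- state of level `k` of board `n` at its horizon -/
def fin (A : ℕ → ℕ → ℕ) (F : ℕ → ℕ) (k n : ℕ) : Q :=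
  hist k (fun v => A v n) (s0 n) (F n - s0 n)

/-- the two sides see the same states infinitely often -/
def Same (A : ℕ → ℕ → ℕ) (F : ℕ → ℕ) (B : ℕ → ℕ → ℕ) (G : ℕ → ℕ) : Prop :=
  ∀ k s, (∃ᶠ n in atTop, fin A F k n = s) ↔ (∃ᶠ n in atTop, fin B G k n = s)

/-- the table of a stage, computed from the earlier tables -/
def PsiS (stp : ℕ → ℕ → ℕ → Bool) (par : Bool) (A : ℕ → ℕ → ℕ) (F F' : ℕ → ℕ)
    (B : ℕ → ℕ → ℕ) (G : ℕ → ℕ) (L : List (List ℕ)) : List ℕ :=
  mkT (meP par) L.length (payN L.length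
    (fun m => hist L.length (newA (L.getD m []) (mkB A F stp (!par) m) true (F' m)) (s0 m)
      (F' m - s0 m))
    (fun m => hist L.length (newA (L.getD m []) (mkB B G stp par m) false
      (newH (L.getD m []) (mkB B G stp par m))) (s0 m)
      (newH (L.getD m []) (mkB B G stp par m) - s0 m)))

end Pool.Agent.H71.CT
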