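import Pool.Agent.H71.CT.Entries
import Pool.Agent.H71.CT.Prep
import Pool.Agent.H71.CT.Interp

/-! Running a fixed program until it halts. -/

namespace Pool.Agent.H71.CT

private theorem SimRun_rc (σ : St) (v : ℕ) (c : ℤ) : Reach (.const v c) σ 1 (σ.sv v c) :=
  ⟨1, le_rfl, Big.const σ v c⟩

private theorem SimRun_rm (σ : St) (v a : ℕ) : Reach (.mov v a) σ 1 (σ.sv v (σ.v a)) :=
  ⟨1, le_rfl, Big.mov σ v a⟩

private theorem SimRun_ra (σ : St) (v a b : ℕ) :
    Reach (.add v a b) σ 1 (σ.sv v (σ.v a + σ.v b)) :=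
  ⟨1, le_rfl, Big.add σ v a b⟩

private theorem SimRun_rs (σ : St) (v a b : ℕ) :
    Reach (.sub v a b) σ 1 (σ.sv v (σ.v a - σ.v b)) :=
  ⟨1, le_rfl, Big.sub σ v a b⟩

private theorem SimRun_rp (σ : St) (a i v : ℕ) :
    Reach (.put a i v) σ 1 (σ.sa a (σ.v i).toNat (σ.v v)) :=
  ⟨1, le_rfl, Big.put σ a i v⟩

private theorem SimRun_sv_v (σ : St) (v w : ℕ) (z : ℤ) :
    (σ.sv v z).v w = if w = v then z else σ.v w := by
  simp [St.sv, Function.update_apply]

private theorem SimRun_sa_a (σ : St) (a i b j : ℕ) (z : ℤ) :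
    (σ.sa a i z).a b j = if b = a ∧ j = i then z else σ.a b j := by
  unfold St.sa
  by_cases h : b = a
  · subst h
    simp [Function.update_apply]
  · simp [h]

private theorem SimRun_fr_sv {VS AS : Set ℕ} (σ : St) {v : ℕ} (hv : v ∈ VS) (z : ℤ) :
    Fr VS AS σ (σ.sv v z) := by
  refine ⟨fun w hw => ?_, fun _ _ => rfl, rfl, rfl⟩
  rw [SimRun_sv_v, if_neg]
  rintro rfl
  exact hw hv

/-- write the list `l` into array 4 from position `b` on -/
private def SimRun_wr : ℕ → List ℕ → Stmt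
  | _, [] => .skip
  | b, c :: l =>
    .seq (.const 46 b) (.seq (.const 47 c) (.seq (.put 4 46 47) (SimRun_wr (b + 1) l)))

private theorem SimRun_wr_spec (l : List ℕ) : ∀ (b : ℕ) (σ : St),
    ∃ τ, Reach (SimRun_wr b l) σ (3 * l.length) τ ∧ Fr {46, 47} {4} σ τ ∧
      (∀ i < b, τ.a 4 i = σ.a 4 i) ∧ StoredAt τ 4 b l := by
  induction l with
  | nil =>
    intro b σ
    exact ⟨σ, Reach.skip σ, Fr.refl _ _ σ, fun _ _ => rfl,
      fun i hi => absurd hi (Nat.not_lt_zero _)⟩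
  | cons c l ih =>
    intro b σ
    obtain ⟨σ1, h1⟩ : ∃ s, s = σ.sv 46 (b : ℤ) := ⟨_, rfl⟩
    obtain ⟨σ2, h2⟩ : ∃ s, s = σ1.sv 47 (c : ℤ) := ⟨_, rfl⟩
    obtain ⟨σ3, h3⟩ : ∃ s, s = σ2.sa 4 b (c : ℤ) := ⟨_, rfl⟩
    have e46 : σ2.v 46 = b := by simp [h2, h1, SimRun_sv_v]
    have e47 : σ2.v 47 = c := by simp [h2, SimRun_sv_v]
    have r1 := SimRun_rc σ 46 (b : ℤ)
    have r2 := SimRun_rc σ1 47 (c : ℤ)
    have r3 := SimRun_rp σ2 4 46 47
    rw [← h1] at r1
    rw [← h2] at r2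
    rw [e46, e47, Int.toNat_natCast, ← h3] at r3
    have f2 : Fr {46, 47} {4} σ σ2 := by
      rw [h2, h1]
      refine (SimRun_fr_sv σ ?_ _).trans (SimRun_fr_sv _ ?_ _) <;> simp
    have f3 : Fr {46, 47} {4} σ2 σ3 := by
      refine ⟨fun v _ => by rw [h3]; rfl, fun a ha => ?_, by rw [h3]; rfl, by rw [h3]; rfl⟩
      funext j
      rw [h3, SimRun_sa_a, if_neg]
      rintro ⟨h, _⟩
      exact ha (by simp [h])
    have a2 : σ2.a = σ.a := by rw [h2, h1]; rfl
    obtain ⟨τ, r, hf, hk, hs⟩ := ih (b + 1) σ3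
    refine ⟨τ, (r1.seq (r2.seq (r3.seq r))).mono ?_, (f2.trans f3).trans hf, ?_, ?_⟩
    · simp only [List.length_cons]
      omega
    · intro i hi
      rw [hk i (by omega), h3, SimRun_sa_a, if_neg, a2]
      rintro ⟨_, h⟩
      omega
    · intro i hi
      rcases i with _ | i
      · rw [Nat.add_zero, hk b (by omega), h3, SimRun_sa_a, if_pos ⟨rfl, rfl⟩]
        rfl
      · have h' : i < l.length := by
          simp only [List.length_cons] at hi
          omega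
        have := hs i h'
        rw [show b + (i + 1) = b + 1 + i by ring, this]
        rfl

private theorem SimRun_conf_stop (p : Prog) (y : List Bool) (n : ℕ)
    (h : Halted p (conf p y n)) (d : ℕ) : conf p y (n + d) = conf p y n := by
  induction d with
  | zero => rfl
  | succ d ih =>
    have e : conf p y (n + (d + 1)) = step p (conf p y (n + d)) := by
      unfold conf
      rw [← Nat.add_assoc, Function.iterate_succ_apply']
    rw [e, ih]
    unfold step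
    rw [List.getElem?_eq_none h]

/-- data that stay valid -/
private structure SimRun_K (p : Prog) (y : List Bool) (σ : St) : Prop where
  cb : σ.v 1 = 0
  len : σ.v 2 = p.length
  code : StoredAt σ 4 0 (ecs p)
  inp : InpAt σ y
  one : σ.v 48 = 1

private theorem SimRun_keep {p : Prog} {y : List Bool} {σ τ : St} (h : SimRun_K p y σ)
    (hf : Fr (iV ∪ {44, 45}) iA σ τ) : SimRun_K p y τ := by
  have k1 : (1 : ℕ) ∉ iV ∪ {44, 45} := by simp [iV]
  have k2 : (2 : ℕ) ∉ iV ∪ {44, 45} := by simp [iV]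
  have k4 : (4 : ℕ) ∉ iV ∪ {44, 45} := by simp [iV]
  have k5 : (5 : ℕ) ∉ iV ∪ {44, 45} := by simp [iV]
  have k48 : (48 : ℕ) ∉ iV ∪ {44, 45} := by simp [iV]
  have k0 : (0 : ℕ) ∉ iA := by simp [iA]
  have kc : (4 : ℕ) ∉ iA := by simp [iA]
  refine ⟨by rw [hf.v 1 k1, h.cb], by rw [hf.v 2 k2, h.len], ?_, ?_, by rw [hf.v 48 k48, h.one]⟩
  · intro i hi
    rw [hf.a 4 kc]
    exact h.code i hi
  · have := h.inp
    unfold InpAt at this ⊢
    rw [hf.v 5 k5, hf.v 4 k4, hf.a 0 k0]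
    exact this

/-- the result of a round -/
private structure SimRun_R (p : Prog) (y : List Bool) (m : ℕ) (τ : St) : Prop where
  st : Stamps τ
  pw : τ.v 44 = 2 ^ m
  fl : 0 < τ.v 45 ↔ ¬ Halted p (conf p y (2 ^ m))
  ol : τ.v 7 = (conf p y (2 ^ m)).out.length
  outp : ∀ i (h : i < (conf p y (2 ^ m)).out.length), τ.a 3 i = (conf p y (2 ^ m)).out[i]

/-- interpret with the budget in variable 44, variable 45 becomes 1 if the program has not halted -/
private def SimRun_body : Stmt := .seq (.mov 3 44) (.seq (interp 4) (.sub 45 48 6))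

private theorem SimRun_round : ∃ κ : ℕ, ∀ (p : Prog) (y : List Bool) (m : ℕ) (σ : St),
    SimRun_K p y σ → Stamps σ → σ.v 44 = 2 ^ m →
    ∃ τ, Reach SimRun_body σ (κ * 2 ^ m) τ ∧ Fr (iV ∪ {44, 45}) iA σ τ ∧
      SimRun_R p y m τ := by
  classical
  obtain ⟨κ, hκ⟩ := interp_spec
  refine ⟨2 * κ + 2, ?_⟩
  intro p y m σ hK hS hm
  have hpos : 1 ≤ 2 ^ m := Nat.one_le_two_pow
  obtain ⟨σ1, h1⟩ : ∃ s, s = σ.sv 3 (σ.v 44) := ⟨_, rfl⟩
  have r1 := SimRun_rm σ 3 44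
  rw [← h1] at r1
  have f1 : Fr (iV ∪ {44, 45}) iA σ σ1 := by
    rw [h1]
    exact SimRun_fr_sv σ (by simp [iV]) _
  have K1 := SimRun_keep hK f1
  have v3 : σ1.v 3 = ((2 ^ m : ℕ) : ℤ) := by
    rw [h1, SimRun_sv_v, if_pos rfl, hm]
    push_cast
    rfl
  have S1 : Stamps σ1 := by
    refine ⟨?_, fun i => ?_⟩
    · rw [h1, SimRun_sv_v, if_neg (by norm_num)]
      exact hS.1
    · rw [h1, SimRun_sv_v, if_neg (by norm_num)]
      exact hS.2 i
  obtain ⟨σ2, r2, f2, S2, e6, e7, e3⟩ := hκ 4 le_rfl p y (2 ^ m) 0 σ1 (by rw [K1.cb]; rfl) K1.len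
    v3 K1.code K1.inp S1
  obtain ⟨σ3, h3⟩ : ∃ s, s = σ2.sv 45 (σ2.v 48 - σ2.v 6) := ⟨_, rfl⟩
  have r3 := SimRun_rs σ2 45 48 6
  rw [← h3] at r3
  have f2' : Fr (iV ∪ {44, 45}) iA σ1 σ2 := f2.mono Set.subset_union_left (le_refl _)
  have K2 := SimRun_keep K1 f2'
  have f3 : Fr (iV ∪ {44, 45}) iA σ2 σ3 := by
    rw [h3]
    exact SimRun_fr_sv σ2 (by simp) _
  refine ⟨σ3, (r1.seq (r2.seq r3)).mono ?_, (f1.trans f2').trans f3, ?_⟩
  · nlinarith
  · have n44 : (44 : ℕ) ∉ iV := by simp [iV]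
    refine ⟨⟨?_, fun i => ?_⟩, ?_, ?_, ?_, ?_⟩
    · rw [h3, SimRun_sv_v, if_neg (by norm_num)]
      exact S2.1
    · rw [h3, SimRun_sv_v, if_neg (by norm_num)]
      exact S2.2 i
    · rw [h3, SimRun_sv_v, if_neg (by norm_num), f2.v 44 n44, h1, SimRun_sv_v,
        if_neg (by norm_num), hm]
    · rw [h3, SimRun_sv_v, if_pos rfl, K2.one, e6]
      by_cases hh : Halted p (conf p y (2 ^ m))
      · rw [if_pos hh]
        simp [hh]
      · rw [if_neg hh]
        simp [hh]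
    · rw [h3, SimRun_sv_v, if_neg (by norm_num)]
      exact e7
    · intro i hi
      rw [h3]
      exact e3 i hi

/-- variable 44 := `2 ^ s0 n` for `n` in variable 40 -/
private def SimRun_pow : Stmt :=
  .seq (.const 48 1) (.seq (.add 49 40 48) (.seq (.const 44 1) (.seq (.sub 45 49 44)
    (.whl 45 (.seq (.add 44 44 44) (.sub 45 49 44))))))

private theorem SimRun_pow_spec (n : ℕ) (σ : St) (hn : σ.v 40 = n) :
    ∃ τ, Reach SimRun_pow σ (3 * n + 5) τ ∧ Fr {44, 45, 48, 49} ∅ σ τ ∧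
      τ.v 44 = 2 ^ s0 n ∧ τ.v 48 = 1 := by
  obtain ⟨σ1, h1⟩ : ∃ s, s = σ.sv 48 1 := ⟨_, rfl⟩
  obtain ⟨σ2, h2⟩ : ∃ s, s = σ1.sv 49 (σ1.v 40 + σ1.v 48) := ⟨_, rfl⟩
  obtain ⟨σ3, h3⟩ : ∃ s, s = σ2.sv 44 1 := ⟨_, rfl⟩
  obtain ⟨σ4, h4⟩ : ∃ s, s = σ3.sv 45 (σ3.v 49 - σ3.v 44) := ⟨_, rfl⟩
  have r1 := SimRun_rc σ 48 1
  have r2 := SimRun_ra σ1 49 40 48
  have r3 := SimRun_rc σ2 44 1
  have r4 := SimRun_rs σ3 45 49 44
  rw [← h1] at r1
  rw [← h2] at r2
  rw [← h3] at r3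
  rw [← h4] at r4
  have f4 : Fr {44, 45, 48, 49} ∅ σ σ4 := by
    rw [h4, h3, h2, h1]
    refine (((SimRun_fr_sv σ ?_ _).trans (SimRun_fr_sv _ ?_ _)).trans
      (SimRun_fr_sv _ ?_ _)).trans (SimRun_fr_sv _ ?_ _) <;> simp
  have e48 : σ4.v 48 = 1 := by simp [h4, h3, h2, h1, SimRun_sv_v]
  have e49 : σ4.v 49 = n + 1 := by simp [h4, h3, h2, h1, SimRun_sv_v, hn]
  have e44 : σ4.v 44 = 1 := by simp [h4, h3, SimRun_sv_v]
  have e45 : σ4.v 45 = n + 1 - 1 := by simp [h4, h3, h2, h1, SimRun_sv_v, hn]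
  obtain ⟨τ, r5, hI⟩ := Reach.loop (v := 45) (s := .seq (.add 44 44 44) (.sub 45 49 44)) (s0 n)
    (fun j τ => Fr {44, 45, 48, 49} ∅ σ τ ∧ τ.v 44 = 2 ^ j ∧ τ.v 48 = 1 ∧ τ.v 49 = n + 1 ∧
      τ.v 45 = n + 1 - 2 ^ j) (fun _ => 2)
    (by
      rintro j hj τ ⟨_, _, _, _, h⟩
      have h' : 2 ^ j ≤ n := Nat.lt_size.1 hj
      have h'' : (2 : ℤ) ^ j ≤ n := by exact_mod_cast h'
      rw [h]
      omega)
    (by
      rintro τ ⟨_, _, _, _, h⟩
      have h' : n < 2 ^ s0 n := Nat.lt_size_self n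
      have h'' : (n : ℤ) < 2 ^ s0 n := by exact_mod_cast h'
      rw [h]
      omega)
    (by
      rintro j _ τ ⟨hf, h44, h48, h49, _⟩
      refine ⟨(τ.sv 44 (τ.v 44 + τ.v 44)).sv 45 ((τ.sv 44 (τ.v 44 + τ.v 44)).v 49 -
        (τ.sv 44 (τ.v 44 + τ.v 44)).v 44), (SimRun_ra τ 44 44 44).seq (SimRun_rs _ 45 49 44),
        ?_, ?_, ?_, ?_, ?_⟩
      · refine (hf.trans (SimRun_fr_sv _ ?_ _)).trans (SimRun_fr_sv _ ?_ _) <;> simp
      · simp only [SimRun_sv_v]
        norm_num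
        rw [h44]
        ring
      · simp only [SimRun_sv_v]
        norm_num
        exact h48
      · simp only [SimRun_sv_v]
        norm_num
        exact h49
      · simp only [SimRun_sv_v]
        norm_num
        rw [h49, h44]
        ring)
    σ4 ⟨f4, by rw [e44]; rfl, e48, e49, by rw [e45]; rfl⟩
  refine ⟨τ, (r1.seq (r2.seq (r3.seq (r4.seq r5)))).mono ?_, hI.1, hI.2.1, hI.2.2.1⟩
  have hs : s0 n ≤ n := Nat.size_le.2 Nat.lt_two_pow_self
  rw [Finset.sum_const, Finset.card_range, smul_eq_mul]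
  omega

private theorem SimRun_geo (a N : ℕ) :
    ∑ j ∈ Finset.range N, 2 ^ (a + (j + 1)) ≤ 2 * 2 ^ (a + N) := by
  induction N with
  | zero => simp
  | succ N ih =>
    rw [Finset.sum_range_succ]
    have : 2 ^ (a + (N + 1)) = 2 * 2 ^ (a + N) := by
      rw [← Nat.add_assoc, pow_succ]
      ring
    omega

/-- Run the fixed program `p` (its code is stored by constants in the scratch array 4) on the input
`inpE (z, p) x` by the interpreter with the budgets `2 ^ m`, `m = s0 n, s0 n + 1, ...`, until it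
halts. The output is in array 3 (length in variable 7), `2 ^ m` is in variable 44. -/
theorem sim_run (p : Prog) (z : Bool) : ∃ (s : Stmt) (κ : ℕ), ∀ (x : List Bool) (σ : St) (t : ℕ)
    (o : List ℤ), Env σ x → Runs p (inpE (z, p) x) t o →
    ∃ τ m, Reach s σ (κ * (x.length + t + 1)) τ ∧ Env τ x ∧ τ.v 7 = o.length ∧
      (∀ i (h : i < o.length), τ.a 3 i = o[i]) ∧ s0 x.length ≤ m ∧
      Halted p (conf p (inpE (z, p) x) (2 ^ m)) ∧
      (∀ m', s0 x.length ≤ m' → m' < m → ¬ Halted p (conf p (inpE (z, p) x) (2 ^ m'))) ∧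
      τ.v 44 = 2 ^ m ∧ Fr LV LA σ τ := by
  classical
  obtain ⟨κ, hround⟩ := SimRun_round
  refine ⟨.seq (SimRun_wr 0 (ecs p)) (.seq SimRun_pow (.seq (.const 1 0) (.seq (.const 2 p.length)
    (.seq (.const 4 (z.toNat : ℤ)) (.seq (.mov 5 40) (.seq SimRun_body
      (.whl 45 (.seq (.add 44 44 44) SimRun_body)))))))),
    3 * (ecs p).length + 20 + 10 * (κ + 2), ?_⟩
  intro x σ t o hE hR
  obtain ⟨y, hy⟩ : ∃ y, y = inpE (z, p) x := ⟨_, rfl⟩
  rw [← hy] at hR ⊢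
  -- the setup
  obtain ⟨σ1, r1, f1, _, c1⟩ := SimRun_wr_spec (ecs p) 0 σ
  have n40 : σ1.v 40 = x.length := by rw [f1.v 40 (by simp), hE.n]
  obtain ⟨σ2, r2, f2, e44, e48⟩ := SimRun_pow_spec x.length σ1 n40
  obtain ⟨σ3, h3⟩ : ∃ s, s = σ2.sv 1 0 := ⟨_, rfl⟩
  obtain ⟨σ4, h4⟩ : ∃ s, s = σ3.sv 2 (p.length : ℤ) := ⟨_, rfl⟩
  obtain ⟨σ5, h5⟩ : ∃ s, s = σ4.sv 4 (z.toNat : ℤ) := ⟨_, rfl⟩
  obtain ⟨σ6, h6⟩ : ∃ s, s = σ5.sv 5 (σ5.v 40) := ⟨_, rfl⟩
  have r3 := SimRun_rc σ2 1 0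
  have r4 := SimRun_rc σ3 2 (p.length : ℤ)
  have r5 := SimRun_rc σ4 4 (z.toNat : ℤ)
  have r6 := SimRun_rm σ5 5 40
  rw [← h3] at r3
  rw [← h4] at r4
  rw [← h5] at r5
  rw [← h6] at r6
  have f26 : Fr {1, 2, 4, 5} ∅ σ2 σ6 := by
    rw [h6, h5, h4, h3]
    refine (((SimRun_fr_sv σ2 ?_ _).trans (SimRun_fr_sv _ ?_ _)).trans
      (SimRun_fr_sv _ ?_ _)).trans (SimRun_fr_sv _ ?_ _) <;> simp
  have g40 : σ6.v 40 = x.length := by
    rw [f26.v 40 (by simp), f2.v 40 (by simp), n40]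
  have v1 : σ6.v 1 = 0 := by simp [h6, h5, h4, h3, SimRun_sv_v]
  have v2 : σ6.v 2 = p.length := by simp [h6, h5, h4, SimRun_sv_v]
  have v4 : σ6.v 4 = z.toNat := by simp [h6, h5, SimRun_sv_v]
  have v5 : σ6.v 5 = x.length := by
    have : σ6.v 5 = σ6.v 40 := by simp [h6, SimRun_sv_v]
    rw [this, g40]
  have v44 : σ6.v 44 = 2 ^ s0 x.length := by rw [f26.v 44 (by simp), e44]
  have v48 : σ6.v 48 = 1 := by rw [f26.v 48 (by simp), e48]
  have v8 : σ6.v 8 = σ.v 8 := by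
    rw [f26.v 8 (by simp), f2.v 8 (by simp), f1.v 8 (by simp)]
  have aa : ∀ a, a ≠ 4 → σ6.a a = σ.a a := by
    intro a ha
    rw [f26.a a (by simp), f2.a a (by simp), f1.a a (by simpa using ha)]
  have a4 : σ6.a 4 = σ1.a 4 := by
    rw [f26.a 4 (by simp), f2.a 4 (by simp)]
  have S6 : Stamps σ6 := by
    refine ⟨by rw [v8]; exact hE.stamps.1, fun i => ?_⟩
    rw [v8, aa 2 (by norm_num)]
    exact hE.stamps.2 i
  have ylen : y.length = x.length := by
    rw [hy]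
    unfold inpE
    cases z <;> simp
  have K6 : SimRun_K p y σ6 := by
    refine ⟨v1, v2, fun i hi => by rw [a4]; exact c1 i hi, ?_, v48⟩
    refine ⟨by rw [v5, ylen], ?_⟩
    rw [v4, aa 0 (by norm_num)]
    cases z with
    | true =>
      left
      refine ⟨by simp, ?_⟩
      rw [ylen, hy]
      rfl
    | false =>
      right
      refine ⟨by simp, ?_⟩
      have : y = x := by rw [hy]; rfl
      subst this
      exact hE.inp
  -- the number of rounds
  have hmono : ∀ a b : ℕ, a ≤ b → Halted p (conf p y a) → conf p y b = conf p y a := by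
    intro a b hab h
    obtain ⟨d, rfl⟩ := Nat.exists_eq_add_of_le hab
    exact SimRun_conf_stop p y a h d
  have hex : ∃ N, Halted p (conf p y (2 ^ (s0 x.length + N))) := by
    refine ⟨t, ?_⟩
    have h1 : t ≤ 2 ^ (s0 x.length + t) :=
      (Nat.lt_two_pow_self).le.trans (Nat.pow_le_pow_right (by norm_num) (by omega))
    rw [hmono t _ h1 hR.1]
    exact hR.1
  obtain ⟨N, hN⟩ : ∃ N, N = Nat.find hex := ⟨_, rfl⟩
  have hH : Halted p (conf p y (2 ^ (s0 x.length + N))) := by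
    rw [hN]
    exact Nat.find_spec hex
  have hlt : ∀ j < N, ¬ Halted p (conf p y (2 ^ (s0 x.length + j))) := by
    intro j hj
    rw [hN] at hj
    exact Nat.find_min hex hj
  have hbound : 2 ^ (s0 x.length + N) ≤ 2 * x.length + 2 * t + 1 := by
    rcases Nat.eq_zero_or_pos N with h0 | h0
    · rw [h0, Nat.add_zero]
      have := two_pow_s0_le x.length
      omega
    · have h1 := hlt (N - 1) (by omega)
      have h2 : 2 ^ (s0 x.length + (N - 1)) < t := by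
        by_contra h
        apply h1
        rw [hmono t _ (not_lt.1 h) hR.1]
        exact hR.1
      have h3 : 2 ^ (s0 x.length + N) = 2 * 2 ^ (s0 x.length + (N - 1)) := by
        rw [show s0 x.length + N = s0 x.length + (N - 1) + 1 by omega, pow_succ]
        ring
      omega
  -- the first round
  obtain ⟨σ7, r7, f7, R7⟩ := hround p y (s0 x.length) σ6 K6 S6 v44
  -- the loop
  obtain ⟨τ, r8, hfτ, hRτ⟩ := Reach.loop (v := 45) (s := .seq (.add 44 44 44) SimRun_body) N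
    (fun j τ => Fr (iV ∪ {44, 45}) iA σ6 τ ∧ SimRun_R p y (s0 x.length + j) τ)
    (fun j => 1 + κ * 2 ^ (s0 x.length + (j + 1)))
    (fun j hj τ hτ => hτ.2.fl.2 (hlt j hj)) (fun τ hτ h => hτ.2.fl.1 h hH)
    (by
      rintro j _ τ ⟨hf, hR'⟩
      obtain ⟨ρ, hρ⟩ : ∃ s, s = τ.sv 44 (τ.v 44 + τ.v 44) := ⟨_, rfl⟩
      have q1 := SimRun_ra τ 44 44 44
      rw [← hρ] at q1
      have g1 : Fr (iV ∪ {44, 45}) iA τ ρ := by
        rw [hρ]
        exact SimRun_fr_sv τ (by simp) _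
      have g2 := hf.trans g1
      have e1 : ρ.v 44 = 2 ^ (s0 x.length + (j + 1)) := by
        rw [hρ, SimRun_sv_v, if_pos rfl, hR'.pw, ← Nat.add_assoc, pow_succ]
        ring
      have S : Stamps ρ := by
        refine ⟨?_, fun i => ?_⟩
        · rw [hρ, SimRun_sv_v, if_neg (by norm_num)]
          exact hR'.st.1
        · rw [hρ, SimRun_sv_v, if_neg (by norm_num)]
          exact hR'.st.2 i
      obtain ⟨θ, q2, g3, R3⟩ := hround p y (s0 x.length + (j + 1)) ρ (SimRun_keep K6 g2) S e1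
      exact ⟨θ, q1.seq q2, g2.trans g3, R3⟩)
    σ7 ⟨f7, by simpa using R7⟩
  -- the frame
  have hLV : iV ∪ {44, 45} ⊆ LV := by
    intro v hv
    simp only [iV, LV, Set.mem_union, Set.mem_ofPred_eq, Set.mem_insert_iff,
      Set.mem_singleton_iff] at hv ⊢
    omega
  have hLA : iA ⊆ LA := by
    intro a ha
    simp only [iA, LA, Set.mem_ofPred_eq, Set.mem_insert_iff, Set.mem_singleton_iff] at ha ⊢
    omega
  have hF : Fr LV LA σ τ := by
    refine ((f1.mono ?_ ?_).trans ((f2.mono ?_ ?_).trans ((f26.mono ?_ ?_).trans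
      (hfτ.mono hLV hLA))))
    · intro v hv
      simp only [LV, Set.mem_ofPred_eq, Set.mem_insert_iff, Set.mem_singleton_iff] at hv ⊢
      omega
    · intro v hv
      simp only [LA, Set.mem_ofPred_eq, Set.mem_singleton_iff] at hv ⊢
      omega
    · intro v hv
      simp only [LV, Set.mem_ofPred_eq, Set.mem_insert_iff, Set.mem_singleton_iff] at hv ⊢
      omega
    · exact Set.empty_subset _
    · intro v hv
      simp only [LV, Set.mem_ofPred_eq, Set.mem_insert_iff, Set.mem_singleton_iff] at hv ⊢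
      omega
    · exact Set.empty_subset _
  have hconf : conf p y (2 ^ (s0 x.length + N)) = conf p y t := by
    rcases le_total t (2 ^ (s0 x.length + N)) with h | h
    · exact hmono _ _ h hR.1
    · exact (hmono _ _ h hH).symm
  have hout : (conf p y (2 ^ (s0 x.length + N))).out = o := by rw [hconf]; exact hR.2.2
  refine ⟨τ, s0 x.length + N, ?_, ⟨?_, ?_, hRτ.st⟩, ?_, ?_, by omega, hH, ?_, hRτ.pw, hF⟩
  · refine (r1.seq (r2.seq (r3.seq (r4.seq (r5.seq (r6.seq (r7.seq r8))))))).mono ?_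
    have hsum : ∑ j ∈ Finset.range N, (1 + κ * 2 ^ (s0 x.length + (j + 1)) + 1) ≤
        (κ + 2) * (2 * 2 ^ (s0 x.length + N)) := by
      refine le_trans (Finset.sum_le_sum (g := fun j => (κ + 2) * 2 ^ (s0 x.length + (j + 1)))
        fun j _ => ?_) ?_
      · have : 1 ≤ 2 ^ (s0 x.length + (j + 1)) := Nat.one_le_two_pow
        nlinarith
      · rw [← Finset.mul_sum]
        exact Nat.mul_le_mul_left _ (SimRun_geo _ _)
    have h1 : 2 ^ s0 x.length ≤ 2 ^ (s0 x.length + N) :=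
      Nat.pow_le_pow_right (by norm_num) (by omega)
    have h2 : κ * 2 ^ s0 x.length ≤ (κ + 2) * 2 ^ (s0 x.length + N) :=
      Nat.mul_le_mul (by omega) h1
    have h3 : (κ + 2) * 2 ^ (s0 x.length + N) ≤ (κ + 2) * (2 * x.length + 2 * t + 1) :=
      Nat.mul_le_mul_left _ hbound
    nlinarith [Nat.zero_le ((ecs p).length * (x.length + t)), Nat.zero_le (κ * (x.length + t))]
  · rw [hF.v 40 (by simp [LV]), hE.n]
  · rw [hF.a 0 (by simp [LA])]
    exact hE.inp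
  · rw [hRτ.ol, hout]
  · intro i hi
    have h' : i < (conf p y (2 ^ (s0 x.length + N))).out.length := by rw [hout]; exact hi
    rw [hRτ.outp i h']
    simp only [hout]
  · intro m' h1 h2
    have := hlt (m' - s0 x.length) (by omega)
    rwa [show s0 x.length + (m' - s0 x.length) = m' by omega] at this

end Pool.Agent.H71.CT
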