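import Pool.Agent.H71.CT.Prep
import Pool.Agent.H71.CT.LinConst
import Pool.Agent.H71.CT.Interp
import Pool.Agent.H71.CT.CodeL
import Pool.Agent.H71.CT.RunComp

/-! Slow tables. -/

namespace Pool.Agent.H71.CT

open Filter

private theorem SlowTab_sv_v (σ : St) (v w : ℕ) (z : ℤ) :
    (σ.sv v z).v w = if w = v then z else σ.v w := by
  simp [St.sv, Function.update_apply]

private theorem SlowTab_sv_a (σ : St) (v : ℕ) (z : ℤ) : (σ.sv v z).a = σ.a := rfl

private theorem SlowTab_sa_a (σ : St) (a i b j : ℕ) (z : ℤ) :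
    (σ.sa a i z).a b j = if b = a ∧ j = i then z else σ.a b j := by
  unfold St.sa
  by_cases h : b = a
  · subst h
    by_cases h' : j = i
    · subst h'
      simp
    · simp [h']
  · simp [h]

private theorem SlowTab_fr_sv {VS AS : Set ℕ} (σ : St) {v : ℕ} (hv : v ∈ VS) (z : ℤ) :
    Fr VS AS σ (σ.sv v z) := by
  refine ⟨fun w hw => ?_, fun _ _ => rfl, rfl, rfl⟩
  rw [SlowTab_sv_v, if_neg]
  rintro rfl
  exact hw hv

private theorem SlowTab_fr_sa {VS AS : Set ℕ} (σ : St) {a : ℕ} (ha : a ∈ AS) (i : ℕ) (z : ℤ) :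
    Fr VS AS σ (σ.sa a i z) := by
  refine ⟨fun w hw => rfl, fun b hb => ?_, rfl, rfl⟩
  funext j
  rw [SlowTab_sa_a, if_neg]
  rintro ⟨rfl, _⟩
  exact hb ha

private theorem SlowTab_rc (σ : St) (v : ℕ) (c : ℤ) : Reach (.const v c) σ 1 (σ.sv v c) :=
  ⟨1, le_rfl, Big.const σ v c⟩

private theorem SlowTab_rm (σ : St) (v a : ℕ) : Reach (.mov v a) σ 1 (σ.sv v (σ.v a)) :=
  ⟨1, le_rfl, Big.mov σ v a⟩

private theorem SlowTab_ra (σ : St) (v a b : ℕ) :
    Reach (.add v a b) σ 1 (σ.sv v (σ.v a + σ.v b)) :=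
  ⟨1, le_rfl, Big.add σ v a b⟩

private theorem SlowTab_rs (σ : St) (v a b : ℕ) :
    Reach (.sub v a b) σ 1 (σ.sv v (σ.v a - σ.v b)) :=
  ⟨1, le_rfl, Big.sub σ v a b⟩

private theorem SlowTab_rg (σ : St) (v a i : ℕ) :
    Reach (.get v a i) σ 1 (σ.sv v (σ.a a (σ.v i).toNat)) :=
  ⟨1, le_rfl, Big.get σ v a i⟩

private theorem SlowTab_rp (σ : St) (a i v : ℕ) :
    Reach (.put a i v) σ 1 (σ.sa a (σ.v i).toNat (σ.v v)) :=
  ⟨1, le_rfl, Big.put σ a i v⟩

/-- write a constant list -/
private def SlowTab_wr (ca : ℕ) : ℕ → List ℕ → Stmt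
  | _, [] => .skip
  | b, e :: l => blk [.const 60 b, .const 61 e, .put ca 60 61, SlowTab_wr ca (b + 1) l]

private theorem SlowTab_wr_spec (ca : ℕ) : ∀ (l : List ℕ) (b : ℕ) (σ : St),
    ∃ τ, Reach (SlowTab_wr ca b l) σ (3 * l.length) τ ∧
      (∀ i (h : i < l.length), τ.a ca (b + i) = (l[i] : ℤ)) ∧
      (∀ j < b, τ.a ca j = σ.a ca j) ∧ Fr {60, 61} {ca} σ τ := by
  intro l
  induction l with
  | nil =>
    intro b σ
    exact ⟨σ, Reach.skip σ, fun i h => absurd h (Nat.not_lt_zero _), fun _ _ => rfl, Fr.refl _ _ _⟩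
  | cons e l ih =>
    intro b σ
    obtain ⟨σ1, h1⟩ : ∃ s, s = (σ.sv 60 b).sv 61 e := ⟨_, rfl⟩
    obtain ⟨σ2, h2⟩ : ∃ s, s = σ1.sa ca b e := ⟨_, rfl⟩
    have q1 := SlowTab_rc σ 60 b
    have q2 := SlowTab_rc (σ.sv 60 b) 61 e
    rw [← h1] at q2
    have q3 := SlowTab_rp σ1 ca 60 61
    have e60 : σ1.v 60 = b := by simp [h1, SlowTab_sv_v]
    have e61 : σ1.v 61 = e := by simp [h1, SlowTab_sv_v]
    rw [e60, e61, Int.toNat_natCast, ← h2] at q3
    obtain ⟨τ, r, w1, w2, w3⟩ := ih (b + 1) σ2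
    have hf : Fr {60, 61} {ca} σ σ2 := by
      rw [h2, h1]
      refine ((SlowTab_fr_sv σ ?_ _).trans (SlowTab_fr_sv _ ?_ _)).trans (SlowTab_fr_sa _ ?_ _ _) <;>
      simp
    refine ⟨τ, ?_, ?_, ?_, hf.trans w3⟩
    · have := q1.seq (q2.seq (q3.seq (r.seq (Reach.skip τ))))
      refine this.mono ?_
      rw [List.length_cons]
      omega
    · intro i hi
      cases i with
      | zero =>
        rw [Nat.add_zero, w2 b (Nat.lt_succ_self b), h2, SlowTab_sa_a, if_pos ⟨rfl, rfl⟩]
        rfl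
      | succ i =>
        have := w1 i (by simpa using hi)
        rw [show b + 1 + i = b + (i + 1) by ring] at this
        rw [this]
        rfl
    · intro j hj
      rw [w2 j (by omega), h2, SlowTab_sa_a, if_neg (by omega), h1]
      rfl

/-- copy the printed list -/
private def SlowTab_cp (ta tl : ℕ) : Stmt :=
  blk [.mov 65 7, .const 67 1, .whl 65 (blk [.sub 65 65 67, .get 66 3 65, .put ta 65 66]),
    .mov tl 7]

private theorem SlowTab_cp_spec (ta tl : ℕ) (hta : 10 ≤ ta) (htl : 100 ≤ tl) (σ : St) (L : ℕ)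
    (hL : σ.v 7 = L) : ∃ τ, Reach (SlowTab_cp ta tl) σ (4 * L + 4) τ ∧
      (∀ i < L, τ.a ta i = σ.a 3 i) ∧ τ.v tl = L ∧ Fr {65, 66, 67, tl} {ta} σ τ := by
  obtain ⟨σ1, h1⟩ : ∃ s, s = (σ.sv 65 (σ.v 7)).sv 67 1 := ⟨_, rfl⟩
  have q1 := SlowTab_rm σ 65 7
  have q2 := SlowTab_rc (σ.sv 65 (σ.v 7)) 67 1
  rw [← h1] at q2
  have hf1 : Fr {65, 66, 67, tl} {ta} σ σ1 := by
    rw [h1]
    refine (SlowTab_fr_sv σ ?_ _).trans (SlowTab_fr_sv _ ?_ _) <;> simp
  obtain ⟨σ2, r2, hI⟩ := Reach.loop (v := 65)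
    (s := blk [.sub 65 65 67, .get 66 3 65, .put ta 65 66]) L
    (fun j τ => τ.v 65 = ((L - j : ℕ) : ℤ) ∧ τ.v 67 = 1 ∧
      (∀ i, L - j ≤ i → i < L → τ.a ta i = σ.a 3 i) ∧ Fr {65, 66, 67, tl} {ta} σ τ)
    (fun _ => 3)
    (by
      rintro j hj τ ⟨a1, _⟩
      rw [a1]
      have : 0 < L - j := by omega
      exact_mod_cast this)
    (by
      rintro τ ⟨a1, _⟩
      rw [a1, Nat.sub_self]
      simp)
    (by
      rintro j hj τ ⟨a1, a2, a3, a4⟩
      obtain ⟨τ1, k1⟩ : ∃ s, s = τ.sv 65 (τ.v 65 - τ.v 67) := ⟨_, rfl⟩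
      have e1 : τ1.v 65 = ((L - (j + 1) : ℕ) : ℤ) := by
        rw [k1, SlowTab_sv_v, if_pos rfl, a1, a2]
        omega
      obtain ⟨τ2, k2⟩ : ∃ s, s = τ1.sv 66 (τ1.a 3 (L - (j + 1))) := ⟨_, rfl⟩
      have e2 : τ2.v 65 = ((L - (j + 1) : ℕ) : ℤ) := by
        rw [k2, SlowTab_sv_v, if_neg (by norm_num), e1]
      have e3 : τ2.v 66 = σ.a 3 (L - (j + 1)) := by
        rw [k2, SlowTab_sv_v, if_pos rfl, k1, SlowTab_sv_a, a4.a 3 (by simp; omega)]
      obtain ⟨τ3, k3⟩ : ∃ s, s = τ2.sa ta (L - (j + 1)) (σ.a 3 (L - (j + 1))) := ⟨_, rfl⟩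
      have p1 := SlowTab_rs τ 65 65 67
      rw [← k1] at p1
      have p2 := SlowTab_rg τ1 66 3 65
      rw [e1, Int.toNat_natCast, ← k2] at p2
      have p3 := SlowTab_rp τ2 ta 65 66
      rw [e2, Int.toNat_natCast, e3, ← k3] at p3
      refine ⟨τ3, (p1.seq (p2.seq (p3.seq (Reach.skip τ3)))).mono (by omega), ?_, ?_, ?_, ?_⟩
      · rw [k3]
        exact e2
      · have e67 : τ2.v 67 = 1 := by
          rw [k2, SlowTab_sv_v, if_neg (by norm_num), k1, SlowTab_sv_v, if_neg (by norm_num), a2]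
        rw [k3]
        exact e67
      · intro i hi hiL
        rw [k3, SlowTab_sa_a]
        split_ifs with hc
        · rw [hc.2]
        · have : i ≠ L - (j + 1) := fun h => hc ⟨rfl, h⟩
          rw [k2, SlowTab_sv_a, k1, SlowTab_sv_a]
          exact a3 i (by omega) hiL
      · refine a4.trans ?_
        rw [k3, k2, k1]
        refine ((SlowTab_fr_sv τ ?_ _).trans (SlowTab_fr_sv _ ?_ _)).trans
          (SlowTab_fr_sa _ ?_ _ _) <;> simp)
    σ1 ⟨by rw [h1, SlowTab_sv_v, if_neg (by norm_num), SlowTab_sv_v, if_pos rfl, hL, Nat.sub_zero],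
      by rw [h1, SlowTab_sv_v, if_pos rfl], fun i hi hi' => by omega, hf1⟩
  obtain ⟨b1, b2, b3, b4⟩ := hI
  have q3 := SlowTab_rm σ2 tl 7
  have e7 : σ2.v 7 = L := by
    rw [b4.v 7 (by simp; omega), hL]
  rw [e7] at q3
  refine ⟨σ2.sv tl L, ?_, ?_, ?_, ?_⟩
  · have := q1.seq (q2.seq (r2.seq (q3.seq (Reach.skip _))))
    refine this.mono ?_
    rw [Finset.sum_const, Finset.card_range, smul_eq_mul]
    omega
  · intro i hi
    rw [SlowTab_sv_a]
    exact b3 i (by omega) hi
  · rw [SlowTab_sv_v, if_pos rfl]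
  · exact b4.trans (SlowTab_fr_sv σ2 (by simp) _)

/-- levels reached after `j` rounds -/
private def SlowTab_G (e B : ℕ) : ℕ → ℕ
  | 0 => 0
  | j + 1 => if SlowTab_G e B j = j ∧ hb e (List.replicate (j + 1) false) B = true then j + 1
      else SlowTab_G e B j

private theorem SlowTab_G_le (e B : ℕ) : ∀ j, SlowTab_G e B j ≤ j := by
  intro j
  induction j with
  | zero => exact le_rfl
  | succ j ih =>
    rw [SlowTab_G]
    split_ifs
    · exact le_rfl
    · omega

private theorem SlowTab_G_mono (e B : ℕ) : Monotone (SlowTab_G e B) := by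
  refine monotone_nat_of_le_succ fun j => ?_
  have := SlowTab_G_le e B j
  rw [SlowTab_G]
  split_ifs
  · omega
  · exact le_rfl

private theorem SlowTab_G_eq (e B m : ℕ)
    (h : ∀ i, i ≤ m → hb e (List.replicate i false) B = true) : SlowTab_G e B m = m := by
  induction m with
  | zero => rfl
  | succ m ih =>
    rw [SlowTab_G, if_pos ⟨ih fun i hi => h i (by omega), h (m + 1) le_rfl⟩]

private theorem SlowTab_stop (p : Prog) (y : List Bool) (n : ℕ) (h : Halted p (conf p y n)) :
    ∀ d, conf p y (n + d) = conf p y n := by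
  intro d
  induction d with
  | zero => rfl
  | succ d ih =>
    have : conf p y (n + d + 1) = step p (conf p y (n + d)) := by
      unfold conf
      rw [Function.iterate_succ_apply']
    rw [← Nat.add_assoc, this, ih]
    unfold step
    rw [List.getElem?_eq_none h]

private theorem SlowTab_halt_out {p : Prog} {y : List Bool} {t : ℕ} {o : List ℤ}
    (h : Runs p y t o) {B : ℕ} (hB : Halted p (conf p y B)) : (conf p y B).out = o := by
  have htB : t ≤ B := by
    by_contra hc
    exact h.2.1 B (not_le.1 hc) hB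
  obtain ⟨d, rfl⟩ := Nat.exists_eq_add_of_le htB
  rw [SlowTab_stop p y t h.1 d, h.2.2]

private theorem SlowTab_halted_of {p : Prog} {y : List Bool} {t : ℕ} {o : List ℤ}
    (h : Runs p y t o) {B : ℕ} (hB : t ≤ B) : Halted p (conf p y B) := by
  obtain ⟨d, rfl⟩ := Nat.exists_eq_add_of_le hB
  rw [SlowTab_stop p y t h.1 d]
  exact h.1

private theorem SlowTab_exec_out (a : Instr) (c : Cfg) : (a.exec c).out.length ≤ c.out.length + 1 := by
  cases a <;> simp [Instr.exec]

private theorem SlowTab_out_le (p : Prog) (y : List Bool) : ∀ B, (conf p y B).out.length ≤ B := by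
  intro B
  induction B with
  | zero => exact le_rfl
  | succ B ih =>
    have : conf p y (B + 1) = step p (conf p y B) := by
      unfold conf
      rw [Function.iterate_succ_apply']
    rw [this]
    unfold step
    cases h : p[(conf p y B).pc]? with
    | none => exact ih.trans (Nat.le_succ B)
    | some a => exact (SlowTab_exec_out a _).trans (by omega)

/-- one round -/
private def SlowTab_rnd (ta tl : ℕ) : Stmt :=
  blk [.const 67 1, .add 64 64 67, .sub 62 62 67, .ite 63
    (blk [.const 4 1, .mov 5 64, .mov 3 45, interp 4, .ite 6 (SlowTab_cp ta tl) (.const 63 0)])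
    .skip]

/-- the loop invariant -/
private structure SlowTab_I (ta tl : ℕ) (u : ℕ → List ℕ) (H : Prog) (x : List Bool) (B c : ℕ)
    (σ : St) (j : ℕ) (τ : St) : Prop where
  v45 : τ.v 45 = B
  v62 : τ.v 62 = ((c - j : ℕ) : ℤ)
  v64 : τ.v 64 = j
  v63 : τ.v 63 = if SlowTab_G (num H) B j = j then 1 else 0
  v1 : τ.v 1 = (0 : ℕ)
  v2 : τ.v 2 = H.length
  code : StoredAt τ 4 0 (ecs H)
  env : Env τ x
  tab : StoredAt τ ta 0 (u (SlowTab_G (num H) B j))
  len : τ.v tl = (u (SlowTab_G (num H) B j)).length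
  fr : Fr (LV ∪ {tl}) (LA ∪ {ta}) σ τ

open Classical in
private theorem SlowTab_rnd_spec {u : ℕ → List ℕ} {H : Prog}
    (hH : ∀ x : List Bool, ∃ t, Runs H x t ((u x.length).map (fun n : ℕ => (n : ℤ)))) :
    ∃ κ : ℕ, ∀ ta tl : ℕ, 10 ≤ ta → 100 ≤ tl → ∀ (x : List Bool) (B c : ℕ) (σ : St) (j : ℕ),
      j < c → ∀ τ, SlowTab_I ta tl u H x B c σ j τ →
        ∃ ρ, Reach (SlowTab_rnd ta tl) τ (κ * (B + 1)) ρ ∧
          SlowTab_I ta tl u H x B c σ (j + 1) ρ := by
  obtain ⟨κ, hint⟩ := interp_spec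
  refine ⟨κ + 20, ?_⟩
  intro ta tl hta htl x B c σ j hj τ hI
  obtain ⟨τ1, k1⟩ : ∃ s, s = ((τ.sv 67 1).sv 64 (j + 1 : ℕ)).sv 62 ((c - (j + 1) : ℕ) : ℤ) :=
    ⟨_, rfl⟩
  have q1 := SlowTab_rc τ 67 1
  have q2 := SlowTab_ra (τ.sv 67 1) 64 64 67
  have e2 : (τ.sv 67 1).v 64 + (τ.sv 67 1).v 67 = ((j + 1 : ℕ) : ℤ) := by
    simp [SlowTab_sv_v, hI.v64]
  rw [e2] at q2
  have q3 := SlowTab_rs ((τ.sv 67 1).sv 64 (j + 1 : ℕ)) 62 62 67
  have e3 : ((τ.sv 67 1).sv 64 (j + 1 : ℕ)).v 62 - ((τ.sv 67 1).sv 64 (j + 1 : ℕ)).v 67 =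
      ((c - (j + 1) : ℕ) : ℤ) := by
    simp only [SlowTab_sv_v, hI.v62]
    norm_num
    omega
  rw [e3, ← k1] at q3
  have hv1 : ∀ v, v ≠ 62 → v ≠ 64 → v ≠ 67 → τ1.v v = τ.v v := by
    intro v h h' h''
    simp [k1, SlowTab_sv_v, h, h', h'']
  have ha1 : τ1.a = τ.a := by rw [k1]; rfl
  have m62 : τ1.v 62 = ((c - (j + 1) : ℕ) : ℤ) := by rw [k1, SlowTab_sv_v, if_pos rfl]
  have m64 : τ1.v 64 = ((j + 1 : ℕ) : ℤ) := by
    rw [k1, SlowTab_sv_v, if_neg (by norm_num), SlowTab_sv_v, if_pos rfl]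
  have hfr1 : Fr (LV ∪ {tl}) (LA ∪ {ta}) τ τ1 := by
    rw [k1]
    refine ((SlowTab_fr_sv τ ?_ _).trans (SlowTab_fr_sv _ ?_ _)).trans (SlowTab_fr_sv _ ?_ _) <;>
    simp [LV]
  have hpre : ∀ (C : ℕ) (ρ : St), Reach (.ite 63 (blk [.const 4 1, .mov 5 64, .mov 3 45, interp 4,
      .ite 6 (SlowTab_cp ta tl) (.const 63 0)]) .skip) τ1 C ρ → C + 3 ≤ (κ + 20) * (B + 1) →
      Reach (SlowTab_rnd ta tl) τ ((κ + 20) * (B + 1)) ρ := by
    intro C ρ h hC
    exact (q1.seq (q2.seq (q3.seq (h.seq (Reach.skip ρ))))).mono (by omega)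
  have henv1 : Env τ1 x := by
    refine ⟨?_, ?_, ?_, ?_⟩
    · rw [hv1 40 (by norm_num) (by norm_num) (by norm_num)]
      exact hI.env.n
    · intro i hi
      rw [ha1]
      exact hI.env.inp i hi
    · rw [hv1 8 (by norm_num) (by norm_num) (by norm_num)]
      exact hI.env.stamps.1
    · intro i
      rw [hv1 8 (by norm_num) (by norm_num) (by norm_num), ha1]
      exact hI.env.stamps.2 i
  have hbase : 1 ≤ B + 1 := by omega
  by_cases hG : SlowTab_G (num H) B j = j
  · -- alive
    have m63 : τ1.v 63 = 1 := by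
      rw [hv1 63 (by norm_num) (by norm_num) (by norm_num), hI.v63, if_pos hG]
    obtain ⟨τ2, k2⟩ : ∃ s, s = ((τ1.sv 4 1).sv 5 (j + 1 : ℕ)).sv 3 B := ⟨_, rfl⟩
    have p1 := SlowTab_rc τ1 4 1
    have p2 := SlowTab_rm (τ1.sv 4 1) 5 64
    have f2 : (τ1.sv 4 1).v 64 = ((j + 1 : ℕ) : ℤ) := by
      rw [SlowTab_sv_v, if_neg (by norm_num), m64]
    rw [f2] at p2
    have p3 := SlowTab_rm ((τ1.sv 4 1).sv 5 (j + 1 : ℕ)) 3 45
    have f3 : ((τ1.sv 4 1).sv 5 (j + 1 : ℕ)).v 45 = B := by
      rw [SlowTab_sv_v, if_neg (by norm_num), SlowTab_sv_v, if_neg (by norm_num),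
        hv1 45 (by norm_num) (by norm_num) (by norm_num), hI.v45]
    rw [f3, ← k2] at p3
    have hv2 : ∀ v, v ≠ 3 → v ≠ 4 → v ≠ 5 → τ2.v v = τ1.v v := by
      intro v h h' h''
      simp [k2, SlowTab_sv_v, h, h', h'']
    have ha2 : τ2.a = τ1.a := by rw [k2]; rfl
    have hfr2 : Fr (LV ∪ {tl}) (LA ∪ {ta}) τ1 τ2 := by
      rw [k2]
      refine ((SlowTab_fr_sv τ1 ?_ _).trans (SlowTab_fr_sv _ ?_ _)).trans
        (SlowTab_fr_sv _ ?_ _) <;>
      simp [LV]
    have hst2 : Stamps τ2 := by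
      refine ⟨?_, ?_⟩
      · rw [hv2 8 (by norm_num) (by norm_num) (by norm_num)]
        exact henv1.stamps.1
      · intro i
        rw [hv2 8 (by norm_num) (by norm_num) (by norm_num), ha2]
        exact henv1.stamps.2 i
    have hInp : InpAt τ2 (List.replicate (j + 1) false) := by
      refine ⟨?_, Or.inl ⟨?_, ?_⟩⟩
      · rw [k2, SlowTab_sv_v, if_neg (by norm_num), SlowTab_sv_v, if_pos rfl,
          List.length_replicate]
      · rw [k2, SlowTab_sv_v, if_neg (by norm_num), SlowTab_sv_v, if_neg (by norm_num),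
          SlowTab_sv_v, if_pos rfl]
        norm_num
      · rw [List.length_replicate]
    have hcode2 : StoredAt τ2 4 0 (ecs H) := by
      intro i hi
      rw [ha2, ha1]
      exact hI.code i hi
    obtain ⟨τ3, r3, fr3, st3, w6, w7, wo⟩ := hint 4 le_rfl H (List.replicate (j + 1) false) B 0 τ2
      (by rw [hv2 1 (by norm_num) (by norm_num) (by norm_num),
        hv1 1 (by norm_num) (by norm_num) (by norm_num)]; exact hI.v1)
      (by rw [hv2 2 (by norm_num) (by norm_num) (by norm_num),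
        hv1 2 (by norm_num) (by norm_num) (by norm_num)]; exact hI.v2)
      (by rw [k2, SlowTab_sv_v, if_pos rfl])
      hcode2 hInp hst2
    have hlow : ∀ v, 40 ≤ v → τ3.v v = τ1.v v := by
      intro v hv
      rw [fr3.v v (by simp only [iV, Set.mem_setOf_eq]; omega), hv2 v (by omega) (by omega)
        (by omega)]
    have hlow12 : τ3.v 1 = τ1.v 1 ∧ τ3.v 2 = τ1.v 2 := by
      refine ⟨?_, ?_⟩
      · rw [fr3.v 1 (by simp [iV]), hv2 1 (by norm_num) (by norm_num) (by norm_num)]
      · rw [fr3.v 2 (by simp [iV]), hv2 2 (by norm_num) (by norm_num) (by norm_num)]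
    have harr : ∀ a, a = 0 ∨ 4 ≤ a → τ3.a a = τ.a a := by
      intro a hle
      rw [fr3.a a (by simp only [iA, Set.mem_insert_iff, Set.mem_singleton_iff]; omega), ha2, ha1]
    have hfr3 : Fr (LV ∪ {tl}) (LA ∪ {ta}) τ2 τ3 := by
      refine fr3.mono ?_ ?_
      · intro v hv
        left
        simp only [iV, Set.mem_setOf_eq] at hv
        simp only [LV, Set.mem_setOf_eq]
        omega
      · intro a ha
        left
        simp only [iA, Set.mem_insert_iff, Set.mem_singleton_iff] at ha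
        simp only [LA, Set.mem_setOf_eq]
        omega
    have hfr13 : Fr (LV ∪ {tl}) (LA ∪ {ta}) τ τ3 := (hfr1.trans hfr2).trans hfr3
    have henv3 : Env τ3 x := by
      refine ⟨?_, ?_, st3⟩
      · rw [hlow 40 le_rfl]
        exact henv1.n
      · intro i hi
        rw [harr 0 (Or.inl rfl)]
        exact hI.env.inp i hi
    by_cases hh : Halted H (conf H (List.replicate (j + 1) false) B)
    · -- success
      have hG' : SlowTab_G (num H) B (j + 1) = j + 1 := by
        rw [SlowTab_G, if_pos]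
        refine ⟨hG, ?_⟩
        rw [hb_iff, pr_num]
        exact hh
      obtain ⟨t, ht⟩ := hH (List.replicate (j + 1) false)
      have hout := SlowTab_halt_out ht hh
      rw [List.length_replicate] at hout
      have hlen : (conf H (List.replicate (j + 1) false) B).out.length = (u (j + 1)).length := by
        rw [hout, List.length_map]
      have w7' : τ3.v 7 = ((u (j + 1)).length : ℕ) := by rw [w7, hlen]
      have hLB : (u (j + 1)).length ≤ B := by
        rw [← hlen]
        exact SlowTab_out_le _ _ _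
      obtain ⟨τ4, r4, c1, c2, c3⟩ := SlowTab_cp_spec ta tl hta htl τ3 _ w7'
      have m6 : 0 < τ3.v 6 := by
        rw [w6, if_pos hh]
        norm_num
      have hreach : Reach (SlowTab_rnd ta tl) τ ((κ + 20) * (B + 1)) τ4 := by
        refine hpre _ _ (Reach.ite_pos (by rw [m63]; norm_num) (p1.seq (p2.seq (p3.seq
          (r3.seq ((Reach.ite_pos m6 r4).seq (Reach.skip _))))))) ?_
        nlinarith
      have hv4 : ∀ v, v ≠ 65 → v ≠ 66 → v ≠ 67 → v ≠ tl → τ4.v v = τ3.v v := by
        intro v h h' h'' h4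
        exact c3.v v (by simp [h, h', h'', h4])
      have ha4 : ∀ a, a ≠ ta → τ4.a a = τ3.a a := fun a h => c3.a a (by simpa using h)
      refine ⟨τ4, hreach, ?_⟩
      refine ⟨?_, ?_, ?_, ?_, ?_, ?_, ?_, ?_, ?_, ?_, ?_⟩
      · rw [hv4 45 (by norm_num) (by norm_num) (by norm_num) (by omega), hlow 45 (by norm_num),
          hv1 45 (by norm_num) (by norm_num) (by norm_num), hI.v45]
      · rw [hv4 62 (by norm_num) (by norm_num) (by norm_num) (by omega), hlow 62 (by norm_num),
          m62]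
      · rw [hv4 64 (by norm_num) (by norm_num) (by norm_num) (by omega), hlow 64 (by norm_num),
          m64]
      · rw [hv4 63 (by norm_num) (by norm_num) (by norm_num) (by omega), hlow 63 (by norm_num),
          m63, if_pos hG']
      · rw [hv4 1 (by norm_num) (by norm_num) (by norm_num) (by omega), hlow12.1,
          hv1 1 (by norm_num) (by norm_num) (by norm_num)]
        exact hI.v1
      · rw [hv4 2 (by norm_num) (by norm_num) (by norm_num) (by omega), hlow12.2,
          hv1 2 (by norm_num) (by norm_num) (by norm_num)]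
        exact hI.v2
      · intro i hi
        rw [ha4 4 (by omega), harr 4 (Or.inr le_rfl)]
        exact hI.code i hi
      · refine ⟨?_, ?_, ?_, ?_⟩
        · rw [hv4 40 (by norm_num) (by norm_num) (by norm_num) (by omega)]
          exact henv3.n
        · intro i hi
          rw [ha4 0 (by omega)]
          exact henv3.inp i hi
        · rw [hv4 8 (by norm_num) (by norm_num) (by norm_num) (by omega)]
          exact henv3.stamps.1
        · intro i
          rw [hv4 8 (by norm_num) (by norm_num) (by norm_num) (by omega), ha4 2 (by omega)]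
          exact henv3.stamps.2 i
      · rw [hG']
        intro i hi
        rw [Nat.zero_add, c1 i hi, wo i (by rw [hlen]; exact hi)]
        simp only [hout, List.getElem_map]
      · rw [hG', c2]
      · refine (hI.fr.trans hfr13).trans (c3.mono ?_ ?_)
        · intro v hv
          simp only [Set.mem_insert_iff, Set.mem_singleton_iff] at hv
          simp only [LV, Set.mem_union, Set.mem_setOf_eq, Set.mem_singleton_iff]
          omega
        · intro a ha
          right
          exact ha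
    · -- failure
      have hG' : SlowTab_G (num H) B (j + 1) = j := by
        rw [SlowTab_G, if_neg, hG]
        rintro ⟨_, h⟩
        rw [hb_iff, pr_num] at h
        exact hh h
      have hne : ¬ SlowTab_G (num H) B (j + 1) = j + 1 := by omega
      have m6 : ¬ 0 < τ3.v 6 := by
        rw [w6, if_neg hh]
        norm_num
      have hreach : Reach (SlowTab_rnd ta tl) τ ((κ + 20) * (B + 1)) (τ3.sv 63 0) := by
        refine hpre _ _ (Reach.ite_pos (by rw [m63]; norm_num) (p1.seq (p2.seq (p3.seq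
          (r3.seq ((Reach.ite_neg m6 (SlowTab_rc τ3 63 0)).seq (Reach.skip _))))))) ?_
        nlinarith
      have hv4 : ∀ v, v ≠ 63 → (τ3.sv 63 0).v v = τ3.v v := by
        intro v h
        rw [SlowTab_sv_v, if_neg h]
      refine ⟨τ3.sv 63 0, hreach, ?_⟩
      refine ⟨?_, ?_, ?_, ?_, ?_, ?_, ?_, ?_, ?_, ?_, ?_⟩
      · rw [hv4 45 (by norm_num), hlow 45 (by norm_num),
          hv1 45 (by norm_num) (by norm_num) (by norm_num), hI.v45]
      · rw [hv4 62 (by norm_num), hlow 62 (by norm_num), m62]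
      · rw [hv4 64 (by norm_num), hlow 64 (by norm_num), m64]
      · rw [SlowTab_sv_v, if_pos rfl, if_neg hne]
      · rw [hv4 1 (by norm_num), hlow12.1, hv1 1 (by norm_num) (by norm_num) (by norm_num)]
        exact hI.v1
      · rw [hv4 2 (by norm_num), hlow12.2, hv1 2 (by norm_num) (by norm_num) (by norm_num)]
        exact hI.v2
      · intro i hi
        rw [SlowTab_sv_a, harr 4 (Or.inr le_rfl)]
        exact hI.code i hi
      · refine ⟨?_, ?_, ?_, ?_⟩
        · rw [hv4 40 (by norm_num)]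
          exact henv3.n
        · exact henv3.inp
        · rw [hv4 8 (by norm_num)]
          exact henv3.stamps.1
        · intro i
          rw [hv4 8 (by norm_num)]
          exact henv3.stamps.2 i
      · rw [hG']
        intro i hi
        rw [SlowTab_sv_a, harr ta (Or.inr (by omega))]
        have := hI.tab
        rw [hG] at this
        exact this i hi
      · rw [hG', hv4 tl (by omega), hlow tl (by omega), hv1 tl (by omega) (by omega) (by omega),
          hI.len, hG]
      · exact (hI.fr.trans hfr13).trans (SlowTab_fr_sv _ (by simp [LV]) _)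
  · -- dead
    have hlt : SlowTab_G (num H) B j < j := lt_of_le_of_ne (SlowTab_G_le _ _ _) hG
    have hG' : SlowTab_G (num H) B (j + 1) = SlowTab_G (num H) B j := by
      rw [SlowTab_G, if_neg]
      exact fun h => hG h.1
    have hne : ¬ SlowTab_G (num H) B (j + 1) = j + 1 := by omega
    have m63 : ¬ 0 < τ1.v 63 := by
      rw [hv1 63 (by norm_num) (by norm_num) (by norm_num), hI.v63, if_neg hG]
      norm_num
    refine ⟨τ1, hpre 1 τ1 (Reach.ite_neg m63 (Reach.skip _)) (by nlinarith), ?_⟩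
    refine ⟨?_, m62, m64, ?_, ?_, ?_, ?_, henv1, ?_, ?_, hI.fr.trans hfr1⟩
    · rw [hv1 45 (by norm_num) (by norm_num) (by norm_num), hI.v45]
    · rw [hv1 63 (by norm_num) (by norm_num) (by norm_num), hI.v63, if_neg hG, if_neg hne]
    · rw [hv1 1 (by norm_num) (by norm_num) (by norm_num)]
      exact hI.v1
    · rw [hv1 2 (by norm_num) (by norm_num) (by norm_num)]
      exact hI.v2
    · intro i hi
      rw [ha1]
      exact hI.code i hi
    · rw [hG']
      intro i hi
      rw [ha1]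
      exact hI.tab i hi
    · rw [hG', hv1 tl (by omega) (by omega) (by omega), hI.len]

private theorem SlowTab_rep : Primrec (fun n : ℕ => List.replicate n false) := by
  have h : Primrec (fun n : ℕ => (List.range n).map (fun _ => false)) :=
    Primrec.list_map Primrec.list_range (Primrec.const false)
  refine h.of_eq fun n => ?_
  rw [List.map_const', List.length_range]

private theorem SlowTab_comp (e : ℕ) : Computable (fun n => SlowTab_G e (bud n) (cap n)) := by
  have hh : Computable₂ (fun (n : ℕ) (q : ℕ × ℕ) => cond (decide (q.2 = q.1) &&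
      hb e (List.replicate (q.1 + 1) false) (bud n)) (q.1 + 1) q.2) := by
    refine Computable.cond ?_ ?_ ?_
    · have a1 : Computable (fun a : ℕ × ℕ × ℕ => decide (a.2.2 = a.2.1)) :=
        ((PrimrecRel.decide (Primrec.eq (α := ℕ))).comp (Primrec.snd.comp Primrec.snd)
          (Primrec.fst.comp Primrec.snd)).to_comp
      have a2 : Computable (fun a : ℕ × ℕ × ℕ => hb e (List.replicate (a.2.1 + 1) false)
          (bud a.1)) :=
        computable_hb.comp (Computable.pair (Computable.const e) (Computable.pair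
          (SlowTab_rep.to_comp.comp (Computable.succ.comp (Computable.fst.comp Computable.snd)))
          (computable_bud.comp Computable.fst)))
      exact Primrec.and.to_comp.comp a1 a2
    · exact Computable.succ.comp (Computable.fst.comp Computable.snd)
    · exact Computable.snd.comp Computable.snd
  refine (Computable.nat_rec computable_cap (Computable.const 0) hh).of_eq fun n => ?_
  generalize cap n = m
  induction m with
  | zero => rfl
  | succ m ih =>
    rw [SlowTab_G, ← ih]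
    dsimp only
    rw [Bool.cond_eq_ite]
    simp only [Bool.and_eq_true, decide_eq_true_eq]

/-- For every computable `u` there is a slowly growing `g` such that the table `u (g n)` can be
stored in linear time. (Let `H` print `u k` on inputs of length `k`, `code_prog`. Start with the
constant table `u 0` and `g = 0`; for `k = 1, 2, ..., cap n`: run `H` by the interpreter on the
zero input of length `k` with budget `bud n`; if it halts copy its output into the table and put
`g := k`, else stop. `g` is computable by `computable_hb` with `e = num H`; it tends to infinity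
because `bud` does.) -/
theorem slow_tab (u : ℕ → List ℕ) (hu : Computable u) : ∃ g : ℕ → ℕ, Computable g ∧
    Tendsto g atTop atTop ∧ (∀ n, g n ≤ cap n) ∧ LinTab (fun n => u (g n)) := by
  obtain ⟨H, hH⟩ := code_prog u hu
  refine ⟨fun n => SlowTab_G (num H) (bud n) (cap n), SlowTab_comp (num H), ?_,
    fun n => SlowTab_G_le _ _ _, ?_⟩
  · rw [tendsto_atTop]
    intro m
    obtain ⟨T, hT⟩ : ∃ T, ∀ i ≤ m, ∀ B, T ≤ B → hb (num H) (List.replicate i false) B = true := by
      choose t ht using fun i : ℕ => hH (List.replicate i false)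
      refine ⟨∑ i ∈ Finset.range (m + 1), t i, fun i hi B hB => ?_⟩
      rw [hb_iff, pr_num]
      refine SlowTab_halted_of (ht i) (le_trans ?_ hB)
      exact Finset.single_le_sum (f := t) (fun _ _ => Nat.zero_le _)
        (Finset.mem_range.2 (Nat.lt_succ_of_le hi))
    filter_upwards [tendsto_atTop.1 tendsto_cap m, tendsto_atTop.1 tendsto_bud T] with n h1 h2
    have := SlowTab_G_mono (num H) (bud n) h1
    rw [SlowTab_G_eq (num H) (bud n) m fun i hi => hT i hi _ h2] at this
    exact this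
  · obtain ⟨κ1, h1⟩ := lin_const (u 0)
    obtain ⟨sp, κ2, h2⟩ := prep_spec
    obtain ⟨κ3, h3⟩ := SlowTab_rnd_spec hH
    obtain ⟨C, hC⟩ := cap_bud_le
    refine ⟨κ1 + κ2 + 3 * (ecs H).length + 10 + (κ3 + 1) * C, fun ta tl hta htl => ?_⟩
    obtain ⟨s1, hs1⟩ := h1 ta tl hta htl
    refine ⟨.seq s1 (.seq sp (.seq (SlowTab_wr 4 0 (ecs H)) (.seq (blk [.const 1 (0 : ℕ),
      .const 2 H.length, .mov 62 44, .const 63 1, .const 64 (0 : ℕ)])
      (.whl 62 (SlowTab_rnd ta tl))))), fun x σ henv => ?_⟩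
    obtain ⟨σ1, r1, env1, tab1, len1, fr1⟩ := hs1 x σ henv
    obtain ⟨σ2, r2, env2, v43, v44, v45, fr2⟩ := h2 x σ1 env1
    obtain ⟨σ3, r3, w1, _, fr3⟩ := SlowTab_wr_spec 4 (ecs H) 0 σ2
    obtain ⟨σ4, k4⟩ : ∃ s, s = ((((σ3.sv 1 (0 : ℕ)).sv 2 H.length).sv 62
      ((cap x.length : ℕ) : ℤ)).sv 63 1).sv 64 (0 : ℕ) := ⟨_, rfl⟩
    have q1 := SlowTab_rc σ3 1 (0 : ℕ)
    have q2 := SlowTab_rc (σ3.sv 1 (0 : ℕ)) 2 H.length
    have q3 := SlowTab_rm ((σ3.sv 1 (0 : ℕ)).sv 2 H.length) 62 44
    have e3 : ((σ3.sv 1 (0 : ℕ)).sv 2 H.length).v 44 = (cap x.length : ℕ) := by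
      rw [SlowTab_sv_v, if_neg (by norm_num), SlowTab_sv_v, if_neg (by norm_num),
        fr3.v 44 (by simp), v44]
    rw [e3] at q3
    have q4 := SlowTab_rc (((σ3.sv 1 (0 : ℕ)).sv 2 H.length).sv 62 ((cap x.length : ℕ) : ℤ)) 63 1
    have q5 := SlowTab_rc ((((σ3.sv 1 (0 : ℕ)).sv 2 H.length).sv 62
      ((cap x.length : ℕ) : ℤ)).sv 63 1) 64 (0 : ℕ)
    rw [← k4] at q5
    have hv4 : ∀ v, v ≠ 1 → v ≠ 2 → v ≠ 62 → v ≠ 63 → v ≠ 64 → σ4.v v = σ3.v v := by
      intro v a1 a2 a3 a4 a5
      simp [k4, SlowTab_sv_v, a1, a2, a3, a4, a5]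
    have ha4 : σ4.a = σ3.a := by rw [k4]; rfl
    have hfr4 : Fr (LV ∪ {tl}) (LA ∪ {ta}) σ3 σ4 := by
      rw [k4]
      refine ((((SlowTab_fr_sv σ3 ?_ _).trans (SlowTab_fr_sv _ ?_ _)).trans
        (SlowTab_fr_sv _ ?_ _)).trans (SlowTab_fr_sv _ ?_ _)).trans (SlowTab_fr_sv _ ?_ _) <;>
      simp [LV]
    have hfr2 : Fr (LV ∪ {tl}) (LA ∪ {ta}) σ1 σ2 := by
      refine fr2.mono ?_ (Set.empty_subset _)
      intro v hv
      simp only [Set.mem_setOf_eq] at hv
      simp only [LV, Set.mem_union, Set.mem_setOf_eq, Set.mem_singleton_iff]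
      omega
    have hfr3 : Fr (LV ∪ {tl}) (LA ∪ {ta}) σ2 σ3 := by
      refine fr3.mono ?_ ?_
      · intro v hv
        simp only [Set.mem_insert_iff, Set.mem_singleton_iff] at hv
        simp only [LV, Set.mem_union, Set.mem_setOf_eq, Set.mem_singleton_iff]
        omega
      · intro a ha
        rw [Set.mem_singleton_iff] at ha
        simp only [LA, Set.mem_union, Set.mem_setOf_eq, Set.mem_singleton_iff]
        omega
    have harr : ∀ a, a ≠ 4 → σ4.a a = σ1.a a := by
      intro a ha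
      rw [ha4, fr3.a a (by simpa using ha), fr2.a a (Set.notMem_empty a)]
    have hvar : ∀ v, v < 40 ∨ 70 ≤ v ∨ v = 40 → v ≠ 1 → v ≠ 2 → σ4.v v = σ1.v v := by
      intro v hv n1 n2
      rw [hv4 v n1 n2 (by omega) (by omega) (by omega), fr3.v v (by
        simp only [Set.mem_insert_iff, Set.mem_singleton_iff]; omega), fr2.v v (by
        simp only [Set.mem_setOf_eq]; omega)]
    have hI0 : SlowTab_I ta tl u H x (bud x.length) (cap x.length) σ 0 σ4 := by
      refine ⟨?_, ?_, ?_, ?_, ?_, ?_, ?_, ?_, ?_, ?_, ?_⟩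
      · rw [hv4 45 (by norm_num) (by norm_num) (by norm_num) (by norm_num) (by norm_num),
          fr3.v 45 (by simp), v45]
      · rw [k4, SlowTab_sv_v, if_neg (by norm_num), SlowTab_sv_v, if_neg (by norm_num),
          SlowTab_sv_v, if_pos rfl, Nat.sub_zero]
      · rw [k4, SlowTab_sv_v, if_pos rfl]
      · rw [k4, SlowTab_sv_v, if_neg (by norm_num), SlowTab_sv_v, if_pos rfl]
        rfl
      · simp [k4, SlowTab_sv_v]
      · simp [k4, SlowTab_sv_v]
      · intro i hi
        rw [ha4]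
        exact w1 i hi
      · refine ⟨?_, ?_, ?_, ?_⟩
        · rw [hvar 40 (by norm_num) (by norm_num) (by norm_num)]
          exact env1.n
        · intro i hi
          rw [harr 0 (by norm_num)]
          exact env1.inp i hi
        · rw [hvar 8 (by norm_num) (by norm_num) (by norm_num)]
          exact env1.stamps.1
        · intro i
          rw [hvar 8 (by norm_num) (by norm_num) (by norm_num), harr 2 (by norm_num)]
          exact env1.stamps.2 i
      · intro i hi
        rw [harr ta (by omega)]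
        exact tab1 i hi
      · rw [hvar tl (by omega) (by omega) (by omega), len1]
        rfl
      · exact ((fr1.trans hfr2).trans hfr3).trans hfr4
    obtain ⟨τ, r5, hI⟩ := Reach.loop (v := 62) (s := SlowTab_rnd ta tl) (cap x.length)
      (SlowTab_I ta tl u H x (bud x.length) (cap x.length) σ)
      (fun _ => κ3 * (bud x.length + 1))
      (by
        intro j hj τ hτ
        rw [hτ.v62]
        have : 0 < cap x.length - j := by omega
        exact_mod_cast this)
      (by
        intro τ hτ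
        rw [hτ.v62, Nat.sub_self]
        simp)
      (fun j hj τ hτ => h3 ta tl hta htl x _ _ σ j hj τ hτ) σ4 hI0
    refine ⟨τ, ?_, hI.env, hI.tab, hI.len, hI.fr⟩
    refine (r1.seq (r2.seq (r3.seq ((q1.seq (q2.seq (q3.seq (q4.seq (q5.seq
      (Reach.skip _)))))).seq r5)))).mono ?_
    rw [Finset.sum_const, Finset.card_range, smul_eq_mul]
    have hc := hC x.length
    have h5 : cap x.length * (κ3 * (bud x.length + 1) + 1) ≤
        (κ3 + 1) * ((cap x.length + 1) * (bud x.length + 1)) := by nlinarith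
    have h6 : (κ3 + 1) * ((cap x.length + 1) * (bud x.length + 1)) ≤
        (κ3 + 1) * (C * (x.length + 1)) := Nat.mul_le_mul_left _ hc
    nlinarith

end Pool.Agent.H71.CT
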