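import Pool.Agent.H71.CT.JRBase
import Pool.Agent.H71.CT.SideDef
import Pool.Agent.H71.CT.TcBase

/-! Logarithmic stopping times of total programs. -/

namespace Pool.Agent.H71.CT

open Filter Classical

/-- first time `s ≥ s0 n` at which program `e` has halted (`s0 n` if there is none) -/
noncomputable def tt (K0 : ℕ → ℕ) (e n : ℕ) : ℕ :=
  if h : ∃ s, s0 n ≤ s ∧ stpK K0 e n s = true then Nat.find h else s0 n

private theorem tT_stp {K0 : ℕ → ℕ} {e n s : ℕ} : stpK K0 e n s = true ↔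
    K0 n ≤ e ∨ (e + 1 ≤ s ∧ hb e (List.replicate n false) (2 ^ (s - (e + 1))) = true) := by
  unfold stpK
  rw [Bool.or_eq_true, Bool.and_eq_true, decide_eq_true_iff, decide_eq_true_iff]

private theorem tT_le_ck (e n : ℕ) : n ≤ ck e n := by
  unfold ck
  split_ifs <;> omega

private theorem tT_ck_le {e n B : ℕ} (h : hb e (List.replicate n false) B = true) :
    ck e n ≤ n + B := by
  have h' : ∃ B, hb e (List.replicate n false) B = true := ⟨B, h⟩
  unfold ck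
  rw [dif_pos h']
  have := Nat.find_min' h' h
  omega

private theorem tT_lt_ck {e n B : ℕ} (he : Tot e) (h : ¬ hb e (List.replicate n false) B = true) :
    B ≤ ck e n := by
  unfold ck
  rw [dif_pos (he n)]
  by_contra hcon
  push Not at hcon
  apply h
  have h1 := Nat.find_spec (he n)
  rw [hb_iff] at h1 ⊢
  rw [conf_of_halted h1 (by omega)]
  exact h1

private theorem tT_size (n : ℕ) : n < 2 ^ s0 n := Nat.lt_size_self n

private theorem tT_size_le (n : ℕ) : 2 ^ s0 n ≤ 2 * n + 1 := by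
  unfold s0
  rcases Nat.eq_zero_or_pos n with h | h
  · subst h
    simp
  · have h1 : 0 < Nat.size n := Nat.size_pos.2 h
    have h2 : 2 ^ (Nat.size n - 1) ≤ n := Nat.lt_size.1 (by omega)
    have h3 : 2 ^ Nat.size n = 2 * 2 ^ (Nat.size n - 1) := by
      rw [← pow_succ']
      congr 1
      omega
    omega

theorem tt_exists (K0 : ℕ → ℕ) {e : ℕ} (he : Tot e) (m n : ℕ) :
    ∃ s, m ≤ s ∧ stpK K0 e n s = true := by
  obtain ⟨B, hB⟩ := he n
  refine ⟨m + (e + 1 + B), by omega, tT_stp.2 (Or.inr ⟨by omega, ?_⟩)⟩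
  rw [hb_iff] at hB ⊢
  have h1 : B ≤ 2 ^ (m + (e + 1 + B) - (e + 1)) :=
    (Nat.lt_two_pow_self (n := B)).le.trans (Nat.pow_le_pow_right (by norm_num) (by omega))
  rw [conf_of_halted hB h1]
  exact hB

theorem tt_ge (K0 : ℕ → ℕ) (e n : ℕ) : s0 n ≤ tt K0 e n := by
  unfold tt
  split_ifs with h
  · exact (Nat.find_spec h).1
  · exact le_refl _

private theorem tT_spec (K0 : ℕ → ℕ) {e : ℕ} (he : Tot e) (n : ℕ) : stpK K0 e n (tt K0 e n) = true := by
  unfold tt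
  rw [dif_pos (tt_exists K0 he (s0 n) n)]
  exact (Nat.find_spec (tt_exists K0 he (s0 n) n)).2

private theorem tT_min (K0 : ℕ → ℕ) {e : ℕ} (he : Tot e) {n s : ℕ} (h1 : s0 n ≤ s) (h2 : s < tt K0 e n) :
    ¬ stpK K0 e n s = true := by
  unfold tt at h2
  rw [dif_pos (tt_exists K0 he (s0 n) n)] at h2
  intro h3
  exact Nat.find_min (tt_exists K0 he (s0 n) n) h2 ⟨h1, h3⟩

/-- `ck e n` is `2 ^ tt e n` up to constant factors (depending on `e`). -/
theorem ck_le_tt {K0 : ℕ → ℕ} (hK : Tendsto K0 atTop atTop) {e : ℕ} (he : Tot e) :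
    ∃ C, ∀ n, ck e n ≤ C * 2 ^ tt K0 e n := by
  obtain ⟨N, hN⟩ := eventually_atTop.1 (hK.eventually_gt_atTop e)
  refine ⟨2 + ∑ m ∈ Finset.range N, ck e m, fun n => ?_⟩
  have hpos : 0 < 2 ^ tt K0 e n := by positivity
  by_cases hn : n < N
  · have h1 : ck e n ≤ ∑ m ∈ Finset.range N, ck e m :=
      Finset.single_le_sum (f := fun m => ck e m) (fun _ _ => Nat.zero_le _) (Finset.mem_range.2 hn)
    calc ck e n ≤ (2 + ∑ m ∈ Finset.range N, ck e m) * 1 := by omega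
      _ ≤ _ := Nat.mul_le_mul_left _ hpos
  · have h1 := tT_spec K0 he n
    rw [tT_stp] at h1
    rcases h1 with h1 | ⟨h1, h2⟩
    · exact absurd h1 (not_le.2 (hN n (by omega)))
    · have h3 := tT_ck_le h2
      have h4 : n < 2 ^ tt K0 e n :=
        (tT_size n).trans_le (Nat.pow_le_pow_right (by norm_num) (tt_ge K0 e n))
      have h5 : 2 ^ (tt K0 e n - (e + 1)) ≤ 2 ^ tt K0 e n :=
        Nat.pow_le_pow_right (by norm_num) (Nat.sub_le _ _)
      calc ck e n ≤ 2 * 2 ^ tt K0 e n := by omega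
        _ ≤ _ := Nat.mul_le_mul_right _ (Nat.le_add_right _ _)

theorem tt_le_ck {K0 : ℕ → ℕ} {e : ℕ} (he : Tot e) :
    ∃ C, ∀ n, 2 ^ tt K0 e n ≤ C * (ck e n + 1) := by
  refine ⟨2 ^ (e + 2), fun n => ?_⟩
  have h4 : (4 : ℕ) ≤ 2 ^ (e + 2) := by
    calc 4 = 2 ^ 2 := by norm_num
      _ ≤ 2 ^ (e + 2) := Nat.pow_le_pow_right (by norm_num) (by omega)
  rcases (tt_ge K0 e n).eq_or_lt with h | h
  · rw [← h]
    have h1 := tT_size_le n
    have h2 := tT_le_ck e n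
    calc 2 ^ s0 n ≤ 4 * (ck e n + 1) := by omega
      _ ≤ _ := Nat.mul_le_mul_right _ h4
  · obtain ⟨s, hs⟩ : ∃ s, tt K0 e n = s + 1 := ⟨tt K0 e n - 1, by omega⟩
    have h1 : ¬ stpK K0 e n s = true := tT_min K0 he (by omega) (by omega)
    rw [tT_stp] at h1
    push Not at h1
    rw [hs]
    by_cases h2 : e + 1 ≤ s
    · have h3 := tT_lt_ck he (h1.2 h2)
      have h5 : 2 ^ (s + 1) = 2 ^ (e + 2) * 2 ^ (s - (e + 1)) := by
        rw [← pow_add]
        congr 1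
        omega
      rw [h5]
      exact Nat.mul_le_mul_left _ (by omega)
    · calc 2 ^ (s + 1) ≤ 2 ^ (e + 2) * 1 := by
            rw [mul_one]
            exact Nat.pow_le_pow_right (by norm_num) (by omega)
        _ ≤ _ := Nat.mul_le_mul_left _ (by omega)

private theorem tT_log {a b C : ℕ} (h : 2 ^ a ≤ C * 2 ^ b) : a ≤ b + C := by
  have h1 : C < 2 ^ C := Nat.lt_two_pow_self
  have h2 : 2 ^ a ≤ 2 ^ (b + C) := by
    rw [pow_add, mul_comm (2 ^ b)]
    exact h.trans (Nat.mul_le_mul_right _ h1.le)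
  exact (Nat.pow_le_pow_iff_right (by norm_num)).1 h2

theorem ole_iff_ale {K0 : ℕ → ℕ} (hK : Tendsto K0 atTop atTop) {e e' : ℕ} (he : Tot e)
    (he' : Tot e') : Ole (ck e) (ck e') ↔ Ale (tt K0 e) (tt K0 e') := by
  obtain ⟨C1, h1⟩ := ck_le_tt hK he
  obtain ⟨C2, h2⟩ := tt_le_ck (K0 := K0) he
  obtain ⟨C3, h3⟩ := ck_le_tt hK he'
  obtain ⟨C4, h4⟩ := tt_le_ck (K0 := K0) he'
  constructor
  · rintro ⟨C, hC⟩
    refine ⟨C2 * (C * (C3 + 1) + 1), fun n => tT_log ?_⟩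
    have hp : 1 ≤ 2 ^ tt K0 e' n := Nat.one_le_two_pow
    calc 2 ^ tt K0 e n ≤ C2 * (ck e n + 1) := h2 n
      _ ≤ C2 * (C * (ck e' n + 1) + 1) := Nat.mul_le_mul_left _ (Nat.add_le_add_right (hC n) 1)
      _ ≤ C2 * (C * (C3 * 2 ^ tt K0 e' n + 2 ^ tt K0 e' n) + 2 ^ tt K0 e' n) :=
          Nat.mul_le_mul_left _ (Nat.add_le_add (Nat.mul_le_mul_left _ (Nat.add_le_add (h3 n) hp)) hp)
      _ = C2 * (C * (C3 + 1) + 1) * 2 ^ tt K0 e' n := by ring
  · rintro ⟨C, hC⟩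
    refine ⟨C1 * (2 ^ C * C4), fun n => ?_⟩
    calc ck e n ≤ C1 * 2 ^ tt K0 e n := h1 n
      _ ≤ C1 * 2 ^ (tt K0 e' n + C) := Nat.mul_le_mul_left _ (Nat.pow_le_pow_right (by norm_num) (hC n))
      _ = C1 * (2 ^ C * 2 ^ tt K0 e' n) := by rw [pow_add, mul_comm (2 ^ tt K0 e' n)]
      _ ≤ C1 * (2 ^ C * (C4 * (ck e' n + 1))) :=
          Nat.mul_le_mul_left _ (Nat.mul_le_mul_left _ (h4 n))
      _ = C1 * (2 ^ C * C4) * (ck e' n + 1) := by ring

/-- the functions of the adversary: even ones for `par = false`, odd ones for `par = true` -/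
theorem side_adv {K0 : ℕ → ℕ} {par : Bool} {A : ℕ → ℕ → ℕ} {F : ℕ → ℕ}
    (h : Side (stpK K0) par A F) {e : ℕ} (he : Tot e) (n : ℕ) :
    A (2 * e + (if par then 1 else 0)) n = min (tt K0 e n) (F n) := by
  have hok := h.ok n
  obtain ⟨v, hv⟩ : ∃ v, v = 2 * e + (if par then 1 else 0) := ⟨_, rfl⟩
  rw [← hv]
  have hme : (mkB A F (stpK K0) par n).me v = false := by
    show meP par v = false
    unfold meP
    cases par
    · rw [hv]
      simp
    · rw [hv]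
      simp
  have hdiv : v / 2 = e := by
    rw [hv]
    split_ifs <;> omega
  have hadv : ∀ s, s0 n ≤ s → s < F n → (stpK K0 e n s = true ↔ A v n ≤ s) := by
    intro s h1 h2
    have h3 := hok.adv v hme s h1 h2
    change (stpK K0 (v / 2) n s = true ↔ A v n ≤ s) at h3
    rwa [hdiv] at h3
  have hlo : s0 n ≤ A v n := hok.lo v
  have hhi : A v n ≤ F n := hok.hi v
  rcases lt_or_ge (tt K0 e n) (F n) with h1 | h1
  · rw [min_eq_left h1.le]
    have h2 : A v n ≤ tt K0 e n := (hadv _ (tt_ge K0 e n) h1).1 (tT_spec K0 he n)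
    rcases h2.eq_or_lt with h3 | h3
    · exact h3
    · exact absurd ((hadv (A v n) hlo (h3.trans h1)).2 le_rfl) (tT_min K0 he hlo h3)
  · rw [min_eq_right h1]
    rcases hhi.eq_or_lt with h3 | h3
    · exact h3
    · exact absurd ((hadv (A v n) hlo h3).2 le_rfl) (tT_min K0 he hlo (h3.trans_le h1))

theorem side_bounds {stp : ℕ → ℕ → ℕ → Bool} {par : Bool} {A : ℕ → ℕ → ℕ} {F : ℕ → ℕ}
    (h : Side stp par A F) (v n : ℕ) : s0 n ≤ A v n ∧ A v n ≤ F n :=
  ⟨(h.ok n).lo v, (h.ok n).hi v⟩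

end Pool.Agent.H71.CT
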