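import Pool.Agent.H71.CT.Table

/-! Codes of histories and look up in the strategy table. -/

namespace Pool.Agent.H71.CT

theorem codeOf_nil : codeOf [] = 1 := rfl

theorem codeOf_append (l : List Bool) (b : Bool) : codeOf (l ++ [b]) = 2 * codeOf l + b.toNat := by
  simp [codeOf, List.foldl_append]

private theorem tabCode_pos (l : List Bool) : 0 < codeOf l := by
  induction l using List.reverseRecOn with
  | nil => simp [codeOf]
  | append_singleton l b ih => rw [codeOf_append]; omega

private theorem tabCode_bits (l : List Bool) : Nat.bits (codeOf l) = l.reverse ++ [true] := by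
  induction l using List.reverseRecOn with
  | nil => simp [codeOf]
  | append_singleton l b ih =>
    have h0 := tabCode_pos l
    have h : codeOf (l ++ [b]) = Nat.bit b (codeOf l) := by
      rw [codeOf_append, Nat.bit_val]
    rw [h, Nat.bits_append_bit _ _ (fun h1 => by omega), ih]
    simp

theorem bitsOf_codeOf (l : List Bool) : bitsOf (codeOf l) = l := by
  simp [bitsOf, tabCode_bits]

theorem codeOf_lt (l : List Bool) : codeOf l < 2 ^ (l.length + 1) := by
  induction l using List.reverseRecOn with
  | nil => simp [codeOf]
  | append_singleton l b ih =>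
    rw [codeOf_append, List.length_append, List.length_singleton, pow_succ]
    have hb : b.toNat ≤ 1 := Bool.toNat_le b
    omega

theorem lev_mkT (own : ℕ → Bool) (K : ℕ) (pay : Q → ℕ) : lev (mkT own K pay) = K := by
  simp [lev, mkT]

private theorem tabCode_flat (f : ℕ → List ℕ) (hf : ∀ c, (f c).length = 4) (n c j : ℕ)
    (hc : c < n) (hj : j < 4) :
    ((List.range n).flatMap f).getD (4 * c + j) 0 = (f c).getD j 0 := by
  have hlen : ∀ n, ((List.range n).flatMap f).length = 4 * n := by
    intro n
    induction n with
    | zero => simp
    | succ n ih =>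
      rw [List.range_succ, List.flatMap_append, List.length_append, ih]
      simp [hf]
      ring
  induction n with
  | zero => omega
  | succ n ih =>
    rw [List.range_succ, List.flatMap_append]
    by_cases h : c < n
    · rw [List.getD_append _ _ _ _ (by rw [hlen]; omega)]
      exact ih h
    · have hcn : c = n := by omega
      subst hcn
      rw [List.getD_append_right _ _ _ _ (by rw [hlen]; omega), hlen]
      simp

theorem fld_mkT (own : ℕ → Bool) (K : ℕ) (pay : Q → ℕ) (l : List Bool) (hl : l.length ≤ NB K) :
    fld (mkT own K pay) (codeOf l) 0 = f0 own K pay l ∧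
    fld (mkT own K pay) (codeOf l) 1 = f1 own K pay l ∧
    fld (mkT own K pay) (codeOf l) 2 = f2 own K pay l ∧
    fld (mkT own K pay) (codeOf l) 3 = f3 K l := by
  have hc : codeOf l < 2 ^ (NB K + 1) :=
    lt_of_lt_of_le (codeOf_lt l) (Nat.pow_le_pow_right (by norm_num) (by omega))
  have key : ∀ j < 4, fld (mkT own K pay) (codeOf l) j =
      ([f0 own K pay l, f1 own K pay l, f2 own K pay l, f3 K l] : List ℕ).getD j 0 := by
    intro j hj
    have h := tabCode_flat (fun c =>
      [f0 own K pay (bitsOf c), f1 own K pay (bitsOf c), f2 own K pay (bitsOf c), f3 K (bitsOf c)])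
      (fun c => rfl) (2 ^ (NB K + 1)) (codeOf l) j hc hj
    rw [bitsOf_codeOf] at h
    rw [← h]
    unfold fld mkT
    have e : 1 + 4 * codeOf l + j = (4 * codeOf l + j) + 1 := by ring
    rw [e, List.getD_cons_succ]
  refine ⟨?_, ?_, ?_, ?_⟩
  · rw [key 0 (by norm_num)]; simp
  · rw [key 1 (by norm_num)]; simp
  · rw [key 2 (by norm_num)]; simp
  · rw [key 3 (by norm_num)]; simp

/-- the code after `v` bits of a step started at the code of `l` -/
theorem cst_eq (bit : ℕ → ℕ → Bool) (l : List Bool) (v : ℕ) :
    ∃ m : List Bool, m.length = v ∧ cst bit (codeOf l) v = codeOf (l ++ m) ∧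
      ∀ i < v, m.getD i false = bit i (codeOf (l ++ m.take i)) := by
  induction v with
  | zero => exact ⟨[], rfl, by simp [cst], by intro i hi; omega⟩
  | succ v ih =>
    obtain ⟨m, hm, hc, hb⟩ := ih
    refine ⟨m ++ [bit v (codeOf (l ++ m))], by simp [hm], ?_, ?_⟩
    · rw [← List.append_assoc, codeOf_append]
      simp only [cst]
      rw [hc]
    · intro i hi
      by_cases h : i < v
      · rw [List.getD_append _ _ _ _ (by omega), List.take_append_of_le_length (by omega)]
        exact hb i h
      · have hiv : i = v := by omega
        subst hiv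
        rw [List.getD_append_right _ _ _ _ (by omega), List.take_append_of_le_length (by omega)]
        simp [hm, List.take_of_length_le (le_of_eq hm)]

end Pool.Agent.H71.CT
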