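import Pool.Agent.H71.CT.AutoDef
import Pool.Agent.H71.CT.GenThm
import Pool.Agent.H71.CT.RealThm

/-! An automorphism of the growth order induces an automorphism of the complexity types. -/

namespace Pool.Agent.H71.CT

/-- The total programs `e` with `A ∈ DTIME(ck e)`. -/
def PA (A : Set (List Bool)) : Set ℕ := {e | Tot e ∧ DTIME (ck e) A}

theorem le_iff_PA (A B : CSet) : A ≤ B ↔ PA B.1 ⊆ PA A.1 := by
  constructor
  · intro h e he
    obtain ⟨f, hf, hf1, hf2⟩ := ck_tc he.1
    exact ⟨he.1, (h f hf (he.2.mono hf2)).mono hf1⟩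
  · intro h f hf hB
    obtain ⟨e, he, he1, he2⟩ := tc_index hf
    have h1 : e ∈ PA B.1 := ⟨he, hB.mono he1⟩
    exact (h h1).2.mono he2

private theorem types_le_ck (e n : ℕ) : n ≤ ck e n := by
  unfold ck
  split_ifs
  · exact Nat.le_add_right _ _
  · exact le_rfl

/-- image of a set under the correspondence (`gen_thm`, `unif`, `real_thm`) -/
theorem exists_image (R : ℕ → ℕ → Prop) (hR : IsAuto R) (A : CSet) :
    ∃ B : CSet, ∀ e e', R e e' → (e ∈ PA A.1 ↔ e' ∈ PA B.1) := by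
  obtain ⟨ι, hι, ht, hdesc, hgen⟩ := gen_thm A.1 A.2
  have hchain : ∀ j, Ole (ck (ι j)) (ck (ι 0)) := by
    intro j
    induction j with
    | zero => exact Ole.refl _
    | succ j ih => exact (hdesc j).trans ih
  obtain ⟨ι', hι', hRι⟩ := hR.unif ι hι ht (ι 0) (ht 0) hchain
  have ht' : ∀ j, Tot (ι' j) := fun j => (hR.tot _ _ (hRι j)).2
  have hdesc' : ∀ j, Ole (ck (ι' (j + 1))) (ck (ι' j)) := fun j =>
    (hR.iso _ _ _ _ (hRι (j + 1)) (hRι j)).1 (hdesc j)
  obtain ⟨B, hB, hBf⟩ := real_thm ι' hι' ht' hdesc'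
  refine ⟨⟨B, hB⟩, ?_⟩
  intro e e' he
  obtain ⟨te, te'⟩ := hR.tot e e' he
  have h1 : DTIME (ck e) A.1 ↔ ∃ j, Ole (ck (ι j)) (ck e) := by
    obtain ⟨f, hf, hf1, hf2⟩ := ck_tc te
    constructor
    · intro h
      obtain ⟨j, hj⟩ := (hgen f hf).1 (h.mono hf2)
      exact ⟨j, hj.trans hf1⟩
    · rintro ⟨j, hj⟩
      exact ((hgen f hf).2 ⟨j, hj.trans hf2⟩).mono hf1
  have h2 : DTIME (ck e') B ↔ ∃ j, Ole (ck (ι' j)) (ck e') := hBf (ck e') (types_le_ck e')
  have h3 : (∃ j, Ole (ck (ι j)) (ck e)) ↔ ∃ j, Ole (ck (ι' j)) (ck e') :=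
    exists_congr fun j => hR.iso _ _ _ _ (hRι j) he
  show (Tot e ∧ DTIME (ck e) A.1) ↔ (Tot e' ∧ DTIME (ck e') B)
  constructor
  · intro h
    exact ⟨te', h2.2 (h3.1 (h1.1 h.2))⟩
  · intro h
    exact ⟨te, h1.2 (h3.2 (h2.1 h.2))⟩

theorem exists_image' (R : ℕ → ℕ → Prop) (hR : IsAuto R) (B : CSet) :
    ∃ A : CSet, ∀ e e', R e e' → (e ∈ PA A.1 ↔ e' ∈ PA B.1) := by
  have hR' : IsAuto fun a b => R b a :=
    { tot := fun e e' h => (hR.tot e' e h).symm
      left := hR.right
      right := hR.left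
      iso := fun e₁ e₁' e₂ e₂' h₁ h₂ => (hR.iso e₁' e₁ e₂' e₂ h₁ h₂).symm
      unif := hR.unif'
      unif' := hR.unif }
  obtain ⟨A, hA⟩ := exists_image (fun a b => R b a) hR' B
  exact ⟨A, fun e e' h => (hA e' e h).symm⟩

private theorem types_rel (R : ℕ → ℕ → Prop) (hR : IsAuto R) {A A' B B' : CSet}
    (h : ∀ e e', R e e' → (e ∈ PA A.1 ↔ e' ∈ PA B.1))
    (h' : ∀ e e', R e e' → (e ∈ PA A'.1 ↔ e' ∈ PA B'.1)) : A ≤ A' ↔ B ≤ B' := by
  rw [le_iff_PA, le_iff_PA]
  constructor
  · intro hs e' he'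
    obtain ⟨e, he⟩ := hR.right e' he'.1
    exact (h e e' he).1 (hs ((h' e e' he).2 he'))
  · intro hs e he
    obtain ⟨e', he'⟩ := hR.left e he.1
    exact (h e e' he').2 (hs ((h' e e' he').1 he))

private theorem types_of_le (A B : CSet) : CType.of A ≤ CType.of B ↔ A ≤ B :=
  toAntisymmetrization_le_toAntisymmetrization_iff

private theorem types_of_eq (A B : CSet) : CType.of A = CType.of B ↔ A ≤ B ∧ B ≤ A := by
  rw [← types_of_le A B, ← types_of_le B A]
  exact ⟨fun h => ⟨h.le, h.ge⟩, fun h => le_antisymm h.1 h.2⟩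

private theorem types_surj (c : CType) : ∃ A : CSet, CType.of A = c :=
  ⟨ofAntisymmetrization (· ≤ ·) c, toAntisymmetrization_ofAntisymmetrization (· ≤ ·) c⟩

/-- The induced automorphism. -/
theorem exists_orderIso (R : ℕ → ℕ → Prop) (hR : IsAuto R) :
    ∃ π : CType ≃o CType, ∀ A B : CSet, π (CType.of A) = CType.of B ↔
      ∀ e e', R e e' → (e ∈ PA A.1 ↔ e' ∈ PA B.1) := by
  choose F hF using exists_image R hR
  choose G hG using exists_image' R hR
  choose r hr using types_surj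
  have hr1 : ∀ A : CSet, r (CType.of A) ≤ A ∧ A ≤ r (CType.of A) := fun A =>
    (types_of_eq _ _).1 (hr (CType.of A))
  let π : CType ≃o CType :=
    { toFun := fun c => CType.of (F (r c))
      invFun := fun c => CType.of (G (r c))
      left_inv := fun c => by
        show CType.of (G (r (CType.of (F (r c))))) = c
        have h1 := hr1 (F (r c))
        have h2 := hG (r (CType.of (F (r c))))
        have h3 := hF (r c)
        rw [← hr c, types_of_eq, hr c, types_rel R hR h2 h3, types_rel R hR h3 h2]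
        exact h1
      right_inv := fun c => by
        show CType.of (F (r (CType.of (G (r c))))) = c
        have h1 := hr1 (G (r c))
        have h2 := hF (r (CType.of (G (r c))))
        have h3 := hG (r c)
        rw [← hr c, types_of_eq, hr c, ← types_rel R hR h2 h3, ← types_rel R hR h3 h2]
        exact h1
      map_rel_iff' := fun {c d} => by
        show CType.of (F (r c)) ≤ CType.of (F (r d)) ↔ c ≤ d
        rw [types_of_le, ← types_rel R hR (hF (r c)) (hF (r d)), ← types_of_le, hr, hr] }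
  refine ⟨π, ?_⟩
  intro A B
  show CType.of (F (r (CType.of A))) = CType.of B ↔ _
  have h1 := hF (r (CType.of A))
  have h2 := hr1 A
  constructor
  · intro h e e' he
    have h3 := (types_of_eq _ _).1 h
    have h4 : PA (r (CType.of A)).1 = PA A.1 :=
      Set.Subset.antisymm ((le_iff_PA _ _).1 h2.2) ((le_iff_PA _ _).1 h2.1)
    have h5 : PA (F (r (CType.of A))).1 = PA B.1 :=
      Set.Subset.antisymm ((le_iff_PA _ _).1 h3.2) ((le_iff_PA _ _).1 h3.1)
    rw [← h4, ← h5]
    exact h1 e e' he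
  · intro h
    rw [types_of_eq, ← types_rel R hR h1 h, ← types_rel R hR h h1]
    exact h2

end Pool.Agent.H71.CT
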